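import Mathlib

/-! Chains on independence complexes of matroids: vanishing below the top and nonvanishing at the
top when there is no coloop. -/

namespace Pool.Agent.V117.MatHom

set_option linter.unusedSectionVars false

variable {ι : Type*} [Fintype ι] [LinearOrder ι] {K : Type*} [Field K]

/-- the sign of inserting `j` in `G` -/
def sg (K : Type*) [Field K] (j : ι) (G : Finset ι) : K := (-1) ^ (G.filter (· < j)).card

/-- the boundary operator -/
def bd (c : Finset ι → K) : Finset ι → K := fun G => ∑ j ∈ Gᶜ, sg K j G * c (insert j G)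

lemma bd_add (c d : Finset ι → K) : bd (c + d) = bd c + bd d := by
  funext G
  simp only [bd, Pi.add_apply, mul_add, Finset.sum_add_distrib]

lemma bd_neg (c : Finset ι → K) : bd (-c) = - bd c := by
  funext G
  simp only [bd, Pi.neg_apply, mul_neg, Finset.sum_neg_distrib]

lemma bd_sub (c d : Finset ι → K) : bd (c - d) = bd c - bd d := by
  rw [sub_eq_add_neg, bd_add, bd_neg, sub_eq_add_neg]

lemma bd_zero : bd (0 : Finset ι → K) = 0 := by
  funext G
  simp [bd]

/-- chains of size `s` on the family -/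
def Ch (𝓕 : Set (Finset ι)) (s : ℕ) (c : Finset ι → K) : Prop :=
  ∀ F, c F ≠ 0 → F ∈ 𝓕 ∧ F.card = s

/-- independence complexes -/
structure IsMat (𝓕 : Set (Finset ι)) : Prop where
  down : ∀ F ∈ 𝓕, ∀ G, G ⊆ F → G ∈ 𝓕
  aug : ∀ F ∈ 𝓕, ∀ G ∈ 𝓕, F.card < G.card → ∃ g ∈ G, g ∉ F ∧ insert g F ∈ 𝓕

def del (e : ι) (𝓕 : Set (Finset ι)) : Set (Finset ι) := {F | F ∈ 𝓕 ∧ e ∉ F}
def lnk (e : ι) (𝓕 : Set (Finset ι)) : Set (Finset ι) := {F | e ∉ F ∧ insert e F ∈ 𝓕}

lemma IsMat.del {𝓕 : Set (Finset ι)} (h : IsMat 𝓕) (e : ι) : IsMat (del e 𝓕) where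
  down := fun F hF G hG => ⟨h.down F hF.1 G hG, fun he => hF.2 (hG he)⟩
  aug := by
    intro F hF G hG hlt
    obtain ⟨g, hg, hgF, hm⟩ := h.aug F hF.1 G hG.1 hlt
    refine ⟨g, hg, hgF, hm, ?_⟩
    rw [Finset.mem_insert]
    rintro (rfl | he)
    · exact hG.2 hg
    · exact hF.2 he

lemma IsMat.lnk {𝓕 : Set (Finset ι)} (h : IsMat 𝓕) (e : ι) : IsMat (lnk e 𝓕) where
  down := fun F hF G hG => ⟨fun he => hF.1 (hG he), h.down _ hF.2 _ (Finset.insert_subset_insert e hG)⟩
  aug := by
    intro F hF G hG hlt
    obtain ⟨g, hg, hgF, hm⟩ := h.aug _ hF.2 _ hG.2 (by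
      rw [Finset.card_insert_of_notMem hF.1, Finset.card_insert_of_notMem hG.1]; omega)
    rw [Finset.mem_insert, not_or] at hgF
    rw [Finset.mem_insert] at hg
    rcases hg with rfl | hg
    · exact absurd rfl hgF.1
    · refine ⟨g, hg, hgF.2, ?_, ?_⟩
      · rw [Finset.mem_insert]
        rintro (rfl | he)
        · exact hgF.1 rfl
        · exact hF.1 he
      · rw [Finset.insert_comm]; exact hm

lemma IsMat.extend {𝓕 : Set (Finset ι)} (h : IsMat 𝓕) {F G : Finset ι} (hF : F ∈ 𝓕) (hG : G ∈ 𝓕)
    (hle : F.card ≤ G.card) : ∃ F' ∈ 𝓕, F ⊆ F' ∧ F' ⊆ F ∪ G ∧ F'.card = G.card := by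
  obtain ⟨m, hm⟩ : ∃ m, G.card - F.card = m := ⟨_, rfl⟩
  induction m generalizing F with
  | zero => exact ⟨F, hF, Finset.Subset.refl _, Finset.subset_union_left, by omega⟩
  | succ m ih =>
    obtain ⟨g, hg, hgF, hmem⟩ := h.aug F hF G hG (by omega)
    obtain ⟨F', hF', h1, h2, h3⟩ := ih hmem (by rw [Finset.card_insert_of_notMem hgF]; omega)
      (by rw [Finset.card_insert_of_notMem hgF]; omega)
    refine ⟨F', hF', (Finset.subset_insert _ _).trans h1, ?_, h3⟩
    intro z hz
    have := h2 hz
    rw [Finset.mem_union, Finset.mem_insert] at this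
    rw [Finset.mem_union]
    rcases this with (rfl | h4) | h4
    · exact Or.inr hg
    · exact Or.inl h4
    · exact Or.inr h4

def cone (e : ι) (c : Finset ι → K) : Finset ι → K := fun G => if e ∈ G then c (G.erase e) else 0
def lk (e : ι) (c : Finset ι → K) : Finset ι → K := fun G => if e ∈ G then 0 else c (insert e G)
def dl (e : ι) (c : Finset ι → K) : Finset ι → K := fun G => if e ∈ G then 0 else c G

lemma decomp (e : ι) (c : Finset ι → K) : c = cone e (lk e c) + dl e c := by
  funext G
  simp only [Pi.add_apply, cone, lk, dl]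
  by_cases he : e ∈ G
  · simp [he, Finset.insert_erase he]
  · simp [he]

lemma bd_cone (e : ι) (c : Finset ι → K) (h : ∀ F, c F ≠ 0 → ∀ x ∈ F, e < x) :
    bd (cone e c) = c - cone e (bd c) := by
  funext G
  simp only [Pi.sub_apply]
  by_cases he : e ∈ G
  · have hcG : c G = 0 := by
      by_contra hne
      exact lt_irrefl e (h G hne e he)
    have h1 : bd c (G.erase e) = ∑ j ∈ Gᶜ, sg K j (G.erase e) * c (insert j (G.erase e)) := by
      unfold bd
      rw [Finset.compl_erase, Finset.sum_insert (by simp [he]), Finset.insert_erase he, hcG,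
        mul_zero, zero_add]
    simp only [cone, if_pos he]
    rw [hcG, h1, zero_sub, ← Finset.sum_neg_distrib]
    unfold bd
    refine Finset.sum_congr rfl fun j hj => ?_
    have hjG : j ∉ G := by simpa using hj
    have hje : j ≠ e := by rintro rfl; exact hjG he
    simp only [cone, Finset.mem_insert, he, or_true, if_true]
    rw [Finset.erase_insert_of_ne hje]
    by_cases hc : c (insert j (G.erase e)) = 0
    · rw [hc]; simp
    · have hlt : e < j := h _ hc j (Finset.mem_insert_self _ _)
      have h2 : (G.filter (· < j)) = insert e ((G.erase e).filter (· < j)) := by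
        ext z
        simp only [Finset.mem_filter, Finset.mem_insert, Finset.mem_erase]
        constructor
        · rintro ⟨hz1, hz2⟩
          by_cases hze : z = e
          · exact Or.inl hze
          · exact Or.inr ⟨⟨hze, hz1⟩, hz2⟩
        · rintro (rfl | ⟨⟨_, hz1⟩, hz2⟩)
          · exact ⟨he, hlt⟩
          · exact ⟨hz1, hz2⟩
      have h3 : sg K j G = - sg K j (G.erase e) := by
        unfold sg
        rw [h2, Finset.card_insert_of_notMem (by simp), pow_succ]
        ring
      rw [h3]
      ring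
  · have h0 : cone e (bd c) G = 0 := by simp [cone, he]
    rw [h0, sub_zero]
    unfold bd
    rw [Finset.sum_eq_single e]
    · simp only [cone, Finset.mem_insert_self, if_true]
      rw [Finset.erase_insert he]
      by_cases hc : c G = 0
      · rw [hc, mul_zero]
      · have : G.filter (· < e) = ∅ := by
          rw [Finset.filter_eq_empty_iff]
          intro x hx
          exact not_lt.mpr (h G hc x hx).le
        unfold sg
        rw [this]; simp
    · intro j hj hje
      have : e ∉ insert j G := by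
        rw [Finset.mem_insert]
        rintro (rfl | h1)
        · exact hje rfl
        · exact he h1
      simp [cone, this]
    · intro h1
      exact absurd (by simpa using he) h1

lemma Ch.bd {𝓕 : Set (Finset ι)} (hdown : ∀ F ∈ 𝓕, ∀ G, G ⊆ F → G ∈ 𝓕) {s : ℕ}
    {c : Finset ι → K} (hc : Ch 𝓕 (s + 1) c) : Ch 𝓕 s (bd c) := by
  intro G hG
  unfold MatHom.bd at hG
  obtain ⟨j, hj, hne⟩ := Finset.exists_ne_zero_of_sum_ne_zero hG
  have hjG : j ∉ G := by simpa using hj
  obtain ⟨h1, h2⟩ := hc _ (right_ne_zero_of_mul hne)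
  refine ⟨hdown _ h1 _ (Finset.subset_insert _ _), ?_⟩
  rw [Finset.card_insert_of_notMem hjG] at h2
  omega

lemma bd_size_zero {𝓕 : Set (Finset ι)} {c : Finset ι → K} (hc : Ch 𝓕 0 c) : bd c = 0 := by
  funext G
  unfold bd
  refine Finset.sum_eq_zero fun j _ => ?_
  by_cases h : c (insert j G) = 0
  · rw [h, mul_zero]
  · have := (hc _ h).2
    rw [Finset.card_eq_zero] at this
    exact absurd this (Finset.insert_ne_empty _ _)

/-- The two components of a cycle. -/
lemma split_cycle {e : ι} {c : Finset ι → K} (h : ∀ F, c F ≠ 0 → ∀ x ∈ F, e ≤ x)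
    (hc : bd c = 0) : bd (lk e c) = 0 ∧ bd (dl e c) = - lk e c := by
  have hlk : ∀ F, lk e c F ≠ 0 → ∀ x ∈ F, e < x := by
    intro F hF x hx
    unfold lk at hF
    split_ifs at hF with he
    · exact absurd rfl hF
    · have h1 := h _ hF x (Finset.mem_insert_of_mem hx)
      exact lt_of_le_of_ne h1 (by rintro rfl; exact he hx)
  have h1 := bd_cone e (lk e c) hlk
  have h2 : bd c = bd (cone e (lk e c)) + bd (dl e c) := by
    rw [← bd_add, ← decomp]
  rw [hc, h1] at h2
  have hmem : ∀ G, e ∈ G → lk e c G = 0 ∧ bd (dl e c) G = 0 ∧ bd (lk e c) G = 0 := by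
    intro G hG
    refine ⟨by simp [lk, hG], ?_, ?_⟩
    · unfold bd
      refine Finset.sum_eq_zero fun j _ => ?_
      simp [dl, hG]
    · unfold bd
      refine Finset.sum_eq_zero fun j _ => ?_
      simp [lk, hG]
  have h3 : bd (lk e c) = 0 := by
    funext G
    by_cases hG : e ∈ G
    · exact (hmem G hG).2.2
    · have h4 := congrFun h2 (insert e G)
      simp only [Pi.zero_apply, Pi.add_apply, Pi.sub_apply] at h4
      rw [(hmem _ (Finset.mem_insert_self e G)).1, (hmem _ (Finset.mem_insert_self e G)).2.1] at h4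
      simp only [cone, Finset.mem_insert_self, if_true, Finset.erase_insert hG] at h4
      simpa using h4.symm
  refine ⟨h3, ?_⟩
  rw [h3] at h2
  have h5 : cone e (0 : Finset ι → K) = 0 := by
    funext G; simp [cone]
  rw [h5, sub_zero] at h2
  exact eq_neg_of_add_eq_zero_right h2.symm

lemma lk_Ch {𝓕 : Set (Finset ι)} {e : ι} {s : ℕ} {c : Finset ι → K} (hc : Ch 𝓕 (s + 1) c) :
    Ch (lnk e 𝓕) s (lk e c) := by
  intro F hF
  unfold lk at hF
  split_ifs at hF with he
  · exact absurd rfl hF
  · obtain ⟨h1, h2⟩ := hc _ hF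
    rw [Finset.card_insert_of_notMem he] at h2
    exact ⟨⟨he, h1⟩, by omega⟩

lemma dl_Ch {𝓕 : Set (Finset ι)} {e : ι} {s : ℕ} {c : Finset ι → K} (hc : Ch 𝓕 s c) :
    Ch (del e 𝓕) s (dl e c) := by
  intro F hF
  unfold dl at hF
  split_ifs at hF with he
  · exact absurd rfl hF
  · exact ⟨⟨(hc _ hF).1, he⟩, (hc _ hF).2⟩

lemma cone_Ch {𝓕 : Set (Finset ι)} {e : ι} {s : ℕ} {c : Finset ι → K} (hc : Ch (lnk e 𝓕) s c) :
    Ch 𝓕 (s + 1) (cone e c) := by
  intro F hF
  unfold cone at hF
  split_ifs at hF with he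
  · obtain ⟨⟨h1, h2⟩, h3⟩ := hc _ hF
    rw [Finset.insert_erase he] at h2
    rw [Finset.card_erase_of_mem he] at h3
    have : 0 < F.card := Finset.card_pos.mpr ⟨e, he⟩
    exact ⟨h2, by omega⟩
  · exact absurd rfl hF

lemma Ch.mono {𝓕 𝓖 : Set (Finset ι)} (h : 𝓕 ⊆ 𝓖) {s : ℕ} {c : Finset ι → K} (hc : Ch 𝓕 s c) :
    Ch 𝓖 s c := fun F hF => ⟨h (hc F hF).1, (hc F hF).2⟩

lemma Ch.add {𝓕 : Set (Finset ι)} {s : ℕ} {c d : Finset ι → K} (hc : Ch 𝓕 s c) (hd : Ch 𝓕 s d) :
    Ch 𝓕 s (c + d) := by
  intro F hF
  by_cases h : c F = 0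
  · apply hd
    intro h2
    apply hF
    rw [Pi.add_apply, h, h2, add_zero]
  · exact hc F h

lemma Ch.neg {𝓕 : Set (Finset ι)} {s : ℕ} {c : Finset ι → K} (hc : Ch 𝓕 s c) :
    Ch 𝓕 s (-c) := by
  intro F hF
  apply hc
  intro h
  apply hF
  rw [Pi.neg_apply, h, neg_zero]

/-- Vanishing below the top. -/
theorem vanish (W : Finset ι) : ∀ 𝓕 : Set (Finset ι), IsMat 𝓕 → (∀ F ∈ 𝓕, F ⊆ W) →
    ∀ s : ℕ, (∃ G ∈ 𝓕, s < G.card) → ∀ c : Finset ι → K, Ch 𝓕 s c → bd c = 0 →
      ∃ u : Finset ι → K, Ch 𝓕 (s + 1) u ∧ bd u = c := by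
  induction W using Finset.induction_on_min with
  | empty =>
    rintro 𝓕 _ hW s ⟨G, hG, hs⟩ c _ _
    have := hW G hG
    rw [Finset.subset_empty] at this
    subst this
    simp at hs
  | insert e W heW ih =>
    rintro 𝓕 hM hW s ⟨G, hG, hs⟩ c hc hbd
    have hdel : ∀ F ∈ del e 𝓕, F ⊆ W := by
      rintro F ⟨hF, he⟩ x hx
      have := hW F hF hx
      rw [Finset.mem_insert] at this
      rcases this with rfl | h
      · exact absurd hx he
      · exact h
    have hlnk : ∀ F ∈ lnk e 𝓕, F ⊆ W := by
      rintro F ⟨he, hF⟩ x hx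
      have := hW _ hF (Finset.mem_insert_of_mem hx)
      rw [Finset.mem_insert] at this
      rcases this with rfl | h
      · exact absurd hx he
      · exact h
    have hle : ∀ F, c F ≠ 0 → ∀ x ∈ F, e ≤ x := by
      intro F hF x hx
      have := hW F (hc F hF).1 hx
      rw [Finset.mem_insert] at this
      rcases this with rfl | h
      · exact le_rfl
      · exact (heW x h).le
    by_cases hloop : {e} ∈ 𝓕
    swap
    · -- `e` is a loop
      have hno : ∀ F ∈ 𝓕, e ∉ F := fun F hF he =>
        hloop (hM.down F hF {e} (Finset.singleton_subset_iff.mpr he))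
      exact ih 𝓕 hM (fun F hF => hdel F ⟨hF, hno F hF⟩) s ⟨G, hG, hs⟩ c hc hbd
    · obtain ⟨hb1, hb2⟩ := split_cycle hle hbd
      have hdlt : ∀ F, dl e c F ≠ 0 → ∀ x ∈ F, e < x := by
        intro F hF x hx
        have h1 := dl_Ch (e := e) hc F hF
        exact heW x (hdel F h1.1 hx)
      by_cases hdels : ∃ G' ∈ del e 𝓕, s < G'.card
      · -- Mayer-Vietoris step
        rcases Nat.eq_zero_or_pos s with rfl | hspos
        · refine ⟨cone e c, ?_, ?_⟩
          · intro F hF
            unfold cone at hF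
            split_ifs at hF with he
            · obtain ⟨h1, h2⟩ := hc _ hF
              rw [Finset.card_eq_zero] at h2
              have : F = {e} := by
                rw [← Finset.insert_erase he, h2]; rfl
              rw [this]
              exact ⟨hloop, by simp⟩
            · exact absurd rfl hF
          · rw [bd_cone, bd_size_zero hc]
            · funext F; simp [cone]
            · intro F hF x hx
              obtain ⟨h1, h2⟩ := hc _ hF
              rw [Finset.card_eq_zero] at h2
              subst h2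
              simp at hx
        · obtain ⟨s, rfl⟩ : ∃ s', s = s' + 1 := ⟨s - 1, by omega⟩
          -- the link has a large face
          obtain ⟨G2, hG2, hG2e, -, hG2c⟩ := hM.extend hloop hG (by
            rw [Finset.card_singleton]; omega)
          have hG2e' : e ∈ G2 := hG2e (Finset.mem_singleton_self e)
          have hlk : ∃ G' ∈ lnk e 𝓕, s < G'.card := by
            refine ⟨G2.erase e, ⟨by simp, by rw [Finset.insert_erase hG2e']; exact hG2⟩, ?_⟩
            rw [Finset.card_erase_of_mem hG2e']; omega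
          obtain ⟨u', hu', hbu'⟩ := ih _ (hM.lnk e) hlnk s hlk _ (lk_Ch hc) hb1
          have hsub : lnk e 𝓕 ⊆ del e 𝓕 := fun F hF =>
            ⟨hM.down _ hF.2 _ (Finset.subset_insert _ _), hF.1⟩
          have hv : Ch (del e 𝓕) (s + 1) (dl e c + u') := (dl_Ch hc).add (hu'.mono hsub)
          have hbv : bd (dl e c + u') = 0 := by
            rw [bd_add, hb2, hbu', neg_add_cancel]
          obtain ⟨u'', hu'', hbu''⟩ := ih _ (hM.del e) hdel (s + 1) hdels _ hv hbv
          refine ⟨u'' - cone e u', ?_, ?_⟩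
          · rw [sub_eq_add_neg]
            exact (hu''.mono fun F hF => hF.1).add (cone_Ch hu').neg
          · rw [bd_sub, hbu'', bd_cone e u', hbu']
            · conv_rhs => rw [decomp e c]
              abel
            · intro F hF x hx
              exact heW x (hlnk F (hu' F hF).1 hx)
      · -- every large face contains `e`
        push Not at hdels
        refine ⟨cone e (dl e c), ?_, ?_⟩
        · apply cone_Ch
          intro F hF
          obtain ⟨⟨h1, h2⟩, h3⟩ := dl_Ch (e := e) hc F hF
          refine ⟨⟨h2, ?_⟩, h3⟩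
          obtain ⟨g, hg, hgF, hmem⟩ := hM.aug F h1 G hG (by omega)
          by_cases hge : g = e
          · rw [← hge]; exact hmem
          · exfalso
            have h4 : insert g F ∈ del e 𝓕 := by
              refine ⟨hmem, ?_⟩
              rw [Finset.mem_insert]
              rintro (h5 | h5)
              · exact hge h5.symm
              · exact h2 h5
            have h5 := hdels _ h4
            rw [Finset.card_insert_of_notMem hgF] at h5
            omega
        · rw [bd_cone e _ hdlt, hb2]
          conv_rhs => rw [decomp e c]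
          have : cone e (-lk e c) = - cone e (lk e c) := by
            funext F
            simp only [cone, Pi.neg_apply]
            split_ifs <;> simp
          rw [this]
          abel

/-- Nonvanishing at the top without coloops. -/
theorem nonvanish (W : Finset ι) : ∀ 𝓕 : Set (Finset ι), IsMat 𝓕 → (∀ F ∈ 𝓕, F ⊆ W) →
    ∀ r : ℕ, (∃ G ∈ 𝓕, G.card = r) → (∀ G ∈ 𝓕, G.card ≤ r) →
      (∀ e, ∃ G ∈ 𝓕, G.card = r ∧ e ∉ G) →
      ∃ c : Finset ι → K, Ch 𝓕 r c ∧ bd c = 0 ∧ c ≠ 0 := by
  induction W using Finset.induction_on_min with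
  | empty =>
    rintro 𝓕 _ hW r ⟨G, hG, hr⟩ _ _
    have := hW G hG
    rw [Finset.subset_empty] at this
    subst this
    rw [Finset.card_empty] at hr
    subst hr
    refine ⟨fun F => if F = ∅ then 1 else 0, ?_, ?_, ?_⟩
    · intro F hF
      by_cases h : F = ∅
      · subst h; exact ⟨hG, rfl⟩
      · exact absurd (if_neg h) hF
    · funext F
      unfold bd
      refine Finset.sum_eq_zero fun j _ => ?_
      beta_reduce
      rw [if_neg (Finset.insert_ne_empty _ _), mul_zero]
    · intro h
      have := congrFun h ∅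
      simp at this
  | insert e W heW ih =>
    rintro 𝓕 hM hW r ⟨G, hG, hr⟩ hmax hco
    have hdel : ∀ F ∈ del e 𝓕, F ⊆ W := by
      rintro F ⟨hF, he⟩ x hx
      have := hW F hF hx
      rw [Finset.mem_insert] at this
      rcases this with rfl | h
      · exact absurd hx he
      · exact h
    have hlnk : ∀ F ∈ lnk e 𝓕, F ⊆ W := by
      rintro F ⟨he, hF⟩ x hx
      have := hW _ hF (Finset.mem_insert_of_mem hx)
      rw [Finset.mem_insert] at this
      rcases this with rfl | h
      · exact absurd hx he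
      · exact h
    by_cases hloop : {e} ∈ 𝓕
    swap
    · have hno : ∀ F ∈ 𝓕, e ∉ F := fun F hF he =>
        hloop (hM.down F hF {e} (Finset.singleton_subset_iff.mpr he))
      exact ih 𝓕 hM (fun F hF => hdel F ⟨hF, hno F hF⟩) r ⟨G, hG, hr⟩ hmax hco
    · have hr1 : 1 ≤ r := by
        have := hmax _ hloop
        rwa [Finset.card_singleton] at this
      obtain ⟨r, rfl⟩ : ∃ r', r = r' + 1 := ⟨r - 1, by omega⟩
      have hext : ∀ H ∈ 𝓕, H.card = r + 1 → ∃ G' ∈ lnk e 𝓕, G'.card = r ∧ G' ⊆ H := by
        intro H hH hHc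
        obtain ⟨G2, hG2, hG2e, hG2s, hG2c⟩ := hM.extend hloop hH (by
            rw [Finset.card_singleton]; omega)
        have hG2e' : e ∈ G2 := hG2e (Finset.mem_singleton_self e)
        refine ⟨G2.erase e, ⟨by simp, by rw [Finset.insert_erase hG2e']; exact hG2⟩, ?_, ?_⟩
        · rw [Finset.card_erase_of_mem hG2e']; omega
        · intro x hx
          rw [Finset.mem_erase] at hx
          have := hG2s hx.2
          rw [Finset.mem_union, Finset.mem_singleton] at this
          rcases this with h | h
          · exact absurd h hx.1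
          · exact h
      obtain ⟨c', hc', hbc', hne⟩ := ih (lnk e 𝓕) (hM.lnk e) hlnk r (by
          obtain ⟨G', h1, h2, -⟩ := hext G hG hr
          exact ⟨G', h1, h2⟩) (by
          intro F hF
          have := hmax _ hF.2
          rw [Finset.card_insert_of_notMem hF.1] at this
          omega) (by
          intro f
          obtain ⟨H, hH, hHc, hfH⟩ := hco f
          obtain ⟨G', h1, h2, h3⟩ := hext H hH hHc
          exact ⟨G', h1, h2, fun hf => hfH (h3 hf)⟩)
      have hsub : lnk e 𝓕 ⊆ del e 𝓕 := fun F hF =>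
            ⟨hM.down _ hF.2 _ (Finset.subset_insert _ _), hF.1⟩
      obtain ⟨H, hH, hHc, heH⟩ := hco e
      obtain ⟨w, hw, hbw⟩ := vanish W (del e 𝓕) (hM.del e) hdel r ⟨H, ⟨hH, heH⟩, by omega⟩ (-c')
        ((hc'.mono hsub).neg) (by rw [bd_neg, hbc', neg_zero])
      refine ⟨cone e c' + w, ?_, ?_, ?_⟩
      · exact (cone_Ch hc').add (hw.mono fun F hF => hF.1)
      · rw [bd_add, hbw, bd_cone e c', hbc']
        · have : cone e (0 : Finset ι → K) = 0 := by
            funext F; simp [cone]
          rw [this]; abel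
        · intro F hF x hx
          exact heW x (hlnk F (hc' F hF).1 hx)
      · intro h0
        apply hne
        funext F
        by_cases heF : e ∈ F
        · by_contra hcon
          exact (hc' F hcon).1.1 heF
        · have h1 := congrFun h0 (insert e F)
          simp only [Pi.add_apply, cone, Finset.mem_insert_self, if_true, Finset.erase_insert heF,
            Pi.zero_apply] at h1
          have h2 : w (insert e F) = 0 := by
            by_contra hcon
            exact (hw _ hcon).1.2 (Finset.mem_insert_self _ _)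
          rw [h2, add_zero] at h1
          exact h1

end Pool.Agent.V117.MatHom
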