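import Mathlib
import Pool.Agent.V117.MatHom

/-! Ranks of the boundary maps of families of finite sets, over different fields. -/

namespace Pool.Agent.V117.Kosz

open Pool.Agent.V117.MatHom

set_option linter.unusedSectionVars false

/-! ### Ranks of integer matrices over different fields -/

theorem rank_mono {κ X : Type} [Fintype X] (v : κ → X → ℤ) (K : Type) [Field K] :
    Module.finrank K (Submodule.span K (Set.range fun (i : κ) (x : X) => (v i x : K))) ≤
      Module.finrank ℚ (Submodule.span ℚ (Set.range fun (i : κ) (x : X) => (v i x : ℚ))) := by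
  classical
  obtain ⟨κ', a, ha, hspan, hli⟩ :=
    exists_linearIndependent' K (fun (i : κ) (x : X) => (v i x : K))
  have hfin : Finite κ' := hli.finite
  have : Fintype κ' := Fintype.ofFinite κ'
  rw [← hspan, finrank_span_eq_card hli]
  have hQ : LinearIndependent ℚ (fun (i : κ') (x : X) => (v (a i) x : ℚ)) := by
    rw [← LinearIndependent.iff_fractionRing ℤ ℚ, Fintype.linearIndependent_iff]
    intro g hg
    by_contra hcon
    push Not at hcon
    obtain ⟨i0, hi0⟩ := hcon
    obtain ⟨g', hg', hgcd⟩ := Finset.extract_gcd g (⟨i0, Finset.mem_univ _⟩ :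
      (Finset.univ : Finset κ').Nonempty)
    have hd : (Finset.univ : Finset κ').gcd g ≠ 0 := by
      intro h0
      apply hi0
      rw [hg' i0 (Finset.mem_univ _), h0, zero_mul]
    have h1 : ∀ x, ∑ i, g' i * v (a i) x = 0 := by
      intro x
      have h2 := congrFun hg x
      rw [Finset.sum_apply] at h2
      simp only [Pi.smul_apply, zsmul_eq_mul, Pi.zero_apply] at h2
      have h3 : ∑ i, g i * v (a i) x = 0 := by exact_mod_cast h2
      have h4 : (Finset.univ : Finset κ').gcd g * ∑ i, g' i * v (a i) x = 0 := by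
        rw [Finset.mul_sum, ← h3]
        refine Finset.sum_congr rfl fun i _ => ?_
        rw [← mul_assoc, ← hg' i (Finset.mem_univ _)]
      exact (mul_eq_zero.mp h4).resolve_left hd
    have h2 : ∀ i, (g' i : K) = 0 := by
      rw [Fintype.linearIndependent_iff] at hli
      apply hli (fun i => (g' i : K))
      funext x
      rw [Finset.sum_apply]
      simp only [Pi.smul_apply, smul_eq_mul, Pi.zero_apply, Function.comp]
      have := congrArg (Int.cast : ℤ → K) (h1 x)
      push_cast at this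
      exact this
    have h3 : ((ringChar K : ℕ) : ℤ) ∣ (Finset.univ : Finset κ').gcd g' :=
      Finset.dvd_gcd fun i _ => (CharP.intCast_eq_zero_iff K (ringChar K) _).mp (h2 i)
    rw [hgcd] at h3
    have h4 : ((1 : ℤ) : K) = 0 := (CharP.intCast_eq_zero_iff K (ringChar K) 1).mpr h3
    simp at h4
  rw [← finrank_span_eq_card hQ]
  apply Submodule.finrank_mono
  apply Submodule.span_mono
  rintro _ ⟨i, rfl⟩
  exact ⟨a i, rfl⟩

theorem finrank_map_add {K V V' : Type*} [Field K] [AddCommGroup V] [Module K V]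
    [AddCommGroup V'] [Module K V'] [FiniteDimensional K V] (p : Submodule K V)
    (f : V →ₗ[K] V') :
    Module.finrank K (p.map f) + Module.finrank K (p ⊓ LinearMap.ker f : Submodule K V) =
      Module.finrank K p := by
  have h := LinearMap.finrank_range_add_finrank_ker (f.domRestrict p)
  rw [LinearMap.range_domRestrict] at h
  rw [← h]
  congr 1
  refine LinearEquiv.finrank_eq ?_
  refine LinearEquiv.ofBijective
    ((LinearMap.codRestrict (LinearMap.ker (f.domRestrict p))
      (LinearMap.codRestrict p (p ⊓ LinearMap.ker f : Submodule K V).subtype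
        (fun x => x.2.1)) (fun x => ?_))) ⟨?_, ?_⟩
  · rw [LinearMap.mem_ker]
    exact x.2.2
  · intro x y hxy
    apply Subtype.ext
    have h1 := congrArg (fun z : LinearMap.ker (f.domRestrict p) => ((z : p) : V)) hxy
    exact h1
  · rintro ⟨⟨x, hx⟩, hx2⟩
    rw [LinearMap.mem_ker] at hx2
    exact ⟨⟨x, hx, hx2⟩, rfl⟩

variable {ι : Type} [Fintype ι] [LinearOrder ι]

section field
variable {K : Type} [Field K]

lemma sg_mul_self (j : ι) (G : Finset ι) : sg K j G * sg K j G = 1 := by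
  unfold sg
  rw [← mul_pow]; simp

/-- exterior multiplication by `e` -/
def wedge (e : ι) (c : Finset ι → K) : Finset ι → K :=
  fun G => if e ∈ G then sg K e (G.erase e) * c (G.erase e) else 0

lemma sg_insert_lt {j e : ι} (h : j < e) (H : Finset ι) : sg K j (insert e H) = sg K j H := by
  unfold sg
  rw [Finset.filter_insert, if_neg (not_lt.mpr h.le)]

lemma sg_insert_gt {j e : ι} (h : j < e) {H : Finset ι} (hj : j ∉ H) :
    sg K e (insert j H) = - sg K e H := by
  unfold sg
  rw [Finset.filter_insert, if_pos h, Finset.card_insert_of_notMem (by simp [hj]), pow_succ]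
  ring

lemma sg_swap {e j : ι} (hne : j ≠ e) {H : Finset ι} (he : e ∉ H) (hj : j ∉ H) :
    sg K j (insert e H) * sg K e (insert j H) = - (sg K e H * sg K j H) := by
  rcases lt_or_gt_of_ne hne with h | h
  · rw [sg_insert_lt h, sg_insert_gt h hj]; ring
  · rw [sg_insert_lt h, sg_insert_gt h he]; ring

theorem bd_wedge (e : ι) (c : Finset ι → K) : bd (wedge e c) = c - wedge e (bd c) := by
  funext G
  rw [Pi.sub_apply]
  by_cases he : e ∈ G
  · have hG : G = insert e (G.erase e) := (Finset.insert_erase he).symm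
    have heH : e ∉ G.erase e := by simp
    have h1 : bd (wedge e c) G = ∑ j ∈ Gᶜ, -(sg K e (G.erase e) * sg K j (G.erase e)) *
        c (insert j (G.erase e)) := by
      unfold bd
      refine Finset.sum_congr rfl fun j hj => ?_
      have hjG : j ∉ G := by simpa using hj
      have hje : j ≠ e := by rintro rfl; exact hjG he
      have hjH : j ∉ G.erase e := fun h => hjG (Finset.mem_of_mem_erase h)
      unfold wedge
      rw [if_pos (Finset.mem_insert_of_mem he), Finset.erase_insert_of_ne hje, ← mul_assoc]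
      congr 1
      conv_lhs => rw [hG]
      rw [Finset.erase_insert heH]
      exact sg_swap hje heH hjH
    have h2 : wedge e (bd c) G = c G + ∑ j ∈ Gᶜ, (sg K e (G.erase e) * sg K j (G.erase e)) *
        c (insert j (G.erase e)) := by
      unfold wedge bd
      rw [if_pos he, Finset.compl_erase, Finset.sum_insert (by simp [he]), Finset.insert_erase he,
        mul_add, ← mul_assoc, sg_mul_self, one_mul, Finset.mul_sum]
      congr 1
      exact Finset.sum_congr rfl fun j _ => by ring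
    rw [h1, h2]
    simp only [neg_mul, Finset.sum_neg_distrib]
    ring
  · have h2 : wedge e (bd c) G = 0 := by unfold wedge; rw [if_neg he]
    rw [h2, sub_zero]
    unfold bd
    rw [Finset.sum_eq_single e]
    · unfold wedge
      rw [if_pos (Finset.mem_insert_self _ _), Finset.erase_insert he, ← mul_assoc, sg_mul_self,
        one_mul]
    · intro j _ hje
      unfold wedge
      rw [if_neg, mul_zero]
      rw [Finset.mem_insert, not_or]
      exact ⟨Ne.symm hje, he⟩
    · intro h1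
      exact absurd (by simpa using he) h1

theorem bd_bd (c : Finset ι → K) : bd (bd c) = 0 := by
  funext G
  rw [Pi.zero_apply]
  unfold bd
  simp only [Finset.mul_sum]
  rw [Finset.sum_sigma']
  refine Finset.sum_involution (fun x _ => ⟨x.2, x.1⟩) ?_ ?_ ?_ ?_
  · rintro ⟨j, l⟩ hx
    simp only [Finset.mem_sigma, Finset.mem_compl, Finset.mem_insert, not_or] at hx
    obtain ⟨hj, hlj, hl⟩ := hx
    have h1 := sg_swap (K := K) hlj hj hl
    have h2 : sg K j G * sg K l (insert j G) = - (sg K l G * sg K j (insert l G)) := by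
      have h3 : sg K j (insert l G) * sg K j G * (sg K l (insert j G) * sg K j (insert l G)) =
          sg K j (insert l G) * sg K j G * -(sg K j G * sg K l G) := by rw [h1]
      have h4 : sg K j (insert l G) * sg K j G * (sg K l (insert j G) * sg K j (insert l G)) =
          (sg K j (insert l G) * sg K j (insert l G)) * (sg K j G * sg K l (insert j G)) := by ring
      have h5 : sg K j (insert l G) * sg K j G * -(sg K j G * sg K l G) =
          - ((sg K j G * sg K j G) * (sg K l G * sg K j (insert l G))) := by ring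
      rw [h4, h5, sg_mul_self, sg_mul_self, one_mul, one_mul] at h3
      exact h3
    rw [Finset.insert_comm j l G, ← mul_assoc, ← mul_assoc, h2]
    ring
  · rintro ⟨j, l⟩ hx _ heq
    simp only [Finset.mem_sigma, Finset.mem_compl, Finset.mem_insert, not_or] at hx
    obtain ⟨hj, hlj, hl⟩ := hx
    simp only [Sigma.mk.injEq, heq_eq_eq] at heq
    exact hlj heq.1
  · rintro ⟨j, l⟩ hx
    simp only [Finset.mem_sigma, Finset.mem_compl, Finset.mem_insert, not_or] at hx ⊢
    obtain ⟨hj, hlj, hl⟩ := hx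
    exact ⟨hl, Ne.symm hlj, hj⟩
  · rintro ⟨j, l⟩ hx
    rfl

lemma bd_smul (a : K) (c : Finset ι → K) : bd (a • c) = a • bd c := by
  funext G
  simp only [bd, Pi.smul_apply, smul_eq_mul, Finset.mul_sum]
  exact Finset.sum_congr rfl fun j _ => by ring

end field

/-- the boundary operator as a linear map -/
def bdL (K : Type) [Field K] : (Finset ι → K) →ₗ[K] (Finset ι → K) where
  toFun := bd
  map_add' := bd_add
  map_smul' := bd_smul

/-- the space of chains of size `s` on `𝓕` -/
def chS (K : Type) [Field K] (𝓕 : Set (Finset ι)) (s : ℕ) : Submodule K (Finset ι → K) where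
  carrier := {c | Ch 𝓕 s c}
  add_mem' := fun h1 h2 => h1.add h2
  zero_mem' := fun F hF => absurd rfl hF
  smul_mem' := by
    intro a c hc F hF
    apply hc
    intro h
    apply hF
    rw [Pi.smul_apply, h, smul_zero]

/-- rank of the boundary -/
noncomputable def rk (K : Type) [Field K] (𝓕 : Set (Finset ι)) (s : ℕ) : ℕ :=
  Module.finrank K ((chS K 𝓕 s).map (bdL K))

/-- dimension of the cycles -/
noncomputable def zk (K : Type) [Field K] (𝓕 : Set (Finset ι)) (s : ℕ) : ℕ :=
  Module.finrank K (chS K 𝓕 s ⊓ LinearMap.ker (bdL K) : Submodule K (Finset ι → K))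

/-- number of faces -/
noncomputable def nf (𝓕 : Set (Finset ι)) (s : ℕ) : ℕ :=
  Nat.card {F : Finset ι // F ∈ 𝓕 ∧ F.card = s}

section field
variable (K : Type) [Field K]

lemma chS_eq_span (𝓕 : Set (Finset ι)) (s : ℕ) :
    chS K 𝓕 s = Submodule.span K
      (Set.range fun F : {F : Finset ι // F ∈ 𝓕 ∧ F.card = s} => Pi.single F.1 (1 : K)) := by
  classical
  apply le_antisymm
  · intro c hc
    have hc' : Ch 𝓕 s c := hc
    have h1 : c = ∑ F : Finset ι, c F • Pi.single F (1 : K) := by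
      funext G
      rw [Finset.sum_apply, Finset.sum_eq_single G]
      · simp
      · intro F _ hF
        simp [Ne.symm hF]
      · intro h; exact absurd (Finset.mem_univ _) h
    rw [h1]
    refine Submodule.sum_mem _ fun F _ => ?_
    by_cases h : c F = 0
    · rw [h, zero_smul]; exact Submodule.zero_mem _
    · exact Submodule.smul_mem _ _ (Submodule.subset_span ⟨⟨F, hc' F h⟩, rfl⟩)
  · rw [Submodule.span_le]
    rintro _ ⟨F, rfl⟩
    intro G hG
    by_cases h : G = F.1
    · rw [h]; exact F.2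
    · exact absurd (Pi.single_eq_of_ne h _) hG

lemma finrank_chS (𝓕 : Set (Finset ι)) (s : ℕ) : Module.finrank K (chS K 𝓕 s) = nf 𝓕 s := by
  classical
  have hli : LinearIndependent K
      (fun F : {F : Finset ι // F ∈ 𝓕 ∧ F.card = s} => (Pi.single F.1 (1 : K) : Finset ι → K)) := by
    have h1 : LinearIndependent K (fun F : Finset ι => (Pi.single F (1 : K) : Finset ι → K)) :=
      Pi.linearIndependent_single_one (Finset ι) K
    exact h1.comp _ Subtype.val_injective
  rw [chS_eq_span, finrank_span_eq_card hli, nf, Nat.card_eq_fintype_card]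

lemma rk_add_zk (𝓕 : Set (Finset ι)) (s : ℕ) : rk K 𝓕 s + zk K 𝓕 s = nf 𝓕 s := by
  unfold rk zk
  rw [finrank_map_add, finrank_chS]

lemma rk_zero (𝓕 : Set (Finset ι)) : rk K 𝓕 0 = 0 := by
  unfold rk
  have : (chS K 𝓕 0).map (bdL K) = ⊥ := by
    rw [eq_bot_iff]
    rintro _ ⟨c, hc, rfl⟩
    exact bd_size_zero (𝓕 := 𝓕) hc
  rw [this, finrank_bot]

theorem rk_le_rat (𝓕 : Set (Finset ι)) (s : ℕ) : rk K 𝓕 s ≤ rk ℚ 𝓕 s := by
  classical
  let v : {F : Finset ι // F ∈ 𝓕 ∧ F.card = s} → Finset ι → ℤ := fun F G =>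
    ∑ j ∈ Gᶜ, (-1) ^ (G.filter (· < j)).card * (if insert j G = F.1 then 1 else 0)
  have key : ∀ (L : Type) [Field L], (chS L 𝓕 s).map (bdL L) = Submodule.span L
      (Set.range fun (F : {F : Finset ι // F ∈ 𝓕 ∧ F.card = s}) (G : Finset ι) => (v F G : L)) := by
    intro L _
    rw [chS_eq_span, Submodule.map_span, ← Set.range_comp]
    congr 2
    funext F G
    show bd (Pi.single F.1 (1 : L)) G = _
    simp only [bd, v, sg]
    push_cast
    refine Finset.sum_congr rfl fun j _ => ?_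
    rw [Pi.single_apply]
  unfold rk
  rw [key K, key ℚ]
  exact rank_mono v K

lemma down_B_le_Z {𝓕 : Set (Finset ι)} (hdown : ∀ F ∈ 𝓕, ∀ G, G ⊆ F → G ∈ 𝓕) (s : ℕ) :
    (chS K 𝓕 (s + 1)).map (bdL K) ≤ chS K 𝓕 s ⊓ LinearMap.ker (bdL K) := by
  rintro _ ⟨c, hc, rfl⟩
  exact ⟨Ch.bd hdown hc, bd_bd c⟩

/-- the dimension of the homology -/
noncomputable def hdim (𝓕 : Set (Finset ι)) (s : ℕ) : ℕ :=
  Module.finrank K ((chS K 𝓕 s ⊓ LinearMap.ker (bdL K) : Submodule K (Finset ι → K)) ⧸
    ((chS K 𝓕 (s + 1)).map (bdL K)).submoduleOf (chS K 𝓕 s ⊓ LinearMap.ker (bdL K)))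

lemma hdim_add {𝓕 : Set (Finset ι)} (hdown : ∀ F ∈ 𝓕, ∀ G, G ⊆ F → G ∈ 𝓕) (s : ℕ) :
    hdim K 𝓕 s + rk K 𝓕 (s + 1) = zk K 𝓕 s := by
  unfold hdim rk zk
  rw [← (Submodule.submoduleOfEquivOfLe (down_B_le_Z K hdown s)).finrank_eq]
  exact Submodule.finrank_quotient_add_finrank _

lemma hdim_add' {𝓕 : Set (Finset ι)} (hdown : ∀ F ∈ 𝓕, ∀ G, G ⊆ F → G ∈ 𝓕) (s : ℕ) :
    hdim K 𝓕 s + rk K 𝓕 (s + 1) + rk K 𝓕 s = nf 𝓕 s := by
  rw [hdim_add K hdown, add_comm, rk_add_zk]

/-- cones are acyclic -/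
lemma zk_eq_of_cone {𝓕 : Set (Finset ι)} (hdown : ∀ F ∈ 𝓕, ∀ G, G ⊆ F → G ∈ 𝓕) (e : ι)
    (hc : ∀ F ∈ 𝓕, insert e F ∈ 𝓕) (s : ℕ) : zk K 𝓕 s = rk K 𝓕 (s + 1) := by
  unfold rk zk
  have : chS K 𝓕 s ⊓ LinearMap.ker (bdL K) = (chS K 𝓕 (s + 1)).map (bdL K) := by
    apply le_antisymm _ (down_B_le_Z K hdown s)
    rintro c ⟨h1, h2⟩
    have h1' : Ch 𝓕 s c := h1
    have h2' : bd c = 0 := h2
    refine ⟨wedge e c, ?_, ?_⟩
    · intro F hF
      unfold wedge at hF
      split_ifs at hF with he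
      · obtain ⟨h3, h4⟩ := h1' _ (right_ne_zero_of_mul hF)
        have h5 := hc _ h3
        rw [Finset.insert_erase he] at h5
        rw [Finset.card_erase_of_mem he] at h4
        have := Finset.card_pos.mpr ⟨e, he⟩
        exact ⟨h5, by omega⟩
      · exact absurd rfl hF
    · show bd (wedge e c) = c
      rw [bd_wedge, h2']
      have : wedge e (0 : Finset ι → K) = 0 := by
        funext G; unfold wedge; simp
      rw [this, sub_zero]
  rw [this]

lemma rk_indep_of_cone {𝓕 : Set (Finset ι)} (hdown : ∀ F ∈ 𝓕, ∀ G, G ⊆ F → G ∈ 𝓕) (e : ι)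
    (hc : ∀ F ∈ 𝓕, insert e F ∈ 𝓕) (s : ℕ) : rk K 𝓕 s = rk ℚ 𝓕 s := by
  induction s with
  | zero => rw [rk_zero, rk_zero]
  | succ s ih =>
    rw [← zk_eq_of_cone K hdown e hc, ← zk_eq_of_cone ℚ hdown e hc]
    have h1 := rk_add_zk K 𝓕 s
    have h2 := rk_add_zk ℚ 𝓕 s
    omega

lemma zk_indep_of_cone {𝓕 : Set (Finset ι)} (hdown : ∀ F ∈ 𝓕, ∀ G, G ⊆ F → G ∈ 𝓕) (e : ι)
    (hc : ∀ F ∈ 𝓕, insert e F ∈ 𝓕) (s : ℕ) : zk K 𝓕 s = zk ℚ 𝓕 s := by
  rw [zk_eq_of_cone K hdown e hc, zk_eq_of_cone ℚ hdown e hc, rk_indep_of_cone K hdown e hc]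

lemma hdim_of_cone {𝓕 : Set (Finset ι)} (hdown : ∀ F ∈ 𝓕, ∀ G, G ⊆ F → G ∈ 𝓕) (e : ι)
    (hc : ∀ F ∈ 𝓕, insert e F ∈ 𝓕) (s : ℕ) : hdim K 𝓕 s = 0 := by
  have h1 := hdim_add K hdown s
  have h2 := zk_eq_of_cone K hdown e hc s
  omega

theorem hdim_ge_rat {𝓕 : Set (Finset ι)} (hdown : ∀ F ∈ 𝓕, ∀ G, G ⊆ F → G ∈ 𝓕) (s : ℕ) :
    hdim ℚ 𝓕 s ≤ hdim K 𝓕 s := by
  have h1 := hdim_add' K hdown s
  have h2 := hdim_add' ℚ hdown s
  have h3 := rk_le_rat K 𝓕 s
  have h4 := rk_le_rat K 𝓕 (s + 1)
  omega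

end field

end Pool.Agent.V117.Kosz
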