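import Mathlib
import Pool.Agent.V117.Kosz

/-! Transport, cones over truncated families and the linear strand. -/

namespace Pool.Agent.V117.Kosz

open Pool.Agent.V117.MatHom

set_option linter.unusedSectionVars false

section transport

variable {ι ι' : Type} [Fintype ι] [LinearOrder ι] [Fintype ι'] [LinearOrder ι']
variable (K : Type) [Field K]

/-- image of a family under an order embedding -/
def mapFam (f : ι ↪o ι') (𝓕 : Set (Finset ι)) : Set (Finset ι') :=
  {F' | ∃ F ∈ 𝓕, F' = F.map f.toEmbedding}

/-- extension by zero -/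
noncomputable def extL (f : ι ↪o ι') : (Finset ι → K) →ₗ[K] (Finset ι' → K) :=
  Function.ExtendByZero.linearMap K (fun F : Finset ι => F.map f.toEmbedding)

lemma map_inj (f : ι ↪o ι') : Function.Injective (fun F : Finset ι => F.map f.toEmbedding) :=
  Finset.map_injective _

lemma extL_apply_map (f : ι ↪o ι') (c : Finset ι → K) (F : Finset ι) :
    extL K f c (F.map f.toEmbedding) = c F := by
  exact (map_inj f).extend_apply c (0 : Finset ι' → K) F

lemma extL_apply_of_not (f : ι ↪o ι') (c : Finset ι → K) (F' : Finset ι')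
    (h : ¬ ∃ F : Finset ι, F.map f.toEmbedding = F') : extL K f c F' = 0 := by
  exact Function.extend_apply' c (0 : Finset ι' → K) F' h

lemma extL_injective (f : ι ↪o ι') : Function.Injective (extL K f) := by
  intro c d h
  funext F
  rw [← extL_apply_map K f c F, ← extL_apply_map K f d F, h]

lemma sg_map (f : ι ↪o ι') (j : ι) (G : Finset ι) :
    sg K (f j) (G.map f.toEmbedding) = sg K j G := by
  unfold sg
  rw [Finset.filter_map, Finset.card_map]
  congr 3
  ext z
  simp

lemma image_of_subset (f : ι ↪o ι') {F' G' : Finset ι'} (h : G' ⊆ F')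
    (hF : ∃ F : Finset ι, F.map f.toEmbedding = F') : ∃ G : Finset ι, G.map f.toEmbedding = G' := by
  classical
  obtain ⟨F, rfl⟩ := hF
  refine ⟨F.filter (fun i => f i ∈ G'), ?_⟩
  ext z
  simp only [Finset.mem_map, Finset.mem_filter]
  constructor
  · rintro ⟨i, ⟨_, hi⟩, rfl⟩
    exact hi
  · intro hz
    have h1 := h hz
    rw [Finset.mem_map] at h1
    obtain ⟨i, hi, rfl⟩ := h1
    exact ⟨i, ⟨hi, hz⟩, rfl⟩

lemma bd_extL (f : ι ↪o ι') (c : Finset ι → K) : bd (extL K f c) = extL K f (bd c) := by
  classical
  funext G'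
  by_cases h : ∃ G : Finset ι, G.map f.toEmbedding = G'
  · obtain ⟨G, rfl⟩ := h
    rw [extL_apply_map]
    unfold bd
    have h1 : ∑ j ∈ Gᶜ, sg K j G * c (insert j G) =
        ∑ j' ∈ (Gᶜ).map f.toEmbedding, sg K j' (G.map f.toEmbedding) *
          extL K f c (insert j' (G.map f.toEmbedding)) := by
      rw [Finset.sum_map]
      refine Finset.sum_congr rfl fun j _ => ?_
      have h2 : insert (f.toEmbedding j) (G.map f.toEmbedding) = (insert j G).map f.toEmbedding := by
        rw [Finset.map_insert]
      rw [h2, extL_apply_map]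
      congr 1
      exact (sg_map K f j G).symm
    rw [h1]
    symm
    apply Finset.sum_subset
    · intro z hz
      rw [Finset.mem_map] at hz
      obtain ⟨i, hi, rfl⟩ := hz
      rw [Finset.mem_compl] at hi ⊢
      rw [Finset.mem_map]
      rintro ⟨i', hi', h3⟩
      exact hi ((f.toEmbedding.injective h3) ▸ hi')
    · intro z hz hz2
      rw [extL_apply_of_not, mul_zero]
      rintro ⟨F, hF⟩
      have h3 : z ∈ F.map f.toEmbedding := by rw [hF]; exact Finset.mem_insert_self _ _
      rw [Finset.mem_map] at h3
      obtain ⟨i, hi, rfl⟩ := h3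
      apply hz2
      rw [Finset.mem_map]
      refine ⟨i, ?_, rfl⟩
      rw [Finset.mem_compl] at hz ⊢
      intro h4
      exact hz (Finset.mem_map_of_mem _ h4)
  · rw [extL_apply_of_not K f _ _ h]
    unfold bd
    refine Finset.sum_eq_zero fun j _ => ?_
    rw [extL_apply_of_not, mul_zero]
    intro h2
    exact h (image_of_subset f (Finset.subset_insert _ _) h2)

lemma chS_mapFam (f : ι ↪o ι') (𝓕 : Set (Finset ι)) (s : ℕ) :
    chS K (mapFam f 𝓕) s = (chS K 𝓕 s).map (extL K f) := by
  apply le_antisymm
  · intro c hc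
    have hc' : Ch (mapFam f 𝓕) s c := hc
    refine ⟨fun F => c (F.map f.toEmbedding), ?_, ?_⟩
    · intro F hF
      obtain ⟨⟨F2, hF2, h1⟩, h2⟩ := hc' _ hF
      have h3 := map_inj f h1
      subst h3
      exact ⟨hF2, by rwa [Finset.card_map] at h2⟩
    · funext F'
      by_cases h : ∃ F : Finset ι, F.map f.toEmbedding = F'
      · obtain ⟨F, rfl⟩ := h
        rw [extL_apply_map]
      · rw [extL_apply_of_not K f _ _ h]
        by_contra hcon
        obtain ⟨⟨F2, hF2, h1⟩, h2⟩ := hc' _ (Ne.symm hcon)
        exact h ⟨F2, h1.symm⟩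
  · rintro _ ⟨c, hc, rfl⟩
    have hc' : Ch 𝓕 s c := hc
    intro F' hF'
    by_cases h : ∃ F : Finset ι, F.map f.toEmbedding = F'
    · obtain ⟨F, rfl⟩ := h
      rw [extL_apply_map] at hF'
      obtain ⟨h1, h2⟩ := hc' F hF'
      exact ⟨⟨F, h1, rfl⟩, by rwa [Finset.card_map]⟩
    · exact absurd (extL_apply_of_not K f _ _ h) hF'

theorem rk_mapFam (f : ι ↪o ι') (𝓕 : Set (Finset ι)) (s : ℕ) :
    rk K (mapFam f 𝓕) s = rk K 𝓕 s := by
  unfold rk
  rw [chS_mapFam, ← Submodule.map_comp]
  have h1 : (bdL K).comp (extL K f) = (extL K f).comp (bdL (ι := ι) K) := by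
    apply LinearMap.ext
    intro c
    exact bd_extL K f c
  rw [h1, Submodule.map_comp]
  exact ((Submodule.equivMapOfInjective _ (extL_injective K f) _).finrank_eq).symm

lemma nf_mapFam (f : ι ↪o ι') (𝓕 : Set (Finset ι)) (s : ℕ) : nf (mapFam f 𝓕) s = nf 𝓕 s := by
  rw [← finrank_chS ℚ, ← finrank_chS ℚ, chS_mapFam]
  exact ((Submodule.equivMapOfInjective _ (extL_injective ℚ f) _).finrank_eq).symm

theorem zk_mapFam (f : ι ↪o ι') (𝓕 : Set (Finset ι)) (s : ℕ) :
    zk K (mapFam f 𝓕) s = zk K 𝓕 s := by
  have h1 := rk_add_zk K (mapFam f 𝓕) s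
  have h2 := rk_add_zk K 𝓕 s
  rw [rk_mapFam, nf_mapFam] at h1
  omega

end transport

section cone

variable {ι : Type} [Fintype ι] [LinearOrder ι] (K : Type) [Field K]

/-- contraction by `e` -/
def lkL (e : ι) : (Finset ι → K) →ₗ[K] (Finset ι → K) where
  toFun c := fun G => if e ∈ G then 0 else sg K e G * c (insert e G)
  map_add' := by
    intro c d
    funext G
    simp only [Pi.add_apply]
    split_ifs
    · simp
    · ring
  map_smul' := by
    intro a c
    funext G
    simp only [Pi.smul_apply, smul_eq_mul, RingHom.id_apply]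
    split_ifs
    · simp
    · ring

variable {K}

lemma lkL_apply (e : ι) (c : Finset ι → K) (G : Finset ι) :
    lkL K e c G = if e ∈ G then 0 else sg K e G * c (insert e G) := rfl

lemma decomp' (e : ι) (c : Finset ι → K) : c = dl e c + wedge e (lkL K e c) := by
  funext G
  simp only [Pi.add_apply, wedge, dl, lkL_apply]
  by_cases he : e ∈ G
  · simp only [he, if_true, zero_add, Finset.mem_erase, ne_eq, not_true_eq_false, false_and,
      if_false, Finset.insert_erase]
    rw [← mul_assoc, sg_mul_self, one_mul]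
  · simp [he]

lemma bd_decomp (e : ι) (c : Finset ι → K) :
    bd c = bd (dl e c) + (lkL K e c - wedge e (bd (lkL K e c))) := by
  conv_lhs => rw [decomp' e c]
  rw [bd_add, bd_wedge]

lemma bd_lkL_eq_zero {e : ι} {c : Finset ι → K} (h : bd c = 0) : bd (lkL K e c) = 0 := by
  have h1 := bd_decomp e c
  rw [h] at h1
  funext G
  rw [Pi.zero_apply]
  by_cases he : e ∈ G
  · unfold bd
    refine Finset.sum_eq_zero fun j _ => ?_
    rw [lkL_apply, if_pos (Finset.mem_insert_of_mem he), mul_zero]
  · have h2 := congrFun h1 (insert e G)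
    have h3 : bd (dl e c) (insert e G) = 0 := by
      unfold bd
      refine Finset.sum_eq_zero fun j _ => ?_
      simp [dl]
    have h4 : lkL K e c (insert e G) = 0 := by
      rw [lkL_apply, if_pos (Finset.mem_insert_self _ _)]
    simp only [Pi.zero_apply, Pi.add_apply, Pi.sub_apply] at h2
    rw [h3, h4, zero_add, zero_sub] at h2
    have h5 : wedge e (bd (lkL K e c)) (insert e G) = 0 := by
      rw [eq_comm, neg_eq_zero] at h2
      exact h2
    unfold wedge at h5
    rw [if_pos (Finset.mem_insert_self _ _), Finset.erase_insert he] at h5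
    have h6 := congrArg (fun z => sg K e G * z) h5
    simp only [mul_zero] at h6
    rw [← mul_assoc, sg_mul_self, one_mul] at h6
    exact h6

/-- the truncated cone family -/
def coneFam (e : ι) (W : Finset ι) (𝓓 : Set (Finset ι)) : Set (Finset ι) :=
  {F | F.card + 2 ≤ W.card ∧ ((e ∉ F ∧ F ⊆ W) ∨ (e ∈ F ∧ F.erase e ∈ 𝓓))}

/-- all subsets -/
def simp' (W : Finset ι) : Set (Finset ι) := {F | F ⊆ W}

variable (K)

theorem zk_coneFam {e : ι} {W : Finset ι} {𝓓 : Set (Finset ι)} (he : e ∉ W)
    (h𝓓 : ∀ F ∈ 𝓓, F ⊆ W) {s : ℕ} (hs : s + 3 ≤ W.card) :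
    zk K (coneFam e W 𝓓) (s + 1) = zk K 𝓓 s + zk K (simp' W) (s + 1) := by
  have hmap : (chS K (coneFam e W 𝓓) (s + 1) ⊓ LinearMap.ker (bdL K)).map (lkL K e) =
      chS K 𝓓 s ⊓ LinearMap.ker (bdL K) := by
    apply le_antisymm
    · rintro _ ⟨c, ⟨hc, hbc⟩, rfl⟩
      have hc' : Ch (coneFam e W 𝓓) (s + 1) c := hc
      have hbc' : bd c = 0 := hbc
      refine ⟨?_, bd_lkL_eq_zero hbc'⟩
      intro F hF
      rw [lkL_apply] at hF
      split_ifs at hF with heF
      · exact absurd rfl hF
      · obtain ⟨⟨h1, h2⟩, h3⟩ := hc' _ (right_ne_zero_of_mul hF)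
        rcases h2 with ⟨h2, _⟩ | ⟨_, h2⟩
        · exact absurd (Finset.mem_insert_self _ _) h2
        · rw [Finset.erase_insert heF] at h2
          rw [Finset.card_insert_of_notMem heF] at h3
          exact ⟨h2, by omega⟩
    · rintro v ⟨hv, hbv⟩
      have hv' : Ch 𝓓 s v := hv
      have hbv' : bd v = 0 := hbv
      obtain ⟨w, hw⟩ : ∃ w, w ∈ W := Finset.card_pos.mp (by omega)
      have hwe : w ≠ e := by rintro rfl; exact he hw
      have hve : ∀ F, v F ≠ 0 → e ∉ F := fun F hF heF => he (h𝓓 F (hv' F hF).1 heF)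
      refine ⟨wedge e v - wedge w v, ⟨?_, ?_⟩, ?_⟩
      · apply Submodule.sub_mem
        · intro F hF
          unfold wedge at hF
          split_ifs at hF with heF
          · obtain ⟨h1, h2⟩ := hv' _ (right_ne_zero_of_mul hF)
            rw [Finset.card_erase_of_mem heF] at h2
            have := Finset.card_pos.mpr ⟨e, heF⟩
            refine ⟨⟨by omega, Or.inr ⟨heF, h1⟩⟩, by omega⟩
          · exact absurd rfl hF
        · intro F hF
          unfold wedge at hF
          split_ifs at hF with hwF
          · obtain ⟨h1, h2⟩ := hv' _ (right_ne_zero_of_mul hF)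
            rw [Finset.card_erase_of_mem hwF] at h2
            have := Finset.card_pos.mpr ⟨w, hwF⟩
            have h3 : F ⊆ W := by
              rw [← Finset.insert_erase hwF]
              exact Finset.insert_subset hw (h𝓓 _ h1)
            exact ⟨⟨by omega, Or.inl ⟨fun h => he (h3 h), h3⟩⟩, by omega⟩
          · exact absurd rfl hF
      · show bd (wedge e v - wedge w v) = 0
        rw [bd_sub, bd_wedge, bd_wedge, hbv']
        have : ∀ x : ι, wedge x (0 : Finset ι → K) = 0 := by
          intro x; funext G; unfold wedge; simp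
        rw [this, this, sub_self]
      · rw [map_sub]
        funext G
        rw [Pi.sub_apply, lkL_apply, lkL_apply]
        by_cases heG : e ∈ G
        · rw [if_pos heG, if_pos heG, sub_zero]
          by_contra hcon
          exact hve G (Ne.symm hcon) heG
        · rw [if_neg heG, if_neg heG]
          have h1 : wedge e v (insert e G) = sg K e G * v G := by
            unfold wedge
            rw [if_pos (Finset.mem_insert_self _ _), Finset.erase_insert heG]
          have h2 : wedge w v (insert e G) = 0 := by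
            unfold wedge
            split_ifs with hwG
            · have : v ((insert e G).erase w) = 0 := by
                by_contra hcon
                exact hve _ hcon (Finset.mem_erase.mpr ⟨Ne.symm hwe, Finset.mem_insert_self _ _⟩)
              rw [this, mul_zero]
            · rfl
          rw [h1, h2, mul_zero, sub_zero, ← mul_assoc, sg_mul_self, one_mul]
  have hker : (chS K (coneFam e W 𝓓) (s + 1) ⊓ LinearMap.ker (bdL K)) ⊓ LinearMap.ker (lkL K e) =
      chS K (simp' W) (s + 1) ⊓ LinearMap.ker (bdL K) := by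
    apply le_antisymm
    · rintro c ⟨⟨hc, hbc⟩, hl⟩
      have hc' : Ch (coneFam e W 𝓓) (s + 1) c := hc
      have hl' : lkL K e c = 0 := hl
      refine ⟨?_, hbc⟩
      intro F hF
      obtain ⟨⟨h1, h2⟩, h3⟩ := hc' F hF
      rcases h2 with ⟨h2, h4⟩ | ⟨h2, h4⟩
      · exact ⟨h4, h3⟩
      · exfalso
        have h5 := congrFun hl' (F.erase e)
        rw [lkL_apply, if_neg (by simp), Finset.insert_erase h2] at h5
        apply hF
        have h6 := congrArg (fun z => sg K e (F.erase e) * z) h5
        simp only [Pi.zero_apply, mul_zero] at h6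
        rw [← mul_assoc, sg_mul_self, one_mul] at h6
        exact h6
    · rintro c ⟨hc, hbc⟩
      have hc' : Ch (simp' W) (s + 1) c := hc
      refine ⟨⟨?_, hbc⟩, ?_⟩
      · intro F hF
        obtain ⟨h1, h2⟩ := hc' F hF
        have h1' : F ⊆ W := h1
        exact ⟨⟨by omega, Or.inl ⟨fun h => he (h1' h), h1'⟩⟩, h2⟩
      · show lkL K e c = 0
        funext G
        rw [lkL_apply, Pi.zero_apply]
        split_ifs with heG
        · rfl
        · have : c (insert e G) = 0 := by
            by_contra hcon
            have h1 : insert e G ⊆ W := (hc' _ hcon).1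
            exact he (h1 (Finset.mem_insert_self _ _))
          rw [this, mul_zero]
  have h := finrank_map_add (chS K (coneFam e W 𝓓) (s + 1) ⊓ LinearMap.ker (bdL K)) (lkL K e)
  rw [hmap, hker] at h
  exact h.symm

lemma zk_simp_indep {W : Finset ι} (hW : W.Nonempty) (s : ℕ) :
    zk K (simp' W) s = zk ℚ (simp' W) s := by
  obtain ⟨w, hw⟩ := hW
  refine zk_indep_of_cone K ?_ w ?_ s
  · intro F hF G hG
    have hF' : F ⊆ W := hF
    exact hG.trans hF'
  · intro F hF
    have hF' : F ⊆ W := hF
    exact Finset.insert_subset hw hF'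

end cone

section edges

variable {ι : Type} [Fintype ι] [LinearOrder ι]

/-- subsets of `W` whose complement in `W` contains an edge -/
def DD (G : SimpleGraph ι) (W : Finset ι) : Set (Finset ι) :=
  {F | F ⊆ W ∧ ∃ u ∈ W, ∃ v ∈ W, u ∉ F ∧ v ∉ F ∧ G.Adj u v}

lemma DD_down (G : SimpleGraph ι) (W : Finset ι) : ∀ F ∈ DD G W, ∀ F', F' ⊆ F → F' ∈ DD G W := by
  rintro F ⟨h1, u, hu, v, hv, hu2, hv2, h⟩ F' hF'
  exact ⟨hF'.trans h1, u, hu, v, hv, fun h => hu2 (hF' h), fun h => hv2 (hF' h), h⟩

/-- non-edges in `W` -/
def nonE (G : SimpleGraph ι) (W : Finset ι) : SimpleGraph ι where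
  Adj u v := u ≠ v ∧ u ∈ W ∧ v ∈ W ∧ ¬ G.Adj u v
  symm := ⟨fun _ _ h => ⟨h.1.symm, h.2.2.1, h.2.1, fun h2 => h.2.2.2 h2.symm⟩⟩
  loopless := ⟨fun _ h => h.1 rfl⟩

variable (K : Type) [Field K]

lemma bd_pair {W : Finset ι} {u : Finset ι → K} (hu : ∀ F, u F ≠ 0 → F ⊆ W ∧ F.card + 1 = W.card)
    {w j : ι} (hw : w ∈ W) (hj : j ∈ W) (hjw : j ≠ w) :
    bd u ((W.erase w).erase j) = sg K j ((W.erase w).erase j) * sg K w (W.erase w) *
      (sg K w (W.erase w) * u (W.erase w) - sg K j (W.erase j) * u (W.erase j)) := by
  set G := (W.erase w).erase j with hG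
  have hjG : j ∉ G := by simp [hG]
  have hwG : w ∉ G := by simp [hG]
  have h1 : insert j G = W.erase w := by
    rw [hG, Finset.insert_erase]
    exact Finset.mem_erase.mpr ⟨hjw, hj⟩
  have h2 : insert w G = W.erase j := by
    rw [hG, Finset.erase_right_comm, Finset.insert_erase]
    exact Finset.mem_erase.mpr ⟨Ne.symm hjw, hw⟩
  have h3 : bd u G = sg K j G * u (W.erase w) + sg K w G * u (W.erase j) := by
    unfold bd
    rw [← Finset.sum_subset (s₁ := {j, w})]
    · rw [Finset.sum_pair hjw, h1, h2]
    · intro z hz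
      rw [Finset.mem_insert, Finset.mem_singleton] at hz
      rw [Finset.mem_compl]
      rcases hz with rfl | rfl <;> assumption
    · intro z hz hz2
      rw [Finset.mem_insert, Finset.mem_singleton, not_or] at hz2
      rw [Finset.mem_compl] at hz
      have : u (insert z G) = 0 := by
        by_contra hcon
        have h4 := (hu _ hcon).1 (Finset.mem_insert_self _ _)
        apply hz
        rw [hG, Finset.mem_erase, Finset.mem_erase]
        exact ⟨hz2.1, hz2.2, h4⟩
      rw [this, mul_zero]
  have h4 := sg_swap (K := K) hjw hwG hjG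
  rw [h1, h2] at h4
  have h5 : sg K w G * sg K j (W.erase j) * sg K j (W.erase j) = sg K w G := by
    rw [mul_assoc, sg_mul_self, mul_one]
  have h6 : sg K j G * sg K w (W.erase w) * sg K j (W.erase j) = - sg K w G := by
    have : sg K j G * sg K w (W.erase w) * sg K j (W.erase j) =
        sg K j G * (sg K j (W.erase j) * sg K w (W.erase w)) := by ring
    rw [this, h4]
    have : sg K j G * -(sg K w G * sg K j G) = - (sg K w G * (sg K j G * sg K j G)) := by ring
    rw [this, sg_mul_self, mul_one]
  rw [h3]
  have h7 : sg K j G * sg K w (W.erase w) *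
      (sg K w (W.erase w) * u (W.erase w) - sg K j (W.erase j) * u (W.erase j)) =
      sg K j G * (sg K w (W.erase w) * sg K w (W.erase w)) * u (W.erase w) -
      (sg K j G * sg K w (W.erase w) * sg K j (W.erase j)) * u (W.erase j) := by ring
  rw [h7, h6, sg_mul_self]
  ring

lemma eq_erase_of_card {W F : Finset ι} (h : F ⊆ W) (hc : F.card + 1 = W.card) :
    ∃ w ∈ W, F = W.erase w := by
  have h1 : (W \ F).card = 1 := by
    rw [Finset.card_sdiff_of_subset h]; omega
  rw [Finset.card_eq_one] at h1
  obtain ⟨w, hw⟩ := h1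
  have hw1 : w ∈ W \ F := by rw [hw]; simp
  rw [Finset.mem_sdiff] at hw1
  refine ⟨w, hw1.1, ?_⟩
  ext z
  rw [Finset.mem_erase]
  constructor
  · intro hz
    exact ⟨by rintro rfl; exact hw1.2 hz, h hz⟩
  · rintro ⟨hz1, hz2⟩
    by_contra hcon
    have : z ∈ W \ F := Finset.mem_sdiff.mpr ⟨hz2, hcon⟩
    rw [hw, Finset.mem_singleton] at this
    exact hz1 this

open Classical in
/-- the chain of a component -/
noncomputable def compCh (G : SimpleGraph ι) (W : Finset ι) (A : (nonE G W).ConnectedComponent) :
    Finset ι → K := fun F =>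
  ∑ w ∈ W, if (nonE G W).connectedComponentMk w = A ∧ F = W.erase w then sg K w (W.erase w) else 0

lemma compCh_erase (G : SimpleGraph ι) (W : Finset ι) (A : (nonE G W).ConnectedComponent) {w : ι}
    (hw : w ∈ W) [Decidable ((nonE G W).connectedComponentMk w = A)] :
    compCh K G W A (W.erase w) =
      if (nonE G W).connectedComponentMk w = A then sg K w (W.erase w) else 0 := by
  classical
  unfold compCh
  rw [Finset.sum_eq_single w]
  · simp
  · intro w' hw' hne
    rw [if_neg]
    rintro ⟨_, h⟩
    have h1 : w ∉ W.erase w := by simp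
    rw [h] at h1
    exact h1 (Finset.mem_erase.mpr ⟨Ne.symm hne, hw⟩)
  · intro h; exact absurd hw h

lemma compCh_supp (G : SimpleGraph ι) (W : Finset ι) (A : (nonE G W).ConnectedComponent)
    (F : Finset ι) (hF : compCh K G W A F ≠ 0) : F ⊆ W ∧ F.card + 1 = W.card := by
  classical
  unfold compCh at hF
  obtain ⟨w, hw, hne⟩ := Finset.exists_ne_zero_of_sum_ne_zero hF
  split_ifs at hne with h
  · rw [h.2]
    refine ⟨Finset.erase_subset _ _, ?_⟩
    rw [Finset.card_erase_of_mem hw]
    have := Finset.card_pos.mpr ⟨w, hw⟩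
    omega
  · exact absurd rfl hne

theorem cycles_eq_span (G : SimpleGraph ι) (W : Finset ι) {s : ℕ} (hs : s + 2 = W.card) :
    chS K (DD G W) s ⊓ LinearMap.ker (bdL K) = Submodule.span K
      (Set.range fun A : (nonE G W).ConnectedComponent => bd (compCh K G W A)) := by
  classical
  apply le_antisymm
  · rintro c ⟨hc, hbc⟩
    have hc' : Ch (DD G W) s c := hc
    have hbc' : bd c = 0 := hbc
    obtain ⟨w0, hw0⟩ : ∃ w, w ∈ W := Finset.card_pos.mp (by omega)
    let u := wedge w0 c
    have hbu : bd u = c := by
      show bd (wedge w0 c) = c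
      rw [bd_wedge, hbc']
      have : wedge w0 (0 : Finset ι → K) = 0 := by funext G; unfold wedge; simp
      rw [this, sub_zero]
    have hu : ∀ F, u F ≠ 0 → F ⊆ W ∧ F.card + 1 = W.card := by
      intro F hF
      have hF' : wedge w0 c F ≠ 0 := hF
      unfold wedge at hF'
      split_ifs at hF' with he
      · obtain ⟨h3, h4⟩ := hc' _ (right_ne_zero_of_mul hF')
        rw [Finset.card_erase_of_mem he] at h4
        have := Finset.card_pos.mpr ⟨w0, he⟩
        refine ⟨?_, by omega⟩
        rw [← Finset.insert_erase he]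
        exact Finset.insert_subset hw0 h3.1
      · exact absurd rfl hF'
    let g : ι → K := fun w => sg K w (W.erase w) * u (W.erase w)
    have hg : ∀ w j, (nonE G W).Adj w j → g w = g j := by
      rintro w j ⟨hne, hw, hj, hadj⟩
      have h1 := bd_pair K hu hw hj hne.symm
      rw [hbu] at h1
      have h2 : c ((W.erase w).erase j) = 0 := by
        by_contra hcon
        obtain ⟨⟨_, a, ha, b, hb, ha2, hb2, hab⟩, _⟩ := hc' _ hcon
        have ha3 : a = w ∨ a = j := by
          by_contra h; push Not at h
          exact ha2 (Finset.mem_erase.mpr ⟨h.2, Finset.mem_erase.mpr ⟨h.1, ha⟩⟩)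
        have hb3 : b = w ∨ b = j := by
          by_contra h; push Not at h
          exact hb2 (Finset.mem_erase.mpr ⟨h.2, Finset.mem_erase.mpr ⟨h.1, hb⟩⟩)
        rcases ha3 with rfl | rfl <;> rcases hb3 with rfl | rfl
        · exact G.loopless.irrefl _ hab
        · exact hadj hab
        · exact hadj hab.symm
        · exact G.loopless.irrefl _ hab
      rw [h2] at h1
      have h3 : sg K j ((W.erase w).erase j) * sg K w (W.erase w) ≠ 0 := by
        unfold sg
        exact mul_ne_zero (pow_ne_zero _ (by simp)) (pow_ne_zero _ (by simp))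
      have h4 := (mul_eq_zero.mp h1.symm).resolve_left h3
      exact sub_eq_zero.mp h4
    have hg2 : ∀ w j, (nonE G W).Reachable w j → g w = g j := by
      rintro w j ⟨p⟩
      induction p with
      | nil => rfl
      | cons h _ ih => exact (hg _ _ h).trans ih
    have hu2 : u = ∑ A : (nonE G W).ConnectedComponent, g A.out • compCh K G W A := by
      funext F
      rw [Finset.sum_apply]
      simp only [Pi.smul_apply, smul_eq_mul]
      by_cases hF : F ⊆ W ∧ F.card + 1 = W.card
      · obtain ⟨w, hw, rfl⟩ := eq_erase_of_card hF.1 hF.2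
        rw [Finset.sum_eq_single ((nonE G W).connectedComponentMk w)]
        · rw [compCh_erase K G W _ hw, if_pos rfl]
          have h1 : g ((nonE G W).connectedComponentMk w).out = g w := by
            apply hg2
            apply SimpleGraph.ConnectedComponent.exact
            exact Quot.out_eq _
          rw [h1]
          show u (W.erase w) = sg K w (W.erase w) * u (W.erase w) * sg K w (W.erase w)
          have : sg K w (W.erase w) * u (W.erase w) * sg K w (W.erase w) =
            (sg K w (W.erase w) * sg K w (W.erase w)) * u (W.erase w) := by ring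
          rw [this, sg_mul_self, one_mul]
        · intro A _ hA
          rw [compCh_erase K G W _ hw, if_neg (Ne.symm hA), mul_zero]
        · intro h; exact absurd (Finset.mem_univ _) h
      · have h1 : u F = 0 := by
          by_contra h; exact hF (hu F h)
        rw [h1]
        symm
        refine Finset.sum_eq_zero fun A _ => ?_
        have : compCh K G W A F = 0 := by
          by_contra h; exact hF (compCh_supp K G W A F h)
        rw [this, mul_zero]
    have hfin : c = ∑ A : (nonE G W).ConnectedComponent, g A.out • bd (compCh K G W A) := by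
      rw [← hbu]
      conv_lhs => rw [hu2]
      show bdL K _ = _
      rw [map_sum]
      refine Finset.sum_congr rfl fun A _ => ?_
      rw [map_smul]; rfl
    rw [hfin]
    exact Submodule.sum_mem _ fun A _ => Submodule.smul_mem _ _ (Submodule.subset_span ⟨A, rfl⟩)
  · rw [Submodule.span_le]
    rintro _ ⟨A, rfl⟩
    refine ⟨?_, bd_bd _⟩
    intro F hF
    have hF2 := hF
    unfold bd at hF2
    obtain ⟨j, hj, hne⟩ := Finset.exists_ne_zero_of_sum_ne_zero hF2
    have hjF : j ∉ F := by simpa using hj
    obtain ⟨h1, h2⟩ := compCh_supp K G W A _ (right_ne_zero_of_mul hne)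
    obtain ⟨w, hw, h3⟩ := eq_erase_of_card h1 h2
    have hjW : j ∈ W := h1 (Finset.mem_insert_self _ _)
    have hjw : j ≠ w := by
      rintro rfl
      have : j ∈ insert j F := Finset.mem_insert_self _ _
      rw [h3] at this
      simp at this
    have h4 : F = (W.erase w).erase j := by
      rw [← h3, Finset.erase_insert hjF]
    rw [Finset.card_insert_of_notMem hjF] at h2
    refine ⟨⟨(Finset.subset_insert _ _).trans h1, w, hw, j, hjW, ?_, hjF, ?_⟩, by omega⟩
    · rw [h4]; simp
    · by_contra hadj
      apply hF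
      show bd (compCh K G W A) F = 0
      rw [h4, bd_pair K (compCh_supp K G W A) hw hjW hjw, compCh_erase K G W A hw,
        compCh_erase K G W A hjW]
      have h5 : (nonE G W).connectedComponentMk w = (nonE G W).connectedComponentMk j :=
        SimpleGraph.ConnectedComponent.sound
          (SimpleGraph.Adj.reachable ⟨Ne.symm hjw, hw, hjW, hadj⟩)
      rw [h5]
      split_ifs
      · rw [sg_mul_self, sg_mul_self, sub_self, mul_zero]
      · rw [mul_zero, mul_zero, sub_self, mul_zero]

theorem zk_DD_le (G : SimpleGraph ι) (W : Finset ι) {s : ℕ} (hs : s + 2 = W.card) :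
    zk K (DD G W) s ≤ zk ℚ (DD G W) s := by
  classical
  let v : (nonE G W).ConnectedComponent → Finset ι → ℤ := fun A F =>
    ∑ j ∈ Fᶜ, (-1) ^ (F.filter (· < j)).card *
      ∑ w ∈ W, if (nonE G W).connectedComponentMk w = A ∧ insert j F = W.erase w then
        (-1) ^ ((W.erase w).filter (· < w)).card else 0
  have key : ∀ (L : Type) [Field L], (fun A : (nonE G W).ConnectedComponent =>
      bd (compCh L G W A)) = fun A F => ((v A F : ℤ) : L) := by
    intro L _
    funext A F
    simp only [bd, v, sg, compCh]
    push_cast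
    rfl
  unfold zk
  rw [cycles_eq_span K G W hs, cycles_eq_span ℚ G W hs, key K, key ℚ]
  exact rank_mono v K

/-- The rank of the boundary at size at least `|W| - 2` does not depend on the field. -/
theorem rk_DD_top (G : SimpleGraph ι) (W : Finset ι) {s : ℕ} (hs : W.card ≤ s + 2) :
    rk K (DD G W) s = rk ℚ (DD G W) s := by
  classical
  rcases Nat.eq_or_lt_of_le hs with h | h
  · have h1 := zk_DD_le K G W h.symm
    have h2 := rk_add_zk K (DD G W) s
    have h3 := rk_add_zk ℚ (DD G W) s
    have h4 := rk_le_rat K (DD G W) s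
    omega
  · have h1 : nf (DD G W) s = 0 := by
      unfold nf
      rw [Nat.card_eq_zero]
      left
      refine ⟨?_⟩
      rintro ⟨F, ⟨hFW, u, hu, v, hv, hu2, hv2, hadj⟩, hFs⟩
      have hne : u ≠ v := by rintro rfl; exact G.loopless.irrefl _ hadj
      have h2 : insert u (insert v F) ⊆ W := by
        intro z hz
        simp only [Finset.mem_insert] at hz
        rcases hz with rfl | rfl | hz
        · exact hu
        · exact hv
        · exact hFW hz
      have h3 := Finset.card_le_card h2
      rw [Finset.card_insert_of_notMem, Finset.card_insert_of_notMem hv2] at h3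
      · omega
      · rw [Finset.mem_insert, not_or]; exact ⟨hne, hu2⟩
    have h2 := rk_add_zk K (DD G W) s
    have h3 := rk_add_zk ℚ (DD G W) s
    omega

end edges

end Pool.Agent.V117.Kosz
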