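import Mathlib

/-! Monomial ideals of a polynomial ring over a field, described by upper sets of exponents. -/

namespace Pool.Agent.V117

open MvPolynomial

variable {σ : Type*} {K : Type*} [Field K]

/-- The ideal spanned by the monomials with exponent in `P`. -/
noncomputable def upIdeal (K : Type*) [Field K] (P : Set (σ →₀ ℕ)) : Ideal (MvPolynomial σ K) :=
  Ideal.span ((fun m => monomial m (1 : K)) '' P)

theorem mem_upIdeal {P : Set (σ →₀ ℕ)} (hP : IsUpperSet P) {f : MvPolynomial σ K} :
    f ∈ upIdeal K P ↔ ∀ m ∈ f.support, m ∈ P := by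
  unfold upIdeal
  rw [mem_ideal_span_monomial_image]
  constructor
  · intro h m hm
    obtain ⟨s, hs, hsm⟩ := h m hm
    exact hP hsm hs
  · intro h m hm
    exact ⟨m, h m hm, le_rfl⟩

theorem monomial_mem_upIdeal {P : Set (σ →₀ ℕ)} (hP : IsUpperSet P) {m : σ →₀ ℕ} {c : K}
    (hc : c ≠ 0) : monomial m c ∈ upIdeal K P ↔ m ∈ P := by
  classical
  rw [mem_upIdeal hP]
  constructor
  · intro h
    apply h
    rw [mem_support_iff, coeff_monomial, if_pos rfl]
    exact hc
  · intro h m' hm'
    have := support_monomial_subset hm'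
    rw [Finset.mem_singleton] at this
    rw [this]; exact h

/-- If `h` only has monomials that preserve the complement of `P` under addition, then `h` is a
nonzerodivisor modulo the monomial ideal of `P`. -/
theorem mem_of_mul_mem {P : Set (σ →₀ ℕ)} (hP : IsUpperSet P) {h f : MvPolynomial σ K}
    (h0 : h ≠ 0) (hh : ∀ a ∈ h.support, ∀ b, b ∉ P → a + b ∉ P)
    (hf : h * f ∈ upIdeal K P) : f ∈ upIdeal K P := by
  classical
  by_contra hcon
  -- the bad part of `f`
  let g : MvPolynomial σ K := ∑ m ∈ f.support.filter (fun m => m ∉ P), monomial m (coeff m f)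
  let g' : MvPolynomial σ K := ∑ m ∈ f.support.filter (fun m => ¬ (m ∉ P)), monomial m (coeff m f)
  have hgc : ∀ m, coeff m g = if m ∉ P then coeff m f else 0 := by
    intro m
    simp only [g, coeff_sum, coeff_monomial]
    rw [Finset.sum_ite_eq']
    by_cases hm : m ∈ f.support
    · by_cases hm2 : m ∈ P
      · simp [hm2]
      · simp only [hm2, not_false_eq_true, Finset.mem_filter, hm, and_self, if_true]
    · simp [notMem_support_iff.mp hm]
  have hgsupp : ∀ m ∈ g.support, m ∉ P := by
    intro m hm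
    rw [mem_support_iff, hgc] at hm
    by_contra hc
    simp [hc] at hm
  have hdecomp : f = g + g' := by
    conv_lhs => rw [f.as_sum]
    exact (Finset.sum_filter_add_sum_filter_not _ _ _).symm
  have hgood : g' ∈ upIdeal K P := by
    apply Ideal.sum_mem
    intro m hm
    rw [Finset.mem_filter] at hm
    exact (monomial_mem_upIdeal hP (mem_support_iff.mp hm.1)).mpr (not_not.mp hm.2)
  have hg0 : g ≠ 0 := by
    intro hg
    apply hcon
    rw [hdecomp, hg, zero_add]
    exact hgood
  have hhg : h * g ∈ upIdeal K P := by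
    have : h * g = h * f - h * g' := by
      rw [← mul_sub]
      congr 1
      rw [eq_sub_iff_add_eq]
      exact hdecomp.symm
    rw [this]
    exact Ideal.sub_mem _ hf (Ideal.mul_mem_left _ _ hgood)
  have hne : h * g ≠ 0 := mul_ne_zero h0 hg0
  obtain ⟨m, hm⟩ := Finset.nonempty_iff_ne_empty.mpr
    (fun hs => hne (MvPolynomial.support_eq_empty.mp hs))
  have h1 := (mem_upIdeal hP).mp hhg m hm
  have h2 := MvPolynomial.support_mul h g hm
  rw [Finset.mem_add] at h2
  obtain ⟨a, ha, b, hb, rfl⟩ := h2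
  exact hh a ha b (hgsupp b hb) h1

/-- Product of two monomial ideals. -/
theorem upIdeal_mul {P Q : Set (σ →₀ ℕ)} {R : Set (σ →₀ ℕ)}
    (h1 : ∀ p ∈ P, ∀ q ∈ Q, p + q ∈ R)
    (h2 : ∀ r ∈ R, ∃ p ∈ P, ∃ q ∈ Q, p + q ≤ r) :
    upIdeal K P * upIdeal K Q = upIdeal K R := by
  classical
  apply le_antisymm
  · unfold upIdeal
    rw [Ideal.span_mul_span']
    rw [Ideal.span_le]
    rintro _ ⟨_, ⟨p, hp, rfl⟩, _, ⟨q, hq, rfl⟩, rfl⟩
    simp only [monomial_mul, mul_one]
    exact Ideal.subset_span ⟨p + q, h1 p hp q hq, rfl⟩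
  · unfold upIdeal
    rw [Ideal.span_le]
    rintro _ ⟨r, hr, rfl⟩
    obtain ⟨p, hp, q, hq, hpq⟩ := h2 r hr
    have : monomial r (1 : K) = monomial (r - (p + q)) 1 * (monomial p 1 * monomial q 1) := by
      rw [monomial_mul, monomial_mul, mul_one, mul_one, tsub_add_cancel_of_le hpq]
    show monomial r (1 : K) ∈ _
    rw [this]
    apply Ideal.mul_mem_left
    exact Ideal.mul_mem_mul (Ideal.subset_span ⟨p, hp, rfl⟩) (Ideal.subset_span ⟨q, hq, rfl⟩)

theorem upIdeal_homogeneousComponent_mem {P : Set (σ →₀ ℕ)} (hP : IsUpperSet P)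
    {f : MvPolynomial σ K} (hf : f ∈ upIdeal K P) (d : ℕ) :
    homogeneousComponent d f ∈ upIdeal K P := by
  classical
  rw [mem_upIdeal hP] at hf ⊢
  intro m hm
  apply hf
  rw [mem_support_iff, coeff_homogeneousComponent] at hm
  rw [mem_support_iff]
  intro h
  simp [h] at hm

end Pool.Agent.V117
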