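import Mathlib

/-! A Cauchy-Binet formula as a sum over functions, and its weighted version. -/

namespace Pool.Agent.V117.CB

open Matrix Equiv

variable {m n R : Type*} [Fintype m] [DecidableEq m] [Fintype n] [CommRing R]

lemma det_mul_expand (A B : Matrix m n R) :
    (A * Bᵀ).det = ∑ c : m → n, (∏ i, B i (c i)) * (A.submatrix id c).det := by
  rw [det_apply']
  have h : ∀ σ : Perm m, ∏ i, (A * Bᵀ) (σ i) i = ∑ c : m → n, ∏ i, A (σ i) (c i) * B i (c i) := by
    intro σ
    simp only [Matrix.mul_apply, transpose_apply]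
    rw [Finset.prod_univ_sum]
    rw [Fintype.piFinset_univ]
  simp only [h, Finset.mul_sum]
  rw [Finset.sum_comm]
  refine Finset.sum_congr rfl fun c _ => ?_
  rw [det_apply', Finset.mul_sum]
  refine Finset.sum_congr rfl fun σ _ => ?_
  rw [Finset.prod_mul_distrib]
  simp only [submatrix_apply, id]
  ring

/-- Cauchy-Binet, summed over all functions. -/
lemma cauchyBinet (A B : Matrix m n R) :
    ((Fintype.card m).factorial : R) * (A * Bᵀ).det =
      ∑ c : m → n, (A.submatrix id c).det * (B.submatrix id c).det := by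
  have h1 : ∀ c : m → n, (A.submatrix id c).det * (B.submatrix id c).det =
      ∑ σ : Perm m, (∏ i, B i (c (σ.symm i))) * (A.submatrix id (c ∘ σ.symm)).det := by
    intro c
    rw [det_apply' (B.submatrix id c), Finset.mul_sum]
    refine Finset.sum_congr rfl fun σ _ => ?_
    have e1 : (A.submatrix id (c ∘ σ.symm)).det = (Perm.sign σ : ℤ) * (A.submatrix id c).det := by
      have : A.submatrix id (c ∘ σ.symm) = (A.submatrix id c).submatrix id σ.symm := rfl
      rw [this, det_permute', Perm.sign_symm]
    have e2 : ∏ i, B i (c (σ.symm i)) = ∏ i, B (σ i) (c i) := by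
      rw [← Equiv.prod_comp σ]
      simp
    rw [e1, e2]
    simp only [submatrix_apply, id]
    ring
  simp only [h1]
  rw [Finset.sum_comm]
  have h2 : ∀ σ : Perm m, ∑ c : m → n, (∏ i, B i (c (σ.symm i))) *
      (A.submatrix id (c ∘ σ.symm)).det = (A * Bᵀ).det := by
    intro σ
    rw [det_mul_expand]
    exact Fintype.sum_equiv (Equiv.arrowCongr σ (Equiv.refl n)) _ _ (fun c => rfl)
  simp only [h2]
  rw [Finset.sum_const, nsmul_eq_mul, Finset.card_univ, Fintype.card_perm]

omit [Fintype n] in
lemma det_weight (A B : Matrix m n R) (xr : m → R) (xc : n → R)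
    (h : ∀ i k, xr i * A i k = B i k * xc k) (c : m → n) :
    (∏ i, xr i) * (A.submatrix id c).det = (B.submatrix id c).det * ∏ i, xc (c i) := by
  rw [← det_mul_column, mul_comm (B.submatrix id c).det, ← det_mul_row]
  congr 1
  ext i j
  simp only [of_apply, submatrix_apply, id]
  rw [h, mul_comm]

lemma weighted (A B : Matrix m n R) (xr : m → R) (xc : n → R)
    (h : ∀ i k, xr i * A i k = B i k * xc k) :
    (∏ i, xr i) * (((Fintype.card m).factorial : R) * (A * Bᵀ).det) =
      ∑ c : m → n, (B.submatrix id c).det ^ 2 * ∏ i, xc (c i) := by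
  rw [cauchyBinet, Finset.mul_sum]
  refine Finset.sum_congr rfl fun c _ => ?_
  rw [← mul_assoc, det_weight A B xr xc h]
  ring

lemma sylvester [DecidableEq n] (A : Matrix m n R) (B : Matrix n m R) (s : R) :
    s ^ Fintype.card n * (Matrix.scalar m s - A * B).det =
      s ^ Fintype.card m * (Matrix.scalar n s - B * A).det := by
  have := congrArg (Polynomial.eval s) (charpoly_mul_comm' A B)
  rw [Polynomial.eval_mul, Polynomial.eval_mul, eval_charpoly, eval_charpoly] at this
  simpa using this

end Pool.Agent.V117.CB
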