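import Mathlib
import Pool.Agent.V117.CauchyBinet

/-! Identities for the presentation matrix of the Koszul module of a graph. -/

namespace Pool.Agent.V117.FittG

open Matrix

variable {n : ℕ} {R : Type*} [CommRing R]

/-- pairs `i < j` with `S i j` -/
abbrev Pair (S : Fin n → Fin n → Prop) := {p : Fin n × Fin n // p.1 < p.2 ∧ S p.1 p.2}

/-- triples `a < b < c` -/
abbrev Triple (n : ℕ) := {t : Fin n × Fin n × Fin n // t.1 < t.2.1 ∧ t.2.1 < t.2.2}

/-- coefficient of `e_i ∧ e_j` (`p = (i,j)`) in `e_a ∧ e_b x_c - e_a ∧ e_c x_b + e_b ∧ e_c x_a` -/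
def ent (x : Fin n → R) (p : Fin n × Fin n) (t : Fin n × Fin n × Fin n) : R :=
  (if p = (t.1, t.2.1) then x t.2.2 else 0) - (if p = (t.1, t.2.2) then x t.2.1 else 0)
    + (if p = (t.2.1, t.2.2) then x t.1 else 0)

/-- weighted graph boundary -/
def k1 (x : Fin n → R) (v : Fin n) (p : Fin n × Fin n) : R :=
  (if v = p.2 then x p.1 else 0) - (if v = p.1 then x p.2 else 0)

lemma sum_triple (F : Fin n → Fin n → Fin n → R) :
    ∑ t : Triple n, F t.1.1 t.1.2.1 t.1.2.2 =
      ∑ a, ∑ b, ∑ c, if a < b ∧ b < c then F a b c else 0 := by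
  rw [← Finset.sum_subtype (Finset.univ.filter
    (fun t : Fin n × Fin n × Fin n => t.1 < t.2.1 ∧ t.2.1 < t.2.2)) (by simp)
    (fun t => F t.1 t.2.1 t.2.2), Finset.sum_filter, Fintype.sum_prod_type]
  refine Finset.sum_congr rfl fun a _ => ?_
  rw [Fintype.sum_prod_type]

lemma sum_pair (S : Fin n → Fin n → Prop) [∀ i j, Decidable (S i j)] (F : Fin n → Fin n → R) :
    ∑ t : Pair S, F t.1.1 t.1.2 = ∑ a, ∑ b, if a < b ∧ S a b then F a b else 0 := by
  rw [← Finset.sum_subtype (Finset.univ.filter
    (fun t : Fin n × Fin n => t.1 < t.2 ∧ S t.1 t.2)) (by simp)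
    (fun t => F t.1 t.2), Finset.sum_filter, Fintype.sum_prod_type]

lemma collapse (x : Fin n → R) (i j : Fin n) (hij : i < j) (f : Fin n → Fin n → Fin n → R) :
    ∑ t : Triple n, ent x (i, j) t.1 * f t.1.1 t.1.2.1 t.1.2.2 =
      ∑ m, x m * ((if j < m then f i j m else 0) - (if i < m ∧ m < j then f i m j else 0)
        + (if m < i then f m i j else 0)) := by
  have h0 := sum_triple (fun a b c => ent x (i, j) (a, b, c) * f a b c)
  rw [show (∑ t : Triple n, ent x (i, j) t.1 * f t.1.1 t.1.2.1 t.1.2.2) =
    ∑ t : Triple n, ent x (i, j) (t.1.1, t.1.2.1, t.1.2.2) * f t.1.1 t.1.2.1 t.1.2.2 from rfl, h0]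
  have h1 : ∀ a b c : Fin n, (if a < b ∧ b < c then ent x (i, j) (a, b, c) * f a b c else 0) =
      (if a = i then (if b = j then (if j < c then x c * f i j c else 0) else 0) else 0)
      - (if a = i then (if c = j then (if i < b ∧ b < j then x b * f i b j else 0) else 0) else 0)
      + (if b = i then (if c = j then (if a < i then x a * f a i j else 0) else 0) else 0) := by
    intro a b c
    unfold ent
    simp only [Prod.mk.injEq]
    by_cases h1 : a = i
    · subst h1
      by_cases h2 : b = j
      · subst h2
        have h3 : ¬ b = a := fun h => by subst h; exact lt_irrefl _ hij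
        by_cases h4 : b < c
        · have h5 : ¬ b = c := fun h => by subst h; exact lt_irrefl _ h4
          have h6 : ¬ c = b := fun h => h5 h.symm
          have h7 : ¬ a = b := fun h => h3 h.symm
          simp [hij, h3, h4, h5, h6, h7]
        · simp [hij, h3, h4]
      · have h2' : ¬ j = b := fun h => h2 h.symm
        by_cases h3 : c = j
        · subst h3
          by_cases h4 : a < b
          · have h5 : ¬ a = b := fun h => by subst h; exact lt_irrefl _ h4
            have h6 : ¬ b = a := fun h => h5 h.symm
            by_cases h7 : b < c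
            · simp [h2, h2', h4, h5, h6, h7]
            · simp [h2, h4, h6, h7]
          · by_cases h5 : b = a
            · simp [h5]
            · simp [h2, h4, h5]
        · have h3' : ¬ j = c := fun h => h3 h.symm
          simp [h2, h3, h2', h3']
    · have h1' : ¬ i = a := fun h => h1 h.symm
      by_cases h2 : b = i
      · subst h2
        by_cases h3 : c = j
        · subst h3
          by_cases h4 : a < b
          · simp [h1, h1', h4, hij]
          · simp [h1, h4]
        · have h3' : ¬ j = c := fun h => h3 h.symm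
          simp [h1, h1', h3, h3']
      · have h2' : ¬ i = b := fun h => h2 h.symm
        simp [h1, h1', h2, h2']
  simp only [h1, Finset.sum_add_distrib, Finset.sum_sub_distrib, mul_add, mul_sub]
  congr 1
  · congr 1
    · simp only [Finset.sum_ite_irrel, Finset.sum_const_zero, Finset.sum_ite_eq',
        Finset.mem_univ, if_true, mul_ite, mul_zero]
    · simp only [Finset.sum_ite_irrel, Finset.sum_const_zero, Finset.sum_ite_eq',
        Finset.mem_univ, if_true, mul_ite, mul_zero]
  · simp only [Finset.sum_ite_irrel, Finset.sum_const_zero, Finset.sum_ite_eq',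
      Finset.mem_univ, if_true, mul_ite, mul_zero]

lemma key (i j k l m : ℕ) (hij : i < j) (hkl : k < l) :
    (if j < m then ((if k = i ∧ l = j then 1 else 0) - (if k = i ∧ l = m then 1 else 0)
      + (if k = j ∧ l = m then 1 else 0)) else 0)
    - (if i < m ∧ m < j then ((if k = i ∧ l = m then 1 else 0) - (if k = i ∧ l = j then 1 else 0)
      + (if k = m ∧ l = j then 1 else 0)) else 0)
    + (if m < i then ((if k = m ∧ l = i then 1 else 0) - (if k = m ∧ l = j then 1 else 0)
      + (if k = i ∧ l = j then 1 else 0)) else 0)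
    = (if k = i ∧ l = j then 1 else 0) - ((if l = j ∧ m = k then 1 else 0)
      - (if k = j ∧ m = l then 1 else 0) - (if l = i ∧ m = k then 1 else 0)
      + (if k = i ∧ m = l then (1:ℤ) else 0)) := by
  rcases lt_trichotomy m i with h | h | h
  · have h1 : ¬ j < m := by omega
    have h2 : ¬ (i < m ∧ m < j) := by omega
    simp only [h, h1, h2, if_true, if_false]
    split_ifs <;> omega
  · subst h
    have h1 : ¬ j < m := by omega
    simp only [h1, if_false, lt_irrefl, false_and]
    split_ifs <;> omega
  · rcases lt_trichotomy m j with h' | h' | h'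
    · have h1 : ¬ j < m := by omega
      have h2 : ¬ m < i := by omega
      simp only [h, h', h1, h2, and_self, if_true, if_false]
      split_ifs <;> omega
    · subst h'
      have h1 : ¬ m < i := by omega
      simp only [h1, if_false, lt_irrefl, and_false]
      split_ifs <;> omega
    · have h1 : ¬ (i < m ∧ m < j) := by omega
      have h2 : ¬ m < i := by omega
      simp only [h', h1, h2, if_true, if_false]
      split_ifs <;> omega

lemma sum_k1 (p : Fin n × Fin n) (f : Fin n → R) :
    ∑ v, k1 (fun _ => (1 : R)) v p * f v = f p.2 - f p.1 := by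
  unfold k1
  simp only [sub_mul, ite_mul, one_mul, zero_mul, Finset.sum_sub_distrib, Finset.sum_ite_eq',
    Finset.mem_univ, if_true]

lemma up_down (x : Fin n → R) (p q : Fin n × Fin n) (hp : p.1 < p.2) (hq : q.1 < q.2) :
    ∑ t : Triple n, ent x p t.1 * ent (fun _ => (1 : R)) q t.1 =
      (if p = q then ∑ v, x v else 0) - ∑ v, k1 (fun _ => (1 : R)) v p * k1 x v q := by
  obtain ⟨i, j⟩ := p
  obtain ⟨k, l⟩ := q
  rw [sum_k1]
  have h1 := collapse x i j hp (fun a b c => ent (fun _ => (1 : R)) (k, l) (a, b, c))
  rw [show (∑ t : Triple n, ent x (i, j) t.1 * ent (fun _ => (1 : R)) (k, l) t.1) =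
    ∑ t : Triple n, ent x (i, j) t.1 * (fun a b c => ent (fun _ => (1 : R)) (k, l) (a, b, c))
      t.1.1 t.1.2.1 t.1.2.2 from rfl, h1]
  have h2 : (if (i, j) = (k, l) then ∑ v, x v else 0) - (k1 x j (k, l) - k1 x i (k, l)) =
      ∑ m, x m * (((if k = i ∧ l = j then 1 else 0) - ((if l = j ∧ m = k then 1 else 0)
      - (if k = j ∧ m = l then 1 else 0) - (if l = i ∧ m = k then 1 else 0)
      + (if k = i ∧ m = l then (1:ℤ) else 0)) : ℤ) : R) := by
    have e : ∀ (P : Prop) [Decidable P] (c : Fin n),
        ∑ m, x m * (((if P ∧ m = c then (1:ℤ) else 0) : ℤ) : R) = if P then x c else 0 := by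
      intro P _ c
      by_cases hP : P
      · simp [hP]
      · simp [hP]
    simp only [Int.cast_sub, Int.cast_add, mul_sub, mul_add, Finset.sum_sub_distrib,
      Finset.sum_add_distrib, e]
    rw [← Finset.sum_mul]
    have e2 : (if (i, j) = (k, l) then ∑ v, x v else 0) =
        (∑ v, x v) * (((if k = i ∧ l = j then (1:ℤ) else 0) : ℤ) : R) := by
      by_cases h : k = i ∧ l = j
      · obtain ⟨rfl, rfl⟩ := h
        simp
      · rw [if_neg (fun h' => h (by rw [Prod.mk.injEq] at h'; exact ⟨h'.1.symm, h'.2.symm⟩)),
          if_neg h]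
        simp
    rw [e2]
    unfold k1
    simp only [eq_comm (a := j), eq_comm (a := i)]
    ring
  rw [h2]
  refine Finset.sum_congr rfl fun m _ => ?_
  congr 1
  have h3 := key i.1 j.1 k.1 l.1 m.1 hp hq
  simp only [← Fin.ext_iff, Fin.val_fin_lt] at h3
  rw [← h3]
  unfold ent
  simp only [Prod.mk.injEq]
  push_cast
  rfl

lemma lap_total (x : Fin n → R) (u v : Fin n) :
    ∑ a, ∑ b, (if a < b then k1 x u (a, b) * k1 (fun _ => (1 : R)) v (a, b) else 0) =
      (if u = v then ∑ m, x m else 0) - x v := by
  have h1 : ∀ a b : Fin n, (if a < b then k1 x u (a, b) * k1 (fun _ => (1 : R)) v (a, b) else 0) =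
      (if b = u then (if a < u then x a * ((if v = u then 1 else 0) - (if v = a then 1 else 0))
        else 0) else 0)
      + (if a = u then (if u < b then x b * ((if v = u then 1 else 0) - (if v = b then 1 else 0))
        else 0) else 0) := by
    intro a b
    unfold k1
    by_cases h1 : a = u
    · subst h1
      by_cases h2 : a < b
      · have h3 : ¬ b = a := fun h => by subst h; exact lt_irrefl _ h2
        have h4 : ¬ a = b := fun h => h3 h.symm
        simp only [h2, h3, h4, if_true, if_false]
        ring
      · by_cases h3 : b = a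
        · simp [h3]
        · simp [h2, h3]
    · have h1' : ¬ u = a := fun h => h1 h.symm
      by_cases h2 : b = u
      · subst h2
        by_cases h3 : a < b
        · simp [h1, h1', h3]
        · simp [h1, h3]
      · have h2' : ¬ u = b := fun h => h2 h.symm
        simp [h1, h1', h2, h2']
  simp only [h1, Finset.sum_add_distrib, Finset.sum_ite_irrel, Finset.sum_const_zero,
    Finset.sum_ite_eq', Finset.mem_univ, if_true]
  rw [← Finset.sum_add_distrib]
  have h2 : ∀ m : Fin n, ((if m < u then x m * ((if v = u then 1 else 0) -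
      (if v = m then 1 else 0)) else 0) + (if u < m then x m * ((if v = u then 1 else 0) -
      (if v = m then 1 else 0)) else 0)) = x m * (if u = v then 1 else 0) -
      (if m = v then x m else 0) := by
    intro m
    rcases lt_trichotomy m u with h | h | h
    · have h3 : ¬ u < m := fun h' => lt_asymm h h'
      simp only [h, h3, if_true, if_false, eq_comm (a := v)]
      by_cases h4 : m = v <;> simp [h4, mul_sub]
    · subst h
      simp only [lt_irrefl, if_false]
      by_cases h4 : m = v <;> simp [h4]
    · have h3 : ¬ m < u := fun h' => lt_asymm h h'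
      simp only [h, h3, if_true, if_false, eq_comm (a := v)]
      by_cases h4 : m = v <;> simp [h4, mul_sub]
  simp only [h2, Finset.sum_sub_distrib, Finset.sum_ite_eq', Finset.mem_univ, if_true]
  rw [← Finset.sum_mul]
  by_cases h : u = v <;> simp [h]

lemma lap (x : Fin n → R) (S : Fin n → Fin n → Prop) [∀ i j, Decidable (S i j)] (u v : Fin n) :
    ∑ t : Pair S, k1 x u t.1 * k1 (fun _ => (1 : R)) v t.1 + x v =
      (if u = v then ∑ m, x m else 0) -
        ∑ t : Pair (fun i j => ¬ S i j), k1 x u t.1 * k1 (fun _ => (1 : R)) v t.1 := by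
  have h1 := sum_pair S (fun a b => k1 x u (a, b) * k1 (fun _ => (1 : R)) v (a, b))
  have h2 := sum_pair (fun i j => ¬ S i j)
    (fun a b => k1 x u (a, b) * k1 (fun _ => (1 : R)) v (a, b))
  have h3 := lap_total x u v
  have h4 : ∑ a, ∑ b, (if a < b then k1 x u (a, b) * k1 (fun _ => (1 : R)) v (a, b) else 0) =
      ∑ a, ∑ b, (if a < b ∧ S a b then k1 x u (a, b) * k1 (fun _ => (1 : R)) v (a, b) else 0) +
      ∑ a, ∑ b, (if a < b ∧ ¬ S a b then k1 x u (a, b) * k1 (fun _ => (1 : R)) v (a, b)
        else 0) := by
    rw [← Finset.sum_add_distrib]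
    refine Finset.sum_congr rfl fun a _ => ?_
    rw [← Finset.sum_add_distrib]
    refine Finset.sum_congr rfl fun b _ => ?_
    by_cases ha : a < b <;> by_cases hs : S a b <;> simp [ha, hs]
  rw [h4, ← h1, ← h2] at h3
  have e1 : (∑ t : Pair S, k1 x u (t.1.1, t.1.2) * k1 (fun _ => (1 : R)) v (t.1.1, t.1.2)) =
    ∑ t : Pair S, k1 x u t.1 * k1 (fun _ => (1 : R)) v t.1 := rfl
  have e2 : (∑ t : Pair (fun i j => ¬ S i j), k1 x u (t.1.1, t.1.2) *
      k1 (fun _ => (1 : R)) v (t.1.1, t.1.2)) =
    ∑ t : Pair (fun i j => ¬ S i j), k1 x u t.1 * k1 (fun _ => (1 : R)) v t.1 := rfl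
  rw [e1, e2] at h3
  linear_combination h3

/-- the presentation matrix with weights `x`, rows the pairs not in `S` -/
def bigA (x : Fin n → R) (S : Fin n → Fin n → Prop) :
    Matrix (Pair (fun i j => ¬ S i j)) (Triple n) R := Matrix.of fun p t => ent x p.1 t.1

/-- extended boundary matrix with an extra column `y` -/
def ext (x y : Fin n → R) (S : Fin n → Fin n → Prop) : Matrix (Fin n) (Option (Pair S)) R :=
  Matrix.of fun v o => match o with
    | none => y v
    | some p => k1 x v p.1

/-- indicator of the root -/
def rt (r : Fin n) (v : Fin n) : R := if v = r then 1 else 0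

lemma det_scale (x : Fin n → R) (S : Fin n → Fin n → Prop) (r : Fin n)
    (c : Fin n → Option (Pair S)) :
    ((ext (fun _ => (1 : R)) x S).submatrix id c).det =
      (∑ v, x v) * ((ext (fun _ => (1 : R)) (rt r) S).submatrix id c).det := by
  have h1 : (ext (fun _ => (1 : R)) x S).submatrix id c =
      (1 + replicateCol Unit (fun v => x v - rt r v) * replicateRow Unit (fun _ => (1 : R))) *
        (ext (fun _ => (1 : R)) (rt r) S).submatrix id c := by
    rw [add_mul, one_mul, Matrix.mul_assoc]
    ext v u
    rw [Matrix.add_apply, mul_apply, Fintype.sum_unique, mul_apply]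
    simp only [submatrix_apply, id, replicateCol_apply, replicateRow_apply, one_mul, ext, of_apply]
    cases c u with
    | none =>
      have : ∑ w, (rt r w : R) = 1 := by simp [rt]
      rw [this]
      ring
    | some p =>
      have : ∑ w, k1 (fun _ => (1 : R)) w p.1 = 0 := by
        have := sum_k1 (R := R) p.1 (fun _ => 1)
        simpa using this
      simp [this]
  have h2 : (1 + replicateCol Unit (fun v => x v - rt r v) *
      replicateRow Unit (fun _ => (1 : R))).det = ∑ v, x v := by
    rw [det_one_add_replicateCol_mul_replicateRow]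
    simp [dotProduct, Finset.sum_sub_distrib, rt]
  rw [h1, det_mul, h2]

lemma main_id (x : Fin n → R) (S : Fin n → Fin n → Prop) [∀ i j, Decidable (S i j)] (r : Fin n) :
    ((n.factorial : R) * ∏ v, x v) * (∑ v, x v) ^ n *
      ∑ c : Pair (fun i j => ¬ S i j) → Triple n,
        ((bigA (fun _ => (1 : R)) S).submatrix id c).det ^ 2 *
          ∏ p, (x (c p).1.1 * x (c p).1.2.1 * x (c p).1.2.2) =
    ((Fintype.card (Pair (fun i j => ¬ S i j))).factorial : R) *
      (∑ v, x v) ^ (Fintype.card (Pair (fun i j => ¬ S i j)) + 2) *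
      (∏ p : Pair (fun i j => ¬ S i j), (x p.1.1 * x p.1.2)) *
      ∑ c : Fin n → Option (Pair S),
        ((ext (fun _ => (1 : R)) (rt r) S).submatrix id c).det ^ 2 *
          ∏ u, (match c u with
            | none => 1
            | some p => x p.1.1 * x p.1.2) := by
  set N := Fintype.card (Pair (fun i j => ¬ S i j)) with hN
  set s := ∑ v, x v with hs
  let A := bigA x S
  let B := bigA (fun _ => (1 : R)) S
  let P : Matrix (Fin n) (Pair (fun i j => ¬ S i j)) R := Matrix.of fun v p => k1 x v p.1
  let Q : Matrix (Fin n) (Pair (fun i j => ¬ S i j)) R :=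
    Matrix.of fun v p => k1 (fun _ => (1 : R)) v p.1
  have h1 : A * Bᵀ = Matrix.scalar _ s - Qᵀ * P := by
    ext p q
    rw [mul_apply, Matrix.sub_apply, mul_apply, scalar_apply, diagonal_apply]
    have := up_down x p.1 q.1 p.2.1 q.2.1
    simp only [Subtype.coe_inj] at this
    exact this
  have h2 : s ^ n * (A * Bᵀ).det = s ^ N * (Matrix.scalar (Fin n) s - P * Qᵀ).det := by
    have := CB.sylvester Qᵀ P s
    rw [Fintype.card_fin, ← h1] at this
    exact this
  have h3 : Matrix.scalar (Fin n) s - P * Qᵀ =
      ext x (fun _ => (1 : R)) S * (ext (fun _ => (1 : R)) x S)ᵀ := by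
    ext u v
    rw [Matrix.sub_apply, mul_apply, scalar_apply, diagonal_apply, mul_apply, Fintype.sum_option]
    have := lap x S u v
    show (if u = v then s else 0) - ∑ t : Pair (fun i j => ¬ S i j),
      k1 x u t.1 * k1 (fun _ => (1 : R)) v t.1 = 1 * x v + ∑ t : Pair S,
      k1 x u t.1 * k1 (fun _ => (1 : R)) v t.1
    rw [← this, one_mul, add_comm]
  have h4 := CB.weighted (ext x (fun _ => (1 : R)) S) (ext (fun _ => (1 : R)) x S) x
    (fun o => match o with
      | none => 1
      | some p => x p.1.1 * x p.1.2) (by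
      intro v o
      cases o with
      | none => simp [ext]
      | some p =>
        simp only [ext, of_apply, k1]
        by_cases ha : v = p.1.2
        · subst ha
          have hb : ¬ p.1.2 = p.1.1 := fun h => absurd p.2.1 (by rw [h]; exact lt_irrefl _)
          simp only [hb, if_true, if_false]
          ring
        · by_cases hb : v = p.1.1
          · subst hb
            simp only [ha, if_true, if_false]
            ring
          · simp [ha, hb])
  have h5 := CB.weighted A B (fun p => x p.1.1 * x p.1.2)
    (fun t => x t.1.1 * x t.1.2.1 * x t.1.2.2) (by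
      intro p t
      simp only [A, B, bigA, of_apply, ent]
      by_cases ha : p.1 = (t.1.1, t.1.2.1)
      · have hb : ¬ (t.1.1, t.1.2.1) = (t.1.1, t.1.2.2) := fun h => by
          rw [Prod.mk.injEq] at h
          exact absurd t.2.2 (by rw [← h.2]; exact lt_irrefl _)
        have hc : ¬ (t.1.1, t.1.2.1) = (t.1.2.1, t.1.2.2) := fun h => by
          rw [Prod.mk.injEq] at h
          exact absurd t.2.1 (by rw [← h.1]; exact lt_irrefl _)
        rw [ha]
        simp only [hb, hc, if_true, if_false]
        ring
      · by_cases hb : p.1 = (t.1.1, t.1.2.2)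
        · have hc : ¬ (t.1.1, t.1.2.2) = (t.1.2.1, t.1.2.2) := fun h => by
            rw [Prod.mk.injEq] at h
            exact absurd t.2.1 (by rw [← h.1]; exact lt_irrefl _)
          rw [hb] at ha ⊢
          simp only [ha, hc, if_true, if_false]
          ring
        · by_cases hc : p.1 = (t.1.2.1, t.1.2.2)
          · rw [hc] at ha hb ⊢
            simp only [ha, hb, if_true, if_false]
            ring
          · simp only [ha, hb, hc, if_false]
            ring)
  rw [Fintype.card_fin, ← h3] at h4
  have h6 : ∑ c : Fin n → Option (Pair S), ((ext (fun _ => (1 : R)) x S).submatrix id c).det ^ 2 *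
      ∏ u, (match c u with
        | none => 1
        | some p => x p.1.1 * x p.1.2) =
      s ^ 2 * ∑ c : Fin n → Option (Pair S),
        ((ext (fun _ => (1 : R)) (rt r) S).submatrix id c).det ^ 2 *
          ∏ u, (match c u with
            | none => 1
            | some p => x p.1.1 * x p.1.2) := by
    rw [Finset.mul_sum]
    refine Finset.sum_congr rfl fun c _ => ?_
    rw [det_scale x S r c]
    ring
  have h7 : (∏ v, x v) * ((n.factorial : R) * (Matrix.scalar (Fin n) s - P * Qᵀ).det) =
      s ^ 2 * ∑ c : Fin n → Option (Pair S),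
        ((ext (fun _ => (1 : R)) (rt r) S).submatrix id c).det ^ 2 *
          ∏ u, (match c u with
            | none => 1
            | some p => x p.1.1 * x p.1.2) := h4.trans h6
  rw [← h5, pow_add]
  linear_combination ((n.factorial : R) * (∏ v, x v) *
    (∏ p : Pair (fun i j => ¬ S i j), (x p.1.1 * x p.1.2)) * (N.factorial : R)) * h2 +
    ((N.factorial : R) * s ^ N * (∏ p : Pair (fun i j => ¬ S i j), (x p.1.1 * x p.1.2))) * h7

end Pool.Agent.V117.FittG
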