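import Mathlib
import Pool.Agent.V117.FittG

/-! Exponents of the nonzero minors of the presentation matrix of the Koszul module. -/

namespace Pool.Agent.V117.FittG

open Matrix MvPolynomial

variable {n : ℕ}

/-- integer minors of the boundary matrix -/
def bZ (S : Fin n → Fin n → Prop) (c : Pair (fun i j => ¬ S i j) → Triple n)
    [∀ i j, Decidable (S i j)] : ℤ :=
  ((bigA (fun _ => (1 : ℤ)) S).submatrix id c).det

/-- integer minors of the graph boundary matrix -/
def gZ (S : Fin n → Fin n → Prop) (r : Fin n) (c : Fin n → Option (Pair S)) : ℤ :=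
  ((ext (fun _ => (1 : ℤ)) (rt r) S).submatrix id c).det

/-- exponent of a pair -/
noncomputable def ex2 (p : Fin n × Fin n) : Fin n →₀ ℕ :=
  Finsupp.single p.1 1 + Finsupp.single p.2 1

/-- exponent of a triple -/
noncomputable def ex3 (t : Fin n × Fin n × Fin n) : Fin n →₀ ℕ :=
  Finsupp.single t.1 1 + Finsupp.single t.2.1 1 + Finsupp.single t.2.2 1

/-- exponent of an optional pair -/
noncomputable def exo {S : Fin n → Fin n → Prop} (o : Option (Pair S)) : Fin n →₀ ℕ :=
  match o with
  | none => 0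
  | some p => ex2 p.1

lemma cast_bZ {R : Type*} [CommRing R] (S : Fin n → Fin n → Prop) [∀ i j, Decidable (S i j)]
    (c : Pair (fun i j => ¬ S i j) → Triple n) :
    ((bigA (fun _ => (1 : R)) S).submatrix id c).det = ((bZ S c : ℤ) : R) := by
  unfold bZ
  rw [Int.cast_det]
  congr 1
  ext p t
  simp [bigA, ent]

lemma cast_gZ {R : Type*} [CommRing R] (S : Fin n → Fin n → Prop) (r : Fin n)
    (c : Fin n → Option (Pair S)) :
    ((ext (fun _ => (1 : R)) (rt r) S).submatrix id c).det = ((gZ S r c : ℤ) : R) := by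
  unfold gZ
  rw [Int.cast_det]
  congr 1
  ext v u
  simp only [submatrix_apply, id, map_apply, ext, of_apply]
  cases c u with
  | none => simp [rt]
  | some p => simp [k1]

lemma coeff_sum_pos {ι : Type*} [Fintype ι] (f : ι → (Fin n →₀ ℕ)) (w : ι → ℤ)
    (hw : ∀ i, 0 ≤ w i) (e : Fin n →₀ ℕ) :
    coeff e (∑ i, monomial (f i) (w i)) ≠ 0 ↔ ∃ i, w i ≠ 0 ∧ f i = e := by
  classical
  rw [coeff_sum]
  simp only [coeff_monomial]
  rw [Ne, Finset.sum_eq_zero_iff_of_nonneg (fun i _ => by split_ifs; exacts [hw i, le_rfl])]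
  push Not
  simp only [Finset.mem_univ, true_and, ne_eq, ite_eq_right_iff, Classical.not_imp]
  exact exists_congr fun i => and_comm

lemma monomial_cast {R : Type*} [CommRing R] (m : Fin n →₀ ℕ) (z : ℤ) :
    ((z : ℤ) : MvPolynomial (Fin n) R) * monomial m 1 = monomial m ((z : ℤ) : R) := by
  have : ((z : ℤ) : MvPolynomial (Fin n) R) = C ((z : ℤ) : R) := by simp
  rw [this, C_mul_monomial, mul_one]

lemma prod_X' {R : Type*} [CommRing R] {ι : Type*} (s : Finset ι) (f : ι → (Fin n →₀ ℕ)) :
    ∏ i ∈ s, monomial (f i) (1 : R) = monomial (∑ i ∈ s, f i) 1 := by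
  classical
  induction s using Finset.induction_on with
  | empty => simp
  | insert a s ha ih => rw [Finset.prod_insert ha, Finset.sum_insert ha, ih, monomial_mul, one_mul]

/-- Equality of the supports of the two sides of the determinant identity. -/
theorem support_iff (S : Fin n → Fin n → Prop) [∀ i j, Decidable (S i j)] (r : Fin n) (M : ℕ)
    (hM : Fintype.card (Pair (fun i j => ¬ S i j)) + 2 = n + M) (e : Fin n →₀ ℕ) :
    (∃ c : Pair (fun i j => ¬ S i j) → Triple n, bZ S c ≠ 0 ∧
      ∑ v, Finsupp.single v 1 + ∑ p, ex3 (c p).1 = e) ↔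
    (∃ h : Fin M → Fin n, ∃ c : Fin n → Option (Pair S), gZ S r c ≠ 0 ∧
      ∑ i, Finsupp.single (h i) 1 + (∑ p : Pair (fun i j => ¬ S i j), ex2 p.1 +
        ∑ u, exo (c u)) = e) := by
  classical
  have h0 := main_id (R := MvPolynomial (Fin n) ℤ) (fun v => X v) S r
  have hs : (∑ v : Fin n, X v : MvPolynomial (Fin n) ℤ) ≠ 0 := by
    intro h
    have := congrArg (coeff (Finsupp.single r 1)) h
    rw [coeff_sum] at this
    simp only [coeff_X, coeff_zero] at this
    rw [Finset.sum_eq_single r] at this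
    · simp at this
    · intro b _ hb
      rw [if_neg]
      intro h'
      exact hb (Finsupp.single_left_injective (by norm_num : (1:ℕ) ≠ 0) h')
    · simp
  have h1 : ((n.factorial : MvPolynomial (Fin n) ℤ) * ∏ v, X v) *
      ∑ c : Pair (fun i j => ¬ S i j) → Triple n,
        ((bigA (fun _ => (1 : MvPolynomial (Fin n) ℤ)) S).submatrix id c).det ^ 2 *
          ∏ p, (X (c p).1.1 * X (c p).1.2.1 * X (c p).1.2.2) =
    ((Fintype.card (Pair (fun i j => ¬ S i j))).factorial : MvPolynomial (Fin n) ℤ) *
      (∑ v, X v) ^ M *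
      (∏ p : Pair (fun i j => ¬ S i j), (X p.1.1 * X p.1.2)) *
      ∑ c : Fin n → Option (Pair S),
        ((ext (fun _ => (1 : MvPolynomial (Fin n) ℤ)) (rt r) S).submatrix id c).det ^ 2 *
          ∏ u, (match c u with
            | none => 1
            | some p => X p.1.1 * X p.1.2) := by
    apply mul_left_cancel₀ (pow_ne_zero n hs)
    rw [hM, pow_add] at h0
    linear_combination h0
  have hX2 : ∀ p : Fin n × Fin n, (X p.1 * X p.2 : MvPolynomial (Fin n) ℤ) =
      monomial (ex2 p) 1 := by
    intro p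
    show monomial (Finsupp.single p.1 1) 1 * monomial (Finsupp.single p.2 1) 1 = _
    rw [monomial_mul, one_mul]
    rfl
  have hX3 : ∀ t : Fin n × Fin n × Fin n, (X t.1 * X t.2.1 * X t.2.2 : MvPolynomial (Fin n) ℤ) =
      monomial (ex3 t) 1 := by
    intro t
    show monomial (Finsupp.single t.1 1) 1 * monomial (Finsupp.single t.2.1 1) 1 *
      monomial (Finsupp.single t.2.2 1) 1 = _
    rw [monomial_mul, monomial_mul, one_mul, one_mul]
    rfl
  have hXo : ∀ o : Option (Pair S), (match o with
            | none => 1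
            | some p => X p.1.1 * X p.1.2 : MvPolynomial (Fin n) ℤ) = monomial (exo o) 1 := by
    intro o
    cases o with
    | none => rfl
    | some p => exact hX2 p.1
  have hX1 : ∀ v : Fin n, (X v : MvPolynomial (Fin n) ℤ) = monomial (Finsupp.single v 1) 1 :=
    fun v => rfl
  have hL : ((n.factorial : MvPolynomial (Fin n) ℤ) * ∏ v, X v) *
      ∑ c : Pair (fun i j => ¬ S i j) → Triple n,
        ((bigA (fun _ => (1 : MvPolynomial (Fin n) ℤ)) S).submatrix id c).det ^ 2 *
          ∏ p, (X (c p).1.1 * X (c p).1.2.1 * X (c p).1.2.2) =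
      ∑ c : Pair (fun i j => ¬ S i j) → Triple n,
        monomial (∑ v, Finsupp.single v 1 + ∑ p, ex3 (c p).1)
          ((n.factorial : ℤ) * bZ S c ^ 2) := by
    rw [Finset.mul_sum]
    refine Finset.sum_congr rfl fun c _ => ?_
    simp only [cast_bZ, hX3]
    simp only [hX1, prod_X']
    have := monomial_cast (R := ℤ) (∑ v : Fin n, Finsupp.single v 1 + ∑ p, ex3 (c p).1)
      ((n.factorial : ℤ) * bZ S c ^ 2)
    rw [Int.cast_id] at this
    rw [← this]
    push_cast
    have h2 : (monomial (∑ v : Fin n, Finsupp.single v 1 + ∑ p, ex3 (c p).1) (1 : ℤ)) =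
      monomial (∑ v : Fin n, Finsupp.single v 1) 1 * monomial (∑ p, ex3 (c p).1) 1 := by
      rw [monomial_mul, one_mul]
    rw [h2]
    ring
  have hR : ((Fintype.card (Pair (fun i j => ¬ S i j))).factorial : MvPolynomial (Fin n) ℤ) *
      (∑ v, X v) ^ M *
      (∏ p : Pair (fun i j => ¬ S i j), (X p.1.1 * X p.1.2)) *
      ∑ c : Fin n → Option (Pair S),
        ((ext (fun _ => (1 : MvPolynomial (Fin n) ℤ)) (rt r) S).submatrix id c).det ^ 2 *
          ∏ u, (match c u with
            | none => 1
            | some p => X p.1.1 * X p.1.2) =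
      ∑ hc : (Fin M → Fin n) × (Fin n → Option (Pair S)),
        monomial (∑ i, Finsupp.single (hc.1 i) 1 + (∑ p : Pair (fun i j => ¬ S i j), ex2 p.1 +
          ∑ u, exo (hc.2 u)))
          (((Fintype.card (Pair (fun i j => ¬ S i j))).factorial : ℤ) * gZ S r hc.2 ^ 2) := by
    have e1 : (∑ v, X v : MvPolynomial (Fin n) ℤ) ^ M =
        ∑ h : Fin M → Fin n, monomial (∑ i, Finsupp.single (h i) 1) 1 := by
      rw [Fintype.sum_pow]
      simp only [hX1, prod_X']
    have e2 : ∀ c : Fin n → Option (Pair S), (∏ u, (match c u with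
            | none => 1
            | some p => X p.1.1 * X p.1.2) : MvPolynomial (Fin n) ℤ) =
        monomial (∑ u, exo (c u)) 1 := by
      intro c
      rw [← prod_X']
      exact Finset.prod_congr rfl fun u _ => hXo (c u)
    simp only [e2]
    simp only [cast_gZ, hX2, prod_X']
    rw [e1, show ∀ a F P G : MvPolynomial (Fin n) ℤ, a * F * P * G = a * P * (F * G) from
      fun a F P G => by ring, Finset.sum_mul_sum, Fintype.sum_prod_type, Finset.mul_sum]
    refine Finset.sum_congr rfl fun h _ => ?_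
    rw [Finset.mul_sum]
    refine Finset.sum_congr rfl fun c _ => ?_
    have := monomial_cast (R := ℤ) (∑ i, Finsupp.single (h i) 1 +
      (∑ p : Pair (fun i j => ¬ S i j), ex2 p.1 + ∑ u, exo (c u)))
      (((Fintype.card (Pair (fun i j => ¬ S i j))).factorial : ℤ) * gZ S r c ^ 2)
    rw [Int.cast_id] at this
    rw [← this]
    push_cast
    have h2 : (monomial (∑ i, Finsupp.single (h i) 1 +
      (∑ p : Pair (fun i j => ¬ S i j), ex2 p.1 + ∑ u, exo (c u))) (1 : ℤ)) =
      monomial (∑ i, Finsupp.single (h i) 1) 1 *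
        (monomial (∑ p : Pair (fun i j => ¬ S i j), ex2 p.1) 1 *
          monomial (∑ u, exo (c u)) 1) := by
      rw [monomial_mul, monomial_mul, one_mul, one_mul]
    rw [h2]
    ring
  rw [hL, hR] at h1
  have h2 := coeff_sum_pos (fun c : Pair (fun i j => ¬ S i j) → Triple n =>
    ∑ v, Finsupp.single v 1 + ∑ p, ex3 (c p).1) (fun c => (n.factorial : ℤ) * bZ S c ^ 2)
    (fun c => by positivity) e
  have h3 := coeff_sum_pos (fun hc : (Fin M → Fin n) × (Fin n → Option (Pair S)) =>
    ∑ i, Finsupp.single (hc.1 i) 1 + (∑ p : Pair (fun i j => ¬ S i j), ex2 p.1 +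
          ∑ u, exo (hc.2 u)))
    (fun hc => ((Fintype.card (Pair (fun i j => ¬ S i j))).factorial : ℤ) * gZ S r hc.2 ^ 2)
    (fun c => by positivity) e
  rw [h1] at h2
  have h4 := h2.symm.trans h3
  have hf : ∀ k : ℕ, (k.factorial : ℤ) ≠ 0 := fun k => by exact_mod_cast Nat.factorial_ne_zero k
  simp only [ne_eq, mul_eq_zero, hf, false_or, pow_eq_zero_iff, OfNat.ofNat_ne_zero,
    not_false_eq_true, Prod.exists] at h4
  exact h4

/-- degree vector of a graph -/
noncomputable def expT (T : SimpleGraph (Fin n)) : Fin n →₀ ℕ :=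
  ∑ v, Finsupp.single v (T.neighborSet v).ncard

lemma expT_apply (T : SimpleGraph (Fin n)) (v : Fin n) : expT T v = (T.neighborSet v).ncard := by
  unfold expT
  rw [Finsupp.finsetSum_apply]
  simp [Finsupp.single_apply]

lemma sum_pair' {α : Type*} [AddCommMonoid α] (S : Fin n → Fin n → Prop)
    [∀ i j, Decidable (S i j)] (F : Fin n → Fin n → α) :
    ∑ t : Pair S, F t.1.1 t.1.2 = ∑ a, ∑ b, if a < b ∧ S a b then F a b else 0 := by
  rw [← Finset.sum_subtype (Finset.univ.filter
    (fun t : Fin n × Fin n => t.1 < t.2 ∧ S t.1 t.2)) (by simp)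
    (fun t => F t.1 t.2), Finset.sum_filter, Fintype.sum_prod_type]

lemma expo_pairs (T : SimpleGraph (Fin n)) [DecidableRel T.Adj] :
    ∑ p : Pair T.Adj, ex2 p.1 = expT T := by
  have h0 := sum_pair' T.Adj (fun a b => (Finsupp.single a 1 + Finsupp.single b 1 : Fin n →₀ ℕ))
  rw [show (∑ p : Pair T.Adj, ex2 p.1) = ∑ p : Pair T.Adj,
    (Finsupp.single p.1.1 1 + Finsupp.single p.1.2 1 : Fin n →₀ ℕ) from rfl, h0]
  ext v
  rw [expT_apply]
  simp only [Finsupp.finsetSum_apply]
  have h1 : ∀ a b : Fin n, (if a < b ∧ T.Adj a b then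
      (Finsupp.single a 1 + Finsupp.single b 1 : Fin n →₀ ℕ) else 0) v =
      (if a = v then (if v < b ∧ T.Adj v b then 1 else 0) else 0) +
      (if b = v then (if a < v ∧ T.Adj v a then 1 else 0) else 0) := by
    intro a b
    by_cases h : a < b ∧ T.Adj a b
    · rw [if_pos h, Finsupp.add_apply, Finsupp.single_apply, Finsupp.single_apply]
      by_cases ha : a = v
      · subst ha
        have hb : ¬ b = a := fun hb => by subst hb; exact lt_irrefl _ h.1
        simp [h, hb]
      · by_cases hb : b = v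
        · subst hb
          simp [ha, h.1, h.2.symm]
        · simp [ha, hb]
    · rw [if_neg h]
      by_cases ha : a = v
      · subst ha
        by_cases hb : b = a
        · subst hb
          simp
        · simp [h, hb]
      · by_cases hb : b = v
        · subst hb
          have : ¬ (a < b ∧ T.Adj b a) := fun h' => h ⟨h'.1, h'.2.symm⟩
          simp [ha, this]
        · simp [ha, hb]
  simp only [h1, Finset.sum_add_distrib, Finset.sum_ite_irrel, Finset.sum_const_zero,
    Finset.sum_ite_eq', Finset.mem_univ, if_true]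
  rw [← Finset.sum_add_distrib]
  have h2 : (T.neighborSet v).ncard = (Finset.univ.filter (fun w => T.Adj v w)).card := by
    rw [Set.ncard_eq_toFinset_card']
    congr 1
    ext w
    simp
  rw [h2, Finset.card_filter]
  refine Finset.sum_congr rfl fun w _ => ?_
  by_cases h : T.Adj v w
  · rcases lt_trichotomy v w with h3 | h3 | h3
    · simp [h, h3, not_lt_of_gt h3]
    · subst h3
      exact absurd h (T.irrefl)
    · simp [h, h3, not_lt_of_gt h3]
  · simp [h]

lemma card_pairs (T : SimpleGraph (Fin n)) : Nat.card (Pair T.Adj) = Nat.card T.edgeSet := by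
  refine Nat.card_congr (Equiv.ofBijective (fun p : Pair T.Adj =>
    (⟨s(p.1.1, p.1.2), p.2.2⟩ : T.edgeSet)) ⟨?_, ?_⟩)
  · rintro ⟨⟨a, b⟩, h1, h2⟩ ⟨⟨c, d⟩, h3, h4⟩ h
    simp only [Subtype.mk.injEq, Sym2.eq_iff] at h
    rcases h with ⟨rfl, rfl⟩ | ⟨rfl, rfl⟩
    · rfl
    · exact absurd h1 (not_lt_of_gt h3)
  · rintro ⟨e, he⟩
    induction e with | _ a b =>
    rcases lt_trichotomy a b with h | h | h
    · exact ⟨⟨(a, b), h, he⟩, rfl⟩
    · subst h
      exact absurd he (by simp)
    · exact ⟨⟨(b, a), h, T.adj_symm he⟩, Subtype.ext Sym2.eq_swap⟩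

/-- inclusion of optional pairs -/
def incl {T S : Fin n → Fin n → Prop} (h : ∀ a b, T a b → S a b)
    (o : Option (Pair T)) : Option (Pair S) := o.map (fun p => ⟨p.1, p.2.1, h _ _ p.2.2⟩)

lemma incl_injective {T S : Fin n → Fin n → Prop} (h : ∀ a b, T a b → S a b) :
    Function.Injective (incl h) := by
  apply Option.map_injective
  intro p q hpq
  rw [Subtype.mk.injEq] at hpq
  exact Subtype.ext hpq

lemma exo_incl {T S : Fin n → Fin n → Prop} (h : ∀ a b, T a b → S a b) (o : Option (Pair T)) :
    exo (incl h o) = exo o := by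
  cases o <;> rfl

/-- pairing of a potential with a column -/
def cnd {S : Fin n → Fin n → Prop} (w : Fin n → ℤ) (r : Fin n) (o : Option (Pair S)) : ℤ :=
  match o with
  | none => w r
  | some p => w p.1.2 - w p.1.1

lemma vecMul_G (S : Fin n → Fin n → Prop) (r : Fin n) (c : Fin n → Option (Pair S))
    (w : Fin n → ℤ) (u : Fin n) :
    (w ᵥ* ((ext (fun _ => (1 : ℤ)) (rt r) S).submatrix id c)) u = cnd w r (c u) := by
  rw [vecMul, dotProduct]
  simp only [submatrix_apply, id, ext, of_apply, cnd]
  cases hc : c u with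
  | none => simp [rt]
  | some p =>
    have := sum_k1 (R := ℤ) p.1 w
    simp only
    rw [← this]
    exact Finset.sum_congr rfl fun v _ => mul_comm _ _

lemma sum_of_equiv (Γ T : SimpleGraph (Fin n)) (hT : T ≤ Γ)
    (e : Fin n ≃ Option (Pair T.Adj)) (c : Fin n → Option (Pair Γ.Adj))
    (hc : ∀ u, incl (fun _ _ h => hT h) (e u) = c u) :
    ∑ u, exo (c u) = expT T := by
  classical
  simp only [← hc, exo_incl]
  rw [Equiv.sum_comp e (fun o => exo o), Fintype.sum_option]
  show 0 + ∑ p : Pair T.Adj, ex2 p.1 = expT T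
  rw [zero_add, expo_pairs]

lemma g_of_tree (Γ T : SimpleGraph (Fin n)) (hT : T ≤ Γ) (htree : T.IsTree) (r : Fin n) :
    ∃ c : Fin n → Option (Pair Γ.Adj), gZ Γ.Adj r c ≠ 0 ∧ ∑ u, exo (c u) = expT T := by
  classical
  have h1 := SimpleGraph.isTree_iff_connected_and_card.1 htree
  have h2 : Nat.card (Option (Pair T.Adj)) = Nat.card (Fin n) := by
    rw [Finite.card_option, card_pairs]
    exact h1.2
  obtain ⟨e⟩ : Nonempty (Fin n ≃ Option (Pair T.Adj)) :=
    Finite.card_eq.1 h2.symm
  refine ⟨fun u => incl (fun _ _ h => hT h) (e u), ?_, sum_of_equiv Γ T hT e _ fun _ => rfl⟩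
  intro h0
  obtain ⟨w, hw, hw0⟩ := Matrix.exists_vecMul_eq_zero_iff.2 h0
  have hr : w r = 0 := by
    have h3 := congrFun hw0 (e.symm none)
    rw [vecMul_G] at h3
    simpa [incl, cnd] using h3
  have hadj' : ∀ a b, a < b → T.Adj a b → w a = w b := by
    intro a b hab hT'
    have h3 := congrFun hw0 (e.symm (some ⟨(a, b), hab, hT'⟩))
    rw [vecMul_G] at h3
    have h4 : w b - w a = 0 := by simpa [incl, cnd] using h3
    linarith
  have hadj : ∀ a b, T.Adj a b → w a = w b := by
    intro a b hT'
    rcases lt_trichotomy a b with h | h | h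
    · exact hadj' a b h hT'
    · rw [h]
    · exact (hadj' b a h hT'.symm).symm
  have hreach : ∀ a b, T.Reachable a b → w a = w b := by
    intro a b ⟨p⟩
    induction p with
    | nil => rfl
    | cons h p ih => rw [hadj _ _ h, ih]
  apply hw
  funext v
  rw [← hreach r v (h1.1.preconnected r v), hr]
  rfl

lemma tree_of_g (Γ : SimpleGraph (Fin n)) (r : Fin n) (c : Fin n → Option (Pair Γ.Adj))
    (hg : gZ Γ.Adj r c ≠ 0) :
    ∃ T : SimpleGraph (Fin n), T ≤ Γ ∧ T.IsTree ∧ ∑ u, exo (c u) = expT T := by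
  classical
  have hker : ∀ w : Fin n → ℤ, (∀ u, cnd w r (c u) = 0) → w = 0 := by
    intro w hw
    apply Matrix.eq_zero_of_vecMul_eq_zero hg
    funext u
    rw [vecMul_G]
    exact hw u
  have hinj : Function.Injective c := by
    intro u u' huu
    by_contra hne
    apply hg
    apply Matrix.det_zero_of_column_eq hne
    intro v
    simp only [submatrix_apply, huu]
  let T : SimpleGraph (Fin n) :=
    { Adj := fun a b => ∃ u, ∃ p : Pair Γ.Adj, c u = some p ∧ (p.1 = (a, b) ∨ p.1 = (b, a))
      symm := ⟨by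
        rintro a b ⟨u, p, h1, h2⟩
        exact ⟨u, p, h1, h2.symm⟩⟩
      loopless := ⟨by
        rintro a ⟨u, p, h1, h2⟩
        have h3 : p.1 = (a, a) := by rcases h2 with h | h <;> exact h
        have h4 := p.2.1
        rw [h3] at h4
        exact lt_irrefl _ h4⟩ }
  have hT : T ≤ Γ := by
    rintro a b ⟨u, p, h1, h2⟩
    have h3 := p.2.2
    rcases h2 with h | h
    · rw [h] at h3
      exact h3
    · rw [h] at h3
      exact h3.symm
  have hconn : ∀ v, T.Reachable r v := by
    have h0 := hker (fun v => if T.Reachable r v then 0 else 1) (by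
      intro u
      cases hc : c u with
      | none => simp [cnd]
      | some p =>
        have h1 : T.Adj p.1.1 p.1.2 := ⟨u, p, hc, Or.inl rfl⟩
        have h2 : T.Reachable r p.1.2 ↔ T.Reachable r p.1.1 :=
          ⟨fun h => h.trans h1.symm.reachable, fun h => h.trans h1.reachable⟩
        simp only [cnd, h2, sub_self])
    intro v
    by_contra hv
    have := congrFun h0 v
    simp [hv] at this
  have hnone : ∃ u, c u = none := by
    by_contra hcon
    push Not at hcon
    have h0 := hker (fun _ => 1) (by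
      intro u
      cases hc : c u with
      | none => exact absurd hc (hcon u)
      | some p => simp [cnd])
    have := congrFun h0 r
    simp at this
  have hrange : Set.range c = Set.range (incl (T := T.Adj) (S := Γ.Adj) (fun _ _ h => hT h)) := by
    ext o
    constructor
    · rintro ⟨u, rfl⟩
      cases hc : c u with
      | none => exact ⟨none, rfl⟩
      | some p => exact ⟨some ⟨p.1, p.2.1, u, p, hc, Or.inl rfl⟩, rfl⟩
    · rintro ⟨o, rfl⟩
      cases o with
      | none =>
        obtain ⟨u, hu⟩ := hnone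
        exact ⟨u, hu⟩
      | some p =>
        obtain ⟨p, hp, u, q, hq, h⟩ := p
        refine ⟨u, hq.trans ?_⟩
        show some q = some _
        congr 1
        apply Subtype.ext
        rcases h with h | h
        · exact h
        · have h3 := q.2.1
          rw [h] at h3
          exact absurd hp (not_lt_of_gt h3)
  let e : Fin n ≃ Option (Pair T.Adj) :=
    (Equiv.ofInjective c hinj).trans ((Equiv.setCongr hrange).trans
      (Equiv.ofInjective _ (incl_injective (fun _ _ h => hT h))).symm)
  have he : ∀ u, incl (fun _ _ h => hT h) (e u) = c u := by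
    intro u
    have h1 : (Equiv.ofInjective _ (incl_injective (fun _ _ h => hT h))) (e u) =
        (Equiv.setCongr hrange) (Equiv.ofInjective c hinj u) := by
      simp [e]
    have h2 := congrArg Subtype.val h1
    exact h2
  refine ⟨T, hT, ?_, sum_of_equiv Γ T hT e c he⟩
  rw [SimpleGraph.isTree_iff_connected_and_card]
  have hne : Nonempty (Fin n) := ⟨r⟩
  refine ⟨⟨fun a b => (hconn a).symm.trans (hconn b)⟩, ?_⟩
  rw [← card_pairs, ← Finite.card_option]
  exact (Nat.card_congr e).symm

end Pool.Agent.V117.FittG
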