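import Pool.Agent.V117.MonIdeal

namespace Pool.Agent.V117

open MvPolynomial

variable {σ : Type*} {K : Type*} [Field K]

theorem colon_mem_ass {R : Type*} [CommRing R] [IsNoetherianRing R] (J : Ideal R) (f : R) :
    J.colon {f} ∈ Submodule.associatedPrimes J ↔ (J.colon {f}).IsPrime := by
  constructor
  · intro h
    exact (Submodule.isAssociatedPrime_iff.mp h).1
  · intro h
    exact Submodule.isAssociatedPrime_iff.mpr ⟨h, f, rfl⟩

theorem colon_eq_max {P : Set (σ →₀ ℕ)} (hP : IsUpperSet P) {m0 : σ →₀ ℕ} (h0 : m0 ∉ P)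
    (h1 : ∀ i, Finsupp.single i 1 + m0 ∈ P) :
    (upIdeal K P).colon {monomial m0 (1 : K)} = RingHom.ker (constantCoeff (R := K) (σ := σ)) := by
  classical
  ext g
  rw [Submodule.mem_colon_singleton, RingHom.mem_ker, smul_eq_mul, mem_upIdeal hP]
  constructor
  · intro h
    by_contra hc
    apply h0
    apply h
    rw [mem_support_iff, coeff_mul_monomial', if_pos le_rfl, tsub_self, mul_one]
    exact hc
  · intro h m hm
    have h2 := MvPolynomial.support_mul _ _ hm
    rw [Finset.mem_add] at h2
    obtain ⟨a, ha, b, hb, rfl⟩ := h2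
    have hb' := support_monomial_subset hb
    rw [Finset.mem_singleton] at hb'
    subst hb'
    have ha0 : a ≠ 0 := by
      rintro rfl
      rw [mem_support_iff] at ha
      exact ha h
    obtain ⟨i, hi⟩ : ∃ i, a i ≠ 0 := by
      by_contra hcon
      push Not at hcon
      exact ha0 (Finsupp.ext hcon)
    refine hP ?_ (h1 i)
    refine add_le_add ?_ le_rfl
    intro j
    by_cases hj : i = j
    · subst hj
      simp only [Finsupp.single_eq_same]
      exact Nat.one_le_iff_ne_zero.mpr hi
    · simp [hj]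

theorem ker_constantCoeff_isPrime :
    (RingHom.ker (constantCoeff (R := K) (σ := σ))).IsPrime := RingHom.ker_isPrime _

/-- Lower bound for the degree of a witness, for a monomial ideal containing powers of all the
variables. -/
theorem degree_lower {P : Set (σ →₀ ℕ)} (hP : IsUpperSet P) (M : ℕ)
    (hM : ∀ i, Finsupp.single i M ∈ P) (D : ℕ)
    (hD : ∀ m, m ∉ P → m.degree < D → ∃ i, Finsupp.single i 1 + m ∉ P)
    {f : MvPolynomial σ K} {d : ℕ} (hf : f.IsHomogeneous d)
    (hprime : ((upIdeal K P).colon {f}).IsPrime) : D ≤ d := by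
  classical
  by_contra hcon
  push Not at hcon
  have hX : ∀ i, X i * f ∈ upIdeal K P := by
    intro i
    have h1 : (X i : MvPolynomial σ K) ^ M ∈ (upIdeal K P).colon {f} := by
      rw [Submodule.mem_colon_singleton, smul_eq_mul]
      apply Ideal.mul_mem_right
      rw [X_pow_eq_monomial]
      exact (monomial_mem_upIdeal hP one_ne_zero).mpr (hM i)
    have h2 := hprime.mem_of_pow_mem _ h1
    rwa [Submodule.mem_colon_singleton, smul_eq_mul] at h2
  have hfn : f ∉ upIdeal K P := by
    intro hfm
    apply hprime.ne_top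
    rw [Ideal.eq_top_iff_one, Submodule.mem_colon_singleton, smul_eq_mul, one_mul]
    exact hfm
  rw [mem_upIdeal hP] at hfn
  push Not at hfn
  obtain ⟨m, hm, hmP⟩ := hfn
  have hdeg : m.degree = d := by
    by_contra hne
    exact (mem_support_iff.mp hm) (hf.coeff_eq_zero hne)
  obtain ⟨i, hi⟩ := hD m hmP (hdeg ▸ hcon)
  apply hi
  have h3 := (mem_upIdeal hP).mp (hX i)
  apply h3
  rw [mem_support_iff, coeff_X_mul]
  exact mem_support_iff.mp hm

/-- The product of two monomial ideals is the monomial ideal of the sum set. -/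
theorem upIdeal_mul_eq (P Q : Set (σ →₀ ℕ)) :
    upIdeal K P * upIdeal K Q = upIdeal K {m | ∃ p ∈ P, ∃ q ∈ Q, p + q ≤ m} :=
  upIdeal_mul (fun p hp q hq => ⟨p, hp, q, hq, le_rfl⟩) (fun _ h => h)

theorem isUpperSet_sumset (P Q : Set (σ →₀ ℕ)) :
    IsUpperSet {m : σ →₀ ℕ | ∃ p ∈ P, ∃ q ∈ Q, p + q ≤ m} := by
  rintro a b hab ⟨p, hp, q, hq, h⟩
  exact ⟨p, hp, q, hq, h.trans hab⟩

/-- Every polynomial is congruent modulo a monomial ideal to one all of whose monomials are
outside the ideal. -/
theorem exists_bad_part {P : Set (σ →₀ ℕ)} (hP : IsUpperSet P) (f : MvPolynomial σ K) :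
    ∃ g : MvPolynomial σ K, (∀ m ∈ g.support, m ∉ P) ∧ g.support ⊆ f.support ∧
      f - g ∈ upIdeal K P := by
  classical
  let g : MvPolynomial σ K := ∑ m ∈ f.support.filter (fun m => m ∉ P), monomial m (coeff m f)
  let g' : MvPolynomial σ K := ∑ m ∈ f.support.filter (fun m => ¬ (m ∉ P)), monomial m (coeff m f)
  have hgc : ∀ m, coeff m g = if m ∉ P then coeff m f else 0 := by
    intro m
    simp only [g, coeff_sum, coeff_monomial]
    rw [Finset.sum_ite_eq']
    by_cases hm : m ∈ f.support
    · by_cases hm2 : m ∈ P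
      · simp [hm2]
      · simp only [hm2, not_false_eq_true, Finset.mem_filter, hm, and_self, if_true]
    · simp [notMem_support_iff.mp hm]
  refine ⟨g, ?_, ?_, ?_⟩
  · intro m hm
    rw [mem_support_iff, hgc] at hm
    by_contra hc
    simp [hc] at hm
  · intro m hm
    rw [mem_support_iff, hgc] at hm
    rw [mem_support_iff]
    intro h
    simp [h] at hm
  · have hdecomp : f = g + g' := by
      conv_lhs => rw [f.as_sum]
      exact (Finset.sum_filter_add_sum_filter_not _ _ _).symm
    have : f - g = g' := by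
      rw [sub_eq_iff_eq_add']
      exact hdecomp
    rw [this]
    apply Ideal.sum_mem
    intro m hm
    rw [Finset.mem_filter] at hm
    exact (monomial_mem_upIdeal hP (mem_support_iff.mp hm.1)).mpr (not_not.mp hm.2)

theorem upIdeal_isPrime {P : Set (σ →₀ ℕ)} (hP : IsUpperSet P) (h0 : (0 : σ →₀ ℕ) ∉ P)
    (hadd : ∀ a, a ∉ P → ∀ b, b ∉ P → a + b ∉ P) : (upIdeal K P).IsPrime := by
  constructor
  · intro h
    have : monomial (0 : σ →₀ ℕ) (1 : K) ∈ upIdeal K P := by
      rw [h]; trivial
    rw [monomial_mem_upIdeal hP one_ne_zero] at this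
    exact h0 this
  · intro f g hfg
    by_contra hcon
    push Not at hcon
    obtain ⟨hf, hg⟩ := hcon
    obtain ⟨f', hf'P, -, hff'⟩ := exists_bad_part hP f
    apply hg
    refine mem_of_mul_mem hP (h := f') ?_ (fun a ha b hb => hadd a (hf'P a ha) b hb) ?_
    · rintro rfl
      rw [sub_zero] at hff'
      exact hf hff'
    · have : f' * g = f * g - (f - f') * g := by ring
      rw [this]
      exact Ideal.sub_mem _ hfg (Ideal.mul_mem_right _ _ hff')

/-- If a proper ideal contains a power of every variable then the ideal generated by the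
variables is an associated prime. -/
theorem max_mem_ass {σ : Type*} [Finite σ] {J : Ideal (MvPolynomial σ K)} (hJ : J ≠ ⊤) (M : ℕ)
    (hM : ∀ i, (X i : MvPolynomial σ K) ^ M ∈ J) :
    RingHom.ker (constantCoeff (R := K) (σ := σ)) ∈ Submodule.associatedPrimes J := by
  classical
  have hne : (Ideal.Quotient.mk J 1) ≠ 0 := by
    rw [Ne, Ideal.Quotient.eq_zero_iff_mem]
    intro h
    exact hJ ((Ideal.eq_top_iff_one _).mpr h)
  obtain ⟨P, hP, hle⟩ := exists_le_isAssociatedPrime_of_isNoetherianRing
    (MvPolynomial σ K) (Ideal.Quotient.mk J 1) hne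
  obtain ⟨hprime, y, hy⟩ := isAssociatedPrime_iff.mp hP
  obtain ⟨f, rfl⟩ := Ideal.Quotient.mk_surjective y
  have hPf : P = J.colon {f} := by
    rw [hy]
    ext r
    rw [Submodule.mem_colon_singleton, Submodule.mem_colon_singleton, Submodule.mem_bot,
      smul_eq_mul]
    change Ideal.Quotient.mk J (r * f) = 0 ↔ _
    rw [Ideal.Quotient.eq_zero_iff_mem]
  have hJP : J ≤ P := by
    intro r hr
    apply hle
    rw [Submodule.mem_colon_singleton, Submodule.mem_bot]
    change Ideal.Quotient.mk J (r * 1) = 0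
    rw [Ideal.Quotient.eq_zero_iff_mem, mul_one]
    exact hr
  have hX : ∀ i, (X i : MvPolynomial σ K) ∈ P := fun i =>
    hprime.mem_of_pow_mem _ (hJP (hM i))
  have hkP : RingHom.ker (constantCoeff (R := K) (σ := σ)) ≤ P := by
    intro g hg
    rw [RingHom.mem_ker] at hg
    rw [g.as_sum]
    apply Ideal.sum_mem
    intro m hm
    have hm0 : m ≠ 0 := by
      rintro rfl
      exact mem_support_iff.mp hm hg
    obtain ⟨i, hi⟩ : ∃ i, m i ≠ 0 := by
      by_contra hcon
      push Not at hcon
      exact hm0 (Finsupp.ext hcon)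
    have : monomial m (coeff m g) = monomial (m - Finsupp.single i 1) (coeff m g) * X i := by
      rw [X, monomial_mul, mul_one, tsub_add_cancel_of_le]
      intro j
      by_cases hj : i = j
      · subst hj
        simp only [Finsupp.single_eq_same]
        exact Nat.one_le_iff_ne_zero.mpr hi
      · simp [hj]
    rw [this]
    exact Ideal.mul_mem_left _ _ (hX i)
  have hmax : (RingHom.ker (constantCoeff (R := K) (σ := σ))).IsMaximal :=
    RingHom.ker_isMaximal_of_surjective _ (fun c => ⟨C c, constantCoeff_C _ _⟩)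
  have heq : RingHom.ker (constantCoeff (R := K) (σ := σ)) = P :=
    hmax.eq_of_le hprime.ne_top hkP
  rw [heq]
  exact Submodule.isAssociatedPrime_iff.mpr ⟨hprime, f, hPf⟩

end Pool.Agent.V117
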