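import Mathlib
import Pool.Agent.V117.MonIdeal
import Pool.Agent.V117.VNum

/-! Symbolic powers of squarefree monomial ideals and the symbolic defect. -/

namespace Pool.Agent.V117

open MvPolynomial

section general
variable {R : Type*} [CommRing R]

/-- The symbolic power `⋂ P^m` over the minimal primes `P` of `I`. -/
noncomputable def symbolicPower (I : Ideal R) (m : ℕ) : Ideal R := ⨅ P ∈ I.minimalPrimes, P ^ m

/-- The least number of generators of the `R`-module `I^{(m)} / I^m`. -/
noncomputable def sdefect (I : Ideal R) (m : ℕ) : ℕ :=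
  sInf {r : ℕ | ∃ T : Finset (symbolicPower I m ⧸ (I ^ m).submoduleOf (symbolicPower I m)),
    T.card = r ∧ Submodule.span R
      (T : Set (symbolicPower I m ⧸ (I ^ m).submoduleOf (symbolicPower I m))) = ⊤}

end general

set_option linter.unusedSectionVars false

variable {σ : Type} [Fintype σ] [DecidableEq σ] {K : Type} [Field K]

/-- exponents with weight at least `m` on `C` -/
def wset (C : Finset σ) (m : ℕ) : Set (σ →₀ ℕ) := {x | m ≤ ∑ i ∈ C, x i}

lemma isUpperSet_wset (C : Finset σ) (m : ℕ) : IsUpperSet (wset C m) := by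
  intro a b hab (ha : m ≤ _)
  exact ha.trans (Finset.sum_le_sum fun i _ => hab i)

/-- the ideal of the variables in `C` -/
noncomputable def varIdeal (K : Type) [Field K] (C : Finset σ) : Ideal (MvPolynomial σ K) :=
  Ideal.span ((fun i => (X i : MvPolynomial σ K)) '' (C : Set σ))

lemma varIdeal_eq (C : Finset σ) : varIdeal K C = upIdeal K (wset C 1) := by
  apply le_antisymm
  · unfold varIdeal
    rw [Ideal.span_le]
    rintro _ ⟨i, hi, rfl⟩
    refine Ideal.subset_span ⟨Finsupp.single i 1, ?_, rfl⟩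
    show 1 ≤ _
    refine le_trans ?_ (Finset.single_le_sum (f := fun j => (Finsupp.single i 1 : σ →₀ ℕ) j)
      (fun j _ => Nat.zero_le _) hi)
    simp
  · unfold upIdeal
    rw [Ideal.span_le]
    rintro _ ⟨m, hm, rfl⟩
    have hm' : 1 ≤ ∑ i ∈ C, m i := hm
    obtain ⟨i, hi, hne⟩ := Finset.exists_ne_zero_of_sum_ne_zero (f := fun i => m i) (s := C) (by omega)
    have : monomial m (1 : K) = monomial (m - Finsupp.single i 1) 1 * X i := by
      rw [X, monomial_mul, mul_one, tsub_add_cancel_of_le]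
      exact Finsupp.single_le_iff.mpr (Nat.one_le_iff_ne_zero.mpr hne)
    show monomial m (1 : K) ∈ _
    rw [this]
    exact Ideal.mul_mem_left _ _ (Ideal.subset_span ⟨i, hi, rfl⟩)

lemma upIdeal_wset_pow (C : Finset σ) (m : ℕ) :
    (varIdeal K C) ^ m = upIdeal K (wset C m) := by
  induction m with
  | zero =>
    rw [pow_zero, Ideal.one_eq_top, eq_comm, Ideal.eq_top_iff_one]
    exact Ideal.subset_span ⟨0, Nat.zero_le _, rfl⟩
  | succ m ih =>
    rw [pow_succ, ih, varIdeal_eq]
    apply upIdeal_mul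
    · intro p hp q hq
      have hp' : m ≤ ∑ i ∈ C, p i := hp
      have hq' : 1 ≤ ∑ i ∈ C, q i := hq
      show m + 1 ≤ ∑ i ∈ C, (p + q) i
      simp only [Finsupp.add_apply, Finset.sum_add_distrib]
      omega
    · intro r hr
      have hr' : m + 1 ≤ ∑ i ∈ C, r i := hr
      obtain ⟨i, hi, hne⟩ := Finset.exists_ne_zero_of_sum_ne_zero (f := fun i => r i) (s := C) (by omega)
      refine ⟨r - Finsupp.single i 1, ?_, Finsupp.single i 1, ?_, ?_⟩
      · show m ≤ ∑ j ∈ C, (r - Finsupp.single i 1 : σ →₀ ℕ) j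
        have h1 : ∑ j ∈ C, (r - Finsupp.single i 1 + Finsupp.single i 1 : σ →₀ ℕ) j = ∑ j ∈ C, r j := by
          rw [tsub_add_cancel_of_le]
          exact Finsupp.single_le_iff.mpr (Nat.one_le_iff_ne_zero.mpr hne)
        simp only [Finsupp.add_apply, Finset.sum_add_distrib] at h1
        have h2 : ∑ j ∈ C, (Finsupp.single i 1 : σ →₀ ℕ) j = 1 := by
          rw [Finset.sum_eq_single i]
          · simp
          · intro j _ hj
            rw [Finsupp.single_apply, if_neg (Ne.symm hj)]
          · intro h; exact absurd hi h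
        omega
      · show 1 ≤ _
        refine le_trans ?_ (Finset.single_le_sum (f := fun j => (Finsupp.single i 1 : σ →₀ ℕ) j)
          (fun j _ => Nat.zero_le _) hi)
        simp
      · rw [tsub_add_cancel_of_le]
        exact Finsupp.single_le_iff.mpr (Nat.one_le_iff_ne_zero.mpr hne)

lemma varIdeal_isPrime (C : Finset σ) : (varIdeal K C).IsPrime := by
  rw [varIdeal_eq]
  apply upIdeal_isPrime (isUpperSet_wset C 1)
  · show ¬ (1 ≤ ∑ i ∈ C, (0 : σ →₀ ℕ) i)
    simp
  · intro a ha b hb
    have ha' : ¬ (1 ≤ ∑ i ∈ C, a i) := ha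
    have hb' : ¬ (1 ≤ ∑ i ∈ C, b i) := hb
    show ¬ (1 ≤ ∑ i ∈ C, (a + b) i)
    simp only [Finsupp.add_apply, Finset.sum_add_distrib]
    omega

/-- The squarefree monomial ideal generated by the products over the members of `H`. -/
noncomputable def sqfIdeal (K : Type) [Field K] (H : Set (Finset σ)) : Ideal (MvPolynomial σ K) :=
  Ideal.span {f | ∃ F ∈ H, f = ∏ v ∈ F, X v}

/-- vertex covers -/
def IsCov (H : Set (Finset σ)) (C : Finset σ) : Prop := ∀ F ∈ H, ∃ v ∈ F, v ∈ C

lemma sqfIdeal_le_varIdeal {H : Set (Finset σ)} {C : Finset σ} (hC : IsCov H C) :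
    sqfIdeal K H ≤ varIdeal K C := by
  unfold sqfIdeal
  rw [Ideal.span_le]
  rintro _ ⟨F, hF, rfl⟩
  obtain ⟨v, hv, hvC⟩ := hC F hF
  exact Ideal.mem_of_dvd _ (Finset.dvd_prod_of_mem _ hv) (Ideal.subset_span ⟨v, hvC, rfl⟩)

theorem symbolicPower_eq (H : Set (Finset σ)) (m : ℕ) :
    symbolicPower (sqfIdeal K H) m = upIdeal K {x | ∀ C, IsCov H C → m ≤ ∑ i ∈ C, x i} := by
  classical
  have hup : IsUpperSet {x : σ →₀ ℕ | ∀ C, IsCov H C → m ≤ ∑ i ∈ C, x i} :=
    fun a b hab ha C hC => (ha C hC).trans (Finset.sum_le_sum fun i _ => hab i)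
  apply le_antisymm
  · intro f hf
    rw [mem_upIdeal hup]
    intro x hx C hC
    have hpr : (varIdeal K C).IsPrime := varIdeal_isPrime C
    obtain ⟨P, hP, hPC⟩ := Ideal.exists_minimalPrimes_le (J := varIdeal K C)
      (sqfIdeal_le_varIdeal (K := K) hC)
    unfold symbolicPower at hf
    rw [Submodule.mem_iInf] at hf
    have h1 := hf P
    rw [Submodule.mem_iInf] at h1
    have h2 := Ideal.pow_right_mono hPC m (h1 hP)
    rw [upIdeal_wset_pow, mem_upIdeal (isUpperSet_wset C m)] at h2
    exact h2 x hx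
  · unfold symbolicPower
    refine le_iInf₂ fun P hP => ?_
    have hPp : P.IsPrime := hP.1.1
    let C : Finset σ := Finset.univ.filter (fun i => (X i : MvPolynomial σ K) ∈ P)
    have hC : IsCov H C := by
      intro F hF
      have h1 : (∏ v ∈ F, X v : MvPolynomial σ K) ∈ P := hP.1.2 (Ideal.subset_span ⟨F, hF, rfl⟩)
      rw [Ideal.IsPrime.prod_mem_iff] at h1
      obtain ⟨v, hv, hvP⟩ := h1
      exact ⟨v, hv, by simp [C, hvP]⟩
    have hle : varIdeal K C ≤ P := by
      unfold varIdeal
      rw [Ideal.span_le]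
      rintro _ ⟨i, hi, rfl⟩
      simp only [C, Finset.coe_filter, Finset.mem_univ, true_and, Set.mem_ofPred_eq] at hi
      exact hi
    refine le_trans ?_ (Ideal.pow_right_mono hle m)
    rw [upIdeal_wset_pow]
    unfold upIdeal
    apply Ideal.span_mono
    apply Set.image_mono
    intro x hx
    exact hx C hC

/-- lower bound for the symbolic defect -/
theorem le_sdefect {I : Ideal (MvPolynomial σ K)} {m : ℕ} {P : Set (σ →₀ ℕ)} (hP : IsUpperSet P)
    (hI : symbolicPower I m = upIdeal K P) (E : Finset (σ →₀ ℕ))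
    (hE1 : ∀ e ∈ E, e ∈ P) (hE2 : ∀ e ∈ E, ∀ b ∈ P, b ≤ e → b = e)
    (hE3 : ∀ e ∈ E, ∀ f ∈ I ^ m, coeff e f = 0)
    (T : Finset (symbolicPower I m ⧸ (I ^ m).submoduleOf (symbolicPower I m)))
    (hT : Submodule.span (MvPolynomial σ K)
      (T : Set (symbolicPower I m ⧸ (I ^ m).submoduleOf (symbolicPower I m))) = ⊤) :
    E.card ≤ T.card := by
  classical
  have hsurj := Submodule.mkQ_surjective ((I ^ m).submoduleOf (symbolicPower I m))
  choose rep hrep using hsurj
  let v : T → (E → K) := fun t e => coeff (e : σ →₀ ℕ) ((rep t.1 : symbolicPower I m) : MvPolynomial σ K)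
  have hco : ∀ (s : MvPolynomial σ K) (f : MvPolynomial σ K), f ∈ symbolicPower I m → ∀ e ∈ E,
      coeff e (s * f) = coeff 0 s * coeff e f := by
    intro s f hf e he
    rw [coeff_mul, Finset.sum_eq_single (0, e)]
    · rintro ⟨p, q⟩ hpq hne
      rw [Finset.HasAntidiagonal.mem_antidiagonal] at hpq
      simp only at hpq ⊢
      by_contra hcon
      have hq : q ∈ f.support := by
        rw [mem_support_iff]
        intro h; rw [h, mul_zero] at hcon; exact hcon rfl
      rw [hI, mem_upIdeal hP] at hf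
      have hqe : q = e := hE2 e he q (hf q hq) (by rw [← hpq]; exact le_add_self)
      subst hqe
      have hp0 : p = 0 := by simpa using hpq
      subst hp0
      exact hne rfl
    · intro h
      exfalso
      apply h
      rw [Finset.HasAntidiagonal.mem_antidiagonal]
      simp
  have hspan : Submodule.span K (Set.range v) = ⊤ := by
    rw [eq_top_iff]
    have hbasis : ∀ e : E, Pi.single e (1 : K) ∈ Submodule.span K (Set.range v) := by
      intro e
      have hmem : (monomial (e : σ →₀ ℕ) (1 : K)) ∈ symbolicPower I m := by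
        rw [hI]; exact Ideal.subset_span ⟨e, hE1 _ e.2, rfl⟩
      have h1 : (Submodule.mkQ ((I ^ m).submoduleOf (symbolicPower I m))) ⟨_, hmem⟩ ∈
          Submodule.span (MvPolynomial σ K)
          (T : Set (symbolicPower I m ⧸ (I ^ m).submoduleOf (symbolicPower I m))) := by
        rw [hT]; trivial
      rw [Submodule.mem_span_finset] at h1
      obtain ⟨s, -, hs⟩ := h1
      have h2 : (Submodule.mkQ ((I ^ m).submoduleOf (symbolicPower I m)))
          ((⟨_, hmem⟩ : symbolicPower I m) - ∑ t ∈ T, s t • rep t) = 0 := by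
        rw [map_sub, map_sum, ← hs, sub_eq_zero]
        refine Finset.sum_congr rfl fun t _ => ?_
        rw [map_smul, hrep]
      rw [Submodule.mkQ_apply, Submodule.Quotient.mk_eq_zero] at h2
      have h3 : (monomial (e : σ →₀ ℕ) (1 : K)) - ∑ t ∈ T, s t * ((rep t : symbolicPower I m) : MvPolynomial σ K) ∈ I ^ m := by
        have : (((⟨_, hmem⟩ : symbolicPower I m) - ∑ t ∈ T, s t • rep t : symbolicPower I m) :
            MvPolynomial σ K) ∈ I ^ m := h2
        simpa using this
      have h4 : Pi.single e (1 : K) = ∑ t ∈ T.attach, coeff 0 (s t.1) • v t := by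
        funext e'
        have h5 := hE3 e' e'.2 _ h3
        rw [coeff_sub, sub_eq_zero, coeff_monomial, coeff_sum] at h5
        rw [Finset.sum_apply]
        simp only [Pi.smul_apply, smul_eq_mul, v]
        rw [Finset.sum_attach T (fun t => coeff 0 (s t) * coeff (e' : σ →₀ ℕ) ((rep t : symbolicPower I m) : MvPolynomial σ K))]
        rw [Finset.sum_congr rfl (fun t _ => hco (s t) _ (rep t).2 e' e'.2)] at h5
        rw [← h5, Pi.single_apply]
        by_cases h : e' = e
        · subst h; simp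
        · have : (e : σ →₀ ℕ) ≠ e' := fun h' => h (Subtype.ext h'.symm)
          simp [h, this]
      rw [h4]
      exact Submodule.sum_mem _ fun t _ => Submodule.smul_mem _ _ (Submodule.subset_span ⟨t, rfl⟩)
    intro x _
    have hx : x = ∑ e : E, x e • Pi.single e (1 : K) := by
      funext e'
      rw [Finset.sum_apply, Finset.sum_eq_single e']
      · simp
      · intro b _ hb
        simp [Ne.symm hb]
      · intro h; exact absurd (Finset.mem_univ _) h
    rw [hx]
    exact Submodule.sum_mem _ fun e _ => Submodule.smul_mem _ _ (hbasis e)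
  have h1 := finrank_range_le_card (R := K) v
  rw [Set.finrank, hspan, finrank_top, Module.finrank_fintype_fun_eq_card] at h1
  simpa using h1

/-- upper bound for the symbolic defect -/
theorem sdefect_le {I : Ideal (MvPolynomial σ K)} {m : ℕ} {P : Set (σ →₀ ℕ)} 
    (hI : symbolicPower I m = upIdeal K P) (E : Finset (σ →₀ ℕ))
    (hE : ∀ x ∈ P, ∃ e ∈ E, e ∈ P ∧ e ≤ x) :
    ∃ T : Finset (symbolicPower I m ⧸ (I ^ m).submoduleOf (symbolicPower I m)),
      T.card ≤ E.card ∧ Submodule.span (MvPolynomial σ K)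
        (T : Set (symbolicPower I m ⧸ (I ^ m).submoduleOf (symbolicPower I m))) = ⊤ := by
  classical
  let E' := E.filter (fun e => e ∈ P)
  have hmem : ∀ e : E', (monomial (e : σ →₀ ℕ) (1 : K)) ∈ symbolicPower I m := by
    intro e
    rw [hI]
    exact Ideal.subset_span ⟨e, (Finset.mem_filter.mp e.2).2, rfl⟩
  let mk := Submodule.mkQ ((I ^ m).submoduleOf (symbolicPower I m))
  let T : Finset (symbolicPower I m ⧸ (I ^ m).submoduleOf (symbolicPower I m)) :=
    Finset.univ.image (fun e : E' => mk ⟨_, hmem e⟩)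
  refine ⟨T, ?_, ?_⟩
  · refine Finset.card_image_le.trans ?_
    rw [Finset.card_univ, Fintype.card_coe]
    exact Finset.card_le_card (Finset.filter_subset _ _)
  · set N := Submodule.span (MvPolynomial σ K)
        (T : Set (symbolicPower I m ⧸ (I ^ m).submoduleOf (symbolicPower I m))) with hN
    have hle : (symbolicPower I m : Submodule (MvPolynomial σ K) (MvPolynomial σ K)) ≤
        (N.comap mk).map (symbolicPower I m).subtype := by
      conv_lhs => rw [hI]
      unfold upIdeal
      refine Submodule.span_le.mpr ?_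
      rintro _ ⟨x, hx, rfl⟩
      obtain ⟨e, heE, heP, hex⟩ := hE x hx
      have he' : e ∈ E' := Finset.mem_filter.mpr ⟨heE, heP⟩
      have h1 : (monomial e (1 : K)) ∈ (N.comap mk).map (symbolicPower I m).subtype := by
        refine ⟨⟨_, hmem ⟨e, he'⟩⟩, ?_, rfl⟩
        show mk _ ∈ N
        apply Submodule.subset_span
        exact Finset.mem_coe.mpr (Finset.mem_image.mpr ⟨⟨e, he'⟩, Finset.mem_univ _, rfl⟩)
      have h2 : monomial x (1 : K) = monomial (x - e) (1 : K) • monomial e (1 : K) := by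
        rw [smul_eq_mul, monomial_mul, mul_one, tsub_add_cancel_of_le hex]
      show monomial x (1 : K) ∈ _
      rw [h2]
      exact Submodule.smul_mem _ _ h1
    rw [eq_top_iff]
    intro q _
    obtain ⟨f, rfl⟩ := Submodule.mkQ_surjective _ q
    obtain ⟨g, hg, hgf⟩ := hle f.2
    have : g = f := Subtype.ext hgf
    rw [← this]
    exact hg

theorem sdefect_le' {I : Ideal (MvPolynomial σ K)} {m : ℕ} {P : Set (σ →₀ ℕ)}
    (hI : symbolicPower I m = upIdeal K P) (E : Finset (σ →₀ ℕ))
    (hE : ∀ x ∈ P, ∃ e ∈ E, e ∈ P ∧ e ≤ x) : sdefect I m ≤ E.card := by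
  obtain ⟨T, hT, hspan⟩ := sdefect_le hI E hE
  refine (Nat.sInf_le ?_).trans hT
  exact ⟨T, rfl, hspan⟩

theorem le_sdefect' {I : Ideal (MvPolynomial σ K)} {m : ℕ} {P : Set (σ →₀ ℕ)} (hP : IsUpperSet P)
    (hI : symbolicPower I m = upIdeal K P) (E : Finset (σ →₀ ℕ))
    (hE1 : ∀ e ∈ E, e ∈ P) (hE2 : ∀ e ∈ E, ∀ b ∈ P, b ≤ e → b = e)
    (hE3 : ∀ e ∈ E, ∀ f ∈ I ^ m, coeff e f = 0) : E.card ≤ sdefect I m := by
  have hne : {r : ℕ | ∃ T : Finset (symbolicPower I m ⧸ (I ^ m).submoduleOf (symbolicPower I m)),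
    T.card = r ∧ Submodule.span (MvPolynomial σ K)
      (T : Set (symbolicPower I m ⧸ (I ^ m).submoduleOf (symbolicPower I m))) = ⊤}.Nonempty := by
    have hfg : (⊤ : Submodule (MvPolynomial σ K)
        (symbolicPower I m ⧸ (I ^ m).submoduleOf (symbolicPower I m))).FG :=
      Module.Finite.fg_top
    obtain ⟨T, hT⟩ := hfg
    exact ⟨T.card, T, rfl, hT⟩
  obtain ⟨T, hT, hspan⟩ := Nat.sInf_mem hne
  have := le_sdefect hP hI E hE1 hE2 hE3 T hspan
  unfold sdefect
  rw [← hT]
  exact this

/-- elements of `I^m` have no monomials of small degree, when the generators have degree `s`. -/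
theorem coeff_pow_eq_zero {H : Set (Finset σ)} {s m : ℕ} (hH : ∀ F ∈ H, s ≤ F.card)
    {e : σ →₀ ℕ} (he : ∑ i, e i < m * s) {f : MvPolynomial σ K} (hf : f ∈ (sqfIdeal K H) ^ m) :
    coeff e f = 0 := by
  have h1 : sqfIdeal K H ≤ (varIdeal K (Finset.univ : Finset σ)) ^ s := by
    rw [upIdeal_wset_pow]
    unfold sqfIdeal
    rw [Ideal.span_le]
    rintro _ ⟨F, hF, rfl⟩
    have h2 : (∏ v ∈ F, X v : MvPolynomial σ K) = monomial (∑ v ∈ F, Finsupp.single v 1) 1 := by
      rw [monomial_sum_one]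
      rfl
    rw [h2]
    refine Ideal.subset_span ⟨_, ?_, rfl⟩
    show s ≤ ∑ i, (∑ v ∈ F, Finsupp.single v 1 : σ →₀ ℕ) i
    simp only [Finsupp.coe_finsetSum, Finset.sum_apply]
    rw [Finset.sum_comm]
    have h3 : ∀ v ∈ F, ∑ i, (Finsupp.single v 1 : σ →₀ ℕ) i = 1 := by
      intro v _
      rw [Finset.sum_eq_single v]
      · simp
      · intro b _ hb
        rw [Finsupp.single_apply, if_neg (Ne.symm hb)]
      · intro h; exact absurd (Finset.mem_univ _) h
    rw [Finset.sum_congr rfl h3]
    simpa using hH F hF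
  have h4 : (sqfIdeal K H) ^ m ≤ (varIdeal K (Finset.univ : Finset σ)) ^ (m * s) := by
    rw [mul_comm, pow_mul]
    exact Ideal.pow_right_mono h1 m
  have h5 := h4 hf
  rw [upIdeal_wset_pow, mem_upIdeal (isUpperSet_wset _ _)] at h5
  by_contra hne
  have h6 : m * s ≤ ∑ i, e i := h5 e (mem_support_iff.mpr hne)
  omega

end Pool.Agent.V117
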