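import Mathlib

/-! Binomial edge ideals: membership through sums of coefficients over token classes. -/

namespace Pool.Agent.V117.BinEdge

open MvPolynomial

variable {K : Type} [Field K] {V : Type}

/-- The binomial `x_a y_b - x_b y_a`; the variable `x_v` is `X (v, false)` and `y_v` is
`X (v, true)`. -/
noncomputable def delta (K : Type) [Field K] (a b : V) : MvPolynomial (V × Bool) K :=
  X (a, false) * X (b, true) - X (b, false) * X (a, true)

/-- The binomial edge ideal of a graph. -/
noncomputable def binEdge (K : Type) [Field K] (G : SimpleGraph V) :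
    Ideal (MvPolynomial (V × Bool) K) :=
  Ideal.span {f | ∃ a b, G.Adj a b ∧ f = delta K a b}

/-- The graph on `V` whose edges are the edges of `G` with both ends in `W`. -/
def inside (G : SimpleGraph V) (W : Set V) : SimpleGraph V where
  Adj a b := G.Adj a b ∧ a ∈ W ∧ b ∈ W
  symm := ⟨fun _ _ h => ⟨h.1.symm, h.2.2, h.2.1⟩⟩
  loopless := ⟨fun _ h => G.irrefl h.1⟩

/-- linear map with prescribed values on monomials -/
noncomputable def lin {σ : Type} {M : Type} [AddCommMonoid M] [Module K M] (φ : (σ →₀ ℕ) → M) :
    MvPolynomial σ K →ₗ[K] M := (basisMonomials σ K).constr K φ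

section lin
variable {σ : Type} {M : Type} [AddCommMonoid M] [Module K M]

lemma lin_monomial (φ : (σ →₀ ℕ) → M) (m : σ →₀ ℕ) (c : K) :
    lin φ (monomial m c) = c • φ m := by
  have h1 : (monomial m c : MvPolynomial σ K) = c • (basisMonomials σ K) m := by
    rw [coe_basisMonomials, smul_monomial, smul_eq_mul, mul_one]
  rw [h1, lin, map_smul, Module.Basis.constr_basis]

lemma lin_span (φ : (σ →₀ ℕ) → M) (N : Submodule K M)
    (G : Set (MvPolynomial σ K)) (hG : ∀ g ∈ G, ∀ w, lin φ (monomial w 1 * g) ∈ N)
    {h : MvPolynomial σ K} (hh : h ∈ Ideal.span G) : lin φ h ∈ N := by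
  suffices key : ∀ p, lin φ (p * h) ∈ N by simpa using key 1
  induction hh using Submodule.span_induction with
  | mem g hg =>
    intro p
    induction p using MvPolynomial.induction_on' with
    | monomial w c =>
      have h1 : (monomial w c : MvPolynomial σ K) * g = c • (monomial w 1 * g) := by
        rw [← smul_mul_assoc, smul_monomial, smul_eq_mul, mul_one]
      rw [h1, map_smul]
      exact N.smul_mem _ (hG g hg w)
    | add p q hp hq =>
      rw [add_mul, map_add]
      exact N.add_mem hp hq
  | zero => intro p; simp
  | add x y _ _ hx hy =>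
    intro p
    rw [mul_add, map_add]
    exact N.add_mem (hx p) (hy p)
  | smul r x _ hx =>
    intro p
    rw [smul_eq_mul, ← mul_assoc]
    exact hx _

lemma lin_mul_monomial (φ : (σ →₀ ℕ) → M) (r : σ →₀ ℕ) (f : MvPolynomial σ K) :
    lin φ (monomial r 1 * f) = lin (fun m => φ (r + m)) f := by
  induction f using MvPolynomial.induction_on' with
  | monomial w c =>
    rw [monomial_mul, one_mul, lin_monomial, lin_monomial]
  | add p q hp hq => rw [mul_add, map_add, map_add, hp, hq]

lemma lin_congr {φ ψ : (σ →₀ ℕ) → M} {f : MvPolynomial σ K} (h : ∀ m ∈ f.support, φ m = ψ m) :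
    lin φ f = lin ψ f := by
  conv_lhs => rw [f.as_sum]
  conv_rhs => rw [f.as_sum]
  rw [map_sum, map_sum]
  refine Finset.sum_congr rfl fun m hm => ?_
  rw [lin_monomial, lin_monomial, h m hm]

lemma lin_add_fun (φ ψ : (σ →₀ ℕ) → M) (f : MvPolynomial σ K) :
    lin (fun m => φ m + ψ m) f = lin φ f + lin ψ f := by
  induction f using MvPolynomial.induction_on' with
  | monomial w c => rw [lin_monomial, lin_monomial, lin_monomial, smul_add]
  | add p q hp hq => rw [map_add, map_add, map_add, hp, hq]; abel

lemma lin_zero_fun (f : MvPolynomial σ K) : lin (fun _ => (0 : M)) f = 0 := by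
  induction f using MvPolynomial.induction_on' with
  | monomial w c => rw [lin_monomial, smul_zero]
  | add p q hp hq => rw [map_add, hp, hq, add_zero]

end lin

/-- number of tokens at `v` -/
def mdeg (m : (V × Bool) →₀ ℕ) (v : V) : ℕ := m (v, false) + m (v, true)

lemma mdeg_add (m m' : (V × Bool) →₀ ℕ) (v : V) : mdeg (m + m') v = mdeg m v + mdeg m' v := by
  simp only [mdeg, Finsupp.add_apply]; ring

open Classical in
lemma mdeg_single (w v : V) (z : Bool) :
    mdeg (Finsupp.single (w, z) 1) v = if v = w then 1 else 0 := by
  unfold mdeg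
  by_cases h : v = w
  · subst h
    cases z <;> simp
  · have h1 : (w, z) ≠ (v, false) := fun h' => h (congrArg Prod.fst h').symm
    have h2 : (w, z) ≠ (v, true) := fun h' => h (congrArg Prod.fst h').symm
    rw [Finsupp.single_eq_of_ne (Ne.symm h1), Finsupp.single_eq_of_ne (Ne.symm h2), if_neg h,
      add_zero]

/-- vertices carrying a token -/
def W (m : (V × Bool) →₀ ℕ) : Set V := {v | mdeg m v ≠ 0}

variable (G : SimpleGraph V)

/-- reachability inside a vertex set -/
def R (U : Set V) (a b : V) : Prop := (inside G U).Reachable a b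

variable {G}

lemma R.refl {U : Set V} (a : V) : R G U a a := SimpleGraph.Reachable.refl a
lemma R.symm {U : Set V} {a b : V} (h : R G U a b) : R G U b a := SimpleGraph.Reachable.symm h
lemma R.trans {U : Set V} {a b c : V} (h : R G U a b) (h' : R G U b c) : R G U a c :=
  SimpleGraph.Reachable.trans h h'
lemma R.of_adj {U : Set V} {a b : V} (h : G.Adj a b) (ha : a ∈ U) (hb : b ∈ U) : R G U a b :=
  SimpleGraph.Adj.reachable ⟨h, ha, hb⟩

lemma delta_identity (v i j : V) (z : Bool) :
    (X (v, z) * delta K i j : MvPolynomial (V × Bool) K) =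
      X (i, z) * delta K v j - X (j, z) * delta K v i := by
  unfold delta
  cases z <;> ring

lemma delta_self (v : V) : delta K v v = 0 := by
  unfold delta; ring

lemma delta_mem {a b : V} (h : G.Adj a b) : delta K a b ∈ binEdge K G :=
  Ideal.subset_span ⟨a, b, h, rfl⟩

lemma path_mem {U : Set V} {i j : V} (p : (inside G U).Walk i j) :
    ∀ r : (V × Bool) →₀ ℕ, (∀ w ∈ U, w ≠ i → w ≠ j → mdeg r w ≠ 0) →
      monomial r 1 * delta K i j ∈ binEdge K G := by
  classical
  induction p with
  | nil =>
    intro r _
    rw [delta_self, mul_zero]; exact Ideal.zero_mem _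
  | @cons i v j h p' ih =>
    intro r hr
    by_cases hvj : v = j
    · subst hvj
      exact Ideal.mul_mem_left _ _ (delta_mem h.1)
    · have hvi : v ≠ i := h.1.ne'
      have h1 := hr v h.2.2 hvi hvj
      have h2 : ∃ z : Bool, r (v, z) ≠ 0 := by
        by_contra hcon
        push Not at hcon
        apply h1
        unfold mdeg
        rw [hcon, hcon]
      obtain ⟨z, hz⟩ := h2
      obtain ⟨r', hr'⟩ : ∃ r', r = r' + Finsupp.single (v, z) 1 := by
        refine ⟨r - Finsupp.single (v, z) 1, ?_⟩
        rw [tsub_add_cancel_of_le]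
        exact Finsupp.single_le_iff.mpr (Nat.one_le_iff_ne_zero.mpr hz)
      have h3 : (monomial r 1 : MvPolynomial (V × Bool) K) = monomial r' 1 * X (v, z) := by
        rw [hr', X, monomial_mul, mul_one]
      rw [h3, mul_assoc, delta_identity, mul_sub]
      refine Ideal.sub_mem _ ?_ ?_
      · have h4 : (monomial r' 1 * (X (i, z) * delta K v j) : MvPolynomial (V × Bool) K) =
            monomial (r' + Finsupp.single (i, z) 1) 1 * delta K v j := by
          rw [← mul_assoc, X, monomial_mul, mul_one]
        rw [h4]
        apply ih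
        intro w hw hwv hwj
        rw [mdeg_add, mdeg_single]
        by_cases hwi : w = i
        · rw [if_pos hwi]; omega
        · have h5 := hr w hw hwi hwj
          rw [hr', mdeg_add, mdeg_single, if_neg hwv] at h5
          rw [if_neg hwi]
          exact h5
      · exact Ideal.mul_mem_left _ _ (Ideal.mul_mem_left _ _ (delta_mem h.1.symm))

section fin
set_option linter.unusedSectionVars false
variable [Fintype V]

open Classical in
/-- number of `x`-tokens on the component of `v` inside `U` -/
noncomputable def cnt (G : SimpleGraph V) (U : Set V) (m : (V × Bool) →₀ ℕ) (v : V) : ℕ :=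
  ∑ w, if R G U v w then m (w, false) else 0

/-- token equivalence -/
def Sim (G : SimpleGraph V) (m m' : (V × Bool) →₀ ℕ) : Prop :=
  (∀ v, mdeg m v = mdeg m' v) ∧ ∀ v, mdeg m v ≠ 0 → cnt G (W m) m v = cnt G (W m) m' v

lemma W_eq {m m' : (V × Bool) →₀ ℕ} (h : ∀ v, mdeg m v = mdeg m' v) : W m = W m' := by
  ext v
  show mdeg m v ≠ 0 ↔ mdeg m' v ≠ 0
  rw [h]

lemma Sim.refl (m : (V × Bool) →₀ ℕ) : Sim G m m := ⟨fun _ => rfl, fun _ _ => rfl⟩

lemma Sim.symm {m m' : (V × Bool) →₀ ℕ} (h : Sim G m m') : Sim G m' m := by
  refine ⟨fun v => (h.1 v).symm, ?_⟩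
  intro v hv
  rw [← W_eq h.1]
  exact (h.2 v (by rw [h.1]; exact hv)).symm

lemma Sim.trans {m m' m'' : (V × Bool) →₀ ℕ} (h : Sim G m m') (h' : Sim G m' m'') :
    Sim G m m'' := by
  refine ⟨fun v => (h.1 v).trans (h'.1 v), ?_⟩
  intro v hv
  rw [h.2 v hv, W_eq h.1]
  exact h'.2 v (by rw [← h.1]; exact hv)

lemma cnt_add (U : Set V) (m m' : (V × Bool) →₀ ℕ) (v : V) :
    cnt G U (m + m') v = cnt G U m v + cnt G U m' v := by
  classical
  unfold cnt
  rw [← Finset.sum_add_distrib]
  refine Finset.sum_congr rfl fun w _ => ?_
  split_ifs <;> simp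

open Classical in
lemma cnt_single_x (U : Set V) (i v : V) :
    cnt G U (Finsupp.single (i, false) 1) v = if R G U v i then 1 else 0 := by
  unfold cnt
  rw [Finset.sum_eq_single i]
  · simp
  · intro b _ hb
    have : (i, false) ≠ (b, false) := fun h => hb (congrArg Prod.fst h).symm
    rw [Finsupp.single_eq_of_ne (Ne.symm this)]
    simp
  · intro h; exact absurd (Finset.mem_univ _) h

lemma cnt_single_y (U : Set V) (i v : V) :
    cnt G U (Finsupp.single (i, true) 1) v = 0 := by
  classical
  unfold cnt
  apply Finset.sum_eq_zero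
  intro w _
  have : (i, true) ≠ (w, false) := fun h => Bool.noConfusion (congrArg Prod.snd h)
  rw [Finsupp.single_eq_of_ne (Ne.symm this)]
  simp

lemma sim_move (r : (V × Bool) →₀ ℕ) {i j : V}
    (hR : R G (W (r + Finsupp.single (i, false) 1 + Finsupp.single (j, true) 1)) i j) :
    Sim G (r + Finsupp.single (i, false) 1 + Finsupp.single (j, true) 1)
      (r + Finsupp.single (j, false) 1 + Finsupp.single (i, true) 1) := by
  classical
  constructor
  · intro v
    simp only [mdeg_add, mdeg_single]
    ring
  · intro v _
    simp only [cnt_add, cnt_single_x, cnt_single_y, add_zero]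
    have : R G (W (r + Finsupp.single (i, false) 1 + Finsupp.single (j, true) 1)) v i ↔
      R G (W (r + Finsupp.single (i, false) 1 + Finsupp.single (j, true) 1)) v j :=
      ⟨fun h => h.trans hR, fun h => h.trans hR.symm⟩
    simp only [this]

lemma monomial_mul_delta (r : (V × Bool) →₀ ℕ) (i j : V) :
    (monomial r 1 * delta K i j : MvPolynomial (V × Bool) K) =
      monomial (r + Finsupp.single (i, false) 1 + Finsupp.single (j, true) 1) 1 -
      monomial (r + Finsupp.single (j, false) 1 + Finsupp.single (i, true) 1) 1 := by
  unfold delta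
  rw [mul_sub, X, X, X, X, monomial_mul, monomial_mul, monomial_mul, monomial_mul]
  simp only [mul_one, add_assoc]

/-- equivalent monomials are congruent modulo the binomial edge ideal -/
lemma sim_mem : ∀ (N : ℕ) (m m' : (V × Bool) →₀ ℕ), Sim G m m' →
    ∑ v, (m (v, false) - m' (v, false)) = N →
    (monomial m 1 - monomial m' 1 : MvPolynomial (V × Bool) K) ∈ binEdge K G := by
  classical
  intro N
  induction N using Nat.strong_induction_on with
  | _ N ih =>
    intro m m' hS hN
    by_cases h0 : ∀ v, m (v, false) ≤ m' (v, false)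
    · have : m = m' := by
        have hx : ∀ v, m (v, false) = m' (v, false) := by
          intro v
          by_cases hv : mdeg m v = 0
          · have h1 : m (v, false) + m (v, true) = 0 := hv
            have h2 : m' (v, false) + m' (v, true) = 0 := by
              have := hS.1 v
              rw [hv] at this
              exact this.symm
            omega
          · have h1 := hS.2 v hv
            unfold cnt at h1
            have h2 := (Finset.sum_eq_sum_iff_of_le (fun w _ => by
              split_ifs
              · exact h0 w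
              · exact le_rfl)).mp h1 v (Finset.mem_univ _)
            rw [if_pos (R.refl v), if_pos (R.refl v)] at h2
            exact h2
        ext ⟨v, z⟩
        cases z
        · exact hx v
        · have h1 : m (v, false) + m (v, true) = m' (v, false) + m' (v, true) := hS.1 v
          have := hx v
          omega
      rw [this, sub_self]
      exact Ideal.zero_mem _
    · push Not at h0
      obtain ⟨i, hi⟩ := h0
      have hmi : mdeg m i ≠ 0 := by
        unfold mdeg; omega
      have h1 := hS.2 i hmi
      obtain ⟨j, hRj, hj⟩ : ∃ j, R G (W m) i j ∧ m (j, false) < m' (j, false) := by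
        by_contra hcon
        push Not at hcon
        have : cnt G (W m) m' i < cnt G (W m) m i := by
          unfold cnt
          refine Finset.sum_lt_sum ?_ ⟨i, Finset.mem_univ _, ?_⟩
          · intro w _
            split_ifs with h
            · exact hcon w h
            · exact le_rfl
          · rw [if_pos (R.refl i), if_pos (R.refl i)]
            exact hi
        omega
      have hij : i ≠ j := by rintro rfl; omega
      have hjt : 1 ≤ m (j, true) := by
        have h2 : m (j, false) + m (j, true) = m' (j, false) + m' (j, true) := hS.1 j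
        omega
      obtain ⟨r, hr⟩ : ∃ r, m = r + Finsupp.single (i, false) 1 + Finsupp.single (j, true) 1 := by
        have e1 : Finsupp.single (i, false) 1 + Finsupp.single (j, true) 1 ≤ m := by
          intro ⟨w, z⟩
          rw [Finsupp.add_apply, Finsupp.single_apply, Finsupp.single_apply]
          cases z
          · by_cases hw : w = i
            · subst hw
              simp; omega
            · have : ¬ (i, false) = (w, false) := fun h => hw (congrArg Prod.fst h).symm
              simp [this]
          · by_cases hw : w = j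
            · subst hw
              simp; omega
            · have : ¬ (j, true) = (w, true) := fun h => hw (congrArg Prod.fst h).symm
              simp [this]
        obtain ⟨r, hr⟩ := exists_add_of_le e1
        exact ⟨r, by rw [hr]; abel⟩
      have hRj' := hRj
      rw [hr] at hRj'
      have hmove := sim_move r hRj'
      have hS' : Sim G (r + Finsupp.single (j, false) 1 + Finsupp.single (i, true) 1) m' := by
        rw [hr] at hS
        exact hmove.symm.trans hS
      have hlt : ∑ v, ((r + Finsupp.single (j, false) 1 + Finsupp.single (i, true) 1 :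
          (V × Bool) →₀ ℕ) (v, false) - m' (v, false)) < N := by
        rw [← hN]
        refine Finset.sum_lt_sum ?_ ⟨i, Finset.mem_univ _, ?_⟩
        · intro w _
          rw [hr]
          simp only [Finsupp.add_apply, Finsupp.single_apply]
          by_cases hwj : w = j
          · subst hwj
            have hr' := DFunLike.congr_fun hr (w, false)
            simp only [Finsupp.add_apply, Finsupp.single_apply] at hr'
            simp [hij] at hr' ⊢
            omega
          · have : ¬ (j, false) = (w, false) := fun h => hwj (congrArg Prod.fst h).symm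
            simp [this]
            omega
        · have hr' := DFunLike.congr_fun hr (i, false)
          simp only [Finsupp.add_apply, Finsupp.single_apply] at hr'
          simp only [Finsupp.add_apply, Finsupp.single_apply]
          simp [hij.symm] at hr' ⊢
          omega
      have h2 := ih _ hlt _ m' hS' rfl
      have h3 : (monomial m 1 - monomial (r + Finsupp.single (j, false) 1 +
          Finsupp.single (i, true) 1) 1 : MvPolynomial (V × Bool) K) ∈ binEdge K G := by
        have h4 : (monomial m 1 - monomial (r + Finsupp.single (j, false) 1 +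
          Finsupp.single (i, true) 1) 1 : MvPolynomial (V × Bool) K) = monomial r 1 * delta K i j := by
          rw [monomial_mul_delta, ← hr]
        rw [h4]
        obtain ⟨p⟩ := hRj
        apply path_mem p
        intro w hw hwi hwj
        have : mdeg m w ≠ 0 := hw
        rw [hr, mdeg_add, mdeg_add, mdeg_single, mdeg_single, if_neg hwi, if_neg hwj] at this
        simpa using this
      have := Ideal.add_mem _ h3 h2
      rwa [sub_add_sub_cancel] at this

open Classical in
/-- indicator of a token class -/
noncomputable def ind (K : Type) [Field K] (G : SimpleGraph V) (m0 : (V × Bool) →₀ ℕ) :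
    ((V × Bool) →₀ ℕ) → K :=
  fun m => if Sim G m m0 then 1 else 0

lemma ind_congr {m m' : (V × Bool) →₀ ℕ} (h : Sim G m m') (m0 : (V × Bool) →₀ ℕ) :
    ind K G m0 m = ind K G m0 m' := by
  unfold ind
  by_cases h1 : Sim G m m0
  · rw [if_pos h1, if_pos (h.symm.trans h1)]
  · rw [if_neg h1, if_neg (fun h2 => h1 (h.trans h2))]

/-- class sums of elements of the binomial edge ideal vanish -/
theorem sum_eq_zero_of_mem {f : MvPolynomial (V × Bool) K} (hf : f ∈ binEdge K G)
    (m0 : (V × Bool) →₀ ℕ) : lin (ind K G m0) f = 0 := by
  have := lin_span (ind K G m0) (⊥ : Submodule K K) _ ?_ hf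
  · exact (Submodule.mem_bot K).mp this
  rintro g ⟨a, b, hab, rfl⟩ w
  rw [Submodule.mem_bot, monomial_mul_delta, map_sub, lin_monomial, lin_monomial]
  have hs : Sim G (w + Finsupp.single (a, false) 1 + Finsupp.single (b, true) 1)
      (w + Finsupp.single (b, false) 1 + Finsupp.single (a, true) 1) := by
    classical
    apply sim_move
    apply R.of_adj hab
    · show mdeg _ a ≠ 0
      rw [mdeg_add, mdeg_add, mdeg_single, mdeg_single, if_pos rfl]
      omega
    · show mdeg _ b ≠ 0
      rw [mdeg_add, mdeg_add, mdeg_single, mdeg_single, if_pos rfl]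
      omega
  rw [ind_congr hs, sub_self]

/-- vanishing class sums imply membership -/
theorem mem_of_sum_eq_zero {f : MvPolynomial (V × Bool) K}
    (h : ∀ m0, lin (ind K G m0) f = 0) : f ∈ binEdge K G := by
  classical
  let s : Setoid ((V × Bool) →₀ ℕ) := ⟨Sim G, Sim.refl, Sim.symm, Sim.trans⟩
  let rep : ((V × Bool) →₀ ℕ) → ((V × Bool) →₀ ℕ) := fun m => (Quotient.mk s m).out
  have hrep : ∀ m, Sim G m (rep m) := fun m =>
    Sim.symm (Quotient.exact (s := s) (Quotient.out_eq (Quotient.mk s m)))
  have hrep' : ∀ m m', Sim G m m' → rep m = rep m' := by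
    intro m m' hm
    have : Quotient.mk s m = Quotient.mk s m' := Quotient.sound hm
    simp only [rep, this]
  have h1 : lin (fun m => (monomial (rep m) 1 : MvPolynomial (V × Bool) K)) f = 0 := by
    ext r
    rw [coeff_zero]
    have h2 : coeff r (lin (fun m => (monomial (rep m) 1 : MvPolynomial (V × Bool) K)) f) =
        lin (fun m => if rep m = r then (1 : K) else 0) f := by
      conv_lhs => rw [f.as_sum]
      conv_rhs => rw [f.as_sum]
      rw [map_sum, map_sum, coeff_sum]
      refine Finset.sum_congr rfl fun m _ => ?_
      rw [lin_monomial, lin_monomial, coeff_smul, coeff_monomial]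
    rw [h2]
    by_cases hr : ∃ m, rep m = r
    · obtain ⟨m1, hm1⟩ := hr
      refine Eq.trans ?_ (h m1)
      apply lin_congr
      intro m _
      unfold ind
      by_cases hm : Sim G m m1
      · rw [if_pos hm, if_pos ((hrep' m m1 hm).trans hm1)]
      · rw [if_neg hm, if_neg]
        intro h3
        apply hm
        have e1 := hrep m
        have e2 := hrep m1
        rw [h3] at e1
        rw [hm1] at e2
        exact e1.trans e2.symm
    · push Not at hr
      have : (fun m => if rep m = r then (1 : K) else 0) = fun _ => (0 : K) := by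
        funext m; rw [if_neg (hr m)]
      rw [this]
      exact lin_zero_fun f
  have h2 : ∀ g : MvPolynomial (V × Bool) K,
      g - lin (fun m => (monomial (rep m) 1 : MvPolynomial (V × Bool) K)) g ∈ binEdge K G := by
    intro g
    induction g using MvPolynomial.induction_on' with
    | monomial w c =>
      rw [lin_monomial, smul_monomial, smul_eq_mul, mul_one]
      have : (monomial w c - monomial (rep w) c : MvPolynomial (V × Bool) K) =
          C c * (monomial w 1 - monomial (rep w) 1) := by
        rw [mul_sub, C_mul_monomial, C_mul_monomial, mul_one]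
      rw [this]
      exact Ideal.mul_mem_left _ _ (sim_mem _ _ _ (hrep w) rfl)
    | add p q hp hq =>
      rw [map_add]
      have := Ideal.add_mem _ hp hq
      convert this using 1
      ring
  have h3 := h2 f
  rw [h1, sub_zero] at h3
  exact h3

/-- token equivalence is a congruence -/
lemma Sim.add {m m' : (V × Bool) →₀ ℕ} (h : Sim G m m') (r : (V × Bool) →₀ ℕ) :
    Sim G (r + m) (r + m') := by
  classical
  have h1 : (monomial m 1 - monomial m' 1 : MvPolynomial (V × Bool) ℚ) ∈ binEdge ℚ G :=
    sim_mem _ _ _ h rfl
  have h2 := sum_eq_zero_of_mem (Ideal.mul_mem_left _ (monomial r 1) h1) (r + m')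
  rw [mul_sub, monomial_mul, monomial_mul, mul_one, map_sub, lin_monomial, lin_monomial] at h2
  unfold ind at h2
  rw [if_pos (Sim.refl (r + m'))] at h2
  by_contra hcon
  rw [if_neg hcon] at h2
  simp at h2

lemma inside_mono {U U' : Set V} (h : U ⊆ U') : inside G U ≤ inside G U' :=
  fun _ _ hab => ⟨hab.1, h hab.2.1, h hab.2.2⟩

lemma R.mono {U U' : Set V} (h : U ⊆ U') {a b : V} (hR : R G U a b) : R G U' a b :=
  SimpleGraph.Reachable.mono (inside_mono h) hR

lemma mem_W_add_right {r m : (V × Bool) →₀ ℕ} {v : V} (h : v ∈ W m) : v ∈ W (r + m) := by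
  show mdeg (r + m) v ≠ 0
  have : mdeg m v ≠ 0 := h
  rw [mdeg_add]; omega

lemma x_eq_zero {m : (V × Bool) →₀ ℕ} {v : V} (h : v ∉ W m) : m (v, false) = 0 := by
  have : ¬ (mdeg m v ≠ 0) := h
  unfold mdeg at this
  omega

/-- reflecting the token equivalence when no components merge -/
lemma sim_of_add {m m0 r : (V × Bool) →₀ ℕ}
    (hU : ∀ v w, v ∈ W m → w ∈ W m → R G (W (r + m)) v w → R G (W m) v w)
    (h : Sim G (r + m) (r + m0)) : Sim G m m0 := by
  classical
  have hdeg : ∀ v, mdeg m v = mdeg m0 v := by
    intro v
    have := h.1 v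
    rw [mdeg_add, mdeg_add] at this
    omega
  refine ⟨hdeg, ?_⟩
  intro v hv
  have h1 := h.2 v (by rw [mdeg_add]; omega)
  rw [cnt_add, cnt_add] at h1
  have key : ∀ x : (V × Bool) →₀ ℕ, W x = W m → cnt G (W (r + m)) x v = cnt G (W m) x v := by
    intro x hx
    unfold cnt
    refine Finset.sum_congr rfl fun w _ => ?_
    by_cases hw : w ∈ W m
    · have : R G (W (r + m)) v w ↔ R G (W m) v w :=
        ⟨hU v w hv hw, fun h => h.mono (fun _ h => mem_W_add_right h)⟩
      simp only [this]
    · rw [← hx] at hw
      rw [x_eq_zero hw]; simp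
  rw [key m rfl, key m0 (W_eq hdeg).symm] at h1
  omega

/-- adding a vertex adjacent to at most one component does not merge components -/
lemma no_merge {U : Set V} {j : V}
    (hj : ∀ a ∈ U, ∀ b ∈ U, G.Adj j a → G.Adj j b → R G U a b) :
    ∀ v w, v ∈ U → w ∈ U → R G (insert j U) v w → R G U v w := by
  intro v w hv hw h
  unfold R at h
  rw [SimpleGraph.reachable_iff_reflTransGen] at h
  have key : (w ∈ U ∧ R G U v w) ∨ (w = j ∧ ∃ a ∈ U, G.Adj a j ∧ R G U v a) := by
    clear hw
    induction h with
    | refl => exact Or.inl ⟨hv, R.refl v⟩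
    | @tail u u' _ hstep ih =>
      obtain ⟨hadj, hu, hu'⟩ := hstep
      rcases ih with ⟨h1, h2⟩ | ⟨h1, a, ha, haj, hRa⟩
      · rcases hu' with rfl | hu'
        · exact Or.inr ⟨rfl, u, h1, hadj, h2⟩
        · exact Or.inl ⟨hu', h2.trans (R.of_adj hadj h1 hu')⟩
      · subst h1
        rcases hu' with rfl | hu'
        · exact absurd hadj G.irrefl
        · exact Or.inl ⟨hu', hRa.trans (hj a ha u' hu' haj.symm hadj)⟩
  rcases key with h1 | ⟨h1, a, ha, haj, hRa⟩
  · exact h1.2
  · subst h1
    exact hRa.trans (R.of_adj haj ha hw)

/-- sums of `x`-tokens over sets closed under adjacency are invariants -/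
lemma Sim.sum_closed {M M0 : (V × Bool) →₀ ℕ} (h : Sim G M M0) (A : Finset V)
    (hA : ∀ a ∈ W M0, ∀ b ∈ W M0, G.Adj a b → (a ∈ A ↔ b ∈ A)) :
    ∑ w ∈ A, M (w, false) = ∑ w ∈ A, M0 (w, false) := by
  classical
  let φ : ((V × Bool) →₀ ℕ) → ℚ := fun m =>
    if (∀ v, mdeg m v = mdeg M0 v) ∧ ∑ w ∈ A, m (w, false) = ∑ w ∈ A, M0 (w, false) then 1 else 0
  have h1 : (monomial M 1 - monomial M0 1 : MvPolynomial (V × Bool) ℚ) ∈ binEdge ℚ G :=
    sim_mem _ _ _ h rfl
  have h2 := lin_span φ (⊥ : Submodule ℚ ℚ) _ ?_ h1
  · rw [Submodule.mem_bot, map_sub, lin_monomial, lin_monomial] at h2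
    have e0 : φ M0 = 1 := if_pos ⟨fun _ => rfl, rfl⟩
    by_contra hcon
    have e1 : φ M = 0 := if_neg (fun h' => hcon h'.2)
    rw [e0, e1] at h2
    simp at h2
  · rintro g ⟨a, b, hab, rfl⟩ w
    rw [Submodule.mem_bot, monomial_mul_delta, map_sub, lin_monomial, lin_monomial]
    have hd : ∀ v, mdeg (w + Finsupp.single (a, false) 1 + Finsupp.single (b, true) 1) v =
        mdeg (w + Finsupp.single (b, false) 1 + Finsupp.single (a, true) 1) v := by
      intro v
      simp only [mdeg_add, mdeg_single]; ring
    by_cases hM : ∀ v, mdeg (w + Finsupp.single (a, false) 1 + Finsupp.single (b, true) 1) v =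
        mdeg M0 v
    · have ha : a ∈ W M0 := by
        show mdeg M0 a ≠ 0
        rw [← hM, mdeg_add, mdeg_add, mdeg_single, mdeg_single, if_pos rfl]
        omega
      have hb : b ∈ W M0 := by
        show mdeg M0 b ≠ 0
        rw [← hM, mdeg_add, mdeg_add, mdeg_single, mdeg_single, if_pos rfl]
        omega
      have hab' := hA a ha b hb hab
      have hs : ∀ i : V, ∑ w ∈ A, (Finsupp.single (i, false) 1 : (V × Bool) →₀ ℕ) (w, false) =
          if i ∈ A then 1 else 0 := by
        intro i
        by_cases hi : i ∈ A
        · rw [if_pos hi, Finset.sum_eq_single i]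
          · simp
          · intro c _ hc
            have : (i, false) ≠ (c, false) := fun h => hc (congrArg Prod.fst h).symm
            rw [Finsupp.single_eq_of_ne (Ne.symm this)]
          · intro h; exact absurd hi h
        · rw [if_neg hi]
          apply Finset.sum_eq_zero
          intro c hc
          have : (i, false) ≠ (c, false) := by
            intro h
            have h' : i = c := congrArg Prod.fst h
            rw [h'] at hi
            exact hi hc
          rw [Finsupp.single_eq_of_ne (Ne.symm this)]
      have ht : ∀ i : V, ∑ w ∈ A, (Finsupp.single (i, true) 1 : (V × Bool) →₀ ℕ) (w, false) = 0 := by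
        intro i
        apply Finset.sum_eq_zero
        intro c _
        have : (i, true) ≠ (c, false) := fun h => Bool.noConfusion (congrArg Prod.snd h)
        rw [Finsupp.single_eq_of_ne (Ne.symm this)]
      have hsum : ∑ v ∈ A, (w + Finsupp.single (a, false) 1 + Finsupp.single (b, true) 1 :
          (V × Bool) →₀ ℕ) (v, false) = ∑ v ∈ A, (w + Finsupp.single (b, false) 1 +
          Finsupp.single (a, true) 1 : (V × Bool) →₀ ℕ) (v, false) := by
        simp only [Finsupp.add_apply, Finset.sum_add_distrib, hs, ht, hab']
      simp only [φ, hd, hsum, sub_self]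
    · have hM' : ¬ ∀ v, mdeg (w + Finsupp.single (b, false) 1 + Finsupp.single (a, true) 1) v =
        mdeg M0 v := by
        intro h'
        exact hM (fun v => (hd v).trans (h' v))
      simp only [φ]
      rw [if_neg (fun h' => hM h'.1), if_neg (fun h' => hM' h'.1), sub_self]

/-- transfer of class sums along multiplication by a variable -/
lemma sum_zero_of_X_mul {f : MvPolynomial (V × Bool) K} {j : V} {z : Bool}
    (hf : X (j, z) * f ∈ binEdge K G) {m0 : (V × Bool) →₀ ℕ}
    (h : ∀ m, Sim G (Finsupp.single (j, z) 1 + m) (Finsupp.single (j, z) 1 + m0) → Sim G m m0) :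
    lin (ind K G m0) f = 0 := by
  have h1 := sum_eq_zero_of_mem hf (Finsupp.single (j, z) 1 + m0)
  rw [X, lin_mul_monomial] at h1
  rw [← h1]
  apply lin_congr
  intro m _
  unfold ind
  by_cases hs : Sim G m m0
  · rw [if_pos hs, if_pos (hs.add _)]
  · rw [if_neg hs, if_neg (fun h' => hs (h m h'))]

/-- first transfer: multiplication by a variable at a vertex of the support -/
lemma sum_zero_of_mem_W {f : MvPolynomial (V × Bool) K} {j : V} {z : Bool}
    (hf : X (j, z) * f ∈ binEdge K G) {m0 : (V × Bool) →₀ ℕ} (hj : j ∈ W m0) :
    lin (ind K G m0) f = 0 := by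
  classical
  apply sum_zero_of_X_mul hf
  intro m hm
  have hdeg : ∀ v, mdeg m v = mdeg m0 v := by
    intro v
    have := hm.1 v
    rw [mdeg_add, mdeg_add] at this
    omega
  apply sim_of_add _ hm
  intro v w hv hw hR
  refine hR.mono ?_
  intro u hu
  have hu' : mdeg (Finsupp.single (j, z) 1 + m) u ≠ 0 := hu
  show mdeg m u ≠ 0
  by_cases huj : u = j
  · rw [huj, hdeg]; exact hj
  · rw [mdeg_add, mdeg_single, if_neg huj, zero_add] at hu'
    exact hu'

/-- second transfer: multiplication by a variable at a vertex adjacent to at most one component -/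
lemma sum_zero_of_adj_one {f : MvPolynomial (V × Bool) K} {j : V} {z : Bool}
    (hf : X (j, z) * f ∈ binEdge K G) {m0 : (V × Bool) →₀ ℕ}
    (hj : ∀ a ∈ W m0, ∀ b ∈ W m0, G.Adj j a → G.Adj j b → R G (W m0) a b) :
    lin (ind K G m0) f = 0 := by
  classical
  apply sum_zero_of_X_mul hf
  intro m hm
  have hdeg : ∀ v, mdeg m v = mdeg m0 v := by
    intro v
    have := hm.1 v
    rw [mdeg_add, mdeg_add] at this
    omega
  apply sim_of_add _ hm
  intro v w hv hw hR
  have hW := W_eq hdeg
  rw [hW] at hv hw ⊢
  apply no_merge hj v w hv hw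
  refine hR.mono ?_
  intro u hu
  have hu' : mdeg (Finsupp.single (j, z) 1 + m) u ≠ 0 := hu
  by_cases huj : u = j
  · exact Or.inl huj
  · right
    rw [mdeg_add, mdeg_single, if_neg huj, zero_add, hdeg] at hu'
    exact hu'

/-- class sums of a multiple of `delta` -/
lemma lin_delta_mul {M : Type} [AddCommGroup M] [Module K M] (φ : ((V × Bool) →₀ ℕ) → M)
    (a b : V) (f : MvPolynomial (V × Bool) K) :
    lin φ (delta K a b * f) =
      lin (fun m => φ (Finsupp.single (a, false) 1 + Finsupp.single (b, true) 1 + m)) f -
      lin (fun m => φ (Finsupp.single (b, false) 1 + Finsupp.single (a, true) 1 + m)) f := by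
  unfold delta
  have h1 : (X (a, false) * X (b, true) : MvPolynomial (V × Bool) K) =
      monomial (Finsupp.single (a, false) 1 + Finsupp.single (b, true) 1) 1 := by
    rw [X, X, monomial_mul, mul_one]
  have h2 : (X (b, false) * X (a, true) : MvPolynomial (V × Bool) K) =
      monomial (Finsupp.single (b, false) 1 + Finsupp.single (a, true) 1) 1 := by
    rw [X, X, monomial_mul, mul_one]
  rw [h1, h2, sub_mul, map_sub, lin_mul_monomial, lin_mul_monomial]

/-- two distinct components of the support: multiplication by `delta` is injective on class sums -/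
lemma sum_zero_of_delta_disconnected {f : MvPolynomial (V × Bool) K} {a b : V}
    (hf : delta K a b * f ∈ binEdge K G) :
    ∀ (N : ℕ) (m0 : (V × Bool) →₀ ℕ), a ∈ W m0 → b ∈ W m0 → ¬ R G (W m0) a b →
      cnt G (W m0) m0 b = N → lin (ind K G m0) f = 0 := by
  classical
  intro N
  induction N using Nat.strong_induction_on with
  | _ N ih =>
    intro m0 ha hb hab hN
    have h1 := sum_eq_zero_of_mem hf (Finsupp.single (a, false) 1 + Finsupp.single (b, true) 1 + m0)
    rw [lin_delta_mul] at h1
    -- supports do not change
    have hWW : ∀ (c d : V) (z z' : Bool) (m : (V × Bool) →₀ ℕ), c ∈ W m → d ∈ W m →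
        W (Finsupp.single (c, z) 1 + Finsupp.single (d, z') 1 + m) ⊆ W m := by
      intro c d z z' m hc hd u hu
      have hu' : mdeg (Finsupp.single (c, z) 1 + Finsupp.single (d, z') 1 + m) u ≠ 0 := hu
      show mdeg m u ≠ 0
      by_cases h2 : u = c
      · rw [h2]; exact hc
      · by_cases h3 : u = d
        · rw [h3]; exact hd
        · rw [mdeg_add, mdeg_add, mdeg_single, mdeg_single, if_neg h2, if_neg h3] at hu'
          simpa using hu'
    have hrefl : ∀ (c d : V) (z z' : Bool) (m m' : (V × Bool) →₀ ℕ), c ∈ W m' → d ∈ W m' →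
        Sim G (Finsupp.single (c, z) 1 + Finsupp.single (d, z') 1 + m)
          (Finsupp.single (c, z) 1 + Finsupp.single (d, z') 1 + m') → Sim G m m' := by
      intro c d z z' m m' hc hd hS
      have hdeg : ∀ v, mdeg m v = mdeg m' v := by
        intro v
        have := hS.1 v
        rw [mdeg_add, mdeg_add _ m'] at this
        omega
      apply sim_of_add _ hS
      intro v w hv hw hR
      exact hR.mono (hWW c d z z' m (by rw [W_eq hdeg]; exact hc) (by rw [W_eq hdeg]; exact hd))
    have e1 : lin (fun m => ind K G (Finsupp.single (a, false) 1 + Finsupp.single (b, true) 1 + m0)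
        (Finsupp.single (a, false) 1 + Finsupp.single (b, true) 1 + m)) f = lin (ind K G m0) f := by
      apply lin_congr
      intro m _
      unfold ind
      by_cases hs : Sim G m m0
      · rw [if_pos hs, if_pos (hs.add _)]
      · rw [if_neg hs, if_neg (fun h' => hs (hrefl a b _ _ m m0 ha hb h'))]
    rw [e1, sub_eq_zero] at h1
    rw [h1]
    by_cases hex : ∃ m1, Sim G (Finsupp.single (b, false) 1 + Finsupp.single (a, true) 1 + m1)
        (Finsupp.single (a, false) 1 + Finsupp.single (b, true) 1 + m0)
    · obtain ⟨m1, hm1⟩ := hex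
      have hdeg : ∀ v, mdeg m1 v = mdeg m0 v := by
        intro v
        have := hm1.1 v
        simp only [mdeg_add, mdeg_single] at this
        omega
      have hW1 : W m1 = W m0 := W_eq hdeg
      have hWbig : W (Finsupp.single (b, false) 1 + Finsupp.single (a, true) 1 + m1) = W m0 := by
        apply Set.Subset.antisymm
        · rw [← hW1]
          exact hWW b a _ _ m1 (by rw [hW1]; exact hb) (by rw [hW1]; exact ha)
        · rw [← hW1]
          intro u hu
          exact mem_W_add_right hu
      have hcnt := hm1.2 b (by
        rw [mdeg_add]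
        have : mdeg m1 b ≠ 0 := by rw [hdeg]; exact hb
        omega)
      rw [hWbig, cnt_add, cnt_add, cnt_add, cnt_add, cnt_single_x, cnt_single_x, cnt_single_y,
        cnt_single_y, if_pos (R.refl b), if_neg (fun h => hab h.symm)] at hcnt
      have h3 := ih (cnt G (W m1) m1 b) (by rw [hW1]; omega) m1 (by rw [hW1]; exact ha)
        (by rw [hW1]; exact hb) (by rw [hW1]; exact hab) rfl
      rw [← h3]
      apply lin_congr
      intro m _
      unfold ind
      by_cases hs : Sim G m m1
      · rw [if_pos hs, if_pos ((hs.add _).trans hm1)]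
      · rw [if_neg hs, if_neg]
        intro h'
        exact hs (hrefl b a _ _ m m1 (by rw [hW1]; exact hb) (by rw [hW1]; exact ha)
          (h'.trans hm1.symm))
    · push Not at hex
      have : (fun m => ind K G (Finsupp.single (a, false) 1 + Finsupp.single (b, true) 1 + m0)
        (Finsupp.single (b, false) 1 + Finsupp.single (a, true) 1 + m)) = fun _ => (0 : K) := by
        funext m
        unfold ind
        rw [if_neg (hex m)]
      rw [this]
      exact lin_zero_fun f

/-- a vertex off the support without neighbours: multiplication by `delta` is injective on class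
sums -/
lemma sum_zero_of_delta_isolated {f : MvPolynomial (V × Bool) K} {a b : V}
    (hf : delta K a b * f ∈ binEdge K G) {m0 : (V × Bool) →₀ ℕ} (ha : a ∉ W m0) (hab : a ≠ b)
    (hadj : ¬ G.Adj a b) (hn : ∀ c ∈ W m0, ¬ G.Adj a c) (hb : b ∈ W m0 ∨ W m0 = ∅) :
    lin (ind K G m0) f = 0 := by
  classical
  have h1 := sum_eq_zero_of_mem hf (Finsupp.single (a, false) 1 + Finsupp.single (b, true) 1 + m0)
  rw [lin_delta_mul] at h1
  have e2 : (fun m => ind K G (Finsupp.single (a, false) 1 + Finsupp.single (b, true) 1 + m0)
      (Finsupp.single (b, false) 1 + Finsupp.single (a, true) 1 + m)) = fun _ => (0 : K) := by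
    funext m
    unfold ind
    rw [if_neg]
    intro hS
    have hclosed := hS.sum_closed {a} ?_
    · rw [Finset.sum_singleton, Finset.sum_singleton] at hclosed
      have hd := hS.1 a
      simp only [mdeg_add, mdeg_single] at hd
      have ha' : mdeg m0 a = 0 := by
        by_contra h; exact ha h
      have hd2 : mdeg m a = 0 := by
        rw [ha'] at hd
        simp [hab] at hd
        exact hd
      have hx1 : m (a, false) = 0 := by unfold mdeg at hd2; omega
      have hx2 : m0 (a, false) = 0 := by unfold mdeg at ha'; omega
      simp only [Finsupp.add_apply, hx1, hx2] at hclosed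
      have n1 : (b, false) ≠ (a, false) := fun h => hab (congrArg Prod.fst h).symm
      have n2 : (a, true) ≠ (a, false) := fun h => Bool.noConfusion (congrArg Prod.snd h)
      have n3 : (b, true) ≠ (a, false) := fun h => Bool.noConfusion (congrArg Prod.snd h)
      rw [Finsupp.single_eq_of_ne (Ne.symm n1), Finsupp.single_eq_of_ne (Ne.symm n2),
        Finsupp.single_eq_of_ne (Ne.symm n3), Finsupp.single_eq_same] at hclosed
      omega
    · have hno : ∀ c, c ∈ W (Finsupp.single (a, false) 1 + Finsupp.single (b, true) 1 + m0) →
          ¬ G.Adj a c := by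
        intro c hc hac
        have hc' : mdeg (Finsupp.single (a, false) 1 + Finsupp.single (b, true) 1 + m0) c ≠ 0 := hc
        by_cases h2 : c = a
        · rw [h2] at hac; exact G.irrefl hac
        · by_cases h3 : c = b
          · rw [h3] at hac; exact hadj hac
          · rw [mdeg_add, mdeg_add, mdeg_single, mdeg_single, if_neg h2, if_neg h3] at hc'
            rw [zero_add, zero_add] at hc'
            exact hn c hc' hac
      intro c hc d hd hcd
      rw [Finset.mem_singleton, Finset.mem_singleton]
      constructor
      · rintro rfl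
        exact absurd hcd (hno d hd)
      · rintro rfl
        exact absurd hcd.symm (hno c hc)
  rw [e2, lin_zero_fun, sub_zero] at h1
  rw [← h1]
  apply lin_congr
  intro m _
  unfold ind
  by_cases hs : Sim G m m0
  · rw [if_pos hs, if_pos (hs.add _)]
  · rw [if_neg hs, if_neg]
    intro hS
    apply hs
    have hdeg : ∀ v, mdeg m v = mdeg m0 v := by
      intro v
      have := hS.1 v
      rw [mdeg_add, mdeg_add _ m0] at this
      omega
    apply sim_of_add _ hS
    intro v w hv hw hR
    have hW := W_eq hdeg
    rw [hW] at hv hw ⊢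
    rcases hb with hb | hb
    · apply no_merge (j := a) (fun c hc d _ hac _ => absurd hac (hn c hc)) v w hv hw
      refine hR.mono ?_
      intro u hu
      have hu' : mdeg (Finsupp.single (a, false) 1 + Finsupp.single (b, true) 1 + m) u ≠ 0 := hu
      by_cases h2 : u = a
      · exact Or.inl h2
      · right
        by_cases h3 : u = b
        · rw [h3]; exact hb
        · rw [mdeg_add, mdeg_add, mdeg_single, mdeg_single, if_neg h2, if_neg h3, hdeg,
            zero_add, zero_add] at hu'
          exact hu'
    · rw [hb] at hv
      exact absurd hv (Set.notMem_empty v)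

end fin

end Pool.Agent.V117.BinEdge
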