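import Mathlib

/-! Surjective block matrices of polynomials with degree restrictions. -/

namespace Pool.Agent.V117.Pencil

open Polynomial

variable {k : Type*} [Field k]

lemma split (h : k[X]) (p m : ℕ) (hh : h.degree < ((p + m : ℕ) : WithBot ℕ)) :
    ∃ lo hi : k[X], h = lo + X ^ p * hi ∧ lo.degree < (p : WithBot ℕ) ∧
      hi.degree < (m : WithBot ℕ) := by
  have hX : (X ^ p : k[X]).Monic := monic_X_pow p
  have h1 : (h %ₘ X ^ p).degree < (p : WithBot ℕ) := by
    have := degree_modByMonic_lt h hX
    rwa [degree_X_pow] at this
  refine ⟨h %ₘ X ^ p, h /ₘ X ^ p, (modByMonic_add_div h (X ^ p)).symm, h1, ?_⟩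
  by_contra hcon
  push Not at hcon
  have h2 : (X ^ p * (h /ₘ X ^ p)).degree < ((p + m : ℕ) : WithBot ℕ) := by
    have e : X ^ p * (h /ₘ X ^ p) = h - h %ₘ X ^ p := by
      rw [eq_sub_iff_add_eq, add_comm]
      exact modByMonic_add_div h (X ^ p)
    rw [e]
    refine lt_of_le_of_lt (degree_sub_le _ _) (max_lt hh (lt_of_lt_of_le h1 ?_))
    exact_mod_cast Nat.le_add_right p m
  rw [degree_mul, degree_X_pow] at h2
  have h3 : ((p + m : ℕ) : WithBot ℕ) ≤ (p : WithBot ℕ) + (h /ₘ X ^ p).degree := by
    push_cast
    gcongr
  exact absurd h2 (not_lt.2 h3)

lemma deg_X_pow_mul {h : k[X]} {p m n : ℕ} (hh : h.degree < (m : WithBot ℕ)) (hn : p + m ≤ n) :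
    (X ^ p * h).degree < (n : WithBot ℕ) := by
  by_cases h0 : h = 0
  · rw [h0, mul_zero, degree_zero]
    exact WithBot.bot_lt_coe _
  · rw [degree_mul, degree_X_pow, degree_eq_natDegree h0]
    rw [degree_eq_natDegree h0] at hh
    have : h.natDegree < m := by exact_mod_cast hh
    exact_mod_cast (by omega : p + h.natDegree < n)

variable {ι σ : Type*} [DecidableEq ι] [DecidableEq σ]

/-- Filling lemma. -/
lemma fill (κ : ι → ℕ) (d : σ → ℕ) : ∀ (N : ℕ) (D : Finset ι) (T : Finset σ),
    D.card + T.card = N → ∀ s0 ∈ T, (∀ s ∈ T, d s0 ≤ d s) → ∀ p ≤ d s0,
    (∀ s ∈ T, ∑ s' ∈ T.filter (fun s' => d s' ≤ d s), d s' ≤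
      p + ∑ r ∈ D.filter (fun r => κ r < d s), (κ r + 1)) →
    ∃ M : σ → ι → k[X], (∀ s r, M s r = 0 ∨ (M s r).natDegree + κ r < d s) ∧
      (∀ s ∉ T, ∀ r, M s r = 0) ∧
      ∀ g : σ → k[X], (∀ s, (g s).degree < (d s : WithBot ℕ)) →
        ∃ (f : ι → k[X]) (h : k[X]), (∀ r, (f r).degree < ((κ r + 1 : ℕ) : WithBot ℕ)) ∧
          h.degree < (p : WithBot ℕ) ∧
          ∀ s ∈ T, g s = ∑ r ∈ D, M s r * f r + if s = s0 then h else 0 := by
  intro N
  induction N using Nat.strong_induction_on with
  | _ N IH =>
  intro D T hN s0 hs0 hmin p hp hcond
  -- the filter sums with `s0` removed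
  have hT : ∀ s ∈ T, ∑ s' ∈ T.filter (fun s' => d s' ≤ d s), d s' =
      d s0 + ∑ s' ∈ (T.erase s0).filter (fun s' => d s' ≤ d s), d s' := by
    intro s hs
    rw [Finset.filter_erase, Finset.add_sum_erase]
    exact Finset.mem_filter.2 ⟨hs0, hmin s hs⟩
  by_cases hpd : p = d s0
  · by_cases hne : (T.erase s0).Nonempty
    · obtain ⟨s1, hs1, hs1min⟩ := Finset.exists_min_image (T.erase s0) d hne
      obtain ⟨M, hM1, hM2, hM3⟩ := IH (D.card + (T.erase s0).card)
        (by rw [← hN, Finset.card_erase_of_mem hs0]
            have := Finset.card_pos.2 ⟨s0, hs0⟩
            omega) D (T.erase s0) rfl s1 hs1 hs1min 0 (Nat.zero_le _) (by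
          intro s hs
          have h1 := hcond s (Finset.mem_of_mem_erase hs)
          rw [hT s (Finset.mem_of_mem_erase hs)] at h1
          omega)
      refine ⟨M, hM1, fun s hs => hM2 s (fun h => hs (Finset.mem_of_mem_erase h)), ?_⟩
      intro g hg
      obtain ⟨f, h, hf, hh, he⟩ := hM3 g hg
      refine ⟨f, g s0, hf, by rw [hpd]; exact hg s0, ?_⟩
      intro s hs
      by_cases hss : s = s0
      · subst hss
        rw [if_pos rfl]
        have : ∑ r ∈ D, M s r * f r = 0 := Finset.sum_eq_zero fun r _ => by
          rw [hM2 s (by simp) r, zero_mul]
        rw [this, zero_add]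
      · rw [if_neg hss, he s (Finset.mem_erase.2 ⟨hss, hs⟩)]
        have hh0 : h = 0 := by
          rw [← degree_eq_bot]
          have : h.degree < 0 := by exact_mod_cast hh
          exact Nat.WithBot.lt_zero_iff.1 this
        rw [hh0]
        simp
    · refine ⟨fun _ _ => 0, fun s r => Or.inl rfl, fun s _ r => rfl, ?_⟩
      intro g hg
      refine ⟨fun _ => 0, g s0, fun r => by
        rw [degree_zero]; exact WithBot.bot_lt_coe _, by rw [hpd]; exact hg s0, ?_⟩
      intro s hs
      have hss : s = s0 := by
        by_contra h
        exact hne ⟨s, Finset.mem_erase.2 ⟨h, hs⟩⟩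
      rw [hss]
      simp
  · have hp' : p < d s0 := lt_of_le_of_ne hp hpd
    obtain ⟨r0, hr0⟩ : (D.filter (fun r => κ r < d s0)).Nonempty := by
      by_contra hcon
      rw [Finset.not_nonempty_iff_eq_empty] at hcon
      have h1 := hcond s0 hs0
      rw [hcon, Finset.sum_empty, hT s0 hs0] at h1
      omega
    rw [Finset.mem_filter] at hr0
    obtain ⟨hr0D, hr0κ⟩ := hr0
    have hD : ∀ s ∈ T, ∑ r ∈ D.filter (fun r => κ r < d s), (κ r + 1) =
        (κ r0 + 1) + ∑ r ∈ (D.erase r0).filter (fun r => κ r < d s), (κ r + 1) := by
      intro s hs
      rw [Finset.filter_erase, Finset.add_sum_erase _ (fun r => κ r + 1)]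
      exact Finset.mem_filter.2 ⟨hr0D, lt_of_lt_of_le hr0κ (hmin s hs)⟩
    have hDc : (D.erase r0).card + 1 = D.card := Finset.card_erase_add_one hr0D
    have hTc : (T.erase s0).card + 1 = T.card := Finset.card_erase_add_one hs0
    by_cases hb : p + (κ r0 + 1) ≤ d s0
    · obtain ⟨M, hM1, hM2, hM3⟩ := IH ((D.erase r0).card + T.card) (by omega) (D.erase r0) T rfl
        s0 hs0 hmin (p + (κ r0 + 1)) hb (by
          intro s hs
          have h1 := hcond s hs
          rw [hD s hs] at h1
          omega)
      refine ⟨fun s r => if r = r0 then (if s = s0 then X ^ p else 0) else M s r, ?_, ?_, ?_⟩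
      · intro s r
        by_cases hr : r = r0
        · subst hr
          by_cases hs : s = s0
          · subst hs
            right
            simp only [if_true, natDegree_X_pow]
            omega
          · left
            simp [hs]
        · simp only [hr, if_false]
          exact hM1 s r
      · intro s hs r
        have hss : ¬ s = s0 := fun h => hs (h ▸ hs0)
        by_cases hr : r = r0
        · simp [hr, hss]
        · simp only [hr, if_false]
          exact hM2 s hs r
      · intro g hg
        obtain ⟨f, h, hf, hh, he⟩ := hM3 g hg
        obtain ⟨lo, hi, hlh, hlo, hhi⟩ := split h p (κ r0 + 1) hh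
        refine ⟨fun r => if r = r0 then hi else f r, lo, ?_, hlo, ?_⟩
        · intro r
          by_cases hr : r = r0
          · subst hr
            simpa using hhi
          · simp only [hr, if_false]
            exact hf r
        · intro s hs
          rw [he s hs, ← Finset.add_sum_erase D _ hr0D]
          have e1 : ∑ x ∈ D.erase r0, (if x = r0 then (if s = s0 then X ^ p else 0) else M s x) *
              (if x = r0 then hi else f x) = ∑ x ∈ D.erase r0, M s x * f x := by
            refine Finset.sum_congr rfl fun x hx => ?_
            rw [if_neg (Finset.ne_of_mem_erase hx), if_neg (Finset.ne_of_mem_erase hx)]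
          rw [e1]
          simp only [if_true]
          by_cases hss : s = s0
          · simp only [hss, if_true]
            rw [hlh]
            ring
          · simp only [hss, if_false]
            ring
    · push Not at hb
      obtain ⟨q, hq⟩ : ∃ q, q + d s0 = p + (κ r0 + 1) := ⟨p + (κ r0 + 1) - d s0, by omega⟩
      obtain ⟨t, ht⟩ : ∃ t, t + (κ r0 + 1) = d s0 := ⟨d s0 - (κ r0 + 1), by omega⟩
      have htq : t + q = p := by omega
      by_cases hne : (T.erase s0).Nonempty
      · obtain ⟨s1, hs1, hs1min⟩ := Finset.exists_min_image (T.erase s0) d hne
        have hs10 : s1 ≠ s0 := Finset.ne_of_mem_erase hs1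
        have hd01 : d s0 ≤ d s1 := hmin s1 (Finset.mem_of_mem_erase hs1)
        obtain ⟨M, hM1, hM2, hM3⟩ := IH ((D.erase r0).card + (T.erase s0).card) (by omega)
          (D.erase r0) (T.erase s0) rfl s1 hs1 hs1min q (by omega) (by
            intro s hs
            have hs' := Finset.mem_of_mem_erase hs
            have h1 := hcond s hs'
            rw [hD s hs', hT s hs'] at h1
            omega)
        refine ⟨fun s r => if r = r0 then (if s = s0 then X ^ t else if s = s1 then 1 else 0)
          else M s r, ?_, ?_, ?_⟩
        · intro s r
          by_cases hr : r = r0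
          · subst hr
            by_cases hs : s = s0
            · subst hs
              right
              simp only [if_true, natDegree_X_pow]
              omega
            · by_cases hs' : s = s1
              · subst hs'
                right
                simp only [if_true, hs, if_false, natDegree_one]
                omega
              · left
                simp [hs, hs']
          · simp only [hr, if_false]
            exact hM1 s r
        · intro s hs r
          have hss : ¬ s = s0 := fun h => hs (h ▸ hs0)
          have hss1 : ¬ s = s1 := fun h => hs (h ▸ Finset.mem_of_mem_erase hs1)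
          by_cases hr : r = r0
          · simp [hr, hss, hss1]
          · simp only [hr, if_false]
            exact hM2 s (fun h => hs (Finset.mem_of_mem_erase h)) r
        · intro g hg
          -- high part
          obtain ⟨lo, hi, hlh, hlo, hhi⟩ := split (g s0) p (d s0 - p) (by
            rw [Nat.add_sub_cancel' hp]
            exact hg s0)
          have hfhi : (X ^ q * hi).degree < ((κ r0 + 1 : ℕ) : WithBot ℕ) :=
            deg_X_pow_mul hhi (by omega)
          obtain ⟨f, h, hf, hh, he⟩ := hM3 (fun s => if s = s1 then g s1 - X ^ q * hi else g s) (by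
            intro s
            by_cases hs : s = s1
            · subst hs
              simp only [if_true]
              refine lt_of_le_of_lt (degree_sub_le _ _) (max_lt (hg s) (lt_of_lt_of_le hfhi ?_))
              exact_mod_cast (by omega : κ r0 + 1 ≤ d s)
            · simp only [hs, if_false]
              exact hg s)
          refine ⟨fun r => if r = r0 then X ^ q * hi + h else f r, lo - X ^ t * h, ?_, ?_, ?_⟩
          · intro r
            by_cases hr : r = r0
            · subst hr
              simp only [if_true]
              refine lt_of_le_of_lt (degree_add_le _ _) (max_lt hfhi (lt_of_lt_of_le hh ?_))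
              exact_mod_cast (by omega : q ≤ κ r + 1)
            · simp only [hr, if_false]
              exact hf r
          · refine lt_of_le_of_lt (degree_sub_le _ _) (max_lt hlo ?_)
            exact deg_X_pow_mul hh (by omega)
          · intro s hs
            rw [← Finset.add_sum_erase D _ hr0D]
            have e1 : ∑ x ∈ D.erase r0, (if x = r0 then
                (if s = s0 then X ^ t else if s = s1 then 1 else 0) else M s x) *
                (if x = r0 then X ^ q * hi + h else f x) = ∑ x ∈ D.erase r0, M s x * f x := by
              refine Finset.sum_congr rfl fun x hx => ?_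
              rw [if_neg (Finset.ne_of_mem_erase hx), if_neg (Finset.ne_of_mem_erase hx)]
            rw [e1]
            simp only [if_true]
            by_cases hss : s = s0
            · subst hss
              have e2 : ∑ x ∈ D.erase r0, M s x * f x = 0 := Finset.sum_eq_zero fun r _ => by
                rw [hM2 s (by simp) r, zero_mul]
              rw [e2, hlh, ← htq]
              simp only [if_true]
              ring
            · have h3 := he s (Finset.mem_erase.2 ⟨hss, hs⟩)
              by_cases hs' : s = s1
              · subst hs'
                simp only [if_true] at h3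
                simp only [hss, if_false, if_true]
                linear_combination h3
              · simp only [hs', if_false] at h3
                simp only [hss, hs', if_false]
                linear_combination h3
      · refine ⟨fun s r => if r = r0 ∧ s = s0 then X ^ t else 0, ?_, ?_, ?_⟩
        · intro s r
          by_cases hr : r = r0 ∧ s = s0
          · obtain ⟨rfl, rfl⟩ := hr
            right
            simp only [and_self, if_true, natDegree_X_pow]
            omega
          · left
            simp only [hr, if_false]
        · intro s hs r
          have hss : ¬ s = s0 := fun h => hs (h ▸ hs0)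
          simp [hss]
        · intro g hg
          obtain ⟨lo, hi, hlh, hlo, hhi⟩ := split (g s0) t (κ r0 + 1) (by
            rw [ht]
            exact hg s0)
          refine ⟨fun r => if r = r0 then hi else 0, lo, ?_, lt_of_lt_of_le hlo ?_, ?_⟩
          · intro r
            by_cases hr : r = r0
            · subst hr
              simpa using hhi
            · simp only [hr, if_false, degree_zero]
              exact WithBot.bot_lt_coe _
          · exact_mod_cast (by omega : t ≤ p)
          · intro s hs
            have hss : s = s0 := by
              by_contra h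
              exact hne ⟨s, Finset.mem_erase.2 ⟨h, hs⟩⟩
            subst hss
            rw [Finset.sum_eq_single r0]
            · simp only [and_self, if_true]
              rw [hlh]
              ring
            · intro b _ hb
              simp [hb]
            · intro h
              exact absurd hr0D h

end Pool.Agent.V117.Pencil
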