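import Mathlib
import Pool.Agent.V117.PencilFill

/-! Solutions of `A E B = B E A` for singular pencils. -/

namespace Pool.Agent.V117.Pencil

open Polynomial Matrix

variable {k : Type*} [Field k] {σ ι : Type*} [Fintype σ] [DecidableEq σ] [Fintype ι]
  [DecidableEq ι]

/-- Constant coefficient of the direct sum of the blocks `L_{d s}^T`. -/
def AT (k : Type*) [Field k] (d : σ → ℕ) : Matrix (Σ s, Fin (d s + 1)) (Σ s, Fin (d s)) k :=
  Matrix.of fun x y => if x.1 = y.1 ∧ (x.2 : ℕ) = y.2 + 1 then 1 else 0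

/-- Coefficient of `λ` in the direct sum of the blocks `L_{d s}^T`. -/
def BT (k : Type*) [Field k] (d : σ → ℕ) : Matrix (Σ s, Fin (d s + 1)) (Σ s, Fin (d s)) k :=
  Matrix.of fun x y => if x.1 = y.1 ∧ (x.2 : ℕ) = y.2 then 1 else 0

variable {d : σ → ℕ} {τ : Type*}

omit [Fintype ι] [DecidableEq ι] in
lemma mul_BT (F : Matrix τ (Σ s, Fin (d s + 1)) k) (x : τ) (r : σ) (a : Fin (d r)) :
    (F * BT k d) x ⟨r, a⟩ = F x ⟨r, a.castSucc⟩ := by
  rw [mul_apply, Finset.sum_eq_single (⟨r, a.castSucc⟩ : Σ s, Fin (d s + 1))]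
  · simp [BT]
  · rintro ⟨s, b⟩ _ hne
    simp only [BT, of_apply]
    rw [if_neg, mul_zero]
    rintro ⟨h1, h2⟩
    apply hne
    subst h1
    congr 1
    exact Fin.ext h2
  · intro h
    exact absurd (Finset.mem_univ _) h

lemma mul_AT (F : Matrix τ (Σ s, Fin (d s + 1)) k) (x : τ) (r : σ) (a : Fin (d r)) :
    (F * AT k d) x ⟨r, a⟩ = F x ⟨r, a.succ⟩ := by
  rw [mul_apply, Finset.sum_eq_single (⟨r, a.succ⟩ : Σ s, Fin (d s + 1))]
  · simp [AT]
  · rintro ⟨s, b⟩ _ hne
    simp only [AT, of_apply]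
    rw [if_neg, mul_zero]
    rintro ⟨h1, h2⟩
    apply hne
    subst h1
    congr 1
    exact Fin.ext (by simpa using h2)
  · intro h
    exact absurd (Finset.mem_univ _) h

lemma BT_mul (F : Matrix (Σ s, Fin (d s)) τ k) (y : τ) (r : σ) (c : Fin (d r + 1)) :
    (BT k d * F) ⟨r, c⟩ y = if h : (c : ℕ) < d r then F ⟨r, ⟨c, h⟩⟩ y else 0 := by
  rw [mul_apply]
  by_cases h : (c : ℕ) < d r
  · rw [dif_pos h, Finset.sum_eq_single (⟨r, ⟨c, h⟩⟩ : Σ s, Fin (d s))]
    · simp [BT]
    · rintro ⟨s, b⟩ _ hne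
      simp only [BT, of_apply]
      rw [if_neg, zero_mul]
      rintro ⟨h1, h2⟩
      apply hne
      subst h1
      congr 1
      exact Fin.ext h2.symm
    · intro h
      exact absurd (Finset.mem_univ _) h
  · rw [dif_neg h]
    refine Finset.sum_eq_zero ?_
    rintro ⟨s, b⟩ _
    simp only [BT, of_apply]
    rw [if_neg, zero_mul]
    rintro ⟨h1, h2⟩
    subst h1
    exact h (h2 ▸ b.2)

lemma AT_mul (F : Matrix (Σ s, Fin (d s)) τ k) (y : τ) (r : σ) (c : Fin (d r + 1)) :
    (AT k d * F) ⟨r, c⟩ y =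
      if h : 0 < (c : ℕ) then F ⟨r, ⟨c - 1, by omega⟩⟩ y else 0 := by
  rw [mul_apply]
  by_cases h : 0 < (c : ℕ)
  · rw [dif_pos h, Finset.sum_eq_single (⟨r, ⟨c - 1, by omega⟩⟩ : Σ s, Fin (d s))]
    · simp only [AT, of_apply]
      rw [if_pos (by
        refine ⟨?_, ?_⟩
        · trivial
        · show (c : ℕ) = (c : ℕ) - 1 + 1
          omega), one_mul]
    · rintro ⟨s, b⟩ _ hne
      simp only [AT, of_apply]
      rw [if_neg, zero_mul]
      rintro ⟨h1, h2⟩
      apply hne
      subst h1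
      congr 1
      exact Fin.ext (show (b : ℕ) = (c : ℕ) - 1 by omega)
    · intro h
      exact absurd (Finset.mem_univ _) h
  · rw [dif_neg h]
    refine Finset.sum_eq_zero ?_
    rintro ⟨s, b⟩ _
    simp only [AT, of_apply]
    rw [if_neg, zero_mul]
    rintro ⟨h1, h2⟩
    subst h1
    omega

/-- the Toeplitz matrix of polynomial multipliers -/
noncomputable def toep (d : σ → ℕ) (M : σ → σ → k[X]) :
    Matrix (Σ s, Fin (d s)) (Σ s, Fin (d s + 1)) k :=
  Matrix.of fun x y => (X ^ (y.2 : ℕ) * M x.1 y.1).coeff x.2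

lemma toep_comm (M : σ → σ → k[X]) (hM : ∀ s r, M s r = 0 ∨ (M s r).natDegree + d r < d s) :
    AT k d * toep d M * BT k d = BT k d * toep d M * AT k d := by
  ext ⟨s, c⟩ ⟨r, a⟩
  rw [mul_BT, AT_mul, mul_AT, BT_mul]
  simp only [toep, of_apply]
  have key : (X ^ ((a : ℕ) + 1) * M s r).coeff c =
      if 0 < (c : ℕ) then (X ^ (a : ℕ) * M s r).coeff ((c : ℕ) - 1) else 0 := by
    rw [pow_succ', mul_assoc]
    by_cases h : 0 < (c : ℕ)
    · rw [if_pos h]
      obtain ⟨c', hc'⟩ : ∃ c', (c : ℕ) = c' + 1 := ⟨c - 1, by omega⟩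
      rw [hc', coeff_X_mul]
      rfl
    · rw [if_neg h]
      have : (c : ℕ) = 0 := by omega
      rw [this]
      simp
  have e1 : (if h : 0 < (c : ℕ) then (X ^ ((a.castSucc : Fin (d r + 1)) : ℕ) * M s r).coeff
      ((c : ℕ) - 1) else 0) = (X ^ ((a : ℕ) + 1) * M s r).coeff c := by
    rw [key]
    rfl
  have e2 : (if h : (c : ℕ) < d s then (X ^ ((a.succ : Fin (d r + 1)) : ℕ) * M s r).coeff
      (c : ℕ) else 0) = (X ^ ((a : ℕ) + 1) * M s r).coeff c := by
    by_cases h : (c : ℕ) < d s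
    · rw [dif_pos h]
      rfl
    · rw [dif_neg h]
      rcases hM s r with h0 | h0
      · rw [h0]; simp
      · symm
        apply coeff_eq_zero_of_natDegree_lt
        refine lt_of_le_of_lt natDegree_mul_le ?_
        rw [natDegree_X_pow]
        have := a.2
        omega
  exact e1.trans e2.symm

lemma poly_sum_fin (f : k[X]) (m : ℕ) (hf : f.degree < (m : WithBot ℕ)) :
    f = ∑ a : Fin m, C (f.coeff a) * X ^ (a : ℕ) := by
  have h1 : f = ∑ a ∈ Finset.range m, C (f.coeff a) * X ^ a := by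
    by_cases hm : m = 0
    · subst hm
      have : f = 0 := by
        rw [← degree_eq_bot]
        have : f.degree < 0 := by exact_mod_cast hf
        exact Nat.WithBot.lt_zero_iff.1 this
      rw [this]
      simp
    · apply as_sum_range_C_mul_X_pow'
      by_cases hf0 : f = 0
      · rw [hf0, natDegree_zero]
        omega
      · exact (natDegree_lt_iff_degree_lt hf0).2 hf
  exact h1.trans (Finset.sum_range (fun a => C (f.coeff a) * X ^ a))

lemma toep_surj (d : σ → ℕ)
    (hd : ∀ s, ∑ s' ∈ Finset.univ.filter (fun s' => d s' ≤ d s), d s' ≤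
      ∑ r ∈ Finset.univ.filter (fun r => d r < d s), (d r + 1)) :
    ∃ M : σ → σ → k[X], (∀ s r, M s r = 0 ∨ (M s r).natDegree + d r < d s) ∧
      ∀ g : (Σ s, Fin (d s)) → k, ∃ f, toep d M *ᵥ f = g := by
  classical
  by_cases hne : (Finset.univ : Finset σ).Nonempty
  · obtain ⟨s0, hs0, hmin⟩ := Finset.exists_min_image Finset.univ d hne
    obtain ⟨M, hM1, -, hM3⟩ := fill (k := k) d d _ Finset.univ Finset.univ rfl s0 hs0 hmin 0
      (Nat.zero_le _) (by
        intro s _
        rw [zero_add]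
        exact hd s)
    refine ⟨M, hM1, fun g => ?_⟩
    obtain ⟨f, h, hf, hh, he⟩ := hM3 (fun s => ∑ b : Fin (d s), C (g ⟨s, b⟩) * X ^ (b : ℕ))
      (fun s => degree_sum_fin_lt _)
    have hh0 : h = 0 := by
      rw [← degree_eq_bot]
      have : h.degree < 0 := by exact_mod_cast hh
      exact Nat.WithBot.lt_zero_iff.1 this
    refine ⟨fun x => (f x.1).coeff x.2, ?_⟩
    funext ⟨s, b⟩
    have h1 := congrArg (fun q => coeff q (b : ℕ)) (he s (Finset.mem_univ _))
    simp only [hh0, ite_self, add_zero, finsetSum_coeff, coeff_C_mul_X_pow] at h1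
    rw [Finset.sum_eq_single b] at h1
    · rw [if_pos rfl] at h1
      rw [h1, mulVec, dotProduct, Fintype.sum_sigma]
      refine Finset.sum_congr rfl fun r _ => ?_
      conv_rhs => rw [poly_sum_fin (f r) (d r + 1) (hf r), Finset.mul_sum, finsetSum_coeff]
      refine Finset.sum_congr rfl fun a _ => ?_
      simp only [toep, of_apply]
      rw [mul_comm (M s r), mul_assoc, coeff_C_mul, mul_comm]
    · intro c _ hc
      rw [if_neg]
      intro h
      exact hc (Fin.ext h.symm)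
    · intro h
      exact absurd (Finset.mem_univ _) h
  · refine ⟨fun _ _ => 0, fun _ _ => Or.inl rfl, fun g => ⟨fun _ => 0, ?_⟩⟩
    funext ⟨s, b⟩
    exact absurd ⟨s, Finset.mem_univ s⟩ hne

/-- rank one solutions -/
lemma rankOne_comm (e : ι → ℕ) (d : σ → ℕ) (x : k) (i0 : ι) (r0 : σ) :
    (AT k e)ᵀ * vecMulVec (fun y : Σ i, Fin (e i + 1) => if y.1 = i0 then x ^ (y.2 : ℕ) else 0)
      (fun y : Σ r, Fin (d r + 1) => if y.1 = r0 then x ^ (y.2 : ℕ) else 0) * BT k d =
    (BT k e)ᵀ * vecMulVec (fun y : Σ i, Fin (e i + 1) => if y.1 = i0 then x ^ (y.2 : ℕ) else 0)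
      (fun y : Σ r, Fin (d r + 1) => if y.1 = r0 then x ^ (y.2 : ℕ) else 0) * AT k d := by
  ext ⟨i, a⟩ ⟨r, b⟩
  rw [mul_BT, mul_AT, ← transpose_apply ((AT k e)ᵀ * _), ← transpose_apply ((BT k e)ᵀ * _),
    transpose_mul, transpose_mul, transpose_transpose, transpose_transpose, mul_AT, mul_BT]
  simp only [transpose_apply, vecMulVec_apply, Fin.val_succ, Fin.val_castSucc]
  by_cases h1 : i = i0 <;> by_cases h2 : r = r0 <;> simp [h1, h2, pow_succ]
  ring

/-- columns: the spaces on which the coefficients act -/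
abbrev VV (d : σ → ℕ) (e : ι → ℕ) := (Σ s, Fin (d s)) ⊕ (Σ i, Fin (e i + 1))

/-- rows -/
abbrev WW (d : σ → ℕ) (e : ι → ℕ) := (Σ s, Fin (d s + 1)) ⊕ (Σ i, Fin (e i))

/-- constant coefficient of the sum of the blocks `L_{d s}^T` and `L_{e i}` -/
def PA (k : Type*) [Field k] (d : σ → ℕ) (e : ι → ℕ) : Matrix (WW d e) (VV d e) k :=
  fromBlocks (AT k d) 0 0 (AT k e)ᵀ

/-- coefficient of `λ` of the sum of the blocks `L_{d s}^T` and `L_{e i}` -/
def PB (k : Type*) [Field k] (d : σ → ℕ) (e : ι → ℕ) : Matrix (WW d e) (VV d e) k :=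
  fromBlocks (BT k d) 0 0 (BT k e)ᵀ

lemma eq_zero_of_surj {m n : Type*} [Fintype m] [Fintype n] (A : Matrix m n k)
    (h : ∀ g : m → k, ∃ f, A *ᵥ f = g) (w : m → k) (hw : w ᵥ* A = 0) : w = 0 := by
  classical
  funext i
  obtain ⟨f, hf⟩ := h (Pi.single i 1)
  have h1 : w ⬝ᵥ (A *ᵥ f) = 0 := by rw [dotProduct_mulVec, hw, zero_dotProduct]
  rw [hf, dotProduct_single, mul_one] at h1
  exact h1

lemma eval_single {ι : Type*} [Fintype ι] [DecidableEq ι] (e : ι → ℕ)
    (w : (Σ i, Fin (e i + 1)) → k) (i0 : ι) (x : k) :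
    ∑ y, (if y.1 = i0 then x ^ (y.2 : ℕ) else 0) * w y =
      (∑ a : Fin (e i0 + 1), C (w ⟨i0, a⟩) * X ^ (a : ℕ) : k[X]).eval x := by
  rw [Fintype.sum_sigma, Finset.sum_eq_single i0, eval_finsetSum]
  · refine Finset.sum_congr rfl fun a _ => ?_
    rw [if_pos rfl, eval_mul, eval_C, eval_pow, eval_X, mul_comm]
  · intro b _ hb
    refine Finset.sum_eq_zero fun a _ => ?_
    simp [hb]
  · intro h
    exact absurd (Finset.mem_univ _) h

lemma poly_ne_zero {m : ℕ} (w : Fin m → k) (b : Fin m) (hb : w b ≠ 0) :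
    (∑ a : Fin m, C (w a) * X ^ (a : ℕ) : k[X]) ≠ 0 := by
  intro h
  have h1 := congrArg (fun q => coeff q (b : ℕ)) h
  simp only [finsetSum_coeff, coeff_C_mul_X_pow, coeff_zero] at h1
  rw [Finset.sum_eq_single b] at h1
  · rw [if_pos rfl] at h1
    exact hb h1
  · intro c _ hc
    rw [if_neg]
    intro h
    exact hc (Fin.ext h.symm)
  · intro h
    exact absurd (Finset.mem_univ _) h

lemma exists_eval [Infinite k] {p q : k[X]} (hp : p ≠ 0) (hq : q ≠ 0) :
    ∃ x, p.eval x ≠ 0 ∧ q.eval x ≠ 0 := by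
  by_contra hcon
  push Not at hcon
  have : p * q = 0 := by
    apply Polynomial.funext
    intro x
    rw [eval_mul, eval_zero, mul_eq_zero]
    by_cases h : p.eval x = 0
    · exact Or.inl h
    · exact Or.inr (hcon x h)
  rcases mul_eq_zero.1 this with h | h
  · exact hp h
  · exact hq h

theorem core [Infinite k] (d : σ → ℕ) (e : ι → ℕ) (hcard : Fintype.card σ = Fintype.card ι)
    (hd : ∀ s, ∑ s' ∈ Finset.univ.filter (fun s' => d s' ≤ d s), d s' ≤
      ∑ r ∈ Finset.univ.filter (fun r => d r < d s), (d r + 1))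
    (he : ∀ s, ∑ s' ∈ Finset.univ.filter (fun s' => e s' ≤ e s), e s' ≤
      ∑ r ∈ Finset.univ.filter (fun r => e r < e s), (e r + 1)) :
    ∃ (E : Matrix (VV d e) (WW d e) k) (G : Matrix (WW d e) (VV d e) k),
      E * G = 1 ∧ G * E = 1 ∧ PA k d e * E * PB k d e = PB k d e * E * PA k d e := by
  classical
  obtain ⟨M, hM, hsurj⟩ := toep_surj (k := k) d hd
  obtain ⟨M', hM', hsurj'⟩ := toep_surj (k := k) e he
  let Sol : Matrix (Σ i, Fin (e i + 1)) (Σ s, Fin (d s + 1)) k → Prop := fun F =>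
    (AT k e)ᵀ * F * BT k d = (BT k e)ᵀ * F * AT k d
  let EE : Matrix (Σ i, Fin (e i + 1)) (Σ s, Fin (d s + 1)) k → Matrix (VV d e) (WW d e) k :=
    fun F => fromBlocks (toep d M) 0 F (toep e M')ᵀ
  have hcomm : ∀ F, Sol F → PA k d e * EE F * PB k d e = PB k d e * EE F * PA k d e := by
    intro F hF
    have h1 := toep_comm M hM
    have h2 := congrArg transpose (toep_comm M' hM')
    simp only [transpose_mul] at h2
    simp only [PA, PB, EE, fromBlocks_multiply, Matrix.zero_mul, Matrix.mul_zero, add_zero,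
      zero_add]
    have h3 : (AT k e)ᵀ * (toep e M')ᵀ * (BT k e)ᵀ = (BT k e)ᵀ * (toep e M')ᵀ * (AT k e)ᵀ := by
      rw [Matrix.mul_assoc, Matrix.mul_assoc, h2]
    rw [h1, hF, h3]
  let P : ℕ → Prop := fun n => ∃ F, Sol F ∧
    Module.finrank k (LinearMap.ker (EE F).mulVecLin) = n
  have hP : ∃ n, P n := ⟨_, 0, by simp [Sol], rfl⟩
  obtain ⟨F, hF, hFn⟩ := Nat.find_spec hP
  have hmin := fun m (hm : m < Nat.find hP) => Nat.find_min hP hm
  let eVW : VV d e ≃ WW d e := Fintype.equivOfCardEq (by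
    simp only [Fintype.card_sum, Fintype.card_sigma, Fintype.card_fin, Finset.sum_add_distrib,
      Finset.sum_const, Finset.card_univ, smul_eq_mul, mul_one]
    omega)
  let E' : Matrix (VV d e) (VV d e) k := (EE F).submatrix id eVW
  have hdet : E'.det ≠ 0 := by
    intro hdet
    obtain ⟨w', hw'0, hw'⟩ := Matrix.exists_mulVec_eq_zero_iff.2 hdet
    obtain ⟨ℓ, hℓ0, hℓ⟩ := Matrix.exists_vecMul_eq_zero_iff.2 hdet
    let w : WW d e → k := w' ∘ eVW.symm
    have hw0 : w ≠ 0 := by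
      intro h
      apply hw'0
      funext x
      have := congrFun h (eVW x)
      simpa [w] using this
    have hw : EE F *ᵥ w = 0 := by
      have h1 := submatrix_mulVec_equiv (EE F) w' id eVW
      rw [hw'] at h1
      funext x
      exact (congrFun h1 x).symm
    have hℓ1 : ℓ ᵥ* EE F = 0 := by
      funext x
      have h1 := congrFun hℓ (eVW.symm x)
      simp only [vecMul, dotProduct, E', submatrix_apply, id, Equiv.apply_symm_apply] at h1
      simp only [vecMul, dotProduct]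
      exact h1
    have hwT : w ∘ Sum.inl ≠ 0 := by
      intro h
      have h1 := congrArg (fun v => v ∘ Sum.inr) hw
      simp only [EE, fromBlocks_mulVec, Sum.elim_comp_inr, h, mulVec_zero, zero_add] at h1
      have h2 : w ∘ Sum.inr = 0 := by
        apply eq_zero_of_surj (toep e M') hsurj'
        rw [← mulVec_transpose]
        exact h1
      apply hw0
      funext x
      rcases x with x | x
      · exact congrFun h x
      · exact congrFun h2 x
    have hℓL : ℓ ∘ Sum.inr ≠ 0 := by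
      intro h
      have h1 := congrArg (fun v => v ∘ Sum.inl) hℓ1
      simp only [EE, vecMul_fromBlocks, Sum.elim_comp_inl, h, zero_vecMul, add_zero] at h1
      have h2 : ℓ ∘ Sum.inl = 0 := eq_zero_of_surj (toep d M) hsurj _ h1
      apply hℓ0
      funext x
      rcases x with x | x
      · exact congrFun h2 x
      · exact congrFun h x
    obtain ⟨⟨r0, b⟩, hb⟩ := Function.ne_iff.1 hwT
    obtain ⟨⟨i0, c⟩, hc⟩ := Function.ne_iff.1 hℓL
    obtain ⟨x, hx1, hx2⟩ := exists_eval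
      (poly_ne_zero (fun a => w (Sum.inl ⟨r0, a⟩)) b hb)
      (poly_ne_zero (fun a => ℓ (Sum.inr ⟨i0, a⟩)) c hc)
    rw [← eval_single d (fun y => w (Sum.inl y)) r0 x] at hx1
    rw [← eval_single e (fun y => ℓ (Sum.inr y)) i0 x] at hx2
    set lam : (Σ r, Fin (d r + 1)) → k := fun y => if y.1 = r0 then x ^ (y.2 : ℕ) else 0 with hlam
    set g : (Σ i, Fin (e i + 1)) → k := fun y => if y.1 = i0 then x ^ (y.2 : ℕ) else 0 with hg
    have hS : Sol (F + vecMulVec g lam) := by
      show (AT k e)ᵀ * (F + vecMulVec g lam) * BT k d = (BT k e)ᵀ * (F + vecMulVec g lam) * AT k d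
      rw [Matrix.mul_add, Matrix.mul_add, Matrix.add_mul, Matrix.add_mul, hF,
        rankOne_comm e d x i0 r0]
    have hmul : ∀ u : WW d e → k, EE (F + vecMulVec g lam) *ᵥ u =
        EE F *ᵥ u + (lam ⬝ᵥ (u ∘ Sum.inl)) • (Sum.elim 0 g : VV d e → k) := by
      intro u
      simp only [EE, fromBlocks_mulVec, add_mulVec]
      funext y
      rcases y with y | y
      · simp
      · simp only [Sum.elim_inr, Pi.add_apply, Pi.smul_apply, smul_eq_mul, mulVec, dotProduct,
          vecMulVec_apply, Finset.sum_mul]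
        have : ∑ x, g y * lam x * (u ∘ Sum.inl) x = ∑ i, lam i * (u ∘ Sum.inl) i * g y :=
          Finset.sum_congr rfl fun _ _ => by ring
        rw [this]
        ring
    have hℓg : ℓ ⬝ᵥ (Sum.elim 0 g : VV d e → k) ≠ 0 := by
      rw [dotProduct, Fintype.sum_sum_type]
      simp only [Sum.elim_inl, Pi.zero_apply, mul_zero, Finset.sum_const_zero, zero_add,
        Sum.elim_inr]
      intro h
      exact hx2 ((Finset.sum_congr rfl fun y _ => mul_comm _ _).trans h)
    have hlt : LinearMap.ker (EE (F + vecMulVec g lam)).mulVecLin <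
        LinearMap.ker (EE F).mulVecLin := by
      refine lt_of_le_of_ne ?_ ?_
      · intro u hu
        rw [LinearMap.mem_ker, mulVecLin_apply, hmul] at hu
        have h1 : ℓ ⬝ᵥ (EE F *ᵥ u + (lam ⬝ᵥ (u ∘ Sum.inl)) • (Sum.elim 0 g : VV d e → k)) = 0 := by
          rw [hu, dotProduct_zero]
        rw [dotProduct_add, dotProduct_mulVec, hℓ1, zero_dotProduct, zero_add, dotProduct_smul,
          smul_eq_mul] at h1
        have h2 := (mul_eq_zero.1 h1).resolve_right hℓg
        rw [h2, zero_smul, add_zero] at hu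
        exact hu
      · intro h
        have h1 : w ∈ LinearMap.ker (EE (F + vecMulVec g lam)).mulVecLin := by
          rw [h]
          exact hw
        rw [LinearMap.mem_ker, mulVecLin_apply, hmul, hw, zero_add] at h1
        have h2 : ℓ ⬝ᵥ ((lam ⬝ᵥ (w ∘ Sum.inl)) • (Sum.elim 0 g : VV d e → k)) = 0 := by
          rw [h1, dotProduct_zero]
        rw [dotProduct_smul, smul_eq_mul] at h2
        exact (mul_ne_zero hx1 hℓg) h2
    have hfr := Submodule.finrank_lt_finrank_of_lt hlt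
    rw [hFn] at hfr
    exact hmin _ hfr ⟨_, hS, rfl⟩
  refine ⟨EE F, (E'⁻¹).submatrix eVW.symm id, ?_, ?_, hcomm F hF⟩
  · have h1 : E' * E'⁻¹ = 1 := mul_nonsing_inv _ (isUnit_iff_ne_zero.2 hdet)
    rw [← h1]
    ext i j
    rw [mul_apply, mul_apply, ← Equiv.sum_comp eVW]
    refine Finset.sum_congr rfl fun x _ => ?_
    show EE F i (eVW x) * E'⁻¹ (eVW.symm (eVW x)) j = EE F i (eVW x) * E'⁻¹ x j
    rw [Equiv.symm_apply_apply]
  · have h1 : E'⁻¹ * E' = 1 := nonsing_inv_mul _ (isUnit_iff_ne_zero.2 hdet)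
    ext i j
    have h2 := congrFun (congrFun h1 (eVW.symm i)) (eVW.symm j)
    rw [mul_apply] at h2 ⊢
    have h3 : ∀ x, E'⁻¹ (eVW.symm i) x * E' x (eVW.symm j) =
        (E'⁻¹).submatrix eVW.symm id i x * EE F x j := by
      intro x
      show E'⁻¹ (eVW.symm i) x * EE F x (eVW (eVW.symm j)) = E'⁻¹ (eVW.symm i) x * EE F x j
      rw [Equiv.apply_symm_apply]
    rw [← Finset.sum_congr rfl (fun x _ => h3 x), h2, one_apply, one_apply]
    simp

end Pool.Agent.V117.Pencil
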