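import Mathlib

open scoped Pointwise

namespace Pool.Agent.V117.PF

variable {G : Type*} [Group G] [Fintype G] [DecidableEq G]

/-- no product of three elements of `T` lies in `T` -/
def TPF (T : Finset G) : Prop := ∀ x ∈ T, ∀ y ∈ T, ∀ z ∈ T, x * y * z ∉ T

lemma TPF.inv {T : Finset G} (h : TPF T) : TPF T⁻¹ := by
  intro x hx y hy z hz hw
  rw [Finset.mem_inv'] at hx hy hz hw
  exact h _ hz _ hy _ hx (by simpa [mul_assoc] using hw)

lemma disjPB {T : Finset G} (h : TPF T) {g : G} (h1 : g ∈ T⁻¹ * T) (h2 : g ∈ T * T) : False := by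
  obtain ⟨x, hx, w, hw, e1⟩ := Finset.mem_mul.1 h1
  obtain ⟨y, hy, z, hz, e2⟩ := Finset.mem_mul.1 h2
  rw [Finset.mem_inv'] at hx
  apply h _ hx _ hy _ hz
  rw [mul_assoc, e2, ← e1]; simpa using hw

lemma disjQB {T : Finset G} (h : TPF T) {g : G} (h1 : g ∈ T * T⁻¹) (h2 : g ∈ T * T) : False := by
  obtain ⟨x, hx, w, hw, e1⟩ := Finset.mem_mul.1 h1
  obtain ⟨y, hy, z, hz, e2⟩ := Finset.mem_mul.1 h2
  rw [Finset.mem_inv'] at hw
  apply h _ hy _ hz _ hw
  rw [e2, ← e1]; simpa using hx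

lemma cardPB {T : Finset G} (h : TPF T) : (T⁻¹ * T).card + (T * T).card ≤ Fintype.card G := by
  rw [← Finset.card_union_of_disjoint]
  · exact Finset.card_le_univ _
  · rw [Finset.disjoint_left]; intro g h1 h2; exact disjPB h h1 h2

lemma cardQB {T : Finset G} (h : TPF T) : (T * T⁻¹).card + (T * T).card ≤ Fintype.card G := by
  rw [← Finset.card_union_of_disjoint]
  · exact Finset.card_le_univ _
  · rw [Finset.disjoint_left]; intro g h1 h2; exact disjQB h h1 h2

/-- number of representations -/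
def c (T : Finset G) (g : G) : ℕ := (T ∩ g • T).card

lemma c_eq (T : Finset G) (a b : G) : c T (a * b⁻¹) = (a⁻¹ • T ∩ b⁻¹ • T).card := by
  unfold c
  rw [← Finset.card_smul_finset a (a⁻¹ • T ∩ b⁻¹ • T), Finset.smul_finset_inter, smul_smul, smul_smul]
  simp

lemma cP {T : Finset G} {g : G} (hg : g ∈ T * T⁻¹) : 2 * T.card ≤ c T g + (T⁻¹ * T).card := by
  obtain ⟨a, ha, b', hb, rfl⟩ := Finset.mem_mul.1 hg
  rw [Finset.mem_inv'] at hb
  obtain ⟨b, rfl⟩ : ∃ b, b' = b⁻¹ := ⟨b'⁻¹, by simp⟩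
  rw [inv_inv] at hb
  rw [c_eq]
  have h1 := Finset.card_inter_add_card_union (a⁻¹ • T) (b⁻¹ • T)
  rw [Finset.card_smul_finset, Finset.card_smul_finset] at h1
  have h2 : (a⁻¹ • T ∪ b⁻¹ • T).card ≤ (T⁻¹ * T).card := by
    apply Finset.card_le_card
    apply Finset.union_subset
    · intro x hx
      obtain ⟨t, ht, rfl⟩ := Finset.mem_smul_finset.1 hx
      exact Finset.mul_mem_mul (Finset.inv_mem_inv ha) ht
    · intro x hx
      obtain ⟨t, ht, rfl⟩ := Finset.mem_smul_finset.1 hx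
      exact Finset.mul_mem_mul (Finset.inv_mem_inv hb) ht
  omega

lemma cB {T : Finset G} {g : G} (hg : g ∈ T⁻¹ * T) : 2 * T.card ≤ c T g + (T * T).card := by
  obtain ⟨a', ha, b, hb, rfl⟩ := Finset.mem_mul.1 hg
  rw [Finset.mem_inv'] at ha
  have e : a' * b = a' * (b⁻¹)⁻¹ := by simp
  rw [e, c_eq]
  rw [inv_inv]
  have h1 := Finset.card_inter_add_card_union (a'⁻¹ • T) (b • T)
  rw [Finset.card_smul_finset, Finset.card_smul_finset] at h1
  have h2 : (a'⁻¹ • T ∪ b • T).card ≤ (T * T).card := by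
    apply Finset.card_le_card
    apply Finset.union_subset
    · intro x hx
      obtain ⟨t, ht, rfl⟩ := Finset.mem_smul_finset.1 hx
      exact Finset.mul_mem_mul ha ht
    · intro x hx
      obtain ⟨t, ht, rfl⟩ := Finset.mem_smul_finset.1 hx
      exact Finset.mul_mem_mul hb ht
  omega

lemma mem_of_c {T : Finset G} {g : G} (h : 0 < c T g) : g ∈ T * T⁻¹ := by
  obtain ⟨x, hx⟩ := Finset.card_pos.1 h
  obtain ⟨hx1, hx2⟩ := Finset.mem_inter.1 hx
  obtain ⟨t, ht, rfl⟩ := Finset.mem_smul_finset.1 hx2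
  have := Finset.mul_mem_mul hx1 (Finset.inv_mem_inv ht)
  simpa using this

lemma inter {T : Finset G} {g h : G} (hc : T.card < c T g + c T h) : g⁻¹ * h ∈ T * T⁻¹ := by
  have h1 := Finset.card_inter_add_card_union (T ∩ g • T) (T ∩ h • T)
  have h2 : (T ∩ g • T ∪ T ∩ h • T).card ≤ T.card := by
    apply Finset.card_le_card
    apply Finset.union_subset <;> exact Finset.inter_subset_left
  unfold c at hc
  have h3 : 0 < ((T ∩ g • T) ∩ (T ∩ h • T)).card := by omega
  obtain ⟨x, hx⟩ := Finset.card_pos.1 h3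
  simp only [Finset.mem_inter] at hx
  obtain ⟨⟨_, hx1⟩, ⟨_, hx2⟩⟩ := hx
  obtain ⟨t, ht, e1⟩ := Finset.mem_smul_finset.1 hx1
  obtain ⟨s, hs, e2⟩ := Finset.mem_smul_finset.1 hx2
  have e3 : g⁻¹ * h = t * s⁻¹ := by
    simp only [smul_eq_mul] at e1 e2
    have : g * t = h * s := by rw [e1, e2]
    rw [inv_mul_eq_iff_eq_mul, ← mul_assoc, this]; simp
  rw [e3]
  exact Finset.mul_mem_mul ht (Finset.inv_mem_inv hs)

lemma PsubQ {T : Finset G} (h : (T * T).card < 2 * T.card) : T⁻¹ * T ⊆ T * T⁻¹ := by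
  intro g hg
  have := cB hg
  exact mem_of_c (by omega)

lemma PeqQ {T : Finset G} (h : (T * T).card < 2 * T.card) : T⁻¹ * T = T * T⁻¹ := by
  apply Finset.Subset.antisymm (PsubQ h)
  have h2 : (T⁻¹ * T⁻¹).card < 2 * T⁻¹.card := by
    rw [← mul_inv_rev, Finset.card_inv, Finset.card_inv]; exact h
  have := PsubQ h2
  rwa [inv_inv] at this

/-- the set of quotients is closed -/
def Clo (T : Finset G) : Prop := ∀ g ∈ T * T⁻¹, ∀ h ∈ T * T⁻¹, g⁻¹ * h ∈ T * T⁻¹

lemma clo_or {T : Finset G} (h : TPF T) (hc : Fintype.card G ≤ 3 * T.card) :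
    Clo T ∨ (2 * (T⁻¹ * T).card = 3 * T.card ∧ 2 * (T * T).card = 3 * T.card ∧ T⁻¹ * T = T * T⁻¹ ∧
      Fintype.card G = 3 * T.card) := by
  have hPB := cardPB h
  by_cases hA : 2 * (T⁻¹ * T).card < 3 * T.card
  · left
    intro g hg k hk
    have := cP hg
    have := cP hk
    exact inter (by omega)
  · have hm : 0 < T.card := by
      have : 0 < Fintype.card G := Fintype.card_pos
      omega
    have hQ : T⁻¹ * T = T * T⁻¹ := PeqQ (by omega)
    by_cases hB : 2 * (T * T).card < 3 * T.card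
    · left
      intro g hg k hk
      rw [← hQ] at hg hk
      have := cB hg
      have := cB hk
      exact inter (by omega)
    · right
      refine ⟨by omega, by omega, hQ, by omega⟩

end Pool.Agent.V117.PF
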