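import Mathlib
import Pool.Agent.V117.PFa

open scoped Pointwise

namespace Pool.Agent.V117.PF

variable {G : Type*} [Group G] [Fintype G] [DecidableEq G]

lemma one_mem_Q {T : Finset G} (hne : T.Nonempty) : (1 : G) ∈ T * T⁻¹ := by
  obtain ⟨a, ha⟩ := hne
  have := Finset.mul_mem_mul ha (Finset.inv_mem_inv ha)
  simpa using this

/-- the subgroup -/
def K (T : Finset G) (hne : T.Nonempty) (h : Clo T) : Subgroup G where
  carrier := {g | g ∈ T * T⁻¹}
  one_mem' := one_mem_Q hne
  inv_mem' := by
    intro a ha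
    have := h a ha 1 (one_mem_Q hne)
    rw [mul_one] at this; exact this
  mul_mem' := by
    intro a b ha hb
    have h1 := h a ha 1 (one_mem_Q hne)
    have := h _ h1 b hb
    rw [mul_one, inv_inv] at this; exact this

lemma mem_K {T : Finset G} {hne : T.Nonempty} {h : Clo T} {g : G} : g ∈ K T hne h ↔ g ∈ T * T⁻¹ := Iff.rfl

lemma card_K {T : Finset G} (hne : T.Nonempty) (h : Clo T) : Nat.card (K T hne h) = (T * T⁻¹).card := by
  have : ((T * T⁻¹ : Finset G) : Set G) = (K T hne h : Set G) := by
    ext g; exact Iff.rfl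
  have e : Nat.card (K T hne h) = Set.ncard ((K T hne h : Subgroup G) : Set G) := rfl
  rw [e, ← this, Set.ncard_coe_finset]

/-- three pairwise disjoint sets of size a third -/
lemma three_cover {A B C : Finset G} {m : ℕ} (hA : A.card = m) (hB : B.card = m) (hC : C.card = m)
    (hG : Fintype.card G ≤ 3 * m) (h1 : ∀ g, g ∈ A → g ∈ B → False) (h2 : ∀ g, g ∈ A → g ∈ C → False)
    (h3 : ∀ g, g ∈ B → g ∈ C → False) (g : G) : g ∈ A ∨ g ∈ B ∨ g ∈ C := by
  have e : A ∪ (B ∪ C) = Finset.univ := by
    apply Finset.eq_univ_of_card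
    apply le_antisymm (Finset.card_le_univ _)
    rw [Finset.card_union_of_disjoint, Finset.card_union_of_disjoint]
    · omega
    · rw [Finset.disjoint_left]; exact h3
    · rw [Finset.disjoint_left]; intro g hg hg2
      rcases Finset.mem_union.1 hg2 with hg2 | hg2
      · exact h1 g hg hg2
      · exact h2 g hg hg2
  have := Finset.mem_univ g
  rw [← e] at this
  simpa using this

lemma dec3 : ∀ α : ZMod 3, α ≠ 0 → α = 1 ∨ α = -1 := by decide

theorem step2 {T : Finset G} (h : TPF T) (hc : Fintype.card G ≤ 3 * T.card) (hclo : Clo T) :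
    ∃ f : G →* Multiplicative (ZMod 3), ∀ g, g ∈ T ↔ f g = Multiplicative.ofAdd 1 := by
  have hm : 0 < T.card := by
    have : 0 < Fintype.card G := Fintype.card_pos
    omega
  have hne : T.Nonempty := Finset.card_pos.1 hm
  obtain ⟨a, ha⟩ := hne
  set L := K T ⟨a, ha⟩ hclo with hL
  have hTL : ∀ t ∈ T, t * a⁻¹ ∈ L := fun t ht => Finset.mul_mem_mul ht (Finset.inv_mem_inv ha)
  have hLB : ∀ g, g ∈ L → g ∈ T * T → False := fun g h1 h2 => disjQB h h1 h2
  have haL : a ∉ L := fun h1 => hLB (a * a) (L.mul_mem h1 h1) (Finset.mul_mem_mul ha ha)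
  have hcard : T.card ≤ Nat.card L := by
    rw [hL, card_K]
    exact Finset.card_le_card_mul_right (Finset.inv_nonempty_iff.2 ⟨a, ha⟩)
  have hidx := L.card_mul_index
  rw [Nat.card_eq_fintype_card (α := G)] at hidx
  have hi0 : L.index ≠ 0 := Subgroup.index_ne_zero_of_finite
  have hi1 : L.index ≠ 1 := by
    intro h1
    rw [Subgroup.index_eq_one] at h1
    apply haL; rw [h1]; trivial
  have hi2 : L.index ≠ 2 := by
    intro h1
    exact hLB (a * a) (Subgroup.mul_self_mem_of_index_two h1 a) (Finset.mul_mem_mul ha ha)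
  have hi3 : 3 ≤ L.index := by omega
  have hcL : Nat.card L = T.card := by nlinarith
  have hidx3 : L.index = 3 := by nlinarith
  have hQc : (T * T⁻¹).card = T.card := by rw [← hcL, hL, card_K]
  -- T is a coset
  have hcoset : ∀ g, g * a⁻¹ ∈ L → g ∈ T := by
    intro g hg
    have hsub : T ⊆ (T * T⁻¹).image (· * a) := by
      intro t ht
      rw [Finset.mem_image]
      exact ⟨t * a⁻¹, hTL t ht, by simp⟩
    have heq : T = (T * T⁻¹).image (· * a) := by
      apply Finset.eq_of_subset_of_card_le hsub
      rw [Finset.card_image_of_injective _ (mul_left_injective a), hQc]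
    rw [heq, Finset.mem_image]
    exact ⟨g * a⁻¹, hg, by simp⟩
  have hT1 : ∀ k ∈ L, k * a ∈ T := fun k hk => hcoset _ (by simpa using hk)
  -- a normalises L
  have hnorm : ∀ k ∈ L, a * k * a⁻¹ ∈ L := by
    intro k hk
    by_contra hcon
    have hcov := three_cover (A := T * T⁻¹) (B := T) (C := T.image (· * k)) (m := T.card) hQc rfl
      (by rw [Finset.card_image_of_injective _ (mul_left_injective k)]) hc
      (by
        intro g h1 h2
        apply haL
        have h3 := hTL g h2
        have h4 : g ∈ L := h1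
        have h5 := L.mul_mem (L.inv_mem h3) h4
        simpa using h5)
      (by
        intro g h1 h2
        obtain ⟨t, ht, rfl⟩ := Finset.mem_image.1 h2
        have h4 : t * k ∈ L := h1
        have h5 : t ∈ L := (L.mul_mem_cancel_right hk).1 h4
        have h3 := hTL t ht
        apply haL
        have h6 := L.mul_mem (L.inv_mem h3) h5
        simpa using h6)
      (by
        intro g h1 h2
        obtain ⟨t, ht, rfl⟩ := Finset.mem_image.1 h2
        have h3 := hTL t ht
        have h4 := hTL _ h1
        apply hcon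
        have h6 := L.mul_mem (L.inv_mem h3) h4
        have e : (t * a⁻¹)⁻¹ * (t * k * a⁻¹) = a * k * a⁻¹ := by group
        rwa [e] at h6) a⁻¹
    have h1L : (1 : G) ∈ L := L.one_mem
    rcases hcov with h1 | h1 | h1
    · exact haL (by simpa using L.inv_mem (show a⁻¹ ∈ L from h1))
    · apply hLB 1 h1L
      have := Finset.mul_mem_mul h1 ha
      simpa using this
    · obtain ⟨t, ht, e⟩ := Finset.mem_image.1 h1
      apply hLB 1 h1L
      have h2 := Finset.mul_mem_mul ht (hT1 k hk)
      have e2 : t * (k * a) = 1 := by rw [← mul_assoc]; have e' : t * k = a⁻¹ := e; rw [e']; simp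
      rwa [e2] at h2
  have hcov := three_cover (A := T * T⁻¹) (B := T) (C := T.image (· * a)) (m := T.card) hQc rfl
      (by rw [Finset.card_image_of_injective _ (mul_left_injective a)]) hc
      (by
        intro g h1 h2
        apply haL
        have h3 := hTL g h2
        have h4 : g ∈ L := h1
        have h5 := L.mul_mem (L.inv_mem h3) h4
        simpa using h5)
      (by
        intro g h1 h2
        obtain ⟨t, ht, rfl⟩ := Finset.mem_image.1 h2
        exact hLB _ h1 (Finset.mul_mem_mul ht ha))
      (by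
        intro g h1 h2
        obtain ⟨t, ht, rfl⟩ := Finset.mem_image.1 h2
        have h3 := hTL t ht
        have h4 := hTL _ h1
        have h5 : t ∈ L := by simpa using h4
        apply haL
        have h6 := L.mul_mem (L.inv_mem h3) h5
        simpa using h6)
  have hN : L.Normal := by
    constructor
    intro n hn g
    have key : ∀ k ∈ L, ∀ n ∈ L, k * n * k⁻¹ ∈ L := fun k hk n hn =>
      L.mul_mem (L.mul_mem hk hn) (L.inv_mem hk)
    have key2 : ∀ t ∈ T, ∀ n ∈ L, t * n * t⁻¹ ∈ L := by
      intro t ht n hn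
      have h1 := key _ (hTL t ht) _ (hnorm n hn)
      have e : t * a⁻¹ * (a * n * a⁻¹) * (t * a⁻¹)⁻¹ = t * n * t⁻¹ := by group
      rwa [e] at h1
    rcases hcov g with h1 | h1 | h1
    · exact key g h1 n hn
    · exact key2 g h1 n hn
    · obtain ⟨t, ht, rfl⟩ := Finset.mem_image.1 h1
      have h2 := key2 t ht _ (hnorm n hn)
      have e : t * (a * n * a⁻¹) * t⁻¹ = t * a * n * (t * a)⁻¹ := by group
      rwa [e] at h2
  haveI := hN
  have hq : Nat.card (G ⧸ L) = 3 := hidx3
  have hz : Nat.card (Multiplicative (ZMod 3)) = 3 := by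
    rw [Nat.card_eq_fintype_card]; rfl
  haveI : Fact (Nat.Prime 3) := ⟨by norm_num⟩
  obtain ⟨e⟩ : Nonempty (G ⧸ L ≃* Multiplicative (ZMod 3)) := ⟨mulEquivOfPrimeCardEq (p := 3) hq hz⟩
  let f : G →* Multiplicative (ZMod 3) := e.toMonoidHom.comp (QuotientGroup.mk' L)
  have hf : ∀ g h, f g = f h ↔ g * h⁻¹ ∈ L := by
    intro g h'
    have h1 : f g = f h' ↔ f (g * h'⁻¹) = 1 := by
      rw [map_mul, map_inv, mul_inv_eq_one]
    rw [h1]
    have h2 : f (g * h'⁻¹) = e (QuotientGroup.mk (g * h'⁻¹)) := rfl
    rw [h2, EmbeddingLike.map_eq_one_iff, QuotientGroup.eq_one_iff]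
  have hTf : ∀ g, g ∈ T ↔ f g = f a := by
    intro g
    rw [hf]
    exact ⟨hTL g, hcoset g⟩
  have ha0 : f a ≠ 1 := by
    intro h1
    rw [← map_one f, hf] at h1
    exact haL (by simpa using h1)
  have hdec := dec3
  have h4 : Multiplicative.toAdd (f a) ≠ 0 := fun h => ha0 (by
    apply Multiplicative.toAdd.injective; simpa using h)
  rcases hdec _ h4 with h5 | h5
  · refine ⟨f, fun g => ?_⟩
    rw [hTf g]
    have : f a = Multiplicative.ofAdd 1 := by
      apply Multiplicative.toAdd.injective; simpa using h5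
    rw [this]
  · refine ⟨f⁻¹, fun g => ?_⟩
    rw [hTf g]
    have : f a = (Multiplicative.ofAdd 1)⁻¹ := by
      apply Multiplicative.toAdd.injective; simpa using h5
    rw [this, MonoidHom.inv_apply, inv_eq_iff_eq_inv]

end Pool.Agent.V117.PF
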