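import Mathlib
import Pool.Agent.V117.PFb

set_option linter.unusedSectionVars false

open scoped Pointwise

namespace Pool.Agent.V117.PF

variable {G : Type*} [Group G] [Fintype G] [DecidableEq G]

/-- left stabiliser of `D` -/
def St (D : Finset G) : Subgroup G where
  carrier := {g | ∀ x, g * x ∈ D ↔ x ∈ D}
  one_mem' := by intro x; simp
  mul_mem' := by
    intro a b ha hb x
    rw [mul_assoc, ha, hb]
  inv_mem' := by
    intro a ha x
    rw [← ha (a⁻¹ * x)]; simp

lemma mem_St {D : Finset G} {g : G} : g ∈ St D ↔ ∀ x, g * x ∈ D ↔ x ∈ D := Iff.rfl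

lemma sum_c (T : Finset G) : ∑ g : G, c T g = T.card * T.card := by
  have h1 : ∀ g : G, c T g = ∑ x ∈ T, if g⁻¹ * x ∈ T then 1 else 0 := by
    intro g
    unfold c
    rw [← Finset.card_filter]
    congr 1
    ext x
    simp only [Finset.mem_inter, Finset.mem_filter]
    rw [← Finset.inv_smul_mem_iff]
    simp
  simp_rw [h1]
  rw [Finset.sum_comm]
  have h2 : ∀ x ∈ T, (∑ g : G, if g⁻¹ * x ∈ T then 1 else 0) = T.card := by
    intro x _
    rw [← Finset.card_filter]
    have : (Finset.univ.filter fun g : G => g⁻¹ * x ∈ T) = T.image (fun t => x * t⁻¹) := by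
      ext g
      simp only [Finset.mem_filter, Finset.mem_univ, true_and, Finset.mem_image]
      constructor
      · intro h; exact ⟨_, h, by simp⟩
      · rintro ⟨t, ht, rfl⟩; simpa using ht
    rw [this, Finset.card_image_of_injective]
    intro s t hst
    simpa using hst
  rw [Finset.sum_congr rfl h2]
  simp

/-- the setting of the equality case -/
structure Eq' (T D : Finset G) : Prop where
  tpf : TPF T
  hP : T⁻¹ * T = D
  hQ : T * T⁻¹ = D
  cD : 2 * D.card = 3 * T.card
  cB : 2 * (T * T).card = 3 * T.card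
  cG : Fintype.card G = 3 * T.card

lemma Eq'.inv {T D : Finset G} (h : Eq' T D) : Eq' T⁻¹ D where
  tpf := h.tpf.inv
  hP := by rw [inv_inv]; exact h.hQ
  hQ := by rw [inv_inv]; exact h.hP
  cD := by rw [Finset.card_inv]; exact h.cD
  cB := by rw [← mul_inv_rev, Finset.card_inv, Finset.card_inv]; exact h.cB
  cG := by rw [Finset.card_inv]; exact h.cG

lemma Eq'.c_ge {T D : Finset G} (h : Eq' T D) {g : G} (hg : g ∈ D) : T.card ≤ 2 * c T g := by
  rw [← h.hP] at hg
  have := PF.cB hg
  have := h.cB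
  omega

lemma Eq'.c_zero {T D : Finset G} (h : Eq' T D) {g : G} (hg : g ∉ D) : c T g = 0 := by
  by_contra hne
  apply hg
  rw [← h.hQ]
  exact mem_of_c (Nat.pos_of_ne_zero hne)

lemma Eq'.pos {T D : Finset G} (h : Eq' T D) : 0 < T.card := by
  have : 0 < Fintype.card G := Fintype.card_pos
  have := h.cG
  omega

lemma Eq'.one {T D : Finset G} (h : Eq' T D) : (1 : G) ∈ D := by
  rw [← h.hQ]; exact one_mem_Q (Finset.card_pos.1 h.pos)

lemma Eq'.symm {T D : Finset G} (h : Eq' T D) {g : G} (hg : g ∈ D) : g⁻¹ ∈ D := by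
  rw [← h.hQ] at hg ⊢
  obtain ⟨a, ha, b, hb, rfl⟩ := Finset.mem_mul.1 hg
  rw [Finset.mem_inv'] at hb
  rw [mul_inv_rev]
  exact Finset.mul_mem_mul hb (Finset.inv_mem_inv ha)

lemma Eq'.one_notin {T D : Finset G} (h : Eq' T D) : (1 : G) ∉ T * T := by
  intro h1
  apply disjQB h.tpf _ h1
  rw [h.hQ]; exact h.one

lemma Eq'.St_sub {T D : Finset G} (h : Eq' T D) {g : G} (hg : g ∈ St D) : g ∈ D := by
  have := (hg 1).2 h.one
  simpa using this

/-- `D` is also right stable -/
lemma Eq'.right {T D : Finset G} (h : Eq' T D) {g x : G} (hg : g ∈ St D) (hx : x ∈ D) : x * g ∈ D := by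
  have h1 := (((St D).inv_mem hg) x⁻¹).2 (h.symm hx)
  have h2 := h.symm h1
  simpa using h2

lemma Eq'.big_mem {T D : Finset G} (h : Eq' T D) {g : G} (hg : g ∈ D) (hb : T.card < 2 * c T g) :
    g ∈ St D := by
  have h1 : g⁻¹ • D ⊆ D := by
    intro y hy
    obtain ⟨x, hx, rfl⟩ := Finset.mem_smul_finset.1 hy
    have := h.c_ge hx
    rw [smul_eq_mul, ← h.hQ]
    exact inter (by omega)
  have h2 : g⁻¹ • D = D := by
    apply Finset.eq_of_subset_of_card_le h1
    rw [Finset.card_smul_finset]
  have h3 : g⁻¹ ∈ St D := by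
    intro x
    constructor
    · intro h4
      rw [← h2] at h4
      rw [← smul_eq_mul, Finset.smul_mem_smul_finset_iff] at h4
      exact h4
    · intro h4
      rw [← h2, ← smul_eq_mul, Finset.smul_mem_smul_finset_iff]
      exact h4
  simpa using (St D).inv_mem h3

/-- the elements with many representations -/
def D1 (T D : Finset G) : Finset G := D.filter (fun g => T.card < 2 * c T g)

lemma Eq'.sumD {T D : Finset G} (h : Eq' T D) : ∑ g ∈ D, c T g = T.card * T.card := by
  rw [← sum_c T]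
  apply Finset.sum_subset (Finset.subset_univ _)
  intro g _ hg
  exact h.c_zero hg

lemma c_le (T : Finset G) (g : G) : c T g ≤ T.card :=
  Finset.card_le_card Finset.inter_subset_left

lemma Eq'.term_le {T D : Finset G} (_h : Eq' T D) (g : G) :
    2 * c T g ≤ T.card + if T.card < 2 * c T g then T.card else 0 := by
  split_ifs with h1
  · have := c_le T g; omega
  · omega

lemma Eq'.rhs {T D : Finset G} (_h : Eq' T D) :
    ∑ g ∈ D, (T.card + if T.card < 2 * c T g then T.card else 0) = (D.card + (D1 T D).card) * T.card := by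
  rw [Finset.sum_add_distrib, ← Finset.sum_filter, Finset.sum_const, Finset.sum_const]
  unfold D1
  simp [add_mul]

lemma Eq'.D1_card {T D : Finset G} (h : Eq' T D) : T.card ≤ 2 * (D1 T D).card := by
  have h1 : ∑ g ∈ D, 2 * c T g ≤ ∑ g ∈ D, (T.card + if T.card < 2 * c T g then T.card else 0) :=
    Finset.sum_le_sum fun g _ => h.term_le g
  rw [h.rhs, ← Finset.mul_sum, h.sumD, ← mul_assoc] at h1
  have h2 := Nat.le_of_mul_le_mul_right h1 h.pos
  have := h.cD
  omega

lemma Eq'.D1_full {T D : Finset G} (h : Eq' T D) (hle : 2 * (D1 T D).card ≤ T.card) {g : G}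
    (hg : g ∈ D1 T D) : c T g = T.card := by
  by_contra hne
  have hlt : c T g < T.card := lt_of_le_of_ne (c_le T g) hne
  have hg2 := Finset.mem_filter.1 hg
  have h1 : ∑ g ∈ D, 2 * c T g < ∑ g ∈ D, (T.card + if T.card < 2 * c T g then T.card else 0) := by
    apply Finset.sum_lt_sum (fun g _ => h.term_le g)
    refine ⟨g, hg2.1, ?_⟩
    rw [if_pos hg2.2]; omega
  rw [h.rhs, ← Finset.mul_sum, h.sumD, ← mul_assoc] at h1
  have h2 := Nat.lt_of_mul_lt_mul_right h1
  have := h.cD
  omega

/-- the stabiliser as a finset -/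
noncomputable def Sf (D : Finset G) : Finset G := by
  classical exact Finset.univ.filter (fun g => g ∈ St D)

lemma mem_Sf {D : Finset G} {g : G} : g ∈ Sf D ↔ g ∈ St D := by
  unfold Sf; simp

lemma Eq'.D1_sub {T D : Finset G} (h : Eq' T D) : D1 T D ⊆ Sf D := by
  intro g hg
  have hg2 := Finset.mem_filter.1 hg
  rw [mem_Sf]
  exact h.big_mem hg2.1 hg2.2

end Pool.Agent.V117.PF
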