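import Mathlib
import Pool.Agent.V117.PFc

set_option linter.unusedSectionVars false

open scoped Pointwise

namespace Pool.Agent.V117.PF

variable {G : Type*} [Group G] [Fintype G] [DecidableEq G]

lemma Eq'.clo_one {T D : Finset G} (h : Eq' T D) (hall : ∀ d ∈ D, d ∈ St D) : Clo T := by
  intro g hg k hk
  rw [h.hQ] at *
  exact (((St D).inv_mem (hall g hg)) k).2 hk

lemma Eq'.clo_two {T D : Finset G} (h : Eq' T D) {x : G} (hx : x ∈ D) (hxS : x ∉ St D)
    (hall : ∀ d ∈ D, d ∈ St D ∨ d * x⁻¹ ∈ St D) : Clo T := by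
  intro g hg k hk
  rw [h.hQ] at *
  have hxx : x * x ∈ St D := by
    rcases hall _ (h.symm hx) with h1 | h1
    · exact absurd (by simpa using (St D).inv_mem h1) hxS
    · simpa using (St D).inv_mem h1
  have hg' := h.symm hg
  rcases hall _ hg' with h1 | h1
  · exact (h1 k).2 hk
  · have e : g⁻¹ * k = (g⁻¹ * x⁻¹) * (x * k) := by group
    rw [e, h1 (x * k)]
    rcases hall _ hk with h2 | h2
    · exact h.right h2 hx
    · have h3 : x * (k * x⁻¹) ∈ D := h.right h2 hx
      rcases hall _ h3 with h4 | h4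
      · exact absurd (((St D).mul_mem_cancel_right h2).1 h4) hxS
      · have h5 := (St D).mul_mem h4 hxx
        have e2 : x * (k * x⁻¹) * x⁻¹ * (x * x) = x * k := by group
        rw [e2] at h5
        exact h.St_sub h5

lemma one_mem_Sf (D : Finset G) : (1 : G) ∈ Sf D := mem_Sf.2 (St D).one_mem

lemma Sf_pos (D : Finset G) : 0 < (Sf D).card := Finset.card_pos.2 ⟨1, one_mem_Sf D⟩

lemma Eq'.three {T D : Finset G} (h : Eq' T D) {x y : G} (hx : x ∈ D) (hxS : x ∉ St D)
    (hy : y ∈ D) (hyS : y ∉ St D) (hyx : y * x⁻¹ ∉ St D) : 3 * (Sf D).card ≤ D.card := by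
  have hsub : Sf D ∪ ((Sf D).image (· * x) ∪ (Sf D).image (· * y)) ⊆ D := by
    intro g hg
    simp only [Finset.mem_union, Finset.mem_image] at hg
    rcases hg with hg | ⟨s, hs, rfl⟩ | ⟨s, hs, rfl⟩
    · exact h.St_sub (mem_Sf.1 hg)
    · exact (mem_Sf.1 hs x).2 hx
    · exact (mem_Sf.1 hs y).2 hy
  have := Finset.card_le_card hsub
  rw [Finset.card_union_of_disjoint, Finset.card_union_of_disjoint,
    Finset.card_image_of_injective _ (mul_left_injective x),
    Finset.card_image_of_injective _ (mul_left_injective y)] at this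
  · omega
  · rw [Finset.disjoint_left]
    intro g h1 h2
    obtain ⟨s, hs, rfl⟩ := Finset.mem_image.1 h1
    obtain ⟨t, ht, e⟩ := Finset.mem_image.1 h2
    rw [mem_Sf] at hs ht
    apply hyx
    have e2 : y * x⁻¹ = t⁻¹ * s := by
      have : y = t⁻¹ * (s * x) := by rw [← e]; group
      rw [this]; group
    rw [e2]
    exact (St D).mul_mem ((St D).inv_mem ht) hs
  · rw [Finset.disjoint_left]
    intro g h1 h2
    rw [mem_Sf] at h1
    rcases Finset.mem_union.1 h2 with h2 | h2
    · obtain ⟨s, hs, rfl⟩ := Finset.mem_image.1 h2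
      rw [mem_Sf] at hs
      exact hxS (((St D).mul_mem_cancel_left hs).1 h1)
    · obtain ⟨s, hs, rfl⟩ := Finset.mem_image.1 h2
      rw [mem_Sf] at hs
      exact hyS (((St D).mul_mem_cancel_left hs).1 h1)

lemma Eq'.three_le {T D : Finset G} (h : Eq' T D) (hn : ¬ Clo T) : 3 * (Sf D).card ≤ D.card := by
  by_cases h1 : ∀ d ∈ D, d ∈ St D
  · exact absurd (h.clo_one h1) hn
  push Not at h1
  obtain ⟨x, hx, hxS⟩ := h1
  by_cases h2 : ∀ d ∈ D, d ∈ St D ∨ d * x⁻¹ ∈ St D
  · exact absurd (h.clo_two hx hxS h2) hn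
  push Not at h2
  obtain ⟨y, hy, hyS, hyx⟩ := h2
  exact h.three hx hxS hy hyS hyx

structure Eq3 (T D : Finset G) : Prop extends Eq' T D where
  cS : T.card = 2 * (Sf D).card

lemma Eq'.eq3 {T D : Finset G} (h : Eq' T D) (hn : ¬ Clo T) : Eq3 T D where
  toEq' := h
  cS := by
    have h1 := h.three_le hn
    have h2 := h.D1_card
    have h3 := Finset.card_le_card h.D1_sub
    have h4 := h.cD
    omega

lemma Eq3.inv {T D : Finset G} (h : Eq3 T D) : Eq3 T⁻¹ D where
  toEq' := h.toEq'.inv
  cS := by rw [Finset.card_inv]; exact h.cS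

lemma Eq3.left {T D : Finset G} (h : Eq3 T D) {g t : G} (hg : g ∈ St D) (ht : t ∈ T) : g * t ∈ T := by
  have h2 := h.D1_card
  have h3 := Finset.card_le_card h.D1_sub
  have h4 := h.cS
  have h5 : D1 T D = Sf D := Finset.eq_of_subset_of_card_le h.D1_sub (by omega)
  have h6 : g ∈ D1 T D := by rw [h5, mem_Sf]; exact hg
  have h7 := h.D1_full (by omega) h6
  unfold c at h7
  have h8 : T ∩ g • T = g • T := by
    apply Finset.eq_of_subset_of_card_le Finset.inter_subset_right
    rw [Finset.card_smul_finset, h7]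
  have h9 : g * t ∈ g • T := by
    rw [← smul_eq_mul, Finset.smul_mem_smul_finset_iff]; exact ht
  rw [← h8] at h9
  exact (Finset.mem_inter.1 h9).1

lemma Eq3.right' {T D : Finset G} (h : Eq3 T D) {g t : G} (hg : g ∈ St D) (ht : t ∈ T) : t * g ∈ T := by
  have h1 := h.inv.left ((St D).inv_mem hg) (Finset.inv_mem_inv ht)
  rw [Finset.mem_inv'] at h1
  simpa using h1

lemma Eq3.norm1 {T D : Finset G} (h : Eq3 T D) {a n : G} (ha : a ∈ T) (hn : n ∈ St D) :
    a⁻¹ * n * a ∈ St D := by
  by_contra hcon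
  have hcS := h.cS
  have hcD := h.cD
  have hcG := h.cG
  have hSp := Sf_pos D
  have hsub : (Sf D).image (fun s => a * s) ∪ (Sf D).image (fun s => n * a * s) ⊆ T := by
    intro g hg
    simp only [Finset.mem_union, Finset.mem_image] at hg
    rcases hg with ⟨s, hs, rfl⟩ | ⟨s, hs, rfl⟩
    · exact h.right' (mem_Sf.1 hs) ha
    · exact h.right' (mem_Sf.1 hs) (h.left hn ha)
  have heq : (Sf D).image (fun s => a * s) ∪ (Sf D).image (fun s => n * a * s) = T := by
    apply Finset.eq_of_subset_of_card_le hsub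
    rw [Finset.card_union_of_disjoint, Finset.card_image_of_injective _ (mul_right_injective a),
      Finset.card_image_of_injective _ (mul_right_injective (n * a))]
    · omega
    · rw [Finset.disjoint_left]
      intro g h1 h2
      obtain ⟨s, hs, rfl⟩ := Finset.mem_image.1 h1
      obtain ⟨t, ht, e⟩ := Finset.mem_image.1 h2
      rw [mem_Sf] at hs ht
      apply hcon
      have e2 : a⁻¹ * n * a = s * t⁻¹ := by
        have : n * a * t = a * s := e
        calc a⁻¹ * n * a = a⁻¹ * (n * a * t) * t⁻¹ := by group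
          _ = s * t⁻¹ := by rw [this]; group
      rw [e2]
      exact (St D).mul_mem hs ((St D).inv_mem ht)
  have hform : ∀ t ∈ T, ∃ p ∈ St D, ∃ q ∈ St D, t = p * a * q := by
    intro t ht
    rw [← heq] at ht
    simp only [Finset.mem_union, Finset.mem_image] at ht
    rcases ht with ⟨s, hs, rfl⟩ | ⟨s, hs, rfl⟩
    · exact ⟨1, (St D).one_mem, s, mem_Sf.1 hs, by simp⟩
    · exact ⟨n, hn, s, mem_Sf.1 hs, rfl⟩
  have hTT : ∀ x ∈ T, x ∈ T⁻¹ → False := by
    intro x h1 h2
    rw [Finset.mem_inv'] at h2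
    apply h.one_notin
    have := Finset.mul_mem_mul h1 h2
    simpa using this
  have hdisj : Disjoint T T⁻¹ := by
    rw [Finset.disjoint_left]; exact hTT
  have hTD : ∀ t ∈ T, t ∈ D → False := by
    intro t ht htD
    obtain ⟨p, hp, q, hq, e⟩ := hform t ht
    have haD : a ∈ D := by
      have e2 : a = p⁻¹ * t * q⁻¹ := by rw [e]; group
      rw [e2]
      exact h.right ((St D).inv_mem hq) ((((St D).inv_mem hp) t).2 htD)
    have hT : T ⊆ D := by
      intro s hs
      obtain ⟨p, hp, q, hq, rfl⟩ := hform s hs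
      exact h.right hq ((hp a).2 haD)
    have hT2 : T⁻¹ ⊆ D := by
      intro s hs
      rw [Finset.mem_inv'] at hs
      simpa using h.symm (hT hs)
    have := Finset.card_le_card (Finset.union_subset hT hT2)
    rw [Finset.card_union_of_disjoint hdisj, Finset.card_inv] at this
    omega
  have hfin : (T ∪ T⁻¹ ∪ D).card ≤ Fintype.card G := Finset.card_le_univ _
  rw [Finset.card_union_of_disjoint, Finset.card_union_of_disjoint hdisj, Finset.card_inv] at hfin
  · omega
  · rw [Finset.disjoint_left]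
    intro g h1 h2
    rcases Finset.mem_union.1 h1 with h1 | h1
    · exact hTD g h1 h2
    · rw [Finset.mem_inv'] at h1
      exact hTD _ h1 (h.symm h2)

lemma Eq3.norm2 {T D : Finset G} (h : Eq3 T D) {a n : G} (ha : a ∈ T) (hn : n ∈ St D) :
    a * n * a⁻¹ ∈ St D := by
  have := h.inv.norm1 (Finset.inv_mem_inv ha) hn
  rwa [inv_inv] at this

lemma Eq3.cover {T D : Finset G} (h : Eq3 T D) (g : G) : g ∈ D ∨ g ∈ T * T := by
  have hcD := h.cD
  have hcG := h.cG
  have hcB := h.cB
  have e : D ∪ T * T = Finset.univ := by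
    apply Finset.eq_univ_of_card
    rw [Finset.card_union_of_disjoint]
    · omega
    · rw [Finset.disjoint_left]
      intro x h1 h2
      rw [← h.hQ] at h1
      exact disjQB h.tpf h1 h2
  have := Finset.mem_univ g
  rw [← e] at this
  simpa using this

lemma Eq3.normal {T D : Finset G} (h : Eq3 T D) : (St D).Normal := by
  constructor
  intro n hn g
  rcases h.cover g with h1 | h1
  · rw [← h.hP] at h1
    obtain ⟨x, hx, w, hw, rfl⟩ := Finset.mem_mul.1 h1
    rw [Finset.mem_inv'] at hx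
    have h2 := h.norm1 hx (h.norm2 hw hn)
    have e : x⁻¹⁻¹ * (w * n * w⁻¹) * x⁻¹ = x * w * n * (x * w)⁻¹ := by group
    rwa [e] at h2
  · obtain ⟨x, hx, w, hw, rfl⟩ := Finset.mem_mul.1 h1
    have h2 := h.norm2 hx (h.norm2 hw hn)
    have e : x * (w * n * w⁻¹) * x⁻¹ = x * w * n * (x * w)⁻¹ := by group
    rwa [e] at h2

end Pool.Agent.V117.PF
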