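import Mathlib
import Pool.Agent.V117.PFd

set_option linter.unusedSectionVars false

open scoped Pointwise

namespace Pool.Agent.V117.PF

variable {G : Type*} [Group G] [Fintype G] [DecidableEq G]

lemma dec6 : ∀ α : ZMod 6, α + α + α ≠ α → α + α + α ≠ α + 1 → α + α + (α + 1) ≠ α →
    α + (α + 1) + (α + 1) ≠ α → (α + 1) + (α + 1) + (α + 1) ≠ α →
    α + (α + 1) + (α + 1) ≠ α + 1 → (α + 1) + (α + 1) + (α + 1) ≠ α + 1 → α = 1 ∨ α = 4 := by decide

lemma dec6b : ∀ β : ZMod 6, (β = 4 ∨ β = 4 + 1) ↔ (-β = 1 ∨ -β = 2) := by decide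

lemma dec6c : ∀ β : ZMod 6, (β = 1 ∨ β = 1 + 1) ↔ (β = 1 ∨ β = 2) := by decide

lemma card_St (D : Finset G) : Nat.card (St D) = (Sf D).card := by
  have : ((Sf D : Finset G) : Set G) = (St D : Set G) := by
    ext g; exact mem_Sf
  have e : Nat.card (St D) = Set.ncard ((St D : Subgroup G) : Set G) := rfl
  rw [e, ← this, Set.ncard_coe_finset]

theorem step3 {T D : Finset G} (h : Eq3 T D) (hnc : ¬ Clo T) :
    ∃ f : G →* Multiplicative (ZMod 6), ∀ g, g ∈ T ↔ (Multiplicative.toAdd (f g) = 1 ∨
      Multiplicative.toAdd (f g) = 2) := by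
  have hN := h.normal
  set N := St D with hNdef
  have hcS := h.cS
  have hcD := h.cD
  have hcG := h.cG
  have hSp := Sf_pos D
  have hcN : Nat.card N = (Sf D).card := card_St D
  have hidx := N.card_mul_index
  rw [Nat.card_eq_fintype_card (α := G)] at hidx
  have hi6 : N.index = 6 := by
    rw [hcN, hcG, hcS] at hidx
    have : (Sf D).card * N.index = (Sf D).card * 6 := by rw [hidx]; ring
    exact Nat.eq_of_mul_eq_mul_left hSp this
  have hq6 : Nat.card (G ⧸ N) = 6 := hi6
  obtain ⟨a, ha⟩ := Finset.card_pos.1 h.pos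
  obtain ⟨b, hb, hab⟩ : ∃ b ∈ T, a⁻¹ * b ∉ N := by
    by_contra hcon
    push Not at hcon
    have hsub : T ⊆ (Sf D).image (fun s => a * s) := by
      intro t ht
      rw [Finset.mem_image]
      exact ⟨a⁻¹ * t, mem_Sf.2 (hcon t ht), by simp⟩
    have := Finset.card_le_card hsub
    rw [Finset.card_image_of_injective _ (mul_right_injective a)] at this
    omega
  have hsub : (Sf D).image (fun s => a * s) ∪ (Sf D).image (fun s => b * s) ⊆ T := by
    intro g hg
    simp only [Finset.mem_union, Finset.mem_image] at hg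
    rcases hg with ⟨s, hs, rfl⟩ | ⟨s, hs, rfl⟩
    · exact h.right' (mem_Sf.1 hs) ha
    · exact h.right' (mem_Sf.1 hs) hb
  have heq : (Sf D).image (fun s => a * s) ∪ (Sf D).image (fun s => b * s) = T := by
    apply Finset.eq_of_subset_of_card_le hsub
    rw [Finset.card_union_of_disjoint, Finset.card_image_of_injective _ (mul_right_injective a),
      Finset.card_image_of_injective _ (mul_right_injective b)]
    · omega
    · rw [Finset.disjoint_left]
      intro g h1 h2
      obtain ⟨s, hs, rfl⟩ := Finset.mem_image.1 h1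
      obtain ⟨t, ht, e⟩ := Finset.mem_image.1 h2
      rw [mem_Sf] at hs ht
      apply hab
      have e2 : a⁻¹ * b = s * t⁻¹ := by
        have : b * t = a * s := e
        calc a⁻¹ * b = a⁻¹ * (b * t) * t⁻¹ := by group
          _ = s * t⁻¹ := by rw [this]; group
      rw [e2]
      exact N.mul_mem hs (N.inv_mem ht)
  have hTiff : ∀ g, g ∈ T ↔ (a⁻¹ * g ∈ N ∨ b⁻¹ * g ∈ N) := by
    intro g
    constructor
    · intro hg
      rw [← heq] at hg
      simp only [Finset.mem_union, Finset.mem_image] at hg
      rcases hg with ⟨s, hs, rfl⟩ | ⟨s, hs, rfl⟩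
      · left; simpa using mem_Sf.1 hs
      · right; simpa using mem_Sf.1 hs
    · rintro (h1 | h1)
      · have := h.right' h1 ha; simpa using this
      · have := h.right' h1 hb; simpa using this
  let f0 : G →* G ⧸ N := QuotientGroup.mk' N
  have hf0 : ∀ g k, f0 g = f0 k ↔ g⁻¹ * k ∈ N := fun g k => QuotientGroup.eq
  have hf0s : Function.Surjective f0 := QuotientGroup.mk'_surjective N
  have hT0 : ∀ t ∈ T, f0 t = f0 a ∨ f0 t = f0 b := by
    intro t ht
    rcases (hTiff t).1 ht with h1 | h1
    · left; exact ((hf0 a t).2 h1).symm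
    · right; exact ((hf0 b t).2 h1).symm
  set u := f0 (a⁻¹ * b) with hu
  have hDz : ∀ d ∈ D, f0 d ∈ Subgroup.zpowers u := by
    intro d hd
    rw [← h.hP] at hd
    obtain ⟨s, hs, t, ht, rfl⟩ := Finset.mem_mul.1 hd
    rw [Finset.mem_inv'] at hs
    have e1 : f0 s = (f0 s⁻¹)⁻¹ := by simp
    rw [map_mul, e1]
    have hu1 : u ∈ Subgroup.zpowers u := Subgroup.mem_zpowers u
    rcases hT0 _ hs with h1 | h1 <;> rcases hT0 _ ht with h2 | h2 <;> rw [h1, h2]
    · simpa using (Subgroup.zpowers u).one_mem
    · simpa [hu] using hu1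
    · have := (Subgroup.zpowers u).inv_mem hu1
      simpa [hu] using this
    · simpa using (Subgroup.zpowers u).one_mem
  let S : Subgroup G := (Subgroup.zpowers u).comap f0
  have hSidx : S.index = (Subgroup.zpowers u).index := Subgroup.index_comap_of_surjective _ hf0s
  have hzc := (Subgroup.zpowers u).card_mul_index
  rw [Nat.card_zpowers, hq6, ← hSidx] at hzc
  have hSc := S.card_mul_index
  rw [Nat.card_eq_fintype_card (α := G)] at hSc
  have hDS : (D : Set G) ⊆ (S : Set G) := fun d hd => hDz d hd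
  have hDScard : D.card ≤ Nat.card S := by
    have e : Nat.card S = Set.ncard (S : Set G) := rfl
    rw [e, ← Set.ncard_coe_finset]
    exact Set.ncard_le_ncard hDS
  have hk6 : orderOf u ∣ 6 := ⟨_, hzc.symm⟩
  have hk6' : orderOf u ≤ 6 := Nat.le_of_dvd (by norm_num) hk6
  have hkpos : 0 < orderOf u := Nat.pos_of_ne_zero (fun h0 => by rw [h0] at hzc; omega)
  have hord : orderOf u = 6 := by
    have hcases : orderOf u = 1 ∨ orderOf u = 2 ∨ orderOf u = 3 ∨ orderOf u = 6 := by
      interval_cases hh : orderOf u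
      · simp
      · simp
      · simp
      · exact absurd hk6 (by decide)
      · exact absurd hk6 (by decide)
      · simp
    rcases hcases with h1 | h1 | h1 | h1
    · exfalso
      rw [h1] at hzc
      have h2 : S.index = 6 := by omega
      rw [h2] at hSc
      omega
    · exfalso
      rw [h1] at hzc
      have h2 : S.index = 3 := by omega
      rw [h2] at hSc
      omega
    · exfalso
      rw [h1] at hzc
      have h2 : S.index = 2 := by omega
      rw [h2] at hSc
      have h3 : Nat.card S = D.card := by omega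
      have h4 : (D : Set G) = (S : Set G) := by
        apply Set.eq_of_subset_of_ncard_le hDS
        have e : Nat.card S = Set.ncard (S : Set G) := rfl
        rw [← e, h3, Set.ncard_coe_finset]
      apply hnc
      intro g hg k hk
      rw [h.hQ] at *
      have hg' : g ∈ S := by
        have : g ∈ (D : Set G) := hg
        rw [h4] at this; exact this
      have hk' : k ∈ S := by
        have : k ∈ (D : Set G) := hk
        rw [h4] at this; exact this
      have h5 : g⁻¹ * k ∈ (S : Set G) := S.mul_mem (S.inv_mem hg') hk'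
      rw [← h4] at h5
      exact h5
    · exact h1
  have hgen : ∀ x, x ∈ Subgroup.zpowers u := by
    have h1 : Subgroup.zpowers u = ⊤ := by
      apply Subgroup.eq_top_of_card_eq
      rw [Nat.card_zpowers, hord, hq6]
    intro x; rw [h1]; trivial
  let e : Multiplicative (ZMod 6) ≃* G ⧸ N := zmodMulEquivOfGenerator hgen hq6
  let f : G →* Multiplicative (ZMod 6) := e.symm.toMonoidHom.comp f0
  have hfu : f (a⁻¹ * b) = Multiplicative.ofAdd 1 :=
    zmodMulEquivOfGenerator_symm_apply_generator hgen hq6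
  have hff : ∀ g k, f g = f k ↔ g⁻¹ * k ∈ N := by
    intro g k
    rw [← hf0]
    exact e.symm.injective.eq_iff
  let F : G → ZMod 6 := fun g => Multiplicative.toAdd (f g)
  have hFmul : ∀ x y, F (x * y) = F x + F y := by
    intro x y
    show Multiplicative.toAdd (f (x * y)) = _
    rw [map_mul, toAdd_mul]
  have hFb : F b = F a + 1 := by
    have h1 : F (a⁻¹ * b) = 1 := by
      show Multiplicative.toAdd (f (a⁻¹ * b)) = 1
      rw [hfu]; rfl
    have h2 : F b = F (a * (a⁻¹ * b)) := by congr 1; group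
    rw [h2, hFmul, h1]
  have hTF : ∀ g, g ∈ T ↔ (F g = F a ∨ F g = F a + 1) := by
    intro g
    rw [hTiff g, ← hff a g, ← hff b g, ← hFb]
    constructor
    · rintro (h1 | h1)
      · left; show Multiplicative.toAdd (f g) = Multiplicative.toAdd (f a); rw [h1]
      · right; show Multiplicative.toAdd (f g) = Multiplicative.toAdd (f b); rw [h1]
    · rintro (h1 | h1)
      · left; exact (Multiplicative.toAdd.injective h1).symm
      · right; exact (Multiplicative.toAdd.injective h1).symm
  have hpf : ∀ x ∈ T, ∀ y ∈ T, ∀ z ∈ T, F x + F y + F z ≠ F a ∧ F x + F y + F z ≠ F a + 1 := by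
    intro x hx y hy z hz
    have h1 := h.tpf x hx y hy z hz
    rw [hTF, hFmul, hFmul] at h1
    push Not at h1
    exact h1
  have h1 := hpf a ha a ha a ha
  have h2 := hpf a ha a ha b hb
  have h3 := hpf a ha b hb b hb
  have h4 := hpf b hb b hb b hb
  rw [hFb] at h2 h3 h4
  rcases dec6 (F a) h1.1 h1.2 h2.1 h3.1 h4.1 h3.2 h4.2 with h5 | h5
  · refine ⟨f, fun g => ?_⟩
    rw [hTF g, h5]
    exact dec6c (F g)
  · refine ⟨f⁻¹, fun g => ?_⟩
    rw [hTF g, h5]
    have e3 : Multiplicative.toAdd ((f⁻¹) g) = - F g := by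
      rw [MonoidHom.inv_apply, toAdd_inv]
    rw [e3]
    exact dec6b (F g)

/-- classification of the largest 3-product-free subsets of a finite group -/
theorem main {T : Finset G} (h : TPF T) (hc : Fintype.card G ≤ 3 * T.card) :
    (∃ f : G →* Multiplicative (ZMod 3), ∀ g, g ∈ T ↔ Multiplicative.toAdd (f g) = 1) ∨
    (∃ f : G →* Multiplicative (ZMod 6), ∀ g, g ∈ T ↔ (Multiplicative.toAdd (f g) = 1 ∨
      Multiplicative.toAdd (f g) = 2)) := by
  by_cases hclo : Clo T
  · left
    obtain ⟨f, hf⟩ := step2 h hc hclo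
    refine ⟨f, fun g => ?_⟩
    rw [hf g]
    constructor
    · intro h1; rw [h1]; rfl
    · intro h1; exact Multiplicative.toAdd.injective h1
  · right
    rcases clo_or h hc with h1 | ⟨h1, h2, h3, h4⟩
    · exact absurd h1 hclo
    · have hE : Eq' T (T⁻¹ * T) := ⟨h, rfl, h3.symm, h1, h2, h4⟩
      exact step3 (hE.eq3 hclo) hclo

end Pool.Agent.V117.PF
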