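import Mathlib
import Pool.Agent.V117.PFe

set_option linter.unusedSectionVars false

namespace Pool.Agent.V117.PF

/-- the value of a word in a group -/
def val {A G : Type} [Monoid G] (φ : A → G) (w : List A) : G := (w.map φ).prod

@[simp] lemma val_nil {A G : Type} [Monoid G] (φ : A → G) : val φ [] = 1 := rfl
@[simp] lemma val_cons {A G : Type} [Monoid G] (φ : A → G) (x : A) (w : List A) :
    val φ (x :: w) = φ x * val φ w := by simp [val]
lemma val_append {A G : Type} [Monoid G] (φ : A → G) (v w : List A) :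
    val φ (v ++ w) = val φ v * val φ w := by simp [val]

section words
variable {A : Type} [Fintype A] [DecidableEq A]

/-- words of length `n` -/
def words (A : Type) [Fintype A] [DecidableEq A] : ℕ → Finset (List A)
  | 0 => {[]}
  | n + 1 => Finset.univ.biUnion (fun x : A => (words A n).image (fun w => x :: w))

lemma mem_words (n : ℕ) (w : List A) : w ∈ words A n ↔ w.length = n := by
  induction n generalizing w with
  | zero => simp [words]
  | succ n ih =>
    simp only [words, Finset.mem_biUnion, Finset.mem_univ, true_and, Finset.mem_image]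
    constructor
    · rintro ⟨x, v, hv, rfl⟩
      simp [(ih v).1 hv]
    · intro h
      cases w with
      | nil => simp at h
      | cons x v => exact ⟨x, v, (ih v).2 (by simpa using h), rfl⟩

lemma sum_words (n : ℕ) (F : List A → ℝ) :
    ∑ w ∈ words A (n + 1), F w = ∑ x : A, ∑ w ∈ words A n, F (x :: w) := by
  rw [words, Finset.sum_biUnion]
  · apply Finset.sum_congr rfl
    intro x _
    rw [Finset.sum_image]
    intro v _ w _ h
    simpa using h
  · intro x _ y _ hxy
    simp only [Function.onFun]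
    rw [Finset.disjoint_left]
    intro w h1 h2
    obtain ⟨v, _, rfl⟩ := Finset.mem_image.1 h1
    obtain ⟨v', _, h3⟩ := Finset.mem_image.1 h2
    simp only [List.cons.injEq] at h3
    exact hxy h3.1.symm

lemma card_words (n : ℕ) : ∑ _w ∈ words A n, (1 : ℝ) = (Fintype.card A : ℝ) ^ n := by
  induction n with
  | zero => simp [words]
  | succ n ih =>
    rw [sum_words, Finset.sum_const, ih, Finset.card_univ, nsmul_eq_mul, pow_succ]; ring

end words

section walk
variable {A : Type} [Fintype A] [DecidableEq A] [Nonempty A]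
variable {G : Type} [Group G] [Fintype G] [DecidableEq G]

/-- distribution of the value of a random word of length `n` -/
noncomputable def p (φ : A → G) (n : ℕ) (g : G) : ℝ :=
  (∑ w ∈ words A n, if val φ w = g then (1 : ℝ) else 0) / (Fintype.card A : ℝ) ^ n

lemma cA : (1 : ℝ) ≤ Fintype.card A := by
  have : 1 ≤ Fintype.card A := Fintype.card_pos
  exact_mod_cast this

lemma p_nonneg (φ : A → G) (n : ℕ) (g : G) : 0 ≤ p φ n g := by
  unfold p
  apply div_nonneg
  · apply Finset.sum_nonneg; intro w _; split_ifs <;> norm_num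
  · positivity

lemma sum_p (φ : A → G) (n : ℕ) : ∑ g : G, p φ n g = 1 := by
  unfold p
  rw [← Finset.sum_div, Finset.sum_comm]
  have : ∀ w ∈ words A n, (∑ g : G, if val φ w = g then (1 : ℝ) else 0) = 1 := by
    intro w _; simp
  rw [Finset.sum_congr rfl this, card_words]
  have := cA (A := A)
  apply div_self
  positivity

lemma p_le (φ : A → G) (n : ℕ) (g : G) : p φ n g ≤ 1 := by
  rw [← sum_p φ n]
  exact Finset.single_le_sum (fun g _ => p_nonneg φ n g) (Finset.mem_univ g)

lemma p_succ (φ : A → G) (n : ℕ) (g : G) :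
    p φ (n + 1) g * Fintype.card A = ∑ x : A, p φ n ((φ x)⁻¹ * g) := by
  unfold p
  rw [sum_words, ← Finset.sum_div, pow_succ]
  have e : ∀ x : A, ∀ w ∈ words A n, (if val φ (x :: w) = g then (1 : ℝ) else 0) =
      if val φ w = (φ x)⁻¹ * g then 1 else 0 := by
    intro x w _
    rw [val_cons]
    congr 1
    rw [eq_inv_mul_iff_mul_eq]
  have e2 : (∑ x : A, ∑ w ∈ words A n, if val φ (x :: w) = g then (1 : ℝ) else 0) =
      ∑ x : A, ∑ w ∈ words A n, if val φ w = (φ x)⁻¹ * g then (1 : ℝ) else 0 :=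
    Finset.sum_congr rfl fun x _ => Finset.sum_congr rfl (e x)
  rw [e2]
  have := cA (A := A)
  field_simp

/-- average over the interval `[a, a + L)` -/
noncomputable def q (φ : A → G) (a L : ℕ) (g : G) : ℝ :=
  (∑ n ∈ Finset.Ico a (a + L), p φ n g) / L

lemma sum_q (φ : A → G) (a : ℕ) {L : ℕ} (hL : 0 < L) : ∑ g : G, q φ a L g = 1 := by
  unfold q
  rw [← Finset.sum_div, Finset.sum_comm, Finset.sum_congr rfl (fun n _ => sum_p φ n)]
  have : (0 : ℝ) < L := by exact_mod_cast hL
  rw [Finset.sum_const, Nat.card_Ico, nsmul_eq_mul, mul_one, Nat.add_sub_cancel_left]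
  exact div_self this.ne'

lemma q_step (φ : A → G) (a : ℕ) {L : ℕ} (hL : 0 < L) (g : G) :
    (q φ a L g - 1 / L) * Fintype.card A ≤ ∑ x : A, q φ a L ((φ x)⁻¹ * g) := by
  have hL' : (0 : ℝ) < L := by exact_mod_cast hL
  have hA := cA (A := A)
  unfold q
  rw [← Finset.sum_div, Finset.sum_comm]
  rw [Finset.sum_congr rfl (fun n _ => (p_succ φ n g).symm), ← Finset.sum_mul]
  have h1 : ∑ n ∈ Finset.Ico a (a + L), p φ (n + 1) g =
      ∑ n ∈ Finset.Ico a (a + L), p φ n g + (p φ (a + L) g - p φ a g) := by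
    have h2 := Finset.sum_range_succ_sub_sum (fun n => p φ (a + n) g) (n := L)
    rw [Finset.sum_Ico_eq_sum_range, Finset.sum_Ico_eq_sum_range]
    have h3 : a + L - a = L := by omega
    rw [h3]
    have h4 := Finset.sum_range_succ (fun n => p φ (a + n) g) L
    have h5 := Finset.sum_range_succ' (fun n => p φ (a + n) g) L
    have h6 : ∑ k ∈ Finset.range L, p φ (a + k + 1) g = ∑ k ∈ Finset.range L, p φ (a + (k + 1)) g :=
      Finset.sum_congr rfl fun k _ => by rw [add_assoc]
    rw [h6]
    simp only [add_zero] at h5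
    linarith
  rw [h1]
  have h7 := p_nonneg φ (a + L) g
  have h8 := p_le φ a g
  rw [← sub_div, div_mul_eq_mul_div]
  apply div_le_div_of_nonneg_right _ hL'.le
  apply mul_le_mul_of_nonneg_right _ (by linarith)
  linarith

lemma q_def_le (φ : A → G) (a : ℕ) {L : ℕ} (hL : 0 < L) {M : ℝ} (hM : ∀ g, q φ a L g ≤ M) (g : G)
    (x : A) : M - q φ a L ((φ x)⁻¹ * g) ≤ Fintype.card A * ((M - q φ a L g) + 1 / L) := by
  have h1 := q_step φ a hL g
  rw [← Finset.add_sum_erase _ _ (Finset.mem_univ x)] at h1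
  have h2 : ∑ y ∈ Finset.univ.erase x, q φ a L ((φ y)⁻¹ * g) ≤ ∑ y ∈ Finset.univ.erase x, M :=
    Finset.sum_le_sum fun y _ => hM _
  rw [Finset.sum_const, Finset.card_erase_of_mem (Finset.mem_univ x), Finset.card_univ, nsmul_eq_mul,
    Nat.cast_sub Fintype.card_pos] at h2
  push_cast at h2
  nlinarith

lemma q_word (φ : A → G) (a : ℕ) {L : ℕ} (hL : 0 < L) {M : ℝ} (hM : ∀ g, q φ a L g ≤ M)
    (w : List A) : ∀ g : G, M - q φ a L ((val φ w)⁻¹ * g) ≤
      (Fintype.card A : ℝ) ^ w.length * ((M - q φ a L g) + w.length / L) := by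
  have hL' : (0 : ℝ) < L := by exact_mod_cast hL
  have hA := cA (A := A)
  induction w with
  | nil => intro g; simp
  | cons x w ih =>
    intro g
    have h1 := ih ((φ x)⁻¹ * g)
    have e : (val φ (x :: w))⁻¹ * g = (val φ w)⁻¹ * ((φ x)⁻¹ * g) := by
      rw [val_cons]; group
    rw [e]
    have h2 := q_def_le φ a hL hM g x
    have hpow : (0 : ℝ) < (Fintype.card A : ℝ) ^ w.length := by positivity
    have h3 : (M - q φ a L ((φ x)⁻¹ * g)) + w.length / L ≤
        Fintype.card A * ((M - q φ a L g) + (w.length + 1) / L) := by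
      have h4 : (0 : ℝ) ≤ w.length / L := by positivity
      have h5 : (w.length : ℝ) / L ≤ Fintype.card A * (w.length / L) := by nlinarith
      have h6 : (Fintype.card A : ℝ) * ((M - q φ a L g) + (w.length + 1) / L) =
        Fintype.card A * ((M - q φ a L g) + 1 / L) + Fintype.card A * (w.length / L) := by
        field_simp; ring
      rw [h6]; linarith
    calc _ ≤ (Fintype.card A : ℝ) ^ w.length * ((M - q φ a L ((φ x)⁻¹ * g)) + w.length / L) := h1
      _ ≤ (Fintype.card A : ℝ) ^ w.length * (Fintype.card A * ((M - q φ a L g) + (w.length + 1) / L)) :=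
        mul_le_mul_of_nonneg_left h3 hpow.le
      _ = _ := by rw [List.length_cons, pow_succ]; push_cast; ring

theorem q_bound (φ : A → G) (hgen : ∀ g : G, ∃ w, val φ w = g) :
    ∃ C : ℝ, 0 ≤ C ∧ ∀ a L : ℕ, 0 < L → ∀ g, q φ a L g ≤ 1 / Fintype.card G + C / L := by
  choose W hW using hgen
  have hA := cA (A := A)
  refine ⟨∑ x : G, (Fintype.card A : ℝ) ^ (W x).length * (W x).length, ?_, ?_⟩
  · apply Finset.sum_nonneg; intro x _; positivity
  intro a L hL
  set C := ∑ x : G, (Fintype.card A : ℝ) ^ (W x).length * (W x).length with hC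
  have hL' : (0 : ℝ) < L := by exact_mod_cast hL
  obtain ⟨g0, hg0⟩ := Finite.exists_max (q φ a L)
  have h1 : ∀ h : G, q φ a L g0 - C / L ≤ q φ a L h := by
    intro h
    have h2 := q_word φ a hL hg0 (W (g0 * h⁻¹)) g0
    rw [hW] at h2
    have e : (g0 * h⁻¹)⁻¹ * g0 = h := by group
    rw [e] at h2
    have h3 : (Fintype.card A : ℝ) ^ (W (g0 * h⁻¹)).length * (W (g0 * h⁻¹)).length ≤ C :=
      Finset.single_le_sum (f := fun x : G => (Fintype.card A : ℝ) ^ (W x).length * (W x).length)
        (fun x _ => by positivity) (Finset.mem_univ (g0 * h⁻¹))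
    have h4 : (Fintype.card A : ℝ) ^ (W (g0 * h⁻¹)).length *
        (q φ a L g0 - q φ a L g0 + (W (g0 * h⁻¹)).length / L) =
        ((Fintype.card A : ℝ) ^ (W (g0 * h⁻¹)).length * (W (g0 * h⁻¹)).length) / L := by
      rw [sub_self, zero_add]; ring
    rw [h4] at h2
    have h5 := div_le_div_of_nonneg_right h3 hL'.le
    linarith
  have hG : (0 : ℝ) < Fintype.card G := by exact_mod_cast Fintype.card_pos
  have h6 : ∑ _h : G, (q φ a L g0 - C / L) ≤ ∑ h : G, q φ a L h := Finset.sum_le_sum fun h _ => h1 h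
  rw [sum_q φ a hL, Finset.sum_const, Finset.card_univ, nsmul_eq_mul] at h6
  intro g
  refine (hg0 g).trans ?_
  have h7 : q φ a L g0 - C / L ≤ 1 / Fintype.card G := by
    rw [le_div_iff₀ hG]; linarith
  linarith

end walk

end Pool.Agent.V117.PF
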