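import Mathlib

/-! Cohen-Macaulay local rings have no embedded primes. -/

namespace Pool.Agent.V117.CM

open RingTheory.Sequence IsLocalRing
open scoped Pointwise

universe u v

/-- A local ring is Cohen-Macaulay if its maximal ideal contains a regular sequence whose length
is the Krull dimension. -/
def IsCMLocal (A : Type u) [CommRing A] [IsLocalRing A] : Prop :=
  ∃ rs : List A, (∀ x ∈ rs, x ∈ IsLocalRing.maximalIdeal A) ∧
    RingTheory.Sequence.IsRegular A rs ∧ ringKrullDim A = rs.length

/-- A (Noetherian) ring is Cohen-Macaulay if its localisations at the maximal ideals are. -/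
def IsCM (H : Type u) [CommRing H] : Prop :=
  ∀ (m : Ideal H) [m.IsMaximal], IsCMLocal (Localization.AtPrime m)

variable {A : Type u} [CommRing A] [IsNoetherianRing A] [IsLocalRing A]

/-- A regular sequence of length `l` and an element killed by `J` give a chain of `l + 1` primes
above `J`. -/
lemma chain (rs : List A) : ∀ (M : Type v) [AddCommGroup M] [Module A M] [Module.Finite A M]
    (J : Ideal A) (y : M), y ≠ 0 → (∀ a ∈ J, a • y = 0) → (∀ x ∈ rs, x ∈ maximalIdeal A) →
    IsWeaklyRegular M rs →
    ∃ s : LTSeries (PrimeSpectrum A), s.length = rs.length ∧ J ≤ s.head.asIdeal := by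
  induction rs with
  | nil =>
    intro M _ _ _ J y hy hJ _ _
    obtain ⟨P, hP, hle⟩ := exists_le_isAssociatedPrime_of_isNoetherianRing A y hy
    refine ⟨RelSeries.singleton _ ⟨P, hP.isPrime⟩, rfl, ?_⟩
    intro a ha
    apply hle
    rw [Submodule.mem_colon_singleton]
    exact hJ a ha
  | cons x rs ih =>
    intro M _ _ _ J y hy hJ hmax hreg
    rw [isWeaklyRegular_cons_iff] at hreg
    obtain ⟨P, hP, hle⟩ := exists_le_isAssociatedPrime_of_isNoetherianRing A y hy
    obtain ⟨hprime, w, hw⟩ := (isAssociatedPrime_iff).1 hP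
    have hJP : J ≤ P := by
      intro a ha
      apply hle
      rw [Submodule.mem_colon_singleton]
      exact hJ a ha
    have hPw : ∀ a, a ∈ P ↔ a • w = 0 := by
      intro a
      rw [hw, Submodule.mem_colon_singleton]
      rfl
    have hw0 : w ≠ 0 := by
      intro h
      apply hprime.ne_top
      rw [Ideal.eq_top_iff_one, hPw, h, smul_zero]
    have hxP : x ∉ P := by
      intro hx
      rw [hPw] at hx
      exact hw0 (hreg.1 (by
        show x • w = x • (0 : M)
        rw [hx, smul_zero]))
    let N : Submodule A M :=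
      { carrier := {z | ∀ a ∈ P, a • z = 0}
        add_mem' := by
          intro z z' hz hz' a ha
          rw [smul_add, hz a ha, hz' a ha, add_zero]
        zero_mem' := by
          intro a _
          exact smul_zero a
        smul_mem' := by
          intro c z hz a ha
          rw [smul_comm, hz a ha, smul_zero] }
    have hN : ∃ z ∈ N, z ∉ (x • (⊤ : Submodule A M)) := by
      by_contra hcon
      push Not at hcon
      have h1 : N ≤ maximalIdeal A • N := by
        intro z hz
        obtain ⟨z', -, rfl⟩ := (Submodule.mem_smul_pointwise_iff_exists _ _ _).1 (hcon z hz)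
        apply Submodule.smul_mem_smul (hmax x (by simp))
        intro a ha
        apply hreg.1
        show x • a • z' = x • (0 : M)
        rw [smul_zero, smul_comm]
        exact hz a ha
      have h2 : N = ⊥ := by
        apply Submodule.eq_bot_of_le_smul_of_le_jacobson_bot _ _ (IsNoetherian.noetherian N) h1
        rw [IsLocalRing.jacobson_eq_maximalIdeal _ bot_ne_top]
      have h3 : w ∈ N := fun a ha => (hPw a).1 ha
      rw [h2, Submodule.mem_bot] at h3
      exact hw0 h3
    obtain ⟨z, hzN, hz⟩ := hN
    obtain ⟨s, hs, hs'⟩ := ih (QuotSMulTop x M) (P ⊔ Ideal.span {x})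
      (Submodule.Quotient.mk z) (by
        intro h
        exact hz ((Submodule.Quotient.mk_eq_zero _).1 h)) (by
        intro a ha
        obtain ⟨b, hb, c, hc, rfl⟩ := Submodule.mem_sup.1 ha
        rw [Ideal.mem_span_singleton'] at hc
        obtain ⟨d, rfl⟩ := hc
        rw [← Submodule.Quotient.mk_smul, Submodule.Quotient.mk_eq_zero, add_smul, hzN b hb,
          zero_add, mul_comm, mul_smul]
        exact Submodule.smul_mem_pointwise_smul _ _ _ trivial)
      (fun x hx => hmax x (by simp [hx])) hreg.2
    have hlt : (⟨P, hprime⟩ : PrimeSpectrum A) < s.head := by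
      refine lt_of_le_of_ne (le_sup_left.trans hs') ?_
      intro h
      apply hxP
      have h4 : x ∈ s.head.asIdeal := hs' (Submodule.mem_sup_right (Ideal.mem_span_singleton_self x))
      rw [← h] at h4
      exact h4
    refine ⟨s.cons ⟨P, hprime⟩ hlt, ?_, ?_⟩
    · rw [RelSeries.cons_length, hs]
      rfl
    · rw [RelSeries.head_cons]
      exact hJP

/-- If a nonzero element `y` of a Cohen-Macaulay local ring is killed by `J`, then some prime
above `J` is a minimal prime. -/
lemma exists_minimal (h : IsCMLocal A) (J : Ideal A) (y : A) (hy : y ≠ 0)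
    (hJ : ∀ a ∈ J, a * y = 0) : ∃ P : PrimeSpectrum A, J ≤ P.asIdeal ∧
      ∀ Q : PrimeSpectrum A, ¬ Q < P := by
  obtain ⟨rs, hmax, hreg, hdim⟩ := h
  obtain ⟨s, hs, hs'⟩ := chain rs A J y hy hJ hmax hreg.toIsWeaklyRegular
  refine ⟨s.head, hs', fun Q hQ => ?_⟩
  have h1 : ((s.cons Q hQ).length : WithBot ℕ∞) ≤ ringKrullDim A :=
    Order.LTSeries.length_le_krullDim _
  rw [hdim, RelSeries.cons_length, hs] at h1
  have h2 : rs.length + 1 ≤ rs.length := by exact_mod_cast h1
  omega

end Pool.Agent.V117.CM
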