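import Mathlib
import Pool.Agent.V117.Kosz2

/-! Field independence through deletion and link. -/

namespace Pool.Agent.V117.Kosz

open Pool.Agent.V117.MatHom

set_option linter.unusedSectionVars false

variable {ι : Type} [Fintype ι] [LinearOrder ι]

/-- the deletion -/
def dlF (e : ι) (𝓕 : Set (Finset ι)) : Set (Finset ι) := {F | F ∈ 𝓕 ∧ e ∉ F}
/-- the link -/
def lkF (e : ι) (𝓕 : Set (Finset ι)) : Set (Finset ι) := {F | e ∉ F ∧ insert e F ∈ 𝓕}

/-- `𝓕` is closed under subsets -/
def DownF (𝓕 : Set (Finset ι)) : Prop := ∀ F ∈ 𝓕, ∀ G, G ⊆ F → G ∈ 𝓕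

lemma DownF.dl {𝓕 : Set (Finset ι)} (h : DownF 𝓕) (e : ι) : DownF (dlF e 𝓕) :=
  fun F hF G hG => ⟨h F hF.1 G hG, fun he => hF.2 (hG he)⟩

lemma DownF.lk {𝓕 : Set (Finset ι)} (h : DownF 𝓕) (e : ι) : DownF (lkF e 𝓕) :=
  fun _ hF _ hG => ⟨fun he => hF.1 (hG he), h _ hF.2 _ (Finset.insert_subset_insert e hG)⟩

theorem zk_del_link (K : Type) [Field K] {𝓕 : Set (Finset ι)} (hd : DownF 𝓕) (e w : ι)
    (hwe : w ≠ e) (hcone : ∀ F ∈ 𝓕, e ∉ F → insert w F ∈ 𝓕) (s : ℕ) :
    zk K 𝓕 (s + 1) = zk K (lkF e 𝓕) s + zk K (dlF e 𝓕) (s + 1) := by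
  have hmap : (chS K 𝓕 (s + 1) ⊓ LinearMap.ker (bdL K)).map (lkL K e) =
      chS K (lkF e 𝓕) s ⊓ LinearMap.ker (bdL K) := by
    apply le_antisymm
    · rintro _ ⟨c, ⟨hc, hbc⟩, rfl⟩
      have hc' : Ch 𝓕 (s + 1) c := hc
      have hbc' : bd c = 0 := hbc
      refine ⟨?_, bd_lkL_eq_zero hbc'⟩
      intro F hF
      rw [lkL_apply] at hF
      split_ifs at hF with heF
      · exact absurd rfl hF
      · obtain ⟨h1, h3⟩ := hc' _ (right_ne_zero_of_mul hF)
        rw [Finset.card_insert_of_notMem heF] at h3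
        exact ⟨⟨heF, h1⟩, by omega⟩
    · rintro v ⟨hv, hbv⟩
      have hv' : Ch (lkF e 𝓕) s v := hv
      have hbv' : bd v = 0 := hbv
      have hve : ∀ F, v F ≠ 0 → e ∉ F := fun F hF => (hv' F hF).1.1
      refine ⟨wedge e v - wedge w v, ⟨?_, ?_⟩, ?_⟩
      · apply Submodule.sub_mem
        · intro F hF
          unfold wedge at hF
          split_ifs at hF with heF
          · obtain ⟨h1, h2⟩ := hv' _ (right_ne_zero_of_mul hF)
            rw [Finset.card_erase_of_mem heF] at h2
            have := Finset.card_pos.mpr ⟨e, heF⟩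
            have h3 := h1.2
            rw [Finset.insert_erase heF] at h3
            exact ⟨h3, by omega⟩
          · exact absurd rfl hF
        · intro F hF
          unfold wedge at hF
          split_ifs at hF with hwF
          · obtain ⟨h1, h2⟩ := hv' _ (right_ne_zero_of_mul hF)
            rw [Finset.card_erase_of_mem hwF] at h2
            have := Finset.card_pos.mpr ⟨w, hwF⟩
            have h3 := hcone _ (hd _ h1.2 _ (Finset.subset_insert _ _)) h1.1
            rw [Finset.insert_erase hwF] at h3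
            exact ⟨h3, by omega⟩
          · exact absurd rfl hF
      · show bd (wedge e v - wedge w v) = 0
        rw [bd_sub, bd_wedge, bd_wedge, hbv']
        have : ∀ x : ι, wedge x (0 : Finset ι → K) = 0 := by
          intro x; funext G; unfold wedge; simp
        rw [this, this, sub_self]
      · rw [map_sub]
        funext G
        rw [Pi.sub_apply, lkL_apply, lkL_apply]
        by_cases heG : e ∈ G
        · rw [if_pos heG, if_pos heG, sub_zero]
          by_contra hcon
          exact hve G (Ne.symm hcon) heG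
        · rw [if_neg heG, if_neg heG]
          have h1 : wedge e v (insert e G) = sg K e G * v G := by
            unfold wedge
            rw [if_pos (Finset.mem_insert_self _ _), Finset.erase_insert heG]
          have h2 : wedge w v (insert e G) = 0 := by
            unfold wedge
            split_ifs with hwG
            · have : v ((insert e G).erase w) = 0 := by
                by_contra hcon
                exact hve _ hcon (Finset.mem_erase.mpr ⟨Ne.symm hwe, Finset.mem_insert_self _ _⟩)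
              rw [this, mul_zero]
            · rfl
          rw [h1, h2, mul_zero, sub_zero, ← mul_assoc, sg_mul_self, one_mul]
  have hker : (chS K 𝓕 (s + 1) ⊓ LinearMap.ker (bdL K)) ⊓ LinearMap.ker (lkL K e) =
      chS K (dlF e 𝓕) (s + 1) ⊓ LinearMap.ker (bdL K) := by
    apply le_antisymm
    · rintro c ⟨⟨hc, hbc⟩, hl⟩
      have hc' : Ch 𝓕 (s + 1) c := hc
      have hl' : lkL K e c = 0 := hl
      refine ⟨?_, hbc⟩
      intro F hF
      obtain ⟨h1, h3⟩ := hc' F hF
      refine ⟨⟨h1, ?_⟩, h3⟩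
      intro h2
      have h5 := congrFun hl' (F.erase e)
      rw [lkL_apply, if_neg (by simp), Finset.insert_erase h2] at h5
      apply hF
      have h6 := congrArg (fun z => sg K e (F.erase e) * z) h5
      simp only [Pi.zero_apply, mul_zero] at h6
      rw [← mul_assoc, sg_mul_self, one_mul] at h6
      exact h6
    · rintro c ⟨hc, hbc⟩
      have hc' : Ch (dlF e 𝓕) (s + 1) c := hc
      refine ⟨⟨hc'.mono (fun F hF => hF.1), hbc⟩, ?_⟩
      show lkL K e c = 0
      funext G
      rw [lkL_apply, Pi.zero_apply]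
      split_ifs with heG
      · rfl
      · have : c (insert e G) = 0 := by
          by_contra hcon
          exact (hc' _ hcon).1.2 (Finset.mem_insert_self _ _)
        rw [this, mul_zero]
  have h := finrank_map_add (chS K 𝓕 (s + 1) ⊓ LinearMap.ker (bdL K)) (lkL K e)
  rw [hmap, hker] at h
  exact h.symm

/-- field independence of the ranks -/
def FI (𝓕 : Set (Finset ι)) : Prop := ∀ (K : Type) [Field K] (s : ℕ), zk K 𝓕 s = zk ℚ 𝓕 s

lemma FI.rk {𝓕 : Set (Finset ι)} (h : FI 𝓕) (K : Type) [Field K] (s : ℕ) :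
    rk K 𝓕 s = rk ℚ 𝓕 s := by
  have h1 := rk_add_zk K 𝓕 s
  have h2 := rk_add_zk ℚ 𝓕 s
  have h3 := h K s
  omega

lemma FI.hdim {𝓕 : Set (Finset ι)} (h : FI 𝓕) (hd : DownF 𝓕) (K : Type) [Field K] (s : ℕ) :
    hdim K 𝓕 s = Kosz.hdim ℚ 𝓕 s := by
  have h1 := hdim_add K hd s
  have h2 := hdim_add ℚ hd s
  rw [h K s, h.rk K (s + 1)] at h1
  omega

lemma zk_zero (K : Type) [Field K] (𝓕 : Set (Finset ι)) : zk K 𝓕 0 = nf 𝓕 0 := by
  have h1 := rk_add_zk K 𝓕 0
  rw [rk_zero] at h1
  omega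

lemma FI_cone {𝓕 : Set (Finset ι)} (hd : DownF 𝓕) (e : ι)
    (hc : ∀ F ∈ 𝓕, insert e F ∈ 𝓕) : FI 𝓕 := fun K _ s => zk_indep_of_cone K hd e hc s

lemma FI_small {𝓕 : Set (Finset ι)} (h : ∀ F ∈ 𝓕, F = ∅) : FI 𝓕 := by
  intro K _ s
  cases s with
  | zero => rw [zk_zero, zk_zero]
  | succ s =>
    have h1 : nf 𝓕 (s + 1) = 0 := by
      unfold nf
      rw [Nat.card_eq_zero]
      left
      refine ⟨?_⟩
      rintro ⟨F, hF, hFs⟩
      rw [h F hF, Finset.card_empty] at hFs
      omega
    have h2 := rk_add_zk K 𝓕 (s + 1)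
    have h3 := rk_add_zk ℚ 𝓕 (s + 1)
    omega

theorem FI_del_link {𝓕 : Set (Finset ι)} (hd : DownF 𝓕) (e w : ι)
    (hwe : w ≠ e) (hcone : ∀ F ∈ 𝓕, e ∉ F → insert w F ∈ 𝓕) (hl : FI (lkF e 𝓕)) : FI 𝓕 := by
  intro K _ s
  cases s with
  | zero => rw [zk_zero, zk_zero]
  | succ s =>
    rw [zk_del_link K hd e w hwe hcone s, zk_del_link ℚ hd e w hwe hcone s, hl K s]
    have : FI (dlF e 𝓕) := by
      refine FI_cone (hd.dl e) w ?_
      rintro F ⟨hF, heF⟩
      refine ⟨hcone F hF heF, ?_⟩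
      rw [Finset.mem_insert, not_or]
      exact ⟨Ne.symm hwe, heF⟩
    rw [this K (s + 1)]

end Pool.Agent.V117.Kosz
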