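import Mathlib
import Pool.Agent.V117.Kosz3

/-! The six-vertex projective plane: the dimension of its homology depends on the field. -/

namespace Pool.Agent.V117.RP2

open Pool.Agent.V117.MatHom Pool.Agent.V117.Kosz

/-- the facets -/
def fac : Fin 10 → Finset (Fin 8) :=
  ![{0, 1, 2}, {0, 1, 3}, {0, 2, 4}, {0, 3, 5}, {0, 4, 5}, {1, 2, 5}, {1, 3, 4}, {1, 4, 5},
    {2, 3, 4}, {2, 3, 5}]

/-- the projective plane -/
def RP : Set (Finset (Fin 8)) := {F | ∃ i, F ⊆ fac i}

lemma RP_down : DownF RP := by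
  rintro F ⟨i, hi⟩ G hG
  exact ⟨i, hG.trans hi⟩

lemma fac_card (i : Fin 10) : (fac i).card = 3 := by
  revert i; decide

lemma eq_fac {F : Finset (Fin 8)} (h : F ∈ RP) (hc : F.card = 3) : ∃ i, F = fac i := by
  obtain ⟨i, hi⟩ := h
  exact ⟨i, Finset.eq_of_subset_of_card_le hi (by rw [fac_card, hc])⟩

theorem rel (c : Finset (Fin 8) → ℚ) (hc : Ch RP 3 c) (hbd : bd c = 0) (G : Finset (Fin 8))
    (p q : Fin 8) (i i' : Fin 10) (k k' : ℕ)
    (h1 : insert p G = fac i ∧ insert q G = fac i' ∧ p ∉ G ∧ q ∉ G ∧ p ≠ q)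
    (h2 : (G.filter (· < p)).card = k ∧ (G.filter (· < q)).card = k')
    (h3 : ∀ z, z ∉ G → z ≠ p → z ≠ q → ∀ l, insert z G ≠ fac l) :
    (-1) ^ k * c (fac i) + (-1) ^ k' * c (fac i') = 0 := by
  obtain ⟨hp, hq, hpG, hqG, hpq⟩ := h1
  have h := congrFun hbd G
  rw [Pi.zero_apply] at h
  unfold bd at h
  rw [← Finset.sum_subset (s₁ := {p, q})] at h
  · rw [Finset.sum_pair hpq, hp, hq] at h
    unfold sg at h
    rw [h2.1, h2.2] at h
    exact h
  · intro z hz
    rw [Finset.mem_insert, Finset.mem_singleton] at hz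
    rw [Finset.mem_compl]
    rcases hz with rfl | rfl <;> assumption
  · intro z hz hz2
    rw [Finset.mem_insert, Finset.mem_singleton, not_or] at hz2
    rw [Finset.mem_compl] at hz
    have : c (insert z G) = 0 := by
      by_contra hcon
      obtain ⟨h4, h5⟩ := hc _ hcon
      obtain ⟨l, hl⟩ := eq_fac h4 h5
      exact h3 z hz hz2.1 hz2.2 l hl
    rw [this, mul_zero]

theorem cycle_rat (c : Finset (Fin 8) → ℚ) (hc : Ch RP 3 c) (hbd : bd c = 0) : c = 0 := by
  have e0 := rel c hc hbd {0, 1} 2 3 0 1 2 2 (by decide) (by decide) (by decide)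
  have e1 := rel c hc hbd {0, 2} 1 4 0 2 1 2 (by decide) (by decide) (by decide)
  have e2 := rel c hc hbd {0, 3} 1 5 1 3 1 2 (by decide) (by decide) (by decide)
  have e3 := rel c hc hbd {0, 4} 2 5 2 4 1 2 (by decide) (by decide) (by decide)
  have e4 := rel c hc hbd {0, 5} 3 4 3 4 1 1 (by decide) (by decide) (by decide)
  have e5 := rel c hc hbd {1, 2} 0 5 0 5 0 2 (by decide) (by decide) (by decide)
  have e6 := rel c hc hbd {1, 3} 0 4 1 6 0 2 (by decide) (by decide) (by decide)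
  have e7 := rel c hc hbd {1, 4} 3 5 6 7 1 2 (by decide) (by decide) (by decide)
  have e8 := rel c hc hbd {1, 5} 2 4 5 7 1 1 (by decide) (by decide) (by decide)
  have e9 := rel c hc hbd {2, 3} 4 5 8 9 2 2 (by decide) (by decide) (by decide)
  have e10 := rel c hc hbd {2, 4} 0 3 2 8 0 1 (by decide) (by decide) (by decide)
  have e11 := rel c hc hbd {2, 5} 1 3 5 9 0 1 (by decide) (by decide) (by decide)
  have e12 := rel c hc hbd {3, 4} 1 2 6 8 0 0 (by decide) (by decide) (by decide)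
  have e13 := rel c hc hbd {3, 5} 0 2 3 9 0 0 (by decide) (by decide) (by decide)
  have e14 := rel c hc hbd {4, 5} 0 1 4 7 0 0 (by decide) (by decide) (by decide)
  norm_num at e0 e1 e2 e3 e4 e5 e6 e7 e8 e9 e10 e11 e12 e13 e14
  have z0 : c (fac 0) = 0 := by linarith
  have z1 : c (fac 1) = 0 := by linarith
  have z2 : c (fac 2) = 0 := by linarith
  have z3 : c (fac 3) = 0 := by linarith
  have z4 : c (fac 4) = 0 := by linarith
  have z5 : c (fac 5) = 0 := by linarith
  have z6 : c (fac 6) = 0 := by linarith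
  have z7 : c (fac 7) = 0 := by linarith
  have z8 : c (fac 8) = 0 := by linarith
  have z9 : c (fac 9) = 0 := by linarith
  have hz : ∀ i, c (fac i) = 0 := by
    intro i
    fin_cases i
    exacts [z0, z1, z2, z3, z4, z5, z6, z7, z8, z9]
  funext F
  rw [Pi.zero_apply]
  by_contra hcon
  obtain ⟨h4, h5⟩ := hc _ hcon
  obtain ⟨l, rfl⟩ := eq_fac h4 h5
  exact hcon (hz l)

instance : Fact (Nat.Prime 2) := ⟨Nat.prime_two⟩

/-- the fundamental cycle mod 2 -/
def cyc : Finset (Fin 8) → ZMod 2 := fun F => if ∃ i, F = fac i then 1 else 0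

lemma cyc_Ch : Ch RP 3 cyc := by
  intro F hF
  unfold cyc at hF
  split_ifs at hF with h
  · obtain ⟨i, rfl⟩ := h
    exact ⟨⟨i, Finset.Subset.refl _⟩, fac_card i⟩
  · exact absurd rfl hF

lemma even_cyc : ∀ G : Finset (Fin 8), (((Gᶜ).filter (fun j => ∃ i, insert j G = fac i)).card) % 2 = 0 := by
  decide +kernel

lemma bd_cyc : bd cyc = 0 := by
  funext G
  rw [Pi.zero_apply]
  unfold bd
  have h1 : ∀ j, sg (ZMod 2) j G = 1 := by
    intro j
    unfold sg
    have : (-1 : ZMod 2) = 1 := by decide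
    rw [this, one_pow]
  simp only [h1, one_mul, cyc]
  rw [Finset.sum_boole]
  have h2 := even_cyc G
  rw [ZMod.natCast_eq_zero_iff]
  exact Nat.dvd_of_mod_eq_zero h2

theorem zk_rat : zk ℚ RP 3 = 0 := by
  unfold zk
  have : chS ℚ RP 3 ⊓ LinearMap.ker (bdL ℚ) = ⊥ := by
    rw [eq_bot_iff]
    rintro c ⟨h1, h2⟩
    exact cycle_rat c h1 h2
  rw [this, finrank_bot]

theorem zk_two : 0 < zk (ZMod 2) RP 3 := by
  unfold zk
  rw [Module.finrank_pos_iff_exists_ne_zero]
  refine ⟨⟨cyc, cyc_Ch, bd_cyc⟩, ?_⟩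
  intro h
  have h1 : cyc = 0 := congrArg Subtype.val h
  have h2 := congrFun h1 (fac 0)
  have h3 : cyc (fac 0) = 1 := by
    unfold cyc
    rw [if_pos ⟨0, rfl⟩]
  rw [h3] at h2
  exact one_ne_zero h2

theorem hdim_lt : hdim ℚ RP 3 < hdim (ZMod 2) RP 3 := by
  have h1 := hdim_add ℚ RP_down 3
  have h2 := hdim_add (ZMod 2) RP_down 3
  have h3 := zk_rat
  have h4 := zk_two
  have h5 := rk_le_rat (ZMod 2) RP (3 + 1)
  omega

end Pool.Agent.V117.RP2
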