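import Mathlib

/-! Arithmetic of the threshold construction. -/

namespace Pool.Agent.V117.Thr

/-- parameters of the construction -/
structure Par (h : ℕ) where
  c : Fin 10 → ℕ
  As : ℕ
  g : ℕ
  hg : 5 ≤ g
  hgc : ∀ j, g ∣ c j
  hAs : As % g = 1
  hbig : ∀ j, 2 * ((h - 1) * c j) + 4 < As
  hc : ∀ j, c j ≤ As
  huniq : ∀ j k, j ≠ k → ∀ ν ν' : Fin 10 → ℕ, (∑ l, ν l) + 2 ≤ h → (∑ l, ν' l) + 2 ≤ h →
    (h - 1) * c k + ∑ l, ν l * c l ≠ (h - 1) * c j + ∑ l, ν' l * c l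

lemma digits_inj (g : ℕ) (hg : 0 < g) : ∀ (r : ℕ) (d d' : ℕ → ℕ), (∀ l < r, d l < g) →
    (∀ l < r, d' l < g) → ∑ l ∈ Finset.range r, d l * g ^ l = ∑ l ∈ Finset.range r, d' l * g ^ l →
    ∀ l < r, d l = d' l := by
  intro r
  induction r with
  | zero => intro d d' _ _ _ l hl; omega
  | succ r ih =>
    intro d d' hd hd' heq l hl
    rw [Finset.sum_range_succ', Finset.sum_range_succ'] at heq
    have h1 : ∀ e : ℕ → ℕ, ∑ l ∈ Finset.range r, e (l + 1) * g ^ (l + 1) =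
        g * ∑ l ∈ Finset.range r, e (l + 1) * g ^ l := by
      intro e
      rw [Finset.mul_sum]
      refine Finset.sum_congr rfl fun l _ => ?_
      rw [pow_succ]; ring
    rw [h1 d, h1 d', pow_zero, mul_one, mul_one] at heq
    have h2 : d 0 = d' 0 := by
      have := congrArg (· % g) heq
      simp only [Nat.mul_add_mod] at this
      rw [Nat.mod_eq_of_lt (hd 0 (by omega)), Nat.mod_eq_of_lt (hd' 0 (by omega))] at this
      exact this
    have h3 : ∑ l ∈ Finset.range r, d (l + 1) * g ^ l = ∑ l ∈ Finset.range r, d' (l + 1) * g ^ l := by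
      rw [h2] at heq
      exact Nat.eq_of_mul_eq_mul_left hg (Nat.add_right_cancel heq)
    rcases l with _ | l
    · exact h2
    · exact ih (fun l => d (l + 1)) (fun l => d' (l + 1)) (fun l hl => hd _ (by omega))
        (fun l hl => hd' _ (by omega)) h3 l (by omega)

lemma pow_digits (g h : ℕ) (hg : 2 * h + 3 ≤ g) (j k : Fin 10) (hjk : j ≠ k)
    (ν ν' : Fin 10 → ℕ) (hν : (∑ l, ν l) + 2 ≤ h) (hν' : (∑ l, ν' l) + 2 ≤ h) :
    (h - 1) * g ^ (k.val + 1) + ∑ l, ν l * g ^ (l.val + 1) ≠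
      (h - 1) * g ^ (j.val + 1) + ∑ l, ν' l * g ^ (l.val + 1) := by
  intro heq
  let e : Fin 10 → (Fin 10 → ℕ) → ℕ → ℕ := fun i μ l =>
    if hl : l < 10 then μ ⟨l, hl⟩ + (if (⟨l, hl⟩ : Fin 10) = i then h - 1 else 0) else 0
  have h1 : ∀ (i : Fin 10) (μ : Fin 10 → ℕ) (l : Fin 10),
      e i μ l.val = μ l + (if l = i then h - 1 else 0) := by
    intro i μ l
    simp only [e, l.isLt, dif_pos]
  have hsum : ∀ (i : Fin 10) (μ : Fin 10 → ℕ),
      (h - 1) * g ^ (i.val + 1) + ∑ l, μ l * g ^ (l.val + 1) =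
        g * ∑ l ∈ Finset.range 10, e i μ l * g ^ l := by
    intro i μ
    rw [Finset.sum_range]
    have h2 : ∀ l : Fin 10, e i μ l.val * g ^ l.val =
        μ l * g ^ l.val + (if l = i then (h - 1) * g ^ l.val else 0) := by
      intro l
      rw [h1, add_mul, ite_mul, zero_mul]
    rw [Finset.sum_congr rfl (fun l _ => h2 l), Finset.sum_add_distrib,
      Finset.sum_ite_eq' Finset.univ i (fun l => (h - 1) * g ^ l.val),
      if_pos (Finset.mem_univ i), mul_add, Finset.mul_sum, add_comm]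
    congr 1
    · exact Finset.sum_congr rfl fun l _ => by rw [pow_succ]; ring
    · rw [pow_succ]; ring
  have hle : ∀ (μ : Fin 10 → ℕ) (l : Fin 10), μ l ≤ ∑ l, μ l := fun μ l =>
    Finset.single_le_sum (f := μ) (fun _ _ => Nat.zero_le _) (Finset.mem_univ l)
  have hlt : ∀ (i : Fin 10) (μ : Fin 10 → ℕ), (∑ l, μ l) + 2 ≤ h → ∀ l < 10, e i μ l < g := by
    intro i μ hμ l hl
    have h2 := hle μ ⟨l, hl⟩
    have h3 := h1 i μ ⟨l, hl⟩
    simp only at h3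
    rw [h3]
    split_ifs <;> omega
  have h4 := hsum k ν
  have h5 := hsum j ν'
  have h6 : ∑ l ∈ Finset.range 10, e k ν l * g ^ l = ∑ l ∈ Finset.range 10, e j ν' l * g ^ l := by
    apply Nat.eq_of_mul_eq_mul_left (by omega : 0 < g)
    rw [← h4, ← h5]
    exact heq
  have h7 := digits_inj g (by omega) 10 (e k ν) (e j ν') (hlt k ν hν) (hlt j ν' hν') h6 k.val
    k.isLt
  rw [h1, h1, if_pos rfl, if_neg (Ne.symm hjk)] at h7
  have h8 := hle ν' k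
  omega

theorem exists_par (h : ℕ) (hh : 1 ≤ h) : Nonempty (Par h) := by
  obtain ⟨g, hgdef⟩ : ∃ g, g = 2 * h + 3 := ⟨_, rfl⟩
  have hg5 : 5 ≤ g := by omega
  have hpow : ∀ j : Fin 10, g ^ (j.val + 1) ≤ g ^ 10 :=
    fun j => Nat.pow_le_pow_right (by omega) (by omega)
  have h10 : 1 ≤ g ^ 10 := Nat.one_le_pow _ _ (by omega)
  have hX : (h - 1) * g ^ 10 ≤ h * g ^ 10 := Nat.mul_le_mul_right _ (by omega)
  have hX1 : g ^ 10 ≤ h * g ^ 10 := Nat.le_mul_of_pos_left _ (by omega)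
  have hA : 20 * (h * g ^ 10) ≤ 4 * g * (h * g ^ 10) := Nat.mul_le_mul_right _ (by omega)
  have hm : ∀ j : Fin 10, (h - 1) * g ^ (j.val + 1) ≤ (h - 1) * g ^ 10 :=
    fun j => Nat.mul_le_mul_left _ (hpow j)
  have hmod : (4 * g * (h * g ^ 10) + 1) % g = 1 := by
    have : 4 * g * (h * g ^ 10) + 1 = g * (4 * (h * g ^ 10)) + 1 := by ring
    rw [this, Nat.mul_add_mod, Nat.mod_eq_of_lt (by omega)]
  obtain ⟨X, hXd⟩ : ∃ X, X = h * g ^ 10 := ⟨_, rfl⟩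
  obtain ⟨Y, hYd⟩ : ∃ Y, Y = 4 * g * (h * g ^ 10) := ⟨_, rfl⟩
  rw [← hYd] at hmod hA
  rw [← hXd] at hX hX1 hA
  refine ⟨⟨fun j => g ^ (j.val + 1), Y + 1, g, hg5, ?_, hmod, ?_, ?_, ?_⟩⟩
  · intro j
    exact dvd_pow_self g (Nat.succ_ne_zero _)
  · intro j
    have h1 := hm j
    show 2 * ((h - 1) * g ^ (j.val + 1)) + 4 < Y + 1
    generalize (h - 1) * g ^ (j.val + 1) = a at *
    generalize (h - 1) * g ^ 10 = b at *
    generalize g ^ 10 = d at *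
    omega
  · intro j
    have h1 := hpow j
    show g ^ (j.val + 1) ≤ Y + 1
    generalize g ^ (j.val + 1) = a at *
    generalize g ^ 10 = d at *
    omega
  · intro j k hjk ν ν' hν hν'
    exact pow_digits g h (by omega) j k hjk ν ν' hν hν'

variable {h : ℕ} (p : Par h)

/-- the positions of the special generators -/
def Par.v (j : Fin 10) : ℕ := p.As - (h - 1) * p.c j

lemma v_add (j : Fin 10) : p.v j + (h - 1) * p.c j = p.As := by
  have := p.hbig j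
  unfold Par.v
  omega

lemma v_big (j : Fin 10) : p.As + 4 < 2 * p.v j := by
  have := p.hbig j
  have := v_add p j
  omega

lemma v_ge (j : Fin 10) : 3 ≤ p.v j := by
  have := v_big p j
  omega

lemma v_le (j : Fin 10) : p.v j ≤ p.As := by
  have := v_add p j
  omega

/-- the positions of the unit generators -/
def Par.U (u : ℕ) : Prop := u = 0 ∨ (∃ l, u = p.c l) ∨
  ∃ j, ∃ δ : ℤ, (δ = 1 ∨ δ = 2 ∨ δ = -1 ∨ δ = -2) ∧ (u : ℤ) = p.v j + δ

lemma U_le {u : ℕ} (hu : p.U u) : u ≤ p.As + 2 := by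
  rcases hu with rfl | ⟨l, rfl⟩ | ⟨j, δ, hδ, h⟩
  · omega
  · have := p.hc l; omega
  · have := v_le p j
    omega

/-- unit sums -/
def Par.Un : ℕ → Set ℕ
  | 0 => {0}
  | n + 1 => {a | ∃ a' ∈ Par.Un n, ∃ u, p.U u ∧ a = a' + u}

/-- sums of at most `n` of the `c l` -/
def Par.Cn : ℕ → Set ℕ
  | 0 => {0}
  | n + 1 => {w | ∃ w' ∈ Par.Cn n, w = w' ∨ ∃ l, w = w' + p.c l}

lemma Cn_succ {n w : ℕ} (hw : w ∈ p.Cn n) : w ∈ p.Cn (n + 1) := ⟨w, hw, Or.inl rfl⟩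

lemma Cn_mono {n n' w : ℕ} (hn : n ≤ n') (hw : w ∈ p.Cn n) : w ∈ p.Cn n' := by
  induction hn with
  | refl => exact hw
  | step _ ih => exact Cn_succ p ih

lemma Cn_Un {n w : ℕ} (hw : w ∈ p.Cn n) : w ∈ p.Un n := by
  induction n generalizing w with
  | zero => exact hw
  | succ n ih =>
    obtain ⟨w', hw', h | ⟨l, h⟩⟩ := hw
    · exact ⟨w', ih hw', 0, Or.inl rfl, by omega⟩
    · exact ⟨w', ih hw', p.c l, Or.inr (Or.inl ⟨l, rfl⟩), h⟩

lemma Cn_rep {n w : ℕ} (hw : w ∈ p.Cn n) :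
    ∃ ν : Fin 10 → ℕ, ∑ l, ν l ≤ n ∧ w = ∑ l, ν l * p.c l := by
  induction n generalizing w with
  | zero =>
    have : w = 0 := hw
    exact ⟨fun _ => 0, by simp, by simp [this]⟩
  | succ n ih =>
    obtain ⟨w', hw', h | ⟨l, h⟩⟩ := hw
    · obtain ⟨ν, h1, h2⟩ := ih hw'
      exact ⟨ν, by omega, by omega⟩
    · obtain ⟨ν, h1, h2⟩ := ih hw'
      refine ⟨fun i => ν i + (if i = l then 1 else 0), ?_, ?_⟩
      · rw [Finset.sum_add_distrib, Finset.sum_ite_eq' Finset.univ l (fun _ => 1)]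
        simp only [Finset.mem_univ, if_true]
        omega
      · simp only [add_mul, ite_mul, one_mul, zero_mul, Finset.sum_add_distrib]
        rw [Finset.sum_ite_eq' Finset.univ l (fun i => p.c i)]
        simp only [Finset.mem_univ, if_true]
        omega

lemma Cn_dvd {n w : ℕ} (hw : w ∈ p.Cn n) : p.g ∣ w := by
  obtain ⟨ν, -, rfl⟩ := Cn_rep p hw
  exact Finset.dvd_sum fun l _ => Dvd.dvd.mul_left (p.hgc l) _

lemma Cn_mul (j : Fin 10) (n : ℕ) : n * p.c j ∈ p.Cn n := by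
  induction n with
  | zero => rw [zero_mul]; rfl
  | succ n ih => exact ⟨n * p.c j, ih, Or.inr ⟨j, by ring⟩⟩

lemma uv (j : Fin 10) (δ : ℤ) (hδ : δ = 1 ∨ δ = 2 ∨ δ = -1 ∨ δ = -2) :
    ∃ u : ℕ, p.U u ∧ (u : ℤ) = p.v j + δ := by
  have := v_ge p j
  refine ⟨(p.v j + δ).toNat, Or.inr (Or.inr ⟨j, δ, hδ, ?_⟩), ?_⟩ <;> omega

lemma pairU (j k : Fin 10) {n w : ℕ} (hw : w ∈ p.Un n) (e : ℤ) (he : -4 ≤ e ∧ e ≤ 4) (a : ℕ)
    (ha : (a : ℤ) = p.v j + p.v k + w + e) : a ∈ p.Un (n + 2) := by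
  obtain ⟨δ, δ', h1, h2, h3⟩ : ∃ δ δ' : ℤ, (δ = 1 ∨ δ = 2 ∨ δ = -1 ∨ δ = -2) ∧
      (δ' = 1 ∨ δ' = 2 ∨ δ' = -1 ∨ δ' = -2) ∧ δ + δ' = e := by
    have : e = -4 ∨ e = -3 ∨ e = -2 ∨ e = -1 ∨ e = 0 ∨ e = 1 ∨ e = 2 ∨ e = 3 ∨ e = 4 := by omega
    rcases this with rfl | rfl | rfl | rfl | rfl | rfl | rfl | rfl | rfl
    · exact ⟨-2, -2, by omega, by omega, by omega⟩
    · exact ⟨-2, -1, by omega, by omega, by omega⟩
    · exact ⟨-1, -1, by omega, by omega, by omega⟩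
    · exact ⟨-2, 1, by omega, by omega, by omega⟩
    · exact ⟨-1, 1, by omega, by omega, by omega⟩
    · exact ⟨2, -1, by omega, by omega, by omega⟩
    · exact ⟨1, 1, by omega, by omega, by omega⟩
    · exact ⟨1, 2, by omega, by omega, by omega⟩
    · exact ⟨2, 2, by omega, by omega, by omega⟩
  obtain ⟨u, hu, hu2⟩ := uv p j δ h1
  obtain ⟨u', hu', hu2'⟩ := uv p k δ' h2
  exact ⟨w + u, ⟨w, hw, u, hu, rfl⟩, u', hu', by omega⟩

/-- classification of the sums -/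
inductive Ty : ℕ → ℕ → Set (Fin 10) → Prop
  | ct {n a : ℕ} {S : Set (Fin 10)} (h1 : a ∈ p.Cn n) : Ty n a S
  | ot {n w a : ℕ} {S : Set (Fin 10)} (j : Fin 10) (δ : ℤ)
      (hδ : δ = 1 ∨ δ = 2 ∨ δ = -1 ∨ δ = -2) (hw : w ∈ p.Cn n)
      (ha : (a : ℤ) = p.v j + δ + w) : Ty (n + 1) a S
  | st {n w a : ℕ} {S : Set (Fin 10)} (j : Fin 10) (hw : w ∈ p.Cn n)
      (ha : a = p.v j + w) (hj : j ∈ S) : Ty (n + 1) a S
  | bt {n a : ℕ} {S : Set (Fin 10)} (h1 : a ∈ p.Un n) (h2 : p.As < a)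
      (h3 : a + 1 ∈ p.Un n ∨ ∃ a', a = a' + 1 ∧ a' ∈ p.Un n) : Ty n a S

lemma big_of_pair (j k : Fin 10) {n w : ℕ} (hw : w ∈ p.Cn n) (e : ℤ) (he : -4 ≤ e ∧ e ≤ 4)
    (a : ℕ) (ha : (a : ℤ) = p.v j + p.v k + w + e) (S : Set (Fin 10)) : Ty p (n + 2) a S := by
  have h1 := v_big p j
  have h2 := v_big p k
  refine Ty.bt (pairU p j k (Cn_Un p hw) e he a ha) (by omega) ?_
  by_cases h3 : e ≤ 3
  · left
    exact pairU p j k (Cn_Un p hw) (e + 1) (by omega) (a + 1) (by push_cast; omega)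
  · right
    refine ⟨a - 1, by omega, pairU p j k (Cn_Un p hw) (e - 1) (by omega) (a - 1) (by omega)⟩

theorem Ty.unit {n a : ℕ} {S S' : Set (Fin 10)} (h : Ty p n a S) (hS : S ⊆ S') {u : ℕ}
    (hu : p.U u) : Ty p (n + 1) (a + u) S' := by
  cases h with
  | ct h1 =>
    rcases hu with rfl | ⟨l, rfl⟩ | ⟨j, δ, hδ, hu⟩
    · exact Ty.ct (Cn_succ p h1)
    · exact Ty.ct ⟨a, h1, Or.inr ⟨l, rfl⟩⟩
    · exact Ty.ot j δ hδ h1 (by push_cast; omega)
  | @ot n w _ _ j δ hδ hw ha =>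
    rcases hu with rfl | ⟨l, rfl⟩ | ⟨k, δ', hδ', hu⟩
    · exact Ty.ot j δ hδ (Cn_succ p hw) (by push_cast; omega)
    · exact Ty.ot (w := w + p.c l) j δ hδ ⟨w, hw, Or.inr ⟨l, rfl⟩⟩ (by push_cast; omega)
    · exact big_of_pair p j k hw (δ + δ') (by omega) _ (by push_cast; omega) _
  | @st n w _ _ j hw ha hj =>
    rcases hu with rfl | ⟨l, rfl⟩ | ⟨k, δ', hδ', hu⟩
    · exact Ty.st j (Cn_succ p hw) (by omega) (hS hj)
    · exact Ty.st (w := w + p.c l) j ⟨w, hw, Or.inr ⟨l, rfl⟩⟩ (by omega) (hS hj)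
    · exact big_of_pair p j k hw δ' (by omega) _ (by push_cast; omega) _
  | bt h1 h2 h3 =>
    refine Ty.bt ⟨a, h1, u, hu, rfl⟩ (by omega) ?_
    rcases h3 with h3 | ⟨a', h3, h4⟩
    · left; exact ⟨a + 1, h3, u, hu, by omega⟩
    · right; exact ⟨a' + u, by omega, a', h4, u, hu, rfl⟩

theorem Ty.spec {n a : ℕ} {S S' : Set (Fin 10)} (h : Ty p n a S) {k : Fin 10}
    (hk : k ∈ S') : Ty p (n + 1) (a + p.v k) S' := by
  have hvk := v_ge p k
  obtain ⟨up, hup, hup2⟩ := uv p k 1 (by omega)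
  obtain ⟨um, hum, hum2⟩ := uv p k (-1) (by omega)
  cases h with
  | ct h1 => exact Ty.st k h1 (by omega) hk
  | @ot n w _ _ j δ hδ hw ha => exact big_of_pair p j k hw δ (by omega) _ (by push_cast; omega) _
  | @st n w _ _ j hw ha hj => exact big_of_pair p j k hw 0 (by omega) _ (by push_cast; omega) _
  | bt h1 h2 h3 =>
    refine Ty.bt ?_ (by omega) (Or.inl ⟨a, h1, up, hup, by omega⟩)
    rcases h3 with h3 | ⟨a', h3, h4⟩
    · exact ⟨a + 1, h3, um, hum, by omega⟩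
    · exact ⟨a', h4, up, hup, by omega⟩

/-- neighbours of special sums are unit sums -/
lemma nbr (j : Fin 10) {n w : ℕ} (hw : w ∈ p.Cn n) :
    p.v j + w + 1 ∈ p.Un (n + 1) ∧ ∃ a, a + 1 = p.v j + w ∧ a ∈ p.Un (n + 1) := by
  have hvj := v_ge p j
  obtain ⟨up, hup, hup2⟩ := uv p j 1 (by omega)
  obtain ⟨um, hum, hum2⟩ := uv p j (-1) (by omega)
  refine ⟨⟨w, Cn_Un p hw, up, hup, by omega⟩, w + um, by omega, w, Cn_Un p hw, um, hum, rfl⟩

/-- below the threshold the special index is determined -/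
lemma spec_unique {j k : Fin 10} {n w w' : ℕ} (hn : n + 2 ≤ h) (hw : w ∈ p.Cn n)
    (hw' : w' ∈ p.Cn n) (he : p.v j + w = p.v k + w') : j = k := by
  by_contra hjk
  obtain ⟨ν, h1, rfl⟩ := Cn_rep p hw
  obtain ⟨ν', h1', rfl⟩ := Cn_rep p hw'
  have h2 := v_add p j
  have h3 := v_add p k
  exact p.huniq j k hjk ν ν' (by omega) (by omega) (by omega)

/-- at the position `As` only special sums occur -/
lemma at_As {n : ℕ} {S : Set (Fin 10)} (hT : Ty p n p.As S) : ∃ j, j ∈ S := by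
  have hg := p.hg
  have hA := p.hAs
  cases hT with
  | ct h1 =>
    exfalso
    have := Nat.mod_eq_zero_of_dvd (Cn_dvd p h1)
    omega
  | @ot n w _ _ j δ hδ hw ha =>
    exfalso
    have h1 := v_add p j
    obtain ⟨q, hq⟩ := Cn_dvd p hw
    obtain ⟨q', hq'⟩ := Dvd.dvd.mul_left (p.hgc j) (h - 1)
    have h2 : (((h - 1) * p.c j : ℕ) : ℤ) = δ + w := by omega
    rw [hq', hq] at h2
    push_cast at h2
    have h3 : (p.g : ℤ) ∣ δ := ⟨(q' : ℤ) - q, by linarith⟩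
    obtain ⟨z, hz⟩ := h3
    have hz1 : z = 0 ∨ 1 ≤ z ∨ z ≤ -1 := by omega
    rcases hz1 with rfl | hz1 | hz1
    · omega
    · have : (p.g : ℤ) ≤ p.g * z := by nlinarith
      omega
    · have : (p.g : ℤ) * z ≤ - p.g := by nlinarith
      omega
  | @st n w _ _ j hw ha hj => exact ⟨j, hj⟩
  | bt h1 h2 h3 => omega

end Pool.Agent.V117.Thr
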