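import Mathlib

/-! M-convex sets of integer vectors: exchange, symmetric exchange, sums. -/

namespace Pool.Agent.V117.MConv

variable {ι : Type*} [Fintype ι] [DecidableEq ι]

/-- move one unit from coordinate `i` to coordinate `j` -/
def mv (x : ι → ℤ) (i j : ι) : ι → ℤ := x - Pi.single i 1 + Pi.single j 1

omit [Fintype ι] in
lemma mv_apply (x : ι → ℤ) (i j l : ι) :
    mv x i j l = x l - (if l = i then 1 else 0) + (if l = j then 1 else 0) := by
  simp [mv, Pi.single_apply]

omit [Fintype ι] in
lemma mv_self (x : ι → ℤ) (i : ι) : mv x i i = x := by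
  ext l; rw [mv_apply]; ring

/-- the one sided exchange axiom -/
def Exc (B : Set (ι → ℤ)) : Prop :=
  ∀ x ∈ B, ∀ y ∈ B, ∀ i, y i < x i → ∃ j, x j < y j ∧ mv x i j ∈ B

/-- distance -/
def dst (x y : ι → ℤ) : ℕ := ∑ l, (x l - y l).natAbs

lemma dst_comm (x y : ι → ℤ) : dst x y = dst y x := by
  unfold dst
  refine Finset.sum_congr rfl fun l _ => ?_
  omega

lemma dst_mv_lt {x y : ι → ℤ} {i j : ι} (hi : y i < x i) (hj : x j < y j) :
    dst (mv x i j) y < dst x y := by
  have hij : i ≠ j := by rintro rfl; omega
  unfold dst
  apply Finset.sum_lt_sum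
  · intro l _
    rw [mv_apply]
    by_cases h1 : l = i
    · subst h1
      rw [if_pos rfl, if_neg hij]; omega
    · by_cases h2 : l = j
      · subst h2
        rw [if_neg h1, if_pos rfl]; omega
      · rw [if_neg h1, if_neg h2]; omega
  · refine ⟨i, Finset.mem_univ _, ?_⟩
    rw [mv_apply, if_pos rfl, if_neg hij]; omega

/-- The symmetric exchange property. -/
theorem symm_exc {B : Set (ι → ℤ)} (hB : Exc B) :
    ∀ N : ℕ, ∀ x ∈ B, ∀ y ∈ B, dst x y ≤ N → ∀ i, y i < x i →
      ∃ j, x j < y j ∧ mv x i j ∈ B ∧ mv y j i ∈ B := by
  intro N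
  induction N with
  | zero =>
    intro x _ y _ hd i hi
    exfalso
    have h1 : (x i - y i).natAbs ≤ dst x y :=
      Finset.single_le_sum (f := fun l => (x l - y l).natAbs) (fun _ _ => Nat.zero_le _)
        (Finset.mem_univ i)
    omega
  | succ N ih =>
    intro x hx y hy hd i hi
    by_contra hcon
    push Not at hcon
    obtain ⟨j0, hj0, hx'⟩ := hB x hx y hy i hi
    have hy0 := hcon j0 hj0 hx'
    have hij0 : i ≠ j0 := by rintro rfl; omega
    have hd' : dst (mv x i j0) y ≤ N := by
      have := dst_mv_lt hi hj0; omega
    by_cases hA : y i + 2 ≤ x i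
    · have h1 : y i < mv x i j0 i := by
        rw [mv_apply, if_pos rfl, if_neg hij0]; omega
      obtain ⟨j, hj, hxj, hyj⟩ := ih _ hx' y hy hd' i h1
      have hji : j ≠ i := by
        rintro rfl; omega
      have hj' : x j < y j := by
        rw [mv_apply, if_neg hji] at hj
        split_ifs at hj <;> omega
      have hxj' : mv x i j ∉ B := fun h => hcon j hj' h hyj
      apply hxj'
      -- exchange on `x'' , x`
      have h2 : x j0 < mv (mv x i j0) i j j0 := by
        rw [mv_apply, mv_apply, if_neg (Ne.symm hij0), if_pos rfl]
        split_ifs <;> omega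
      obtain ⟨l, hl, hmem⟩ := hB _ hxj x hx j0 h2
      have hli : l = i := by
        by_contra hne
        rw [mv_apply, mv_apply, if_neg hne] at hl
        split_ifs at hl <;> omega
      subst hli
      have e : mv (mv (mv x l j0) l j) j0 l = mv x l j := by
        ext q; simp only [mv_apply]; ring
      rw [e] at hmem
      exact hmem
    · have hxi : x i = y i + 1 := by omega
      by_cases hB1 : ∃ i1, i1 ≠ i ∧ y i1 < x i1
      · obtain ⟨i1, hi1, hlt1⟩ := hB1
        have hi1j0 : i1 ≠ j0 := by rintro rfl; omega
        -- first use of induction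
        have h1 : y i1 < mv x i j0 i1 := by
          rw [mv_apply, if_neg hi1, if_neg hi1j0]; omega
        obtain ⟨j1, hj1, hx'1, hy'⟩ := ih _ hx' y hy hd' i1 h1
        have hj1i : j1 ≠ i := by
          rintro rfl
          rw [mv_apply, if_pos rfl, if_neg hij0] at hj1; omega
        have hj1lt : x j1 < y j1 := by
          rw [mv_apply, if_neg hj1i] at hj1
          split_ifs at hj1 <;> omega
        have hj1i1 : j1 ≠ i1 := by rintro rfl; omega
        -- second use: (x, y')
        have hd2 : dst x (mv y j1 i1) ≤ N := by
          have := dst_mv_lt (x := y) (y := x) hj1lt hlt1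
          rw [dst_comm (mv y j1 i1) x, dst_comm y x] at this
          omega
        have h2 : mv y j1 i1 i < x i := by
          rw [mv_apply, if_neg (Ne.symm hj1i), if_neg (Ne.symm hi1)]; omega
        obtain ⟨j2, hj2, hx2, hy2⟩ := ih x hx _ hy' hd2 i h2
        have hj2i1 : j2 ≠ i1 := by
          rintro rfl
          rw [mv_apply, if_neg (Ne.symm hj1i1), if_pos rfl] at hj2; omega
        have hj2lt : x j2 < y j2 := by
          rw [mv_apply, if_neg hj2i1] at hj2
          split_ifs at hj2 <;> omega
        have hj2i : j2 ≠ i := by rintro rfl; omega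
        have hyj2 : mv y j2 i ∉ B := hcon j2 hj2lt hx2
        -- exchange (z, y) at i1
        have hyj1 : mv y j1 i ∈ B := by
          have h3 : y i1 < mv (mv y j1 i1) j2 i i1 := by
            rw [mv_apply, mv_apply, if_neg (Ne.symm hj2i1), if_neg hi1, if_neg (Ne.symm hj1i1),
              if_pos rfl]
            omega
          obtain ⟨l, hl, hmem⟩ := hB _ hy2 y hy i1 h3
          by_cases hl1 : l = j1
          · subst hl1
            exfalso
            apply hyj2
            have e : mv (mv (mv y l i1) j2 i) i1 l = mv y j2 i := by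
              ext q; simp only [mv_apply]; ring
            rw [e] at hmem; exact hmem
          · have hl2 : l = j2 := by
              by_contra hne
              rw [mv_apply, mv_apply, if_neg hne, if_neg hl1] at hl
              split_ifs at hl <;> omega
            subst hl2
            have e : mv (mv (mv y j1 i1) l i) i1 l = mv y j1 i := by
              ext q; simp only [mv_apply]; ring
            rw [e] at hmem; exact hmem
        have hxj1 : mv x i j1 ∉ B := fun h => hcon j1 hj1lt h hyj1
        -- exchange (w, x) at j0
        have hx1 : mv x i1 j1 ∈ B := by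
          have h3 : x j0 < mv (mv x i j0) i1 j1 j0 := by
            rw [mv_apply, mv_apply, if_neg (Ne.symm hi1j0), if_neg (Ne.symm hij0), if_pos rfl]
            split_ifs <;> omega
          obtain ⟨l, hl, hmem⟩ := hB _ hx'1 x hx j0 h3
          by_cases hl1 : l = i
          · subst hl1
            have e : mv (mv (mv x l j0) i1 j1) j0 l = mv x i1 j1 := by
              ext q; simp only [mv_apply]; ring
            rw [e] at hmem; exact hmem
          · have hl2 : l = i1 := by
              by_contra hne
              rw [mv_apply, mv_apply, if_neg hne, if_neg hl1] at hl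
              split_ifs at hl <;> omega
            subst hl2
            exfalso
            apply hxj1
            have e : mv (mv (mv x i j0) l j1) j0 l = mv x i j1 := by
              ext q; simp only [mv_apply]; ring
            rw [e] at hmem; exact hmem
        -- third use: (x1, y)
        have hd3 : dst (mv x i1 j1) y ≤ N := by
          have := dst_mv_lt hlt1 hj1lt; omega
        have h4 : y i < mv x i1 j1 i := by
          rw [mv_apply, if_neg (Ne.symm hi1), if_neg (Ne.symm hj1i)]; omega
        obtain ⟨j3, hj3, hx3, hy3⟩ := ih _ hx1 y hy hd3 i h4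
        have hj3i1 : j3 ≠ i1 := by
          rintro rfl
          rw [mv_apply, if_pos rfl, if_neg (Ne.symm hj1i1)] at hj3; omega
        have hj3lt : x j3 < y j3 := by
          rw [mv_apply, if_neg hj3i1] at hj3
          split_ifs at hj3 <;> omega
        have hj3i : j3 ≠ i := by rintro rfl; omega
        have hxj3 : mv x i j3 ∉ B := fun h => hcon j3 hj3lt h hy3
        have h5 : mv (mv x i1 j1) i j3 i < x i := by
          rw [mv_apply, mv_apply, if_pos rfl, if_neg (Ne.symm hj3i), if_neg (Ne.symm hi1),
            if_neg (Ne.symm hj1i)]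
          omega
        obtain ⟨l, hl, hmem⟩ := hB x hx _ hx3 i h5
        by_cases hl1 : l = j1
        · subst hl1; exact hxj1 hmem
        · by_cases hl2 : l = j3
          · subst hl2; exact hxj3 hmem
          · rw [mv_apply, mv_apply, if_neg hl1, if_neg hl2] at hl
            split_ifs at hl <;> omega
      · push Not at hB1
        -- `x' ≤ y`
        have hle : ∀ l, mv x i j0 l ≤ y l := by
          intro l
          rw [mv_apply]
          by_cases h1 : l = i
          · subst h1
            rw [if_pos rfl, if_neg hij0]; omega
          · by_cases h2 : l = j0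
            · subst h2
              rw [if_neg h1, if_pos rfl]; omega
            · rw [if_neg h1, if_neg h2]
              have := hB1 l h1; omega
        by_cases heq : mv x i j0 = y
        · apply hy0
          rw [← heq]
          have e : mv (mv x i j0) j0 i = x := by
            ext q; simp only [mv_apply]; ring
          rw [e]; exact hx
        · obtain ⟨l, hl⟩ := Function.ne_iff.mp heq
          have hlt : mv x i j0 l < y l := lt_of_le_of_ne (hle l) hl
          obtain ⟨j, hj, -⟩ := hB y hy _ hx' l hlt
          have := hle j
          omega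

theorem Exc.symm {B : Set (ι → ℤ)} (hB : Exc B) {x y : ι → ℤ} (hx : x ∈ B) (hy : y ∈ B) {i : ι}
    (hi : y i < x i) : ∃ j, x j < y j ∧ mv x i j ∈ B ∧ mv y j i ∈ B :=
  symm_exc hB _ x hx y hy le_rfl i hi

/-- Transitivity of the exchange relation at `x`. -/
theorem Exc.trans {B : Set (ι → ℤ)} (hB : Exc B) {x : ι → ℤ} (hx : x ∈ B) {u v w : ι}
    (h1 : mv x v u ∈ B) (h2 : mv x w v ∈ B) : mv x w u ∈ B := by
  by_cases huv : u = v
  · subst huv; exact h2
  by_cases hvw : v = w
  · subst hvw; exact h1
  by_cases huw : u = w
  · subst huw; rw [mv_self]; exact hx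
  have h3 : mv x w v w < mv x v u w := by
    rw [mv_apply, mv_apply, if_pos rfl, if_neg (Ne.symm hvw), if_neg (Ne.symm huw)]
    omega
  obtain ⟨l, hl, hmem⟩ := hB _ h1 _ h2 w h3
  have hlv : l = v := by
    by_contra hne
    rw [mv_apply, mv_apply, if_neg hne] at hl
    split_ifs at hl <;> omega
  subst hlv
  have e : mv (mv x l u) w l = mv x w u := by
    ext q; simp only [mv_apply]; ring
  rw [e] at hmem
  exact hmem

end Pool.Agent.V117.MConv
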