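import Mathlib
import Pool.Agent.V117.MConv1

/-! Sums of M-convex sets and the path lemma. -/

namespace Pool.Agent.V117.MConv

variable {ι : Type*} [Fintype ι] [DecidableEq ι]

/-- `m`-fold sums -/
def Sm (B : Set (ι → ℤ)) (m : ℕ) : Set (ι → ℤ) :=
  {x | ∃ b : Fin m → (ι → ℤ), (∀ t, b t ∈ B) ∧ ∑ t, b t = x}

lemma sum_update {m : ℕ} (b : Fin m → (ι → ℤ)) (t : Fin m) (i j : ι) :
    ∑ s, Function.update b t (mv (b t) i j) s = mv (∑ s, b s) i j := by
  rw [Finset.sum_update_of_mem (Finset.mem_univ t)]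
  have h1 : ∑ s, b s = b t + ∑ s ∈ Finset.univ \ {t}, b s := by
    rw [← Finset.sum_sdiff (Finset.subset_univ {t}), Finset.sum_singleton, add_comm]
  rw [h1]
  unfold mv
  abel

/-- total distance of two families -/
def tdst {m : ℕ} (b c : Fin m → (ι → ℤ)) : ℕ := ∑ t, dst (b t) (c t)

lemma tdst_update_lt {m : ℕ} {b c : Fin m → (ι → ℤ)} {t : Fin m} {i j : ι}
    (hi : c t i < b t i) (hj : b t j < c t j) :
    tdst (Function.update b t (mv (b t) i j)) c < tdst b c := by
  unfold tdst
  apply Finset.sum_lt_sum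
  · intro s _
    by_cases hs : s = t
    · subst hs
      rw [Function.update_self]
      exact (dst_mv_lt hi hj).le
    · rw [Function.update_of_ne hs]
  · exact ⟨t, Finset.mem_univ _, by rw [Function.update_self]; exact dst_mv_lt hi hj⟩

lemma exists_lt_of_sum_lt {m : ℕ} {b c : Fin m → (ι → ℤ)} {i : ι}
    (h : (∑ t, c t) i < (∑ t, b t) i) : ∃ t, c t i < b t i := by
  by_contra hcon
  push Not at hcon
  rw [Finset.sum_apply, Finset.sum_apply] at h
  exact absurd (Finset.sum_le_sum fun t _ => hcon t) (not_le.mpr h)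

theorem Exc.sm_aux {B : Set (ι → ℤ)} (hB : Exc B) (m : ℕ) :
    ∀ N : ℕ, ∀ b c : Fin m → (ι → ℤ), (∀ t, b t ∈ B) → (∀ t, c t ∈ B) → tdst b c ≤ N →
      ∀ i, (∑ t, c t) i < (∑ t, b t) i →
      ∃ j, (∑ t, b t) j < (∑ t, c t) j ∧ mv (∑ t, b t) i j ∈ Sm B m := by
  intro N
  induction N with
  | zero =>
    intro b c hb hc hd i hi
    obtain ⟨t, ht⟩ := exists_lt_of_sum_lt hi
    obtain ⟨j, hj, -⟩ := hB _ (hb t) _ (hc t) i ht
    have := tdst_update_lt ht hj
    omega
  | succ N ih =>
    intro b c hb hc hd i hi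
    obtain ⟨t, ht⟩ := exists_lt_of_sum_lt hi
    obtain ⟨j, hj, hmem⟩ := hB _ (hb t) _ (hc t) i ht
    have hlt := tdst_update_lt ht hj
    set b' := Function.update b t (mv (b t) i j) with hb'
    have hb'mem : ∀ s, b' s ∈ B := by
      intro s
      by_cases hs : s = t
      · subst hs; rw [hb', Function.update_self]; exact hmem
      · rw [hb', Function.update_of_ne hs]; exact hb s
    have hsum : ∑ s, b' s = mv (∑ s, b s) i j := sum_update b t i j
    have hij : i ≠ j := by rintro rfl; omega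
    by_cases hlt2 : (∑ t, b t) j < (∑ t, c t) j
    · exact ⟨j, hlt2, b', hb'mem, hsum⟩
    · have h1 : (∑ t, c t) j < (∑ t, b' t) j := by
        rw [hsum, mv_apply, if_neg (Ne.symm hij), if_pos rfl]; omega
      obtain ⟨l, hl, hlm⟩ := ih b' c hb'mem hc (by omega) j h1
      rw [hsum] at hl hlm
      have hlj : l ≠ j := by
        rintro rfl
        rw [mv_apply, if_neg (Ne.symm hij), if_pos rfl] at hl; omega
      have hli : l ≠ i := by
        rintro rfl
        rw [mv_apply, if_pos rfl, if_neg hij] at hl; omega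
      rw [mv_apply, if_neg hli, if_neg hlj] at hl
      refine ⟨l, by omega, ?_⟩
      have e : mv (mv (∑ s, b s) i j) j l = mv (∑ s, b s) i l := by
        ext q; simp only [mv_apply]; ring
      rw [e] at hlm
      exact hlm

theorem Exc.sm {B : Set (ι → ℤ)} (hB : Exc B) (m : ℕ) : Exc (Sm B m) := by
  rintro _ ⟨b, hb, rfl⟩ _ ⟨c, hc, rfl⟩ i hi
  exact hB.sm_aux m _ b c hb hc le_rfl i hi

/-- one step of exchange inside a member of the family with index in `T` -/
def Ed (B : Set (ι → ℤ)) {m : ℕ} (b : Fin m → (ι → ℤ)) (T : Finset (Fin m)) (p q : ι) : Prop :=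
  ∃ t ∈ T, mv (b t) q p ∈ B

theorem path {B : Set (ι → ℤ)} (hB : Exc B) (m : ℕ) (b : Fin m → (ι → ℤ)) (hb : ∀ t, b t ∈ B)
    (v : ι) :
    ∀ N : ℕ, ∀ c : Fin m → (ι → ℤ), (∀ t, c t ∈ B) → tdst b c ≤ N → ∀ u,
      ∑ t, c t = mv (∑ t, b t) v u →
      Relation.ReflTransGen (Ed B b Finset.univ) u v := by
  intro N
  induction N with
  | zero =>
    intro c hc hd u h
    by_cases huv : u = v
    · subst huv; exact Relation.ReflTransGen.refl
    · have h1 : (∑ t, b t) u < (∑ t, c t) u := by
        rw [h, mv_apply, if_neg huv, if_pos rfl]; omega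
      obtain ⟨t, ht⟩ := exists_lt_of_sum_lt h1
      obtain ⟨q, hq, h2, h3⟩ := hB.symm (hc t) (hb t) ht
      have := tdst_update_lt ht hq
      have e : tdst c b = tdst b c := by
        unfold tdst
        exact Finset.sum_congr rfl fun t _ => dst_comm _ _
      omega
  | succ N ih =>
    intro c hc hd u h
    by_cases huv : u = v
    · subst huv; exact Relation.ReflTransGen.refl
    · have h1 : (∑ t, b t) u < (∑ t, c t) u := by
        rw [h, mv_apply, if_neg huv, if_pos rfl]; omega
      obtain ⟨t, ht⟩ := exists_lt_of_sum_lt h1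
      obtain ⟨q, hq, h2, h3⟩ := hB.symm (hc t) (hb t) ht
      have hlt := tdst_update_lt ht hq
      have e : ∀ c' : Fin m → (ι → ℤ), tdst c' b = tdst b c' := by
        intro c'
        unfold tdst
        exact Finset.sum_congr rfl fun t _ => dst_comm _ _
      rw [e, e] at hlt
      refine Relation.ReflTransGen.head ⟨t, Finset.mem_univ _, h3⟩ ?_
      refine ih (Function.update c t (mv (c t) u q)) ?_ (by omega) q ?_
      · intro s
        by_cases hs : s = t
        · subst hs; rw [Function.update_self]; exact h2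
        · rw [Function.update_of_ne hs]; exact hc s
      · rw [sum_update, h]
        ext l; simp only [mv_apply]; ring

lemma exit {α : Type*} {r : α → α → Prop} {P : α → Prop} {a z : α}
    (h : Relation.ReflTransGen r a z) (ha : P a) (hz : ¬ P z) : ∃ p q, P p ∧ ¬ P q ∧ r p q := by
  induction h with
  | refl => exact absurd ha hz
  | @tail y w _ hyw ih =>
    by_cases hy : P y
    · exact ⟨y, w, hy, hz, hyw⟩
    · exact ih hy

lemma Ed.mono {B : Set (ι → ℤ)} {m : ℕ} {b : Fin m → (ι → ℤ)} {T T' : Finset (Fin m)}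
    (h : T ⊆ T') {p q : ι} (hpq : Ed B b T p q) : Ed B b T' p q := by
  obtain ⟨t, ht, h1⟩ := hpq
  exact ⟨t, h ht, h1⟩

theorem small_T {B : Set (ι → ℤ)} {m : ℕ} (b : Fin m → (ι → ℤ)) (F : Finset ι)
    (h : ∀ e ∈ F, ∃ j, j ∉ F ∧ Relation.ReflTransGen (Ed B b Finset.univ) e j) :
    ∀ N : ℕ, ∀ F' : Finset ι, ∀ T : Finset (Fin m), F' ⊆ F → (F \ F').card = N →
      T.card ≤ F'.card → (∀ e ∈ F', ∃ j, j ∉ F ∧ Relation.ReflTransGen (Ed B b T) e j) →
      ∃ T' : Finset (Fin m), T'.card ≤ F.card ∧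
        ∀ e ∈ F, ∃ j, j ∉ F ∧ Relation.ReflTransGen (Ed B b T') e j := by
  intro N
  induction N with
  | zero =>
    intro F' T hF' hN hT hreach
    have : F = F' := by
      rw [Finset.card_eq_zero, Finset.sdiff_eq_empty_iff_subset] at hN
      exact Finset.Subset.antisymm hN hF'
    subst this
    exact ⟨T, hT, hreach⟩
  | succ N ih =>
    intro F' T hF' hN hT hreach
    have hne : (F \ F').Nonempty := by
      rw [← Finset.card_pos]; omega
    obtain ⟨e0, he0⟩ := hne
    obtain ⟨j0, hj0, hpath⟩ := h e0 (Finset.mem_sdiff.mp he0).1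
    obtain ⟨p, q, hp, hq, t, -, htpq⟩ := exit (P := fun z => z ∈ F \ F') hpath he0
      (fun hz => hj0 (Finset.mem_sdiff.mp hz).1)
    have hpF := (Finset.mem_sdiff.mp hp).1
    have hpF' := (Finset.mem_sdiff.mp hp).2
    have hTT : T ⊆ insert t T := Finset.subset_insert _ _
    refine ih (insert p F') (insert t T) ?_ ?_ ?_ ?_
    · intro z hz
      rw [Finset.mem_insert] at hz
      rcases hz with rfl | hz
      · exact hpF
      · exact hF' hz
    · have e1 : F \ insert p F' = (F \ F').erase p := by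
        ext z
        simp only [Finset.mem_sdiff, Finset.mem_insert, Finset.mem_erase]
        tauto
      rw [e1, Finset.card_erase_of_mem hp, hN]
      rfl
    · rw [Finset.card_insert_of_notMem hpF']
      exact (Finset.card_insert_le _ _).trans (by omega)
    · intro e he
      rw [Finset.mem_insert] at he
      rcases he with rfl | he
      · by_cases hqF : q ∈ F
        · have hqF' : q ∈ F' := by
            by_contra hcon
            exact hq (Finset.mem_sdiff.mpr ⟨hqF, hcon⟩)
          obtain ⟨j, hj, hp2⟩ := hreach q hqF'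
          refine ⟨j, hj, Relation.ReflTransGen.head ⟨t, Finset.mem_insert_self _ _, htpq⟩ ?_⟩
          exact Relation.ReflTransGen.mono (fun _ _ hab => Ed.mono hTT hab) _ _ hp2
        · exact ⟨q, hqF, Relation.ReflTransGen.single ⟨t, Finset.mem_insert_self _ _, htpq⟩⟩
      · obtain ⟨j, hj, hp2⟩ := hreach e he
        exact ⟨j, hj, Relation.ReflTransGen.mono (fun _ _ hab => Ed.mono hTT hab) _ _ hp2⟩

/-- The key lemma: if every element of the small set `F` can be exchanged in a sum of `k + 1`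
members, then a member can be removed such that this is still possible. -/
theorem remove_one {B : Set (ι → ℤ)} (hB : Exc B) {k : ℕ} {x : ι → ℤ} (hx : x ∈ Sm B (k + 1))
    (F : Finset ι) (hF : F.card ≤ k)
    (h : ∀ e ∈ F, ∃ j, j ∉ F ∧ mv x j e ∈ Sm B (k + 1)) :
    ∃ b0 ∈ B, x - b0 ∈ Sm B k ∧ ∀ e ∈ F, ∃ j, j ∉ F ∧ mv (x - b0) j e ∈ Sm B k := by
  obtain ⟨b, hb, rfl⟩ := hx
  have h1 : ∀ e ∈ F, ∃ j, j ∉ F ∧ Relation.ReflTransGen (Ed B b Finset.univ) e j := by
    intro e he
    obtain ⟨j, hj, c, hc, hcs⟩ := h e he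
    exact ⟨j, hj, path hB _ b hb j _ c hc le_rfl e hcs⟩
  obtain ⟨T, hT, hreach⟩ := small_T b F h1 _ ∅ ∅ (Finset.empty_subset _) rfl (by simp) (by simp)
  obtain ⟨t0, ht0⟩ : ∃ t0, t0 ∉ T := by
    by_contra hcon
    push Not at hcon
    have : T = Finset.univ := Finset.eq_univ_iff_forall.mpr hcon
    rw [this, Finset.card_univ, Fintype.card_fin] at hT
    omega
  have hsum : ∑ t, b t = b t0 + ∑ s : Fin k, b (t0.succAbove s) := Fin.sum_univ_succAbove b t0
  have hx' : ∑ t, b t - b t0 = ∑ s : Fin k, b (t0.succAbove s) := by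
    rw [hsum]; abel
  have hmem : ∑ s : Fin k, b (t0.succAbove s) ∈ Sm B k := ⟨fun s => b (t0.succAbove s),
    fun s => hb _, rfl⟩
  refine ⟨b t0, hb t0, ?_, ?_⟩
  · rw [hx']; exact hmem
  · rw [hx']
    intro e he
    obtain ⟨j, hj, hpath⟩ := hreach e he
    have key : ∀ w, Relation.ReflTransGen (Ed B b T) e w →
        mv (∑ s : Fin k, b (t0.succAbove s)) w e ∈ Sm B k := by
      intro w hw
      induction hw with
      | refl => rw [mv_self]; exact hmem
      | @tail y w _ hyw ih =>
        obtain ⟨t, htT, ht⟩ := hyw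
        have hne : t ≠ t0 := by rintro rfl; exact ht0 htT
        obtain ⟨s, rfl⟩ := Fin.exists_succAbove_eq hne
        have h2 : mv (∑ s : Fin k, b (t0.succAbove s)) w y ∈ Sm B k := by
          refine ⟨Function.update (fun s => b (t0.succAbove s)) s
            (mv ((fun s => b (t0.succAbove s)) s) w y), ?_, sum_update _ _ _ _⟩
          intro q
          by_cases hq : q = s
          · subst hq; rw [Function.update_self]; exact ht
          · rw [Function.update_of_ne hq]; exact hb _
        exact (hB.sm k).trans hmem ih h2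
    exact ⟨j, hj, key j hpath⟩

end Pool.Agent.V117.MConv
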