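import Mathlib
import Pool.Agent.V117.MConv1
import Pool.Agent.V117.MConv2
import Pool.Agent.V117.MatHom

/-! The complexes attached to M-convex sets. -/

namespace Pool.Agent.V117.MConv

open Pool.Agent.V117.MatHom

set_option linter.unusedSectionVars false

variable {ι : Type*} [Fintype ι] [LinearOrder ι]

/-- Augmentation for independent vectors. -/
theorem vec_aug {D : Set (ι → ℤ)} (hD : Exc D) {s : ℤ} (hs : ∀ x ∈ D, ∑ l, x l = s) :
    ∀ N : ℕ, ∀ d ∈ D, ∀ f ∈ D, dst d f ≤ N → ∀ z w : ι → ℤ, (∀ l, z l ≤ d l) → (∀ l, w l ≤ f l) →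
      ∑ l, z l < ∑ l, w l →
      ∃ i, z i < w i ∧ ∃ g ∈ D, ∀ l, z l + (if l = i then 1 else 0) ≤ g l := by
  intro N
  induction N with
  | zero =>
    intro d hd f hf hdst z w hz hw hlt
    have heq : ∀ l, d l = f l := by
      intro l
      have h1 : (d l - f l).natAbs ≤ dst d f :=
        Finset.single_le_sum (f := fun l => (d l - f l).natAbs) (fun _ _ => Nat.zero_le _)
          (Finset.mem_univ l)
      omega
    obtain ⟨i, -, hi⟩ := Finset.exists_lt_of_sum_lt hlt
    refine ⟨i, hi, d, hd, fun l => ?_⟩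
    have h1 := hz l
    have h2 := hw l
    have h3 := heq l
    split_ifs with h
    · subst h; omega
    · omega
  | succ N ih =>
    intro d hd f hf hdst z w hz hw hlt
    by_cases h1 : ∃ i, z i < w i ∧ z i < d i
    · obtain ⟨i, hi1, hi2⟩ := h1
      refine ⟨i, hi1, d, hd, fun l => ?_⟩
      have := hz l
      split_ifs with h
      · subst h; omega
      · omega
    by_cases h2 : ∃ i, d i < f i ∧ w i < f i
    · obtain ⟨i, hi1, hi2⟩ := h2
      obtain ⟨j, hj, hmem⟩ := hD f hf d hd i hi1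
      have hlt' := dst_mv_lt hi1 hj
      rw [dst_comm f d, dst_comm _ d] at hlt'
      refine ih d hd _ hmem (by omega) z w hz (fun l => ?_) hlt
      have := hw l
      rw [mv_apply]
      by_cases h : l = i
      · subst h
        rw [if_pos rfl]
        split_ifs <;> omega
      · rw [if_neg h]
        split_ifs <;> omega
    by_cases h3 : ∃ i, f i < d i ∧ z i < d i
    · obtain ⟨i, hi1, hi2⟩ := h3
      obtain ⟨j, hj, hmem⟩ := hD d hd f hf i hi1
      have hlt' := dst_mv_lt hi1 hj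
      refine ih _ hmem f hf (by omega) z w (fun l => ?_) hw hlt
      have := hz l
      rw [mv_apply]
      by_cases h : l = i
      · subst h
        rw [if_pos rfl]
        split_ifs <;> omega
      · rw [if_neg h]
        split_ifs <;> omega
    exfalso
    push Not at h1 h2 h3
    have key : ∀ l, w l - z l ≤ f l - d l := by
      intro l
      have a1 := h1 l
      have a2 := h2 l
      have a3 := h3 l
      have a4 := hz l
      have a5 := hw l
      rcases lt_trichotomy (d l) (f l) with h | h | h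
      · have := a2 h
        have : z l < w l := by omega
        have := a1 this
        omega
      · by_contra hcon
        have : z l < w l := by omega
        have := a1 this
        omega
      · have := a3 h
        omega
    have h4 := Finset.sum_le_sum fun l (_ : l ∈ Finset.univ) => key l
    rw [Finset.sum_sub_distrib, Finset.sum_sub_distrib, hs d hd, hs f hf] at h4
    omega

/-- the indicator vector -/
def ind (F : Finset ι) : ι → ℤ := fun l => if l ∈ F then 1 else 0

lemma sum_ind (F : Finset ι) : ∑ l, ind F l = F.card := by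
  simp [ind]

/-- the complex at the degree `a` -/
def Kc (B : Set (ι → ℤ)) (a : ι → ℤ) : Set (Finset ι) :=
  {F | ∃ b ∈ B, ∀ l, b l + ind F l ≤ a l}

/-- the reflected set -/
def Rf (B : Set (ι → ℤ)) (a : ι → ℤ) : Set (ι → ℤ) := {x | a - x ∈ B ∧ ∀ l, 0 ≤ x l}

lemma Rf_exc {B : Set (ι → ℤ)} (hB : Exc B) (a : ι → ℤ) : Exc (Rf B a) := by
  rintro x ⟨hx, hx0⟩ y ⟨hy, hy0⟩ i hi
  have h1 : (a - x) i < (a - y) i := by simp only [Pi.sub_apply]; omega
  obtain ⟨j, hj, -, h3⟩ := hB.symm hy hx h1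
  simp only [Pi.sub_apply] at hj
  refine ⟨j, by omega, ?_, ?_⟩
  · have e : a - mv x i j = mv (a - x) j i := by
      ext l; simp only [mv_apply, Pi.sub_apply]; ring
    rw [e]; exact h3
  · intro l
    rw [mv_apply]
    have := hx0 l
    have := hy0 l
    split_ifs with h4 h5 h5
    · omega
    · subst h4; omega
    · omega
    · omega

lemma Rf_sum {B : Set (ι → ℤ)} {d : ℤ} (hd : ∀ x ∈ B, ∑ l, x l = d) (a : ι → ℤ) :
    ∀ x ∈ Rf B a, ∑ l, x l = ∑ l, a l - d := by
  rintro x ⟨hx, -⟩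
  have := hd _ hx
  simp only [Pi.sub_apply, Finset.sum_sub_distrib] at this
  omega

lemma mem_Kc_iff {B : Set (ι → ℤ)} {a : ι → ℤ} {F : Finset ι} :
    F ∈ Kc B a ↔ ∃ x ∈ Rf B a, ∀ l, ind F l ≤ x l := by
  constructor
  · rintro ⟨b, hb, h⟩
    refine ⟨a - b, ⟨by rwa [sub_sub_cancel], fun l => ?_⟩, fun l => ?_⟩
    · have := h l
      have h0 : 0 ≤ ind F l := by unfold ind; split_ifs <;> omega
      simp only [Pi.sub_apply]; omega
    · have := h l
      simp only [Pi.sub_apply]; omega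
  · rintro ⟨x, ⟨hx, -⟩, h⟩
    refine ⟨_, hx, fun l => ?_⟩
    have := h l
    simp only [Pi.sub_apply]; omega

lemma Kc_isMat {B : Set (ι → ℤ)} (hB : Exc B) {d : ℤ} (hd : ∀ x ∈ B, ∑ l, x l = d) (a : ι → ℤ) :
    IsMat (Kc B a) where
  down := by
    rintro F ⟨b, hb, h⟩ G hG
    refine ⟨b, hb, fun l => ?_⟩
    have h1 := h l
    unfold ind at h1 ⊢
    by_cases hl : l ∈ G
    · rw [if_pos (hG hl)] at h1
      rw [if_pos hl]; exact h1
    · rw [if_neg hl]
      split_ifs at h1 <;> omega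
  aug := by
    intro F hF G hG hlt
    rw [mem_Kc_iff] at hF hG
    obtain ⟨x, hx, hxF⟩ := hF
    obtain ⟨y, hy, hyG⟩ := hG
    obtain ⟨i, hi, g, hg, hgl⟩ := vec_aug (Rf_exc hB a) (Rf_sum hd a) _ x hx y hy le_rfl
      (ind F) (ind G) hxF hyG (by rw [sum_ind, sum_ind]; exact_mod_cast hlt)
    have hiF : i ∉ F := by
      intro h
      unfold ind at hi
      rw [if_pos h] at hi
      split_ifs at hi <;> omega
    have hiG : i ∈ G := by
      by_contra h
      unfold ind at hi
      rw [if_neg h] at hi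
      split_ifs at hi <;> omega
    refine ⟨i, hiG, hiF, ?_⟩
    rw [mem_Kc_iff]
    refine ⟨g, hg, fun l => ?_⟩
    have := hgl l
    unfold ind at this ⊢
    by_cases h1 : l = i
    · subst h1
      rw [if_pos (Finset.mem_insert_self _ _)]
      rw [if_neg hiF, if_pos rfl] at this
      omega
    · rw [if_neg h1] at this
      by_cases h2 : l ∈ F
      · rw [if_pos (Finset.mem_insert_of_mem h2)]
        rw [if_pos h2] at this
        omega
      · rw [if_neg (by rw [Finset.mem_insert, not_or]; exact ⟨h1, h2⟩)]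
        rw [if_neg h2] at this
        omega

/-- rank `i` and no coloop -/
def Top (B : Set (ι → ℤ)) (a : ι → ℤ) (i : ℕ) : Prop :=
  (∃ F ∈ Kc B a, F.card = i) ∧ (∀ F ∈ Kc B a, F.card ≤ i) ∧ ∀ e, ∃ F ∈ Kc B a, F.card = i ∧ e ∉ F

/-- combinatorial form -/
def Good (B : Set (ι → ℤ)) (a : ι → ℤ) (i : ℕ) : Prop :=
  (∃ F : Finset ι, F.card = i ∧ a - ind F ∈ B) ∧
    ∀ e, ∃ F : Finset ι, F.card = i ∧ a - ind F ∈ B ∧ e ∉ F

lemma Good.sum {B : Set (ι → ℤ)} {d : ℤ} (hd : ∀ x ∈ B, ∑ l, x l = d) {a : ι → ℤ} {i : ℕ}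
    (h : Good B a i) : ∑ l, a l = d + i := by
  obtain ⟨F, hF, hm⟩ := h.1
  have := hd _ hm
  simp only [Pi.sub_apply, Finset.sum_sub_distrib, sum_ind] at this
  omega

lemma Top.sum {B : Set (ι → ℤ)} (hB : Exc B) {d : ℤ} (hd : ∀ x ∈ B, ∑ l, x l = d) {a : ι → ℤ}
    {i : ℕ} (h : Top B a i) : ∑ l, a l = d + i := by
  obtain ⟨⟨F, hF, hFc⟩, hmax, hco⟩ := h
  have hF' := hF
  obtain ⟨b, hb, hbl⟩ := hF
  have h1 : d + i ≤ ∑ l, a l := by
    have := Finset.sum_le_sum fun l (_ : l ∈ Finset.univ) => hbl l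
    rw [Finset.sum_add_distrib, hd b hb, sum_ind, hFc] at this
    exact this
  by_contra hne
  have h2 : ∑ l, (b l + ind F l) < ∑ l, a l := by
    rw [Finset.sum_add_distrib, hd b hb, sum_ind, hFc]
    omega
  obtain ⟨j, -, hj⟩ := Finset.exists_lt_of_sum_lt h2
  by_cases hjF : j ∈ F
  · obtain ⟨F2, hF2, hF2c, hjF2⟩ := hco j
    rw [mem_Kc_iff] at hF2
    obtain ⟨x, hx, hxF⟩ := hF2
    have hy : a - b ∈ Rf B a := ⟨by rwa [sub_sub_cancel], fun l => by
      have := hbl l
      have h0 : 0 ≤ ind F l := by unfold ind; split_ifs <;> omega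
      simp only [Pi.sub_apply]; omega⟩
    obtain ⟨l, hl, g, hg, hgl⟩ := vec_aug (Rf_exc hB a) (Rf_sum hd a) _ x hx _ hy le_rfl
      (ind F2) (fun l => ind F l + if l = j then 1 else 0) hxF (fun l => by
        have := hbl l
        simp only [Pi.sub_apply]
        split_ifs with h
        · subst h; omega
        · omega) (by
        rw [Finset.sum_add_distrib, sum_ind, sum_ind, hFc, hF2c]
        simp)
    have hlF2 : l ∉ F2 := by
      intro h
      unfold ind at hl
      rw [if_pos h] at hl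
      by_cases hlj : l = j
      · subst hlj; exact hjF2 h
      · rw [if_neg hlj] at hl
        split_ifs at hl <;> omega
    have h3 : insert l F2 ∈ Kc B a := by
      rw [mem_Kc_iff]
      refine ⟨g, hg, fun q => ?_⟩
      have := hgl q
      unfold ind at this ⊢
      by_cases h1 : q = l
      · subst h1
        rw [if_pos (Finset.mem_insert_self _ _)]
        rw [if_neg hlF2, if_pos rfl] at this
        omega
      · rw [if_neg h1] at this
        by_cases h2 : q ∈ F2
        · rw [if_pos (Finset.mem_insert_of_mem h2)]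
          rw [if_pos h2] at this
          omega
        · rw [if_neg (by rw [Finset.mem_insert, not_or]; exact ⟨h1, h2⟩)]
          rw [if_neg h2] at this
          omega
    have h4 := hmax _ h3
    rw [Finset.card_insert_of_notMem hlF2] at h4
    omega
  · have h3 : insert j F ∈ Kc B a := by
      refine ⟨b, hb, fun q => ?_⟩
      have := hbl q
      unfold ind at this hj ⊢
      by_cases h1 : q = j
      · subst h1
        rw [if_pos (Finset.mem_insert_self _ _)]
        rw [if_neg hjF] at hj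
        omega
      · by_cases h2 : q ∈ F
        · rw [if_pos (Finset.mem_insert_of_mem h2)]
          rw [if_pos h2] at this
          omega
        · rw [if_neg (by rw [Finset.mem_insert, not_or]; exact ⟨h1, h2⟩)]
          rw [if_neg h2] at this
          omega
    have h4 := hmax _ h3
    rw [Finset.card_insert_of_notMem hjF] at h4
    omega

lemma eq_of_sum {B : Set (ι → ℤ)} {d : ℤ} (hd : ∀ x ∈ B, ∑ l, x l = d) {a : ι → ℤ} {i : ℕ}
    (ha : ∑ l, a l = d + i) {F : Finset ι} (hF : F ∈ Kc B a) (hc : F.card = i) :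
    a - ind F ∈ B := by
  obtain ⟨b, hb, hbl⟩ := hF
  have h1 : ∑ l, (b l + ind F l) = ∑ l, a l := by
    rw [Finset.sum_add_distrib, hd b hb, sum_ind, hc, ha]
  have h2 := (Finset.sum_eq_sum_iff_of_le (fun l _ => hbl l)).mp h1
  have : a - ind F = b := by
    ext l
    have := h2 l (Finset.mem_univ l)
    simp only [Pi.sub_apply]; omega
  rw [this]; exact hb

lemma mem_Kc_of {B : Set (ι → ℤ)} {a : ι → ℤ} {F : Finset ι} (h : a - ind F ∈ B) : F ∈ Kc B a :=
  ⟨_, h, fun l => by simp only [Pi.sub_apply]; omega⟩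

lemma card_le_of_sum {B : Set (ι → ℤ)} {d : ℤ} (hd : ∀ x ∈ B, ∑ l, x l = d) {a : ι → ℤ} {i : ℕ}
    (ha : ∑ l, a l = d + i) {F : Finset ι} (hF : F ∈ Kc B a) : F.card ≤ i := by
  obtain ⟨b, hb, hbl⟩ := hF
  have := Finset.sum_le_sum fun l (_ : l ∈ Finset.univ) => hbl l
  rw [Finset.sum_add_distrib, hd b hb, sum_ind, ha] at this
  omega

theorem top_iff_good {B : Set (ι → ℤ)} (hB : Exc B) {d : ℤ} (hd : ∀ x ∈ B, ∑ l, x l = d)
    {a : ι → ℤ} {i : ℕ} : Top B a i ↔ Good B a i := by
  constructor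
  · intro h
    have hs := h.sum hB hd
    obtain ⟨⟨F, hF, hFc⟩, hmax, hco⟩ := h
    refine ⟨⟨F, hFc, eq_of_sum hd hs hF hFc⟩, fun e => ?_⟩
    obtain ⟨F2, hF2, hF2c, he⟩ := hco e
    exact ⟨F2, hF2c, eq_of_sum hd hs hF2 hF2c, he⟩
  · intro h
    have hs := h.sum hd
    obtain ⟨⟨F, hFc, hF⟩, hco⟩ := h
    refine ⟨⟨F, mem_Kc_of hF, hFc⟩, fun G hG => card_le_of_sum hd hs hG, fun e => ?_⟩
    obtain ⟨F2, hF2c, hF2, he⟩ := hco e
    exact ⟨F2, mem_Kc_of hF2, hF2c, he⟩

/-- removing a generator -/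
theorem good_remove {B : Set (ι → ℤ)} (hB : Exc B) {k i : ℕ} (hik : i ≤ k) {a : ι → ℤ}
    (h : Good (Sm B (k + 1)) a i) : ∃ b ∈ B, Good (Sm B k) (a - b) i := by
  obtain ⟨⟨F, hFc, hF⟩, hco⟩ := h
  have hS := hB.sm (k + 1)
  have h1 : ∀ e ∈ F, ∃ j, j ∉ F ∧ mv (a - ind F) j e ∈ Sm B (k + 1) := by
    intro e he
    obtain ⟨F2, -, hF2, heF2⟩ := hco e
    have h2 : (a - ind F) e < (a - ind F2) e := by
      simp only [Pi.sub_apply, ind, if_pos he, if_neg heF2]; omega
    obtain ⟨j, hj, -, h3⟩ := hS.symm hF2 hF h2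
    refine ⟨j, ?_, h3⟩
    intro hjF
    simp only [Pi.sub_apply, ind, if_pos hjF] at hj
    split_ifs at hj <;> omega
  obtain ⟨b, hb, hx, hex⟩ := remove_one hB hF F (by omega) h1
  have e1 : a - b - ind F = a - ind F - b := by abel
  refine ⟨b, hb, ⟨F, hFc, by rw [e1]; exact hx⟩, fun e => ?_⟩
  by_cases he : e ∈ F
  · obtain ⟨j, hj, hm⟩ := hex e he
    have hje : j ≠ e := by rintro rfl; exact hj he
    refine ⟨insert j (F.erase e), ?_, ?_, ?_⟩
    · rw [Finset.card_insert_of_notMem (fun h => hj (Finset.mem_of_mem_erase h)),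
        Finset.card_erase_of_mem he]
      have : 0 < F.card := Finset.card_pos.mpr ⟨e, he⟩
      omega
    · have e2 : a - b - ind (insert j (F.erase e)) = mv (a - ind F - b) j e := by
        ext l
        simp only [mv_apply, Pi.sub_apply, ind, Finset.mem_insert, Finset.mem_erase]
        by_cases h1 : l = j
        · subst h1
          simp [hj, hje] <;> ring
        · by_cases h2 : l = e
          · subst h2
            simp [he, h1] <;> ring
          · simp [h1, h2] <;> ring
      rw [e2]; exact hm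
    · rw [Finset.mem_insert, not_or]
      exact ⟨fun h => hje h.symm, by simp⟩
  · exact ⟨F, hFc, by rw [e1]; exact hx, he⟩

lemma sm_add {B : Set (ι → ℤ)} {k : ℕ} {x b : ι → ℤ} (hx : x ∈ Sm B k) (hb : b ∈ B) :
    x + b ∈ Sm B (k + 1) := by
  obtain ⟨c, hc, rfl⟩ := hx
  refine ⟨Fin.snoc c b, fun t => ?_, ?_⟩
  · refine Fin.lastCases ?_ (fun s => ?_) t
    · rw [Fin.snoc_last]; exact hb
    · rw [Fin.snoc_castSucc]; exact hc s
  · rw [Fin.sum_univ_castSucc]
    simp

theorem good_add {B : Set (ι → ℤ)} {k i : ℕ} {a b : ι → ℤ} (h : Good (Sm B k) a i) (hb : b ∈ B) :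
    Good (Sm B (k + 1)) (a + b) i := by
  obtain ⟨⟨F, hFc, hF⟩, hco⟩ := h
  have e : ∀ F : Finset ι, a + b - ind F = a - ind F + b := fun F => by abel
  refine ⟨⟨F, hFc, by rw [e]; exact sm_add hF hb⟩, fun f => ?_⟩
  obtain ⟨F2, h1, h2, h3⟩ := hco f
  exact ⟨F2, h1, by rw [e]; exact sm_add h2 hb, h3⟩

end Pool.Agent.V117.MConv
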