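import Mathlib

open TensorProduct

set_option linter.unusedSimpArgs false

namespace LocHopf

/-- Five elements `l, m, v, d, f` of a ring satisfying the fifteen defining relations. -/
structure Sys (R : Type*) [Ring R] where
  l : R
  m : R
  v : R
  d : R
  f : R
  ml : m * l = l * m
  lv : l * v = v * l + d
  ld : l * d = d * l + f
  lf : l * f = f * l
  mv : m * v = v * m + d * l + d
  md : m * d = d * m + f * l + f
  mf : m * f = f * m
  vd : v * d = d * v + d * f + d * d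
  vf : v * f = f * v
  fd : f * d = d * f
  ff : f * f = 0
  l4 : l * (l * (l * l)) = 0
  m4 : m * (m * (m * m)) = 0
  d4 : d * (d * (d * d)) = 0
  v4 : v * (v * (v * v)) = d * (d * (d * f))

namespace Sys
variable {R : Type*} [Ring R] (s : Sys R) (x : R)
lemma ml' : s.m * (s.l * x) = s.l * (s.m * x) := by rw [← mul_assoc, s.ml, mul_assoc]
lemma lv' : s.l * (s.v * x) = s.v * (s.l * x) + s.d * x := by
  rw [← mul_assoc, s.lv, add_mul, mul_assoc]
lemma ld' : s.l * (s.d * x) = s.d * (s.l * x) + s.f * x := by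
  rw [← mul_assoc, s.ld, add_mul, mul_assoc]
lemma lf' : s.l * (s.f * x) = s.f * (s.l * x) := by rw [← mul_assoc, s.lf, mul_assoc]
lemma mv' : s.m * (s.v * x) = s.v * (s.m * x) + s.d * (s.l * x) + s.d * x := by
  rw [← mul_assoc, s.mv, add_mul, add_mul, mul_assoc, mul_assoc]
lemma md' : s.m * (s.d * x) = s.d * (s.m * x) + s.f * (s.l * x) + s.f * x := by
  rw [← mul_assoc, s.md, add_mul, add_mul, mul_assoc, mul_assoc]
lemma mf' : s.m * (s.f * x) = s.f * (s.m * x) := by rw [← mul_assoc, s.mf, mul_assoc]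
lemma vd' : s.v * (s.d * x) = s.d * (s.v * x) + s.d * (s.f * x) + s.d * (s.d * x) := by
  rw [← mul_assoc, s.vd, add_mul, add_mul, mul_assoc, mul_assoc, mul_assoc]
lemma vf' : s.v * (s.f * x) = s.f * (s.v * x) := by rw [← mul_assoc, s.vf, mul_assoc]
lemma fd' : s.f * (s.d * x) = s.d * (s.f * x) := by rw [← mul_assoc, s.fd, mul_assoc]
lemma ff' : s.f * (s.f * x) = 0 := by rw [← mul_assoc, s.ff, zero_mul]
lemma l4' : s.l * (s.l * (s.l * (s.l * x))) = 0 := by
  have := congrArg (· * x) s.l4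
  simpa [mul_assoc] using this
lemma m4' : s.m * (s.m * (s.m * (s.m * x))) = 0 := by
  have := congrArg (· * x) s.m4
  simpa [mul_assoc] using this
lemma d4' : s.d * (s.d * (s.d * (s.d * x))) = 0 := by
  have := congrArg (· * x) s.d4
  simpa [mul_assoc] using this
lemma v4' : s.v * (s.v * (s.v * (s.v * x))) = s.d * (s.d * (s.d * (s.f * x))) := by
  have := congrArg (· * x) s.v4
  simpa [mul_assoc] using this
end Sys

theorem two_fix {M : Type*} [AddCommGroup M] [Module (ZMod 2) M] {a b : M}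
    (h : (1 : ZMod 2) • a = (1 : ZMod 2) • b) : a = b := by simpa using h

section comul
variable {R : Type*} [Ring R] [Algebra (ZMod 2) R] (s : Sys R)

/-- images of the generators under the comultiplication -/
def cL : R ⊗[ZMod 2] R := s.l ⊗ₜ 1 + 1 ⊗ₜ s.l
def cM : R ⊗[ZMod 2] R := s.m ⊗ₜ 1 + 1 ⊗ₜ s.m + s.l ⊗ₜ s.l
def cF : R ⊗[ZMod 2] R := s.f ⊗ₜ 1 + 1 ⊗ₜ s.f
def cD : R ⊗[ZMod 2] R := s.d ⊗ₜ 1 + 1 ⊗ₜ s.d + s.l ⊗ₜ s.f
def cV : R ⊗[ZMod 2] R := s.v ⊗ₜ 1 + 1 ⊗ₜ s.v + s.l ⊗ₜ s.d + s.m ⊗ₜ s.f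

theorem c_ml : cM s * cL s = cL s * cM s := by
  simp only [cL, cV, cD, cM, cF, mul_add, add_mul, mul_assoc,
    Algebra.TensorProduct.tmul_mul_tmul, TensorProduct.tmul_add, TensorProduct.add_tmul, mul_one,
    one_mul, mul_zero, zero_mul, s.ml, s.lv, s.ld, s.lf, s.mv, s.md, s.mf, s.vd, s.vf, s.fd, s.ff, s.l4, s.m4, s.d4, s.v4,
    s.ml', s.lv', s.ld', s.lf', s.mv', s.md', s.mf', s.vd', s.vf', s.fd', s.ff', s.l4', s.m4',
    s.d4', s.v4', TensorProduct.tmul_zero, TensorProduct.zero_tmul, add_zero, zero_add]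
  first | rfl | done | exact two_fix (by match_scalars <;> decide)

theorem c_lv : cL s * cV s = cV s * cL s + cD s := by
  simp only [cL, cV, cD, cM, cF, mul_add, add_mul, mul_assoc,
    Algebra.TensorProduct.tmul_mul_tmul, TensorProduct.tmul_add, TensorProduct.add_tmul, mul_one,
    one_mul, mul_zero, zero_mul, s.ml, s.lv, s.ld, s.lf, s.mv, s.md, s.mf, s.vd, s.vf, s.fd, s.ff, s.l4, s.m4, s.d4, s.v4,
    s.ml', s.lv', s.ld', s.lf', s.mv', s.md', s.mf', s.vd', s.vf', s.fd', s.ff', s.l4', s.m4',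
    s.d4', s.v4', TensorProduct.tmul_zero, TensorProduct.zero_tmul, add_zero, zero_add]
  first | rfl | done | exact two_fix (by match_scalars <;> decide)

theorem c_ld : cL s * cD s = cD s * cL s + cF s := by
  simp only [cL, cV, cD, cM, cF, mul_add, add_mul, mul_assoc,
    Algebra.TensorProduct.tmul_mul_tmul, TensorProduct.tmul_add, TensorProduct.add_tmul, mul_one,
    one_mul, mul_zero, zero_mul, s.ml, s.lv, s.ld, s.lf, s.mv, s.md, s.mf, s.vd, s.vf, s.fd, s.ff, s.l4, s.m4, s.d4, s.v4,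
    s.ml', s.lv', s.ld', s.lf', s.mv', s.md', s.mf', s.vd', s.vf', s.fd', s.ff', s.l4', s.m4',
    s.d4', s.v4', TensorProduct.tmul_zero, TensorProduct.zero_tmul, add_zero, zero_add]
  first | rfl | done | exact two_fix (by match_scalars <;> decide)

theorem c_lf : cL s * cF s = cF s * cL s := by
  simp only [cL, cV, cD, cM, cF, mul_add, add_mul, mul_assoc,
    Algebra.TensorProduct.tmul_mul_tmul, TensorProduct.tmul_add, TensorProduct.add_tmul, mul_one,
    one_mul, mul_zero, zero_mul, s.ml, s.lv, s.ld, s.lf, s.mv, s.md, s.mf, s.vd, s.vf, s.fd, s.ff, s.l4, s.m4, s.d4, s.v4,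
    s.ml', s.lv', s.ld', s.lf', s.mv', s.md', s.mf', s.vd', s.vf', s.fd', s.ff', s.l4', s.m4',
    s.d4', s.v4', TensorProduct.tmul_zero, TensorProduct.zero_tmul, add_zero, zero_add]
  first | rfl | done | exact two_fix (by match_scalars <;> decide)

theorem c_mv : cM s * cV s = cV s * cM s + cD s * cL s + cD s := by
  simp only [cL, cV, cD, cM, cF, mul_add, add_mul, mul_assoc,
    Algebra.TensorProduct.tmul_mul_tmul, TensorProduct.tmul_add, TensorProduct.add_tmul, mul_one,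
    one_mul, mul_zero, zero_mul, s.ml, s.lv, s.ld, s.lf, s.mv, s.md, s.mf, s.vd, s.vf, s.fd, s.ff, s.l4, s.m4, s.d4, s.v4,
    s.ml', s.lv', s.ld', s.lf', s.mv', s.md', s.mf', s.vd', s.vf', s.fd', s.ff', s.l4', s.m4',
    s.d4', s.v4', TensorProduct.tmul_zero, TensorProduct.zero_tmul, add_zero, zero_add]
  first | rfl | done | exact two_fix (by match_scalars <;> decide)

theorem c_md : cM s * cD s = cD s * cM s + cF s * cL s + cF s := by
  simp only [cL, cV, cD, cM, cF, mul_add, add_mul, mul_assoc,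
    Algebra.TensorProduct.tmul_mul_tmul, TensorProduct.tmul_add, TensorProduct.add_tmul, mul_one,
    one_mul, mul_zero, zero_mul, s.ml, s.lv, s.ld, s.lf, s.mv, s.md, s.mf, s.vd, s.vf, s.fd, s.ff, s.l4, s.m4, s.d4, s.v4,
    s.ml', s.lv', s.ld', s.lf', s.mv', s.md', s.mf', s.vd', s.vf', s.fd', s.ff', s.l4', s.m4',
    s.d4', s.v4', TensorProduct.tmul_zero, TensorProduct.zero_tmul, add_zero, zero_add]
  first | rfl | done | exact two_fix (by match_scalars <;> decide)

theorem c_mf : cM s * cF s = cF s * cM s := by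
  simp only [cL, cV, cD, cM, cF, mul_add, add_mul, mul_assoc,
    Algebra.TensorProduct.tmul_mul_tmul, TensorProduct.tmul_add, TensorProduct.add_tmul, mul_one,
    one_mul, mul_zero, zero_mul, s.ml, s.lv, s.ld, s.lf, s.mv, s.md, s.mf, s.vd, s.vf, s.fd, s.ff, s.l4, s.m4, s.d4, s.v4,
    s.ml', s.lv', s.ld', s.lf', s.mv', s.md', s.mf', s.vd', s.vf', s.fd', s.ff', s.l4', s.m4',
    s.d4', s.v4', TensorProduct.tmul_zero, TensorProduct.zero_tmul, add_zero, zero_add]
  first | rfl | done | exact two_fix (by match_scalars <;> decide)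

theorem c_vd : cV s * cD s = cD s * cV s + cD s * cF s + cD s * cD s := by
  simp only [cL, cV, cD, cM, cF, mul_add, add_mul, mul_assoc,
    Algebra.TensorProduct.tmul_mul_tmul, TensorProduct.tmul_add, TensorProduct.add_tmul, mul_one,
    one_mul, mul_zero, zero_mul, s.ml, s.lv, s.ld, s.lf, s.mv, s.md, s.mf, s.vd, s.vf, s.fd, s.ff, s.l4, s.m4, s.d4, s.v4,
    s.ml', s.lv', s.ld', s.lf', s.mv', s.md', s.mf', s.vd', s.vf', s.fd', s.ff', s.l4', s.m4',
    s.d4', s.v4', TensorProduct.tmul_zero, TensorProduct.zero_tmul, add_zero, zero_add]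
  first | rfl | done | exact two_fix (by match_scalars <;> decide)

theorem c_vf : cV s * cF s = cF s * cV s := by
  simp only [cL, cV, cD, cM, cF, mul_add, add_mul, mul_assoc,
    Algebra.TensorProduct.tmul_mul_tmul, TensorProduct.tmul_add, TensorProduct.add_tmul, mul_one,
    one_mul, mul_zero, zero_mul, s.ml, s.lv, s.ld, s.lf, s.mv, s.md, s.mf, s.vd, s.vf, s.fd, s.ff, s.l4, s.m4, s.d4, s.v4,
    s.ml', s.lv', s.ld', s.lf', s.mv', s.md', s.mf', s.vd', s.vf', s.fd', s.ff', s.l4', s.m4',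
    s.d4', s.v4', TensorProduct.tmul_zero, TensorProduct.zero_tmul, add_zero, zero_add]
  first | rfl | done | exact two_fix (by match_scalars <;> decide)

theorem c_fd : cF s * cD s = cD s * cF s := by
  simp only [cL, cV, cD, cM, cF, mul_add, add_mul, mul_assoc,
    Algebra.TensorProduct.tmul_mul_tmul, TensorProduct.tmul_add, TensorProduct.add_tmul, mul_one,
    one_mul, mul_zero, zero_mul, s.ml, s.lv, s.ld, s.lf, s.mv, s.md, s.mf, s.vd, s.vf, s.fd, s.ff, s.l4, s.m4, s.d4, s.v4,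
    s.ml', s.lv', s.ld', s.lf', s.mv', s.md', s.mf', s.vd', s.vf', s.fd', s.ff', s.l4', s.m4',
    s.d4', s.v4', TensorProduct.tmul_zero, TensorProduct.zero_tmul, add_zero, zero_add]
  first | rfl | done | exact two_fix (by match_scalars <;> decide)

theorem c_ff : cF s * cF s = 0 := by
  simp only [cL, cV, cD, cM, cF, mul_add, add_mul, mul_assoc,
    Algebra.TensorProduct.tmul_mul_tmul, TensorProduct.tmul_add, TensorProduct.add_tmul, mul_one,
    one_mul, mul_zero, zero_mul, s.ml, s.lv, s.ld, s.lf, s.mv, s.md, s.mf, s.vd, s.vf, s.fd, s.ff, s.l4, s.m4, s.d4, s.v4,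
    s.ml', s.lv', s.ld', s.lf', s.mv', s.md', s.mf', s.vd', s.vf', s.fd', s.ff', s.l4', s.m4',
    s.d4', s.v4', TensorProduct.tmul_zero, TensorProduct.zero_tmul, add_zero, zero_add]
  first | rfl | done | exact two_fix (by match_scalars <;> decide)

theorem c_ll : cL s * cL s = (s.l * s.l) ⊗ₜ 1 + 1 ⊗ₜ (s.l * s.l) := by
  simp only [cL, cV, cD, cM, cF, mul_add, add_mul, mul_assoc,
    Algebra.TensorProduct.tmul_mul_tmul, TensorProduct.tmul_add, TensorProduct.add_tmul, mul_one,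
    one_mul, mul_zero, zero_mul, s.ml, s.lv, s.ld, s.lf, s.mv, s.md, s.mf, s.vd, s.vf, s.fd, s.ff, s.l4, s.m4, s.d4, s.v4,
    s.ml', s.lv', s.ld', s.lf', s.mv', s.md', s.mf', s.vd', s.vf', s.fd', s.ff', s.l4', s.m4',
    s.d4', s.v4', TensorProduct.tmul_zero, TensorProduct.zero_tmul, add_zero, zero_add]
  first | rfl | done | exact two_fix (by match_scalars <;> decide)

theorem c_df : cD s * cF s = (s.d * s.f) ⊗ₜ 1 + s.d ⊗ₜ s.f + s.f ⊗ₜ s.d + 1 ⊗ₜ (s.d * s.f) + (s.f * s.l) ⊗ₜ s.f := by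
  simp only [cL, cV, cD, cM, cF, mul_add, add_mul, mul_assoc,
    Algebra.TensorProduct.tmul_mul_tmul, TensorProduct.tmul_add, TensorProduct.add_tmul, mul_one,
    one_mul, mul_zero, zero_mul, s.ml, s.lv, s.ld, s.lf, s.mv, s.md, s.mf, s.vd, s.vf, s.fd, s.ff, s.l4, s.m4, s.d4, s.v4,
    s.ml', s.lv', s.ld', s.lf', s.mv', s.md', s.mf', s.vd', s.vf', s.fd', s.ff', s.l4', s.m4',
    s.d4', s.v4', TensorProduct.tmul_zero, TensorProduct.zero_tmul, add_zero, zero_add]
  first | rfl | done | exact two_fix (by match_scalars <;> decide)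

theorem c_mm : cM s * cM s = (s.m * s.m) ⊗ₜ 1 + 1 ⊗ₜ (s.m * s.m) + (s.l * s.l) ⊗ₜ (s.l * s.l) := by
  simp only [cL, cV, cD, cM, cF, mul_add, add_mul, mul_assoc,
    Algebra.TensorProduct.tmul_mul_tmul, TensorProduct.tmul_add, TensorProduct.add_tmul, mul_one,
    one_mul, mul_zero, zero_mul, s.ml, s.lv, s.ld, s.lf, s.mv, s.md, s.mf, s.vd, s.vf, s.fd, s.ff, s.l4, s.m4, s.d4, s.v4,
    s.ml', s.lv', s.ld', s.lf', s.mv', s.md', s.mf', s.vd', s.vf', s.fd', s.ff', s.l4', s.m4',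
    s.d4', s.v4', TensorProduct.tmul_zero, TensorProduct.zero_tmul, add_zero, zero_add]
  first | rfl | done | exact two_fix (by match_scalars <;> decide)

theorem c_dd : cD s * cD s = (s.d * s.d) ⊗ₜ 1 + 1 ⊗ₜ (s.d * s.d) + s.f ⊗ₜ s.f := by
  simp only [cL, cV, cD, cM, cF, mul_add, add_mul, mul_assoc,
    Algebra.TensorProduct.tmul_mul_tmul, TensorProduct.tmul_add, TensorProduct.add_tmul, mul_one,
    one_mul, mul_zero, zero_mul, s.ml, s.lv, s.ld, s.lf, s.mv, s.md, s.mf, s.vd, s.vf, s.fd, s.ff, s.l4, s.m4, s.d4, s.v4,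
    s.ml', s.lv', s.ld', s.lf', s.mv', s.md', s.mf', s.vd', s.vf', s.fd', s.ff', s.l4', s.m4',
    s.d4', s.v4', TensorProduct.tmul_zero, TensorProduct.zero_tmul, add_zero, zero_add]
  first | rfl | done | exact two_fix (by match_scalars <;> decide)

theorem c_vv : cV s * cV s = (s.v * s.v) ⊗ₜ 1 + 1 ⊗ₜ (s.v * s.v) + (s.l * s.l) ⊗ₜ (s.d * s.d) + s.d ⊗ₜ s.d + (s.d * s.l) ⊗ₜ s.f + s.d ⊗ₜ s.f + s.l ⊗ₜ (s.d * s.f) + s.l ⊗ₜ (s.d * s.d) := by
  simp only [cL, cV, cD, cM, cF, mul_add, add_mul, mul_assoc,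
    Algebra.TensorProduct.tmul_mul_tmul, TensorProduct.tmul_add, TensorProduct.add_tmul, mul_one,
    one_mul, mul_zero, zero_mul, s.ml, s.lv, s.ld, s.lf, s.mv, s.md, s.mf, s.vd, s.vf, s.fd, s.ff, s.l4, s.m4, s.d4, s.v4,
    s.ml', s.lv', s.ld', s.lf', s.mv', s.md', s.mf', s.vd', s.vf', s.fd', s.ff', s.l4', s.m4',
    s.d4', s.v4', TensorProduct.tmul_zero, TensorProduct.zero_tmul, add_zero, zero_add]
  first | rfl | done | exact two_fix (by match_scalars <;> decide)

theorem c_l4 : cL s * (cL s * (cL s * cL s)) = 0 := by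
  rw [← mul_assoc, c_ll]
  simp only [mul_add, add_mul, mul_assoc,
    Algebra.TensorProduct.tmul_mul_tmul, TensorProduct.tmul_add, TensorProduct.add_tmul, mul_one,
    one_mul, mul_zero, zero_mul, s.ml, s.lv, s.ld, s.lf, s.mv, s.md, s.mf, s.vd, s.vf, s.fd, s.ff, s.l4, s.m4, s.d4, s.v4,
    s.ml', s.lv', s.ld', s.lf', s.mv', s.md', s.mf', s.vd', s.vf', s.fd', s.ff', s.l4', s.m4',
    s.d4', s.v4', TensorProduct.tmul_zero, TensorProduct.zero_tmul, add_zero, zero_add]
  first | rfl | done | exact two_fix (by match_scalars <;> decide)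

theorem c_m4 : cM s * (cM s * (cM s * cM s)) = 0 := by
  rw [← mul_assoc, c_mm]
  simp only [mul_add, add_mul, mul_assoc,
    Algebra.TensorProduct.tmul_mul_tmul, TensorProduct.tmul_add, TensorProduct.add_tmul, mul_one,
    one_mul, mul_zero, zero_mul, s.ml, s.lv, s.ld, s.lf, s.mv, s.md, s.mf, s.vd, s.vf, s.fd, s.ff, s.l4, s.m4, s.d4, s.v4,
    s.ml', s.lv', s.ld', s.lf', s.mv', s.md', s.mf', s.vd', s.vf', s.fd', s.ff', s.l4', s.m4',
    s.d4', s.v4', TensorProduct.tmul_zero, TensorProduct.zero_tmul, add_zero, zero_add]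
  first | rfl | done | exact two_fix (by match_scalars <;> decide)

theorem c_d4 : cD s * (cD s * (cD s * cD s)) = 0 := by
  rw [← mul_assoc, c_dd]
  simp only [mul_add, add_mul, mul_assoc,
    Algebra.TensorProduct.tmul_mul_tmul, TensorProduct.tmul_add, TensorProduct.add_tmul, mul_one,
    one_mul, mul_zero, zero_mul, s.ml, s.lv, s.ld, s.lf, s.mv, s.md, s.mf, s.vd, s.vf, s.fd, s.ff, s.l4, s.m4, s.d4, s.v4,
    s.ml', s.lv', s.ld', s.lf', s.mv', s.md', s.mf', s.vd', s.vf', s.fd', s.ff', s.l4', s.m4',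
    s.d4', s.v4', TensorProduct.tmul_zero, TensorProduct.zero_tmul, add_zero, zero_add]
  first | rfl | done | exact two_fix (by match_scalars <;> decide)

theorem c_v4 : cV s * (cV s * (cV s * cV s)) = cD s * (cD s * (cD s * cF s)) := by
  rw [← mul_assoc, c_vv, ← mul_assoc (cD s) (cD s), c_dd, c_df]
  simp only [mul_add, add_mul, mul_assoc,
    Algebra.TensorProduct.tmul_mul_tmul, TensorProduct.tmul_add, TensorProduct.add_tmul, mul_one,
    one_mul, mul_zero, zero_mul, s.ml, s.lv, s.ld, s.lf, s.mv, s.md, s.mf, s.vd, s.vf, s.fd, s.ff, s.l4, s.m4, s.d4, s.v4,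
    s.ml', s.lv', s.ld', s.lf', s.mv', s.md', s.mf', s.vd', s.vf', s.fd', s.ff', s.l4', s.m4',
    s.d4', s.v4', TensorProduct.tmul_zero, TensorProduct.zero_tmul, add_zero, zero_add]
  first | rfl | done | exact two_fix (by match_scalars <;> decide)

/-- the comultiplied system -/
def comulSys : Sys (R ⊗[ZMod 2] R) where
  l := cL s
  m := cM s
  v := cV s
  d := cD s
  f := cF s
  ml := c_ml s
  lv := c_lv s
  ld := c_ld s
  lf := c_lf s
  mv := c_mv s
  md := c_md s
  mf := c_mf s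
  vd := c_vd s
  vf := c_vf s
  fd := c_fd s
  ff := c_ff s
  l4 := c_l4 s
  m4 := c_m4 s
  d4 := c_d4 s
  v4 := c_v4 s

end comul

end LocHopf
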