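import Mathlib
import Pool.Agent.V117.LocHopf

open TensorProduct

set_option linter.unusedSimpArgs false

namespace LocHopf

/-- the five generators -/
inductive Gen | l | m | v | d | f

/-- the free algebra on the generators -/
abbrev FA := FreeAlgebra (ZMod 2) Gen

/-- a generator in the free algebra -/
abbrev g (x : Gen) : FA := FreeAlgebra.ι (ZMod 2) x

open Gen in
/-- the defining relations -/
inductive Rel : FA → FA → Prop
  | ml : Rel (g m * g l) (g l * g m)
  | lv : Rel (g l * g v) (g v * g l + g d)
  | ld : Rel (g l * g d) (g d * g l + g f)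
  | lf : Rel (g l * g f) (g f * g l)
  | mv : Rel (g m * g v) (g v * g m + g d * g l + g d)
  | md : Rel (g m * g d) (g d * g m + g f * g l + g f)
  | mf : Rel (g m * g f) (g f * g m)
  | vd : Rel (g v * g d) (g d * g v + g d * g f + g d * g d)
  | vf : Rel (g v * g f) (g f * g v)
  | fd : Rel (g f * g d) (g d * g f)
  | ff : Rel (g f * g f) 0
  | l4 : Rel (g l * (g l * (g l * g l))) 0
  | m4 : Rel (g m * (g m * (g m * g m))) 0
  | d4 : Rel (g d * (g d * (g d * g d))) 0
  | v4 : Rel (g v * (g v * (g v * g v))) (g d * (g d * (g d * g f)))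

/-- The algebra with five generators and fifteen relations over the field with two elements. -/
def H := RingQuot Rel

noncomputable instance : Ring H := inferInstanceAs (Ring (RingQuot Rel))
noncomputable instance : Algebra (ZMod 2) H := inferInstanceAs (Algebra (ZMod 2) (RingQuot Rel))

/-- the quotient map -/
noncomputable def mk : FA →ₐ[ZMod 2] H := RingQuot.mkAlgHom (ZMod 2) Rel

/-- generators in `H` -/
noncomputable def q (x : Gen) : H := mk (g x)

theorem rel {a b : FA} (h : Rel a b) : mk a = mk b := RingQuot.mkAlgHom_rel (ZMod 2) h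

/-- the tautological system -/
noncomputable def sH : Sys H where
  l := q .l
  m := q .m
  v := q .v
  d := q .d
  f := q .f
  ml := by simpa only [q, map_mul, map_add, map_zero] using rel Rel.ml
  lv := by simpa only [q, map_mul, map_add, map_zero] using rel Rel.lv
  ld := by simpa only [q, map_mul, map_add, map_zero] using rel Rel.ld
  lf := by simpa only [q, map_mul, map_add, map_zero] using rel Rel.lf
  mv := by simpa only [q, map_mul, map_add, map_zero] using rel Rel.mv
  md := by simpa only [q, map_mul, map_add, map_zero] using rel Rel.md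
  mf := by simpa only [q, map_mul, map_add, map_zero] using rel Rel.mf
  vd := by simpa only [q, map_mul, map_add, map_zero] using rel Rel.vd
  vf := by simpa only [q, map_mul, map_add, map_zero] using rel Rel.vf
  fd := by simpa only [q, map_mul, map_add, map_zero] using rel Rel.fd
  ff := by simpa only [q, map_mul, map_add, map_zero] using rel Rel.ff
  l4 := by simpa only [q, map_mul, map_add, map_zero] using rel Rel.l4
  m4 := by simpa only [q, map_mul, map_add, map_zero] using rel Rel.m4
  d4 := by simpa only [q, map_mul, map_add, map_zero] using rel Rel.d4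
  v4 := by simpa only [q, map_mul, map_add, map_zero] using rel Rel.v4

variable {R : Type*} [Ring R] [Algebra (ZMod 2) R]

/-- the value of a system on a generator -/
def Sys.val (s : Sys R) : Gen → R
  | .l => s.l
  | .m => s.m
  | .v => s.v
  | .d => s.d
  | .f => s.f

/-- universal property -/
noncomputable def lift (s : Sys R) : H →ₐ[ZMod 2] R :=
  RingQuot.liftAlgHom (ZMod 2) ⟨FreeAlgebra.lift (ZMod 2) s.val, by
    intro a b h
    cases h <;>
      simp only [map_mul, map_add, map_zero, FreeAlgebra.lift_ι_apply, Sys.val]
    · exact s.ml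
    · exact s.lv
    · exact s.ld
    · exact s.lf
    · exact s.mv
    · exact s.md
    · exact s.mf
    · exact s.vd
    · exact s.vf
    · exact s.fd
    · exact s.ff
    · exact s.l4
    · exact s.m4
    · exact s.d4
    · exact s.v4⟩

theorem lift_q (s : Sys R) (x : Gen) : lift s (q x) = s.val x := by
  unfold lift q mk
  erw [RingQuot.liftAlgHom_mkAlgHom_apply]
  simp

theorem hom_ext {S : Type*} [Semiring S] [Algebra (ZMod 2) S] {φ ψ : H →ₐ[ZMod 2] S}
    (h : ∀ x, φ (q x) = ψ (q x)) : φ = ψ := by
  apply RingQuot.ringQuot_ext'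
  apply FreeAlgebra.hom_ext
  funext x
  exact h x

theorem adjoin_top : Algebra.adjoin (ZMod 2) (Set.range q) = ⊤ := by
  have h1 : Algebra.adjoin (ZMod 2) (Set.range (FreeAlgebra.ι (ZMod 2) : Gen → FA)) = ⊤ :=
    FreeAlgebra.adjoin_range_ι _ _
  have h2 : mk.range = ⊤ :=
    AlgHom.range_eq_top _ |>.2 (RingQuot.mkAlgHom_surjective _ _)
  rw [← h2, ← Algebra.map_top, ← h1, AlgHom.map_adjoin]
  congr 1
  ext y
  simp [q, Set.mem_image, Set.mem_range]

end LocHopf
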