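import Mathlib
import Pool.Agent.V117.LocHopf2

open TensorProduct

set_option linter.unusedSimpArgs false
set_option linter.unnecessarySeqFocus false
set_option linter.unusedSectionVars false
set_option linter.unreachableTactic false
set_option linter.unusedTactic false

namespace LocHopf

section anti
variable {R : Type*} [Ring R] [Algebra (ZMod 2) R] (s : Sys R)

/-- images of the generators under the antipode -/
def aL : R := s.l
def aM : R := s.m + s.l * s.l
def aF : R := s.f
def aD : R := s.d + s.l * s.f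
def aV : R := s.v + s.l * s.d + (s.m + s.l * s.l) * s.f

theorem a_ml : aL s * aM s = aM s * aL s := by
  simp only [aL, aM, aF, aD, aV, mul_add, add_mul, mul_assoc, mul_one,
    one_mul, mul_zero, zero_mul, s.ml, s.lv, s.ld, s.lf, s.mv, s.md, s.mf, s.vd, s.vf, s.fd, s.ff, s.l4, s.m4, s.d4, s.v4,
    s.ml', s.lv', s.ld', s.lf', s.mv', s.md', s.mf', s.vd', s.vf', s.fd', s.ff', s.l4', s.m4',
    s.d4', s.v4', add_zero, zero_add]
  first | rfl | done | exact two_fix (by match_scalars <;> decide)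

theorem a_lv : aV s * aL s = aL s * aV s + aD s := by
  simp only [aL, aM, aF, aD, aV, mul_add, add_mul, mul_assoc, mul_one,
    one_mul, mul_zero, zero_mul, s.ml, s.lv, s.ld, s.lf, s.mv, s.md, s.mf, s.vd, s.vf, s.fd, s.ff, s.l4, s.m4, s.d4, s.v4,
    s.ml', s.lv', s.ld', s.lf', s.mv', s.md', s.mf', s.vd', s.vf', s.fd', s.ff', s.l4', s.m4',
    s.d4', s.v4', add_zero, zero_add]
  first | rfl | done | exact two_fix (by match_scalars <;> decide)

theorem a_ld : aD s * aL s = aL s * aD s + aF s := by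
  simp only [aL, aM, aF, aD, aV, mul_add, add_mul, mul_assoc, mul_one,
    one_mul, mul_zero, zero_mul, s.ml, s.lv, s.ld, s.lf, s.mv, s.md, s.mf, s.vd, s.vf, s.fd, s.ff, s.l4, s.m4, s.d4, s.v4,
    s.ml', s.lv', s.ld', s.lf', s.mv', s.md', s.mf', s.vd', s.vf', s.fd', s.ff', s.l4', s.m4',
    s.d4', s.v4', add_zero, zero_add]
  first | rfl | done | exact two_fix (by match_scalars <;> decide)

theorem a_lf : aF s * aL s = aL s * aF s := by
  simp only [aL, aM, aF, aD, aV, mul_add, add_mul, mul_assoc, mul_one,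
    one_mul, mul_zero, zero_mul, s.ml, s.lv, s.ld, s.lf, s.mv, s.md, s.mf, s.vd, s.vf, s.fd, s.ff, s.l4, s.m4, s.d4, s.v4,
    s.ml', s.lv', s.ld', s.lf', s.mv', s.md', s.mf', s.vd', s.vf', s.fd', s.ff', s.l4', s.m4',
    s.d4', s.v4', add_zero, zero_add]
  first | rfl | done | exact two_fix (by match_scalars <;> decide)

theorem a_mv : aV s * aM s = aM s * aV s + aL s * aD s + aD s := by
  simp only [aL, aM, aF, aD, aV, mul_add, add_mul, mul_assoc, mul_one,
    one_mul, mul_zero, zero_mul, s.ml, s.lv, s.ld, s.lf, s.mv, s.md, s.mf, s.vd, s.vf, s.fd, s.ff, s.l4, s.m4, s.d4, s.v4,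
    s.ml', s.lv', s.ld', s.lf', s.mv', s.md', s.mf', s.vd', s.vf', s.fd', s.ff', s.l4', s.m4',
    s.d4', s.v4', add_zero, zero_add]
  first | rfl | done | exact two_fix (by match_scalars <;> decide)

theorem a_md : aD s * aM s = aM s * aD s + aL s * aF s + aF s := by
  simp only [aL, aM, aF, aD, aV, mul_add, add_mul, mul_assoc, mul_one,
    one_mul, mul_zero, zero_mul, s.ml, s.lv, s.ld, s.lf, s.mv, s.md, s.mf, s.vd, s.vf, s.fd, s.ff, s.l4, s.m4, s.d4, s.v4,
    s.ml', s.lv', s.ld', s.lf', s.mv', s.md', s.mf', s.vd', s.vf', s.fd', s.ff', s.l4', s.m4',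
    s.d4', s.v4', add_zero, zero_add]
  first | rfl | done | exact two_fix (by match_scalars <;> decide)

theorem a_mf : aF s * aM s = aM s * aF s := by
  simp only [aL, aM, aF, aD, aV, mul_add, add_mul, mul_assoc, mul_one,
    one_mul, mul_zero, zero_mul, s.ml, s.lv, s.ld, s.lf, s.mv, s.md, s.mf, s.vd, s.vf, s.fd, s.ff, s.l4, s.m4, s.d4, s.v4,
    s.ml', s.lv', s.ld', s.lf', s.mv', s.md', s.mf', s.vd', s.vf', s.fd', s.ff', s.l4', s.m4',
    s.d4', s.v4', add_zero, zero_add]
  first | rfl | done | exact two_fix (by match_scalars <;> decide)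

theorem a_vd : aD s * aV s = aV s * aD s + aF s * aD s + aD s * aD s := by
  simp only [aL, aM, aF, aD, aV, mul_add, add_mul, mul_assoc, mul_one,
    one_mul, mul_zero, zero_mul, s.ml, s.lv, s.ld, s.lf, s.mv, s.md, s.mf, s.vd, s.vf, s.fd, s.ff, s.l4, s.m4, s.d4, s.v4,
    s.ml', s.lv', s.ld', s.lf', s.mv', s.md', s.mf', s.vd', s.vf', s.fd', s.ff', s.l4', s.m4',
    s.d4', s.v4', add_zero, zero_add]
  first | rfl | done | exact two_fix (by match_scalars <;> decide)

theorem a_vf : aF s * aV s = aV s * aF s := by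
  simp only [aL, aM, aF, aD, aV, mul_add, add_mul, mul_assoc, mul_one,
    one_mul, mul_zero, zero_mul, s.ml, s.lv, s.ld, s.lf, s.mv, s.md, s.mf, s.vd, s.vf, s.fd, s.ff, s.l4, s.m4, s.d4, s.v4,
    s.ml', s.lv', s.ld', s.lf', s.mv', s.md', s.mf', s.vd', s.vf', s.fd', s.ff', s.l4', s.m4',
    s.d4', s.v4', add_zero, zero_add]
  first | rfl | done | exact two_fix (by match_scalars <;> decide)

theorem a_fd : aD s * aF s = aF s * aD s := by
  simp only [aL, aM, aF, aD, aV, mul_add, add_mul, mul_assoc, mul_one,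
    one_mul, mul_zero, zero_mul, s.ml, s.lv, s.ld, s.lf, s.mv, s.md, s.mf, s.vd, s.vf, s.fd, s.ff, s.l4, s.m4, s.d4, s.v4,
    s.ml', s.lv', s.ld', s.lf', s.mv', s.md', s.mf', s.vd', s.vf', s.fd', s.ff', s.l4', s.m4',
    s.d4', s.v4', add_zero, zero_add]
  first | rfl | done | exact two_fix (by match_scalars <;> decide)

theorem a_ff : aF s * aF s = 0 := by
  simp only [aL, aM, aF, aD, aV, mul_add, add_mul, mul_assoc, mul_one,
    one_mul, mul_zero, zero_mul, s.ml, s.lv, s.ld, s.lf, s.mv, s.md, s.mf, s.vd, s.vf, s.fd, s.ff, s.l4, s.m4, s.d4, s.v4,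
    s.ml', s.lv', s.ld', s.lf', s.mv', s.md', s.mf', s.vd', s.vf', s.fd', s.ff', s.l4', s.m4',
    s.d4', s.v4', add_zero, zero_add]
  first | rfl | done | exact two_fix (by match_scalars <;> decide)

theorem a_l4 : aL s * aL s * aL s * aL s = 0 := by
  simp only [aL, aM, aF, aD, aV, mul_add, add_mul, mul_assoc, mul_one,
    one_mul, mul_zero, zero_mul, s.ml, s.lv, s.ld, s.lf, s.mv, s.md, s.mf, s.vd, s.vf, s.fd, s.ff, s.l4, s.m4, s.d4, s.v4,
    s.ml', s.lv', s.ld', s.lf', s.mv', s.md', s.mf', s.vd', s.vf', s.fd', s.ff', s.l4', s.m4',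
    s.d4', s.v4', add_zero, zero_add]
  first | rfl | done | exact two_fix (by match_scalars <;> decide)

theorem a_m4 : aM s * aM s * aM s * aM s = 0 := by
  simp only [aL, aM, aF, aD, aV, mul_add, add_mul, mul_assoc, mul_one,
    one_mul, mul_zero, zero_mul, s.ml, s.lv, s.ld, s.lf, s.mv, s.md, s.mf, s.vd, s.vf, s.fd, s.ff, s.l4, s.m4, s.d4, s.v4,
    s.ml', s.lv', s.ld', s.lf', s.mv', s.md', s.mf', s.vd', s.vf', s.fd', s.ff', s.l4', s.m4',
    s.d4', s.v4', add_zero, zero_add]
  first | rfl | done | exact two_fix (by match_scalars <;> decide)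

theorem a_d4 : aD s * aD s * aD s * aD s = 0 := by
  simp only [aL, aM, aF, aD, aV, mul_add, add_mul, mul_assoc, mul_one,
    one_mul, mul_zero, zero_mul, s.ml, s.lv, s.ld, s.lf, s.mv, s.md, s.mf, s.vd, s.vf, s.fd, s.ff, s.l4, s.m4, s.d4, s.v4,
    s.ml', s.lv', s.ld', s.lf', s.mv', s.md', s.mf', s.vd', s.vf', s.fd', s.ff', s.l4', s.m4',
    s.d4', s.v4', add_zero, zero_add]
  first | rfl | done | exact two_fix (by match_scalars <;> decide)

theorem a_vv : aV s * aV s = s.v * s.v + s.d * s.f + s.d * (s.f * s.l) + s.d * s.d + s.d * (s.d * s.l) + s.d * (s.d * (s.l * s.l)) := by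
  simp only [aL, aM, aF, aD, aV, mul_add, add_mul, mul_assoc, mul_one,
    one_mul, mul_zero, zero_mul, s.ml, s.lv, s.ld, s.lf, s.mv, s.md, s.mf, s.vd, s.vf, s.fd, s.ff, s.l4, s.m4, s.d4, s.v4,
    s.ml', s.lv', s.ld', s.lf', s.mv', s.md', s.mf', s.vd', s.vf', s.fd', s.ff', s.l4', s.m4',
    s.d4', s.v4', add_zero, zero_add]
  first | rfl | done | exact two_fix (by match_scalars <;> decide)

theorem a_v4 : aV s * aV s * aV s * aV s = aF s * aD s * aD s * aD s := by
  rw [mul_assoc (aV s * aV s), a_vv]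
  simp only [aL, aM, aF, aD, aV, mul_add, add_mul, mul_assoc, mul_one,
    one_mul, mul_zero, zero_mul, s.ml, s.lv, s.ld, s.lf, s.mv, s.md, s.mf, s.vd, s.vf, s.fd, s.ff, s.l4, s.m4, s.d4, s.v4,
    s.ml', s.lv', s.ld', s.lf', s.mv', s.md', s.mf', s.vd', s.vf', s.fd', s.ff', s.l4', s.m4',
    s.d4', s.v4', add_zero, zero_add]
  first | rfl | done | exact two_fix (by match_scalars <;> decide)

open MulOpposite in
/-- the opposite system -/
def antiSys : Sys Rᵐᵒᵖ where
  l := op (aL s)
  m := op (aM s)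
  v := op (aV s)
  d := op (aD s)
  f := op (aF s)
  ml := by simp only [← op_mul, ← op_add, ← op_zero]; exact congrArg op (a_ml s)
  lv := by simp only [← op_mul, ← op_add, ← op_zero]; exact congrArg op (a_lv s)
  ld := by simp only [← op_mul, ← op_add, ← op_zero]; exact congrArg op (a_ld s)
  lf := by simp only [← op_mul, ← op_add, ← op_zero]; exact congrArg op (a_lf s)
  mv := by simp only [← op_mul, ← op_add, ← op_zero]; exact congrArg op (a_mv s)
  md := by simp only [← op_mul, ← op_add, ← op_zero]; exact congrArg op (a_md s)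
  mf := by simp only [← op_mul, ← op_add, ← op_zero]; exact congrArg op (a_mf s)
  vd := by simp only [← op_mul, ← op_add, ← op_zero]; exact congrArg op (a_vd s)
  vf := by simp only [← op_mul, ← op_add, ← op_zero]; exact congrArg op (a_vf s)
  fd := by simp only [← op_mul, ← op_add, ← op_zero]; exact congrArg op (a_fd s)
  ff := by simp only [← op_mul, ← op_add, ← op_zero]; exact congrArg op (a_ff s)
  l4 := by simp only [← op_mul, ← op_add, ← op_zero]; exact congrArg op (a_l4 s)
  m4 := by simp only [← op_mul, ← op_add, ← op_zero]; exact congrArg op (a_m4 s)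
  d4 := by simp only [← op_mul, ← op_add, ← op_zero]; exact congrArg op (a_d4 s)
  v4 := by simp only [← op_mul, ← op_add, ← op_zero]; exact congrArg op (a_v4 s)

end anti

end LocHopf
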