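import Mathlib
import Pool.Agent.V117.LocHopf3

open TensorProduct MulOpposite

set_option linter.unusedSimpArgs false

namespace LocHopf

/-- the zero system -/
def zeroSys : Sys (ZMod 2) where
  l := 0
  m := 0
  v := 0
  d := 0
  f := 0
  ml := by simp
  lv := by simp
  ld := by simp
  lf := by simp
  mv := by simp
  md := by simp
  mf := by simp
  vd := by simp
  vf := by simp
  fd := by simp
  ff := by simp
  l4 := by simp
  m4 := by simp
  d4 := by simp
  v4 := by simp

/-- comultiplication -/
noncomputable def comulH : H →ₐ[ZMod 2] H ⊗[ZMod 2] H := lift (comulSys sH)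

/-- counit -/
noncomputable def counitH : H →ₐ[ZMod 2] ZMod 2 := lift zeroSys

/-- antipode, as an algebra map into the opposite algebra -/
noncomputable def antiH : H →ₐ[ZMod 2] Hᵐᵒᵖ := lift (antiSys sH)

theorem comul_l : comulH (q .l) = q .l ⊗ₜ 1 + 1 ⊗ₜ q .l := lift_q _ _
theorem comul_m : comulH (q .m) = q .m ⊗ₜ 1 + 1 ⊗ₜ q .m + q .l ⊗ₜ q .l := lift_q _ _
theorem comul_f : comulH (q .f) = q .f ⊗ₜ 1 + 1 ⊗ₜ q .f := lift_q _ _
theorem comul_d : comulH (q .d) = q .d ⊗ₜ 1 + 1 ⊗ₜ q .d + q .l ⊗ₜ q .f := lift_q _ _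
theorem comul_v : comulH (q .v) = q .v ⊗ₜ 1 + 1 ⊗ₜ q .v + q .l ⊗ₜ q .d + q .m ⊗ₜ q .f :=
  lift_q _ _
theorem counit_q (x : Gen) : counitH (q x) = 0 := by
  rw [counitH, lift_q]; cases x <;> rfl

theorem anti_l : antiH (q .l) = op (q .l) := lift_q _ _
theorem anti_m : antiH (q .m) = op (q .m + q .l * q .l) := lift_q _ _
theorem anti_f : antiH (q .f) = op (q .f) := lift_q _ _
theorem anti_d : antiH (q .d) = op (q .d + q .l * q .f) := lift_q _ _
theorem anti_v : antiH (q .v) = op (q .v + q .l * q .d + (q .m + q .l * q .l) * q .f) :=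
  lift_q _ _

noncomputable instance : Bialgebra (ZMod 2) H :=
  Bialgebra.ofAlgHom comulH counitH
    (by
      apply hom_ext
      intro x
      cases x <;>
        simp [comul_l, comul_m, comul_d, comul_f, comul_v, TensorProduct.tmul_add,
          TensorProduct.add_tmul, Algebra.TensorProduct.one_def] <;> abel)
    (by
      apply hom_ext
      intro x
      cases x <;>
        simp [comul_m, comul_l, comul_d, comul_f, comul_v, counit_q])
    (by
      apply hom_ext
      intro x
      cases x <;>
        simp [comul_m, comul_l, comul_d, comul_f, comul_v, counit_q])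

end LocHopf
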