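import Mathlib
import Pool.Agent.V117.LocHopf4

open TensorProduct MulOpposite

set_option linter.unusedSimpArgs false

namespace LocHopf

theorem H_induction {p : H → Prop} (gen : ∀ x, p (q x))
    (alg : ∀ r : ZMod 2, p (algebraMap (ZMod 2) H r))
    (add : ∀ a b, p a → p b → p (a + b)) (mul : ∀ a b, p a → p b → p (a * b)) (h : H) : p h := by
  have hh : h ∈ Algebra.adjoin (ZMod 2) (Set.range q) := by rw [adjoin_top]; trivial
  refine Algebra.adjoin_induction (p := fun x _ => p x) ?_ alg ?_ ?_ hh
  · rintro x ⟨y, rfl⟩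
    exact gen y
  · intro a b _ _ ha hb
    exact add a b ha hb
  · intro a b _ _ ha hb
    exact mul a b ha hb

theorem comul_eq (x : H) : Coalgebra.comul (R := ZMod 2) x = comulH x := rfl
theorem counit_eq (x : H) : Coalgebra.counit (R := ZMod 2) x = counitH x := rfl

/-- the antipode -/
noncomputable def S : H →ₗ[ZMod 2] H :=
  (MulOpposite.opLinearEquiv (ZMod 2)).symm.toLinearMap ∘ₗ antiH.toLinearMap

theorem S_apply (x : H) : S x = unop (antiH x) := rfl
theorem S_mul (x y : H) : S (x * y) = S y * S x := by simp [S_apply]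
theorem S_alg (r : ZMod 2) : S (algebraMap (ZMod 2) H r) = algebraMap (ZMod 2) H r := by
  rw [S_apply, AlgHom.commutes]
  rfl
theorem S_one : S 1 = 1 := by simp [S_apply]

/-- `a ⊗ b ↦ S(a) b` -/
noncomputable def Φ : H ⊗[ZMod 2] H →ₗ[ZMod 2] H :=
  LinearMap.mul' (ZMod 2) H ∘ₗ S.rTensor H
/-- `a ⊗ b ↦ a S(b)` -/
noncomputable def Ψ : H ⊗[ZMod 2] H →ₗ[ZMod 2] H :=
  LinearMap.mul' (ZMod 2) H ∘ₗ S.lTensor H

theorem Φ_tmul (a b : H) : Φ (a ⊗ₜ b) = S a * b := by simp [Φ]
theorem Ψ_tmul (a b : H) : Ψ (a ⊗ₜ b) = a * S b := by simp [Ψ]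

theorem Φ_mul (t : H ⊗[ZMod 2] H) (c e : H) : Φ (t * (c ⊗ₜ e)) = S c * Φ t * e := by
  induction t with
  | zero => simp
  | tmul a b => simp [Φ_tmul, S_mul, mul_assoc]
  | add x y hx hy => simp [add_mul, mul_add, hx, hy]

theorem Ψ_mul (t : H ⊗[ZMod 2] H) (a b : H) : Ψ ((a ⊗ₜ b) * t) = a * Ψ t * S b := by
  induction t with
  | zero => simp
  | tmul a b => simp [Ψ_tmul, S_mul, mul_assoc]
  | add x y hx hy => simp [add_mul, mul_add, hx, hy]

theorem two_zero (x : H) : x + x = 0 :=
  two_fix (by match_scalars; decide)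

theorem Φ_comul (x : H) : Φ (comulH x) = algebraMap (ZMod 2) H (counitH x) := by
  induction x using H_induction with
  | gen x =>
    rw [counit_q]
    cases x
    · simp [comul_l, Φ_tmul, S_apply, anti_l, two_zero]
    · simp only [comul_m, map_add, Φ_tmul, S_apply, anti_m, anti_l, map_one, unop_one, unop_op,
        mul_one, one_mul, map_zero]
      exact two_fix (by match_scalars <;> decide)
    · simp only [comul_v, map_add, Φ_tmul, S_apply, anti_m, anti_l, anti_v, map_one, unop_one,
        unop_op, mul_one, one_mul, map_zero]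
      exact two_fix (by match_scalars <;> decide)
    · simp only [comul_d, map_add, Φ_tmul, S_apply, anti_d, anti_l, map_one, unop_one, unop_op,
        mul_one, one_mul, map_zero]
      exact two_fix (by match_scalars <;> decide)
    · simp [comul_f, Φ_tmul, S_apply, anti_f, two_zero]
  | alg r =>
    rw [AlgHom.commutes, AlgHom.commutes, Algebra.TensorProduct.algebraMap_apply, Φ_tmul, S_alg,
      mul_one]
    rfl
  | add a b ha hb => simp [ha, hb]
  | mul a b ha hb =>
    have key : ∀ u : H ⊗[ZMod 2] H, Φ (comulH a * u) = counitH a • Φ u := by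
      intro u
      induction u with
      | zero => simp
      | tmul c e => rw [Φ_mul, ha, Φ_tmul, Algebra.algebraMap_eq_smul_one]; simp
      | add x y hx hy => simp [mul_add, hx, hy]
    rw [map_mul, key, hb, map_mul, map_mul, Algebra.smul_def]

theorem Ψ_comul (x : H) : Ψ (comulH x) = algebraMap (ZMod 2) H (counitH x) := by
  induction x using H_induction with
  | gen x =>
    rw [counit_q]
    cases x
    · simp [comul_l, Ψ_tmul, S_apply, anti_l, two_zero]
    · simp only [comul_m, map_add, Ψ_tmul, S_apply, anti_m, anti_l, map_one, unop_one, unop_op,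
        mul_one, one_mul, map_zero]
      exact two_fix (by match_scalars <;> decide)
    · simp only [comul_v, map_add, Ψ_tmul, S_apply, anti_d, anti_m, anti_l, anti_v, anti_f,
        map_one, unop_one, unop_op, mul_one, one_mul, map_zero, add_mul, mul_add, mul_assoc]
      exact two_fix (by match_scalars <;> decide)
    · simp only [comul_d, map_add, Ψ_tmul, S_apply, anti_d, anti_l, anti_f, map_one, unop_one,
        unop_op, mul_one, one_mul, map_zero]
      exact two_fix (by match_scalars <;> decide)
    · simp [comul_f, Ψ_tmul, S_apply, anti_f, two_zero]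
  | alg r =>
    rw [AlgHom.commutes, AlgHom.commutes, Algebra.TensorProduct.algebraMap_apply, Ψ_tmul, S_one,
      mul_one]
    rfl
  | add a b ha hb => simp [ha, hb]
  | mul a b ha hb =>
    have key : ∀ u : H ⊗[ZMod 2] H, Ψ (u * comulH b) = counitH b • Ψ u := by
      intro u
      induction u with
      | zero => simp
      | tmul c e => rw [Ψ_mul, hb, Ψ_tmul, Algebra.algebraMap_eq_smul_one]; simp
      | add x y hx hy => simp [add_mul, hx, hy]
    rw [map_mul, key, ha, map_mul, map_mul, Algebra.smul_def, Algebra.commutes]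

noncomputable instance : HopfAlgebra (ZMod 2) H where
  antipode := S
  mul_antipode_rTensor_comul := by
    ext x
    exact Φ_comul x
  mul_antipode_lTensor_comul := by
    ext x
    exact Ψ_comul x

end LocHopf
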