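import Mathlib
import Pool.Agent.V117.LocHopf5

open TensorProduct MulOpposite

set_option linter.unusedSimpArgs false

namespace LocHopf

/-- the vector with bit pattern `w` -/
def vec (n w : ℕ) : Fin n → ZMod 2 := fun i => if w.testBit i then 1 else 0

/-- the exclusive or of the columns selected by `w` -/
def app (t : List ℕ) (w : ℕ) : ℕ → ℕ
  | 0 => 0
  | k + 1 => if w.testBit k then app t w k ^^^ t.getD k 0 else app t w k

/-- linear map with given columns -/
noncomputable def op' (n : ℕ) (t : List ℕ) : Module.End (ZMod 2) (Fin n → ZMod 2) :=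
  (Pi.basisFun (ZMod 2) (Fin n)).constr (ZMod 2) (fun j => vec n (t.getD j 0))

theorem vec_xor (n a b : ℕ) : vec n (a ^^^ b) = vec n a + vec n b := by
  funext i
  simp only [vec, Nat.testBit_xor, Pi.add_apply]
  cases a.testBit i <;> cases b.testBit i <;> decide

theorem vec_zero (n : ℕ) : vec n 0 = 0 := by
  funext i
  simp [vec]

theorem vec_app (n : ℕ) (t : List ℕ) (w k : ℕ) :
    vec n (app t w k) = ∑ j ∈ Finset.range k, if w.testBit j then vec n (t.getD j 0) else 0 := by
  induction k with
  | zero => simp [app, vec_zero]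
  | succ k ih =>
    rw [Finset.sum_range_succ, ← ih]
    simp only [app]
    split_ifs
    · rw [vec_xor]
    · simp

theorem op_single (n : ℕ) (t : List ℕ) (j : Fin n) :
    op' n t (Pi.basisFun (ZMod 2) (Fin n) j) = vec n (t.getD j 0) := by
  rw [op', Module.Basis.constr_basis]

theorem op_vec (n : ℕ) (t : List ℕ) (w : ℕ) : op' n t (vec n w) = vec n (app t w n) := by
  rw [op', Module.Basis.constr_apply_fintype, vec_app, Finset.sum_range]
  refine Finset.sum_congr rfl fun j _ => ?_
  simp only [Pi.basisFun_equivFun, LinearEquiv.refl_apply, vec]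
  split_ifs <;> simp

/-- table of columns -/
def tV : List ℕ := [2, 4, 8, 268435456, 32, 64, 128, 0, 70144, 140288, 280576, 557056, 1056768,
  2113536, 4227072, 8388608, 131072, 262144, 524288, 0, 2097152, 4194304, 8388608, 0, 301989888,
  603979776, 1207959552, 2147483648, 536870912, 1073741824, 2147483648, 0]
/-- table of columns -/
def tD : List ℕ := [256, 512, 1024, 2048, 4096, 8192, 16384, 32768, 65536, 131072, 262144,
  524288, 1048576, 2097152, 4194304, 8388608, 16777216, 33554432, 67108864, 134217728, 268435456,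
  536870912, 1073741824, 2147483648, 0, 0, 0, 0, 0, 0, 0, 0]
/-- table of columns -/
def tF : List ℕ := [16, 32, 64, 128, 0, 0, 0, 0, 4096, 8192, 16384, 32768, 0, 0, 0, 0, 1048576,
  2097152, 4194304, 8388608, 0, 0, 0, 0, 268435456, 536870912, 1073741824, 2147483648, 0, 0, 0, 0]
/-- table of columns -/
def tE : List ℕ := [0, 256, 69632, 1188864, 0, 4096, 1048576, 2113536, 16, 65568, 17825856,
  304349312, 0, 1048576, 268435456, 541065216, 0, 16777216, 268435456, 603979776, 0, 268435456, 0,
  1073741824, 1048576, 2097152, 4194304, 8388608, 0, 0, 0, 0]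
/-- table of columns -/
def tM : List ℕ := [0, 256, 4096, 16786432, 0, 4096, 0, 268451840, 16, 69664, 64, 278656, 0,
  1048576, 0, 4194304, 0, 16777216, 268435456, 603979776, 0, 268435456, 0, 1073741824, 1048576,
  270532608, 4194304, 1082130432, 0, 0, 0, 0]
/-- table of columns -/
def tX : List ℕ := [16, 32, 64, 128, 256, 512, 1024, 2048, 4096, 8192, 16384, 32768, 0, 0, 0, 0]
/-- table of columns -/
def tY : List ℕ := [2, 4, 8, 0, 32, 64, 128, 0, 512, 1024, 2048, 0, 8192, 16384, 32768, 0]

theorem end_ext {n : ℕ} {A B : Module.End (ZMod 2) (Fin n → ZMod 2)}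
    (h : ∀ j : Fin n, A (Pi.basisFun (ZMod 2) (Fin n) j) = B (Pi.basisFun (ZMod 2) (Fin n) j)) :
    A = B := (Pi.basisFun (ZMod 2) (Fin n)).ext h

theorem sysB_ml : ∀ j : Fin 32, (app tM (tE.getD j 0) 32) =
    app tE (tM.getD j 0) 32 := by decide +kernel
theorem sysB_lv : ∀ j : Fin 32, (app tE (tV.getD j 0) 32) =
    app tV (tE.getD j 0) 32 ^^^ tD.getD j 0 := by decide +kernel
theorem sysB_ld : ∀ j : Fin 32, (app tE (tD.getD j 0) 32) =
    app tD (tE.getD j 0) 32 ^^^ tF.getD j 0 := by decide +kernel
theorem sysB_lf : ∀ j : Fin 32, (app tE (tF.getD j 0) 32) =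
    app tF (tE.getD j 0) 32 := by decide +kernel
theorem sysB_mv : ∀ j : Fin 32, (app tM (tV.getD j 0) 32) =
    app tV (tM.getD j 0) 32 ^^^ app tD (tE.getD j 0) 32 ^^^ tD.getD j 0 := by decide +kernel
theorem sysB_md : ∀ j : Fin 32, (app tM (tD.getD j 0) 32) =
    app tD (tM.getD j 0) 32 ^^^ app tF (tE.getD j 0) 32 ^^^ tF.getD j 0 := by decide +kernel
theorem sysB_mf : ∀ j : Fin 32, (app tM (tF.getD j 0) 32) =
    app tF (tM.getD j 0) 32 := by decide +kernel
theorem sysB_vd : ∀ j : Fin 32, (app tV (tD.getD j 0) 32) =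
    app tD (tV.getD j 0) 32 ^^^ app tD (tF.getD j 0) 32 ^^^ app tD (tD.getD j 0) 32 := by decide +kernel
theorem sysB_vf : ∀ j : Fin 32, (app tV (tF.getD j 0) 32) =
    app tF (tV.getD j 0) 32 := by decide +kernel
theorem sysB_fd : ∀ j : Fin 32, (app tF (tD.getD j 0) 32) =
    app tD (tF.getD j 0) 32 := by decide +kernel
theorem sysB_ff : ∀ j : Fin 32, (app tF (tF.getD j 0) 32) =
    0 := by decide +kernel
theorem sysB_l4 : ∀ j : Fin 32, (app tE (app tE (app tE (tE.getD j 0) 32) 32) 32) =
    0 := by decide +kernel
theorem sysB_m4 : ∀ j : Fin 32, (app tM (app tM (app tM (tM.getD j 0) 32) 32) 32) =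
    0 := by decide +kernel
theorem sysB_d4 : ∀ j : Fin 32, (app tD (app tD (app tD (tD.getD j 0) 32) 32) 32) =
    0 := by decide +kernel
theorem sysB_v4 : ∀ j : Fin 32, (app tV (app tV (app tV (tV.getD j 0) 32) 32) 32) =
    app tD (app tD (app tD (tF.getD j 0) 32) 32) 32 := by decide +kernel

/-- a system of operators -/
noncomputable def sysB : Sys (Module.End (ZMod 2) (Fin 32 → ZMod 2)) where
  l := op' 32 tE
  m := op' 32 tM
  v := op' 32 tV
  d := op' 32 tD
  f := op' 32 tF
  ml := by
    refine end_ext fun j => ?_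
    simp only [Module.End.mul_apply, LinearMap.add_apply, LinearMap.zero_apply, op_single, op_vec,
      ← vec_xor, ← vec_zero]
    exact congrArg (vec 32) (sysB_ml j)
  lv := by
    refine end_ext fun j => ?_
    simp only [Module.End.mul_apply, LinearMap.add_apply, LinearMap.zero_apply, op_single, op_vec,
      ← vec_xor, ← vec_zero]
    exact congrArg (vec 32) (sysB_lv j)
  ld := by
    refine end_ext fun j => ?_
    simp only [Module.End.mul_apply, LinearMap.add_apply, LinearMap.zero_apply, op_single, op_vec,
      ← vec_xor, ← vec_zero]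
    exact congrArg (vec 32) (sysB_ld j)
  lf := by
    refine end_ext fun j => ?_
    simp only [Module.End.mul_apply, LinearMap.add_apply, LinearMap.zero_apply, op_single, op_vec,
      ← vec_xor, ← vec_zero]
    exact congrArg (vec 32) (sysB_lf j)
  mv := by
    refine end_ext fun j => ?_
    simp only [Module.End.mul_apply, LinearMap.add_apply, LinearMap.zero_apply, op_single, op_vec,
      ← vec_xor, ← vec_zero]
    exact congrArg (vec 32) (sysB_mv j)
  md := by
    refine end_ext fun j => ?_
    simp only [Module.End.mul_apply, LinearMap.add_apply, LinearMap.zero_apply, op_single, op_vec,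
      ← vec_xor, ← vec_zero]
    exact congrArg (vec 32) (sysB_md j)
  mf := by
    refine end_ext fun j => ?_
    simp only [Module.End.mul_apply, LinearMap.add_apply, LinearMap.zero_apply, op_single, op_vec,
      ← vec_xor, ← vec_zero]
    exact congrArg (vec 32) (sysB_mf j)
  vd := by
    refine end_ext fun j => ?_
    simp only [Module.End.mul_apply, LinearMap.add_apply, LinearMap.zero_apply, op_single, op_vec,
      ← vec_xor, ← vec_zero]
    exact congrArg (vec 32) (sysB_vd j)
  vf := by
    refine end_ext fun j => ?_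
    simp only [Module.End.mul_apply, LinearMap.add_apply, LinearMap.zero_apply, op_single, op_vec,
      ← vec_xor, ← vec_zero]
    exact congrArg (vec 32) (sysB_vf j)
  fd := by
    refine end_ext fun j => ?_
    simp only [Module.End.mul_apply, LinearMap.add_apply, LinearMap.zero_apply, op_single, op_vec,
      ← vec_xor, ← vec_zero]
    exact congrArg (vec 32) (sysB_fd j)
  ff := by
    refine end_ext fun j => ?_
    simp only [Module.End.mul_apply, LinearMap.add_apply, LinearMap.zero_apply, op_single, op_vec,
      ← vec_xor, ← vec_zero]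
    exact congrArg (vec 32) (sysB_ff j)
  l4 := by
    refine end_ext fun j => ?_
    simp only [Module.End.mul_apply, LinearMap.add_apply, LinearMap.zero_apply, op_single, op_vec,
      ← vec_xor, ← vec_zero]
    exact congrArg (vec 32) (sysB_l4 j)
  m4 := by
    refine end_ext fun j => ?_
    simp only [Module.End.mul_apply, LinearMap.add_apply, LinearMap.zero_apply, op_single, op_vec,
      ← vec_xor, ← vec_zero]
    exact congrArg (vec 32) (sysB_m4 j)
  d4 := by
    refine end_ext fun j => ?_
    simp only [Module.End.mul_apply, LinearMap.add_apply, LinearMap.zero_apply, op_single, op_vec,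
      ← vec_xor, ← vec_zero]
    exact congrArg (vec 32) (sysB_d4 j)
  v4 := by
    refine end_ext fun j => ?_
    simp only [Module.End.mul_apply, LinearMap.add_apply, LinearMap.zero_apply, op_single, op_vec,
      ← vec_xor, ← vec_zero]
    exact congrArg (vec 32) (sysB_v4 j)

end LocHopf
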