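import Mathlib
import Pool.Agent.V117.LocHopf6

open TensorProduct MulOpposite

set_option linter.unusedSimpArgs false
set_option linter.unusedSectionVars false
set_option linter.unreachableTactic false
set_option linter.unusedTactic false

namespace LocHopf

theorem sysC_ml : ∀ j : Fin 16, app tY (tX.getD j 0) 16 = app tX (tY.getD j 0) 16 := by
  decide +kernel
theorem sysC_l4 : ∀ j : Fin 16,
    app tX (app tX (app tX (tX.getD j 0) 16) 16) 16 = 0 := by decide +kernel
theorem sysC_m4 : ∀ j : Fin 16,
    app tY (app tY (app tY (tY.getD j 0) 16) 16) 16 = 0 := by decide +kernel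

/-- a second system of operators -/
noncomputable def sysC : Sys (Module.End (ZMod 2) (Fin 16 → ZMod 2)) where
  l := op' 16 tX
  m := op' 16 tY
  v := 0
  d := 0
  f := 0
  ml := by
    refine end_ext fun j => ?_
    simp only [Module.End.mul_apply, op_single, op_vec]
    exact congrArg (vec 16) (sysC_ml j)
  lv := by simp
  ld := by simp
  lf := by simp
  mv := by simp
  md := by simp
  mf := by simp
  vd := by simp
  vf := by simp
  fd := by simp
  ff := by simp
  l4 := by
    refine end_ext fun j => ?_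
    simp only [Module.End.mul_apply, LinearMap.zero_apply, op_single, op_vec, ← vec_zero]
    exact congrArg (vec 16) (sysC_l4 j)
  m4 := by
    refine end_ext fun j => ?_
    simp only [Module.End.mul_apply, LinearMap.zero_apply, op_single, op_vec, ← vec_zero]
    exact congrArg (vec 16) (sysC_m4 j)
  d4 := by simp
  v4 := by simp

section top
variable {R : Type*} [Ring R] [Algebra (ZMod 2) R] (s : Sys R)

/-- the monomial `d³ f v³ l³ m³` -/
def top : R := s.d * (s.d * (s.d * (s.f * (s.v * (s.v * (s.v *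
  (s.l * (s.l * (s.l * (s.m * (s.m * s.m)))))))))))

theorem l_top : s.l * top s = 0 := by
  simp only [top, mul_add, add_mul, mul_assoc, mul_one,
    one_mul, mul_zero, zero_mul, sub_self, sub_zero, s.ml, s.lv, s.ld, s.lf, s.mv, s.md, s.mf, s.vd, s.vf, s.fd, s.ff, s.l4, s.m4, s.d4, s.v4,
    s.ml', s.lv', s.ld', s.lf', s.mv', s.md', s.mf', s.vd', s.vf', s.fd', s.ff', s.l4', s.m4',
    s.d4', s.v4', add_zero, zero_add]
  first | rfl | done | exact two_fix (by match_scalars <;> decide)

theorem m_top : s.m * top s = 0 := by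
  simp only [top, mul_add, add_mul, mul_assoc, mul_one,
    one_mul, mul_zero, zero_mul, sub_self, sub_zero, s.ml, s.lv, s.ld, s.lf, s.mv, s.md, s.mf, s.vd, s.vf, s.fd, s.ff, s.l4, s.m4, s.d4, s.v4,
    s.ml', s.lv', s.ld', s.lf', s.mv', s.md', s.mf', s.vd', s.vf', s.fd', s.ff', s.l4', s.m4',
    s.d4', s.v4', add_zero, zero_add]
  first | rfl | done | exact two_fix (by match_scalars <;> decide)

theorem v_top : s.v * top s = 0 := by
  simp only [top, mul_add, add_mul, mul_assoc, mul_one,
    one_mul, mul_zero, zero_mul, sub_self, sub_zero, s.ml, s.lv, s.ld, s.lf, s.mv, s.md, s.mf, s.vd, s.vf, s.fd, s.ff, s.l4, s.m4, s.d4, s.v4,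
    s.ml', s.lv', s.ld', s.lf', s.mv', s.md', s.mf', s.vd', s.vf', s.fd', s.ff', s.l4', s.m4',
    s.d4', s.v4', add_zero, zero_add]
  first | rfl | done | exact two_fix (by match_scalars <;> decide)

theorem d_top : s.d * top s = 0 := by
  simp only [top, mul_add, add_mul, mul_assoc, mul_one,
    one_mul, mul_zero, zero_mul, sub_self, sub_zero, s.ml, s.lv, s.ld, s.lf, s.mv, s.md, s.mf, s.vd, s.vf, s.fd, s.ff, s.l4, s.m4, s.d4, s.v4,
    s.ml', s.lv', s.ld', s.lf', s.mv', s.md', s.mf', s.vd', s.vf', s.fd', s.ff', s.l4', s.m4',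
    s.d4', s.v4', add_zero, zero_add]
  first | rfl | done | exact two_fix (by match_scalars <;> decide)

theorem f_top : s.f * top s = 0 := by
  simp only [top, mul_add, add_mul, mul_assoc, mul_one,
    one_mul, mul_zero, zero_mul, sub_self, sub_zero, s.ml, s.lv, s.ld, s.lf, s.mv, s.md, s.mf, s.vd, s.vf, s.fd, s.ff, s.l4, s.m4, s.d4, s.v4,
    s.ml', s.lv', s.ld', s.lf', s.mv', s.md', s.mf', s.vd', s.vf', s.fd', s.ff', s.l4', s.m4',
    s.d4', s.v4', add_zero, zero_add]
  first | rfl | done | exact two_fix (by match_scalars <;> decide)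

/-- the polynomial `h` in `l` and `m` -/
def hh : R := s.l * s.m + s.l * (s.m * (s.m * s.m)) + s.l * s.l + s.l * (s.l * (s.m * s.m)) +
  s.l * (s.l * s.l) + s.l * (s.l * (s.l * (s.m * s.m))) +
  s.l * (s.l * (s.l * (s.m * (s.m * s.m))))

/-- the element whose commutator with `v` is the top monomial -/
def yy : R := s.d * (s.d * (s.d * (s.v * (s.v * (s.v * hh s)))))

theorem comm_top : s.v * yy s + yy s * s.v = top s := by
  simp only [yy, hh, top, mul_add, add_mul, mul_assoc, mul_one,
    one_mul, mul_zero, zero_mul, sub_self, sub_zero, s.ml, s.lv, s.ld, s.lf, s.mv, s.md, s.mf, s.vd, s.vf, s.fd, s.ff, s.l4, s.m4, s.d4, s.v4,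
    s.ml', s.lv', s.ld', s.lf', s.mv', s.md', s.mf', s.vd', s.vf', s.fd', s.ff', s.l4', s.m4',
    s.d4', s.v4', add_zero, zero_add]
  first | rfl | done | exact two_fix (by match_scalars <;> decide)

end top

end LocHopf
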