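import Mathlib
import Pool.Agent.V117.LocHopf7

open TensorProduct MulOpposite

set_option linter.unusedSimpArgs false

namespace LocHopf

/-- first space -/
abbrev V32 := Fin 32 → ZMod 2
/-- second space -/
abbrev V16 := Fin 16 → ZMod 2

/-- representation of `H` on the tensor product -/
noncomputable def rho : H →ₐ[ZMod 2] Module.End (ZMod 2) (V32 ⊗[ZMod 2] V16) :=
  ((Module.endTensorEndAlgHom (R := ZMod 2) (S := ZMod 2) (A := ZMod 2) (M := V32)
    (N := V16)).comp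
    (Algebra.TensorProduct.map (lift sysB) (lift sysC))).comp comulH

theorem eT (a : Module.End (ZMod 2) V32) (b : Module.End (ZMod 2) V16) (x : V32) (y : V16) :
    (Module.endTensorEndAlgHom (R := ZMod 2) (S := ZMod 2) (A := ZMod 2) (M := V32)
      (N := V16) (a ⊗ₜ b)) (x ⊗ₜ y) = (a x) ⊗ₜ (b y) := by
  rw [Module.endTensorEndAlgHom_apply]
  rfl

theorem rho_l (x : V32) (y : V16) : rho (q .l) (x ⊗ₜ y) =
    (sysB.l x) ⊗ₜ y + x ⊗ₜ (sysC.l y) := by
  simp [rho, comul_l, lift_q, Sys.val, eT]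

theorem rho_m (x : V32) (y : V16) : rho (q .m) (x ⊗ₜ y) =
    (sysB.m x) ⊗ₜ y + x ⊗ₜ (sysC.m y) + (sysB.l x) ⊗ₜ (sysC.l y) := by
  simp [rho, comul_m, lift_q, Sys.val, eT]

theorem rho_v (x : V32) (y : V16) : rho (q .v) (x ⊗ₜ y) = (sysB.v x) ⊗ₜ y := by
  simp [rho, comul_v, lift_q, Sys.val, eT, show sysC.v = 0 from rfl, show sysC.d = 0 from rfl,
    show sysC.f = 0 from rfl]

theorem rho_d (x : V32) (y : V16) : rho (q .d) (x ⊗ₜ y) = (sysB.d x) ⊗ₜ y := by
  simp [rho, comul_d, lift_q, Sys.val, eT, show sysC.v = 0 from rfl, show sysC.d = 0 from rfl,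
    show sysC.f = 0 from rfl]

theorem rho_f (x : V32) (y : V16) : rho (q .f) (x ⊗ₜ y) = (sysB.f x) ⊗ₜ y := by
  simp [rho, comul_f, lift_q, Sys.val, eT, show sysC.v = 0 from rfl, show sysC.d = 0 from rfl,
    show sysC.f = 0 from rfl]

theorem B_l0 : sysB.l (vec 32 1) = 0 := by
  show op' 32 tE (vec 32 1) = 0
  rw [op_vec, ← vec_zero]
  exact congrArg (vec 32) (by decide +kernel)

theorem B_m0 : sysB.m (vec 32 1) = 0 := by
  show op' 32 tM (vec 32 1) = 0
  rw [op_vec, ← vec_zero]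
  exact congrArg (vec 32) (by decide +kernel)

theorem rho_l0 (y : V16) : rho (q .l) (vec 32 1 ⊗ₜ y) = vec 32 1 ⊗ₜ (sysC.l y) := by
  rw [rho_l, B_l0]; simp

theorem rho_m0 (y : V16) : rho (q .m) (vec 32 1 ⊗ₜ y) = vec 32 1 ⊗ₜ (sysC.m y) := by
  rw [rho_m, B_l0, B_m0]; simp

theorem top_B : sysB.d (sysB.d (sysB.d (sysB.f (sysB.v (sysB.v (sysB.v (vec 32 1))))))) =
    vec 32 (2 ^ 31) := by
  show op' 32 tD (op' 32 tD (op' 32 tD (op' 32 tF (op' 32 tV (op' 32 tV (op' 32 tV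
    (vec 32 1))))))) = _
  simp only [op_vec]
  exact congrArg (vec 32) (by decide +kernel)

theorem top_C : sysC.l (sysC.l (sysC.l (sysC.m (sysC.m (sysC.m (vec 16 1)))))) =
    vec 16 (2 ^ 15) := by
  show op' 16 tX (op' 16 tX (op' 16 tX (op' 16 tY (op' 16 tY (op' 16 tY (vec 16 1)))))) = _
  simp only [op_vec]
  exact congrArg (vec 16) (by decide +kernel)

theorem rho_top : rho (top sH) (vec 32 1 ⊗ₜ vec 16 1) = vec 32 (2 ^ 31) ⊗ₜ vec 16 (2 ^ 15) := by
  have h : top sH = q .d * (q .d * (q .d * (q .f * (q .v * (q .v * (q .v *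
    (q .l * (q .l * (q .l * (q .m * (q .m * q .m))))))))))) := rfl
  rw [h]
  simp only [map_mul, Module.End.mul_apply, rho_l0, rho_m0, rho_v, rho_d, rho_f]
  rw [top_B, top_C]

theorem top_ne : top sH ≠ 0 := by
  intro h0
  have h1 := rho_top
  rw [h0, map_zero, LinearMap.zero_apply] at h1
  have h2 := congrArg (fun t => TensorProduct.lid (ZMod 2) (ZMod 2)
    (TensorProduct.map (LinearMap.proj (R := ZMod 2) (φ := fun _ : Fin 32 => ZMod 2) 31)
      (LinearMap.proj (R := ZMod 2) (φ := fun _ : Fin 16 => ZMod 2) 15) t)) h1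
  simp only [map_zero, TensorProduct.map_tmul, TensorProduct.lid_tmul, LinearMap.proj_apply,
    vec] at h2
  revert h2
  decide

end LocHopf
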