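import Mathlib
import Pool.Agent.V117.LocHopf8

open TensorProduct

namespace LocHopf

section step
variable {k A : Type*} [Field k] [Ring A] [Algebra k A]

theorem comm_all (s : Set A) (x : A) (hc : ∀ g ∈ s, x * g - g * x ∈ Algebra.adjoin k s)
    (a : A) (ha : a ∈ Algebra.adjoin k s) : x * a - a * x ∈ Algebra.adjoin k s := by
  induction ha using Algebra.adjoin_induction with
  | mem g hg => exact hc g hg
  | algebraMap r => rw [Algebra.commutes, sub_self]; exact zero_mem _
  | add a b _ _ ha hb =>
    have : x * (a + b) - (a + b) * x = (x * a - a * x) + (x * b - b * x) := by noncomm_ring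
    rw [this]; exact add_mem ha hb
  | mul a b ha' hb' ha hb =>
    have : x * (a * b) - a * b * x = (x * a - a * x) * b + a * (x * b - b * x) := by noncomm_ring
    rw [this]; exact add_mem (mul_mem ha hb') (mul_mem ha' hb)

theorem finite_step (s : Set A) (x : A) (n : ℕ) (hn : 0 < n)
    (hfin : Module.Finite k (Algebra.adjoin k s))
    (hc : ∀ g ∈ s, x * g - g * x ∈ Algebra.adjoin k s) (hp : x ^ n ∈ Algebra.adjoin k s) :
    Module.Finite k (Algebra.adjoin k (insert x s)) := by
  set K := Algebra.adjoin k s with hK
  let W : Submodule k A := ⨆ i : Fin n, (Subalgebra.toSubmodule K).map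
    (LinearMap.mulRight k (x ^ (i : ℕ)))
  have : Module.Finite k (Subalgebra.toSubmodule K) := hfin
  have hWf : Module.Finite k W := Submodule.finite_iSup _
  have hW : ∀ (i : ℕ) (hi : i < n) (c : A), c ∈ K → c * x ^ i ∈ W := by
    intro i hi c hcK
    refine Submodule.mem_iSup_of_mem (⟨i, hi⟩ : Fin n) ?_
    exact ⟨c, hcK, by simp⟩
  have hW' : ∀ (i : ℕ) (hi : i ≤ n) (c : A), c ∈ K → c * x ^ i ∈ W := by
    intro i hi c hcK
    rcases hi.lt_or_eq with h | h
    · exact hW i h c hcK
    · subst h
      have := hW 0 hn (c * x ^ i) (mul_mem hcK hp)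
      simpa using this
  have hmul : ∀ a ∈ Algebra.adjoin k (insert x s), ∀ w ∈ W, a * w ∈ W := by
    intro a ha
    induction ha using Algebra.adjoin_induction with
    | mem g hg =>
      intro w hw
      induction hw using Submodule.iSup_induction' with
      | mem i w hw =>
        obtain ⟨c, hcK, rfl⟩ := hw
        simp only [LinearMap.mulRight_apply]
        rcases Set.mem_insert_iff.mp hg with rfl | hg
        · have e : g * (c * g ^ (i : ℕ)) = c * g ^ ((i : ℕ) + 1) +
              (g * c - c * g) * g ^ (i : ℕ) := by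
            rw [pow_succ']; noncomm_ring
          rw [e]
          exact add_mem (hW' _ i.2 c hcK) (hW _ i.2 _ (comm_all s g hc c hcK))
        · rw [← mul_assoc]
          exact hW _ i.2 _ (mul_mem (Algebra.subset_adjoin hg) hcK)
      | zero => rw [mul_zero]; exact zero_mem _
      | add a b _ _ ha hb => rw [mul_add]; exact add_mem ha hb
    | algebraMap r =>
      intro w hw
      rw [← Algebra.smul_def]; exact W.smul_mem r hw
    | add a b _ _ ha hb => intro w hw; rw [add_mul]; exact add_mem (ha w hw) (hb w hw)
    | mul a b _ _ ha hb => intro w hw; rw [mul_assoc]; exact ha _ (hb w hw)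
  have h1 : (1 : A) ∈ W := by
    have := hW 0 hn 1 (one_mem _)
    simpa using this
  have hle : Subalgebra.toSubmodule (Algebra.adjoin k (insert x s)) ≤ W := by
    intro a ha
    have := hmul a ha 1 h1
    simpa using this
  exact Submodule.finiteDimensional_of_le hle

end step

theorem comm_mem {s : Set H} {a b c : H} (h : a * b = b * a + c)
    (hc : c ∈ Algebra.adjoin (ZMod 2) s) : a * b - b * a ∈ Algebra.adjoin (ZMod 2) s := by
  rw [h, add_sub_cancel_left]; exact hc

theorem comm_mem0 {s : Set H} {a b : H} (h : a * b = b * a) :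
    a * b - b * a ∈ Algebra.adjoin (ZMod 2) s := by
  rw [h, sub_self]; exact zero_mem _

theorem range_q : Set.range q = {q .m, q .l, q .v, q .d, q .f} := by
  ext x
  simp only [Set.mem_range, Set.mem_insert_iff, Set.mem_singleton_iff]
  constructor
  · rintro ⟨y, rfl⟩
    cases y <;> simp
  · rintro (rfl | rfl | rfl | rfl | rfl) <;> exact ⟨_, rfl⟩

theorem finite_H : Module.Finite (ZMod 2) H := by
  have f0 : Module.Finite (ZMod 2) (Algebra.adjoin (ZMod 2) (∅ : Set H)) := by
    rw [Algebra.adjoin_empty]
    infer_instance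
  have f1 : Module.Finite (ZMod 2) (Algebra.adjoin (ZMod 2) ({q .f} : Set H)) := by
    have := finite_step (k := ZMod 2) (∅ : Set H) (q .f) 2 (by norm_num) f0 (by simp)
      (by
        have : q .f ^ 2 = (0 : H) := by rw [pow_two]; exact sH.ff
        rw [this]; exact zero_mem _)
    rwa [LawfulSingleton.insert_empty_eq] at this
  have f2 : Module.Finite (ZMod 2) (Algebra.adjoin (ZMod 2) ({q .d, q .f} : Set H)) := by
    refine finite_step (k := ZMod 2) ({q .f} : Set H) (q .d) 4 (by norm_num) f1 ?_ ?_
    · intro g hg
      rw [Set.mem_singleton_iff] at hg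
      subst hg
      exact comm_mem0 sH.fd.symm
    · have : q .d ^ 4 = (0 : H) := by
        have := sH.d4
        rw [show q .d ^ 4 = q .d * (q .d * (q .d * q .d)) by noncomm_ring]
        exact this
      rw [this]; exact zero_mem _
  have f3 : Module.Finite (ZMod 2) (Algebra.adjoin (ZMod 2) ({q .v, q .d, q .f} : Set H)) := by
    have hd : q .d ∈ Algebra.adjoin (ZMod 2) ({q .d, q .f} : Set H) :=
      Algebra.subset_adjoin (by simp)
    have hf : q .f ∈ Algebra.adjoin (ZMod 2) ({q .d, q .f} : Set H) :=
      Algebra.subset_adjoin (by simp)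
    refine finite_step (k := ZMod 2) ({q .d, q .f} : Set H) (q .v) 4 (by norm_num) f2 ?_ ?_
    · intro g hg
      simp only [Set.mem_insert_iff, Set.mem_singleton_iff] at hg
      rcases hg with rfl | rfl
      · exact comm_mem (c := q .d * q .f + q .d * q .d) (by rw [← add_assoc]; exact sH.vd)
          (add_mem (mul_mem hd hf) (mul_mem hd hd))
      · exact comm_mem0 sH.vf
    · have : q .v ^ 4 = q .d * (q .d * (q .d * q .f)) := by
        have := sH.v4
        rw [show q .v ^ 4 = q .v * (q .v * (q .v * q .v)) by noncomm_ring]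
        exact this
      rw [this]
      exact mul_mem hd (mul_mem hd (mul_mem hd hf))
  have f4 : Module.Finite (ZMod 2)
      (Algebra.adjoin (ZMod 2) ({q .l, q .v, q .d, q .f} : Set H)) := by
    have hd : q .d ∈ Algebra.adjoin (ZMod 2) ({q .v, q .d, q .f} : Set H) :=
      Algebra.subset_adjoin (by simp)
    have hf : q .f ∈ Algebra.adjoin (ZMod 2) ({q .v, q .d, q .f} : Set H) :=
      Algebra.subset_adjoin (by simp)
    refine finite_step (k := ZMod 2) ({q .v, q .d, q .f} : Set H) (q .l) 4 (by norm_num) f3 ?_ ?_
    · intro g hg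
      simp only [Set.mem_insert_iff, Set.mem_singleton_iff] at hg
      rcases hg with rfl | rfl | rfl
      · exact comm_mem (c := q .d) sH.lv hd
      · exact comm_mem (c := q .f) sH.ld hf
      · exact comm_mem0 sH.lf
    · have : q .l ^ 4 = (0 : H) := by
        have := sH.l4
        rw [show q .l ^ 4 = q .l * (q .l * (q .l * q .l)) by noncomm_ring]
        exact this
      rw [this]; exact zero_mem _
  have f5 : Module.Finite (ZMod 2)
      (Algebra.adjoin (ZMod 2) ({q .m, q .l, q .v, q .d, q .f} : Set H)) := by
    have hd : q .d ∈ Algebra.adjoin (ZMod 2) ({q .l, q .v, q .d, q .f} : Set H) :=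
      Algebra.subset_adjoin (by simp)
    have hf : q .f ∈ Algebra.adjoin (ZMod 2) ({q .l, q .v, q .d, q .f} : Set H) :=
      Algebra.subset_adjoin (by simp)
    have hl : q .l ∈ Algebra.adjoin (ZMod 2) ({q .l, q .v, q .d, q .f} : Set H) :=
      Algebra.subset_adjoin (by simp)
    refine finite_step (k := ZMod 2) ({q .l, q .v, q .d, q .f} : Set H) (q .m) 4 (by norm_num)
      f4 ?_ ?_
    · intro g hg
      simp only [Set.mem_insert_iff, Set.mem_singleton_iff] at hg
      rcases hg with rfl | rfl | rfl | rfl
      · exact comm_mem0 sH.ml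
      · exact comm_mem (c := q .d * q .l + q .d) (by rw [← add_assoc]; exact sH.mv)
          (add_mem (mul_mem hd hl) hd)
      · exact comm_mem (c := q .f * q .l + q .f) (by rw [← add_assoc]; exact sH.md)
          (add_mem (mul_mem hf hl) hf)
      · exact comm_mem0 sH.mf
    · have : q .m ^ 4 = (0 : H) := by
        have := sH.m4
        rw [show q .m ^ 4 = q .m * (q .m * (q .m * q .m)) by noncomm_ring]
        exact this
      rw [this]; exact zero_mem _
  have e : Algebra.adjoin (ZMod 2) ({q .m, q .l, q .v, q .d, q .f} : Set H) = ⊤ := by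
    rw [← range_q, adjoin_top]
  rw [e] at f5
  exact Module.Finite.equiv (Subalgebra.topEquiv (R := ZMod 2) (A := H)).toLinearEquiv

end LocHopf
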