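import Mathlib
import Pool.Agent.V117.MConv1
import Pool.Agent.V117.MConv2
import Pool.Agent.V117.MConv3

/-! Minkowski sums, Dilworth truncation and integral closedness of M-convex sets. -/

namespace Pool.Agent.V117.MConv

set_option linter.unusedSectionVars false

variable {ι : Type*} [Fintype ι] [LinearOrder ι]

/-- Minkowski sum of two sets -/
def Mk (A B : Set (ι → ℤ)) : Set (ι → ℤ) := {z | ∃ x ∈ A, ∃ y ∈ B, x + y = z}

theorem mk_aux {A B : Set (ι → ℤ)} (hA : Exc A) (hB : Exc B) :
    ∀ N : ℕ, ∀ x ∈ A, ∀ y ∈ B, ∀ x' ∈ A, ∀ y' ∈ B, dst x x' + dst y y' ≤ N →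
      ∀ i, (x' + y') i < (x + y) i →
      ∃ j, (x + y) j < (x' + y') j ∧ mv (x + y) i j ∈ Mk A B := by
  intro N
  induction N with
  | zero =>
    intro x hx y hy x' hx' y' hy' hd i hi
    simp only [Pi.add_apply] at hi
    have h1 : x' i < x i ∨ y' i < y i := by omega
    rcases h1 with h1 | h1
    · obtain ⟨j, hj, -⟩ := hA x hx x' hx' i h1
      have := dst_mv_lt h1 hj
      omega
    · obtain ⟨j, hj, -⟩ := hB y hy y' hy' i h1
      have := dst_mv_lt h1 hj
      omega
  | succ N ih =>
    intro x hx y hy x' hx' y' hy' hd i hi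
    simp only [Pi.add_apply] at hi
    have key : ∀ x1 ∈ A, ∀ y1 ∈ B, ∀ j, i ≠ j → x1 + y1 = mv (x + y) i j →
        dst x1 x' + dst y1 y' ≤ N → ∃ j, (x + y) j < (x' + y') j ∧ mv (x + y) i j ∈ Mk A B := by
      intro x1 hx1 y1 hy1 j hij he hd1
      by_cases hlt : (x + y) j < (x' + y') j
      · exact ⟨j, hlt, x1, hx1, y1, hy1, he⟩
      · have h2 : (x' + y') j < (x1 + y1) j := by
          rw [he, mv_apply, if_neg (Ne.symm hij), if_pos rfl]; omega
        obtain ⟨l, hl, hm⟩ := ih x1 hx1 y1 hy1 x' hx' y' hy' hd1 j h2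
        rw [he] at hl hm
        have hlj : l ≠ j := by
          rintro rfl
          rw [mv_apply, if_neg (Ne.symm hij), if_pos rfl] at hl; omega
        have hli : l ≠ i := by
          rintro rfl
          rw [mv_apply, if_pos rfl, if_neg hij] at hl
          simp only [Pi.add_apply] at hl
          omega
        rw [mv_apply, if_neg hli, if_neg hlj] at hl
        refine ⟨l, by omega, ?_⟩
        have e : mv (mv (x + y) i j) j l = mv (x + y) i l := by
          ext q; simp only [mv_apply]; ring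
        rwa [e] at hm
    have h1 : x' i < x i ∨ y' i < y i := by omega
    rcases h1 with h1 | h1
    · obtain ⟨j, hj, hm⟩ := hA x hx x' hx' i h1
      have := dst_mv_lt h1 hj
      refine key _ hm y hy j (by rintro rfl; omega) ?_ (by omega)
      ext q; simp only [mv_apply, Pi.add_apply]; ring
    · obtain ⟨j, hj, hm⟩ := hB y hy y' hy' i h1
      have := dst_mv_lt h1 hj
      refine key x hx _ hm j (by rintro rfl; omega) ?_ (by omega)
      ext q; simp only [mv_apply, Pi.add_apply]; ring

theorem Exc.mk {A B : Set (ι → ℤ)} (hA : Exc A) (hB : Exc B) : Exc (Mk A B) := by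
  rintro _ ⟨x, hx, y, hy, rfl⟩ _ ⟨x', hx', y', hy', rfl⟩ i hi
  exact mk_aux hA hB _ x hx y hy x' hx' y' hy' le_rfl i hi

/-- indicator vectors of sets of size `r` -/
def Ur (r : ℕ) : Set (ι → ℤ) := {x | ∃ F : Finset ι, F.card = r ∧ x = ind F}

theorem Ur_exc (r : ℕ) : Exc (Ur r : Set (ι → ℤ)) := by
  rintro _ ⟨F, hF, rfl⟩ _ ⟨G, hG, rfl⟩ i hi
  have hiF : i ∈ F := by
    by_contra h
    unfold ind at hi
    rw [if_neg h] at hi
    split_ifs at hi <;> omega
  have hiG : i ∉ G := by
    intro h
    unfold ind at hi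
    rw [if_pos h] at hi
    split_ifs at hi; omega
  obtain ⟨j, hj⟩ : (G \ F).Nonempty := by
    rw [Finset.nonempty_iff_ne_empty, Ne, Finset.sdiff_eq_empty_iff_subset]
    intro hsub
    have : G = F := Finset.eq_of_subset_of_card_le hsub (by omega)
    subst this
    exact hiG hiF
  rw [Finset.mem_sdiff] at hj
  have hji : j ≠ i := by rintro rfl; exact hj.2 hiF
  refine ⟨j, ?_, insert j (F.erase i), ?_, ?_⟩
  · unfold ind
    rw [if_neg hj.2, if_pos hj.1]; omega
  · rw [Finset.card_insert_of_notMem (fun h => hj.2 (Finset.mem_of_mem_erase h)),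
      Finset.card_erase_of_mem hiF]
    have : 0 < F.card := Finset.card_pos.mpr ⟨i, hiF⟩
    omega
  · ext l
    rw [mv_apply]
    simp only [ind, Finset.mem_insert, Finset.mem_erase]
    by_cases h1 : l = j
    · subst h1
      simp [hj.2, hji]
    · by_cases h2 : l = i
      · subst h2
        simp [hiF, h1]
      · simp [h1, h2]

/-- `T` is tight at `x` -/
def Tt (P : Set (ι → ℤ)) (x : ι → ℤ) (T : Finset ι) : Prop := ∀ y ∈ P, ∑ l ∈ T, y l ≤ ∑ l ∈ T, x l

lemma sum_mv (T : Finset ι) (x : ι → ℤ) (i j : ι) :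
    ∑ l ∈ T, mv x i j l = ∑ l ∈ T, x l - (if i ∈ T then 1 else 0) + (if j ∈ T then 1 else 0) := by
  simp only [mv_apply]
  rw [Finset.sum_add_distrib, Finset.sum_sub_distrib, Finset.sum_ite_eq', Finset.sum_ite_eq']

lemma closed_of_tight {P : Set (ι → ℤ)} {x : ι → ℤ} {W : Finset ι} (h : Tt P x W) :
    ∀ l ∈ W, ∀ j, mv x j l ∈ P → j ∈ W := by
  intro l hl j hm
  have := h _ hm
  rw [sum_mv, if_pos hl] at this
  by_contra hj
  rw [if_neg hj] at this
  omega

lemma tight_of_closed {P : Set (ι → ℤ)} (hP : Exc P) {x : ι → ℤ} (hx : x ∈ P) {W : Finset ι}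
    (h : ∀ l ∈ W, ∀ j, mv x j l ∈ P → j ∈ W) : Tt P x W := by
  have key : ∀ N : ℕ, ∀ y ∈ P, dst y x ≤ N → ∑ l ∈ W, y l ≤ ∑ l ∈ W, x l := by
    intro N
    induction N with
    | zero =>
      intro y hy hd
      refine (Finset.sum_congr rfl fun l _ => ?_).le
      have h1 : (y l - x l).natAbs ≤ dst y x :=
        Finset.single_le_sum (f := fun l => (y l - x l).natAbs) (fun _ _ => Nat.zero_le _)
          (Finset.mem_univ l)
      omega
    | succ N ih =>
      intro y hy hd
      by_contra hcon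
      push Not at hcon
      obtain ⟨l, hl, hlt⟩ := Finset.exists_lt_of_sum_lt hcon
      obtain ⟨j, hj, hm1, hm2⟩ := hP.symm hy hx hlt
      have hjW := h l hl j hm2
      have h1 := dst_mv_lt hlt hj
      have h2 := ih _ hm1 (by omega)
      rw [sum_mv, if_pos hl, if_pos hjW] at h2
      omega
  intro y hy
  exact key _ y hy le_rfl

lemma tight_union {P : Set (ι → ℤ)} (hP : Exc P) {x : ι → ℤ} (hx : x ∈ P) {T T' : Finset ι}
    (hT : Tt P x T) (hT' : Tt P x T') : Tt P x (T ∪ T') := by
  apply tight_of_closed hP hx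
  intro l hl j hm
  rw [Finset.mem_union] at hl ⊢
  rcases hl with hl | hl
  · exact Or.inl (closed_of_tight hT l hl j hm)
  · exact Or.inr (closed_of_tight hT' l hl j hm)

/-- the truncation of `P` -/
def Dil (P : Set (ι → ℤ)) : Set (ι → ℤ) := {a | ∀ e, a + Pi.single e 1 ∈ P}

/-- tight sets for the truncation -/
def Dt (P : Set (ι → ℤ)) (a : ι → ℤ) (T : Finset ι) : Prop :=
  ∀ y ∈ P, ∑ l ∈ T, y l ≤ ∑ l ∈ T, a l + 1

lemma sum_single_add (T : Finset ι) (a : ι → ℤ) {e : ι} (he : e ∈ T) :
    ∑ l ∈ T, (a + Pi.single e 1 : ι → ℤ) l = ∑ l ∈ T, a l + 1 := by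
  simp only [Pi.add_apply, Finset.sum_add_distrib]
  congr 1
  simp only [Pi.single_apply]
  rw [Finset.sum_ite_eq', if_pos he]

lemma dt_union {P : Set (ι → ℤ)} (hP : Exc P) {a : ι → ℤ} (ha : a ∈ Dil P) {T T' : Finset ι}
    (hT : Dt P a T) (hT' : Dt P a T') {e : ι} (he : e ∈ T) (he' : e ∈ T') : Dt P a (T ∪ T') := by
  have h1 : Tt P (a + Pi.single e 1) T := by
    intro y hy
    rw [sum_single_add T a he]; exact hT y hy
  have h2 : Tt P (a + Pi.single e 1) T' := by
    intro y hy
    rw [sum_single_add T' a he']; exact hT' y hy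
  intro y hy
  have := tight_union hP (ha e) h1 h2 y hy
  rwa [sum_single_add _ a (Finset.mem_union_left _ he)] at this

/-- The truncation is M-convex. -/
theorem Dil_exc {P : Set (ι → ℤ)} (hP : Exc P) {s : ℤ} (hs : ∀ x ∈ P, ∑ l, x l = s) :
    Exc (Dil P) := by
  classical
  intro a ha a' ha' p hp
  by_contra hcon
  push Not at hcon
  -- tight sets separating
  have h1 : ∀ q, a q < a' q → ∃ T : Finset ι, Dt P a T ∧ q ∈ T ∧ p ∉ T := by
    intro q hq
    have h2 := hcon q hq
    have h3 : ¬ ∀ e, mv a p q + Pi.single e 1 ∈ P := h2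
    push Not at h3
    obtain ⟨e, he⟩ := h3
    have h4 : mv (a + Pi.single e 1) p q ∉ P := by
      have e1 : mv (a + Pi.single e 1) p q = mv a p q + Pi.single e 1 := by
        unfold mv; abel
      rw [e1]; exact he
    set W : Finset ι := Finset.univ.filter (fun t => mv (a + Pi.single e 1) t q ∈ P) with hW
    have hqW : q ∈ W := by
      rw [hW, Finset.mem_filter, mv_self]
      exact ⟨Finset.mem_univ _, ha e⟩
    have heW : e ∈ W := by
      rw [hW, Finset.mem_filter]
      refine ⟨Finset.mem_univ _, ?_⟩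
      have e1 : mv (a + Pi.single e 1) e q = a + Pi.single q 1 := by
        unfold mv; abel
      rw [e1]; exact ha q
    have hpW : p ∉ W := by
      rw [hW, Finset.mem_filter]
      exact fun h => h4 h.2
    have hT : Tt P (a + Pi.single e 1) W := by
      apply tight_of_closed hP (ha e)
      intro l hl j hm
      rw [hW, Finset.mem_filter] at hl ⊢
      exact ⟨Finset.mem_univ _, hP.trans (ha e) hl.2 hm⟩
    refine ⟨W, ?_, hqW, hpW⟩
    intro y hy
    have := hT y hy
    rwa [sum_single_add W a heW] at this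
  have h2 : ∀ q, a q < a' q → ∃ T : Finset ι, (Dt P a T ∧ q ∈ T ∧ p ∉ T) ∧
      ∀ T' : Finset ι, (Dt P a T' ∧ q ∈ T' ∧ p ∉ T') → T'.card ≤ T.card := by
    intro q hq
    have hne : (Finset.univ.filter (fun T : Finset ι => Dt P a T ∧ q ∈ T ∧ p ∉ T)).Nonempty := by
      obtain ⟨T, hT⟩ := h1 q hq
      exact ⟨T, by simpa using hT⟩
    obtain ⟨T, hT, hmax⟩ := Finset.exists_max_image _ (fun T : Finset ι => T.card) hne
    rw [Finset.mem_filter] at hT
    refine ⟨T, hT.2, fun T' hT' => hmax T' ?_⟩
    rw [Finset.mem_filter]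
    exact ⟨Finset.mem_univ _, hT'⟩
  choose! M hM hMmax using h2
  set Q : Finset ι := Finset.univ.filter (fun q => a q < a' q) with hQ
  have hQm : ∀ q, q ∈ Q ↔ a q < a' q := by intro q; simp [hQ]
  set 𝒯 : Finset (Finset ι) := Q.image M with h𝒯
  have hdisj : ((𝒯 : Set (Finset ι))).PairwiseDisjoint id := by
    intro T hT T' hT' hne
    rw [Finset.mem_coe, h𝒯, Finset.mem_image] at hT hT'
    obtain ⟨q, hq, rfl⟩ := hT
    obtain ⟨q', hq', rfl⟩ := hT'
    rw [hQm] at hq hq'
    simp only [Function.onFun, id]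
    rw [Finset.disjoint_left]
    intro e he he'
    apply hne
    obtain ⟨a1, a2, a3⟩ := hM q hq
    obtain ⟨b1, b2, b3⟩ := hM q' hq'
    have hu := dt_union hP ha a1 b1 he he'
    have hpu : p ∉ M q ∪ M q' := by
      rw [Finset.mem_union, not_or]; exact ⟨a3, b3⟩
    have c1 := hMmax q hq _ ⟨hu, Finset.mem_union_left _ a2, hpu⟩
    have c2 := hMmax q' hq' _ ⟨hu, Finset.mem_union_right _ b2, hpu⟩
    have d1 : M q = M q ∪ M q' := Finset.eq_of_subset_of_card_le Finset.subset_union_left c1
    have d2 : M q' = M q ∪ M q' := Finset.eq_of_subset_of_card_le Finset.subset_union_right c2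
    rw [d1, ← d2]
  set U : Finset ι := 𝒯.biUnion id with hU
  have hT1 : ∀ T ∈ 𝒯, ∑ l ∈ T, a' l ≤ ∑ l ∈ T, a l := by
    intro T hT
    rw [h𝒯, Finset.mem_image] at hT
    obtain ⟨q, hq, rfl⟩ := hT
    rw [hQm] at hq
    obtain ⟨a1, a2, -⟩ := hM q hq
    have := a1 _ (ha' q)
    rw [sum_single_add _ a' a2] at this
    omega
  have hUle : ∑ l ∈ U, a' l ≤ ∑ l ∈ U, a l := by
    rw [hU, Finset.sum_biUnion hdisj, Finset.sum_biUnion hdisj]
    exact Finset.sum_le_sum hT1
  have hpU : p ∉ U := by
    rw [hU, Finset.mem_biUnion]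
    rintro ⟨T, hT, hpT⟩
    rw [h𝒯, Finset.mem_image] at hT
    obtain ⟨q, hq, rfl⟩ := hT
    exact (hM q ((hQm q).mp hq)).2.2 hpT
  have hout : ∀ l ∈ Uᶜ, a' l ≤ a l := by
    intro l hl
    by_contra hlt
    push Not at hlt
    rw [Finset.mem_compl] at hl
    apply hl
    rw [hU, Finset.mem_biUnion]
    exact ⟨M l, by rw [h𝒯]; exact Finset.mem_image_of_mem _ ((hQm l).mpr hlt), (hM l hlt).2.1⟩
  have hlt : ∑ l ∈ Uᶜ, a' l < ∑ l ∈ Uᶜ, a l :=
    Finset.sum_lt_sum hout ⟨p, by rw [Finset.mem_compl]; exact hpU, hp⟩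
  have e1 : ∑ l, a l = s - 1 := by
    have := hs _ (ha p)
    rw [sum_single_add _ a (Finset.mem_univ p)] at this
    omega
  have e2 : ∑ l, a' l = s - 1 := by
    have := hs _ (ha' p)
    rw [sum_single_add _ a' (Finset.mem_univ p)] at this
    omega
  rw [← Finset.sum_add_sum_compl U] at e1 e2
  omega

/-- `Good` in terms of the truncation. -/
theorem good_iff_dil [Nonempty ι] {D : Set (ι → ℤ)} (hD : Exc D) {a : ι → ℤ} {i : ℕ} :
    Good D a i ↔ a ∈ Dil (Mk D (Ur (i + 1))) := by
  constructor
  · rintro ⟨-, h⟩ e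
    obtain ⟨F, hF, hm, heF⟩ := h e
    refine ⟨_, hm, ind (insert e F), ⟨insert e F, ?_, rfl⟩, ?_⟩
    · rw [Finset.card_insert_of_notMem heF, hF]
    · ext l
      simp only [Pi.add_apply, Pi.sub_apply, ind, Finset.mem_insert, Pi.single_apply]
      by_cases h1 : l = e
      · subst h1; simp [heF]
      · simp [h1]
  · intro h
    have key : ∀ e, ∃ F : Finset ι, F.card = i ∧ a - ind F ∈ D ∧ e ∉ F := by
      intro e
      obtain ⟨x, hx, _, ⟨F, hF, rfl⟩, hxF⟩ := h e
      by_cases heF : e ∈ F
      · refine ⟨F.erase e, ?_, ?_, by simp⟩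
        · rw [Finset.card_erase_of_mem heF]; omega
        · have : a - ind (F.erase e) = x := by
            ext l
            have := congrFun hxF l
            simp only [Pi.add_apply, Pi.sub_apply, ind, Finset.mem_erase, Pi.single_apply] at this ⊢
            by_cases h1 : l = e
            · subst h1; simp [heF] at this ⊢; omega
            · simp [h1] at this ⊢; omega
          rw [this]; exact hx
      · obtain ⟨f, hf⟩ : F.Nonempty := by rw [← Finset.card_pos]; omega
        obtain ⟨z, hz, _, ⟨G, hG, rfl⟩, hzG⟩ := h f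
        have hfe : e ≠ f := by rintro rfl; exact heF hf
        have h1 : z e < x e := by
          have a1 := congrFun hxF e
          have a2 := congrFun hzG e
          simp only [Pi.add_apply, ind, Pi.single_apply] at a1 a2
          rw [if_neg heF] at a1
          simp only [if_true] at a1
          rw [if_neg hfe] at a2
          split_ifs at a2 <;> omega
        obtain ⟨j, hj, hm⟩ := hD x hx z hz e h1
        have hje : j ≠ e := by rintro rfl; omega
        have hjF : j ∈ F := by
          by_contra hjF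
          have a1 := congrFun hxF j
          have a2 := congrFun hzG j
          have hjf : j ≠ f := by rintro rfl; exact hjF hf
          simp only [Pi.add_apply, ind, Pi.single_apply] at a1 a2
          rw [if_neg hjF, if_neg hje] at a1
          rw [if_neg hjf] at a2
          split_ifs at a2 <;> omega
        refine ⟨F.erase j, ?_, ?_, ?_⟩
        · rw [Finset.card_erase_of_mem hjF]; omega
        · have : a - ind (F.erase j) = mv x e j := by
            ext l
            have := congrFun hxF l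
            rw [mv_apply]
            simp only [Pi.add_apply, Pi.sub_apply, ind, Finset.mem_erase, Pi.single_apply] at this ⊢
            by_cases h1 : l = j
            · subst h1
              rw [if_pos hjF, if_neg hje] at this
              simp [hje]; omega
            · by_cases h2 : l = e
              · have h3 : ¬ (l ≠ j ∧ l ∈ F) := by rw [h2]; exact fun hh => heF hh.2
                have h4 : l ∉ F := by rw [h2]; exact heF
                rw [if_neg h4, if_pos h2] at this
                rw [if_neg h3, if_pos h2, if_neg h1]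
                omega
              · rw [if_neg h2] at this
                simp only [h1, h2, ne_eq, not_false_eq_true, true_and, if_false]
                omega
          rw [this]; exact hm
        · exact fun hh => heF (Finset.mem_of_mem_erase hh)
    obtain ⟨e⟩ := ‹Nonempty ι›
    obtain ⟨F, h1, h2, -⟩ := key e
    exact ⟨⟨F, h1, h2⟩, key⟩

/-- The set of good vectors is M-convex. -/
theorem good_exc [Nonempty ι] {D : Set (ι → ℤ)} (hD : Exc D) {s : ℤ} (hs : ∀ x ∈ D, ∑ l, x l = s)
    (i : ℕ) : Exc {a | Good D a i} := by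
  have e : {a | Good D a i} = Dil (Mk D (Ur (i + 1))) := by
    ext a; exact good_iff_dil hD
  rw [e]
  refine Dil_exc (s := s + (i + 1)) (hD.mk (Ur_exc _)) ?_
  rintro _ ⟨x, hx, _, ⟨F, hF, rfl⟩, rfl⟩
  simp only [Pi.add_apply]
  rw [Finset.sum_add_distrib, hs x hx, sum_ind, hF]
  push_cast; ring

end Pool.Agent.V117.MConv
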