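import Mathlib
import Pool.Agent.V117.Dilw

/-! Integral closedness of M-convex sets and the determinant trick. -/

namespace Pool.Agent.V117.MConv

set_option linter.unusedSectionVars false

variable {ι : Type*} [Fintype ι] [LinearOrder ι]

lemma sum_update2 {m : ℕ} {α : Type*} {β : Type*} [AddCommGroup β] (h : Fin m → α) {s t : Fin m}
    (hst : s ≠ t) (x y : α) (f : α → β) :
    ∑ r, f (Function.update (Function.update h s x) t y r) =
      ∑ r, f (h r) - f (h s) - f (h t) + f x + f y := by
  have h1 : ∀ g : Fin m → β, ∑ r, g r = g s + g t + ∑ r ∈ (Finset.univ.erase s).erase t, g r := by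
    intro g
    rw [← Finset.add_sum_erase _ _ (Finset.mem_univ s),
      ← Finset.add_sum_erase _ _ (Finset.mem_erase.mpr ⟨Ne.symm hst, Finset.mem_univ t⟩)]
    abel
  rw [h1, h1 (fun r => f (h r))]
  rw [Function.update_self, Function.update_of_ne hst, Function.update_self]
  have h2 : ∑ r ∈ (Finset.univ.erase s).erase t,
      f (Function.update (Function.update h s x) t y r) =
      ∑ r ∈ (Finset.univ.erase s).erase t, f (h r) := by
    refine Finset.sum_congr rfl fun r hr => ?_
    rw [Finset.mem_erase, Finset.mem_erase] at hr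
    rw [Function.update_of_ne hr.1, Function.update_of_ne hr.2.1]
  rw [h2]
  abel

theorem int_aux {H : Set (ι → ℤ)} (hH : Exc H) {m : ℕ} (hm : 0 < m) (a : ι → ℤ) :
    ∀ N : ℕ, ∀ h : Fin m → (ι → ℤ), (∀ t, h t ∈ H) → (∀ l, ∑ t, h t l ≤ m * a l) →
      ∑ t, ∑ l, (h t l) ^ 2 ≤ N → ∃ g ∈ H, ∀ l, g l ≤ a l := by
  intro N
  induction N using Nat.strong_induction_on with
  | _ N ih =>
    intro h hh hle hN
    by_cases hex : ∃ s t l, h t l + 2 ≤ h s l
    · obtain ⟨s, t, l, hl⟩ := hex
      have hst : s ≠ t := by rintro rfl; omega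
      obtain ⟨j, hj, hm1, hm2⟩ := hH.symm (hh s) (hh t) (show h t l < h s l by omega)
      have hlj : l ≠ j := by rintro rfl; omega
      set h' := Function.update (Function.update h s (mv (h s) l j)) t (mv (h t) j l) with hh'
      have hmem : ∀ r, h' r ∈ H := by
        intro r
        rw [hh']
        by_cases h1 : r = t
        · subst h1; rw [Function.update_self]; exact hm2
        · rw [Function.update_of_ne h1]
          by_cases h2 : r = s
          · subst h2; rw [Function.update_self]; exact hm1
          · rw [Function.update_of_ne h2]; exact hh r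
      have hsum : ∀ q, ∑ r, h' r q = ∑ r, h r q := by
        intro q
        rw [hh', sum_update2 h hst _ _ (fun v => v q)]
        simp only [mv_apply]
        ring
      have hsq : ∑ r, ∑ q, (h' r q) ^ 2 < ∑ r, ∑ q, (h r q) ^ 2 := by
        rw [hh', sum_update2 h hst _ _ (fun v => ∑ q, (v q) ^ 2)]
        have key : ∑ q, ((mv (h s) l j q) ^ 2 + (mv (h t) j l q) ^ 2) <
            ∑ q, ((h s q) ^ 2 + (h t q) ^ 2) := by
          apply Finset.sum_lt_sum
          · intro q _
            rw [mv_apply, mv_apply]
            by_cases h1 : q = l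
            · subst h1
              rw [if_pos rfl, if_neg hlj]
              nlinarith
            · by_cases h2 : q = j
              · subst h2
                rw [if_neg h1, if_pos rfl]
                nlinarith
              · rw [if_neg h1, if_neg h2]; simp
          · refine ⟨l, Finset.mem_univ _, ?_⟩
            rw [mv_apply, mv_apply, if_pos rfl, if_neg hlj]
            nlinarith
        rw [Finset.sum_add_distrib, Finset.sum_add_distrib] at key
        linarith
      have hnn : 0 ≤ ∑ r, ∑ q, (h' r q) ^ 2 :=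
        Finset.sum_nonneg fun r _ => Finset.sum_nonneg fun q _ => sq_nonneg _
      refine ih (∑ r, ∑ q, (h' r q) ^ 2).toNat (by omega) h' hmem ?_ (by omega)
      intro q
      rw [hsum q]; exact hle q
    · push Not at hex
      refine ⟨h ⟨0, hm⟩, hh _, fun l => ?_⟩
      by_contra hcon
      push Not at hcon
      have h1 : ∀ t, a l ≤ h t l := by
        intro t
        have := hex ⟨0, hm⟩ t l
        omega
      have h2 : ∑ t : Fin m, a l < ∑ t, h t l :=
        Finset.sum_lt_sum (fun t _ => h1 t) ⟨⟨0, hm⟩, Finset.mem_univ _, hcon⟩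
      rw [Finset.sum_const, Finset.card_univ, Fintype.card_fin, nsmul_eq_mul] at h2
      have := hle l
      omega

theorem int_closed {H : Set (ι → ℤ)} (hH : Exc H) {m : ℕ} (hm : 0 < m) (a : ι → ℤ)
    (h : Fin m → (ι → ℤ)) (hh : ∀ t, h t ∈ H) (hle : ∀ l, ∑ t, h t l ≤ m * a l) :
    ∃ g ∈ H, ∀ l, g l ≤ a l := by
  have hnn : 0 ≤ ∑ r, ∑ q, (h r q) ^ 2 :=
    Finset.sum_nonneg fun r _ => Finset.sum_nonneg fun q _ => sq_nonneg _
  exact int_aux hH hm a (∑ t, ∑ l, (h t l) ^ 2).toNat h hh hle (by omega)

/-- The determinant trick. -/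
theorem colon_aux {B H : Set (ι → ℤ)} (hH : Exc H) (hB : B.Finite) (hne : B.Nonempty) (a : ι → ℤ)
    (h : ∀ b ∈ B, ∃ g ∈ H, ∃ b' ∈ B, ∀ l, g l + b' l ≤ a l + b l) :
    ∃ g ∈ H, ∀ l, g l ≤ a l := by
  choose! g hg φ hφ hle using h
  obtain ⟨b0, hb0⟩ := hne
  let seq : ℕ → (ι → ℤ) := fun n => φ^[n] b0
  have hseq : ∀ n, seq n ∈ B := by
    intro n
    induction n with
    | zero => exact hb0
    | succ n ih =>
      show φ^[n + 1] b0 ∈ B
      rw [Function.iterate_succ_apply']
      exact hφ _ ih
  have : Finite B := hB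
  obtain ⟨r, s, hrs, heq⟩ := Finite.exists_ne_map_eq_of_infinite (fun n : ℕ => (⟨seq n, hseq n⟩ : B))
  have heq' : seq r = seq s := congrArg Subtype.val heq
  have key : ∀ r s, r < s → seq r = seq s → ∃ g ∈ H, ∀ l, g l ≤ a l := by
    intro r s hlt he
    obtain ⟨m, rfl⟩ := Nat.exists_eq_add_of_lt hlt
    have htel : ∀ m l, ∑ t : Fin m, g (seq (r + t)) l + seq (r + m) l ≤ m * a l + seq r l := by
      intro m l
      induction m with
      | zero => simp
      | succ m ih =>
        rw [Fin.sum_univ_castSucc]
        have h1 := hle (seq (r + m)) (hseq _) l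
        have h2 : φ (seq (r + m)) = seq (r + (m + 1)) := by
          show φ (φ^[r + m] b0) = φ^[r + (m + 1)] b0
          rw [← Function.iterate_succ_apply' φ]
          rfl
        rw [h2] at h1
        simp only [Fin.val_castSucc, Fin.val_last]
        push_cast
        linarith
    refine int_closed hH (m := m + 1) (Nat.succ_pos _) a (fun t => g (seq (r + t)))
      (fun t => hg _ (hseq _)) (fun l => ?_)
    have h1 := htel (m + 1) l
    have h2 : seq (r + (m + 1)) = seq r := by rw [he]; rfl
    rw [h2] at h1
    linarith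
  rcases lt_or_gt_of_ne hrs with h1 | h1
  · exact key r s h1 heq'
  · exact key s r h1 heq'.symm

end Pool.Agent.V117.MConv
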