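import Mathlib

/-! Koszul complexes of commuting endomorphisms of a vector space indexed by a finite set of
natural numbers, and reduction modulo an injective first element. -/

namespace Pool.Agent.V117.KosMod

variable {K : Type*} [Field K] {M : Type*} [AddCommGroup M] [Module K M]
  {N : Type*} [AddCommGroup N] [Module K N]

/-- the sign `(-1)^{#{a ∈ G : a < i}}` -/
def sg (K : Type*) [Field K] (i : ℕ) (G : Finset ℕ) : K := (-1) ^ (G.filter (· < i)).card

/-- the Koszul differential of the endomorphisms `x i`, `i ∈ U`, of `M`: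
`(d f)(G) = ∑_{i ∈ U ∖ G} (-1)^{#{a ∈ G : a < i}} x_i f(G ∪ {i})`. -/
def D (U : Finset ℕ) (x : ℕ → M →ₗ[K] M) : (Finset ℕ → M) →ₗ[K] (Finset ℕ → M) where
  toFun f := fun G => ∑ i ∈ U \ G, sg K i G • x i (f (insert i G))
  map_add' f g := by
    funext G
    simp only [Pi.add_apply, map_add, smul_add, Finset.sum_add_distrib]
  map_smul' r f := by
    funext G
    simp only [Pi.smul_apply, map_smul, RingHom.id_apply, Finset.smul_sum]
    refine Finset.sum_congr rfl fun i _ => ?_
    rw [smul_comm]

lemma D_apply (U : Finset ℕ) (x : ℕ → M →ₗ[K] M) (f : Finset ℕ → M) (G : Finset ℕ) :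
    D U x f G = ∑ i ∈ U \ G, sg K i G • x i (f (insert i G)) := rfl

/-- `j`-chains: functions on the `j`-element subsets of `U` with values in `M`. -/
def Cn (K : Type*) [Field K] (M : Type*) [AddCommGroup M] [Module K M] (U : Finset ℕ) (j : ℕ) :
    Submodule K (Finset ℕ → M) where
  carrier := {f | ∀ G, f G ≠ 0 → G ⊆ U ∧ G.card = j}
  add_mem' := by
    intro f g hf hg G hG
    by_cases h : f G = 0
    · apply hg G
      intro h2
      apply hG
      rw [Pi.add_apply, h, h2, add_zero]
    · exact hf G h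
  zero_mem' := fun G hG => absurd rfl hG
  smul_mem' := by
    intro r f hf G hG
    apply hf G
    intro h
    apply hG
    rw [Pi.smul_apply, h, smul_zero]

/-- `j`-cycles -/
def Zn (U : Finset ℕ) (x : ℕ → M →ₗ[K] M) (j : ℕ) : Submodule K (Finset ℕ → M) :=
  Cn K M U j ⊓ LinearMap.ker (D U x)

/-- `j`-boundaries -/
def Bn (U : Finset ℕ) (x : ℕ → M →ₗ[K] M) (j : ℕ) : Submodule K (Finset ℕ → M) :=
  (Cn K M U (j + 1)).map (D U x)

/-- the `j`-th Koszul homology -/
abbrev Hn (U : Finset ℕ) (x : ℕ → M →ₗ[K] M) (j : ℕ) : Type _ :=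
  (Zn U x j) ⧸ (Bn U x j).submoduleOf (Zn U x j)

lemma sg_swap {i k : ℕ} {G : Finset ℕ} (hi : i ∉ G) (hk : k ∉ G) (hik : i ≠ k) :
    sg K i G * sg K k (insert i G) = - (sg K k G * sg K i (insert k G)) := by
  unfold sg
  rw [Finset.filter_insert, Finset.filter_insert]
  rcases lt_or_gt_of_ne hik with h | h
  · rw [if_pos h, if_neg (by omega), Finset.card_insert_of_notMem (by simp [hi]), pow_succ]
    ring
  · rw [if_neg (by omega), if_pos h, Finset.card_insert_of_notMem (by simp [hk]), pow_succ]
    ring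

lemma D_D (U : Finset ℕ) (x : ℕ → M →ₗ[K] M)
    (hc : ∀ i ∈ U, ∀ k ∈ U, ∀ m, x i (x k m) = x k (x i m)) (f : Finset ℕ → M) :
    D U x (D U x f) = 0 := by
  classical
  funext G
  rw [Pi.zero_apply, D_apply]
  have h1 : ∀ i ∈ U \ G, sg K i G • x i (D U x f (insert i G))
      = ∑ k ∈ (U \ G).erase i, (sg K i G * sg K k (insert i G)) •
          x i (x k (f (insert k (insert i G)))) := by
    intro i hi
    rw [D_apply, map_sum, Finset.smul_sum]
    have : U \ insert i G = (U \ G).erase i := by
      ext z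
      simp only [Finset.mem_sdiff, Finset.mem_insert, Finset.mem_erase]
      tauto
    rw [this]
    refine Finset.sum_congr rfl fun k _ => ?_
    rw [map_smul, smul_smul]
  rw [Finset.sum_congr rfl h1, Finset.sum_sigma']
  refine Finset.sum_involution (fun p _ => ⟨p.2, p.1⟩) ?_ ?_ ?_ ?_
  · rintro ⟨i, k⟩ hp
    rw [Finset.mem_sigma, Finset.mem_erase, Finset.mem_sdiff, Finset.mem_sdiff] at hp
    obtain ⟨⟨hiU, hi⟩, hki, hkU, hk⟩ := hp
    dsimp only at hiU hi hki hkU hk ⊢
    rw [sg_swap hi hk (Ne.symm hki), hc i hiU k hkU, Finset.insert_comm, neg_smul, neg_add_cancel]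
  · rintro ⟨i, k⟩ hp _ h
    rw [Finset.mem_sigma, Finset.mem_erase] at hp
    exact hp.2.1 (by simpa using congrArg Sigma.fst h)
  · rintro ⟨i, k⟩ hp
    rw [Finset.mem_sigma, Finset.mem_erase] at hp ⊢
    exact ⟨hp.2.2, Ne.symm hp.2.1, hp.1⟩
  · rintro ⟨i, k⟩ _
    rfl

lemma D_supp {U : Finset ℕ} {x : ℕ → M →ₗ[K] M} {j : ℕ} {f : Finset ℕ → M}
    (hf : f ∈ Cn K M U j) {G : Finset ℕ} (hG : D U x f G ≠ 0) : G ⊆ U ∧ G.card + 1 = j := by
  rw [D_apply] at hG
  obtain ⟨i, hi, hne⟩ := Finset.exists_ne_zero_of_sum_ne_zero hG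
  have h1 : f (insert i G) ≠ 0 := by
    intro h
    apply hne
    rw [h, map_zero, smul_zero]
  obtain ⟨h2, h3⟩ := hf _ h1
  rw [Finset.mem_sdiff] at hi
  refine ⟨(Finset.subset_insert _ _).trans h2, ?_⟩
  rw [Finset.card_insert_of_notMem hi.2] at h3
  exact h3

section quot

variable (U : Finset ℕ) (x : ℕ → M →ₗ[K] M) (y : ℕ → N →ₗ[K] N) (π : M →ₗ[K] N)

lemma D_no {U : Finset ℕ} (h0 : 0 ∈ U) (x : ℕ → M →ₗ[K] M) (f : Finset ℕ → M) {G : Finset ℕ}
    (hG : 0 ∉ G) : D U x f G = x 0 (f (insert 0 G)) + D (U.erase 0) x f G := by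
  rw [D_apply, D_apply]
  have h1 : U \ G = insert 0 ((U.erase 0) \ G) := by
    ext z
    simp only [Finset.mem_sdiff, Finset.mem_insert, Finset.mem_erase]
    constructor
    · rintro ⟨h1, h2⟩
      by_cases hz : z = 0
      · exact Or.inl hz
      · exact Or.inr ⟨⟨hz, h1⟩, h2⟩
    · rintro (rfl | ⟨⟨_, h1⟩, h2⟩)
      · exact ⟨h0, hG⟩
      · exact ⟨h1, h2⟩
  rw [h1, Finset.sum_insert (by simp)]
  congr 1
  unfold sg
  simp

lemma D_yes {U : Finset ℕ} (x : ℕ → M →ₗ[K] M) (f : Finset ℕ → M) {G : Finset ℕ}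
    (hG : 0 ∉ G) : D U x f (insert 0 G) = - D (U.erase 0) x (fun G => f (insert 0 G)) G := by
  rw [D_apply, D_apply, ← Finset.sum_neg_distrib]
  have h1 : U \ insert 0 G = (U.erase 0) \ G := by
    ext z
    simp only [Finset.mem_sdiff, Finset.mem_insert, Finset.mem_erase]
    tauto
  rw [h1]
  refine Finset.sum_congr rfl fun i hi => ?_
  rw [Finset.mem_sdiff, Finset.mem_erase] at hi
  have h2 : sg K i (insert 0 G) = - sg K i G := by
    unfold sg
    rw [Finset.filter_insert, if_pos (Nat.pos_of_ne_zero hi.1.1),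
      Finset.card_insert_of_notMem (by simp [hG]), pow_succ]
    ring
  rw [h2, neg_smul, Finset.insert_comm]

/-- restriction to the sets without `0`, followed by `π` -/
def Ph : (Finset ℕ → M) →ₗ[K] (Finset ℕ → N) where
  toFun f := fun G => if 0 ∈ G then 0 else π (f G)
  map_add' f g := by
    funext G
    by_cases h : 0 ∈ G <;> simp [h]
  map_smul' r f := by
    funext G
    by_cases h : 0 ∈ G <;> simp [h]

variable {U x y π}

lemma Ph_D (h0 : 0 ∈ U) (hk : ∀ m, π m = 0 ↔ ∃ m', x 0 m' = m)
    (hi : ∀ i ∈ U.erase 0, ∀ m, π (x i m) = y i (π m)) (f : Finset ℕ → M) :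
    D (U.erase 0) y (Ph π f) = Ph π (D U x f) := by
  funext G
  by_cases hG : 0 ∈ G
  · have h1 : Ph π (D U x f) G = 0 := if_pos hG
    rw [h1, D_apply]
    refine Finset.sum_eq_zero fun i _ => ?_
    have h2 : Ph π f (insert i G) = 0 := if_pos (Finset.mem_insert_of_mem hG)
    rw [h2, map_zero, smul_zero]
  · have h1 : Ph π (D U x f) G = π (D U x f G) := if_neg hG
    rw [h1, D_no h0 x f hG, map_add, (hk _).2 ⟨_, rfl⟩, zero_add, D_apply, D_apply, map_sum]
    refine Finset.sum_congr rfl fun i hiU => ?_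
    rw [Finset.mem_sdiff] at hiU
    have h2 : Ph π f (insert i G) = π (f (insert i G)) := by
      refine if_neg ?_
      rw [Finset.mem_insert, not_or]
      exact ⟨fun h => (Finset.mem_erase.1 hiU.1).1 h.symm, hG⟩
    rw [h2, map_smul, hi i hiU.1]

lemma Ph_Cn {j : ℕ} {f : Finset ℕ → M} (hf : f ∈ Cn K M U j) :
    Ph π f ∈ Cn K N (U.erase 0) j := by
  intro G hG
  by_cases h0 : 0 ∈ G
  · exact absurd (if_pos h0) hG
  · have h1 : Ph π f G = π (f G) := if_neg h0
    rw [h1] at hG
    have h2 : f G ≠ 0 := by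
      intro h
      apply hG
      rw [h, map_zero]
    obtain ⟨h3, h4⟩ := hf G h2
    exact ⟨Finset.subset_erase.2 ⟨h3, h0⟩, h4⟩

/-- lifts -/
lemma exists_lift (hs : Function.Surjective π) {j : ℕ} {g : Finset ℕ → N}
    (hg : g ∈ Cn K N (U.erase 0) j) : ∃ f ∈ Cn K M U j, Ph π f = g ∧ ∀ G, 0 ∈ G → f G = 0 := by
  classical
  choose l hl using hs
  refine ⟨fun G => if g G = 0 then 0 else l (g G), ?_, ?_, ?_⟩
  · intro G hG
    have h1 : g G ≠ 0 := by
      intro h
      apply hG
      simp only [h, if_true]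
    obtain ⟨h2, h3⟩ := hg G h1
    exact ⟨h2.trans (Finset.erase_subset _ _), h3⟩
  · funext G
    by_cases h0 : 0 ∈ G
    · have h1 : g G = 0 := by
        by_contra h
        exact absurd ((hg G h).1 h0) (by simp)
      rw [h1]
      exact if_pos h0
    · refine (if_neg h0).trans ?_
      show π (if g G = 0 then 0 else l (g G)) = g G
      by_cases h : g G = 0
      · rw [if_pos h, h, map_zero]
      · rw [if_neg h, hl]
  · intro G h0
    have h1 : g G = 0 := by
      by_contra h
      exact absurd ((hg G h).1 h0) (by simp)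
    simp only [h1, if_true]

lemma D_comp0 (hc : ∀ i ∈ U, ∀ k ∈ U, ∀ m, x i (x k m) = x k (x i m)) (h0 : 0 ∈ U)
    (a b : Finset ℕ → M) {G : Finset ℕ} (h : ∀ G', G ⊆ G' → 0 ∉ G' → x 0 (a G') = b G')
    (hG : 0 ∉ G) :
    D (U.erase 0) x b G = x 0 (D (U.erase 0) x a G) := by
  rw [D_apply, D_apply, map_sum]
  refine Finset.sum_congr rfl fun i hi => ?_
  rw [Finset.mem_sdiff, Finset.mem_erase] at hi
  rw [map_smul, ← h _ (Finset.subset_insert _ _) (by
    rw [Finset.mem_insert, not_or]; exact ⟨fun h => hi.1.1 h.symm, hG⟩), hc i hi.1.2 0 h0]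

theorem reduce (h0 : 0 ∈ U) (hc : ∀ i ∈ U, ∀ k ∈ U, ∀ m, x i (x k m) = x k (x i m))
    (hinj : Function.Injective (x 0)) (hs : Function.Surjective π)
    (hk : ∀ m, π m = 0 ↔ ∃ m', x 0 m' = m)
    (hi : ∀ i ∈ U.erase 0, ∀ m, π (x i m) = y i (π m)) (j : ℕ) :
    Nonempty (Hn U x j ≃ₗ[K] Hn (U.erase 0) y j) := by
  classical
  have hinj0 : ∀ m, x 0 m = 0 → m = 0 := fun m hm => hinj (hm.trans (map_zero _).symm)
  have hcU : ∀ i ∈ U.erase 0, ∀ k ∈ U.erase 0, ∀ m, x i (x k m) = x k (x i m) :=
    fun i hi k hk m => hc i (Finset.mem_of_mem_erase hi) k (Finset.mem_of_mem_erase hk) m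
  have hZ : ∀ f ∈ Zn U x j, Ph π f ∈ Zn (U.erase 0) y j := by
    intro f hf
    refine ⟨Ph_Cn hf.1, ?_⟩
    show D (U.erase 0) y (Ph π f) = 0
    rw [Ph_D h0 hk hi, LinearMap.mem_ker.1 hf.2, map_zero]
  let Φ : Zn U x j →ₗ[K] Zn (U.erase 0) y j := (Ph π).restrict hZ
  have hB : (Bn U x j).submoduleOf (Zn U x j) ≤
      ((Bn (U.erase 0) y j).submoduleOf (Zn (U.erase 0) y j)).comap Φ := by
    rintro ⟨f, hf⟩ hfB
    obtain ⟨g, hg, hgf⟩ : ∃ g ∈ Cn K M U (j + 1), D U x g = f := hfB
    refine ⟨Ph π g, Ph_Cn hg, ?_⟩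
    rw [Ph_D h0 hk hi, hgf]
    rfl
  let Ψ := Submodule.mapQ _ _ Φ hB
  refine ⟨LinearEquiv.ofBijective Ψ ⟨?_, ?_⟩⟩
  · rw [← LinearMap.ker_eq_bot, LinearMap.ker_eq_bot']
    intro q hq
    induction q using Submodule.Quotient.induction_on with
    | _ f =>
      obtain ⟨f, hf⟩ := f
      have hq2 : (Submodule.Quotient.mk (Φ ⟨f, hf⟩) : Hn (U.erase 0) y j) = 0 := hq
      rw [Submodule.Quotient.mk_eq_zero] at hq2
      rw [Submodule.Quotient.mk_eq_zero]
      obtain ⟨g, hg, hgf⟩ : ∃ g ∈ Cn K N (U.erase 0) (j + 1), D (U.erase 0) y g = Ph π f := hq2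
      obtain ⟨g', hg', hPg, _⟩ := exists_lift (U := U) hs hg
      have hf2 : ∀ G, 0 ∉ G → π ((f - D U x g') G) = 0 := by
        intro G hG
        have h1 : Ph π (f - D U x g') G = π ((f - D U x g') G) := if_neg hG
        rw [← h1, map_sub, ← Ph_D h0 hk hi, hPg, hgf, sub_self, Pi.zero_apply]
      have hex : ∀ G, ∃ a, (0 ∉ G → x 0 a = (f - D U x g') G) ∧
          ((f - D U x g') G = 0 → a = 0) := by
        intro G
        by_cases hG : 0 ∈ G
        · exact ⟨0, fun h => absurd hG h, fun _ => rfl⟩
        · obtain ⟨a, ha⟩ := (hk _).1 (hf2 G hG)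
          exact ⟨a, fun _ => ha, fun h => hinj0 a (ha.trans h)⟩
      choose a ha1 ha2 using hex
      have hDf : D U x (f - D U x g') = 0 := by
        rw [map_sub, LinearMap.mem_ker.1 hf.2, D_D U x hc, sub_zero]
      have hsupp : ∀ G, (f - D U x g') G ≠ 0 → G ⊆ U ∧ G.card = j := by
        intro G hG
        by_cases h : f G = 0
        · have : D U x g' G ≠ 0 := by
            intro h2
            apply hG
            rw [Pi.sub_apply, h, h2, sub_zero]
          obtain ⟨h3, h4⟩ := D_supp hg' this
          exact ⟨h3, by omega⟩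
        · exact hf.1 G h
      let h : Finset ℕ → M := fun G => if 0 ∈ G then a (G.erase 0) else 0
      have hhC : h ∈ Cn K M U (j + 1) := by
        intro G hG
        by_cases h0G : 0 ∈ G
        · have h1 : h G = a (G.erase 0) := if_pos h0G
          rw [h1] at hG
          have h2 : (f - D U x g') (G.erase 0) ≠ 0 := fun h3 => hG (ha2 _ h3)
          obtain ⟨h3, h4⟩ := hsupp _ h2
          refine ⟨?_, ?_⟩
          · rw [← Finset.insert_erase h0G]
            exact Finset.insert_subset h0 h3
          · rw [← Finset.insert_erase h0G, Finset.card_insert_of_notMem (by simp), h4]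
        · exact absurd (if_neg h0G) hG
      have hDh : D U x h = f - D U x g' := by
        funext G
        by_cases h0G : 0 ∈ G
        · obtain ⟨G', hG', rfl⟩ : ∃ G', 0 ∉ G' ∧ insert 0 G' = G :=
            ⟨G.erase 0, by simp, Finset.insert_erase h0G⟩
          rw [D_yes x h hG']
          have e1 : D (U.erase 0) x (fun G => h (insert 0 G)) G' = D (U.erase 0) x a G' := by
            rw [D_apply, D_apply]
            refine Finset.sum_congr rfl fun i hi' => ?_
            rw [Finset.mem_sdiff, Finset.mem_erase] at hi'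
            have : h (insert 0 (insert i G')) = a (insert i G') := by
              refine (if_pos (Finset.mem_insert_self _ _)).trans ?_
              rw [Finset.erase_insert]
              rw [Finset.mem_insert, not_or]
              exact ⟨fun h => hi'.1.1 h.symm, hG'⟩
            rw [this]
          rw [e1]
          have e2 := congrFun hDf G'
          rw [D_no h0 x _ hG', Pi.zero_apply, D_comp0 hc h0 a (f - D U x g')
            (fun G'' _ h => ha1 G'' h) hG', ← map_add] at e2
          have e3 := hinj0 _ e2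
          rw [neg_eq_iff_add_eq_zero, add_comm]
          exact e3
        · rw [D_no h0 x h h0G]
          have e1 : h (insert 0 G) = a G := by
            refine (if_pos (Finset.mem_insert_self _ _)).trans ?_
            rw [Finset.erase_insert h0G]
          have e2 : D (U.erase 0) x h G = 0 := by
            rw [D_apply]
            refine Finset.sum_eq_zero fun i hi' => ?_
            rw [Finset.mem_sdiff, Finset.mem_erase] at hi'
            have : h (insert i G) = 0 := by
              refine if_neg ?_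
              rw [Finset.mem_insert, not_or]
              exact ⟨fun h => hi'.1.1 h.symm, h0G⟩
            rw [this, map_zero, smul_zero]
          rw [e1, e2, add_zero, ha1 G h0G]
      refine ⟨g' + h, Submodule.add_mem _ hg' hhC, ?_⟩
      show D U x (g' + h) = f
      rw [map_add, hDh]
      abel
  · intro q
    induction q using Submodule.Quotient.induction_on with
    | _ z =>
      obtain ⟨z, hz⟩ := z
      obtain ⟨a, ha, hPa, ha0⟩ := exists_lift (U := U) hs hz.1
      have haC : a ∈ Cn K M (U.erase 0) j := by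
        intro G hG
        obtain ⟨h1, h2⟩ := ha G hG
        exact ⟨Finset.subset_erase.2 ⟨h1, fun h => hG (ha0 G h)⟩, h2⟩
      have h1 : ∀ G, 0 ∉ G → π (D (U.erase 0) x a G) = 0 := by
        intro G hG
        have e1 : π (D U x a G) = 0 := by
          have e2 : Ph π (D U x a) G = π (D U x a G) := if_neg hG
          rw [← e2, ← Ph_D h0 hk hi, hPa, LinearMap.mem_ker.1 hz.2, Pi.zero_apply]
        rw [D_no h0 x a hG, ha0 _ (Finset.mem_insert_self _ _), map_zero, zero_add] at e1
        exact e1
      have hex : ∀ G, ∃ b, (0 ∉ G → x 0 b = D (U.erase 0) x a G) ∧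
          (D (U.erase 0) x a G = 0 → b = 0) := by
        intro G
        by_cases hG : 0 ∈ G
        · exact ⟨0, fun h => absurd hG h, fun _ => rfl⟩
        · obtain ⟨b, hb⟩ := (hk _).1 (h1 G hG)
          exact ⟨b, fun _ => hb, fun h => hinj0 b (hb.trans h)⟩
      choose b hb1 hb2 using hex
      let f : Finset ℕ → M := fun G => if 0 ∈ G then - b (G.erase 0) else a G
      have hfC : f ∈ Cn K M U j := by
        intro G hG
        by_cases h0G : 0 ∈ G
        · have e1 : f G = - b (G.erase 0) := if_pos h0G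
          rw [e1] at hG
          have e2 : D (U.erase 0) x a (G.erase 0) ≠ 0 := by
            intro h3
            apply hG
            rw [hb2 _ h3, neg_zero]
          obtain ⟨h3, h4⟩ := D_supp haC e2
          refine ⟨?_, ?_⟩
          · rw [← Finset.insert_erase h0G]
            exact Finset.insert_subset h0 (h3.trans (Finset.erase_subset _ _))
          · rw [← Finset.insert_erase h0G, Finset.card_insert_of_notMem (by simp), h4]
        · have e1 : f G = a G := if_neg h0G
          rw [e1] at hG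
          exact ha G hG
      have hDf : D U x f = 0 := by
        funext G
        rw [Pi.zero_apply]
        by_cases h0G : 0 ∈ G
        · obtain ⟨G', hG', rfl⟩ : ∃ G', 0 ∉ G' ∧ insert 0 G' = G :=
            ⟨G.erase 0, by simp, Finset.insert_erase h0G⟩
          rw [D_yes x f hG']
          have e1 : D (U.erase 0) x (fun G => f (insert 0 G)) G' = - D (U.erase 0) x b G' := by
            rw [D_apply, D_apply, ← Finset.sum_neg_distrib]
            refine Finset.sum_congr rfl fun i hi' => ?_
            rw [Finset.mem_sdiff, Finset.mem_erase] at hi'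
            have : f (insert 0 (insert i G')) = - b (insert i G') := by
              refine (if_pos (Finset.mem_insert_self _ _)).trans ?_
              rw [Finset.erase_insert]
              rw [Finset.mem_insert, not_or]
              exact ⟨fun h => hi'.1.1 h.symm, hG'⟩
            rw [this, map_neg, smul_neg]
          rw [e1, neg_neg]
          apply hinj0
          rw [← D_comp0 hc h0 b (D (U.erase 0) x a) (fun G'' _ h => hb1 G'' h) hG',
            D_D _ x hcU, Pi.zero_apply]
        · rw [D_no h0 x f h0G]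
          have e1 : f (insert 0 G) = - b G := by
            refine (if_pos (Finset.mem_insert_self _ _)).trans ?_
            rw [Finset.erase_insert h0G]
          have e2 : D (U.erase 0) x f G = D (U.erase 0) x a G := by
            rw [D_apply, D_apply]
            refine Finset.sum_congr rfl fun i hi' => ?_
            rw [Finset.mem_sdiff, Finset.mem_erase] at hi'
            have : f (insert i G) = a (insert i G) := by
              refine if_neg ?_
              rw [Finset.mem_insert, not_or]
              exact ⟨fun h => hi'.1.1 h.symm, h0G⟩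
            rw [this]
          rw [e1, e2, map_neg, hb1 G h0G, neg_add_cancel]
      refine ⟨Submodule.Quotient.mk ⟨f, hfC, hDf⟩, ?_⟩
      show Submodule.Quotient.mk (Φ ⟨f, hfC, hDf⟩) = _
      congr 1
      apply Subtype.ext
      show Ph π f = z
      rw [← hPa]
      funext G
      by_cases h0G : 0 ∈ G
      · exact (if_pos h0G).trans (if_pos h0G).symm
      · refine (if_neg h0G).trans ?_
        refine Eq.trans ?_ (if_neg h0G).symm
        congr 1
        exact if_neg h0G

end quot

end Pool.Agent.V117.KosMod
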