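import Mathlib
import Pool.Agent.V117.KosMod

/-! Dimension counts for Koszul homology; the algebra `K ⊕ V ⊕ W` with only products `x²`, `x y`. -/

namespace Pool.Agent.V117.KosDim

open Pool.Agent.V117.KosMod

variable {K : Type*} [Field K]

lemma coords {V : Type*} [AddCommGroup V] [Module K V] (Z : Submodule K V) {T : Type*} [Fintype T]
    (ev : T → V →ₗ[K] K) (hi : ∀ f ∈ Z, (∀ t, ev t f = 0) → f = 0)
    (hs : ∀ g : T → K, ∃ f ∈ Z, ∀ t, ev t f = g t) :
    Module.Finite K Z ∧ Module.finrank K Z = Fintype.card T := by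
  let φ : Z →ₗ[K] (T → K) := (LinearMap.pi ev).comp Z.subtype
  have hb : Function.Bijective φ := by
    constructor
    · rw [← LinearMap.ker_eq_bot, LinearMap.ker_eq_bot']
      rintro ⟨f, hf⟩ h
      apply Subtype.ext
      exact hi f hf fun t => congrFun h t
    · intro g
      obtain ⟨f, hf, h⟩ := hs g
      exact ⟨⟨f, hf⟩, funext h⟩
  let E : Z ≃ₗ[K] (T → K) := LinearEquiv.ofBijective φ hb
  refine ⟨Module.Finite.equiv E.symm, ?_⟩
  rw [E.finrank_eq, Module.finrank_fintype_fun_eq_card]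

/-- coordinates of chains with values in `Fin e → K` -/
def ev {e : ℕ} (p : Finset ℕ × Fin e) : (Finset ℕ → Fin e → K) →ₗ[K] K where
  toFun f := f p.1 p.2
  map_add' _ _ := rfl
  map_smul' _ _ := rfl

lemma finrank_Cn {e : ℕ} (U : Finset ℕ) (j : ℕ) :
    Module.Finite K (Cn K (Fin e → K) U j) ∧
    Module.finrank K (Cn K (Fin e → K) U j) = U.card.choose j * e := by
  classical
  have h := coords (K := K) (Cn K (Fin e → K) U j)
    (T := {p : Finset ℕ × Fin e // p ∈ (U.powersetCard j) ×ˢ (Finset.univ : Finset (Fin e))})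
    (fun t => ev t.1) ?_ ?_
  · refine ⟨h.1, h.2.trans ?_⟩
    rw [Fintype.card_coe, Finset.card_product, Finset.card_powersetCard, Finset.card_univ,
      Fintype.card_fin]
  · intro f hf h
    funext G
    by_contra hG
    obtain ⟨h1, h2⟩ := hf G hG
    apply hG
    funext r
    exact h ⟨(G, r), by
      rw [Finset.mem_product]
      exact ⟨Finset.mem_powersetCard.2 ⟨h1, h2⟩, Finset.mem_univ _⟩⟩
  · intro g
    refine ⟨fun G r => if h : (G, r) ∈ (U.powersetCard j) ×ˢ (Finset.univ : Finset (Fin e))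
      then g ⟨(G, r), h⟩ else 0, ?_, ?_⟩
    · intro G hG
      obtain ⟨r, hr⟩ := Function.ne_iff.1 hG
      dsimp only at hr
      split_ifs at hr with h
      · rw [Finset.mem_product] at h
        exact Finset.mem_powersetCard.1 h.1
      · exact absurd rfl hr
    · intro t
      exact dif_pos t.2

/-- the dimension of homology in terms of cycles -/
lemma finrank_Hn {N : Type*} [AddCommGroup N] [Module K N] (U : Finset ℕ)
    (x : ℕ → N →ₗ[K] N) (hc : ∀ i ∈ U, ∀ k ∈ U, ∀ m, x i (x k m) = x k (x i m)) (j : ℕ)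
    [hZ : Module.Finite K (Zn U x j)] [hC : Module.Finite K (Cn K N U (j + 1))] :
    Module.finrank K (Hn U x j) + Module.finrank K (Cn K N U (j + 1)) =
      Module.finrank K (Zn U x j) + Module.finrank K (Zn U x (j + 1)) := by
  have hle : Bn U x j ≤ Zn U x j := by
    rintro f ⟨g, hg, rfl⟩
    refine ⟨?_, ?_⟩
    · intro G hG
      obtain ⟨h1, h2⟩ := D_supp hg hG
      exact ⟨h1, by omega⟩
    · show D U x (D U x g) = 0
      exact D_D U x hc g
  have h1 : Module.finrank K (Hn U x j) +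
      Module.finrank K ((Bn U x j).submoduleOf (Zn U x j)) = Module.finrank K (Zn U x j) :=
    Submodule.finrank_quotient_add_finrank _
  have h2 : Module.finrank K ((Bn U x j).submoduleOf (Zn U x j)) = Module.finrank K (Bn U x j) :=
    (Submodule.submoduleOfEquivOfLe hle).finrank_eq
  have h3 := LinearMap.finrank_range_add_finrank_ker ((D U x).domRestrict (Cn K N U (j + 1)))
  have h4 : LinearMap.range ((D U x).domRestrict (Cn K N U (j + 1))) = Bn U x j :=
    LinearMap.range_domRestrict _ _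
  have h5 : Module.finrank K (LinearMap.ker ((D U x).domRestrict (Cn K N U (j + 1)))) =
      Module.finrank K (Zn U x (j + 1)) := by
    have e1 : LinearMap.ker ((D U x).domRestrict (Cn K N U (j + 1))) =
        (Zn U x (j + 1)).submoduleOf (Cn K N U (j + 1)) := by
      ext ⟨f, hf⟩
      constructor
      · intro h
        exact ⟨hf, h⟩
      · intro h
        exact h.2
    rw [e1]
    exact (Submodule.submoduleOfEquivOfLe inf_le_left).finrank_eq
  rw [h4, h5] at h3
  rw [h2] at h1
  omega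

section alg

variable {e : ℕ} (m n y : Fin e)

/-- multiplication by `y_i` on the algebra with basis `1, y_r (r ≠ 0, m, n), w_m, w_n` whose only
nonzero products of the `y_r` are `y_1 y_1 = w_m` and `y_1 y_y = w_n`. The index `0 : ℕ` is `1`. -/
def act (h1 : 1 < e) (i : ℕ) : (Fin e → K) →ₗ[K] (Fin e → K) :=
  LinearMap.pi fun r =>
    if r.1 = i then LinearMap.proj ⟨0, by omega⟩
    else if r = m then (if i = 1 then LinearMap.proj ⟨1, h1⟩ else 0)
    else if r = n then
      (if i = 1 then LinearMap.proj y else if i = y.1 then LinearMap.proj ⟨1, h1⟩ else 0)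
    else 0

variable (h1 : 1 < e)

lemma act_apply (i : ℕ) (g : Fin e → K) (r : Fin e) :
    act m n y h1 i g r = if r.1 = i then g ⟨0, by omega⟩
      else if r = m then (if i = 1 then g ⟨1, h1⟩ else 0)
      else if r = n then (if i = 1 then g y else if i = y.1 then g ⟨1, h1⟩ else 0)
      else 0 := by
  unfold act
  rw [LinearMap.pi_apply]
  split_ifs <;> rfl

/-- hypotheses on the index set -/
structure Idx (U : Finset ℕ) : Prop where
  lt : ∀ i ∈ U, i < e
  pos : ∀ i ∈ U, 0 < i
  one : 1 ∈ U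
  hy : y.1 ∈ U
  yne : y.1 ≠ 1
  hm : m.1 ∉ U
  hn : n.1 ∉ U
  m0 : m.1 ≠ 0
  n0 : n.1 ≠ 0
  mn : m ≠ n
  all : ∀ r < e, r ∈ U ∨ r = 0 ∨ r = m.1 ∨ r = n.1

variable {m n y} {U : Finset ℕ}

lemma act_comm (h : Idx m n y U) {i k : ℕ} (hi : i ∈ U) (hk : k ∈ U) (g : Fin e → K) :
    act m n y h1 i (act m n y h1 k g) = act m n y h1 k (act m n y h1 i g) := by
  have hi0 := h.pos i hi
  have hk0 := h.pos k hk
  have him : m.1 ≠ i := fun e => h.hm (e ▸ hi)
  have hin : n.1 ≠ i := fun e => h.hn (e ▸ hi)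
  have hkm : m.1 ≠ k := fun e => h.hm (e ▸ hk)
  have hkn : n.1 ≠ k := fun e => h.hn (e ▸ hk)
  have hy := h.yne
  have hy0 := h.pos _ h.hy
  have hym : y ≠ m := by
    intro h2
    exact h.hm (h2 ▸ h.hy)
  have hyn : y ≠ n := by
    intro h2
    exact h.hn (h2 ▸ h.hy)
  have h1m : (⟨1, h1⟩ : Fin e) ≠ m := by
    intro h2
    exact h.hm (h2 ▸ h.one)
  have h1n : (⟨1, h1⟩ : Fin e) ≠ n := by
    intro h2
    exact h.hn (h2 ▸ h.one)
  have h0m : (⟨0, by omega⟩ : Fin e) ≠ m := by
    intro h2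
    exact h.m0 (by rw [← h2])
  have h0n : (⟨0, by omega⟩ : Fin e) ≠ n := by
    intro h2
    exact h.n0 (by rw [← h2])
  funext r
  have a0 : ∀ i ∈ U, ∀ g : Fin e → K, act m n y h1 i g ⟨0, by omega⟩ = 0 := by
    intro i hi g
    rw [act_apply, if_neg (h.pos i hi).ne, if_neg h0m, if_neg h0n]
  have a1 : ∀ i ∈ U, ∀ g : Fin e → K, act m n y h1 i g ⟨1, h1⟩ =
      if i = 1 then g ⟨0, by omega⟩ else 0 := by
    intro i hi g
    rw [act_apply]
    by_cases h2 : i = 1
    · rw [if_pos h2.symm, if_pos h2]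
    · rw [if_neg (Ne.symm h2), if_neg h1m, if_neg h1n, if_neg h2]
  have ay : ∀ i ∈ U, ∀ g : Fin e → K, act m n y h1 i g y =
      if i = y.1 then g ⟨0, by omega⟩ else 0 := by
    intro i hi g
    rw [act_apply]
    by_cases h2 : i = y.1
    · rw [if_pos h2.symm, if_pos h2]
    · rw [if_neg (Ne.symm h2), if_neg hym, if_neg hyn, if_neg h2]
  rw [act_apply, act_apply (g := act m n y h1 i g), a0 k hk, a0 i hi, a1 k hk, a1 i hi, ay k hk,
    ay i hi]
  by_cases hri : r.1 = i
  · rw [if_pos hri]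
    have : r ≠ m := fun h2 => him (by rw [← h2]; exact hri)
    have : r ≠ n := fun h2 => hin (by rw [← h2]; exact hri)
    by_cases hrk : r.1 = k
    · rw [if_pos hrk]
    · rw [if_neg hrk, if_neg ‹r ≠ m›, if_neg ‹r ≠ n›]
  · rw [if_neg hri]
    by_cases hrk : r.1 = k
    · rw [if_pos hrk]
      have : r ≠ m := fun h2 => hkm (by rw [← h2]; exact hrk)
      have : r ≠ n := fun h2 => hkn (by rw [← h2]; exact hrk)
      rw [if_neg ‹r ≠ m›, if_neg ‹r ≠ n›]
    · rw [if_neg hrk]
      by_cases hrm : r = m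
      · rw [if_pos hrm, if_pos hrm]
        split_ifs <;> rfl
      · rw [if_neg hrm, if_neg hrm]
        by_cases hrn : r = n
        · rw [if_pos hrn, if_pos hrn]
          split_ifs <;> first | rfl | omega
        · rw [if_neg hrn, if_neg hrn]

lemma D_act_r (h : Idx m n y U) (f : Finset ℕ → Fin e → K) (G : Finset ℕ) (r : Fin e)
    (hr : r.1 ∈ U) :
    D U (act m n y h1) f G r = if r.1 ∈ G then 0 else sg K r.1 G * f (insert r.1 G) ⟨0, by omega⟩ := by
  have hrm : r ≠ m := fun h2 => h.hm (h2 ▸ hr)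
  have hrn : r ≠ n := fun h2 => h.hn (h2 ▸ hr)
  rw [D_apply, Finset.sum_apply]
  by_cases hG : r.1 ∈ G
  · rw [if_pos hG]
    refine Finset.sum_eq_zero fun i hi => ?_
    rw [Finset.mem_sdiff] at hi
    rw [Pi.smul_apply, act_apply, if_neg (fun h2 : r.1 = i => hi.2 (h2 ▸ hG)), if_neg hrm,
      if_neg hrn, smul_zero]
  · rw [if_neg hG]
    rw [Finset.sum_eq_single r.1]
    · rw [Pi.smul_apply, act_apply, if_pos rfl, smul_eq_mul]
    · intro i hi hne
      rw [Pi.smul_apply, act_apply, if_neg (Ne.symm hne), if_neg hrm, if_neg hrn, smul_zero]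
    · intro h2
      exact absurd (Finset.mem_sdiff.2 ⟨hr, hG⟩) h2

lemma D_act_0 (h : Idx m n y U) (f : Finset ℕ → Fin e → K) (G : Finset ℕ) :
    D U (act m n y h1) f G ⟨0, by omega⟩ = 0 := by
  rw [D_apply, Finset.sum_apply]
  refine Finset.sum_eq_zero fun i hi => ?_
  rw [Finset.mem_sdiff] at hi
  rw [Pi.smul_apply, act_apply, if_neg (h.pos i hi.1).ne, if_neg, if_neg, smul_zero]
  · intro h2
    exact h.n0 (by rw [← h2])
  · intro h2
    exact h.m0 (by rw [← h2])

lemma D_act_m (h : Idx m n y U) (f : Finset ℕ → Fin e → K) (G : Finset ℕ) :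
    D U (act m n y h1) f G m = if 1 ∈ G then 0 else sg K 1 G * f (insert 1 G) ⟨1, h1⟩ := by
  rw [D_apply, Finset.sum_apply]
  have key : ∀ i ∈ U, ∀ g : Fin e → K, act m n y h1 i g m = if i = 1 then g ⟨1, h1⟩ else 0 := by
    intro i hi g
    rw [act_apply, if_neg (fun h2 : m.1 = i => h.hm (h2 ▸ hi)), if_pos rfl]
  by_cases hG : 1 ∈ G
  · rw [if_pos hG]
    refine Finset.sum_eq_zero fun i hi => ?_
    rw [Finset.mem_sdiff] at hi
    rw [Pi.smul_apply, key i hi.1, if_neg (fun h2 : i = 1 => hi.2 (by rw [h2]; exact hG)),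
      smul_zero]
  · rw [if_neg hG]
    rw [Finset.sum_eq_single 1]
    · rw [Pi.smul_apply, key 1 h.one, if_pos rfl, smul_eq_mul]
    · intro i hi hne
      rw [Finset.mem_sdiff] at hi
      rw [Pi.smul_apply, key i hi.1, if_neg hne, smul_zero]
    · intro h2
      exact absurd (Finset.mem_sdiff.2 ⟨h.one, hG⟩) h2

lemma D_act_n (h : Idx m n y U) (f : Finset ℕ → Fin e → K) (G : Finset ℕ) :
    D U (act m n y h1) f G n = (if 1 ∈ G then 0 else sg K 1 G * f (insert 1 G) y) +
      (if y.1 ∈ G then 0 else sg K y.1 G * f (insert y.1 G) ⟨1, h1⟩) := by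
  rw [D_apply, Finset.sum_apply]
  have key : ∀ i ∈ U, ∀ g : Fin e → K, act m n y h1 i g n =
      (if i = 1 then g y else 0) + (if i = y.1 then g ⟨1, h1⟩ else 0) := by
    intro i hi g
    rw [act_apply, if_neg (fun h2 : n.1 = i => h.hn (h2 ▸ hi)), if_neg (Ne.symm h.mn), if_pos rfl]
    by_cases h2 : i = 1
    · rw [if_pos h2, if_pos h2, if_neg (fun h3 => h.yne (by omega)), add_zero]
    · rw [if_neg h2, if_neg h2, zero_add]
  have e1 : ∀ i ∈ U \ G, (sg K i G • act m n y h1 i (f (insert i G))) n =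
      (if i = 1 then sg K i G * f (insert i G) y else 0) +
      (if i = y.1 then sg K i G * f (insert i G) ⟨1, h1⟩ else 0) := by
    intro i hi
    rw [Finset.mem_sdiff] at hi
    rw [Pi.smul_apply, key i hi.1, smul_eq_mul, mul_add, mul_ite, mul_ite, mul_zero]
  rw [Finset.sum_congr rfl e1, Finset.sum_add_distrib, Finset.sum_ite_eq', Finset.sum_ite_eq']
  congr 1
  · by_cases hG : 1 ∈ G
    · rw [if_pos hG, if_neg (by simp [hG])]
    · rw [if_neg hG, if_pos (Finset.mem_sdiff.2 ⟨h.one, hG⟩)]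
  · by_cases hG : y.1 ∈ G
    · rw [if_pos hG, if_neg (by simp [hG])]
    · rw [if_neg hG, if_pos (Finset.mem_sdiff.2 ⟨h.hy, hG⟩)]

/-- index set of coordinates on cycles -/
def TT (U : Finset ℕ) (y : Fin e) (j : ℕ) : Finset (Finset ℕ × Fin e) :=
  ((U.powersetCard j) ×ˢ (Finset.univ : Finset (Fin e))).filter
    (fun p => p.2.1 ≠ 0 ∧ ¬ (1 ∈ p.1 ∧ (p.2.1 = 1 ∨ p.2 = y)))

lemma zn_eq0 (h : Idx m n y U) {j : ℕ} {f : Finset ℕ → Fin e → K}
    (hf : f ∈ Zn U (act m n y h1) j) {F : Finset ℕ} (hF : F.Nonempty) : f F ⟨0, by omega⟩ = 0 := by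
  by_contra hne
  obtain ⟨h2, h3⟩ := hf.1 F (fun h4 => hne (by rw [h4]; rfl))
  obtain ⟨a, ha⟩ := hF
  have h4 : D U (act m n y h1) f (F.erase a) ⟨a, h.lt a (h2 ha)⟩ = 0 := by
    have : D U (act m n y h1) f = 0 := hf.2
    rw [this]
    rfl
  rw [D_act_r h1 h f _ _ (h2 ha)] at h4
  dsimp only at h4
  rw [if_neg (by simp), Finset.insert_erase ha] at h4
  rcases mul_eq_zero.1 h4 with h5 | h5
  · unfold sg at h5
    exact (pow_ne_zero _ (neg_ne_zero.2 one_ne_zero)) h5
  · exact hne h5

lemma sg_ne (i : ℕ) (G : Finset ℕ) : sg K i G ≠ 0 := pow_ne_zero _ (neg_ne_zero.2 one_ne_zero)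

lemma sg_mul (i : ℕ) (G : Finset ℕ) : sg K i G * sg K i G = 1 := by
  unfold sg
  rw [← mul_pow]
  simp

lemma zn_eq1 (h : Idx m n y U) {j : ℕ} {f : Finset ℕ → Fin e → K}
    (hf : f ∈ Zn U (act m n y h1) j) {F : Finset ℕ} (hF : 1 ∈ F) : f F ⟨1, h1⟩ = 0 := by
  have h4 : D U (act m n y h1) f (F.erase 1) m = 0 := by
    have : D U (act m n y h1) f = 0 := hf.2
    rw [this]
    rfl
  rw [D_act_m h1 h f, if_neg (by simp), Finset.insert_erase hF] at h4
  exact (mul_eq_zero.1 h4).resolve_left (sg_ne _ _)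

lemma zn_eqn (h : Idx m n y U) {j : ℕ} {f : Finset ℕ → Fin e → K}
    (hf : f ∈ Zn U (act m n y h1) j) {F : Finset ℕ} (hF : 1 ∈ F) :
    sg K 1 (F.erase 1) * f F y + (if y.1 ∈ F then 0 else
      sg K y.1 (F.erase 1) * f (insert y.1 (F.erase 1)) ⟨1, h1⟩) = 0 := by
  have h4 : D U (act m n y h1) f (F.erase 1) n = 0 := by
    have : D U (act m n y h1) f = 0 := hf.2
    rw [this]
    rfl
  rw [D_act_n h1 h f, if_neg (by simp), Finset.insert_erase hF] at h4
  have h5 : y.1 ∈ F.erase 1 ↔ y.1 ∈ F := by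
    rw [Finset.mem_erase]
    exact ⟨fun h6 => h6.2, fun h6 => ⟨h.yne, h6⟩⟩
  simp only [h5] at h4
  exact h4

lemma zn_dim (h : Idx m n y U) {j : ℕ} (hj : 1 ≤ j) :
    Module.Finite K (Zn (K := K) U (act m n y h1) j) ∧
    Module.finrank K (Zn (K := K) U (act m n y h1) j) = (TT U y j).card := by
  classical
  have hy0 := h.pos _ h.hy
  have hy1 := h.yne
  have hym : y ≠ m := fun h2 => h.hm (h2 ▸ h.hy)
  have hyn : y ≠ n := fun h2 => h.hn (h2 ▸ h.hy)
  have key := coords (K := K) (Zn (K := K) U (act m n y h1) j)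
    (T := {p : Finset ℕ × Fin e // p ∈ TT U y j}) (fun t => ev t.1) ?_ ?_
  · refine ⟨key.1, key.2.trans ?_⟩
    rw [Fintype.card_coe]
  · intro f hf h0
    funext F r
    by_contra hne
    obtain ⟨h2, h3⟩ := hf.1 F (fun h4 => hne (by rw [h4]; rfl))
    have hFne : F.Nonempty := Finset.card_pos.1 (by omega)
    by_cases hr0 : r.1 = 0
    · apply hne
      have : r = ⟨0, by omega⟩ := Fin.ext hr0
      rw [this]
      exact zn_eq0 h1 h hf hFne
    · by_cases hT : (F, r) ∈ TT U y j
      · exact hne (h0 ⟨(F, r), hT⟩)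
      · have h4 : 1 ∈ F ∧ (r.1 = 1 ∨ r = y) := by
          by_contra h5
          apply hT
          unfold TT
          rw [Finset.mem_filter, Finset.mem_product]
          exact ⟨⟨Finset.mem_powersetCard.2 ⟨h2, h3⟩, Finset.mem_univ _⟩, hr0, h5⟩
        obtain ⟨h1F, h5 | h5⟩ := h4
        · apply hne
          have : r = ⟨1, h1⟩ := Fin.ext h5
          rw [this]
          exact zn_eq1 h1 h hf h1F
        · subst h5
          apply hne
          have h6 := zn_eqn h1 h hf h1F
          by_cases hyF : r.1 ∈ F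
          · rw [if_pos hyF, add_zero] at h6
            exact (mul_eq_zero.1 h6).resolve_left (sg_ne _ _)
          · rw [if_neg hyF] at h6
            have h7 : f (insert r.1 (F.erase 1)) ⟨1, h1⟩ = 0 := by
              refine h0 ⟨(insert r.1 (F.erase 1), ⟨1, h1⟩), ?_⟩
              unfold TT
              rw [Finset.mem_filter, Finset.mem_product]
              refine ⟨⟨Finset.mem_powersetCard.2 ⟨?_, ?_⟩, Finset.mem_univ _⟩, one_ne_zero, ?_⟩
              · exact Finset.insert_subset h.hy ((Finset.erase_subset _ _).trans h2)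
              · rw [Finset.card_insert_of_notMem (fun h8 => hyF (Finset.mem_of_mem_erase h8)),
                  Finset.card_erase_of_mem h1F, h3]
                omega
              · rintro ⟨h8, _⟩
                rw [Finset.mem_insert] at h8
                rcases h8 with h8 | h8
                · exact hy1 h8.symm
                · simp at h8
            rw [h7, mul_zero, add_zero] at h6
            exact (mul_eq_zero.1 h6).resolve_left (sg_ne _ _)
  · intro g
    let gg : Finset ℕ → Fin e → K := fun F r =>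
      if hT : (F, r) ∈ TT U y j then g ⟨(F, r), hT⟩ else 0
    have gg0 : ∀ F r, (F, r) ∉ TT U y j → gg F r = 0 := fun F r hT => dif_neg hT
    let f : Finset ℕ → Fin e → K := fun F r =>
      gg F r + if r = y ∧ 1 ∈ F ∧ y.1 ∉ F then
        - (sg K 1 (F.erase 1) * (sg K y.1 (F.erase 1) * gg (insert y.1 (F.erase 1)) ⟨1, h1⟩))
        else 0
    have hfr : ∀ F r, r ≠ y → f F r = gg F r := by
      intro F r hr
      show gg F r + _ = _
      rw [if_neg (fun h2 => hr h2.1), add_zero]
    have hyg1 : (⟨1, h1⟩ : Fin e) ≠ y := fun h2 => hy1 (by rw [← h2])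
    have hg1 : ∀ F, 1 ∈ F → gg F ⟨1, h1⟩ = 0 := by
      intro F hF
      apply gg0
      unfold TT
      rw [Finset.mem_filter]
      rintro ⟨_, _, h3⟩
      exact h3 ⟨hF, Or.inl rfl⟩
    have hgy : ∀ F, 1 ∈ F → gg F y = 0 := by
      intro F hF
      apply gg0
      unfold TT
      rw [Finset.mem_filter]
      rintro ⟨_, _, h3⟩
      exact h3 ⟨hF, Or.inr rfl⟩
    have hg0 : ∀ F, gg F ⟨0, by omega⟩ = 0 := by
      intro F
      apply gg0
      unfold TT
      rw [Finset.mem_filter]
      rintro ⟨_, h2, _⟩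
      exact h2 rfl
    have hgsupp : ∀ F r, gg F r ≠ 0 → F ⊆ U ∧ F.card = j := by
      intro F r hne
      by_contra h2
      apply hne
      apply gg0
      unfold TT
      rw [Finset.mem_filter, Finset.mem_product]
      rintro ⟨⟨h3, _⟩, _⟩
      exact h2 (Finset.mem_powersetCard.1 h3)
    refine ⟨f, ⟨?_, ?_⟩, ?_⟩
    · intro F hF
      obtain ⟨r, hr⟩ := Function.ne_iff.1 hF
      by_cases h2 : gg F r = 0
      · have h3 : f F r = gg F r + if r = y ∧ 1 ∈ F ∧ y.1 ∉ F then
          - (sg K 1 (F.erase 1) * (sg K y.1 (F.erase 1) * gg (insert y.1 (F.erase 1)) ⟨1, h1⟩))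
          else 0 := rfl
        rw [h3, h2, zero_add] at hr
        split_ifs at hr with h4
        · have h5 : gg (insert y.1 (F.erase 1)) ⟨1, h1⟩ ≠ 0 := by
            intro h6
            apply hr
            rw [h6, mul_zero, mul_zero, neg_zero]
            rfl
          obtain ⟨h6, h7⟩ := hgsupp _ _ h5
          obtain ⟨_, h1F, hyF⟩ := h4
          refine ⟨?_, ?_⟩
          · intro z hz
            by_cases hz1 : z = 1
            · rw [hz1]; exact h.one
            · exact h6 (Finset.mem_insert_of_mem (Finset.mem_erase.2 ⟨hz1, hz⟩))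
          · rw [Finset.card_insert_of_notMem (fun h8 => hyF (Finset.mem_of_mem_erase h8)),
              Finset.card_erase_of_mem h1F] at h7
            have := Finset.card_pos.2 ⟨1, h1F⟩
            omega
        · exact absurd rfl hr
      · exact hgsupp F r h2
    · show D U (act m n y h1) f = 0
      funext G r
      show D U (act m n y h1) f G r = 0
      have h1m : (⟨1, h1⟩ : Fin e) ≠ m := by
        intro h2
        exact h.hm (h2 ▸ h.one)
      rcases h.all r.1 r.2 with h2 | h2 | h2 | h2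
      · rw [D_act_r h1 h f G r h2]
        by_cases hG : r.1 ∈ G
        · rw [if_pos hG]
        · rw [if_neg hG, hfr _ _ (fun h3 => by rw [← h3] at hy0; exact lt_irrefl _ hy0), hg0,
            mul_zero]
      · have : r = ⟨0, by omega⟩ := Fin.ext h2
        rw [this, D_act_0 h1 h]
      · have : r = m := Fin.ext h2
        rw [this, D_act_m h1 h]
        by_cases hG : 1 ∈ G
        · rw [if_pos hG]
        · rw [if_neg hG, hfr _ _ hyg1, hg1 _ (Finset.mem_insert_self _ _), mul_zero]
      · have : r = n := Fin.ext h2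
        rw [this, D_act_n h1 h]
        by_cases hG : 1 ∈ G
        · rw [if_pos hG, zero_add]
          by_cases hyG : y.1 ∈ G
          · rw [if_pos hyG]
          · rw [if_neg hyG, hfr _ _ hyg1, hg1 _ (Finset.mem_insert_of_mem hG), mul_zero]
        · rw [if_neg hG]
          have h3 : f (insert 1 G) y = gg (insert 1 G) y + if y = y ∧ 1 ∈ insert 1 G ∧
              y.1 ∉ insert 1 G then
            - (sg K 1 ((insert 1 G).erase 1) * (sg K y.1 ((insert 1 G).erase 1) *
              gg (insert y.1 ((insert 1 G).erase 1)) ⟨1, h1⟩)) else 0 := rfl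
          rw [h3, hgy _ (Finset.mem_insert_self _ _), zero_add, Finset.erase_insert hG]
          by_cases hyG : y.1 ∈ G
          · rw [if_pos hyG, if_neg (fun h4 => h4.2.2 (Finset.mem_insert_of_mem hyG)), mul_zero,
              add_zero]
          · rw [if_neg hyG, if_pos ⟨rfl, Finset.mem_insert_self _ _, by
              rw [Finset.mem_insert, not_or]; exact ⟨hy1, hyG⟩⟩, hfr _ _ hyg1]
            have h5 := sg_mul (K := K) 1 G
            linear_combination (-(sg K y.1 G * gg (insert y.1 G) ⟨1, h1⟩)) * h5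
    · rintro ⟨⟨F, r⟩, hT⟩
      show f F r = g ⟨(F, r), hT⟩
      have h2 : gg F r = g ⟨(F, r), hT⟩ := dif_pos hT
      rw [← h2]
      show gg F r + _ = _
      unfold TT at hT
      rw [Finset.mem_filter] at hT
      rw [if_neg, add_zero]
      rintro ⟨h3, h4, _⟩
      exact hT.2.2 ⟨h4, Or.inr h3⟩

lemma TT_card (h : Idx m n y U) {j : ℕ} :
    (TT U y (j + 1)).card + U.card.choose (j + 1) + 2 * (U.card - 1).choose j =
      e * U.card.choose (j + 1) := by
  classical
  have h1 : 1 < e := h.lt 1 h.one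
  have hy0 := h.pos _ h.hy
  have hy1 := h.yne
  let P := U.powersetCard (j + 1)
  let A := P ×ˢ (Finset.univ : Finset (Fin e))
  have hA : A.card = U.card.choose (j + 1) * e := by
    show (P ×ˢ (Finset.univ : Finset (Fin e))).card = _
    rw [Finset.card_product, Finset.card_powersetCard, Finset.card_univ, Fintype.card_fin]
  have e1 := Finset.card_filter_add_card_filter_not (s := A)
    (fun p => p.2.1 ≠ 0 ∧ ¬ (1 ∈ p.1 ∧ (p.2.1 = 1 ∨ p.2 = y)))
  have e2 : A.filter (fun p => ¬ (p.2.1 ≠ 0 ∧ ¬ (1 ∈ p.1 ∧ (p.2.1 = 1 ∨ p.2 = y)))) =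
      (P ×ˢ ({⟨0, by omega⟩} : Finset (Fin e))) ∪
        ((P.filter (fun F => 1 ∈ F)) ×ˢ ({⟨1, h1⟩, y} : Finset (Fin e))) := by
    ext ⟨F, r⟩
    simp only [A, Finset.mem_filter, Finset.mem_product, Finset.mem_univ, and_true,
      Finset.mem_union, Finset.mem_singleton, Finset.mem_insert, Fin.ext_iff]
    tauto
  have e3 : Disjoint (P ×ˢ ({⟨0, by omega⟩} : Finset (Fin e)))
      ((P.filter (fun F => 1 ∈ F)) ×ˢ ({⟨1, h1⟩, y} : Finset (Fin e))) := by
    rw [Finset.disjoint_left]
    rintro ⟨F, r⟩ h2 h3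
    simp only [Finset.mem_product, Finset.mem_singleton, Finset.mem_insert, Fin.ext_iff] at h2 h3
    omega
  have e4 : (P.filter (fun F => 1 ∈ F)).card = (U.card - 1).choose j := by
    have : P.filter (fun F => 1 ∈ F) = ((U.erase 1).powersetCard j).image (insert 1) := by
      ext F
      simp only [P, Finset.mem_filter, Finset.mem_powersetCard, Finset.mem_image]
      constructor
      · rintro ⟨⟨h2, h3⟩, h4⟩
        refine ⟨F.erase 1, ⟨Finset.erase_subset_erase _ h2, ?_⟩, Finset.insert_erase h4⟩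
        rw [Finset.card_erase_of_mem h4, h3]
        rfl
      · rintro ⟨G, ⟨h2, h3⟩, rfl⟩
        have h4 : 1 ∉ G := fun h5 => by simpa using h2 h5
        refine ⟨⟨Finset.insert_subset h.one (h2.trans (Finset.erase_subset _ _)), ?_⟩,
          Finset.mem_insert_self _ _⟩
        rw [Finset.card_insert_of_notMem h4, h3]
    rw [this, Finset.card_image_of_injOn, Finset.card_powersetCard, Finset.card_erase_of_mem h.one]
    intro G hG G' hG' heq
    have h2 : 1 ∉ G := fun h5 => by
      simpa using (Finset.mem_powersetCard.1 (Finset.mem_coe.1 hG)).1 h5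
    have h3 : 1 ∉ G' := fun h5 => by
      simpa using (Finset.mem_powersetCard.1 (Finset.mem_coe.1 hG')).1 h5
    have h4 : (insert 1 G).erase 1 = (insert 1 G').erase 1 := by rw [heq]
    rwa [Finset.erase_insert h2, Finset.erase_insert h3] at h4
  rw [e2, Finset.card_union_of_disjoint e3, Finset.card_product, Finset.card_product, e4,
    Finset.card_singleton, Finset.card_pair (fun h2 => hy1 (by rw [← h2])), hA] at e1
  have e5 : P.card = U.card.choose (j + 1) := Finset.card_powersetCard _ _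
  rw [e5] at e1
  have e6 : (TT U y (j + 1)).card = (A.filter (fun p => p.2.1 ≠ 0 ∧
    ¬ (1 ∈ p.1 ∧ (p.2.1 = 1 ∨ p.2 = y)))).card := rfl
  rw [e6]
  rw [mul_comm e]
  omega

lemma choose_id (c j : ℕ) : c * c.choose (j + 1) =
    c.choose (j + 2) + (j + 1) * (c + 1).choose (j + 2) := by
  have h1 : c.choose (j + 2) * (j + 2) = c.choose (j + 1) * (c - (j + 1)) :=
    Nat.choose_succ_right_eq c (j + 1)
  have h2 : (c + 1).choose (j + 2) = c.choose (j + 1) + c.choose (j + 2) :=
    Nat.choose_succ_succ' c (j + 1)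
  rw [h2]
  by_cases hc : j + 1 ≤ c
  · obtain ⟨d, rfl⟩ := Nat.exists_eq_add_of_le hc
    rw [Nat.add_sub_cancel_left] at h1
    nlinarith [h1]
  · rw [Nat.choose_eq_zero_of_lt (by omega : c < j + 1),
      Nat.choose_eq_zero_of_lt (by omega : c < j + 2)]
    simp

/-- the Koszul homology of the algebra -/
theorem hn_dim (h : Idx m n y U) (hU : U.card + 3 = e) (j : ℕ) :
    Module.Finite K (Hn (K := K) U (act m n y h1) (j + 1)) ∧
    Module.finrank K (Hn (K := K) U (act m n y h1) (j + 1)) =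
      (j + 1) * (U.card + 1).choose (j + 2) := by
  obtain ⟨hf1, hd1⟩ := zn_dim (K := K) h1 h (j := j + 1) (by omega)
  obtain ⟨hf2, hd2⟩ := zn_dim (K := K) h1 h (j := j + 2) (by omega)
  obtain ⟨hf3, hd3⟩ := finrank_Cn (K := K) (e := e) U (j + 2)
  have := hf1
  have : Module.Finite K (Cn K (Fin e → K) U (j + 1 + 1)) := hf3
  have h2 := finrank_Hn (K := K) U (act m n y h1)
    (fun i hi k hk g => act_comm h1 h hi hk g) (j + 1)
  refine ⟨inferInstance, ?_⟩
  have h3 := TT_card h (j := j)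
  have h4 := TT_card h (j := j + 1)
  have h5 := choose_id U.card j
  have hU1 : 1 ≤ U.card := Finset.card_pos.2 ⟨1, h.one⟩
  have h6 : U.card.choose (j + 1) = (U.card - 1).choose j + (U.card - 1).choose (j + 1) := by
    obtain ⟨d, hd⟩ := Nat.exists_eq_add_of_le hU1
    rw [hd, Nat.add_sub_cancel_left, add_comm 1 d]
    exact Nat.choose_succ_succ' d j
  have h7 : Module.finrank K (Cn K (Fin e → K) U (j + 1 + 1)) = U.card.choose (j + 2) * e := hd3
  have h8 : Module.finrank K (Zn (K := K) U (act m n y h1) (j + 1 + 1)) =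
    (TT U y (j + 2)).card := hd2
  rw [h7, hd1, h8] at h2
  have h9 : (TT U y (j + 2)).card + U.card.choose (j + 2) + 2 * (U.card - 1).choose (j + 1) =
      e * U.card.choose (j + 2) := h4
  have h10 : e * U.card.choose (j + 1) = U.card * U.card.choose (j + 1) +
      3 * U.card.choose (j + 1) := by
    rw [← add_mul, hU]
  have h11 : (U.card.choose (j + 2)) * e = e * U.card.choose (j + 2) := mul_comm _ _
  omega

end alg

end Pool.Agent.V117.KosDim
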