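import Mathlib

/-! Inclusion matrices of subsets (Gottlieb) and of pure simplicial forests. -/

namespace Pool.Agent.V117.Forest

variable {V : Type*} [DecidableEq V] {K : Type*} [Field K] [CharZero K]

omit [CharZero K] in
lemma dc (τ : Finset V) (k : ℕ) (g : Finset V → K) :
    ∑ x ∈ τ, ∑ σ ∈ (τ.erase x).powersetCard k, g σ =
      ((τ.card - k : ℕ) : K) * ∑ σ ∈ τ.powersetCard k, g σ := by
  rw [Finset.sum_comm' (t' := τ.powersetCard k) (s' := fun σ => τ \ σ)]
  · rw [Finset.mul_sum]
    refine Finset.sum_congr rfl fun σ hσ => ?_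
    rw [Finset.mem_powersetCard] at hσ
    rw [Finset.sum_const, nsmul_eq_mul, Finset.card_sdiff_of_subset hσ.1, hσ.2]
  · intro x σ
    simp only [Finset.mem_powersetCard, Finset.mem_sdiff]
    constructor
    · rintro ⟨hx, hs, hc⟩
      exact ⟨⟨hx, fun h => by simpa using hs h⟩, hs.trans (Finset.erase_subset _ _), hc⟩
    · rintro ⟨⟨hx, hxs⟩, hs, hc⟩
      exact ⟨hx, Finset.subset_erase.2 ⟨hs, hxs⟩, hc⟩

omit [CharZero K] in
lemma sum_insert' {u : V} {τ : Finset V} (hu : u ∉ τ) (i : ℕ) (φ : Finset V → K) :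
    ∑ σ ∈ (insert u τ).powersetCard (i + 1), φ σ =
      ∑ σ ∈ τ.powersetCard (i + 1), φ σ + ∑ σ ∈ τ.powersetCard i, φ (insert u σ) := by
  rw [Finset.powersetCard_succ_insert hu, Finset.sum_union, Finset.sum_image]
  · intro s hs s' hs' h
    rw [Finset.mem_coe, Finset.mem_powersetCard] at hs hs'
    have h1 : (insert u s).erase u = (insert u s').erase u := by rw [h]
    rwa [Finset.erase_insert (fun h => hu (hs.1 h)), Finset.erase_insert (fun h => hu (hs'.1 h))] at h1
  · rw [Finset.disjoint_left]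
    intro s hs hs'
    rw [Finset.mem_powersetCard] at hs
    rw [Finset.mem_image] at hs'
    obtain ⟨s', _, rfl⟩ := hs'
    exact hu (hs.1 (Finset.mem_insert_self _ _))

/-- Gottlieb: the inclusion matrix is injective for `i ≤ t`, `i + t ≤ |F|`. -/
lemma inj (F : Finset V) : ∀ (i t : ℕ), i ≤ t → i + t ≤ F.card → ∀ φ : Finset V → K,
    (∀ τ ⊆ F, τ.card = t → ∑ σ ∈ τ.powersetCard i, φ σ = 0) →
    ∀ σ ⊆ F, σ.card = i → φ σ = 0 := by
  induction F using Finset.induction_on with
  | empty =>
    intro i t hit h φ h0 σ hσ hc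
    rw [Finset.subset_empty] at hσ
    subst hσ
    rw [Finset.card_empty] at hc h
    subst hc
    have := h0 ∅ (Finset.Subset.refl _) (by rw [Finset.card_empty]; omega)
    simpa using this
  | insert u F hu ih =>
    intro i t hit h φ h0
    rw [Finset.card_insert_of_notMem hu] at h
    by_cases he : i = t
    · subst he
      intro σ hσ hc
      have := h0 σ hσ hc
      rw [← hc, Finset.powersetCard_self, Finset.sum_singleton] at this
      exact this
    rcases i with _ | i
    · intro σ hσ hc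
      rw [Finset.card_eq_zero] at hc
      subst hc
      obtain ⟨τ, hτ, hτc⟩ := Finset.exists_subset_card_eq (s := insert u F) (n := t)
        (by rw [Finset.card_insert_of_notMem hu]; omega)
      have := h0 τ hτ hτc
      simpa using this
    obtain ⟨t, rfl⟩ : ∃ t', t = t' + 1 := ⟨t - 1, by omega⟩
    have hA : ∀ τ ⊆ F, τ.card = t + 1 → ∑ σ ∈ τ.powersetCard (i + 1), φ σ = 0 :=
      fun τ hτ hc => h0 τ (hτ.trans (Finset.subset_insert _ _)) hc
    have hB : ∀ τ ⊆ F, τ.card = t → ∑ σ ∈ τ.powersetCard (i + 1), φ σ +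
        ∑ σ ∈ τ.powersetCard i, φ (insert u σ) = 0 := by
      intro τ hτ hc
      have huτ : u ∉ τ := fun h => hu (hτ h)
      rw [← sum_insert' huτ]
      exact h0 _ (Finset.insert_subset_insert u hτ)
        (by rw [Finset.card_insert_of_notMem huτ, hc])
    have fin : (∀ σ ⊆ F, σ.card = i + 1 → φ σ = 0) →
        (∀ σ ⊆ F, σ.card = i → φ (insert u σ) = 0) →
        ∀ σ ⊆ insert u F, σ.card = i + 1 → φ σ = 0 := by
      intro h1 h2 σ hσ hc
      by_cases huσ : u ∈ σ
      · rw [← Finset.insert_erase huσ]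
        apply h2
        · intro z hz
          rw [Finset.mem_erase] at hz
          exact (Finset.mem_insert.1 (hσ hz.2)).resolve_left hz.1
        · rw [Finset.card_erase_of_mem huσ, hc]
          rfl
      · exact h1 σ ((Finset.subset_insert_iff_of_notMem huσ).1 hσ) hc
    by_cases hc2 : i + 1 + (t + 1) ≤ F.card
    · have h1 := ih (i + 1) (t + 1) hit hc2 φ hA
      have h2 := ih i t (by omega) (by omega) (fun σ => φ (insert u σ)) (by
        intro τ hτ hc
        have := hB τ hτ hc
        rw [Finset.sum_eq_zero (s := τ.powersetCard (i + 1)), zero_add] at this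
        · exact this
        · intro σ hσ
          rw [Finset.mem_powersetCard] at hσ
          exact h1 σ (hσ.1.trans hτ) hσ.2)
      exact fin h1 h2
    · have h2 := ih i (t + 1) (by omega) (by omega) (fun σ => φ (insert u σ)) (by
        intro τ hτ hc
        have e1 : ∑ x ∈ τ, (∑ σ ∈ (τ.erase x).powersetCard (i + 1), φ σ +
            ∑ σ ∈ (τ.erase x).powersetCard i, φ (insert u σ)) = 0 := by
          refine Finset.sum_eq_zero fun x hx => ?_
          exact hB _ ((Finset.erase_subset _ _).trans hτ)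
            (by rw [Finset.card_erase_of_mem hx, hc]; rfl)
        rw [Finset.sum_add_distrib, dc, dc τ i (fun σ => φ (insert u σ)), hA τ hτ hc, mul_zero,
          zero_add] at e1
        refine (mul_eq_zero.1 e1).resolve_left ?_
        intro h'
        rw [Nat.cast_eq_zero, hc] at h'
        omega)
      have h1 := ih (i + 1) t (by omega) (by omega) φ (by
        intro τ hτ hc
        have := hB τ hτ hc
        rw [Finset.sum_eq_zero (s := τ.powersetCard i), add_zero] at this
        · exact this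
        · intro σ hσ
          rw [Finset.mem_powersetCard] at hσ
          exact h2 σ (hσ.1.trans hτ) hσ.2)
      exact fin h1 h2

/-- the square case -/
lemma sur_sq (W : Finset V) (i t : ℕ) (hit : i ≤ t) (h : i + t = W.card) (ψ : Finset V → K) :
    ∃ φ : Finset V → K, ∀ τ ⊆ W, τ.card = t → ∑ σ ∈ τ.powersetCard i, φ σ = ψ τ := by
  classical
  let A := {σ : Finset V // σ ∈ W.powersetCard i}
  let B := {σ : Finset V // σ ∈ W.powersetCard t}
  let ext : (A → K) → Finset V → K := fun f σ => if h : σ ∈ W.powersetCard i then f ⟨σ, h⟩ else 0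
  have ext_add : ∀ f g : A → K, ext (f + g) = ext f + ext g := by
    intro f g
    funext σ
    simp only [ext, Pi.add_apply]
    split_ifs <;> simp
  have ext_smul : ∀ (c : K) (f : A → K), ext (c • f) = c • ext f := by
    intro c f
    funext σ
    simp only [ext, Pi.smul_apply]
    split_ifs <;> simp
  let T : (A → K) →ₗ[K] (B → K) :=
    { toFun := fun f τ => ∑ σ ∈ τ.1.powersetCard i, ext f σ
      map_add' := by
        intro f g
        funext τ
        simp only [ext_add, Pi.add_apply, Finset.sum_add_distrib]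
      map_smul' := by
        intro c f
        funext τ
        simp only [ext_smul, Pi.smul_apply, smul_eq_mul, Finset.mul_sum, RingHom.id_apply] }
  have hinj : Function.Injective T := by
    rw [← LinearMap.ker_eq_bot, LinearMap.ker_eq_bot']
    intro f hf
    funext ⟨σ, hσ⟩
    have h1 := inj W i t hit h.le (ext f) (by
      intro τ hτ hc
      exact congrFun hf ⟨τ, Finset.mem_powersetCard.2 ⟨hτ, hc⟩⟩) σ
      (Finset.mem_powersetCard.1 hσ).1 (Finset.mem_powersetCard.1 hσ).2
    have h2 : ext f σ = f ⟨σ, hσ⟩ := dif_pos hσ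
    rw [← h2, h1]
    rfl
  have hd : Module.finrank K (A → K) = Module.finrank K (B → K) := by
    rw [Module.finrank_fintype_fun_eq_card, Module.finrank_fintype_fun_eq_card,
      Fintype.card_coe, Fintype.card_coe, Finset.card_powersetCard, Finset.card_powersetCard, ← h]
    exact Nat.choose_symm_of_eq_add rfl
  have hsurj := (LinearMap.injective_iff_surjective_of_finrank_eq_finrank hd).1 hinj
  obtain ⟨f, hf⟩ := hsurj (fun τ => ψ τ.1)
  exact ⟨ext f, fun τ hτ hc => congrFun hf ⟨τ, Finset.mem_powersetCard.2 ⟨hτ, hc⟩⟩⟩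

/-- surjectivity for `|W| ≤ i + t` -/
lemma sur (W : Finset V) : ∀ (i t : ℕ), i ≤ t → W.card ≤ i + t → ∀ ψ : Finset V → K,
    ∃ φ : Finset V → K, ∀ τ ⊆ W, τ.card = t → ∑ σ ∈ τ.powersetCard i, φ σ = ψ τ := by
  classical
  induction W using Finset.induction_on with
  | empty =>
    intro i t hit h ψ
    refine ⟨ψ, fun τ hτ hc => ?_⟩
    rw [Finset.subset_empty] at hτ
    subst hτ
    rw [Finset.card_empty] at hc
    have : i = 0 := by omega
    subst this
    simp
  | insert u W hu ih =>
    intro i t hit h ψ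
    rw [Finset.card_insert_of_notMem hu] at h
    by_cases he : i = t
    · subst he
      refine ⟨ψ, fun τ hτ hc => ?_⟩
      rw [← hc, Finset.powersetCard_self, Finset.sum_singleton]
    by_cases hs : i + t = W.card + 1
    · exact sur_sq (insert u W) i t hit (by rw [hs, Finset.card_insert_of_notMem hu]) ψ
    rcases i with _ | i
    · refine ⟨0, fun τ hτ hc => ?_⟩
      have := Finset.card_le_card hτ
      rw [Finset.card_insert_of_notMem hu] at this
      omega
    obtain ⟨t, rfl⟩ : ∃ t', t = t' + 1 := ⟨t - 1, by omega⟩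
    obtain ⟨φ0, h0⟩ := ih (i + 1) (t + 1) hit (by omega) ψ
    obtain ⟨φ1, h1⟩ := ih i t (by omega) (by omega)
      (fun τ => ψ (insert u τ) - ∑ σ ∈ τ.powersetCard (i + 1), φ0 σ)
    refine ⟨fun σ => if u ∈ σ then φ1 (σ.erase u) else φ0 σ, fun τ hτ hc => ?_⟩
    by_cases huτ : u ∈ τ
    · obtain ⟨τ', hτ', rfl⟩ : ∃ τ', u ∉ τ' ∧ insert u τ' = τ :=
        ⟨τ.erase u, by simp, Finset.insert_erase huτ⟩
      have hτW : τ' ⊆ W := by
        intro z hz
        have := hτ (Finset.mem_insert_of_mem hz)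
        rw [Finset.mem_insert] at this
        rcases this with rfl | h
        · exact absurd hz hτ'
        · exact h
      rw [sum_insert' hτ']
      have e1 : ∑ σ ∈ τ'.powersetCard (i + 1), (if u ∈ σ then φ1 (σ.erase u) else φ0 σ) =
          ∑ σ ∈ τ'.powersetCard (i + 1), φ0 σ := by
        refine Finset.sum_congr rfl fun σ hσ => ?_
        rw [Finset.mem_powersetCard] at hσ
        rw [if_neg (fun h => hτ' (hσ.1 h))]
      have e2 : ∑ σ ∈ τ'.powersetCard i, (if u ∈ insert u σ then φ1 ((insert u σ).erase u)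
          else φ0 (insert u σ)) = ∑ σ ∈ τ'.powersetCard i, φ1 σ := by
        refine Finset.sum_congr rfl fun σ hσ => ?_
        rw [Finset.mem_powersetCard] at hσ
        rw [if_pos (Finset.mem_insert_self _ _), Finset.erase_insert (fun h => hτ' (hσ.1 h))]
      rw [Finset.card_insert_of_notMem hτ'] at hc
      rw [e1, e2, h1 τ' hτW (by omega)]
      ring
    · have hτW : τ ⊆ W := (Finset.subset_insert_iff_of_notMem huτ).1 hτ
      rw [← h0 τ hτW hc]
      refine Finset.sum_congr rfl fun σ hσ => ?_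
      rw [Finset.mem_powersetCard] at hσ
      exact if_neg (fun h => huτ (hσ.1 h))

/-- relative surjectivity -/
lemma relsur (F : Finset V) (i t : ℕ) (hit : i ≤ t) (h : F.card + 1 ≤ i + t) :
    ∀ (k : ℕ) (W : Finset V), W ⊆ F → (F \ W).card = k → ∀ η : Finset V → K,
    ∃ χ : Finset V → K, (∀ σ, χ σ ≠ 0 → σ ⊆ F ∧ ¬ σ ⊆ W) ∧
      ∀ τ ⊆ F, ¬ τ ⊆ W → τ.card = t → ∑ σ ∈ τ.powersetCard i, χ σ = η τ := by
  classical
  intro k
  induction k with
  | zero =>
    intro W hW hc η
    have hWF : F ⊆ W := by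
      rw [Finset.card_eq_zero, Finset.sdiff_eq_empty_iff_subset] at hc
      exact hc
    exact ⟨0, fun σ hσ => absurd rfl hσ, fun τ hτ hn => absurd (hτ.trans hWF) hn⟩
  | succ k ih =>
    intro W hW hc η
    obtain ⟨u, hu⟩ := Finset.card_pos.1 (show 0 < (F \ W).card by omega)
    rw [Finset.mem_sdiff] at hu
    rcases i with _ | i
    · refine ⟨0, fun σ hσ => absurd rfl hσ, fun τ hτ hn hc' => ?_⟩
      have := Finset.card_le_card hτ
      omega
    obtain ⟨t, rfl⟩ : ∃ t', t = t' + 1 := ⟨t - 1, by omega⟩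
    have hWc : W.card + 1 ≤ F.card := by
      have h1 := Finset.card_sdiff_add_card_eq_card hW
      omega
    obtain ⟨φ1, h1⟩ := sur (K := K) W i t (by omega) (by omega) (fun τ => η (insert u τ))
    let χ1 : Finset V → K := fun σ => if u ∈ σ ∧ σ.erase u ⊆ W then φ1 (σ.erase u) else 0
    obtain ⟨χ2, h2, h3⟩ := ih (insert u W) (Finset.insert_subset hu.1 hW) (by
      have e : F \ insert u W = (F \ W).erase u := by
        ext z
        simp only [Finset.mem_sdiff, Finset.mem_insert, Finset.mem_erase]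
        tauto
      rw [e, Finset.card_erase_of_mem (Finset.mem_sdiff.2 hu), hc]
      rfl) (fun τ => η τ - ∑ σ ∈ τ.powersetCard (i + 1), χ1 σ)
    refine ⟨fun σ => χ1 σ + χ2 σ, ?_, ?_⟩
    · intro σ hσ
      by_cases hχ : χ1 σ = 0
      · have hχ2 : χ2 σ ≠ 0 := by
          intro h'
          apply hσ
          show χ1 σ + χ2 σ = 0
          rw [hχ, h', add_zero]
        obtain ⟨h4, h5⟩ := h2 σ hχ2
        exact ⟨h4, fun h' => h5 (h'.trans (Finset.subset_insert _ _))⟩
      · have h4 : u ∈ σ ∧ σ.erase u ⊆ W := by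
          by_contra h'
          exact hχ (if_neg h')
        refine ⟨?_, fun h' => hu.2 (h' h4.1)⟩
        rw [← Finset.insert_erase h4.1]
        exact Finset.insert_subset hu.1 (h4.2.trans hW)
    · intro τ hτ hn hcτ
      rw [Finset.sum_add_distrib]
      by_cases hτW : τ ⊆ insert u W
      · have huτ : u ∈ τ := by
          by_contra h'
          exact hn ((Finset.subset_insert_iff_of_notMem h').1 hτW)
        have e2 : ∑ σ ∈ τ.powersetCard (i + 1), χ2 σ = 0 := by
          refine Finset.sum_eq_zero fun σ hσ => ?_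
          rw [Finset.mem_powersetCard] at hσ
          by_contra h'
          exact (h2 σ h').2 (hσ.1.trans hτW)
        rw [e2, add_zero]
        obtain ⟨τ', hτ', rfl⟩ : ∃ τ', u ∉ τ' ∧ insert u τ' = τ :=
          ⟨τ.erase u, by simp, Finset.insert_erase huτ⟩
        have hτ'W : τ' ⊆ W := by
          intro z hz
          have := hτW (Finset.mem_insert_of_mem hz)
          rw [Finset.mem_insert] at this
          rcases this with rfl | h
          · exact absurd hz hτ'
          · exact h
        rw [Finset.card_insert_of_notMem hτ'] at hcτ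
        rw [sum_insert' hτ', ← h1 τ' hτ'W (by omega)]
        have e3 : ∑ σ ∈ τ'.powersetCard (i + 1), χ1 σ = 0 := by
          refine Finset.sum_eq_zero fun σ hσ => ?_
          rw [Finset.mem_powersetCard] at hσ
          exact if_neg (fun h' => hτ' (hσ.1 h'.1))
        rw [e3, zero_add]
        refine Finset.sum_congr rfl fun σ hσ => ?_
        rw [Finset.mem_powersetCard] at hσ
        have huσ : u ∉ σ := fun h' => hτ' (hσ.1 h')
        show (if u ∈ insert u σ ∧ (insert u σ).erase u ⊆ W then φ1 ((insert u σ).erase u) else 0)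
          = φ1 σ
        rw [Finset.erase_insert huσ, if_pos ⟨Finset.mem_insert_self _ _, hσ.1.trans hτ'W⟩]
      · rw [h3 τ hτ hτW hcτ]
        ring

/-- a leaf of a set of facets -/
def IsLeaf (𝓢 : Finset (Finset V)) (F : Finset V) : Prop :=
  F ∈ 𝓢 ∧ (𝓢 = {F} ∨ ∃ G ∈ 𝓢, G ≠ F ∧ ∀ F' ∈ 𝓢, F' ≠ F → F ∩ F' ⊆ F ∩ G)

/-- surjectivity for pure forests -/
lemma forest_sur {r : ℕ} (i t : ℕ) (hit : i ≤ t) (h : r + 1 ≤ i + t) :
    ∀ (k : ℕ) (𝓕 : Finset (Finset V)), 𝓕.card = k → (∀ F ∈ 𝓕, F.card = r) →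
    (∀ 𝓢 ⊆ 𝓕, 𝓢.Nonempty → ∃ F, IsLeaf 𝓢 F) → ∀ ψ : Finset V → K,
    ∃ φ : Finset V → K, ∀ F ∈ 𝓕, ∀ τ ⊆ F, τ.card = t → ∑ σ ∈ τ.powersetCard i, φ σ = ψ τ := by
  classical
  intro k
  induction k with
  | zero =>
    intro 𝓕 hc _ _ ψ
    rw [Finset.card_eq_zero] at hc
    subst hc
    exact ⟨0, fun F hF => absurd hF (by simp)⟩
  | succ k ih =>
    intro 𝓕 hc hr hleaf ψ
    obtain ⟨F, hF, hL⟩ := hleaf 𝓕 (Finset.Subset.refl _) (Finset.card_pos.1 (by omega))
    rcases hL with h1 | ⟨G, hG, hGF, hL⟩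
    · obtain ⟨φ, hφ⟩ := sur (K := K) F i t hit (by rw [hr F hF]; omega) ψ
      refine ⟨φ, fun F' hF' => ?_⟩
      rw [h1, Finset.mem_singleton] at hF'
      rw [hF']
      exact hφ
    · obtain ⟨φ, hφ⟩ := ih (𝓕.erase F) (by rw [Finset.card_erase_of_mem hF, hc]; rfl)
        (fun F' hF' => hr F' (Finset.mem_of_mem_erase hF'))
        (fun 𝓢 hS => hleaf 𝓢 (hS.trans (Finset.erase_subset _ _))) ψ
      obtain ⟨χ, h2, h3⟩ := relsur (K := K) F i t hit (by rw [hr F hF]; exact h) _ (F ∩ G)
        Finset.inter_subset_left rfl (fun τ => ψ τ - ∑ σ ∈ τ.powersetCard i, φ σ)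
      refine ⟨fun σ => φ σ + χ σ, fun F' hF' τ hτ hcτ => ?_⟩
      rw [Finset.sum_add_distrib]
      by_cases hFF : F' = F
      · subst hFF
        by_cases hτG : τ ⊆ F' ∩ G
        · have e1 : ∑ σ ∈ τ.powersetCard i, χ σ = 0 := by
            refine Finset.sum_eq_zero fun σ hσ => ?_
            rw [Finset.mem_powersetCard] at hσ
            by_contra h'
            exact (h2 σ h').2 (hσ.1.trans hτG)
          rw [e1, add_zero]
          exact hφ G (Finset.mem_erase.2 ⟨hGF, hG⟩) τ (hτG.trans Finset.inter_subset_right) hcτ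
        · rw [h3 τ hτ hτG hcτ]
          ring
      · have e1 : ∑ σ ∈ τ.powersetCard i, χ σ = 0 := by
          refine Finset.sum_eq_zero fun σ hσ => ?_
          rw [Finset.mem_powersetCard] at hσ
          by_contra h'
          obtain ⟨h4, h5⟩ := h2 σ h'
          exact h5 ((Finset.subset_inter h4 (hσ.1.trans hτ)).trans (hL F' hF' hFF))
        rw [e1, add_zero]
        exact hφ F' (Finset.mem_erase.2 ⟨hFF, hF'⟩) τ hτ hcτ

end Pool.Agent.V117.Forest
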