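import Mathlib

/-!
Ten linear forms attached to six points in general position in `ℝ⁴`
(four of them the coordinate points, one the point `(1,1,1,1)`, one the point `d`):
if five of the forms vanish at `f`, then all ten vanish.
-/

namespace Pool.Agent.V117.WPRa

/-- the ten linear forms -/
def G (d : Fin 4 → ℝ) (f : Fin 4 → Fin 4 → ℝ) : Fin 10 → ℝ
  | 0 => (d 3 - d 2) * f 0 1 + (d 1 - d 3) * f 0 2 + (d 2 - d 1) * f 0 3
  | 1 => (d 3 - d 2) * f 0 1 + (d 0 - d 3) * f 1 2 + (d 2 - d 0) * f 1 3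
  | 2 => (d 3 - d 1) * f 0 2 + (d 0 - d 3) * f 1 2 + (d 1 - d 0) * f 2 3
  | 3 => (d 2 - d 1) * f 0 3 + (d 0 - d 2) * f 1 3 + (d 1 - d 0) * f 2 3
  | 4 => d 1 * f 0 2 - d 1 * f 0 3 - d 0 * f 1 2 + d 0 * f 1 3
  | 5 => d 3 * f 0 2 - d 2 * f 0 3 - d 3 * f 1 2 + d 2 * f 1 3
  | 6 => d 2 * f 0 1 - d 2 * f 0 3 - d 0 * f 1 2 + d 0 * f 2 3
  | 7 => d 3 * f 0 1 - d 1 * f 0 3 - d 3 * f 1 2 + d 1 * f 2 3
  | 8 => d 3 * f 0 1 - d 3 * f 0 2 - d 0 * f 1 3 + d 0 * f 2 3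
  | 9 => d 2 * f 0 1 - d 1 * f 0 2 - d 2 * f 1 3 + d 1 * f 2 3

theorem comp0 (d : Fin 4 → ℝ) (f : Fin 4 → Fin 4 → ℝ) (h0 : ∀ i, d i ≠ 0)
    (hd : ∀ i j : Fin 4, i ≠ j → d i - d j ≠ 0)
    (e0 : G d f 2 = 0) (e1 : G d f 3 = 0) (e2 : G d f 4 = 0) (e3 : G d f 5 = 0)
    (e : G d f 0 = 0 ∨ G d f 1 = 0 ∨ G d f 6 = 0 ∨ G d f 7 = 0 ∨ G d f 8 = 0 ∨ G d f 9 = 0) :
    ∀ m, G d f m = 0 := by
  have r0 : ((-1 : ℝ)) * G d f 0 + ((1 : ℝ)) * G d f 1 = 0 := by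
    have id : (-1) * G d f 2 + (1) * G d f 3 + (0) * G d f 4
        + ((-1 : ℝ)) * G d f 0 + ((1 : ℝ)) * G d f 1 = 0 := by
      simp only [G]; ring
    rw [e0, e1, e2] at id; linarith
  have n0 : ((-1 : ℝ)) ≠ 0 := (by norm_num)
  have k0 : ((1 : ℝ)) ≠ 0 := (by norm_num)
  have r1 : (d 2 * (d 0 - d 1)) * G d f 0 + ((d 0 - d 1) * (d 2 - d 3)) * G d f 6 = 0 := by
    have id : (-d 0 * d 1 + d 0 * d 2) * G d f 2 + (d 0 * d 1 - d 0 * d 3) * G d f 3 + (-d 0 * d 1 + d 0 * d 3 + d 1 * d 2 - d 2 * d 3) * G d f 4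
        + (d 2 * (d 0 - d 1)) * G d f 0 + ((d 0 - d 1) * (d 2 - d 3)) * G d f 6 = 0 := by
      simp only [G]; ring
    rw [e0, e1, e2] at id; linarith
  have n1 : (d 2 * (d 0 - d 1)) ≠ 0 := (mul_ne_zero (h0 2) (hd 0 1 (by decide)))
  have k1 : ((d 0 - d 1) * (d 2 - d 3)) ≠ 0 := (mul_ne_zero (hd 0 1 (by decide)) (hd 2 3 (by decide)))
  have r2 : (d 3 * (d 0 - d 1)) * G d f 0 + ((d 0 - d 1) * (d 2 - d 3)) * G d f 7 = 0 := by
    have id : (-d 0 * d 1 + d 0 * d 3 + d 1 * d 2 - d 1 * d 3) * G d f 2 + (d 0 * d 1 - d 0 * d 3) * G d f 3 + (-d 0 * d 1 + d 0 * d 3 + d 1 * d 2 - d 2 * d 3) * G d f 4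
        + (d 3 * (d 0 - d 1)) * G d f 0 + ((d 0 - d 1) * (d 2 - d 3)) * G d f 7 = 0 := by
      simp only [G]; ring
    rw [e0, e1, e2] at id; linarith
  have n2 : (d 3 * (d 0 - d 1)) ≠ 0 := (mul_ne_zero (h0 3) (hd 0 1 (by decide)))
  have k2 : ((d 0 - d 1) * (d 2 - d 3)) ≠ 0 := (mul_ne_zero (hd 0 1 (by decide)) (hd 2 3 (by decide)))
  have r3 : (d 3 * (d 0 - d 1)) * G d f 0 + ((d 0 - d 1) * (d 2 - d 3)) * G d f 8 = 0 := by
    have id : (-d 0 * d 1 + d 0 * d 2) * G d f 2 + (d 0 * d 1 - d 0 * d 3) * G d f 3 + (-d 0 * d 1 + d 0 * d 2 + d 1 * d 3 - d 2 * d 3) * G d f 4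
        + (d 3 * (d 0 - d 1)) * G d f 0 + ((d 0 - d 1) * (d 2 - d 3)) * G d f 8 = 0 := by
      simp only [G]; ring
    rw [e0, e1, e2] at id; linarith
  have n3 : (d 3 * (d 0 - d 1)) ≠ 0 := (mul_ne_zero (h0 3) (hd 0 1 (by decide)))
  have k3 : ((d 0 - d 1) * (d 2 - d 3)) ≠ 0 := (mul_ne_zero (hd 0 1 (by decide)) (hd 2 3 (by decide)))
  have r4 : (d 2 * (d 0 - d 1)) * G d f 0 + ((d 0 - d 1) * (d 2 - d 3)) * G d f 9 = 0 := by
    have id : (-d 0 * d 1 + d 0 * d 2) * G d f 2 + (d 0 * d 1 - d 0 * d 2 + d 1 * d 2 - d 1 * d 3) * G d f 3 + (-d 0 * d 1 + d 0 * d 2 + d 1 * d 3 - d 2 * d 3) * G d f 4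
        + (d 2 * (d 0 - d 1)) * G d f 0 + ((d 0 - d 1) * (d 2 - d 3)) * G d f 9 = 0 := by
      simp only [G]; ring
    rw [e0, e1, e2] at id; linarith
  have n4 : (d 2 * (d 0 - d 1)) ≠ 0 := (mul_ne_zero (h0 2) (hd 0 1 (by decide)))
  have k4 : ((d 0 - d 1) * (d 2 - d 3)) ≠ 0 := (mul_ne_zero (hd 0 1 (by decide)) (hd 2 3 (by decide)))
  have base : G d f 0 = 0 := by
    rcases e with e | e | e | e | e | e
    · exact e
    · rw [e, mul_zero, add_zero] at r0; exact (mul_eq_zero.mp r0).resolve_left n0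
    · rw [e, mul_zero, add_zero] at r1; exact (mul_eq_zero.mp r1).resolve_left n1
    · rw [e, mul_zero, add_zero] at r2; exact (mul_eq_zero.mp r2).resolve_left n2
    · rw [e, mul_zero, add_zero] at r3; exact (mul_eq_zero.mp r3).resolve_left n3
    · rw [e, mul_zero, add_zero] at r4; exact (mul_eq_zero.mp r4).resolve_left n4
  have g0 : G d f 1 = 0 := by
    rw [base, mul_zero, zero_add] at r0; exact (mul_eq_zero.mp r0).resolve_left k0
  have g1 : G d f 6 = 0 := by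
    rw [base, mul_zero, zero_add] at r1; exact (mul_eq_zero.mp r1).resolve_left k1
  have g2 : G d f 7 = 0 := by
    rw [base, mul_zero, zero_add] at r2; exact (mul_eq_zero.mp r2).resolve_left k2
  have g3 : G d f 8 = 0 := by
    rw [base, mul_zero, zero_add] at r3; exact (mul_eq_zero.mp r3).resolve_left k3
  have g4 : G d f 9 = 0 := by
    rw [base, mul_zero, zero_add] at r4; exact (mul_eq_zero.mp r4).resolve_left k4
  intro m
  fin_cases m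
  · exact base
  · exact g0
  · exact e0
  · exact e1
  · exact e2
  · exact e3
  · exact g1
  · exact g2
  · exact g3
  · exact g4

theorem comp1 (d : Fin 4 → ℝ) (f : Fin 4 → Fin 4 → ℝ) (h0 : ∀ i, d i ≠ 0)
    (hd : ∀ i j : Fin 4, i ≠ j → d i - d j ≠ 0)
    (e0 : G d f 1 = 0) (e1 : G d f 3 = 0) (e2 : G d f 6 = 0) (e3 : G d f 7 = 0)
    (e : G d f 0 = 0 ∨ G d f 2 = 0 ∨ G d f 4 = 0 ∨ G d f 5 = 0 ∨ G d f 8 = 0 ∨ G d f 9 = 0) :
    ∀ m, G d f m = 0 := by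
  have r0 : ((1 : ℝ)) * G d f 0 + ((1 : ℝ)) * G d f 2 = 0 := by
    have id : (-1) * G d f 1 + (-1) * G d f 3 + (0) * G d f 6
        + ((1 : ℝ)) * G d f 0 + ((1 : ℝ)) * G d f 2 = 0 := by
      simp only [G]; ring
    rw [e0, e1, e2] at id; linarith
  have n0 : ((1 : ℝ)) ≠ 0 := (by norm_num)
  have k0 : ((1 : ℝ)) ≠ 0 := (by norm_num)
  have r1 : ((-1 : ℝ) * (d 1 * (d 0 - d 2))) * G d f 0 + ((d 0 - d 2) * (d 1 - d 3)) * G d f 4 = 0 := by
    have id : (d 0 * d 1 - d 0 * d 2) * G d f 1 + (-d 0 * d 2 + d 0 * d 3) * G d f 3 + (-d 0 * d 2 + d 0 * d 3 + d 1 * d 2 - d 1 * d 3) * G d f 6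
        + ((-1 : ℝ) * (d 1 * (d 0 - d 2))) * G d f 0 + ((d 0 - d 2) * (d 1 - d 3)) * G d f 4 = 0 := by
      simp only [G]; ring
    rw [e0, e1, e2] at id; linarith
  have n1 : ((-1 : ℝ) * (d 1 * (d 0 - d 2))) ≠ 0 := (mul_ne_zero (by norm_num) (mul_ne_zero (h0 1) (hd 0 2 (by decide))))
  have k1 : ((d 0 - d 2) * (d 1 - d 3)) ≠ 0 := (mul_ne_zero (hd 0 2 (by decide)) (hd 1 3 (by decide)))
  have r2 : ((-1 : ℝ) * (d 3 * (d 0 - d 2))) * G d f 0 + ((d 0 - d 2) * (d 1 - d 3)) * G d f 5 = 0 := by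
    have id : (-d 0 * d 2 + d 0 * d 3 + d 1 * d 2 - d 2 * d 3) * G d f 1 + (-d 0 * d 2 + d 0 * d 3) * G d f 3 + (-d 0 * d 2 + d 0 * d 3 + d 1 * d 2 - d 1 * d 3) * G d f 6
        + ((-1 : ℝ) * (d 3 * (d 0 - d 2))) * G d f 0 + ((d 0 - d 2) * (d 1 - d 3)) * G d f 5 = 0 := by
      simp only [G]; ring
    rw [e0, e1, e2] at id; linarith
  have n2 : ((-1 : ℝ) * (d 3 * (d 0 - d 2))) ≠ 0 := (mul_ne_zero (by norm_num) (mul_ne_zero (h0 3) (hd 0 2 (by decide))))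
  have k2 : ((d 0 - d 2) * (d 1 - d 3)) ≠ 0 := (mul_ne_zero (hd 0 2 (by decide)) (hd 1 3 (by decide)))
  have r3 : (d 3 * (d 0 - d 2)) * G d f 0 + ((d 0 - d 2) * (d 1 - d 3)) * G d f 8 = 0 := by
    have id : (-d 0 * d 1 + d 0 * d 2) * G d f 1 + (d 0 * d 2 - d 0 * d 3) * G d f 3 + (-d 0 * d 1 + d 0 * d 2 + d 1 * d 3 - d 2 * d 3) * G d f 6
        + (d 3 * (d 0 - d 2)) * G d f 0 + ((d 0 - d 2) * (d 1 - d 3)) * G d f 8 = 0 := by
      simp only [G]; ring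
    rw [e0, e1, e2] at id; linarith
  have n3 : (d 3 * (d 0 - d 2)) ≠ 0 := (mul_ne_zero (h0 3) (hd 0 2 (by decide)))
  have k3 : ((d 0 - d 2) * (d 1 - d 3)) ≠ 0 := (mul_ne_zero (hd 0 2 (by decide)) (hd 1 3 (by decide)))
  have r4 : (d 1 * (d 0 - d 2)) * G d f 0 + ((d 0 - d 2) * (d 1 - d 3)) * G d f 9 = 0 := by
    have id : (-d 0 * d 1 + d 0 * d 2) * G d f 1 + (-d 0 * d 1 + d 0 * d 2 + d 1 * d 2 - d 2 * d 3) * G d f 3 + (-d 0 * d 1 + d 0 * d 2 + d 1 * d 3 - d 2 * d 3) * G d f 6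
        + (d 1 * (d 0 - d 2)) * G d f 0 + ((d 0 - d 2) * (d 1 - d 3)) * G d f 9 = 0 := by
      simp only [G]; ring
    rw [e0, e1, e2] at id; linarith
  have n4 : (d 1 * (d 0 - d 2)) ≠ 0 := (mul_ne_zero (h0 1) (hd 0 2 (by decide)))
  have k4 : ((d 0 - d 2) * (d 1 - d 3)) ≠ 0 := (mul_ne_zero (hd 0 2 (by decide)) (hd 1 3 (by decide)))
  have base : G d f 0 = 0 := by
    rcases e with e | e | e | e | e | e
    · exact e
    · rw [e, mul_zero, add_zero] at r0; exact (mul_eq_zero.mp r0).resolve_left n0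
    · rw [e, mul_zero, add_zero] at r1; exact (mul_eq_zero.mp r1).resolve_left n1
    · rw [e, mul_zero, add_zero] at r2; exact (mul_eq_zero.mp r2).resolve_left n2
    · rw [e, mul_zero, add_zero] at r3; exact (mul_eq_zero.mp r3).resolve_left n3
    · rw [e, mul_zero, add_zero] at r4; exact (mul_eq_zero.mp r4).resolve_left n4
  have g0 : G d f 2 = 0 := by
    rw [base, mul_zero, zero_add] at r0; exact (mul_eq_zero.mp r0).resolve_left k0
  have g1 : G d f 4 = 0 := by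
    rw [base, mul_zero, zero_add] at r1; exact (mul_eq_zero.mp r1).resolve_left k1
  have g2 : G d f 5 = 0 := by
    rw [base, mul_zero, zero_add] at r2; exact (mul_eq_zero.mp r2).resolve_left k2
  have g3 : G d f 8 = 0 := by
    rw [base, mul_zero, zero_add] at r3; exact (mul_eq_zero.mp r3).resolve_left k3
  have g4 : G d f 9 = 0 := by
    rw [base, mul_zero, zero_add] at r4; exact (mul_eq_zero.mp r4).resolve_left k4
  intro m
  fin_cases m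
  · exact base
  · exact e0
  · exact g0
  · exact e1
  · exact g1
  · exact g2
  · exact e2
  · exact e3
  · exact g3
  · exact g4

theorem comp2 (d : Fin 4 → ℝ) (f : Fin 4 → Fin 4 → ℝ) (h0 : ∀ i, d i ≠ 0)
    (hd : ∀ i j : Fin 4, i ≠ j → d i - d j ≠ 0)
    (e0 : G d f 1 = 0) (e1 : G d f 2 = 0) (e2 : G d f 8 = 0) (e3 : G d f 9 = 0)
    (e : G d f 0 = 0 ∨ G d f 3 = 0 ∨ G d f 4 = 0 ∨ G d f 5 = 0 ∨ G d f 6 = 0 ∨ G d f 7 = 0) :
    ∀ m, G d f m = 0 := by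
  have r0 : ((-1 : ℝ)) * G d f 0 + ((1 : ℝ)) * G d f 3 = 0 := by
    have id : (1) * G d f 1 + (-1) * G d f 2 + (0) * G d f 8
        + ((-1 : ℝ)) * G d f 0 + ((1 : ℝ)) * G d f 3 = 0 := by
      simp only [G]; ring
    rw [e0, e1, e2] at id; linarith
  have n0 : ((-1 : ℝ)) ≠ 0 := (by norm_num)
  have k0 : ((1 : ℝ)) ≠ 0 := (by norm_num)
  have r1 : ((-1 : ℝ) * (d 1 * (d 0 - d 3))) * G d f 0 + ((d 0 - d 3) * (d 1 - d 2)) * G d f 4 = 0 := by
    have id : (d 0 * d 1 - d 0 * d 3) * G d f 1 + (-d 0 * d 2 + d 0 * d 3) * G d f 2 + (-d 0 * d 2 + d 0 * d 3 + d 1 * d 2 - d 1 * d 3) * G d f 8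
        + ((-1 : ℝ) * (d 1 * (d 0 - d 3))) * G d f 0 + ((d 0 - d 3) * (d 1 - d 2)) * G d f 4 = 0 := by
      simp only [G]; ring
    rw [e0, e1, e2] at id; linarith
  have n1 : ((-1 : ℝ) * (d 1 * (d 0 - d 3))) ≠ 0 := (mul_ne_zero (by norm_num) (mul_ne_zero (h0 1) (hd 0 3 (by decide))))
  have k1 : ((d 0 - d 3) * (d 1 - d 2)) ≠ 0 := (mul_ne_zero (hd 0 3 (by decide)) (hd 1 2 (by decide)))
  have r2 : ((-1 : ℝ) * (d 2 * (d 0 - d 3))) * G d f 0 + ((d 0 - d 3) * (d 1 - d 2)) * G d f 5 = 0 := by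
    have id : (d 0 * d 2 - d 0 * d 3 + d 1 * d 3 - d 2 * d 3) * G d f 1 + (-d 0 * d 2 + d 0 * d 3) * G d f 2 + (-d 0 * d 2 + d 0 * d 3 + d 1 * d 2 - d 1 * d 3) * G d f 8
        + ((-1 : ℝ) * (d 2 * (d 0 - d 3))) * G d f 0 + ((d 0 - d 3) * (d 1 - d 2)) * G d f 5 = 0 := by
      simp only [G]; ring
    rw [e0, e1, e2] at id; linarith
  have n2 : ((-1 : ℝ) * (d 2 * (d 0 - d 3))) ≠ 0 := (mul_ne_zero (by norm_num) (mul_ne_zero (h0 2) (hd 0 3 (by decide))))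
  have k2 : ((d 0 - d 3) * (d 1 - d 2)) ≠ 0 := (mul_ne_zero (hd 0 3 (by decide)) (hd 1 2 (by decide)))
  have r3 : ((-1 : ℝ) * (d 2 * (d 0 - d 3))) * G d f 0 + ((d 0 - d 3) * (d 1 - d 2)) * G d f 6 = 0 := by
    have id : (d 0 * d 1 - d 0 * d 3) * G d f 1 + (-d 0 * d 2 + d 0 * d 3) * G d f 2 + (-d 0 * d 1 + d 0 * d 3 + d 1 * d 2 - d 2 * d 3) * G d f 8
        + ((-1 : ℝ) * (d 2 * (d 0 - d 3))) * G d f 0 + ((d 0 - d 3) * (d 1 - d 2)) * G d f 6 = 0 := by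
      simp only [G]; ring
    rw [e0, e1, e2] at id; linarith
  have n3 : ((-1 : ℝ) * (d 2 * (d 0 - d 3))) ≠ 0 := (mul_ne_zero (by norm_num) (mul_ne_zero (h0 2) (hd 0 3 (by decide))))
  have k3 : ((d 0 - d 3) * (d 1 - d 2)) ≠ 0 := (mul_ne_zero (hd 0 3 (by decide)) (hd 1 2 (by decide)))
  have r4 : ((-1 : ℝ) * (d 1 * (d 0 - d 3))) * G d f 0 + ((d 0 - d 3) * (d 1 - d 2)) * G d f 7 = 0 := by
    have id : (d 0 * d 1 - d 0 * d 3) * G d f 1 + (-d 0 * d 1 + d 0 * d 3 + d 1 * d 3 - d 2 * d 3) * G d f 2 + (-d 0 * d 1 + d 0 * d 3 + d 1 * d 2 - d 2 * d 3) * G d f 8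
        + ((-1 : ℝ) * (d 1 * (d 0 - d 3))) * G d f 0 + ((d 0 - d 3) * (d 1 - d 2)) * G d f 7 = 0 := by
      simp only [G]; ring
    rw [e0, e1, e2] at id; linarith
  have n4 : ((-1 : ℝ) * (d 1 * (d 0 - d 3))) ≠ 0 := (mul_ne_zero (by norm_num) (mul_ne_zero (h0 1) (hd 0 3 (by decide))))
  have k4 : ((d 0 - d 3) * (d 1 - d 2)) ≠ 0 := (mul_ne_zero (hd 0 3 (by decide)) (hd 1 2 (by decide)))
  have base : G d f 0 = 0 := by
    rcases e with e | e | e | e | e | e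
    · exact e
    · rw [e, mul_zero, add_zero] at r0; exact (mul_eq_zero.mp r0).resolve_left n0
    · rw [e, mul_zero, add_zero] at r1; exact (mul_eq_zero.mp r1).resolve_left n1
    · rw [e, mul_zero, add_zero] at r2; exact (mul_eq_zero.mp r2).resolve_left n2
    · rw [e, mul_zero, add_zero] at r3; exact (mul_eq_zero.mp r3).resolve_left n3
    · rw [e, mul_zero, add_zero] at r4; exact (mul_eq_zero.mp r4).resolve_left n4
  have g0 : G d f 3 = 0 := by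
    rw [base, mul_zero, zero_add] at r0; exact (mul_eq_zero.mp r0).resolve_left k0
  have g1 : G d f 4 = 0 := by
    rw [base, mul_zero, zero_add] at r1; exact (mul_eq_zero.mp r1).resolve_left k1
  have g2 : G d f 5 = 0 := by
    rw [base, mul_zero, zero_add] at r2; exact (mul_eq_zero.mp r2).resolve_left k2
  have g3 : G d f 6 = 0 := by
    rw [base, mul_zero, zero_add] at r3; exact (mul_eq_zero.mp r3).resolve_left k3
  have g4 : G d f 7 = 0 := by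
    rw [base, mul_zero, zero_add] at r4; exact (mul_eq_zero.mp r4).resolve_left k4
  intro m
  fin_cases m
  · exact base
  · exact e0
  · exact e1
  · exact g0
  · exact g1
  · exact g2
  · exact g3
  · exact g4
  · exact e2
  · exact e3

theorem comp3 (d : Fin 4 → ℝ) (f : Fin 4 → Fin 4 → ℝ) (h0 : ∀ i, d i ≠ 0)
    (hd : ∀ i j : Fin 4, i ≠ j → d i - d j ≠ 0)
    (e0 : G d f 0 = 0) (e1 : G d f 4 = 0) (e2 : G d f 6 = 0) (e3 : G d f 8 = 0)
    (e : G d f 1 = 0 ∨ G d f 2 = 0 ∨ G d f 3 = 0 ∨ G d f 5 = 0 ∨ G d f 7 = 0 ∨ G d f 9 = 0) :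
    ∀ m, G d f m = 0 := by
  have r0 : (d 0 * (d 1 - d 3)) * G d f 1 + ((-1 : ℝ) * (d 0 * (d 2 - d 3))) * G d f 2 = 0 := by
    have id : (-d 0 * d 1 - d 0 * d 2 + d 0 * d 3 + d 1 * d 2) * G d f 0 + (d 0 * d 1 - d 0 * d 3 - d 1 * d 2 + d 2 * d 3) * G d f 4 + (-d 0 * d 2 + d 0 * d 3 + d 1 * d 2 - d 1 * d 3) * G d f 6
        + (d 0 * (d 1 - d 3)) * G d f 1 + ((-1 : ℝ) * (d 0 * (d 2 - d 3))) * G d f 2 = 0 := by
      simp only [G]; ring
    rw [e0, e1, e2] at id; linarith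
  have n0 : (d 0 * (d 1 - d 3)) ≠ 0 := (mul_ne_zero (h0 0) (hd 1 3 (by decide)))
  have k0 : ((-1 : ℝ) * (d 0 * (d 2 - d 3))) ≠ 0 := (mul_ne_zero (by norm_num) (mul_ne_zero (h0 0) (hd 2 3 (by decide))))
  have r1 : (d 0 * (d 1 - d 2)) * G d f 1 + ((-1 : ℝ) * (d 0 * (d 2 - d 3))) * G d f 3 = 0 := by
    have id : (-d 0 * d 1 + d 1 * d 2) * G d f 0 + (d 0 * d 1 - d 0 * d 3 - d 1 * d 2 + d 2 * d 3) * G d f 4 + (-d 0 * d 2 + d 0 * d 3 + d 1 * d 2 - d 1 * d 3) * G d f 6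
        + (d 0 * (d 1 - d 2)) * G d f 1 + ((-1 : ℝ) * (d 0 * (d 2 - d 3))) * G d f 3 = 0 := by
      simp only [G]; ring
    rw [e0, e1, e2] at id; linarith
  have n1 : (d 0 * (d 1 - d 2)) ≠ 0 := (mul_ne_zero (h0 0) (hd 1 2 (by decide)))
  have k1 : ((-1 : ℝ) * (d 0 * (d 2 - d 3))) ≠ 0 := (mul_ne_zero (by norm_num) (mul_ne_zero (h0 0) (hd 2 3 (by decide))))
  have r2 : ((1 : ℝ)) * G d f 1 + ((-1 : ℝ)) * G d f 5 = 0 := by
    have id : (-1) * G d f 0 + (1) * G d f 4 + (0) * G d f 6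
        + ((1 : ℝ)) * G d f 1 + ((-1 : ℝ)) * G d f 5 = 0 := by
      simp only [G]; ring
    rw [e0, e1, e2] at id; linarith
  have n2 : ((1 : ℝ)) ≠ 0 := (by norm_num)
  have k2 : ((-1 : ℝ)) ≠ 0 := (by norm_num)
  have r3 : (d 0 * (d 1 - d 3)) * G d f 1 + ((-1 : ℝ) * (d 0 * (d 2 - d 3))) * G d f 7 = 0 := by
    have id : (-d 0 * d 1 + d 1 * d 2) * G d f 0 + (d 0 * d 1 - d 0 * d 3 - d 1 * d 2 + d 2 * d 3) * G d f 4 + (d 1 * d 2 - d 1 * d 3) * G d f 6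
        + (d 0 * (d 1 - d 3)) * G d f 1 + ((-1 : ℝ) * (d 0 * (d 2 - d 3))) * G d f 7 = 0 := by
      simp only [G]; ring
    rw [e0, e1, e2] at id; linarith
  have n3 : (d 0 * (d 1 - d 3)) ≠ 0 := (mul_ne_zero (h0 0) (hd 1 3 (by decide)))
  have k3 : ((-1 : ℝ) * (d 0 * (d 2 - d 3))) ≠ 0 := (mul_ne_zero (by norm_num) (mul_ne_zero (h0 0) (hd 2 3 (by decide))))
  have r4 : (d 0 * (d 1 - d 2)) * G d f 1 + ((-1 : ℝ) * (d 0 * (d 2 - d 3))) * G d f 9 = 0 := by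
    have id : (-d 0 * d 1 + d 1 * d 2) * G d f 0 + (d 0 * d 1 - d 0 * d 2 - d 1 * d 2 + d 2 * d 3) * G d f 4 + (d 1 * d 2 - d 1 * d 3) * G d f 6
        + (d 0 * (d 1 - d 2)) * G d f 1 + ((-1 : ℝ) * (d 0 * (d 2 - d 3))) * G d f 9 = 0 := by
      simp only [G]; ring
    rw [e0, e1, e2] at id; linarith
  have n4 : (d 0 * (d 1 - d 2)) ≠ 0 := (mul_ne_zero (h0 0) (hd 1 2 (by decide)))
  have k4 : ((-1 : ℝ) * (d 0 * (d 2 - d 3))) ≠ 0 := (mul_ne_zero (by norm_num) (mul_ne_zero (h0 0) (hd 2 3 (by decide))))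
  have base : G d f 1 = 0 := by
    rcases e with e | e | e | e | e | e
    · exact e
    · rw [e, mul_zero, add_zero] at r0; exact (mul_eq_zero.mp r0).resolve_left n0
    · rw [e, mul_zero, add_zero] at r1; exact (mul_eq_zero.mp r1).resolve_left n1
    · rw [e, mul_zero, add_zero] at r2; exact (mul_eq_zero.mp r2).resolve_left n2
    · rw [e, mul_zero, add_zero] at r3; exact (mul_eq_zero.mp r3).resolve_left n3
    · rw [e, mul_zero, add_zero] at r4; exact (mul_eq_zero.mp r4).resolve_left n4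
  have g0 : G d f 2 = 0 := by
    rw [base, mul_zero, zero_add] at r0; exact (mul_eq_zero.mp r0).resolve_left k0
  have g1 : G d f 3 = 0 := by
    rw [base, mul_zero, zero_add] at r1; exact (mul_eq_zero.mp r1).resolve_left k1
  have g2 : G d f 5 = 0 := by
    rw [base, mul_zero, zero_add] at r2; exact (mul_eq_zero.mp r2).resolve_left k2
  have g3 : G d f 7 = 0 := by
    rw [base, mul_zero, zero_add] at r3; exact (mul_eq_zero.mp r3).resolve_left k3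
  have g4 : G d f 9 = 0 := by
    rw [base, mul_zero, zero_add] at r4; exact (mul_eq_zero.mp r4).resolve_left k4
  intro m
  fin_cases m
  · exact e0
  · exact base
  · exact g0
  · exact g1
  · exact e1
  · exact g2
  · exact e2
  · exact g3
  · exact e3
  · exact g4

theorem comp4 (d : Fin 4 → ℝ) (f : Fin 4 → Fin 4 → ℝ) (h0 : ∀ i, d i ≠ 0)
    (hd : ∀ i j : Fin 4, i ≠ j → d i - d j ≠ 0)
    (e0 : G d f 0 = 0) (e1 : G d f 5 = 0) (e2 : G d f 7 = 0) (e3 : G d f 9 = 0)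
    (e : G d f 1 = 0 ∨ G d f 2 = 0 ∨ G d f 3 = 0 ∨ G d f 4 = 0 ∨ G d f 6 = 0 ∨ G d f 8 = 0) :
    ∀ m, G d f m = 0 := by
  have r0 : (d 2 * (d 1 - d 3)) * G d f 1 + ((-1 : ℝ) * (d 1 * (d 2 - d 3))) * G d f 2 = 0 := by
    have id : (-d 0 * d 3 - d 1 * d 2 + d 1 * d 3 + d 2 * d 3) * G d f 0 + (d 0 * d 1 - d 0 * d 3 - d 1 * d 2 + d 2 * d 3) * G d f 5 + (-d 0 * d 2 + d 0 * d 3 + d 1 * d 2 - d 1 * d 3) * G d f 7
        + (d 2 * (d 1 - d 3)) * G d f 1 + ((-1 : ℝ) * (d 1 * (d 2 - d 3))) * G d f 2 = 0 := by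
      simp only [G]; ring
    rw [e0, e1, e2] at id; linarith
  have n0 : (d 2 * (d 1 - d 3)) ≠ 0 := (mul_ne_zero (h0 2) (hd 1 3 (by decide)))
  have k0 : ((-1 : ℝ) * (d 1 * (d 2 - d 3))) ≠ 0 := (mul_ne_zero (by norm_num) (mul_ne_zero (h0 1) (hd 2 3 (by decide))))
  have r1 : (d 3 * (d 1 - d 2)) * G d f 1 + ((-1 : ℝ) * (d 1 * (d 2 - d 3))) * G d f 3 = 0 := by
    have id : (-d 0 * d 3 + d 2 * d 3) * G d f 0 + (d 0 * d 1 - d 0 * d 3 - d 1 * d 2 + d 2 * d 3) * G d f 5 + (-d 0 * d 2 + d 0 * d 3 + d 1 * d 2 - d 1 * d 3) * G d f 7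
        + (d 3 * (d 1 - d 2)) * G d f 1 + ((-1 : ℝ) * (d 1 * (d 2 - d 3))) * G d f 3 = 0 := by
      simp only [G]; ring
    rw [e0, e1, e2] at id; linarith
  have n1 : (d 3 * (d 1 - d 2)) ≠ 0 := (mul_ne_zero (h0 3) (hd 1 2 (by decide)))
  have k1 : ((-1 : ℝ) * (d 1 * (d 2 - d 3))) ≠ 0 := (mul_ne_zero (by norm_num) (mul_ne_zero (h0 1) (hd 2 3 (by decide))))
  have r2 : ((-1 : ℝ)) * G d f 1 + ((-1 : ℝ)) * G d f 4 = 0 := by
    have id : (1) * G d f 0 + (1) * G d f 5 + (0) * G d f 7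
        + ((-1 : ℝ)) * G d f 1 + ((-1 : ℝ)) * G d f 4 = 0 := by
      simp only [G]; ring
    rw [e0, e1, e2] at id; linarith
  have n2 : ((-1 : ℝ)) ≠ 0 := (by norm_num)
  have k2 : ((-1 : ℝ)) ≠ 0 := (by norm_num)
  have r3 : ((-1 : ℝ) * (d 2 * (d 1 - d 3))) * G d f 1 + ((-1 : ℝ) * (d 1 * (d 2 - d 3))) * G d f 6 = 0 := by
    have id : (d 0 * d 3 - d 2 * d 3) * G d f 0 + (-d 0 * d 1 + d 0 * d 3 + d 1 * d 2 - d 2 * d 3) * G d f 5 + (d 0 * d 2 - d 0 * d 3) * G d f 7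
        + ((-1 : ℝ) * (d 2 * (d 1 - d 3))) * G d f 1 + ((-1 : ℝ) * (d 1 * (d 2 - d 3))) * G d f 6 = 0 := by
      simp only [G]; ring
    rw [e0, e1, e2] at id; linarith
  have n3 : ((-1 : ℝ) * (d 2 * (d 1 - d 3))) ≠ 0 := (mul_ne_zero (by norm_num) (mul_ne_zero (h0 2) (hd 1 3 (by decide))))
  have k3 : ((-1 : ℝ) * (d 1 * (d 2 - d 3))) ≠ 0 := (mul_ne_zero (by norm_num) (mul_ne_zero (h0 1) (hd 2 3 (by decide))))
  have r4 : ((-1 : ℝ) * (d 3 * (d 1 - d 2))) * G d f 1 + ((-1 : ℝ) * (d 1 * (d 2 - d 3))) * G d f 8 = 0 := by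
    have id : (d 0 * d 3 - d 2 * d 3) * G d f 0 + (-d 0 * d 1 + d 0 * d 3 + d 1 * d 3 - d 2 * d 3) * G d f 5 + (d 0 * d 2 - d 0 * d 3) * G d f 7
        + ((-1 : ℝ) * (d 3 * (d 1 - d 2))) * G d f 1 + ((-1 : ℝ) * (d 1 * (d 2 - d 3))) * G d f 8 = 0 := by
      simp only [G]; ring
    rw [e0, e1, e2] at id; linarith
  have n4 : ((-1 : ℝ) * (d 3 * (d 1 - d 2))) ≠ 0 := (mul_ne_zero (by norm_num) (mul_ne_zero (h0 3) (hd 1 2 (by decide))))
  have k4 : ((-1 : ℝ) * (d 1 * (d 2 - d 3))) ≠ 0 := (mul_ne_zero (by norm_num) (mul_ne_zero (h0 1) (hd 2 3 (by decide))))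
  have base : G d f 1 = 0 := by
    rcases e with e | e | e | e | e | e
    · exact e
    · rw [e, mul_zero, add_zero] at r0; exact (mul_eq_zero.mp r0).resolve_left n0
    · rw [e, mul_zero, add_zero] at r1; exact (mul_eq_zero.mp r1).resolve_left n1
    · rw [e, mul_zero, add_zero] at r2; exact (mul_eq_zero.mp r2).resolve_left n2
    · rw [e, mul_zero, add_zero] at r3; exact (mul_eq_zero.mp r3).resolve_left n3
    · rw [e, mul_zero, add_zero] at r4; exact (mul_eq_zero.mp r4).resolve_left n4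
  have g0 : G d f 2 = 0 := by
    rw [base, mul_zero, zero_add] at r0; exact (mul_eq_zero.mp r0).resolve_left k0
  have g1 : G d f 3 = 0 := by
    rw [base, mul_zero, zero_add] at r1; exact (mul_eq_zero.mp r1).resolve_left k1
  have g2 : G d f 4 = 0 := by
    rw [base, mul_zero, zero_add] at r2; exact (mul_eq_zero.mp r2).resolve_left k2
  have g3 : G d f 6 = 0 := by
    rw [base, mul_zero, zero_add] at r3; exact (mul_eq_zero.mp r3).resolve_left k3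
  have g4 : G d f 8 = 0 := by
    rw [base, mul_zero, zero_add] at r4; exact (mul_eq_zero.mp r4).resolve_left k4
  intro m
  fin_cases m
  · exact e0
  · exact base
  · exact g0
  · exact g1
  · exact g2
  · exact e1
  · exact g3
  · exact e2
  · exact g4
  · exact e3

theorem comp5 (d : Fin 4 → ℝ) (f : Fin 4 → Fin 4 → ℝ) (h0 : ∀ i, d i ≠ 0)
    (hd : ∀ i j : Fin 4, i ≠ j → d i - d j ≠ 0)
    (e0 : G d f 0 = 0) (e1 : G d f 3 = 0) (e2 : G d f 8 = 0) (e3 : G d f 9 = 0)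
    (e : G d f 1 = 0 ∨ G d f 2 = 0 ∨ G d f 4 = 0 ∨ G d f 5 = 0 ∨ G d f 6 = 0 ∨ G d f 7 = 0) :
    ∀ m, G d f m = 0 := by
  have r0 : ((1 : ℝ)) * G d f 1 + ((-1 : ℝ)) * G d f 2 = 0 := by
    have id : (-1) * G d f 0 + (1) * G d f 3 + (0) * G d f 8
        + ((1 : ℝ)) * G d f 1 + ((-1 : ℝ)) * G d f 2 = 0 := by
      simp only [G]; ring
    rw [e0, e1, e2] at id; linarith
  have n0 : ((1 : ℝ)) ≠ 0 := (by norm_num)
  have k0 : ((-1 : ℝ)) ≠ 0 := (by norm_num)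
  have r1 : ((-1 : ℝ) * (d 0 * (d 1 - d 2))) * G d f 1 + ((-1 : ℝ) * ((d 0 - d 3) * (d 1 - d 2))) * G d f 4 = 0 := by
    have id : (d 0 * d 1 - d 0 * d 2 + d 0 * d 3 - d 1 * d 3) * G d f 0 + (d 0 * d 2 - d 0 * d 3) * G d f 3 + (d 0 * d 2 - d 0 * d 3 - d 1 * d 2 + d 1 * d 3) * G d f 8
        + ((-1 : ℝ) * (d 0 * (d 1 - d 2))) * G d f 1 + ((-1 : ℝ) * ((d 0 - d 3) * (d 1 - d 2))) * G d f 4 = 0 := by
      simp only [G]; ring
    rw [e0, e1, e2] at id; linarith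
  have n1 : ((-1 : ℝ) * (d 0 * (d 1 - d 2))) ≠ 0 := (mul_ne_zero (by norm_num) (mul_ne_zero (h0 0) (hd 1 2 (by decide))))
  have k1 : ((-1 : ℝ) * ((d 0 - d 3) * (d 1 - d 2))) ≠ 0 := (mul_ne_zero (by norm_num) (mul_ne_zero (hd 0 3 (by decide)) (hd 1 2 (by decide))))
  have r2 : ((-1 : ℝ) * (d 3 * (d 1 - d 2))) * G d f 1 + ((-1 : ℝ) * ((d 0 - d 3) * (d 1 - d 2))) * G d f 5 = 0 := by
    have id : (d 0 * d 3 - d 2 * d 3) * G d f 0 + (d 0 * d 2 - d 0 * d 3) * G d f 3 + (d 0 * d 2 - d 0 * d 3 - d 1 * d 2 + d 1 * d 3) * G d f 8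
        + ((-1 : ℝ) * (d 3 * (d 1 - d 2))) * G d f 1 + ((-1 : ℝ) * ((d 0 - d 3) * (d 1 - d 2))) * G d f 5 = 0 := by
      simp only [G]; ring
    rw [e0, e1, e2] at id; linarith
  have n2 : ((-1 : ℝ) * (d 3 * (d 1 - d 2))) ≠ 0 := (mul_ne_zero (by norm_num) (mul_ne_zero (h0 3) (hd 1 2 (by decide))))
  have k2 : ((-1 : ℝ) * ((d 0 - d 3) * (d 1 - d 2))) ≠ 0 := (mul_ne_zero (by norm_num) (mul_ne_zero (hd 0 3 (by decide)) (hd 1 2 (by decide))))
  have r3 : ((-1 : ℝ) * (d 0 * (d 1 - d 2))) * G d f 1 + ((-1 : ℝ) * ((d 0 - d 3) * (d 1 - d 2))) * G d f 6 = 0 := by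
    have id : (d 0 * d 3 - d 2 * d 3) * G d f 0 + (d 0 * d 2 - d 0 * d 3) * G d f 3 + (d 0 * d 1 - d 0 * d 3 - d 1 * d 2 + d 2 * d 3) * G d f 8
        + ((-1 : ℝ) * (d 0 * (d 1 - d 2))) * G d f 1 + ((-1 : ℝ) * ((d 0 - d 3) * (d 1 - d 2))) * G d f 6 = 0 := by
      simp only [G]; ring
    rw [e0, e1, e2] at id; linarith
  have n3 : ((-1 : ℝ) * (d 0 * (d 1 - d 2))) ≠ 0 := (mul_ne_zero (by norm_num) (mul_ne_zero (h0 0) (hd 1 2 (by decide))))
  have k3 : ((-1 : ℝ) * ((d 0 - d 3) * (d 1 - d 2))) ≠ 0 := (mul_ne_zero (by norm_num) (mul_ne_zero (hd 0 3 (by decide)) (hd 1 2 (by decide))))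
  have r4 : ((-1 : ℝ) * (d 3 * (d 1 - d 2))) * G d f 1 + ((-1 : ℝ) * ((d 0 - d 3) * (d 1 - d 2))) * G d f 7 = 0 := by
    have id : (d 0 * d 3 - d 2 * d 3) * G d f 0 + (d 0 * d 1 - d 0 * d 3 - d 1 * d 3 + d 2 * d 3) * G d f 3 + (d 0 * d 1 - d 0 * d 3 - d 1 * d 2 + d 2 * d 3) * G d f 8
        + ((-1 : ℝ) * (d 3 * (d 1 - d 2))) * G d f 1 + ((-1 : ℝ) * ((d 0 - d 3) * (d 1 - d 2))) * G d f 7 = 0 := by
      simp only [G]; ring
    rw [e0, e1, e2] at id; linarith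
  have n4 : ((-1 : ℝ) * (d 3 * (d 1 - d 2))) ≠ 0 := (mul_ne_zero (by norm_num) (mul_ne_zero (h0 3) (hd 1 2 (by decide))))
  have k4 : ((-1 : ℝ) * ((d 0 - d 3) * (d 1 - d 2))) ≠ 0 := (mul_ne_zero (by norm_num) (mul_ne_zero (hd 0 3 (by decide)) (hd 1 2 (by decide))))
  have base : G d f 1 = 0 := by
    rcases e with e | e | e | e | e | e
    · exact e
    · rw [e, mul_zero, add_zero] at r0; exact (mul_eq_zero.mp r0).resolve_left n0
    · rw [e, mul_zero, add_zero] at r1; exact (mul_eq_zero.mp r1).resolve_left n1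
    · rw [e, mul_zero, add_zero] at r2; exact (mul_eq_zero.mp r2).resolve_left n2
    · rw [e, mul_zero, add_zero] at r3; exact (mul_eq_zero.mp r3).resolve_left n3
    · rw [e, mul_zero, add_zero] at r4; exact (mul_eq_zero.mp r4).resolve_left n4
  have g0 : G d f 2 = 0 := by
    rw [base, mul_zero, zero_add] at r0; exact (mul_eq_zero.mp r0).resolve_left k0
  have g1 : G d f 4 = 0 := by
    rw [base, mul_zero, zero_add] at r1; exact (mul_eq_zero.mp r1).resolve_left k1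
  have g2 : G d f 5 = 0 := by
    rw [base, mul_zero, zero_add] at r2; exact (mul_eq_zero.mp r2).resolve_left k2
  have g3 : G d f 6 = 0 := by
    rw [base, mul_zero, zero_add] at r3; exact (mul_eq_zero.mp r3).resolve_left k3
  have g4 : G d f 7 = 0 := by
    rw [base, mul_zero, zero_add] at r4; exact (mul_eq_zero.mp r4).resolve_left k4
  intro m
  fin_cases m
  · exact e0
  · exact base
  · exact g0
  · exact e1
  · exact g1
  · exact g2
  · exact g3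
  · exact g4
  · exact e2
  · exact e3

theorem comp6 (d : Fin 4 → ℝ) (f : Fin 4 → Fin 4 → ℝ) (h0 : ∀ i, d i ≠ 0)
    (hd : ∀ i j : Fin 4, i ≠ j → d i - d j ≠ 0)
    (e0 : G d f 0 = 0) (e1 : G d f 2 = 0) (e2 : G d f 6 = 0) (e3 : G d f 7 = 0)
    (e : G d f 1 = 0 ∨ G d f 3 = 0 ∨ G d f 4 = 0 ∨ G d f 5 = 0 ∨ G d f 8 = 0 ∨ G d f 9 = 0) :
    ∀ m, G d f m = 0 := by
  have r0 : ((-1 : ℝ)) * G d f 1 + ((-1 : ℝ)) * G d f 3 = 0 := by
    have id : (1) * G d f 0 + (1) * G d f 2 + (0) * G d f 6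
        + ((-1 : ℝ)) * G d f 1 + ((-1 : ℝ)) * G d f 3 = 0 := by
      simp only [G]; ring
    rw [e0, e1, e2] at id; linarith
  have n0 : ((-1 : ℝ)) ≠ 0 := (by norm_num)
  have k0 : ((-1 : ℝ)) ≠ 0 := (by norm_num)
  have r1 : ((-1 : ℝ) * (d 0 * (d 1 - d 3))) * G d f 1 + ((-1 : ℝ) * ((d 0 - d 2) * (d 1 - d 3))) * G d f 4 = 0 := by
    have id : (d 0 * d 1 + d 0 * d 2 - d 0 * d 3 - d 1 * d 2) * G d f 0 + (d 0 * d 2 - d 0 * d 3) * G d f 2 + (d 0 * d 2 - d 0 * d 3 - d 1 * d 2 + d 1 * d 3) * G d f 6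
        + ((-1 : ℝ) * (d 0 * (d 1 - d 3))) * G d f 1 + ((-1 : ℝ) * ((d 0 - d 2) * (d 1 - d 3))) * G d f 4 = 0 := by
      simp only [G]; ring
    rw [e0, e1, e2] at id; linarith
  have n1 : ((-1 : ℝ) * (d 0 * (d 1 - d 3))) ≠ 0 := (mul_ne_zero (by norm_num) (mul_ne_zero (h0 0) (hd 1 3 (by decide))))
  have k1 : ((-1 : ℝ) * ((d 0 - d 2) * (d 1 - d 3))) ≠ 0 := (mul_ne_zero (by norm_num) (mul_ne_zero (hd 0 2 (by decide)) (hd 1 3 (by decide))))
  have r2 : ((-1 : ℝ) * (d 2 * (d 1 - d 3))) * G d f 1 + ((-1 : ℝ) * ((d 0 - d 2) * (d 1 - d 3))) * G d f 5 = 0 := by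
    have id : (d 0 * d 2 - d 2 * d 3) * G d f 0 + (d 0 * d 2 - d 0 * d 3) * G d f 2 + (d 0 * d 2 - d 0 * d 3 - d 1 * d 2 + d 1 * d 3) * G d f 6
        + ((-1 : ℝ) * (d 2 * (d 1 - d 3))) * G d f 1 + ((-1 : ℝ) * ((d 0 - d 2) * (d 1 - d 3))) * G d f 5 = 0 := by
      simp only [G]; ring
    rw [e0, e1, e2] at id; linarith
  have n2 : ((-1 : ℝ) * (d 2 * (d 1 - d 3))) ≠ 0 := (mul_ne_zero (by norm_num) (mul_ne_zero (h0 2) (hd 1 3 (by decide))))
  have k2 : ((-1 : ℝ) * ((d 0 - d 2) * (d 1 - d 3))) ≠ 0 := (mul_ne_zero (by norm_num) (mul_ne_zero (hd 0 2 (by decide)) (hd 1 3 (by decide))))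
  have r3 : (d 0 * (d 1 - d 3)) * G d f 1 + ((-1 : ℝ) * ((d 0 - d 2) * (d 1 - d 3))) * G d f 8 = 0 := by
    have id : (-d 0 * d 2 + d 2 * d 3) * G d f 0 + (-d 0 * d 2 + d 0 * d 3) * G d f 2 + (d 0 * d 1 - d 0 * d 2 - d 1 * d 3 + d 2 * d 3) * G d f 6
        + (d 0 * (d 1 - d 3)) * G d f 1 + ((-1 : ℝ) * ((d 0 - d 2) * (d 1 - d 3))) * G d f 8 = 0 := by
      simp only [G]; ring
    rw [e0, e1, e2] at id; linarith
  have n3 : (d 0 * (d 1 - d 3)) ≠ 0 := (mul_ne_zero (h0 0) (hd 1 3 (by decide)))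
  have k3 : ((-1 : ℝ) * ((d 0 - d 2) * (d 1 - d 3))) ≠ 0 := (mul_ne_zero (by norm_num) (mul_ne_zero (hd 0 2 (by decide)) (hd 1 3 (by decide))))
  have r4 : (d 2 * (d 1 - d 3)) * G d f 1 + ((-1 : ℝ) * ((d 0 - d 2) * (d 1 - d 3))) * G d f 9 = 0 := by
    have id : (-d 0 * d 2 + d 2 * d 3) * G d f 0 + (d 0 * d 1 - d 0 * d 2 - d 1 * d 2 + d 2 * d 3) * G d f 2 + (d 0 * d 1 - d 0 * d 2 - d 1 * d 3 + d 2 * d 3) * G d f 6
        + (d 2 * (d 1 - d 3)) * G d f 1 + ((-1 : ℝ) * ((d 0 - d 2) * (d 1 - d 3))) * G d f 9 = 0 := by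
      simp only [G]; ring
    rw [e0, e1, e2] at id; linarith
  have n4 : (d 2 * (d 1 - d 3)) ≠ 0 := (mul_ne_zero (h0 2) (hd 1 3 (by decide)))
  have k4 : ((-1 : ℝ) * ((d 0 - d 2) * (d 1 - d 3))) ≠ 0 := (mul_ne_zero (by norm_num) (mul_ne_zero (hd 0 2 (by decide)) (hd 1 3 (by decide))))
  have base : G d f 1 = 0 := by
    rcases e with e | e | e | e | e | e
    · exact e
    · rw [e, mul_zero, add_zero] at r0; exact (mul_eq_zero.mp r0).resolve_left n0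
    · rw [e, mul_zero, add_zero] at r1; exact (mul_eq_zero.mp r1).resolve_left n1
    · rw [e, mul_zero, add_zero] at r2; exact (mul_eq_zero.mp r2).resolve_left n2
    · rw [e, mul_zero, add_zero] at r3; exact (mul_eq_zero.mp r3).resolve_left n3
    · rw [e, mul_zero, add_zero] at r4; exact (mul_eq_zero.mp r4).resolve_left n4
  have g0 : G d f 3 = 0 := by
    rw [base, mul_zero, zero_add] at r0; exact (mul_eq_zero.mp r0).resolve_left k0
  have g1 : G d f 4 = 0 := by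
    rw [base, mul_zero, zero_add] at r1; exact (mul_eq_zero.mp r1).resolve_left k1
  have g2 : G d f 5 = 0 := by
    rw [base, mul_zero, zero_add] at r2; exact (mul_eq_zero.mp r2).resolve_left k2
  have g3 : G d f 8 = 0 := by
    rw [base, mul_zero, zero_add] at r3; exact (mul_eq_zero.mp r3).resolve_left k3
  have g4 : G d f 9 = 0 := by
    rw [base, mul_zero, zero_add] at r4; exact (mul_eq_zero.mp r4).resolve_left k4
  intro m
  fin_cases m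
  · exact e0
  · exact base
  · exact e1
  · exact g0
  · exact g1
  · exact g2
  · exact e2
  · exact e3
  · exact g3
  · exact g4

theorem comp7 (d : Fin 4 → ℝ) (f : Fin 4 → Fin 4 → ℝ) (h0 : ∀ i, d i ≠ 0)
    (hd : ∀ i j : Fin 4, i ≠ j → d i - d j ≠ 0)
    (e0 : G d f 1 = 0) (e1 : G d f 4 = 0) (e2 : G d f 7 = 0) (e3 : G d f 9 = 0)
    (e : G d f 0 = 0 ∨ G d f 2 = 0 ∨ G d f 3 = 0 ∨ G d f 5 = 0 ∨ G d f 6 = 0 ∨ G d f 8 = 0) :
    ∀ m, G d f m = 0 := by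
  have r0 : (d 1 * (d 0 - d 3)) * G d f 0 + (d 1 * (d 2 - d 3)) * G d f 2 = 0 := by
    have id : (-d 0 * d 1 + d 0 * d 3) * G d f 1 + (-d 0 * d 1 + d 0 * d 3 + d 1 * d 2 - d 2 * d 3) * G d f 4 + (d 0 * d 2 - d 0 * d 3 - d 1 * d 2 + d 1 * d 3) * G d f 7
        + (d 1 * (d 0 - d 3)) * G d f 0 + (d 1 * (d 2 - d 3)) * G d f 2 = 0 := by
      simp only [G]; ring
    rw [e0, e1, e2] at id; linarith
  have n0 : (d 1 * (d 0 - d 3)) ≠ 0 := (mul_ne_zero (h0 1) (hd 0 3 (by decide)))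
  have k0 : (d 1 * (d 2 - d 3)) ≠ 0 := (mul_ne_zero (h0 1) (hd 2 3 (by decide)))
  have r1 : (d 1 * (d 0 - d 2)) * G d f 0 + (d 1 * (d 2 - d 3)) * G d f 3 = 0 := by
    have id : (-d 0 * d 1 + d 0 * d 3 + d 1 * d 2 - d 1 * d 3) * G d f 1 + (-d 0 * d 1 + d 0 * d 3 + d 1 * d 2 - d 2 * d 3) * G d f 4 + (d 0 * d 2 - d 0 * d 3 - d 1 * d 2 + d 1 * d 3) * G d f 7
        + (d 1 * (d 0 - d 2)) * G d f 0 + (d 1 * (d 2 - d 3)) * G d f 3 = 0 := by
      simp only [G]; ring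
    rw [e0, e1, e2] at id; linarith
  have n1 : (d 1 * (d 0 - d 2)) ≠ 0 := (mul_ne_zero (h0 1) (hd 0 2 (by decide)))
  have k1 : (d 1 * (d 2 - d 3)) ≠ 0 := (mul_ne_zero (h0 1) (hd 2 3 (by decide)))
  have r2 : ((1 : ℝ)) * G d f 0 + ((1 : ℝ)) * G d f 5 = 0 := by
    have id : (-1) * G d f 1 + (-1) * G d f 4 + (0) * G d f 7
        + ((1 : ℝ)) * G d f 0 + ((1 : ℝ)) * G d f 5 = 0 := by
      simp only [G]; ring
    rw [e0, e1, e2] at id; linarith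
  have n2 : ((1 : ℝ)) ≠ 0 := (by norm_num)
  have k2 : ((1 : ℝ)) ≠ 0 := (by norm_num)
  have r3 : ((-1 : ℝ) * (d 1 * (d 0 - d 2))) * G d f 0 + (d 1 * (d 2 - d 3)) * G d f 6 = 0 := by
    have id : (d 0 * d 1 - d 0 * d 3) * G d f 1 + (d 0 * d 1 - d 0 * d 3 - d 1 * d 2 + d 2 * d 3) * G d f 4 + (-d 0 * d 2 + d 0 * d 3) * G d f 7
        + ((-1 : ℝ) * (d 1 * (d 0 - d 2))) * G d f 0 + (d 1 * (d 2 - d 3)) * G d f 6 = 0 := by
      simp only [G]; ring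
    rw [e0, e1, e2] at id; linarith
  have n3 : ((-1 : ℝ) * (d 1 * (d 0 - d 2))) ≠ 0 := (mul_ne_zero (by norm_num) (mul_ne_zero (h0 1) (hd 0 2 (by decide))))
  have k3 : (d 1 * (d 2 - d 3)) ≠ 0 := (mul_ne_zero (h0 1) (hd 2 3 (by decide)))
  have r4 : ((-1 : ℝ) * (d 1 * (d 0 - d 3))) * G d f 0 + (d 1 * (d 2 - d 3)) * G d f 8 = 0 := by
    have id : (d 0 * d 1 - d 0 * d 3) * G d f 1 + (d 0 * d 1 - d 0 * d 3 - d 1 * d 3 + d 2 * d 3) * G d f 4 + (-d 0 * d 2 + d 0 * d 3) * G d f 7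
        + ((-1 : ℝ) * (d 1 * (d 0 - d 3))) * G d f 0 + (d 1 * (d 2 - d 3)) * G d f 8 = 0 := by
      simp only [G]; ring
    rw [e0, e1, e2] at id; linarith
  have n4 : ((-1 : ℝ) * (d 1 * (d 0 - d 3))) ≠ 0 := (mul_ne_zero (by norm_num) (mul_ne_zero (h0 1) (hd 0 3 (by decide))))
  have k4 : (d 1 * (d 2 - d 3)) ≠ 0 := (mul_ne_zero (h0 1) (hd 2 3 (by decide)))
  have base : G d f 0 = 0 := by
    rcases e with e | e | e | e | e | e
    · exact e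
    · rw [e, mul_zero, add_zero] at r0; exact (mul_eq_zero.mp r0).resolve_left n0
    · rw [e, mul_zero, add_zero] at r1; exact (mul_eq_zero.mp r1).resolve_left n1
    · rw [e, mul_zero, add_zero] at r2; exact (mul_eq_zero.mp r2).resolve_left n2
    · rw [e, mul_zero, add_zero] at r3; exact (mul_eq_zero.mp r3).resolve_left n3
    · rw [e, mul_zero, add_zero] at r4; exact (mul_eq_zero.mp r4).resolve_left n4
  have g0 : G d f 2 = 0 := by
    rw [base, mul_zero, zero_add] at r0; exact (mul_eq_zero.mp r0).resolve_left k0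
  have g1 : G d f 3 = 0 := by
    rw [base, mul_zero, zero_add] at r1; exact (mul_eq_zero.mp r1).resolve_left k1
  have g2 : G d f 5 = 0 := by
    rw [base, mul_zero, zero_add] at r2; exact (mul_eq_zero.mp r2).resolve_left k2
  have g3 : G d f 6 = 0 := by
    rw [base, mul_zero, zero_add] at r3; exact (mul_eq_zero.mp r3).resolve_left k3
  have g4 : G d f 8 = 0 := by
    rw [base, mul_zero, zero_add] at r4; exact (mul_eq_zero.mp r4).resolve_left k4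
  intro m
  fin_cases m
  · exact base
  · exact e0
  · exact g0
  · exact g1
  · exact e1
  · exact g2
  · exact g3
  · exact e2
  · exact g4
  · exact e3

theorem comp8 (d : Fin 4 → ℝ) (f : Fin 4 → Fin 4 → ℝ) (h0 : ∀ i, d i ≠ 0)
    (hd : ∀ i j : Fin 4, i ≠ j → d i - d j ≠ 0)
    (e0 : G d f 1 = 0) (e1 : G d f 5 = 0) (e2 : G d f 6 = 0) (e3 : G d f 8 = 0)
    (e : G d f 0 = 0 ∨ G d f 2 = 0 ∨ G d f 3 = 0 ∨ G d f 4 = 0 ∨ G d f 7 = 0 ∨ G d f 9 = 0) :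
    ∀ m, G d f m = 0 := by
  have r0 : (d 2 * (d 0 - d 3)) * G d f 0 + (d 0 * (d 2 - d 3)) * G d f 2 = 0 := by
    have id : (-d 1 * d 2 + d 2 * d 3) * G d f 1 + (-d 0 * d 1 + d 0 * d 3 + d 1 * d 2 - d 2 * d 3) * G d f 5 + (d 0 * d 2 - d 0 * d 3 - d 1 * d 2 + d 1 * d 3) * G d f 6
        + (d 2 * (d 0 - d 3)) * G d f 0 + (d 0 * (d 2 - d 3)) * G d f 2 = 0 := by
      simp only [G]; ring
    rw [e0, e1, e2] at id; linarith
  have n0 : (d 2 * (d 0 - d 3)) ≠ 0 := (mul_ne_zero (h0 2) (hd 0 3 (by decide)))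
  have k0 : (d 0 * (d 2 - d 3)) ≠ 0 := (mul_ne_zero (h0 0) (hd 2 3 (by decide)))
  have r1 : (d 3 * (d 0 - d 2)) * G d f 0 + (d 0 * (d 2 - d 3)) * G d f 3 = 0 := by
    have id : (d 0 * d 2 - d 0 * d 3 - d 1 * d 2 + d 2 * d 3) * G d f 1 + (-d 0 * d 1 + d 0 * d 3 + d 1 * d 2 - d 2 * d 3) * G d f 5 + (d 0 * d 2 - d 0 * d 3 - d 1 * d 2 + d 1 * d 3) * G d f 6
        + (d 3 * (d 0 - d 2)) * G d f 0 + (d 0 * (d 2 - d 3)) * G d f 3 = 0 := by
      simp only [G]; ring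
    rw [e0, e1, e2] at id; linarith
  have n1 : (d 3 * (d 0 - d 2)) ≠ 0 := (mul_ne_zero (h0 3) (hd 0 2 (by decide)))
  have k1 : (d 0 * (d 2 - d 3)) ≠ 0 := (mul_ne_zero (h0 0) (hd 2 3 (by decide)))
  have r2 : ((-1 : ℝ)) * G d f 0 + ((1 : ℝ)) * G d f 4 = 0 := by
    have id : (1) * G d f 1 + (-1) * G d f 5 + (0) * G d f 6
        + ((-1 : ℝ)) * G d f 0 + ((1 : ℝ)) * G d f 4 = 0 := by
      simp only [G]; ring
    rw [e0, e1, e2] at id; linarith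
  have n2 : ((-1 : ℝ)) ≠ 0 := (by norm_num)
  have k2 : ((1 : ℝ)) ≠ 0 := (by norm_num)
  have r3 : (d 3 * (d 0 - d 2)) * G d f 0 + (d 0 * (d 2 - d 3)) * G d f 7 = 0 := by
    have id : (-d 1 * d 2 + d 2 * d 3) * G d f 1 + (-d 0 * d 1 + d 0 * d 3 + d 1 * d 2 - d 2 * d 3) * G d f 5 + (-d 1 * d 2 + d 1 * d 3) * G d f 6
        + (d 3 * (d 0 - d 2)) * G d f 0 + (d 0 * (d 2 - d 3)) * G d f 7 = 0 := by
      simp only [G]; ring
    rw [e0, e1, e2] at id; linarith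
  have n3 : (d 3 * (d 0 - d 2)) ≠ 0 := (mul_ne_zero (h0 3) (hd 0 2 (by decide)))
  have k3 : (d 0 * (d 2 - d 3)) ≠ 0 := (mul_ne_zero (h0 0) (hd 2 3 (by decide)))
  have r4 : (d 2 * (d 0 - d 3)) * G d f 0 + (d 0 * (d 2 - d 3)) * G d f 9 = 0 := by
    have id : (-d 1 * d 2 + d 2 * d 3) * G d f 1 + (-d 0 * d 1 + d 0 * d 2 + d 1 * d 2 - d 2 * d 3) * G d f 5 + (-d 1 * d 2 + d 1 * d 3) * G d f 6
        + (d 2 * (d 0 - d 3)) * G d f 0 + (d 0 * (d 2 - d 3)) * G d f 9 = 0 := by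
      simp only [G]; ring
    rw [e0, e1, e2] at id; linarith
  have n4 : (d 2 * (d 0 - d 3)) ≠ 0 := (mul_ne_zero (h0 2) (hd 0 3 (by decide)))
  have k4 : (d 0 * (d 2 - d 3)) ≠ 0 := (mul_ne_zero (h0 0) (hd 2 3 (by decide)))
  have base : G d f 0 = 0 := by
    rcases e with e | e | e | e | e | e
    · exact e
    · rw [e, mul_zero, add_zero] at r0; exact (mul_eq_zero.mp r0).resolve_left n0
    · rw [e, mul_zero, add_zero] at r1; exact (mul_eq_zero.mp r1).resolve_left n1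
    · rw [e, mul_zero, add_zero] at r2; exact (mul_eq_zero.mp r2).resolve_left n2
    · rw [e, mul_zero, add_zero] at r3; exact (mul_eq_zero.mp r3).resolve_left n3
    · rw [e, mul_zero, add_zero] at r4; exact (mul_eq_zero.mp r4).resolve_left n4
  have g0 : G d f 2 = 0 := by
    rw [base, mul_zero, zero_add] at r0; exact (mul_eq_zero.mp r0).resolve_left k0
  have g1 : G d f 3 = 0 := by
    rw [base, mul_zero, zero_add] at r1; exact (mul_eq_zero.mp r1).resolve_left k1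
  have g2 : G d f 4 = 0 := by
    rw [base, mul_zero, zero_add] at r2; exact (mul_eq_zero.mp r2).resolve_left k2
  have g3 : G d f 7 = 0 := by
    rw [base, mul_zero, zero_add] at r3; exact (mul_eq_zero.mp r3).resolve_left k3
  have g4 : G d f 9 = 0 := by
    rw [base, mul_zero, zero_add] at r4; exact (mul_eq_zero.mp r4).resolve_left k4
  intro m
  fin_cases m
  · exact base
  · exact e0
  · exact g0
  · exact g1
  · exact g2
  · exact e1
  · exact e2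
  · exact g3
  · exact e3
  · exact g4

theorem comp9 (d : Fin 4 → ℝ) (f : Fin 4 → Fin 4 → ℝ) (h0 : ∀ i, d i ≠ 0)
    (hd : ∀ i j : Fin 4, i ≠ j → d i - d j ≠ 0)
    (e0 : G d f 0 = 0) (e1 : G d f 1 = 0) (e2 : G d f 4 = 0) (e3 : G d f 5 = 0)
    (e : G d f 2 = 0 ∨ G d f 3 = 0 ∨ G d f 6 = 0 ∨ G d f 7 = 0 ∨ G d f 8 = 0 ∨ G d f 9 = 0) :
    ∀ m, G d f m = 0 := by
  have r0 : ((-1 : ℝ)) * G d f 2 + ((1 : ℝ)) * G d f 3 = 0 := by
    have id : (-1) * G d f 0 + (1) * G d f 1 + (0) * G d f 4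
        + ((-1 : ℝ)) * G d f 2 + ((1 : ℝ)) * G d f 3 = 0 := by
      simp only [G]; ring
    rw [e0, e1, e2] at id; linarith
  have n0 : ((-1 : ℝ)) ≠ 0 := (by norm_num)
  have k0 : ((1 : ℝ)) ≠ 0 := (by norm_num)
  have r1 : (d 0 * (d 2 - d 3)) * G d f 2 + ((d 0 - d 1) * (d 2 - d 3)) * G d f 6 = 0 := by
    have id : (d 0 * d 1 + d 0 * d 2 - d 0 * d 3 - d 1 * d 2) * G d f 0 + (-d 0 * d 1 + d 0 * d 3) * G d f 1 + (-d 0 * d 1 + d 0 * d 3 + d 1 * d 2 - d 2 * d 3) * G d f 4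
        + (d 0 * (d 2 - d 3)) * G d f 2 + ((d 0 - d 1) * (d 2 - d 3)) * G d f 6 = 0 := by
      simp only [G]; ring
    rw [e0, e1, e2] at id; linarith
  have n1 : (d 0 * (d 2 - d 3)) ≠ 0 := (mul_ne_zero (h0 0) (hd 2 3 (by decide)))
  have k1 : ((d 0 - d 1) * (d 2 - d 3)) ≠ 0 := (mul_ne_zero (hd 0 1 (by decide)) (hd 2 3 (by decide)))
  have r2 : (d 1 * (d 2 - d 3)) * G d f 2 + ((d 0 - d 1) * (d 2 - d 3)) * G d f 7 = 0 := by
    have id : (d 0 * d 1 - d 1 * d 3) * G d f 0 + (-d 0 * d 1 + d 0 * d 3) * G d f 1 + (-d 0 * d 1 + d 0 * d 3 + d 1 * d 2 - d 2 * d 3) * G d f 4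
        + (d 1 * (d 2 - d 3)) * G d f 2 + ((d 0 - d 1) * (d 2 - d 3)) * G d f 7 = 0 := by
      simp only [G]; ring
    rw [e0, e1, e2] at id; linarith
  have n2 : (d 1 * (d 2 - d 3)) ≠ 0 := (mul_ne_zero (h0 1) (hd 2 3 (by decide)))
  have k2 : ((d 0 - d 1) * (d 2 - d 3)) ≠ 0 := (mul_ne_zero (hd 0 1 (by decide)) (hd 2 3 (by decide)))
  have r3 : (d 0 * (d 2 - d 3)) * G d f 2 + ((d 0 - d 1) * (d 2 - d 3)) * G d f 8 = 0 := by
    have id : (d 0 * d 1 - d 1 * d 3) * G d f 0 + (-d 0 * d 1 + d 0 * d 3) * G d f 1 + (-d 0 * d 1 + d 0 * d 2 + d 1 * d 3 - d 2 * d 3) * G d f 4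
        + (d 0 * (d 2 - d 3)) * G d f 2 + ((d 0 - d 1) * (d 2 - d 3)) * G d f 8 = 0 := by
      simp only [G]; ring
    rw [e0, e1, e2] at id; linarith
  have n3 : (d 0 * (d 2 - d 3)) ≠ 0 := (mul_ne_zero (h0 0) (hd 2 3 (by decide)))
  have k3 : ((d 0 - d 1) * (d 2 - d 3)) ≠ 0 := (mul_ne_zero (hd 0 1 (by decide)) (hd 2 3 (by decide)))
  have r4 : (d 1 * (d 2 - d 3)) * G d f 2 + ((d 0 - d 1) * (d 2 - d 3)) * G d f 9 = 0 := by
    have id : (d 0 * d 1 - d 1 * d 3) * G d f 0 + (-d 0 * d 1 + d 0 * d 2 - d 1 * d 2 + d 1 * d 3) * G d f 1 + (-d 0 * d 1 + d 0 * d 2 + d 1 * d 3 - d 2 * d 3) * G d f 4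
        + (d 1 * (d 2 - d 3)) * G d f 2 + ((d 0 - d 1) * (d 2 - d 3)) * G d f 9 = 0 := by
      simp only [G]; ring
    rw [e0, e1, e2] at id; linarith
  have n4 : (d 1 * (d 2 - d 3)) ≠ 0 := (mul_ne_zero (h0 1) (hd 2 3 (by decide)))
  have k4 : ((d 0 - d 1) * (d 2 - d 3)) ≠ 0 := (mul_ne_zero (hd 0 1 (by decide)) (hd 2 3 (by decide)))
  have base : G d f 2 = 0 := by
    rcases e with e | e | e | e | e | e
    · exact e
    · rw [e, mul_zero, add_zero] at r0; exact (mul_eq_zero.mp r0).resolve_left n0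
    · rw [e, mul_zero, add_zero] at r1; exact (mul_eq_zero.mp r1).resolve_left n1
    · rw [e, mul_zero, add_zero] at r2; exact (mul_eq_zero.mp r2).resolve_left n2
    · rw [e, mul_zero, add_zero] at r3; exact (mul_eq_zero.mp r3).resolve_left n3
    · rw [e, mul_zero, add_zero] at r4; exact (mul_eq_zero.mp r4).resolve_left n4
  have g0 : G d f 3 = 0 := by
    rw [base, mul_zero, zero_add] at r0; exact (mul_eq_zero.mp r0).resolve_left k0
  have g1 : G d f 6 = 0 := by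
    rw [base, mul_zero, zero_add] at r1; exact (mul_eq_zero.mp r1).resolve_left k1
  have g2 : G d f 7 = 0 := by
    rw [base, mul_zero, zero_add] at r2; exact (mul_eq_zero.mp r2).resolve_left k2
  have g3 : G d f 8 = 0 := by
    rw [base, mul_zero, zero_add] at r3; exact (mul_eq_zero.mp r3).resolve_left k3
  have g4 : G d f 9 = 0 := by
    rw [base, mul_zero, zero_add] at r4; exact (mul_eq_zero.mp r4).resolve_left k4
  intro m
  fin_cases m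
  · exact e0
  · exact e1
  · exact base
  · exact g0
  · exact e2
  · exact e3
  · exact g1
  · exact g2
  · exact g3
  · exact g4

theorem comp10 (d : Fin 4 → ℝ) (f : Fin 4 → Fin 4 → ℝ) (h0 : ∀ i, d i ≠ 0)
    (hd : ∀ i j : Fin 4, i ≠ j → d i - d j ≠ 0)
    (e0 : G d f 2 = 0) (e1 : G d f 5 = 0) (e2 : G d f 6 = 0) (e3 : G d f 9 = 0)
    (e : G d f 0 = 0 ∨ G d f 1 = 0 ∨ G d f 3 = 0 ∨ G d f 4 = 0 ∨ G d f 7 = 0 ∨ G d f 8 = 0) :
    ∀ m, G d f m = 0 := by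
  have r0 : ((-1 : ℝ) * (d 2 * (d 0 - d 3))) * G d f 0 + (d 2 * (d 1 - d 3)) * G d f 1 = 0 := by
    have id : (-d 0 * d 2 + d 0 * d 3) * G d f 2 + (d 0 * d 1 - d 0 * d 3 - d 1 * d 2 + d 2 * d 3) * G d f 5 + (-d 0 * d 2 + d 0 * d 3 + d 1 * d 2 - d 1 * d 3) * G d f 6
        + ((-1 : ℝ) * (d 2 * (d 0 - d 3))) * G d f 0 + (d 2 * (d 1 - d 3)) * G d f 1 = 0 := by
      simp only [G]; ring
    rw [e0, e1, e2] at id; linarith
  have n0 : ((-1 : ℝ) * (d 2 * (d 0 - d 3))) ≠ 0 := (mul_ne_zero (by norm_num) (mul_ne_zero (h0 2) (hd 0 3 (by decide))))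
  have k0 : (d 2 * (d 1 - d 3)) ≠ 0 := (mul_ne_zero (h0 2) (hd 1 3 (by decide)))
  have r1 : (d 2 * (d 0 - d 1)) * G d f 0 + (d 2 * (d 1 - d 3)) * G d f 3 = 0 := by
    have id : (d 0 * d 2 - d 0 * d 3 - d 1 * d 2 + d 2 * d 3) * G d f 2 + (-d 0 * d 1 + d 0 * d 3 + d 1 * d 2 - d 2 * d 3) * G d f 5 + (d 0 * d 2 - d 0 * d 3 - d 1 * d 2 + d 1 * d 3) * G d f 6
        + (d 2 * (d 0 - d 1)) * G d f 0 + (d 2 * (d 1 - d 3)) * G d f 3 = 0 := by
      simp only [G]; ring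
    rw [e0, e1, e2] at id; linarith
  have n1 : (d 2 * (d 0 - d 1)) ≠ 0 := (mul_ne_zero (h0 2) (hd 0 1 (by decide)))
  have k1 : (d 2 * (d 1 - d 3)) ≠ 0 := (mul_ne_zero (h0 2) (hd 1 3 (by decide)))
  have r2 : (d 2 * (d 0 - d 1)) * G d f 0 + (d 2 * (d 1 - d 3)) * G d f 4 = 0 := by
    have id : (d 0 * d 2 - d 0 * d 3) * G d f 2 + (-d 0 * d 1 + d 0 * d 3) * G d f 5 + (d 0 * d 2 - d 0 * d 3 - d 1 * d 2 + d 1 * d 3) * G d f 6
        + (d 2 * (d 0 - d 1)) * G d f 0 + (d 2 * (d 1 - d 3)) * G d f 4 = 0 := by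
      simp only [G]; ring
    rw [e0, e1, e2] at id; linarith
  have n2 : (d 2 * (d 0 - d 1)) ≠ 0 := (mul_ne_zero (h0 2) (hd 0 1 (by decide)))
  have k2 : (d 2 * (d 1 - d 3)) ≠ 0 := (mul_ne_zero (h0 2) (hd 1 3 (by decide)))
  have r3 : ((-1 : ℝ)) * G d f 0 + ((1 : ℝ)) * G d f 7 = 0 := by
    have id : (-1) * G d f 2 + (0) * G d f 5 + (-1) * G d f 6
        + ((-1 : ℝ)) * G d f 0 + ((1 : ℝ)) * G d f 7 = 0 := by
      simp only [G]; ring
    rw [e0, e1, e2] at id; linarith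
  have n3 : ((-1 : ℝ)) ≠ 0 := (by norm_num)
  have k3 : ((1 : ℝ)) ≠ 0 := (by norm_num)
  have r4 : ((-1 : ℝ) * (d 2 * (d 0 - d 3))) * G d f 0 + (d 2 * (d 1 - d 3)) * G d f 8 = 0 := by
    have id : (-d 0 * d 2 + d 0 * d 3) * G d f 2 + (d 0 * d 1 - d 0 * d 3) * G d f 5 + (-d 0 * d 2 + d 0 * d 3 - d 1 * d 3 + d 2 * d 3) * G d f 6
        + ((-1 : ℝ) * (d 2 * (d 0 - d 3))) * G d f 0 + (d 2 * (d 1 - d 3)) * G d f 8 = 0 := by
      simp only [G]; ring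
    rw [e0, e1, e2] at id; linarith
  have n4 : ((-1 : ℝ) * (d 2 * (d 0 - d 3))) ≠ 0 := (mul_ne_zero (by norm_num) (mul_ne_zero (h0 2) (hd 0 3 (by decide))))
  have k4 : (d 2 * (d 1 - d 3)) ≠ 0 := (mul_ne_zero (h0 2) (hd 1 3 (by decide)))
  have base : G d f 0 = 0 := by
    rcases e with e | e | e | e | e | e
    · exact e
    · rw [e, mul_zero, add_zero] at r0; exact (mul_eq_zero.mp r0).resolve_left n0
    · rw [e, mul_zero, add_zero] at r1; exact (mul_eq_zero.mp r1).resolve_left n1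
    · rw [e, mul_zero, add_zero] at r2; exact (mul_eq_zero.mp r2).resolve_left n2
    · rw [e, mul_zero, add_zero] at r3; exact (mul_eq_zero.mp r3).resolve_left n3
    · rw [e, mul_zero, add_zero] at r4; exact (mul_eq_zero.mp r4).resolve_left n4
  have g0 : G d f 1 = 0 := by
    rw [base, mul_zero, zero_add] at r0; exact (mul_eq_zero.mp r0).resolve_left k0
  have g1 : G d f 3 = 0 := by
    rw [base, mul_zero, zero_add] at r1; exact (mul_eq_zero.mp r1).resolve_left k1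
  have g2 : G d f 4 = 0 := by
    rw [base, mul_zero, zero_add] at r2; exact (mul_eq_zero.mp r2).resolve_left k2
  have g3 : G d f 7 = 0 := by
    rw [base, mul_zero, zero_add] at r3; exact (mul_eq_zero.mp r3).resolve_left k3
  have g4 : G d f 8 = 0 := by
    rw [base, mul_zero, zero_add] at r4; exact (mul_eq_zero.mp r4).resolve_left k4
  intro m
  fin_cases m
  · exact base
  · exact g0
  · exact e0
  · exact g1
  · exact g2
  · exact e1
  · exact e2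
  · exact g3
  · exact g4
  · exact e3

theorem comp11 (d : Fin 4 → ℝ) (f : Fin 4 → Fin 4 → ℝ) (h0 : ∀ i, d i ≠ 0)
    (hd : ∀ i j : Fin 4, i ≠ j → d i - d j ≠ 0)
    (e0 : G d f 2 = 0) (e1 : G d f 4 = 0) (e2 : G d f 7 = 0) (e3 : G d f 8 = 0)
    (e : G d f 0 = 0 ∨ G d f 1 = 0 ∨ G d f 3 = 0 ∨ G d f 5 = 0 ∨ G d f 6 = 0 ∨ G d f 9 = 0) :
    ∀ m, G d f m = 0 := by
  have r0 : ((-1 : ℝ) * (d 1 * (d 0 - d 3))) * G d f 0 + (d 0 * (d 1 - d 3)) * G d f 1 = 0 := by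
    have id : (-d 1 * d 2 + d 1 * d 3) * G d f 2 + (d 0 * d 1 - d 0 * d 3 - d 1 * d 2 + d 2 * d 3) * G d f 4 + (-d 0 * d 2 + d 0 * d 3 + d 1 * d 2 - d 1 * d 3) * G d f 7
        + ((-1 : ℝ) * (d 1 * (d 0 - d 3))) * G d f 0 + (d 0 * (d 1 - d 3)) * G d f 1 = 0 := by
      simp only [G]; ring
    rw [e0, e1, e2] at id; linarith
  have n0 : ((-1 : ℝ) * (d 1 * (d 0 - d 3))) ≠ 0 := (mul_ne_zero (by norm_num) (mul_ne_zero (h0 1) (hd 0 3 (by decide))))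
  have k0 : (d 0 * (d 1 - d 3)) ≠ 0 := (mul_ne_zero (h0 0) (hd 1 3 (by decide)))
  have r1 : (d 3 * (d 0 - d 1)) * G d f 0 + (d 0 * (d 1 - d 3)) * G d f 3 = 0 := by
    have id : (-d 0 * d 1 + d 0 * d 3 + d 1 * d 2 - d 1 * d 3) * G d f 2 + (-d 0 * d 1 + d 0 * d 3 + d 1 * d 2 - d 2 * d 3) * G d f 4 + (d 0 * d 2 - d 0 * d 3 - d 1 * d 2 + d 1 * d 3) * G d f 7
        + (d 3 * (d 0 - d 1)) * G d f 0 + (d 0 * (d 1 - d 3)) * G d f 3 = 0 := by
      simp only [G]; ring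
    rw [e0, e1, e2] at id; linarith
  have n1 : (d 3 * (d 0 - d 1)) ≠ 0 := (mul_ne_zero (h0 3) (hd 0 1 (by decide)))
  have k1 : (d 0 * (d 1 - d 3)) ≠ 0 := (mul_ne_zero (h0 0) (hd 1 3 (by decide)))
  have r2 : ((-1 : ℝ) * (d 3 * (d 0 - d 1))) * G d f 0 + (d 0 * (d 1 - d 3)) * G d f 5 = 0 := by
    have id : (-d 1 * d 2 + d 1 * d 3) * G d f 2 + (-d 1 * d 2 + d 2 * d 3) * G d f 4 + (-d 0 * d 2 + d 0 * d 3 + d 1 * d 2 - d 1 * d 3) * G d f 7
        + ((-1 : ℝ) * (d 3 * (d 0 - d 1))) * G d f 0 + (d 0 * (d 1 - d 3)) * G d f 5 = 0 := by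
      simp only [G]; ring
    rw [e0, e1, e2] at id; linarith
  have n2 : ((-1 : ℝ) * (d 3 * (d 0 - d 1))) ≠ 0 := (mul_ne_zero (by norm_num) (mul_ne_zero (h0 3) (hd 0 1 (by decide))))
  have k2 : (d 0 * (d 1 - d 3)) ≠ 0 := (mul_ne_zero (h0 0) (hd 1 3 (by decide)))
  have r3 : ((1 : ℝ)) * G d f 0 + ((1 : ℝ)) * G d f 6 = 0 := by
    have id : (1) * G d f 2 + (0) * G d f 4 + (-1) * G d f 7
        + ((1 : ℝ)) * G d f 0 + ((1 : ℝ)) * G d f 6 = 0 := by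
      simp only [G]; ring
    rw [e0, e1, e2] at id; linarith
  have n3 : ((1 : ℝ)) ≠ 0 := (by norm_num)
  have k3 : ((1 : ℝ)) ≠ 0 := (by norm_num)
  have r4 : (d 1 * (d 0 - d 3)) * G d f 0 + (d 0 * (d 1 - d 3)) * G d f 9 = 0 := by
    have id : (d 1 * d 2 - d 1 * d 3) * G d f 2 + (d 1 * d 2 - d 2 * d 3) * G d f 4 + (-d 0 * d 1 + d 0 * d 2 - d 1 * d 2 + d 1 * d 3) * G d f 7
        + (d 1 * (d 0 - d 3)) * G d f 0 + (d 0 * (d 1 - d 3)) * G d f 9 = 0 := by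
      simp only [G]; ring
    rw [e0, e1, e2] at id; linarith
  have n4 : (d 1 * (d 0 - d 3)) ≠ 0 := (mul_ne_zero (h0 1) (hd 0 3 (by decide)))
  have k4 : (d 0 * (d 1 - d 3)) ≠ 0 := (mul_ne_zero (h0 0) (hd 1 3 (by decide)))
  have base : G d f 0 = 0 := by
    rcases e with e | e | e | e | e | e
    · exact e
    · rw [e, mul_zero, add_zero] at r0; exact (mul_eq_zero.mp r0).resolve_left n0
    · rw [e, mul_zero, add_zero] at r1; exact (mul_eq_zero.mp r1).resolve_left n1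
    · rw [e, mul_zero, add_zero] at r2; exact (mul_eq_zero.mp r2).resolve_left n2
    · rw [e, mul_zero, add_zero] at r3; exact (mul_eq_zero.mp r3).resolve_left n3
    · rw [e, mul_zero, add_zero] at r4; exact (mul_eq_zero.mp r4).resolve_left n4
  have g0 : G d f 1 = 0 := by
    rw [base, mul_zero, zero_add] at r0; exact (mul_eq_zero.mp r0).resolve_left k0
  have g1 : G d f 3 = 0 := by
    rw [base, mul_zero, zero_add] at r1; exact (mul_eq_zero.mp r1).resolve_left k1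
  have g2 : G d f 5 = 0 := by
    rw [base, mul_zero, zero_add] at r2; exact (mul_eq_zero.mp r2).resolve_left k2
  have g3 : G d f 6 = 0 := by
    rw [base, mul_zero, zero_add] at r3; exact (mul_eq_zero.mp r3).resolve_left k3
  have g4 : G d f 9 = 0 := by
    rw [base, mul_zero, zero_add] at r4; exact (mul_eq_zero.mp r4).resolve_left k4
  intro m
  fin_cases m
  · exact base
  · exact g0
  · exact e0
  · exact g1
  · exact e1
  · exact g2
  · exact g3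
  · exact e2
  · exact e3
  · exact g4

theorem comp12 (d : Fin 4 → ℝ) (f : Fin 4 → Fin 4 → ℝ) (h0 : ∀ i, d i ≠ 0)
    (hd : ∀ i j : Fin 4, i ≠ j → d i - d j ≠ 0)
    (e0 : G d f 3 = 0) (e1 : G d f 5 = 0) (e2 : G d f 7 = 0) (e3 : G d f 8 = 0)
    (e : G d f 0 = 0 ∨ G d f 1 = 0 ∨ G d f 2 = 0 ∨ G d f 4 = 0 ∨ G d f 6 = 0 ∨ G d f 9 = 0) :
    ∀ m, G d f m = 0 := by
  have r0 : ((-1 : ℝ) * (d 3 * (d 0 - d 2))) * G d f 0 + (d 3 * (d 1 - d 2)) * G d f 1 = 0 := by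
    have id : (-d 1 * d 2 + d 1 * d 3) * G d f 3 + (d 0 * d 1 - d 0 * d 3 - d 1 * d 2 + d 2 * d 3) * G d f 5 + (-d 0 * d 2 + d 0 * d 3 + d 1 * d 2 - d 1 * d 3) * G d f 7
        + ((-1 : ℝ) * (d 3 * (d 0 - d 2))) * G d f 0 + (d 3 * (d 1 - d 2)) * G d f 1 = 0 := by
      simp only [G]; ring
    rw [e0, e1, e2] at id; linarith
  have n0 : ((-1 : ℝ) * (d 3 * (d 0 - d 2))) ≠ 0 := (mul_ne_zero (by norm_num) (mul_ne_zero (h0 3) (hd 0 2 (by decide))))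
  have k0 : (d 3 * (d 1 - d 2)) ≠ 0 := (mul_ne_zero (h0 3) (hd 1 2 (by decide)))
  have r1 : ((-1 : ℝ) * (d 3 * (d 0 - d 1))) * G d f 0 + (d 3 * (d 1 - d 2)) * G d f 2 = 0 := by
    have id : (-d 1 * d 2 + d 2 * d 3) * G d f 3 + (d 0 * d 1 - d 0 * d 3 - d 1 * d 2 + d 2 * d 3) * G d f 5 + (-d 0 * d 2 + d 0 * d 3 + d 1 * d 2 - d 1 * d 3) * G d f 7
        + ((-1 : ℝ) * (d 3 * (d 0 - d 1))) * G d f 0 + (d 3 * (d 1 - d 2)) * G d f 2 = 0 := by
      simp only [G]; ring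
    rw [e0, e1, e2] at id; linarith
  have n1 : ((-1 : ℝ) * (d 3 * (d 0 - d 1))) ≠ 0 := (mul_ne_zero (by norm_num) (mul_ne_zero (h0 3) (hd 0 1 (by decide))))
  have k1 : (d 3 * (d 1 - d 2)) ≠ 0 := (mul_ne_zero (h0 3) (hd 1 2 (by decide)))
  have r2 : (d 3 * (d 0 - d 1)) * G d f 0 + (d 3 * (d 1 - d 2)) * G d f 4 = 0 := by
    have id : (d 1 * d 2 - d 1 * d 3) * G d f 3 + (-d 0 * d 1 + d 0 * d 3 + d 1 * d 2 - d 1 * d 3) * G d f 5 + (d 0 * d 2 - d 0 * d 3 - d 1 * d 2 + d 1 * d 3) * G d f 7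
        + (d 3 * (d 0 - d 1)) * G d f 0 + (d 3 * (d 1 - d 2)) * G d f 4 = 0 := by
      simp only [G]; ring
    rw [e0, e1, e2] at id; linarith
  have n2 : (d 3 * (d 0 - d 1)) ≠ 0 := (mul_ne_zero (h0 3) (hd 0 1 (by decide)))
  have k2 : (d 3 * (d 1 - d 2)) ≠ 0 := (mul_ne_zero (h0 3) (hd 1 2 (by decide)))
  have r3 : (d 3 * (d 0 - d 2)) * G d f 0 + (d 3 * (d 1 - d 2)) * G d f 6 = 0 := by
    have id : (d 1 * d 2 - d 2 * d 3) * G d f 3 + (-d 0 * d 1 + d 0 * d 3 + d 1 * d 2 - d 2 * d 3) * G d f 5 + (d 0 * d 2 - d 0 * d 3 - d 1 * d 2 + d 2 * d 3) * G d f 7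
        + (d 3 * (d 0 - d 2)) * G d f 0 + (d 3 * (d 1 - d 2)) * G d f 6 = 0 := by
      simp only [G]; ring
    rw [e0, e1, e2] at id; linarith
  have n3 : (d 3 * (d 0 - d 2)) ≠ 0 := (mul_ne_zero (h0 3) (hd 0 2 (by decide)))
  have k3 : (d 3 * (d 1 - d 2)) ≠ 0 := (mul_ne_zero (h0 3) (hd 1 2 (by decide)))
  have r4 : ((1 : ℝ)) * G d f 0 + ((1 : ℝ)) * G d f 9 = 0 := by
    have id : (0) * G d f 3 + (1) * G d f 5 + (-1) * G d f 7
        + ((1 : ℝ)) * G d f 0 + ((1 : ℝ)) * G d f 9 = 0 := by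
      simp only [G]; ring
    rw [e0, e1, e2] at id; linarith
  have n4 : ((1 : ℝ)) ≠ 0 := (by norm_num)
  have k4 : ((1 : ℝ)) ≠ 0 := (by norm_num)
  have base : G d f 0 = 0 := by
    rcases e with e | e | e | e | e | e
    · exact e
    · rw [e, mul_zero, add_zero] at r0; exact (mul_eq_zero.mp r0).resolve_left n0
    · rw [e, mul_zero, add_zero] at r1; exact (mul_eq_zero.mp r1).resolve_left n1
    · rw [e, mul_zero, add_zero] at r2; exact (mul_eq_zero.mp r2).resolve_left n2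
    · rw [e, mul_zero, add_zero] at r3; exact (mul_eq_zero.mp r3).resolve_left n3
    · rw [e, mul_zero, add_zero] at r4; exact (mul_eq_zero.mp r4).resolve_left n4
  have g0 : G d f 1 = 0 := by
    rw [base, mul_zero, zero_add] at r0; exact (mul_eq_zero.mp r0).resolve_left k0
  have g1 : G d f 2 = 0 := by
    rw [base, mul_zero, zero_add] at r1; exact (mul_eq_zero.mp r1).resolve_left k1
  have g2 : G d f 4 = 0 := by
    rw [base, mul_zero, zero_add] at r2; exact (mul_eq_zero.mp r2).resolve_left k2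
  have g3 : G d f 6 = 0 := by
    rw [base, mul_zero, zero_add] at r3; exact (mul_eq_zero.mp r3).resolve_left k3
  have g4 : G d f 9 = 0 := by
    rw [base, mul_zero, zero_add] at r4; exact (mul_eq_zero.mp r4).resolve_left k4
  intro m
  fin_cases m
  · exact base
  · exact g0
  · exact g1
  · exact e0
  · exact g2
  · exact e1
  · exact g3
  · exact e2
  · exact e3
  · exact g4

theorem comp13 (d : Fin 4 → ℝ) (f : Fin 4 → Fin 4 → ℝ) (h0 : ∀ i, d i ≠ 0)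
    (hd : ∀ i j : Fin 4, i ≠ j → d i - d j ≠ 0)
    (e0 : G d f 3 = 0) (e1 : G d f 4 = 0) (e2 : G d f 6 = 0) (e3 : G d f 9 = 0)
    (e : G d f 0 = 0 ∨ G d f 1 = 0 ∨ G d f 2 = 0 ∨ G d f 5 = 0 ∨ G d f 7 = 0 ∨ G d f 8 = 0) :
    ∀ m, G d f m = 0 := by
  have r0 : ((-1 : ℝ) * (d 1 * (d 0 - d 2))) * G d f 0 + (d 0 * (d 1 - d 2)) * G d f 1 = 0 := by
    have id : (-d 0 * d 2 + d 0 * d 3) * G d f 3 + (d 0 * d 1 - d 0 * d 3 - d 1 * d 2 + d 2 * d 3) * G d f 4 + (-d 0 * d 2 + d 0 * d 3 + d 1 * d 2 - d 1 * d 3) * G d f 6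
        + ((-1 : ℝ) * (d 1 * (d 0 - d 2))) * G d f 0 + (d 0 * (d 1 - d 2)) * G d f 1 = 0 := by
      simp only [G]; ring
    rw [e0, e1, e2] at id; linarith
  have n0 : ((-1 : ℝ) * (d 1 * (d 0 - d 2))) ≠ 0 := (mul_ne_zero (by norm_num) (mul_ne_zero (h0 1) (hd 0 2 (by decide))))
  have k0 : (d 0 * (d 1 - d 2)) ≠ 0 := (mul_ne_zero (h0 0) (hd 1 2 (by decide)))
  have r1 : ((-1 : ℝ) * (d 2 * (d 0 - d 1))) * G d f 0 + (d 0 * (d 1 - d 2)) * G d f 2 = 0 := by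
    have id : (-d 0 * d 1 + d 0 * d 3) * G d f 3 + (d 0 * d 1 - d 0 * d 3 - d 1 * d 2 + d 2 * d 3) * G d f 4 + (-d 0 * d 2 + d 0 * d 3 + d 1 * d 2 - d 1 * d 3) * G d f 6
        + ((-1 : ℝ) * (d 2 * (d 0 - d 1))) * G d f 0 + (d 0 * (d 1 - d 2)) * G d f 2 = 0 := by
      simp only [G]; ring
    rw [e0, e1, e2] at id; linarith
  have n1 : ((-1 : ℝ) * (d 2 * (d 0 - d 1))) ≠ 0 := (mul_ne_zero (by norm_num) (mul_ne_zero (h0 2) (hd 0 1 (by decide))))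
  have k1 : (d 0 * (d 1 - d 2)) ≠ 0 := (mul_ne_zero (h0 0) (hd 1 2 (by decide)))
  have r2 : ((-1 : ℝ) * (d 2 * (d 0 - d 1))) * G d f 0 + (d 0 * (d 1 - d 2)) * G d f 5 = 0 := by
    have id : (-d 0 * d 2 + d 0 * d 3) * G d f 3 + (d 0 * d 2 - d 0 * d 3 - d 1 * d 2 + d 2 * d 3) * G d f 4 + (-d 0 * d 2 + d 0 * d 3 + d 1 * d 2 - d 1 * d 3) * G d f 6
        + ((-1 : ℝ) * (d 2 * (d 0 - d 1))) * G d f 0 + (d 0 * (d 1 - d 2)) * G d f 5 = 0 := by
      simp only [G]; ring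
    rw [e0, e1, e2] at id; linarith
  have n2 : ((-1 : ℝ) * (d 2 * (d 0 - d 1))) ≠ 0 := (mul_ne_zero (by norm_num) (mul_ne_zero (h0 2) (hd 0 1 (by decide))))
  have k2 : (d 0 * (d 1 - d 2)) ≠ 0 := (mul_ne_zero (h0 0) (hd 1 2 (by decide)))
  have r3 : ((-1 : ℝ) * (d 1 * (d 0 - d 2))) * G d f 0 + (d 0 * (d 1 - d 2)) * G d f 7 = 0 := by
    have id : (-d 0 * d 1 + d 0 * d 3) * G d f 3 + (d 0 * d 1 - d 0 * d 3 - d 1 * d 2 + d 2 * d 3) * G d f 4 + (-d 0 * d 1 + d 0 * d 3 + d 1 * d 2 - d 1 * d 3) * G d f 6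
        + ((-1 : ℝ) * (d 1 * (d 0 - d 2))) * G d f 0 + (d 0 * (d 1 - d 2)) * G d f 7 = 0 := by
      simp only [G]; ring
    rw [e0, e1, e2] at id; linarith
  have n3 : ((-1 : ℝ) * (d 1 * (d 0 - d 2))) ≠ 0 := (mul_ne_zero (by norm_num) (mul_ne_zero (h0 1) (hd 0 2 (by decide))))
  have k3 : (d 0 * (d 1 - d 2)) ≠ 0 := (mul_ne_zero (h0 0) (hd 1 2 (by decide)))
  have r4 : ((-1 : ℝ)) * G d f 0 + ((1 : ℝ)) * G d f 8 = 0 := by
    have id : (0) * G d f 3 + (1) * G d f 4 + (-1) * G d f 6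
        + ((-1 : ℝ)) * G d f 0 + ((1 : ℝ)) * G d f 8 = 0 := by
      simp only [G]; ring
    rw [e0, e1, e2] at id; linarith
  have n4 : ((-1 : ℝ)) ≠ 0 := (by norm_num)
  have k4 : ((1 : ℝ)) ≠ 0 := (by norm_num)
  have base : G d f 0 = 0 := by
    rcases e with e | e | e | e | e | e
    · exact e
    · rw [e, mul_zero, add_zero] at r0; exact (mul_eq_zero.mp r0).resolve_left n0
    · rw [e, mul_zero, add_zero] at r1; exact (mul_eq_zero.mp r1).resolve_left n1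
    · rw [e, mul_zero, add_zero] at r2; exact (mul_eq_zero.mp r2).resolve_left n2
    · rw [e, mul_zero, add_zero] at r3; exact (mul_eq_zero.mp r3).resolve_left n3
    · rw [e, mul_zero, add_zero] at r4; exact (mul_eq_zero.mp r4).resolve_left n4
  have g0 : G d f 1 = 0 := by
    rw [base, mul_zero, zero_add] at r0; exact (mul_eq_zero.mp r0).resolve_left k0
  have g1 : G d f 2 = 0 := by
    rw [base, mul_zero, zero_add] at r1; exact (mul_eq_zero.mp r1).resolve_left k1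
  have g2 : G d f 5 = 0 := by
    rw [base, mul_zero, zero_add] at r2; exact (mul_eq_zero.mp r2).resolve_left k2
  have g3 : G d f 7 = 0 := by
    rw [base, mul_zero, zero_add] at r3; exact (mul_eq_zero.mp r3).resolve_left k3
  have g4 : G d f 8 = 0 := by
    rw [base, mul_zero, zero_add] at r4; exact (mul_eq_zero.mp r4).resolve_left k4
  intro m
  fin_cases m
  · exact base
  · exact g0
  · exact g1
  · exact e0
  · exact e1
  · exact g2
  · exact e2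
  · exact g3
  · exact g4
  · exact e3

theorem comp14 (d : Fin 4 → ℝ) (f : Fin 4 → Fin 4 → ℝ) (h0 : ∀ i, d i ≠ 0)
    (hd : ∀ i j : Fin 4, i ≠ j → d i - d j ≠ 0)
    (e0 : G d f 0 = 0) (e1 : G d f 1 = 0) (e2 : G d f 2 = 0) (e3 : G d f 3 = 0)
    (e : G d f 4 = 0 ∨ G d f 5 = 0 ∨ G d f 6 = 0 ∨ G d f 7 = 0 ∨ G d f 8 = 0 ∨ G d f 9 = 0) :
    ∀ m, G d f m = 0 := by
  have r0 : ((1 : ℝ)) * G d f 4 + ((-1 : ℝ)) * G d f 5 = 0 := by
    have id : (-1) * G d f 0 + (1) * G d f 1 + (0) * G d f 2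
        + ((1 : ℝ)) * G d f 4 + ((-1 : ℝ)) * G d f 5 = 0 := by
      simp only [G]; ring
    rw [e0, e1, e2] at id; linarith
  have n0 : ((1 : ℝ)) ≠ 0 := (by norm_num)
  have k0 : ((-1 : ℝ)) ≠ 0 := (by norm_num)
  have r1 : ((d 0 - d 2) * (d 1 - d 3)) * G d f 4 + ((-1 : ℝ) * ((d 0 - d 1) * (d 2 - d 3))) * G d f 6 = 0 := by
    have id : (-d 0 * d 1 - d 0 * d 2 + d 0 * d 3 + d 1 * d 2) * G d f 0 + (d 0 * d 1 - d 0 * d 3) * G d f 1 + (-d 0 * d 2 + d 0 * d 3) * G d f 2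
        + ((d 0 - d 2) * (d 1 - d 3)) * G d f 4 + ((-1 : ℝ) * ((d 0 - d 1) * (d 2 - d 3))) * G d f 6 = 0 := by
      simp only [G]; ring
    rw [e0, e1, e2] at id; linarith
  have n1 : ((d 0 - d 2) * (d 1 - d 3)) ≠ 0 := (mul_ne_zero (hd 0 2 (by decide)) (hd 1 3 (by decide)))
  have k1 : ((-1 : ℝ) * ((d 0 - d 1) * (d 2 - d 3))) ≠ 0 := (mul_ne_zero (by norm_num) (mul_ne_zero (hd 0 1 (by decide)) (hd 2 3 (by decide))))
  have r2 : ((d 0 - d 2) * (d 1 - d 3)) * G d f 4 + ((-1 : ℝ) * ((d 0 - d 1) * (d 2 - d 3))) * G d f 7 = 0 := by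
    have id : (-d 0 * d 1 + d 1 * d 3) * G d f 0 + (d 0 * d 1 - d 0 * d 3) * G d f 1 + (-d 1 * d 2 + d 1 * d 3) * G d f 2
        + ((d 0 - d 2) * (d 1 - d 3)) * G d f 4 + ((-1 : ℝ) * ((d 0 - d 1) * (d 2 - d 3))) * G d f 7 = 0 := by
      simp only [G]; ring
    rw [e0, e1, e2] at id; linarith
  have n2 : ((d 0 - d 2) * (d 1 - d 3)) ≠ 0 := (mul_ne_zero (hd 0 2 (by decide)) (hd 1 3 (by decide)))
  have k2 : ((-1 : ℝ) * ((d 0 - d 1) * (d 2 - d 3))) ≠ 0 := (mul_ne_zero (by norm_num) (mul_ne_zero (hd 0 1 (by decide)) (hd 2 3 (by decide))))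
  have r3 : ((d 0 - d 3) * (d 1 - d 2)) * G d f 4 + ((-1 : ℝ) * ((d 0 - d 1) * (d 2 - d 3))) * G d f 8 = 0 := by
    have id : (-d 0 * d 1 + d 1 * d 3) * G d f 0 + (d 0 * d 1 - d 0 * d 3) * G d f 1 + (-d 0 * d 2 + d 0 * d 3) * G d f 2
        + ((d 0 - d 3) * (d 1 - d 2)) * G d f 4 + ((-1 : ℝ) * ((d 0 - d 1) * (d 2 - d 3))) * G d f 8 = 0 := by
      simp only [G]; ring
    rw [e0, e1, e2] at id; linarith
  have n3 : ((d 0 - d 3) * (d 1 - d 2)) ≠ 0 := (mul_ne_zero (hd 0 3 (by decide)) (hd 1 2 (by decide)))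
  have k3 : ((-1 : ℝ) * ((d 0 - d 1) * (d 2 - d 3))) ≠ 0 := (mul_ne_zero (by norm_num) (mul_ne_zero (hd 0 1 (by decide)) (hd 2 3 (by decide))))
  have r4 : ((d 0 - d 3) * (d 1 - d 2)) * G d f 4 + ((-1 : ℝ) * ((d 0 - d 1) * (d 2 - d 3))) * G d f 9 = 0 := by
    have id : (-d 0 * d 1 + d 1 * d 3) * G d f 0 + (d 0 * d 1 - d 0 * d 2 + d 1 * d 2 - d 1 * d 3) * G d f 1 + (-d 1 * d 2 + d 1 * d 3) * G d f 2
        + ((d 0 - d 3) * (d 1 - d 2)) * G d f 4 + ((-1 : ℝ) * ((d 0 - d 1) * (d 2 - d 3))) * G d f 9 = 0 := by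
      simp only [G]; ring
    rw [e0, e1, e2] at id; linarith
  have n4 : ((d 0 - d 3) * (d 1 - d 2)) ≠ 0 := (mul_ne_zero (hd 0 3 (by decide)) (hd 1 2 (by decide)))
  have k4 : ((-1 : ℝ) * ((d 0 - d 1) * (d 2 - d 3))) ≠ 0 := (mul_ne_zero (by norm_num) (mul_ne_zero (hd 0 1 (by decide)) (hd 2 3 (by decide))))
  have base : G d f 4 = 0 := by
    rcases e with e | e | e | e | e | e
    · exact e
    · rw [e, mul_zero, add_zero] at r0; exact (mul_eq_zero.mp r0).resolve_left n0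
    · rw [e, mul_zero, add_zero] at r1; exact (mul_eq_zero.mp r1).resolve_left n1
    · rw [e, mul_zero, add_zero] at r2; exact (mul_eq_zero.mp r2).resolve_left n2
    · rw [e, mul_zero, add_zero] at r3; exact (mul_eq_zero.mp r3).resolve_left n3
    · rw [e, mul_zero, add_zero] at r4; exact (mul_eq_zero.mp r4).resolve_left n4
  have g0 : G d f 5 = 0 := by
    rw [base, mul_zero, zero_add] at r0; exact (mul_eq_zero.mp r0).resolve_left k0
  have g1 : G d f 6 = 0 := by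
    rw [base, mul_zero, zero_add] at r1; exact (mul_eq_zero.mp r1).resolve_left k1
  have g2 : G d f 7 = 0 := by
    rw [base, mul_zero, zero_add] at r2; exact (mul_eq_zero.mp r2).resolve_left k2
  have g3 : G d f 8 = 0 := by
    rw [base, mul_zero, zero_add] at r3; exact (mul_eq_zero.mp r3).resolve_left k3
  have g4 : G d f 9 = 0 := by
    rw [base, mul_zero, zero_add] at r4; exact (mul_eq_zero.mp r4).resolve_left k4
  intro m
  fin_cases m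
  · exact e0
  · exact e1
  · exact e2
  · exact e3
  · exact base
  · exact g0
  · exact g1
  · exact g2
  · exact g3
  · exact g4
/-- the fifteen blocks -/
def blk : Fin 15 → Fin 4 → Fin 10 :=
  ![![2, 3, 4, 5], ![1, 3, 6, 7], ![1, 2, 8, 9], ![0, 4, 6, 8], ![0, 5, 7, 9], ![0, 3, 8, 9],
    ![0, 2, 6, 7], ![1, 4, 7, 9], ![1, 5, 6, 8], ![0, 1, 4, 5], ![2, 5, 6, 9], ![2, 4, 7, 8],
    ![3, 5, 7, 8], ![3, 4, 6, 9], ![0, 1, 2, 3]]

theorem comb : ∀ Z : Finset (Fin 10), 5 ≤ Z.card →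
    ∃ b : Fin 15, ∃ j : Fin 4, (∀ k, k ≠ j → blk b k ∈ Z) ∧ ∃ m ∈ Z, ∀ k, m ≠ blk b k := by
  decide +kernel

theorem fourth {a b c e : ℝ} (j : Fin 4) (s0 s1 s2 s3 : ℝ) (h0 : s0 ≠ 0) (h1 : s1 ≠ 0)
    (h2 : s2 ≠ 0) (h3 : s3 ≠ 0) (h : s0 * a + s1 * b + s2 * c + s3 * e = 0)
    (H : ∀ k, k ≠ j → (![a, b, c, e] : Fin 4 → ℝ) k = 0) :
    a = 0 ∧ b = 0 ∧ c = 0 ∧ e = 0 := by
  fin_cases j
  · have hb : b = 0 := H 1 (by decide)
    have hc : c = 0 := H 2 (by decide)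
    have he : e = 0 := H 3 (by decide)
    subst hb; subst hc; subst he
    refine ⟨?_, rfl, rfl, rfl⟩
    have : s0 * a = 0 := by linarith
    exact (mul_eq_zero.mp this).resolve_left h0
  · have ha : a = 0 := H 0 (by decide)
    have hc : c = 0 := H 2 (by decide)
    have he : e = 0 := H 3 (by decide)
    subst ha; subst hc; subst he
    refine ⟨rfl, ?_, rfl, rfl⟩
    have : s1 * b = 0 := by linarith
    exact (mul_eq_zero.mp this).resolve_left h1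
  · have ha : a = 0 := H 0 (by decide)
    have hb : b = 0 := H 1 (by decide)
    have he : e = 0 := H 3 (by decide)
    subst ha; subst hb; subst he
    refine ⟨rfl, rfl, ?_, rfl⟩
    have : s2 * c = 0 := by linarith
    exact (mul_eq_zero.mp this).resolve_left h2
  · have ha : a = 0 := H 0 (by decide)
    have hb : b = 0 := H 1 (by decide)
    have hc : c = 0 := H 2 (by decide)
    subst ha; subst hb; subst hc
    refine ⟨rfl, rfl, rfl, ?_⟩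
    have : s3 * e = 0 := by linarith
    exact (mul_eq_zero.mp this).resolve_left h3

/-- if five of the ten forms vanish then all vanish -/
theorem all_zero (d : Fin 4 → ℝ) (f : Fin 4 → Fin 4 → ℝ) (h0 : ∀ i, d i ≠ 0)
    (hd : ∀ i j : Fin 4, i ≠ j → d i - d j ≠ 0) (Z : Finset (Fin 10)) (hZ : 5 ≤ Z.card)
    (h : ∀ m ∈ Z, G d f m = 0) : ∀ m, G d f m = 0 := by
  obtain ⟨b, j, hb, m, hm, hmb⟩ := comb Z hZ
  have hb' : ∀ k, k ≠ j → G d f (blk b k) = 0 := fun k hk => h _ (hb k hk)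
  have hm' : G d f m = 0 := h m hm
  clear h hb hm
  fin_cases b
  · have hr : (1 : ℝ) * G d f 2 + (-1 : ℝ) * G d f 3 + (1 : ℝ) * G d f 4 + (-1 : ℝ) * G d f 5 = 0 := by simp only [G]; ring
    obtain ⟨e0, e1, e2, e3⟩ := fourth j (1 : ℝ) (-1 : ℝ) (1 : ℝ) (-1 : ℝ) (by norm_num) (by norm_num) (by norm_num) (by norm_num) hr
      (by intro k hk; have := hb' k hk; fin_cases k <;> exact this)
    refine comp0 d f h0 hd e0 e1 e2 e3 ?_
    have k0 := hmb 0; have k1 := hmb 1; have k2 := hmb 2; have k3 := hmb 3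
    clear hb' hmb
    fin_cases m
    · exact Or.inl hm'
    · exact Or.inr (Or.inl hm')
    · exact absurd rfl k0
    · exact absurd rfl k1
    · exact absurd rfl k2
    · exact absurd rfl k3
    · exact Or.inr (Or.inr (Or.inl hm'))
    · exact Or.inr (Or.inr (Or.inr (Or.inl hm')))
    · exact Or.inr (Or.inr (Or.inr (Or.inr (Or.inl hm'))))
    · exact Or.inr (Or.inr (Or.inr (Or.inr (Or.inr (hm')))))
  · have hr : (1 : ℝ) * G d f 1 + (1 : ℝ) * G d f 3 + (1 : ℝ) * G d f 6 + (-1 : ℝ) * G d f 7 = 0 := by simp only [G]; ring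
    obtain ⟨e0, e1, e2, e3⟩ := fourth j (1 : ℝ) (1 : ℝ) (1 : ℝ) (-1 : ℝ) (by norm_num) (by norm_num) (by norm_num) (by norm_num) hr
      (by intro k hk; have := hb' k hk; fin_cases k <;> exact this)
    refine comp1 d f h0 hd e0 e1 e2 e3 ?_
    have k0 := hmb 0; have k1 := hmb 1; have k2 := hmb 2; have k3 := hmb 3
    clear hb' hmb
    fin_cases m
    · exact Or.inl hm'
    · exact absurd rfl k0
    · exact Or.inr (Or.inl hm')
    · exact absurd rfl k1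
    · exact Or.inr (Or.inr (Or.inl hm'))
    · exact Or.inr (Or.inr (Or.inr (Or.inl hm')))
    · exact absurd rfl k2
    · exact absurd rfl k3
    · exact Or.inr (Or.inr (Or.inr (Or.inr (Or.inl hm'))))
    · exact Or.inr (Or.inr (Or.inr (Or.inr (Or.inr (hm')))))
  · have hr : (1 : ℝ) * G d f 1 + (-1 : ℝ) * G d f 2 + (-1 : ℝ) * G d f 8 + (1 : ℝ) * G d f 9 = 0 := by simp only [G]; ring
    obtain ⟨e0, e1, e2, e3⟩ := fourth j (1 : ℝ) (-1 : ℝ) (-1 : ℝ) (1 : ℝ) (by norm_num) (by norm_num) (by norm_num) (by norm_num) hr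
      (by intro k hk; have := hb' k hk; fin_cases k <;> exact this)
    refine comp2 d f h0 hd e0 e1 e2 e3 ?_
    have k0 := hmb 0; have k1 := hmb 1; have k2 := hmb 2; have k3 := hmb 3
    clear hb' hmb
    fin_cases m
    · exact Or.inl hm'
    · exact absurd rfl k0
    · exact absurd rfl k1
    · exact Or.inr (Or.inl hm')
    · exact Or.inr (Or.inr (Or.inl hm'))
    · exact Or.inr (Or.inr (Or.inr (Or.inl hm')))
    · exact Or.inr (Or.inr (Or.inr (Or.inr (Or.inl hm'))))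
    · exact Or.inr (Or.inr (Or.inr (Or.inr (Or.inr (hm')))))
    · exact absurd rfl k2
    · exact absurd rfl k3
  · have hr : (1 : ℝ) * G d f 0 + (-1 : ℝ) * G d f 4 + (1 : ℝ) * G d f 6 + (-1 : ℝ) * G d f 8 = 0 := by simp only [G]; ring
    obtain ⟨e0, e1, e2, e3⟩ := fourth j (1 : ℝ) (-1 : ℝ) (1 : ℝ) (-1 : ℝ) (by norm_num) (by norm_num) (by norm_num) (by norm_num) hr
      (by intro k hk; have := hb' k hk; fin_cases k <;> exact this)
    refine comp3 d f h0 hd e0 e1 e2 e3 ?_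
    have k0 := hmb 0; have k1 := hmb 1; have k2 := hmb 2; have k3 := hmb 3
    clear hb' hmb
    fin_cases m
    · exact absurd rfl k0
    · exact Or.inl hm'
    · exact Or.inr (Or.inl hm')
    · exact Or.inr (Or.inr (Or.inl hm'))
    · exact absurd rfl k1
    · exact Or.inr (Or.inr (Or.inr (Or.inl hm')))
    · exact absurd rfl k2
    · exact Or.inr (Or.inr (Or.inr (Or.inr (Or.inl hm'))))
    · exact absurd rfl k3
    · exact Or.inr (Or.inr (Or.inr (Or.inr (Or.inr (hm')))))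
  · have hr : (1 : ℝ) * G d f 0 + (1 : ℝ) * G d f 5 + (-1 : ℝ) * G d f 7 + (1 : ℝ) * G d f 9 = 0 := by simp only [G]; ring
    obtain ⟨e0, e1, e2, e3⟩ := fourth j (1 : ℝ) (1 : ℝ) (-1 : ℝ) (1 : ℝ) (by norm_num) (by norm_num) (by norm_num) (by norm_num) hr
      (by intro k hk; have := hb' k hk; fin_cases k <;> exact this)
    refine comp4 d f h0 hd e0 e1 e2 e3 ?_
    have k0 := hmb 0; have k1 := hmb 1; have k2 := hmb 2; have k3 := hmb 3
    clear hb' hmb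
    fin_cases m
    · exact absurd rfl k0
    · exact Or.inl hm'
    · exact Or.inr (Or.inl hm')
    · exact Or.inr (Or.inr (Or.inl hm'))
    · exact Or.inr (Or.inr (Or.inr (Or.inl hm')))
    · exact absurd rfl k1
    · exact Or.inr (Or.inr (Or.inr (Or.inr (Or.inl hm'))))
    · exact absurd rfl k2
    · exact Or.inr (Or.inr (Or.inr (Or.inr (Or.inr (hm')))))
    · exact absurd rfl k3
  · have hr : (1 : ℝ) * G d f 0 + (-1 : ℝ) * G d f 3 + (-1 : ℝ) * G d f 8 + (1 : ℝ) * G d f 9 = 0 := by simp only [G]; ring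
    obtain ⟨e0, e1, e2, e3⟩ := fourth j (1 : ℝ) (-1 : ℝ) (-1 : ℝ) (1 : ℝ) (by norm_num) (by norm_num) (by norm_num) (by norm_num) hr
      (by intro k hk; have := hb' k hk; fin_cases k <;> exact this)
    refine comp5 d f h0 hd e0 e1 e2 e3 ?_
    have k0 := hmb 0; have k1 := hmb 1; have k2 := hmb 2; have k3 := hmb 3
    clear hb' hmb
    fin_cases m
    · exact absurd rfl k0
    · exact Or.inl hm'
    · exact Or.inr (Or.inl hm')
    · exact absurd rfl k1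
    · exact Or.inr (Or.inr (Or.inl hm'))
    · exact Or.inr (Or.inr (Or.inr (Or.inl hm')))
    · exact Or.inr (Or.inr (Or.inr (Or.inr (Or.inl hm'))))
    · exact Or.inr (Or.inr (Or.inr (Or.inr (Or.inr (hm')))))
    · exact absurd rfl k2
    · exact absurd rfl k3
  · have hr : (1 : ℝ) * G d f 0 + (1 : ℝ) * G d f 2 + (1 : ℝ) * G d f 6 + (-1 : ℝ) * G d f 7 = 0 := by simp only [G]; ring
    obtain ⟨e0, e1, e2, e3⟩ := fourth j (1 : ℝ) (1 : ℝ) (1 : ℝ) (-1 : ℝ) (by norm_num) (by norm_num) (by norm_num) (by norm_num) hr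
      (by intro k hk; have := hb' k hk; fin_cases k <;> exact this)
    refine comp6 d f h0 hd e0 e1 e2 e3 ?_
    have k0 := hmb 0; have k1 := hmb 1; have k2 := hmb 2; have k3 := hmb 3
    clear hb' hmb
    fin_cases m
    · exact absurd rfl k0
    · exact Or.inl hm'
    · exact absurd rfl k1
    · exact Or.inr (Or.inl hm')
    · exact Or.inr (Or.inr (Or.inl hm'))
    · exact Or.inr (Or.inr (Or.inr (Or.inl hm')))
    · exact absurd rfl k2
    · exact absurd rfl k3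
    · exact Or.inr (Or.inr (Or.inr (Or.inr (Or.inl hm'))))
    · exact Or.inr (Or.inr (Or.inr (Or.inr (Or.inr (hm')))))
  · have hr : (1 : ℝ) * G d f 1 + (1 : ℝ) * G d f 4 + (-1 : ℝ) * G d f 7 + (1 : ℝ) * G d f 9 = 0 := by simp only [G]; ring
    obtain ⟨e0, e1, e2, e3⟩ := fourth j (1 : ℝ) (1 : ℝ) (-1 : ℝ) (1 : ℝ) (by norm_num) (by norm_num) (by norm_num) (by norm_num) hr
      (by intro k hk; have := hb' k hk; fin_cases k <;> exact this)
    refine comp7 d f h0 hd e0 e1 e2 e3 ?_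
    have k0 := hmb 0; have k1 := hmb 1; have k2 := hmb 2; have k3 := hmb 3
    clear hb' hmb
    fin_cases m
    · exact Or.inl hm'
    · exact absurd rfl k0
    · exact Or.inr (Or.inl hm')
    · exact Or.inr (Or.inr (Or.inl hm'))
    · exact absurd rfl k1
    · exact Or.inr (Or.inr (Or.inr (Or.inl hm')))
    · exact Or.inr (Or.inr (Or.inr (Or.inr (Or.inl hm'))))
    · exact absurd rfl k2
    · exact Or.inr (Or.inr (Or.inr (Or.inr (Or.inr (hm')))))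
    · exact absurd rfl k3
  · have hr : (1 : ℝ) * G d f 1 + (-1 : ℝ) * G d f 5 + (1 : ℝ) * G d f 6 + (-1 : ℝ) * G d f 8 = 0 := by simp only [G]; ring
    obtain ⟨e0, e1, e2, e3⟩ := fourth j (1 : ℝ) (-1 : ℝ) (1 : ℝ) (-1 : ℝ) (by norm_num) (by norm_num) (by norm_num) (by norm_num) hr
      (by intro k hk; have := hb' k hk; fin_cases k <;> exact this)
    refine comp8 d f h0 hd e0 e1 e2 e3 ?_
    have k0 := hmb 0; have k1 := hmb 1; have k2 := hmb 2; have k3 := hmb 3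
    clear hb' hmb
    fin_cases m
    · exact Or.inl hm'
    · exact absurd rfl k0
    · exact Or.inr (Or.inl hm')
    · exact Or.inr (Or.inr (Or.inl hm'))
    · exact Or.inr (Or.inr (Or.inr (Or.inl hm')))
    · exact absurd rfl k1
    · exact absurd rfl k2
    · exact Or.inr (Or.inr (Or.inr (Or.inr (Or.inl hm'))))
    · exact absurd rfl k3
    · exact Or.inr (Or.inr (Or.inr (Or.inr (Or.inr (hm')))))
  · have hr : (1 : ℝ) * G d f 0 + (-1 : ℝ) * G d f 1 + (-1 : ℝ) * G d f 4 + (1 : ℝ) * G d f 5 = 0 := by simp only [G]; ring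
    obtain ⟨e0, e1, e2, e3⟩ := fourth j (1 : ℝ) (-1 : ℝ) (-1 : ℝ) (1 : ℝ) (by norm_num) (by norm_num) (by norm_num) (by norm_num) hr
      (by intro k hk; have := hb' k hk; fin_cases k <;> exact this)
    refine comp9 d f h0 hd e0 e1 e2 e3 ?_
    have k0 := hmb 0; have k1 := hmb 1; have k2 := hmb 2; have k3 := hmb 3
    clear hb' hmb
    fin_cases m
    · exact absurd rfl k0
    · exact absurd rfl k1
    · exact Or.inl hm'
    · exact Or.inr (Or.inl hm')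
    · exact absurd rfl k2
    · exact absurd rfl k3
    · exact Or.inr (Or.inr (Or.inl hm'))
    · exact Or.inr (Or.inr (Or.inr (Or.inl hm')))
    · exact Or.inr (Or.inr (Or.inr (Or.inr (Or.inl hm'))))
    · exact Or.inr (Or.inr (Or.inr (Or.inr (Or.inr (hm')))))
  · have hr : (1 : ℝ) * G d f 2 + (-1 : ℝ) * G d f 5 + (1 : ℝ) * G d f 6 + (-1 : ℝ) * G d f 9 = 0 := by simp only [G]; ring
    obtain ⟨e0, e1, e2, e3⟩ := fourth j (1 : ℝ) (-1 : ℝ) (1 : ℝ) (-1 : ℝ) (by norm_num) (by norm_num) (by norm_num) (by norm_num) hr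
      (by intro k hk; have := hb' k hk; fin_cases k <;> exact this)
    refine comp10 d f h0 hd e0 e1 e2 e3 ?_
    have k0 := hmb 0; have k1 := hmb 1; have k2 := hmb 2; have k3 := hmb 3
    clear hb' hmb
    fin_cases m
    · exact Or.inl hm'
    · exact Or.inr (Or.inl hm')
    · exact absurd rfl k0
    · exact Or.inr (Or.inr (Or.inl hm'))
    · exact Or.inr (Or.inr (Or.inr (Or.inl hm')))
    · exact absurd rfl k1
    · exact absurd rfl k2
    · exact Or.inr (Or.inr (Or.inr (Or.inr (Or.inl hm'))))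
    · exact Or.inr (Or.inr (Or.inr (Or.inr (Or.inr (hm')))))
    · exact absurd rfl k3
  · have hr : (1 : ℝ) * G d f 2 + (1 : ℝ) * G d f 4 + (-1 : ℝ) * G d f 7 + (1 : ℝ) * G d f 8 = 0 := by simp only [G]; ring
    obtain ⟨e0, e1, e2, e3⟩ := fourth j (1 : ℝ) (1 : ℝ) (-1 : ℝ) (1 : ℝ) (by norm_num) (by norm_num) (by norm_num) (by norm_num) hr
      (by intro k hk; have := hb' k hk; fin_cases k <;> exact this)
    refine comp11 d f h0 hd e0 e1 e2 e3 ?_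
    have k0 := hmb 0; have k1 := hmb 1; have k2 := hmb 2; have k3 := hmb 3
    clear hb' hmb
    fin_cases m
    · exact Or.inl hm'
    · exact Or.inr (Or.inl hm')
    · exact absurd rfl k0
    · exact Or.inr (Or.inr (Or.inl hm'))
    · exact absurd rfl k1
    · exact Or.inr (Or.inr (Or.inr (Or.inl hm')))
    · exact Or.inr (Or.inr (Or.inr (Or.inr (Or.inl hm'))))
    · exact absurd rfl k2
    · exact absurd rfl k3
    · exact Or.inr (Or.inr (Or.inr (Or.inr (Or.inr (hm')))))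
  · have hr : (1 : ℝ) * G d f 3 + (1 : ℝ) * G d f 5 + (-1 : ℝ) * G d f 7 + (1 : ℝ) * G d f 8 = 0 := by simp only [G]; ring
    obtain ⟨e0, e1, e2, e3⟩ := fourth j (1 : ℝ) (1 : ℝ) (-1 : ℝ) (1 : ℝ) (by norm_num) (by norm_num) (by norm_num) (by norm_num) hr
      (by intro k hk; have := hb' k hk; fin_cases k <;> exact this)
    refine comp12 d f h0 hd e0 e1 e2 e3 ?_
    have k0 := hmb 0; have k1 := hmb 1; have k2 := hmb 2; have k3 := hmb 3
    clear hb' hmb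
    fin_cases m
    · exact Or.inl hm'
    · exact Or.inr (Or.inl hm')
    · exact Or.inr (Or.inr (Or.inl hm'))
    · exact absurd rfl k0
    · exact Or.inr (Or.inr (Or.inr (Or.inl hm')))
    · exact absurd rfl k1
    · exact Or.inr (Or.inr (Or.inr (Or.inr (Or.inl hm'))))
    · exact absurd rfl k2
    · exact absurd rfl k3
    · exact Or.inr (Or.inr (Or.inr (Or.inr (Or.inr (hm')))))
  · have hr : (1 : ℝ) * G d f 3 + (-1 : ℝ) * G d f 4 + (1 : ℝ) * G d f 6 + (-1 : ℝ) * G d f 9 = 0 := by simp only [G]; ring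
    obtain ⟨e0, e1, e2, e3⟩ := fourth j (1 : ℝ) (-1 : ℝ) (1 : ℝ) (-1 : ℝ) (by norm_num) (by norm_num) (by norm_num) (by norm_num) hr
      (by intro k hk; have := hb' k hk; fin_cases k <;> exact this)
    refine comp13 d f h0 hd e0 e1 e2 e3 ?_
    have k0 := hmb 0; have k1 := hmb 1; have k2 := hmb 2; have k3 := hmb 3
    clear hb' hmb
    fin_cases m
    · exact Or.inl hm'
    · exact Or.inr (Or.inl hm')
    · exact Or.inr (Or.inr (Or.inl hm'))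
    · exact absurd rfl k0
    · exact absurd rfl k1
    · exact Or.inr (Or.inr (Or.inr (Or.inl hm')))
    · exact absurd rfl k2
    · exact Or.inr (Or.inr (Or.inr (Or.inr (Or.inl hm'))))
    · exact Or.inr (Or.inr (Or.inr (Or.inr (Or.inr (hm')))))
    · exact absurd rfl k3
  · have hr : (1 : ℝ) * G d f 0 + (-1 : ℝ) * G d f 1 + (1 : ℝ) * G d f 2 + (-1 : ℝ) * G d f 3 = 0 := by simp only [G]; ring
    obtain ⟨e0, e1, e2, e3⟩ := fourth j (1 : ℝ) (-1 : ℝ) (1 : ℝ) (-1 : ℝ) (by norm_num) (by norm_num) (by norm_num) (by norm_num) hr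
      (by intro k hk; have := hb' k hk; fin_cases k <;> exact this)
    refine comp14 d f h0 hd e0 e1 e2 e3 ?_
    have k0 := hmb 0; have k1 := hmb 1; have k2 := hmb 2; have k3 := hmb 3
    clear hb' hmb
    fin_cases m
    · exact absurd rfl k0
    · exact absurd rfl k1
    · exact absurd rfl k2
    · exact absurd rfl k3
    · exact Or.inl hm'
    · exact Or.inr (Or.inl hm')
    · exact Or.inr (Or.inr (Or.inl hm'))
    · exact Or.inr (Or.inr (Or.inr (Or.inl hm')))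
    · exact Or.inr (Or.inr (Or.inr (Or.inr (Or.inl hm'))))
    · exact Or.inr (Or.inr (Or.inr (Or.inr (Or.inr (hm')))))

/-- if five of the ten forms vanish at `f`, then `f i j = α + γ * (d i * d j)` for `i < j` -/
theorem code (d : Fin 4 → ℝ) (f : Fin 4 → Fin 4 → ℝ) (h0 : ∀ i, d i ≠ 0)
    (hd : ∀ i j : Fin 4, i ≠ j → d i - d j ≠ 0) (h : ∀ m, G d f m = 0) :
    ∃ al ga : ℝ, f 0 1 = al + ga * (d 0 * d 1) ∧ f 0 2 = al + ga * (d 0 * d 2) ∧
      f 0 3 = al + ga * (d 0 * d 3) ∧ f 1 2 = al + ga * (d 1 * d 2) ∧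
      f 1 3 = al + ga * (d 1 * d 3) ∧ f 2 3 = al + ga * (d 2 * d 3) := by
  have e0 := h 0
  have e1 := h 1
  have e2 := h 2
  have e4 := h 4
  simp only [G] at e0 e1 e2 e4
  have d12 := hd 1 2 (by decide)
  have n0 := h0 0
  obtain ⟨ga, hga⟩ : ∃ ga : ℝ, f 0 1 - f 0 2 = ga * (d 0 * (d 1 - d 2)) :=
    ⟨(f 0 1 - f 0 2) / (d 0 * (d 1 - d 2)), by field_simp⟩
  obtain ⟨al, hal⟩ : ∃ al : ℝ, f 0 1 = al + ga * (d 0 * d 1) := ⟨f 0 1 - ga * (d 0 * d 1), by ring⟩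
  have h02 : f 0 2 = al + ga * (d 0 * d 2) := by linarith
  have h03 : f 0 3 = al + ga * (d 0 * d 3) := by
    have : (d 1 - d 2) * (f 0 3 - (al + ga * (d 0 * d 3))) = 0 := by
      rw [hal, h02] at e0; linear_combination (-1) * e0
    have := (mul_eq_zero.mp this).resolve_left d12
    linarith
  have hy : d 0 * ((f 1 3 - (al + ga * (d 1 * d 3))) - (f 1 2 - (al + ga * (d 1 * d 2)))) = 0 := by
    rw [h02, h03] at e4; linear_combination e4
  have hy' := (mul_eq_zero.mp hy).resolve_left n0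
  have h12 : f 1 2 = al + ga * (d 1 * d 2) := by
    have h13 : f 1 3 = (al + ga * (d 1 * d 3)) + (f 1 2 - (al + ga * (d 1 * d 2))) := by linarith
    have : (d 2 - d 3) * (f 1 2 - (al + ga * (d 1 * d 2))) = 0 := by
      rw [hal, h13] at e1; linear_combination e1
    have := (mul_eq_zero.mp this).resolve_left (hd 2 3 (by decide))
    linarith
  have h13 : f 1 3 = al + ga * (d 1 * d 3) := by linarith
  have h23 : f 2 3 = al + ga * (d 2 * d 3) := by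
    have : (d 1 - d 0) * (f 2 3 - (al + ga * (d 2 * d 3))) = 0 := by
      rw [h02, h12] at e2; linear_combination e2
    have := (mul_eq_zero.mp this).resolve_left (hd 1 0 (by decide))
    linarith
  exact ⟨al, ga, hal, h02, h03, h12, h13, h23⟩

end Pool.Agent.V117.WPRa
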