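import Mathlib

/-!
The final contradiction: a block structure common to all pairs is impossible.
-/

namespace Pool.Agent.V117.WPRb

/-- coefficients of a vanishing combination of two members -/
theorem two {U : Fin 4 → Fin 4 → ℝ}
    (hU : ∀ c : Fin 4 → ℝ, (∀ r, ∑ i, c i * U i r = 0) → ∀ i, c i = 0)
    {i j : Fin 4} (hij : i ≠ j) {A B : ℝ} (h : ∀ r, A * U i r + B * U j r = 0) : A = 0 ∧ B = 0 := by
  have := hU (fun t => (if t = i then A else 0) + (if t = j then B else 0)) (by
    intro r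
    have := h r
    simp only [add_mul, Finset.sum_add_distrib, ite_mul, zero_mul, Finset.sum_ite_eq',
      Finset.mem_univ, if_true]
    exact this)
  have h1 := this i
  have h2 := this j
  simp only [if_true, if_neg hij, if_neg (Ne.symm hij), add_zero, zero_add] at h1 h2
  exact ⟨h1, h2⟩

theorem three {U : Fin 4 → Fin 4 → ℝ}
    (hU : ∀ c : Fin 4 → ℝ, (∀ r, ∑ i, c i * U i r = 0) → ∀ i, c i = 0)
    {i j k : Fin 4} (hij : i ≠ j) (hik : i ≠ k) (hjk : j ≠ k) {A B C : ℝ}
    (h : ∀ r, A * U i r + B * U j r + C * U k r = 0) : A = 0 ∧ B = 0 ∧ C = 0 := by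
  have := hU (fun t => (if t = i then A else 0) + (if t = j then B else 0)
      + (if t = k then C else 0)) (by
    intro r
    have := h r
    simp only [add_mul, Finset.sum_add_distrib, ite_mul, zero_mul, Finset.sum_ite_eq',
      Finset.mem_univ, if_true]
    exact this)
  have h1 := this i
  have h2 := this j
  have h3 := this k
  simp only [if_true, if_neg hij, if_neg (Ne.symm hij), if_neg hik, if_neg (Ne.symm hik),
    if_neg hjk, if_neg (Ne.symm hjk), add_zero, zero_add] at h1 h2 h3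
  exact ⟨h1, h2, h3⟩

section
variable {U : Fin 4 → Fin 4 → ℝ} {d : Fin 4 → ℝ} {P : Fin 4 → Prop} {al ga : Fin 4 → Fin 4 → ℝ}

/-- two members cannot both vanish on `P` -/
theorem claimB (hU : ∀ c : Fin 4 → ℝ, (∀ r, ∑ i, c i * U i r = 0) → ∀ i, c i = 0)
    (hcol : ∀ p, ∃ i, U i p ≠ 0) (h0 : ∀ i, d i ≠ 0)
    (hd : ∀ i j : Fin 4, i ≠ j → d i - d j ≠ 0) (hP : ∃ p, P p)
    (H : ∀ p q, P p → ¬ P q → ∀ i j, i ≠ j →
      U i p * U j q + U i q * U j p = al p q + ga p q * (d i * d j))
    {i j : Fin 4} (hij : i ≠ j) (hi : ∀ p, P p → U i p = 0) (hj : ∀ p, P p → U j p = 0) :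
    False := by
  have key : ∀ k, ∀ p, P p → U k p = 0 := by
    intro k p hp
    by_cases hki : k = i
    · rw [hki]; exact hi p hp
    by_cases hkj : k = j
    · rw [hkj]; exact hj p hp
    by_contra hk
    have hz := two hU hij (A := d j * (d k - d i)) (B := -(d i * (d k - d j))) (by
      intro q
      by_cases hq : P q
      · rw [hi q hq, hj q hq]; ring
      · have e1 := H p q hp hq i j hij
        have e2 := H p q hp hq i k (Ne.symm hki)
        have e3 := H p q hp hq j k (Ne.symm hkj)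
        rw [hi p hp, hj p hp] at e1
        rw [hi p hp] at e2
        rw [hj p hp] at e3
        have : U k p * (d j * (d k - d i) * U i q + -(d i * (d k - d j)) * U j q) = 0 := by
          linear_combination (d j * (d k - d i)) * e2 - (d i * (d k - d j)) * e3
            - (d j * (d k - d i) - d i * (d k - d j)) * e1
        exact (mul_eq_zero.mp this).resolve_left hk)
    exact mul_ne_zero (h0 j) (hd k i hki) hz.1
  obtain ⟨p, hp⟩ := hP
  obtain ⟨k, hk⟩ := hcol p
  exact hk (key k p hp)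

theorem claimC (hU : ∀ c : Fin 4 → ℝ, (∀ r, ∑ i, c i * U i r = 0) → ∀ i, c i = 0)
    (h0 : ∀ i, d i ≠ 0)
    (hd : ∀ i j : Fin 4, i ≠ j → d i - d j ≠ 0)
    (H : ∀ p q, P p → ¬ P q → ∀ i j, i ≠ j →
      U i p * U j q + U i q * U j p = al p q + ga p q * (d i * d j))
    {i j : Fin 4} (hij : i ≠ j) (hi : ∀ p, P p → U i p = 0) (hj : ∀ q, ¬ P q → U j q = 0) :
    False := by
  have hex : ∀ i j : Fin 4, ∃ k : Fin 4, k ≠ i ∧ k ≠ j := by decide
  obtain ⟨k, hki, hkj⟩ := hex i j
  obtain ⟨q0, hq0, hUq⟩ : ∃ q, ¬ P q ∧ U i q ≠ 0 := by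
    by_contra hcon
    push Not at hcon
    have := (two hU hij (A := 1) (B := 0) (by
      intro r
      by_cases hr : P r
      · rw [hi r hr]; ring
      · rw [hcon r hr]; ring)).1
    exact one_ne_zero this
  obtain ⟨p0, hp0, hUp⟩ : ∃ p, P p ∧ U j p ≠ 0 := by
    by_contra hcon
    push Not at hcon
    have := (two hU hij (A := 0) (B := 1) (by
      intro r
      by_cases hr : P r
      · rw [hcon r hr]; ring
      · rw [hj r hr]; ring)).2
    exact one_ne_zero this
  -- relations for all p, q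
  have R : ∀ p q, P p → ¬ P q →
      d j * (d k - d i) * U i q * (U k p - U j p) = d i * (d k - d j) * U j p * (U k q - U i q) := by
    intro p q hp hq
    have e1 := H p q hp hq i j hij
    have e2 := H p q hp hq i k (Ne.symm hki)
    have e3 := H p q hp hq j k (Ne.symm hkj)
    rw [hi p hp] at e1 e2
    rw [hj q hq] at e1 e3
    linear_combination (d j * (d k - d i)) * (e2 - e1) - (d i * (d k - d j)) * (e3 - e1)
  have nA : d j * (d k - d i) * U i q0 ≠ 0 := mul_ne_zero (mul_ne_zero (h0 j) (hd k i hki)) hUq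
  have nB : d i * (d k - d j) * U j p0 ≠ 0 := mul_ne_zero (mul_ne_zero (h0 i) (hd k j hkj)) hUp
  have hz := three hU hij (Ne.symm hki) (Ne.symm hkj)
    (A := -((d j * (d k - d i) * U i q0) *
        (d i * (d k - d j) * U j p0 + d j * (d k - d i) * (U k p0 - U j p0))))
    (B := -((d i * (d k - d j) * U j p0) *
        (d j * (d k - d i) * U i q0 + d i * (d k - d j) * (U k q0 - U i q0))))
    (C := (d j * (d k - d i) * U i q0) * (d i * (d k - d j) * U j p0)) (by
      intro r
      by_cases hr : P r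
      · have := R r q0 hr hq0
        rw [hi r hr]
        linear_combination (d i * (d k - d j) * U j p0) * this
      · have := R p0 r hp0 hr
        rw [hj r hr]
        linear_combination (-(d j * (d k - d i) * U i q0)) * this)
  exact mul_ne_zero nA nB hz.2.2

/-- the combination `a_t` and its scaling -/
theorem lam {t x y z : Fin 4} (htx : t ≠ x) (hty : t ≠ y) (htz : t ≠ z)
    (H : ∀ p q, P p → ¬ P q → ∀ i j, i ≠ j →
      U i p * U j q + U i q * U j p = al p q + ga p q * (d i * d j))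
    (hp : ∃ p, P p ∧ U t p ≠ 0) (hq : ∃ q, ¬ P q ∧ U t q ≠ 0) :
    ∃ l : ℝ, (∀ p, P p → (d z - d y) * U x p + (d x - d z) * U y p + (d y - d x) * U z p
        = l * U t p) ∧
      (∀ q, ¬ P q → (d z - d y) * U x q + (d x - d z) * U y q + (d y - d x) * U z q
        = -l * U t q) := by
  obtain ⟨p0, hp0, hUp⟩ := hp
  obtain ⟨q0, hq0, hUq⟩ := hq
  set a : Fin 4 → ℝ := fun r => (d z - d y) * U x r + (d x - d z) * U y r + (d y - d x) * U z r
    with ha
  have R : ∀ p q, P p → ¬ P q → U t p * a q + U t q * a p = 0 := by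
    intro p q hp hq
    have e1 := H p q hp hq t x htx
    have e2 := H p q hp hq t y hty
    have e3 := H p q hp hq t z htz
    simp only [ha]
    linear_combination (d z - d y) * e1 + (d x - d z) * e2 + (d y - d x) * e3
  refine ⟨a p0 / U t p0, ?_, ?_⟩
  · intro p hp
    have e1 := R p q0 hp hq0
    have e2 := R p0 q0 hp0 hq0
    change a p = _
    have : U t p0 * (U t q0 * a p) = U t q0 * (a p0 * U t p) := by
      linear_combination U t p0 * e1 - U t p * e2
    have h3 : U t q0 * (U t p0 * a p - a p0 * U t p) = 0 := by linear_combination this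
    have h4 := (mul_eq_zero.mp h3).resolve_left hUq
    field_simp
    linear_combination h4
  · intro q hq
    have e1 := R p0 q hp0 hq
    change a q = _
    field_simp
    linear_combination e1

theorem claimA (hU : ∀ c : Fin 4 → ℝ, (∀ r, ∑ i, c i * U i r = 0) → ∀ i, c i = 0)
    (hd : ∀ i j : Fin 4, i ≠ j → d i - d j ≠ 0)
    (H : ∀ p q, P p → ¬ P q → ∀ i j, i ≠ j →
      U i p * U j q + U i q * U j p = al p q + ga p q * (d i * d j))
    {i j k l : Fin 4} (hij : i ≠ j) (hik : i ≠ k) (hil : i ≠ l) (hjk : j ≠ k) (hjl : j ≠ l)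
    (hkl : k ≠ l)
    (hip : ∃ p, P p ∧ U i p ≠ 0) (hiq : ∃ q, ¬ P q ∧ U i q ≠ 0)
    (hjp : ∃ p, P p ∧ U j p ≠ 0) (hjq : ∃ q, ¬ P q ∧ U j q ≠ 0)
    (hkp : ∃ p, P p ∧ U k p ≠ 0) (hkq : ∃ q, ¬ P q ∧ U k q ≠ 0) : False := by
  obtain ⟨li, hi1, hi2⟩ := lam hij hik hil H hip hiq
  obtain ⟨lj, hj1, hj2⟩ := lam (Ne.symm hij) hjk hjl H hjp hjq
  obtain ⟨lk, hk1, hk2⟩ := lam (Ne.symm hik) (Ne.symm hjk) hkl H hkp hkq
  have hz := three hU hij hik hjk (A := (d l - d i) * li) (B := -((d l - d j) * lj))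
    (C := (d l - d k) * lk) (by
      intro r
      by_cases hr : P r
      · have e1 := hi1 r hr
        have e2 := hj1 r hr
        have e3 := hk1 r hr
        linear_combination (-(d l - d i)) * e1 + (d l - d j) * e2 - (d l - d k) * e3
      · have e1 := hi2 r hr
        have e2 := hj2 r hr
        have e3 := hk2 r hr
        linear_combination (d l - d i) * e1 - (d l - d j) * e2 + (d l - d k) * e3)
  have hli : li = 0 := (mul_eq_zero.mp hz.1).resolve_left (hd l i (Ne.symm hil))
  have hz2 := three hU hjk hjl hkl (A := d l - d k) (B := d j - d l) (C := d k - d j) (by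
    intro r
    by_cases hr : P r
    · have := hi1 r hr
      rw [this, hli]; ring
    · have := hi2 r hr
      rw [this, hli]; ring)
  exact hd l k (Ne.symm hkl) hz2.1

theorem cut_false (hU : ∀ c : Fin 4 → ℝ, (∀ r, ∑ i, c i * U i r = 0) → ∀ i, c i = 0)
    (hcol : ∀ p, ∃ i, U i p ≠ 0) (h0 : ∀ i, d i ≠ 0)
    (hd : ∀ i j : Fin 4, i ≠ j → d i - d j ≠ 0) (hP : ∃ p, P p) (hN : ∃ p, ¬ P p)
    (H : ∀ p q, P p → ¬ P q → ∀ i j, i ≠ j →
      U i p * U j q + U i q * U j p = al p q + ga p q * (d i * d j)) : False := by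
  -- the bad indices
  have H' : ∀ p q, (fun x => ¬ P x) p → ¬ (fun x => ¬ P x) q → ∀ i j, i ≠ j →
      U i p * U j q + U i q * U j p = al q p + ga q p * (d i * d j) := by
    intro p q hp hq i j hij
    have hq' : P q := by simpa using hq
    have := H q p hq' hp i j hij
    linarith
  have uniq : ∀ i j, ((∀ p, P p → U i p = 0) ∨ (∀ q, ¬ P q → U i q = 0)) →
      ((∀ p, P p → U j p = 0) ∨ (∀ q, ¬ P q → U j q = 0)) → i = j := by
    intro i j hi hj
    by_contra hij
    rcases hi with hi | hi <;> rcases hj with hj | hj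
    · exact claimB hU hcol h0 hd hP H hij hi hj
    · exact claimC hU h0 hd H hij hi hj
    · exact claimC hU h0 hd H (Ne.symm hij) hj hi
    · exact claimB (P := fun x => ¬ P x) (al := fun a b => al b a) (ga := fun a b => ga b a)
        hU hcol h0 hd hN H' hij hi hj
  obtain ⟨l, hl⟩ : ∃ l : Fin 4, ∀ t, t ≠ l →
      (∃ p, P p ∧ U t p ≠ 0) ∧ (∃ q, ¬ P q ∧ U t q ≠ 0) := by
    by_cases hex : ∃ t, ((∀ p, P p → U t p = 0) ∨ (∀ q, ¬ P q → U t q = 0))
    · obtain ⟨l, hl⟩ := hex
      refine ⟨l, fun t ht => ?_⟩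
      have : ¬ ((∀ p, P p → U t p = 0) ∨ (∀ q, ¬ P q → U t q = 0)) := fun h => ht (uniq t l h hl)
      push Not at this
      exact this
    · refine ⟨0, fun t _ => ?_⟩
      have : ¬ ((∀ p, P p → U t p = 0) ∨ (∀ q, ¬ P q → U t q = 0)) := fun h => hex ⟨t, h⟩
      push Not at this
      exact this
  obtain ⟨i, j, k, hij, hik, hil, hjk, hjl, hkl⟩ : ∃ i j k : Fin 4, i ≠ j ∧ i ≠ k ∧ i ≠ l ∧
      j ≠ k ∧ j ≠ l ∧ k ≠ l := by
    clear hl uniq H H'
    revert l; decide
  exact claimA hU hd H hij hik hil hjk hjl hkl (hl i hil).1 (hl i hil).2 (hl j hjl).1 (hl j hjl).2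
    (hl k hkl).1 (hl k hkl).2

end

end Pool.Agent.V117.WPRb
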