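import Mathlib
import Pool.Agent.V117.WPRa
import Pool.Agent.V117.WPRb

/-!
No dual data `(U, d)` can satisfy the pairwise condition `hW`.
-/

namespace Pool.Agent.V117.WPRc

open Pool.Agent.V117.WPRa Pool.Agent.V117.WPRb

/-- first member of the ten pairs -/
def na (d : Fin 4 → ℝ) : Fin 10 → Fin 4 → ℝ
  | 0 => ![0, d 3 - d 2, d 1 - d 3, d 2 - d 1]
  | 1 => ![d 3 - d 2, 0, d 0 - d 3, d 2 - d 0]
  | 2 => ![d 3 - d 1, d 0 - d 3, 0, d 1 - d 0]
  | 3 => ![d 2 - d 1, d 0 - d 2, d 1 - d 0, 0]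
  | 4 => ![0, 0, 1, -1]
  | 5 => ![1, -1, 0, 0]
  | 6 => ![0, 1, 0, -1]
  | 7 => ![1, 0, -1, 0]
  | 8 => ![0, 1, -1, 0]
  | 9 => ![1, 0, 0, -1]

/-- second member of the ten pairs -/
def nb (d : Fin 4 → ℝ) : Fin 10 → Fin 4 → ℝ
  | 0 => ![1, 0, 0, 0]
  | 1 => ![0, 1, 0, 0]
  | 2 => ![0, 0, 1, 0]
  | 3 => ![0, 0, 0, 1]
  | 4 => ![d 1, -d 0, 0, 0]
  | 5 => ![0, 0, d 3, -d 2]
  | 6 => ![d 2, 0, -d 0, 0]
  | 7 => ![0, d 3, 0, -d 1]
  | 8 => ![d 3, 0, 0, -d 0]
  | 9 => ![0, d 2, -d 1, 0]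

theorem nanb (d : Fin 4 → ℝ) (m : Fin 10) (i : Fin 4) : na d m i * nb d m i = 0 := by
  fin_cases m <;> fin_cases i <;> simp [na, nb]

theorem nsum (d : Fin 4 → ℝ) (m : Fin 10) : (∑ i, na d m i) = 0 := by
  fin_cases m <;> simp [na, Fin.sum_univ_four] <;> ring

theorem nsum2 (d : Fin 4 → ℝ) (m : Fin 10) :
    (∑ i, d i * na d m i) * (∑ i, d i * nb d m i) = 0 := by
  fin_cases m <;> simp [na, nb, Fin.sum_univ_four] <;> ring_nf <;> simp

/-- the ten combinations -/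
def cA (U : Fin 4 → Fin 4 → ℝ) (d : Fin 4 → ℝ) (m : Fin 10) (r : Fin 4) : ℝ := ∑ i, na d m i * U i r
def cB (U : Fin 4 → Fin 4 → ℝ) (d : Fin 4 → ℝ) (m : Fin 10) (r : Fin 4) : ℝ := ∑ i, nb d m i * U i r

/-- the symmetric products of coordinates -/
def ff (U : Fin 4 → Fin 4 → ℝ) (r s : Fin 4) (i j : Fin 4) : ℝ := U i r * U j s + U i s * U j r

def S (U : Fin 4 → Fin 4 → ℝ) (d : Fin 4 → ℝ) (m : Fin 10) (r s : Fin 4) : ℝ :=
  cA U d m r * cB U d m s + cA U d m s * cB U d m r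

theorem S_eq (U : Fin 4 → Fin 4 → ℝ) (d : Fin 4 → ℝ) (m : Fin 10) (r s : Fin 4) :
    S U d m r s = G d (ff U r s) m := by
  fin_cases m <;>
    simp only [S, cA, cB, na, nb, G, ff, Fin.sum_univ_four, Matrix.cons_val_zero,
      Matrix.cons_val_one, Matrix.cons_val, Fin.reduceFinMk, Fin.zero_eta, Fin.mk_one] <;> ring

theorem S_symm (U : Fin 4 → Fin 4 → ℝ) (d : Fin 4 → ℝ) (m : Fin 10) (r s : Fin 4) :
    S U d m r s = S U d m s r := by
  unfold S; ring

section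
variable {U : Fin 4 → Fin 4 → ℝ} {d : Fin 4 → ℝ}

theorem prodzero
    (hW : ∀ a b : Fin 4 → ℝ, (∀ i, a i * b i = 0) → (∑ i, a i) * (∑ i, b i) = 0 →
      (∑ i, d i * a i) * (∑ i, d i * b i) = 0 → ∀ r s,
      ((∑ i, a i * U i r) * (∑ i, b i * U i s)) ^ 2 = ((∑ i, a i * U i s) * (∑ i, b i * U i r)) ^ 2)
    (m : Fin 10) (r s : Fin 4) (h : S U d m r s ≠ 0) :
    cA U d m r * cB U d m s = cA U d m s * cB U d m r := by
  have := hW (na d m) (nb d m) (nanb d m) (by rw [nsum]; ring) (nsum2 d m) r s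
  have h2 : (cA U d m r * cB U d m s - cA U d m s * cB U d m r) * S U d m r s = 0 := by
    unfold S
    change (cA U d m r * cB U d m s) ^ 2 = (cA U d m s * cB U d m r) ^ 2 at this
    linear_combination this
  have := (mul_eq_zero.mp h2).resolve_right h
  linarith

theorem trans'
    (hW : ∀ a b : Fin 4 → ℝ, (∀ i, a i * b i = 0) → (∑ i, a i) * (∑ i, b i) = 0 →
      (∑ i, d i * a i) * (∑ i, d i * b i) = 0 → ∀ r s,
      ((∑ i, a i * U i r) * (∑ i, b i * U i s)) ^ 2 = ((∑ i, a i * U i s) * (∑ i, b i * U i r)) ^ 2)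
    (m : Fin 10) (r s t : Fin 4) (h1 : S U d m r s ≠ 0) (h2 : S U d m s t ≠ 0) :
    S U d m r t ≠ 0 := by
  have e1 := prodzero hW m r s h1
  have e2 := prodzero hW m s t h2
  intro h3
  unfold S at h1 h2 h3
  rw [← e1] at h1
  rw [← e2] at h2
  have n1 : cA U d m r * cB U d m s ≠ 0 := by
    intro h; rw [h] at h1; simp at h1
  have n2 : cA U d m s * cB U d m t ≠ 0 := by
    intro h; rw [h] at h2; simp at h2
  have n3 : cA U d m s * cB U d m r ≠ 0 := by rw [← e1]; exact n1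
  have n4 : cA U d m t * cB U d m s ≠ 0 := by rw [← e2]; exact n2
  have a1 : cA U d m s ≠ 0 := left_ne_zero_of_mul n2
  have b1 : cB U d m s ≠ 0 := right_ne_zero_of_mul n1
  have b2 : cB U d m r ≠ 0 := right_ne_zero_of_mul n3
  have a2 : cA U d m t ≠ 0 := left_ne_zero_of_mul n4
  -- cA r * cB t * (cA s * cB s) = cA s * cB r * (cA t * cB s)
  have key : (cA U d m s * cB U d m s) * (cA U d m r * cB U d m t) =
      (cA U d m s * cB U d m s) * (cA U d m t * cB U d m r) := by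
    linear_combination (cA U d m s * cB U d m t) * e1 + (cA U d m s * cB U d m r) * e2
  have key2 : cA U d m r * cB U d m t = cA U d m t * cB U d m r :=
    mul_left_cancel₀ (mul_ne_zero a1 b1) key
  rw [key2] at h3
  have : cA U d m t * cB U d m r = 0 := by linarith
  exact mul_ne_zero a2 b2 this

theorem notall (hU : ∀ c : Fin 4 → ℝ, (∀ r, ∑ i, c i * U i r = 0) → ∀ i, c i = 0)
    (h0 : ∀ i, d i ≠ 0) (hd : ∀ i j : Fin 4, i ≠ j → d i - d j ≠ 0)
    (hW : ∀ a b : Fin 4 → ℝ, (∀ i, a i * b i = 0) → (∑ i, a i) * (∑ i, b i) = 0 →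
      (∑ i, d i * a i) * (∑ i, d i * b i) = 0 → ∀ r s,
      ((∑ i, a i * U i r) * (∑ i, b i * U i s)) ^ 2 = ((∑ i, a i * U i s) * (∑ i, b i * U i r)) ^ 2)
    (m : Fin 10) : ∃ s, s ≠ 0 ∧ S U d m 0 s = 0 := by
  by_contra hcon
  push Not at hcon
  have e : ∀ s, cA U d m 0 * cB U d m s = cA U d m s * cB U d m 0 := by
    intro s
    by_cases hs : s = 0
    · rw [hs]
    · exact prodzero hW m 0 s (hcon s hs)
  -- cA 0, cB 0 nonzero
  have hne : S U d m 0 1 ≠ 0 := hcon 1 (by decide)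
  have hA : cA U d m 0 ≠ 0 := by
    intro h
    have := e 1
    unfold S at hne
    rw [← this, h] at hne
    simp at hne
  have hB : cB U d m 0 ≠ 0 := by
    intro h
    have := e 1
    unfold S at hne
    rw [this, h] at hne
    simp at hne
  have hz := hU (fun i => cA U d m 0 * nb d m i - cB U d m 0 * na d m i) (by
    intro r
    have := e r
    unfold cA cB at this ⊢
    simp only [sub_mul, Finset.sum_sub_distrib, mul_assoc, ← Finset.mul_sum]
    linarith)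
  -- pick an index with nb ≠ 0
  have hnz : ∃ i, nb d m i ≠ 0 := by
    by_contra hc
    push Not at hc
    apply hB
    unfold cB
    simp [hc]
  obtain ⟨i, hi⟩ := hnz
  have h1 := hz i
  have h2 := nanb d m i
  have h3 : na d m i = 0 := (mul_eq_zero.mp h2).resolve_right hi
  simp only [h3, mul_zero, sub_zero] at h1
  exact mul_ne_zero hA hi h1

end

end Pool.Agent.V117.WPRc
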