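import Mathlib
import Pool.Agent.V117.WPRc

/-!
Counting argument, and the reduction from six vectors of `ℝ⁴`.
-/

namespace Pool.Agent.V117.WPRd

open Pool.Agent.V117.WPRa Pool.Agent.V117.WPRb Pool.Agent.V117.WPRc
open Finset

theorem bool6 : ∀ a b c p q r : Bool,
    (a = false → b = false → p = false) → (a = false → p = false → b = false) →
    (b = false → p = false → a = false) →
    (a = false → c = false → q = false) → (a = false → q = false → c = false) →
    (c = false → q = false → a = false) →
    (b = false → c = false → r = false) → (b = false → r = false → c = false) →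
    (c = false → r = false → b = false) →
    (p = false → q = false → r = false) → (p = false → r = false → q = false) →
    (q = false → r = false → p = false) →
    (a = true ∨ b = true ∨ c = true) →
    3 ≤ a.toNat + b.toNat + c.toNat + p.toNat + q.toNat + r.toNat := by
  intro a b c p q r
  cases a <;> cases b <;> cases c <;> cases p <;> cases q <;> cases r <;> simp

theorem toNat_dec (P : Prop) [Decidable P] : (decide P).toNat = if P then 1 else 0 := by
  by_cases h : P <;> simp [h]

/-- the six pairs of coordinates -/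
def ed : Fin 6 → Fin 4 × Fin 4 := ![(0, 1), (0, 2), (0, 3), (1, 2), (1, 3), (2, 3)]

theorem ed_ne : ∀ k, (ed k).1 ≠ (ed k).2 := by decide

theorem extend {d : Fin 4 → ℝ} {f : Fin 4 → Fin 4 → ℝ} (hf : ∀ i j, f i j = f j i) {al ga : ℝ}
    (h01 : f 0 1 = al + ga * (d 0 * d 1)) (h02 : f 0 2 = al + ga * (d 0 * d 2))
    (h03 : f 0 3 = al + ga * (d 0 * d 3)) (h12 : f 1 2 = al + ga * (d 1 * d 2))
    (h13 : f 1 3 = al + ga * (d 1 * d 3)) (h23 : f 2 3 = al + ga * (d 2 * d 3)) :
    ∀ i j, i ≠ j → f i j = al + ga * (d i * d j) := by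
  have g10 : f 1 0 = al + ga * (d 1 * d 0) := by rw [hf, h01]; ring
  have g20 : f 2 0 = al + ga * (d 2 * d 0) := by rw [hf, h02]; ring
  have g30 : f 3 0 = al + ga * (d 3 * d 0) := by rw [hf, h03]; ring
  have g21 : f 2 1 = al + ga * (d 2 * d 1) := by rw [hf, h12]; ring
  have g31 : f 3 1 = al + ga * (d 3 * d 1) := by rw [hf, h13]; ring
  have g32 : f 3 2 = al + ga * (d 3 * d 2) := by rw [hf, h23]; ring
  intro i j hij
  fin_cases i <;> fin_cases j <;> first | exact absurd rfl hij | assumption

theorem no_dual {U : Fin 4 → Fin 4 → ℝ} {d : Fin 4 → ℝ}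
    (hU : ∀ c : Fin 4 → ℝ, (∀ r, ∑ i, c i * U i r = 0) → ∀ i, c i = 0)
    (hcol : ∀ p, ∃ i, U i p ≠ 0)
    (h0 : ∀ i, d i ≠ 0) (hd : ∀ i j : Fin 4, i ≠ j → d i - d j ≠ 0)
    (hW : ∀ a b : Fin 4 → ℝ, (∀ i, a i * b i = 0) → (∑ i, a i) * (∑ i, b i) = 0 →
      (∑ i, d i * a i) * (∑ i, d i * b i) = 0 → ∀ r s,
      ((∑ i, a i * U i r) * (∑ i, b i * U i s)) ^ 2 = ((∑ i, a i * U i s) * (∑ i, b i * U i r)) ^ 2) :
    False := by
  classical
  -- closure
  have hC : ∀ r s, 5 ≤ (univ.filter fun m => S U d m r s = 0).card → ∀ m, S U d m r s = 0 := by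
    intro r s h m
    have := all_zero d (ff U r s) h0 hd _ h (by
      intro m hm
      rw [← S_eq]
      exact (mem_filter.mp hm).2) m
    rw [S_eq]; exact this
  have hT := trans' hW
  have hNA := notall hU h0 hd hW
  -- a pair with all products zero
  obtain ⟨r0, s0, hrs0, hE0⟩ : ∃ r s, r ≠ s ∧ ∀ m, S U d m r s = 0 := by
    by_contra hcon
    push Not at hcon
    have hle : ∀ k : Fin 6, (univ.filter fun m => S U d m (ed k).1 (ed k).2 = 0).card ≤ 4 := by
      intro k
      by_contra hk
      push Not at hk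
      obtain ⟨m, hm⟩ := hcon (ed k).1 (ed k).2 (ed_ne k)
      exact hm (hC _ _ hk m)
    have hge : ∀ m : Fin 10, 3 ≤ (univ.filter fun k : Fin 6 => S U d m (ed k).1 (ed k).2 = 0).card := by
      intro m
      rw [Finset.card_filter, Fin.sum_univ_six]
      simp only [← toNat_dec]
      have sy := S_symm U d m
      have T := hT m
      obtain ⟨s, hs, hs0⟩ := hNA m
      have hor : S U d m 0 1 = 0 ∨ S U d m 0 2 = 0 ∨ S U d m 0 3 = 0 := by
        revert hs0 hs
        fin_cases s
        · intro h; exact absurd rfl h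
        · intro _ h; exact Or.inl h
        · intro _ h; exact Or.inr (Or.inl h)
        · intro _ h; exact Or.inr (Or.inr h)
      refine bool6 (decide (S U d m 0 1 = 0)) (decide (S U d m 0 2 = 0)) (decide (S U d m 0 3 = 0))
        (decide (S U d m 1 2 = 0)) (decide (S U d m 1 3 = 0)) (decide (S U d m 2 3 = 0))
        ?_ ?_ ?_ ?_ ?_ ?_ ?_ ?_ ?_ ?_ ?_ ?_ ?_
      · simp only [decide_eq_false_iff_not]; intro h1 h2; exact T 1 0 2 (by rwa [sy]) h2
      · simp only [decide_eq_false_iff_not]; intro h1 h2; exact T 0 1 2 h1 h2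
      · simp only [decide_eq_false_iff_not]; intro h1 h2; exact T 0 2 1 h1 (by rwa [sy])
      · simp only [decide_eq_false_iff_not]; intro h1 h2; exact T 1 0 3 (by rwa [sy]) h2
      · simp only [decide_eq_false_iff_not]; intro h1 h2; exact T 0 1 3 h1 h2
      · simp only [decide_eq_false_iff_not]; intro h1 h2; exact T 0 3 1 h1 (by rwa [sy])
      · simp only [decide_eq_false_iff_not]; intro h1 h2; exact T 2 0 3 (by rwa [sy]) h2
      · simp only [decide_eq_false_iff_not]; intro h1 h2; exact T 0 2 3 h1 h2
      · simp only [decide_eq_false_iff_not]; intro h1 h2; exact T 0 3 2 h1 (by rwa [sy])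
      · simp only [decide_eq_false_iff_not]; intro h1 h2; exact T 2 1 3 (by rwa [sy]) h2
      · simp only [decide_eq_false_iff_not]; intro h1 h2; exact T 1 2 3 h1 h2
      · simp only [decide_eq_false_iff_not]; intro h1 h2; exact T 1 3 2 h1 (by rwa [sy])
      · simpa only [decide_eq_true_eq] using hor
    have hswap : ∑ k : Fin 6, (univ.filter fun m => S U d m (ed k).1 (ed k).2 = 0).card =
        ∑ m : Fin 10, (univ.filter fun k : Fin 6 => S U d m (ed k).1 (ed k).2 = 0).card := by
      simp only [Finset.card_filter]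
      exact Finset.sum_comm
    have h1 : ∑ k : Fin 6, (univ.filter fun m => S U d m (ed k).1 (ed k).2 = 0).card ≤
        ∑ _k : Fin 6, 4 := Finset.sum_le_sum fun k _ => hle k
    have h2 : ∑ _m : Fin 10, 3 ≤
        ∑ m : Fin 10, (univ.filter fun k : Fin 6 => S U d m (ed k).1 (ed k).2 = 0).card :=
      Finset.sum_le_sum fun m _ => hge m
    simp only [Finset.sum_const, Finset.card_univ, Fintype.card_fin, smul_eq_mul] at h1 h2
    omega
  -- the dichotomy
  have hD : ∀ r s t, (∀ m, S U d m r s = 0) → (∀ m, S U d m r t = 0) ∨ (∀ m, S U d m s t = 0) := by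
    intro r s t h
    have hcov : (univ : Finset (Fin 10)) ⊆ (univ.filter fun m => S U d m r t = 0) ∪
        (univ.filter fun m => S U d m s t = 0) := by
      intro m _
      rw [mem_union, mem_filter, mem_filter]
      by_contra hc
      push Not at hc
      have h1 := hc.1 (mem_univ m)
      have h2 := hc.2 (mem_univ m)
      exact hT m r t s h1 (by rwa [S_symm]) (h m)
    have hcard := (Finset.card_le_card hcov).trans (Finset.card_union_le _ _)
    rw [Finset.card_univ, Fintype.card_fin] at hcard
    by_cases h5 : 5 ≤ (univ.filter fun m => S U d m r t = 0).card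
    · exact Or.inl (hC r t h5)
    · refine Or.inr (hC s t ?_)
      omega
  let P : Fin 4 → Prop := fun t => t = r0 ∨ ¬ (∀ m, S U d m r0 t = 0)
  have hcut : ∀ p q, P p → ¬ P q → ∀ m, S U d m p q = 0 := by
    intro p q hp hq
    have hq' : q ≠ r0 ∧ ∀ m, S U d m r0 q = 0 := by
      simp only [P] at hq
      push Not at hq
      exact hq
    rcases hp with hp | hp
    · rw [hp]; exact hq'.2
    · rcases hD r0 q p hq'.2 with h | h
      · exact absurd h hp
      · intro m; rw [S_symm]; exact h m
  have hex : ∀ p q, ∃ al ga : ℝ, P p → ¬ P q → ∀ i j, i ≠ j →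
      U i p * U j q + U i q * U j p = al + ga * (d i * d j) := by
    intro p q
    by_cases hp : P p
    · by_cases hq : P q
      · exact ⟨0, 0, fun _ h => absurd hq h⟩
      · have hz : ∀ m, G d (ff U p q) m = 0 := fun m => by
          rw [← S_eq]; exact hcut p q hp hq m
        obtain ⟨al, ga, e1, e2, e3, e4, e5, e6⟩ := code d (ff U p q) h0 hd hz
        refine ⟨al, ga, fun _ _ => ?_⟩
        exact extend (f := ff U p q) (fun i j => by unfold ff; ring) e1 e2 e3 e4 e5 e6
    · exact ⟨0, 0, fun h => absurd h hp⟩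
  choose al ga hag using hex
  refine cut_false (P := P) (al := al) (ga := ga) hU hcol h0 hd ⟨r0, Or.inl rfl⟩ ⟨s0, ?_⟩
    (fun p q hp hq i j hij => hag p q hp hq i j hij)
  simp only [P]
  push Not
  exact ⟨Ne.symm hrs0, hE0⟩

/-- six vectors of `ℝ⁴` never satisfy the pairwise condition -/
theorem no_vectors (v : Fin 6 → Fin 4 → ℝ)
    (hv : ∀ a b : Fin 4 → ℝ, (∀ k, (∑ r, v k r * a r) * (∑ r, v k r * b r) = 0) →
      ∀ r s, (a r * b s) ^ 2 = (a s * b r) ^ 2) : False := by
  classical
  have FS : ∀ (a : Fin 4 → ℝ) (p q : Fin 6), (∀ k, k ≠ p → k ≠ q → ∑ r, v k r * a r = 0) →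
      a = 0 := by
    intro a p q h
    by_contra ha
    obtain ⟨s, hs⟩ := Function.ne_iff.mp ha
    rw [Pi.zero_apply] at hs
    let M : Matrix (Fin 3) (Fin 4) ℝ := Matrix.of ![v p, v q, Pi.single s 1]
    have hker : M.mulVecLin.ker ≠ ⊥ := by
      apply LinearMap.ker_ne_bot_of_finrank_lt
      simp
    obtain ⟨b, hb, hb0⟩ := (Submodule.ne_bot_iff _).mp hker
    rw [LinearMap.mem_ker, Matrix.mulVecLin_apply] at hb
    have e0 : ∑ r, v p r * b r = 0 := congrFun hb 0
    have e1 : ∑ r, v q r * b r = 0 := congrFun hb 1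
    have e2 : b s = 0 := by
      have := congrFun hb 2
      simpa [M, Matrix.mulVec, dotProduct, Pi.single_apply] using this
    apply hb0
    funext r
    have := hv a b (by
      intro k
      by_cases hkp : k = p
      · rw [hkp, e0]; ring
      by_cases hkq : k = q
      · rw [hkq, e1]; ring
      rw [h k hkp hkq]; ring) r s
    rw [e2, mul_zero] at this
    have h3 : (a s * b r) = 0 := by
      have : (a s * b r) ^ 2 = 0 := by rw [← this]; ring
      exact pow_eq_zero_iff (two_ne_zero) |>.mp this
    exact (mul_eq_zero.mp h3).resolve_left hs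
  let V : Matrix (Fin 4) (Fin 4) ℝ := Matrix.of fun i r => v (Fin.castLE (by norm_num) i) r
  have hdet : V.det ≠ 0 := by
    intro h
    obtain ⟨a, ha, hVa⟩ := Matrix.exists_mulVec_eq_zero_iff.mpr h
    apply ha
    refine FS a 4 5 ?_
    intro k hk4 hk5
    have hk : ∃ i : Fin 4, k = Fin.castLE (by norm_num) i := by
      revert hk4 hk5; revert k; decide
    obtain ⟨i, rfl⟩ := hk
    exact congrFun hVa i
  have hu : IsUnit V.det := isUnit_iff_ne_zero.mpr hdet
  let W := V⁻¹
  have hVW : V * W = 1 := Matrix.mul_nonsing_inv V hu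
  have hWV : W * V = 1 := Matrix.nonsing_inv_mul V hu
  have hdual : ∀ k i : Fin 4, ∑ r, v (Fin.castLE (by norm_num) k) r * W r i = if k = i then 1 else 0 := by
    intro k i
    have := congrFun (congrFun hVW k) i
    rw [Matrix.mul_apply, Matrix.one_apply] at this
    exact this
  let c : Fin 4 → ℝ := fun i => ∑ r, v 4 r * W r i
  let e : Fin 4 → ℝ := fun i => ∑ r, v 5 r * W r i
  have hne : ∀ i, (fun r => W r i) ≠ 0 := by
    intro i h
    have := hdual i i
    simp only [if_true] at this
    have h2 : ∀ r, W r i = 0 := fun r => congrFun h r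
    simp [h2] at this
  have cast_cases : ∀ k : Fin 6, k ≠ 4 → k ≠ 5 → ∃ i : Fin 4, k = Fin.castLE (by norm_num) i := by
    decide
  have hc : ∀ i, c i ≠ 0 := by
    intro i hci
    apply hne i
    refine FS _ (Fin.castLE (by norm_num) i) 5 ?_
    intro k hk1 hk5
    by_cases hk4 : k = 4
    · rw [hk4]; exact hci
    · obtain ⟨j, rfl⟩ := cast_cases k hk4 hk5
      rw [hdual j i, if_neg]
      intro hji; exact hk1 (by rw [hji])
  have he : ∀ i, e i ≠ 0 := by
    intro i hei
    apply hne i
    refine FS _ (Fin.castLE (by norm_num) i) 4 ?_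
    intro k hk1 hk4
    by_cases hk5 : k = 5
    · rw [hk5]; exact hei
    · obtain ⟨j, rfl⟩ := cast_cases k hk4 hk5
      rw [hdual j i, if_neg]
      intro hji; exact hk1 (by rw [hji])
  have hce : ∀ i j, i ≠ j → c j * e i - c i * e j ≠ 0 := by
    intro i j hij h
    have hz := FS (fun r => c j * W r i - c i * W r j) (Fin.castLE (by norm_num) i)
      (Fin.castLE (by norm_num) j) (by
      intro k hki hkj
      have hs : ∑ r, v k r * (c j * W r i - c i * W r j) =
          c j * (∑ r, v k r * W r i) - c i * (∑ r, v k r * W r j) := by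
        rw [Finset.mul_sum, Finset.mul_sum, ← Finset.sum_sub_distrib]
        exact Finset.sum_congr rfl fun r _ => by ring
      rw [hs]
      by_cases hk4 : k = 4
      · rw [hk4]; change c j * c i - c i * c j = 0; ring
      by_cases hk5 : k = 5
      · rw [hk5]; exact h
      obtain ⟨l, rfl⟩ := cast_cases k hk4 hk5
      rw [hdual l i, hdual l j, if_neg, if_neg]
      · ring
      · intro hl; exact hkj (by rw [hl])
      · intro hl; exact hki (by rw [hl]))
    have hs : ∑ r, v (Fin.castLE (by norm_num) i) r * (c j * W r i - c i * W r j) = c j := by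
      have : ∑ r, v (Fin.castLE (by norm_num) i) r * (c j * W r i - c i * W r j) =
          c j * (∑ r, v (Fin.castLE (by norm_num) i) r * W r i)
            - c i * (∑ r, v (Fin.castLE (by norm_num) i) r * W r j) := by
        rw [Finset.mul_sum, Finset.mul_sum, ← Finset.sum_sub_distrib]
        exact Finset.sum_congr rfl fun r _ => by ring
      rw [this, hdual i i, hdual i j, if_pos rfl, if_neg hij]; ring
    have h0 : ∀ r, c j * W r i - c i * W r j = 0 := fun r => congrFun hz r
    simp only [h0, mul_zero, Finset.sum_const_zero] at hs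
    exact hc j hs.symm
  let U : Fin 4 → Fin 4 → ℝ := fun i r => W r i / c i
  let d : Fin 4 → ℝ := fun i => e i / c i
  have dotU : ∀ (k : Fin 6) (a : Fin 4 → ℝ), ∑ r, v k r * (∑ i, a i * U i r) =
      ∑ i, a i * ((∑ r, v k r * W r i) / c i) := by
    intro k a
    simp only [Finset.mul_sum]
    rw [Finset.sum_comm]
    refine Finset.sum_congr rfl fun i _ => ?_
    rw [Finset.sum_div, Finset.mul_sum]
    refine Finset.sum_congr rfl fun r _ => ?_
    simp only [U]
    ring
  have dot4 : ∀ (a : Fin 4 → ℝ) (k : Fin 4),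
      ∑ r, v (Fin.castLE (by norm_num) k) r * (∑ i, a i * U i r) = a k / c k := by
    intro a k
    rw [dotU]
    simp only [hdual]
    rw [Finset.sum_eq_single k]
    · simp; ring
    · intro b _ hb; rw [if_neg (Ne.symm hb)]; ring
    · intro h; exact absurd (mem_univ k) h
  have dot5 : ∀ (a : Fin 4 → ℝ), ∑ r, v 4 r * (∑ i, a i * U i r) = ∑ i, a i := by
    intro a
    rw [dotU]
    refine Finset.sum_congr rfl fun i _ => ?_
    change a i * (c i / c i) = a i
    rw [div_self (hc i), mul_one]
  have dot6 : ∀ (a : Fin 4 → ℝ), ∑ r, v 5 r * (∑ i, a i * U i r) = ∑ i, d i * a i := by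
    intro a
    rw [dotU]
    refine Finset.sum_congr rfl fun i _ => ?_
    change a i * (e i / c i) = e i / c i * a i
    ring
  refine no_dual (U := U) (d := d) ?_ ?_ ?_ ?_ ?_
  · intro a ha k
    have h1 := dot4 a k
    simp only [ha, mul_zero, Finset.sum_const_zero] at h1
    have h2 : a k / c k = 0 := h1.symm
    exact (div_eq_zero_iff.mp h2).resolve_right (hc k)
  · intro p
    by_contra hcon
    push Not at hcon
    have h1 := congrFun (congrFun hWV p) p
    rw [Matrix.mul_apply, Matrix.one_apply, if_pos rfl] at h1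
    have h2 : ∀ i, W p i = 0 := by
      intro i
      have := hcon i
      simp only [U] at this
      exact (div_eq_zero_iff.mp this).resolve_right (hc i)
    simp [h2] at h1
  · intro i
    exact div_ne_zero (he i) (hc i)
  · intro i j hij
    simp only [d]
    rw [div_sub_div _ _ (hc i) (hc j)]
    refine div_ne_zero ?_ (mul_ne_zero (hc i) (hc j))
    have := hce i j hij
    intro h
    apply this
    linarith
  · intro a b h1 h2 h3 r s
    refine hv (fun r => ∑ i, a i * U i r) (fun r => ∑ i, b i * U i r) ?_ r s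
    intro k
    by_cases hk4 : k = 4
    · rw [hk4, dot5, dot5]; exact h2
    by_cases hk5 : k = 5
    · rw [hk5, dot6, dot6]; exact h3
    obtain ⟨l, rfl⟩ := cast_cases k hk4 hk5
    rw [dot4, dot4]
    have := h1 l
    have h4 : a l / c l * (b l / c l) = (a l * b l) / (c l * c l) := by
      field_simp
    rw [h4, this, zero_div]

end Pool.Agent.V117.WPRd
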