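import Mathlib

/-! Subspace lattices: the independent family for filters. -/

namespace Pool.Agent.V117.SubLat

open Cardinal

universe u

section Model2

variable (B F : Type u) [Field F]

/-- The model space: finitely supported functions of a finite set `s` and a finite set of finite
sets `x`. -/
abbrev Mod2 := (Finset B × Finset (Finset B)) →₀ F

variable {B F} [DecidableEq B]

/-- The trace of `c` on `s`. -/
noncomputable def tr (c : Set B) (s : Finset B) : Finset B := by
  classical exact s.filter (fun i => i ∈ c)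

/-- The subspace attached to `c` and `a`. -/
noncomputable def sub2 (c : Set B) (a : F) : Submodule F (Mod2 B F) where
  carrier := {v | (∀ s x, ¬ x ⊆ s.powerset → v (s, x) = 0) ∧
    ∀ s x, x ⊆ s.powerset → tr c s ∉ x → v (s, insert (tr c s) x) = a * v (s, x)}
  add_mem' := fun ha hb => ⟨fun s x h => by
      rw [Finsupp.add_apply, ha.1 s x h, hb.1 s x h, add_zero],
    fun s x h h' => by
      rw [Finsupp.add_apply, Finsupp.add_apply, ha.2 s x h h', hb.2 s x h h', mul_add]⟩
  zero_mem' := ⟨fun s x h => by rw [Finsupp.zero_apply], fun s x h h' => by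
      rw [Finsupp.zero_apply, Finsupp.zero_apply, mul_zero]⟩
  smul_mem' := fun r v hv => ⟨fun s x h => by
      rw [Finsupp.smul_apply, hv.1 s x h, smul_zero],
    fun s x h h' => by
      rw [Finsupp.smul_apply, Finsupp.smul_apply, hv.2 s x h h', smul_eq_mul, smul_eq_mul]
      ring⟩

theorem mem_sub2 (c : Set B) (a : F) (v : Mod2 B F) : v ∈ sub2 c a ↔
    (∀ s x, ¬ x ⊆ s.powerset → v (s, x) = 0) ∧
    ∀ s x, x ⊆ s.powerset → tr c s ∉ x → v (s, insert (tr c s) x) = a * v (s, x) := Iff.rfl

theorem sub2_inf (c : Set B) {a a' : F} (h : a ≠ a') : sub2 c a ⊓ sub2 c a' = ⊥ := by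
  classical
  rw [eq_bot_iff]
  intro v hv
  obtain ⟨h1, h2⟩ := (mem_sub2 c a v).mp hv.1
  obtain ⟨-, h3⟩ := (mem_sub2 c a' v).mp hv.2
  have key : ∀ s x, x ⊆ s.powerset → tr c s ∉ x → v (s, x) = 0 := by
    intro s x hx hn
    have h4 := (h2 s x hx hn).symm.trans (h3 s x hx hn)
    have h5 : (a - a') * v (s, x) = 0 := by rw [sub_mul, h4, sub_self]
    exact (mul_eq_zero.mp h5).resolve_left (sub_ne_zero.mpr h)
  rw [Submodule.mem_bot]
  ext ⟨s, x⟩
  rw [Finsupp.zero_apply]
  by_cases hx : x ⊆ s.powerset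
  · by_cases hn : tr c s ∈ x
    · have h6 : x.erase (tr c s) ⊆ s.powerset := (Finset.erase_subset _ _).trans hx
      have h7 := h2 s (x.erase (tr c s)) h6 (Finset.notMem_erase _ _)
      rw [Finset.insert_erase hn, key s _ h6 (Finset.notMem_erase _ _), mul_zero] at h7
      exact h7
    · exact key s x hx hn
  · exact h1 s x hx

theorem exists_separating (T : Finset (Set B)) :
    ∃ s : Finset B, ∀ c ∈ T, ∀ c' ∈ T, tr c s = tr c' s → c = c' := by
  classical
  have hpair : ∀ p : Set B × Set B, ∃ s : Finset B, p.1 ≠ p.2 → tr p.1 s ≠ tr p.2 s := by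
    rintro ⟨c, c'⟩
    by_cases h : c = c'
    · exact ⟨∅, fun h' => absurd h h'⟩
    · obtain ⟨i, hi⟩ : ∃ i, ¬ (i ∈ c ↔ i ∈ c') := by
        by_contra hcon
        push Not at hcon
        exact h (Set.ext hcon)
      refine ⟨{i}, fun _ heq => hi ?_⟩
      have h1 : i ∈ tr c {i} ↔ i ∈ tr c' {i} := by
        have heq' : tr c {i} = tr c' {i} := heq
        rw [heq']
      simpa [tr] using h1
  choose S hS using hpair
  refine ⟨(T ×ˢ T).biUnion S, ?_⟩
  intro c hc c' hc' heq
  by_contra hne
  apply hS (c, c') hne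
  have hsub : S (c, c') ⊆ (T ×ˢ T).biUnion S :=
    Finset.subset_biUnion_of_mem S (Finset.mem_product.mpr ⟨hc, hc'⟩)
  ext i
  have h1 : i ∈ tr c ((T ×ˢ T).biUnion S) ↔ i ∈ tr c' ((T ×ˢ T).biUnion S) := by rw [heq]
  unfold tr at h1 ⊢
  simp only [Finset.mem_filter] at h1 ⊢
  constructor
  · rintro ⟨ha, hb⟩
    exact ⟨ha, (h1.mp ⟨hsub ha, hb⟩).2⟩
  · rintro ⟨ha, hb⟩
    exact ⟨ha, (h1.mpr ⟨hsub ha, hb⟩).2⟩

theorem sub2_fin (T : Finset (Set B)) (e : Set B → F) :
    (T.inf fun c => sub2 c (e c)) ≠ ⊥ := by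
  classical
  obtain ⟨s, hs⟩ := exists_separating T
  let w : Finset B → F := fun y => if h : ∃ c ∈ T, tr c s = y then e h.choose else 0
  have hw : ∀ c ∈ T, w (tr c s) = e c := by
    intro c hc
    have h : ∃ c' ∈ T, tr c' s = tr c s := ⟨c, hc, rfl⟩
    simp only [w, dif_pos h]
    rw [hs _ h.choose_spec.1 c hc h.choose_spec.2]
  let v : Mod2 B F := ∑ x ∈ s.powerset.powerset, Finsupp.single (s, x) (∏ y ∈ x, w y)
  have hv : ∀ s' x, v (s', x) =
      if s' = s ∧ x ⊆ s.powerset then ∏ y ∈ x, w y else 0 := by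
    intro s' x
    simp only [v, Finsupp.finsetSum_apply]
    by_cases h : s' = s ∧ x ⊆ s.powerset
    · rw [if_pos h, Finset.sum_eq_single x]
      · rw [h.1, Finsupp.single_eq_same]
      · intro y _ hy
        rw [Finsupp.single_eq_of_ne]
        intro heq
        exact hy (Prod.ext_iff.mp heq).2.symm
      · intro hx
        exact absurd (Finset.mem_powerset.mpr h.2) hx
    · rw [if_neg h]
      apply Finset.sum_eq_zero
      intro y hy
      rw [Finsupp.single_eq_of_ne]
      intro heq
      apply h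
      have h1 := (Prod.ext_iff.mp heq)
      exact ⟨h1.1, by rw [show x = y from h1.2]; exact Finset.mem_powerset.mp hy⟩
  have hmem : v ∈ T.inf fun c => sub2 c (e c) := by
    rw [Submodule.mem_finsetInf]
    intro c hc
    rw [mem_sub2]
    refine ⟨fun s' x hx => ?_, fun s' x hx hn => ?_⟩
    · rw [hv, if_neg]
      rintro ⟨rfl, h⟩
      exact hx h
    · rw [hv, hv]
      by_cases hss : s' = s
      · subst hss
        have h1 : insert (tr c s') x ⊆ s'.powerset := by
          rw [Finset.insert_subset_iff]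
          refine ⟨?_, hx⟩
          rw [Finset.mem_powerset]
          exact Finset.filter_subset _ _
        rw [if_pos ⟨rfl, h1⟩, if_pos ⟨rfl, hx⟩, Finset.prod_insert hn, hw c hc]
      · rw [if_neg (fun h => hss h.1), if_neg (fun h => hss h.1), mul_zero]
  intro hbot
  rw [hbot, Submodule.mem_bot] at hmem
  have h1 : v (s, ∅) = 1 := by
    rw [hv, if_pos ⟨rfl, Finset.empty_subset _⟩, Finset.prod_empty]
  rw [hmem, Finsupp.zero_apply] at h1
  exact zero_ne_one h1

omit [DecidableEq B] in
theorem rank_Mod2 [Infinite B] : Module.rank F (Mod2 B F) = #B := by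
  rw [rank_finsupp_self', mk_prod, mk_finset_of_infinite, mk_finset_of_infinite,
    mk_finset_of_infinite, lift_id, mul_eq_self (aleph0_le_mk B)]

end Model2

/-- The independent family for filters, in any space of infinite dimension. -/
theorem exists_family_filter (F V B : Type u) [Field F] [AddCommGroup V] [Module F V] [Infinite B]
    (b : Module.Basis B F V) :
    ∃ S : Set B → F → Submodule F V, (∀ c a a', a ≠ a' → S c a ⊓ S c a' = ⊥) ∧
      ∀ (T : Finset (Set B)) (e : Set B → F), (T.inf fun c => S c (e c)) ≠ ⊥ := by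
  classical
  have hr : Module.rank F (Mod2 B F) = Module.rank F V := by
    rw [rank_Mod2, b.mk_eq_rank'']
  obtain ⟨φ⟩ := nonempty_linearEquiv_of_rank_eq hr
  let ψ : Submodule F (Mod2 B F) ≃o Submodule F V := Submodule.orderIsoMapComap φ
  refine ⟨fun c a => ψ (sub2 c a), fun c a a' h => ?_, fun T e => ?_⟩
  · rw [← map_inf, sub2_inf c h, map_bot]
  · intro h
    apply sub2_fin T e
    have h2 : ψ (T.inf fun c => sub2 c (e c)) = ⊥ := by
      rw [map_finset_inf]
      exact h
    rw [← ψ.symm_apply_apply (T.inf fun c => sub2 c (e c)), h2, map_bot]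

end Pool.Agent.V117.SubLat
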