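import Mathlib

/-! Subspace lattices: no infinite skew families in finite-dimensional spaces. -/

namespace Pool.Agent.V117.SubLat

/-- The determinant form attached to a linear map to `F^d`. -/
noncomputable def detForm {F V : Type*} [Field F] [AddCommGroup V] [Module F V] {d : ℕ}
    (φ : V →ₗ[F] (Fin d → F)) : MultilinearMap F (fun _ : Fin d => V) F :=
  (Matrix.detRowAlternating (R := F) (n := Fin d)).toMultilinearMap.compLinearMap (fun _ => φ)

theorem detForm_apply {F V : Type*} [Field F] [AddCommGroup V] [Module F V] {d : ℕ}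
    (φ : V →ₗ[F] (Fin d → F)) (w : Fin d → V) :
    detForm φ w = Matrix.det (Matrix.of fun i => φ (w i)) := rfl

theorem skew_fixed {F V : Type*} [Field F] [AddCommGroup V] [Module F V] [FiniteDimensional F V]
    (d : ℕ) (U W : ℕ → Submodule F V) (hd : ∀ i, Module.finrank F (W i) = d)
    (h : ∀ i, U i ⊓ W i = ⊥) : ∃ i j, i < j ∧ U i ⊓ W j = ⊥ := by
  classical
  by_contra hcon
  push Not at hcon
  -- the space of determinant forms vanishing along `U i`
  let L : ℕ → Submodule F (MultilinearMap F (fun _ : Fin d => V) F) := fun n =>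
    Submodule.span F {D | ∃ i < n, ∃ φ : V →ₗ[F] (Fin d → F), U i ≤ LinearMap.ker φ ∧
      D = detForm φ}
  have hmono : Monotone L := by
    intro a b hab
    apply Submodule.span_mono
    rintro D ⟨i, hi, φ, hφ⟩
    exact ⟨i, lt_of_lt_of_le hi hab, φ, hφ⟩
  obtain ⟨n, hn⟩ := monotone_stabilizes_iff_noetherian.mpr
    (inferInstance : IsNoetherian F (MultilinearMap F (fun _ : Fin d => V) F)) ⟨L, hmono⟩
  -- a basis of `W n`
  let bW := Module.finBasisOfFinrankEq F (W n) (hd n)
  let w : Fin d → V := fun i => (bW i : V)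
  -- all the forms in `L n` vanish at `w`
  have hvan : ∀ D ∈ L n, D w = 0 := by
    intro D hD
    induction hD using Submodule.span_induction with
    | mem D hD =>
      obtain ⟨i, hi, φ, hφ, rfl⟩ := hD
      have hne := hcon i n hi
      obtain ⟨x, hx, hx0⟩ := Submodule.exists_mem_ne_zero_of_ne_bot hne
      rw [detForm_apply]
      -- coordinates of `x`
      let t := bW.repr ⟨x, hx.2⟩
      have ht0 : (fun j => t j) ≠ 0 := by
        intro ht
        apply hx0
        have h1 : bW.repr ⟨x, hx.2⟩ = 0 := by
          ext j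
          exact congrFun ht j
        have h2 : (⟨x, hx.2⟩ : W n) = 0 := by
          rw [← bW.repr.map_eq_zero_iff]
          exact h1
        exact congrArg Subtype.val h2
      have hxs : ∑ j, t j • w j = x := by
        have h1 := bW.sum_repr ⟨x, hx.2⟩
        have h2 := congrArg (Submodule.subtype (W n)) h1
        rw [map_sum] at h2
        simpa using h2
      have hφx : φ x = 0 := hφ hx.1
      have hker : Matrix.vecMul (fun j => t j) (Matrix.of fun i => φ (w i)) = 0 := by
        have h3 : ∑ j, t j • φ (w j) = 0 := by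
          rw [← hφx, ← hxs, map_sum]
          simp only [map_smul]
        ext k
        have h4 := congrFun h3 k
        simp only [Finset.sum_apply, Pi.smul_apply, smul_eq_mul, Pi.zero_apply] at h4
        simp only [Matrix.vecMul, dotProduct, Matrix.of_apply, Pi.zero_apply]
        exact h4
      exact Matrix.exists_vecMul_eq_zero_iff.mp ⟨_, ht0, hker⟩
    | zero => rfl
    | add D D' _ _ h1 h2 => show D w + D' w = 0; rw [h1, h2, add_zero]
    | smul a D _ h1 => show a • D w = 0; rw [h1, smul_zero]
  -- but some form vanishing on `U n` does not vanish at `w`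
  have hdis : Disjoint (U n) (W n) := disjoint_iff.mpr (h n)
  obtain ⟨C, hUC, hC⟩ := hdis.exists_isCompl
  let φ : V →ₗ[F] (Fin d → F) := bW.equivFun.toLinearMap ∘ₗ
    (W n).projectionOnto C hC.symm
  have hφU : U n ≤ LinearMap.ker φ := by
    intro x hx
    rw [LinearMap.mem_ker]
    show bW.equivFun ((W n).projectionOnto C hC.symm x) = 0
    rw [(Submodule.projectionOnto_apply_eq_zero_iff hC.symm).mpr (hUC hx), map_zero]
  have hφw : ∀ i, φ (w i) = Pi.single i 1 := by
    intro i
    show bW.equivFun ((W n).projectionOnto C hC.symm (bW i : V)) = _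
    rw [Submodule.projectionOnto_apply_left]
    ext j
    rw [Module.Basis.equivFun_self]
    simp [Pi.single_apply, eq_comm]
  have hmem : detForm φ ∈ L (n + 1) :=
    Submodule.subset_span ⟨n, Nat.lt_succ_self n, φ, hφU, rfl⟩
  have hLn : L (n + 1) = L n := (hn (n + 1) (Nat.le_succ n)).symm
  rw [hLn] at hmem
  have h0 := hvan _ hmem
  rw [detForm_apply] at h0
  have h1 : (Matrix.of fun i => φ (w i)) = (1 : Matrix (Fin d) (Fin d) F) := by
    ext i j
    rw [Matrix.of_apply, hφw, Matrix.one_apply, Pi.single_apply]
    simp [eq_comm]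
  rw [h1, Matrix.det_one] at h0
  exact one_ne_zero h0

/-- There is no infinite skew family of pairs of subspaces in a finite-dimensional space. -/
theorem skew {F V : Type*} [Field F] [AddCommGroup V] [Module F V] [FiniteDimensional F V]
    (U W : ℕ → Submodule F V) (h : ∀ i, U i ⊓ W i = ⊥) : ∃ i j, i < j ∧ U i ⊓ W j = ⊥ := by
  classical
  let f : ℕ → Fin (Module.finrank F V + 1) := fun i =>
    ⟨Module.finrank F (W i), Nat.lt_succ_of_le (Submodule.finrank_le _)⟩
  obtain ⟨y, hy⟩ := Finite.exists_infinite_fiber f
  let g := Nat.orderEmbeddingOfSet (f ⁻¹' {y})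
  obtain ⟨i, j, hij, hd⟩ := skew_fixed y.val (fun i => U (g i)) (fun i => W (g i))
    (fun i => by
      have : g i ∈ f ⁻¹' {y} := by
        have h2 := @Set.mem_range_self _ _ (Nat.orderEmbeddingOfSet (f ⁻¹' {y})) i
        rw [Nat.orderEmbeddingOfSet_range] at h2
        exact h2
      exact congrArg Fin.val (show f (g i) = y from this)) (fun i => h _)
  exact ⟨g i, g j, g.lt_iff_lt.mpr hij, hd⟩

end Pool.Agent.V117.SubLat
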