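import Mathlib
import Pool.Agent.V117.PFf

set_option linter.unusedSectionVars false

namespace Pool.Agent.V117.PF

section abs
variable {X : Type} [Fintype X] [DecidableEq X] [Nonempty X]
variable {G : Type} [Group G] [Fintype G] [DecidableEq G]

/-- almost superharmonic functions are almost constant -/
lemma a_def_le (ψ : X → G) (q : G → ℝ) (δ : ℝ)
    (hq : ∀ g, (q g - δ) * Fintype.card X ≤ ∑ x : X, q ((ψ x)⁻¹ * g)) {M : ℝ} (hM : ∀ g, q g ≤ M)
    (g : G) (x : X) : M - q ((ψ x)⁻¹ * g) ≤ Fintype.card X * ((M - q g) + δ) := by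
  have h1 := hq g
  rw [← Finset.add_sum_erase _ _ (Finset.mem_univ x)] at h1
  have h2 : ∑ y ∈ Finset.univ.erase x, q ((ψ y)⁻¹ * g) ≤ ∑ y ∈ Finset.univ.erase x, M :=
    Finset.sum_le_sum fun y _ => hM _
  rw [Finset.sum_const, Finset.card_erase_of_mem (Finset.mem_univ x), Finset.card_univ, nsmul_eq_mul,
    Nat.cast_sub Fintype.card_pos] at h2
  push_cast at h2
  nlinarith

lemma a_word (ψ : X → G) (q : G → ℝ) (δ : ℝ) (hδ : 0 ≤ δ)
    (hq : ∀ g, (q g - δ) * Fintype.card X ≤ ∑ x : X, q ((ψ x)⁻¹ * g)) {M : ℝ} (hM : ∀ g, q g ≤ M)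
    (w : List X) : ∀ g : G, M - q ((val ψ w)⁻¹ * g) ≤
      (Fintype.card X : ℝ) ^ w.length * ((M - q g) + w.length * δ) := by
  have hA := cA (A := X)
  induction w with
  | nil => intro g; simp
  | cons x w ih =>
    intro g
    have h1 := ih ((ψ x)⁻¹ * g)
    have e : (val ψ (x :: w))⁻¹ * g = (val ψ w)⁻¹ * ((ψ x)⁻¹ * g) := by
      rw [val_cons]; group
    rw [e]
    have h2 := a_def_le ψ q δ hq hM g x
    have hpow : (0 : ℝ) < (Fintype.card X : ℝ) ^ w.length := by positivity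
    have h3 : (M - q ((ψ x)⁻¹ * g)) + w.length * δ ≤
        Fintype.card X * ((M - q g) + (w.length + 1) * δ) := by
      have h4 : (0 : ℝ) ≤ w.length * δ := by positivity
      have h5 : (w.length : ℝ) * δ ≤ Fintype.card X * (w.length * δ) := by nlinarith
      have h6 : (Fintype.card X : ℝ) * ((M - q g) + (w.length + 1) * δ) =
        Fintype.card X * ((M - q g) + δ) + Fintype.card X * (w.length * δ) := by ring
      rw [h6]; linarith
    calc _ ≤ (Fintype.card X : ℝ) ^ w.length * ((M - q ((ψ x)⁻¹ * g)) + w.length * δ) := h1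
      _ ≤ (Fintype.card X : ℝ) ^ w.length * (Fintype.card X * ((M - q g) + (w.length + 1) * δ)) :=
        mul_le_mul_of_nonneg_left h3 hpow.le
      _ = _ := by rw [List.length_cons, pow_succ]; push_cast; ring

theorem a_bound (ψ : X → G) (hgen : ∀ g : G, ∃ w, val ψ w = g) :
    ∃ C : ℝ, 0 ≤ C ∧ ∀ (q : G → ℝ) (δ : ℝ), 0 ≤ δ → (∑ g : G, q g = 1) →
      (∀ g, (q g - δ) * Fintype.card X ≤ ∑ x : X, q ((ψ x)⁻¹ * g)) →
      ∀ g, q g ≤ 1 / Fintype.card G + C * δ := by
  choose W hW using hgen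
  have hA := cA (A := X)
  refine ⟨∑ x : G, (Fintype.card X : ℝ) ^ (W x).length * (W x).length, ?_, ?_⟩
  · apply Finset.sum_nonneg; intro x _; positivity
  intro q δ hδ hsum hq
  set C := ∑ x : G, (Fintype.card X : ℝ) ^ (W x).length * (W x).length with hC
  obtain ⟨g0, hg0⟩ := Finite.exists_max q
  have h1 : ∀ h : G, q g0 - C * δ ≤ q h := by
    intro h
    have h2 := a_word ψ q δ hδ hq hg0 (W (g0 * h⁻¹)) g0
    rw [hW] at h2
    have e : (g0 * h⁻¹)⁻¹ * g0 = h := by group
    rw [e] at h2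
    have h3 : (Fintype.card X : ℝ) ^ (W (g0 * h⁻¹)).length * (W (g0 * h⁻¹)).length ≤ C :=
      Finset.single_le_sum (f := fun x : G => (Fintype.card X : ℝ) ^ (W x).length * (W x).length)
        (fun x _ => by positivity) (Finset.mem_univ (g0 * h⁻¹))
    have h4 : (Fintype.card X : ℝ) ^ (W (g0 * h⁻¹)).length *
        (q g0 - q g0 + (W (g0 * h⁻¹)).length * δ) =
        ((Fintype.card X : ℝ) ^ (W (g0 * h⁻¹)).length * (W (g0 * h⁻¹)).length) * δ := by
      rw [sub_self, zero_add]; ring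
    rw [h4] at h2
    have h5 := mul_le_mul_of_nonneg_right h3 hδ
    linarith
  have hG : (0 : ℝ) < Fintype.card G := by exact_mod_cast Fintype.card_pos
  have h6 : ∑ _h : G, (q g0 - C * δ) ≤ ∑ h : G, q h := Finset.sum_le_sum fun h _ => h1 h
  rw [hsum, Finset.sum_const, Finset.card_univ, nsmul_eq_mul] at h6
  intro g
  refine (hg0 g).trans ?_
  have h7 : q g0 - C * δ ≤ 1 / Fintype.card G := by
    rw [le_div_iff₀ hG]; linarith
  linarith

end abs

section free
variable {A : Type} [Fintype A] [DecidableEq A] [Nonempty A]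

/-- inverse letter -/
def bar (x : A × Bool) : A × Bool := (x.1, !x.2)

@[simp] lemma bar_bar (x : A × Bool) : bar (bar x) = x := by simp [bar]

lemma ne_bar (x y : A × Bool) : y ≠ bar x ↔ (x.1 = y.1 → x.2 = y.2) := by
  obtain ⟨a, b⟩ := x
  obtain ⟨c, d⟩ := y
  simp only [bar, ne_eq, Prod.mk.injEq, not_and]
  constructor
  · intro h e
    have := h e.symm
    cases b <;> cases d <;> simp_all
  · intro h e
    have := h e.symm
    cases b <;> cases d <;> simp_all

/-- reduced words of length `n + 1` with first letter `x` -/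
def RW : ℕ → A × Bool → Finset (List (A × Bool))
  | 0, x => {[x]}
  | n + 1, x => (Finset.univ.filter (fun y => y ≠ bar x)).biUnion
      (fun y => (RW n y).image (fun w => x :: w))

lemma mem_RW (n : ℕ) (x : A × Bool) (w : List (A × Bool)) :
    w ∈ RW n x ↔ ∃ v, w = x :: v ∧ v.length = n ∧ FreeGroup.IsReduced (x :: v) := by
  induction n generalizing x w with
  | zero =>
    simp only [RW, Finset.mem_singleton]
    constructor
    · rintro rfl; exact ⟨[], rfl, rfl, FreeGroup.IsReduced.singleton⟩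
    · rintro ⟨v, rfl, h2, _⟩
      rw [List.length_eq_zero_iff] at h2
      rw [h2]
  | succ n ih =>
    simp only [RW, Finset.mem_biUnion, Finset.mem_filter, Finset.mem_univ, true_and,
      Finset.mem_image]
    constructor
    · rintro ⟨y, hy, v, hv, rfl⟩
      obtain ⟨u, rfl, h2, h3⟩ := (ih y v).1 hv
      refine ⟨y :: u, rfl, by simp [h2], ?_⟩
      rw [FreeGroup.isReduced_cons_cons]
      exact ⟨(ne_bar x y).1 hy, h3⟩
    · rintro ⟨v, rfl, h2, h3⟩
      cases v with
      | nil => simp at h2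
      | cons y u =>
        rw [FreeGroup.isReduced_cons_cons] at h3
        exact ⟨y, (ne_bar x y).2 h3.1, y :: u, (ih y _).2 ⟨u, rfl, by simpa using h2, h3.2⟩, rfl⟩

lemma sum_RW (n : ℕ) (x : A × Bool) (F : List (A × Bool) → ℝ) :
    ∑ w ∈ RW (n + 1) x, F w = ∑ y : A × Bool, if y ≠ bar x then ∑ w ∈ RW n y, F (x :: w) else 0 := by
  rw [RW, Finset.sum_biUnion, Finset.sum_filter]
  · apply Finset.sum_congr rfl
    intro y _
    split_ifs with h
    · rw [Finset.sum_image]
      intro v _ w _ h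
      simpa using h
    · rfl
  · intro y _ z _ hyz
    simp only [Function.onFun]
    rw [Finset.disjoint_left]
    intro w h1 h2
    obtain ⟨v, hv, rfl⟩ := Finset.mem_image.1 h1
    obtain ⟨v', hv', h3⟩ := Finset.mem_image.1 h2
    simp only [List.cons.injEq, true_and] at h3
    subst h3
    obtain ⟨u, e1, _⟩ := (mem_RW n y _).1 hv
    obtain ⟨u', e2, _⟩ := (mem_RW n z _).1 hv'
    rw [e1] at e2
    simp only [List.cons.injEq] at e2
    exact hyz e2.1

lemma cX : (2 : ℝ) ≤ Fintype.card (A × Bool) := by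
  have h1 : 1 ≤ Fintype.card A := Fintype.card_pos
  have h2 : Fintype.card (A × Bool) = Fintype.card A * 2 := by simp
  have : 2 ≤ Fintype.card (A × Bool) := by omega
  exact_mod_cast this

lemma sum_ne (x : A × Bool) (f : A × Bool → ℝ) :
    (∑ y : A × Bool, if y ≠ x then f y else 0) = (∑ y : A × Bool, f y) - f x := by
  have h1 : ∀ y : A × Bool, (if y ≠ x then f y else 0) = f y - if y = x then f y else 0 := by
    intro y; by_cases h : y = x <;> simp [h]
  rw [Finset.sum_congr rfl fun y _ => h1 y, Finset.sum_sub_distrib, Finset.sum_ite_eq']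
  simp

lemma card_RW (n : ℕ) (x : A × Bool) :
    ∑ _w ∈ RW n x, (1 : ℝ) = ((Fintype.card (A × Bool) : ℝ) - 1) ^ n := by
  induction n generalizing x with
  | zero => simp [RW]
  | succ n ih =>
    rw [sum_RW, Finset.sum_congr rfl (fun y _ => by rw [ih y]), sum_ne (bar x) (fun _ => _)]
    rw [Finset.sum_const, Finset.card_univ, nsmul_eq_mul, pow_succ]; ring

variable {G : Type} [Group G] [Fintype G] [DecidableEq G]

/-- number of reduced words of length `n + 1`, first letter `x`, value `g` -/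
noncomputable def v (ψ : A × Bool → G) (n : ℕ) (x : A × Bool) (g : G) : ℝ :=
  ∑ w ∈ RW n x, if val ψ w = g then (1 : ℝ) else 0

/-- number of reduced words of length `n + 1` and value `g` -/
noncomputable def u (ψ : A × Bool → G) (n : ℕ) (g : G) : ℝ := ∑ x, v ψ n x g

lemma v_succ (ψ : A × Bool → G) (n : ℕ) (x : A × Bool) (g : G) :
    v ψ (n + 1) x g = ∑ y : A × Bool, if y ≠ bar x then v ψ n y ((ψ x)⁻¹ * g) else 0 := by
  unfold v
  rw [sum_RW]
  apply Finset.sum_congr rfl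
  intro y _
  split_ifs with h
  · apply Finset.sum_congr rfl
    intro w _
    rw [val_cons]
    congr 1
    rw [eq_inv_mul_iff_mul_eq]
  · rfl

lemma u_rec (ψ : A × Bool → G) (hψ : ∀ x, ψ (bar x) = (ψ x)⁻¹) (n : ℕ) (g : G) :
    ∑ x : A × Bool, u ψ (n + 1) ((ψ x)⁻¹ * g) =
      u ψ (n + 2) g + ((Fintype.card (A × Bool) : ℝ) - 1) * u ψ n g := by
  have h1 : ∀ x : A × Bool, u ψ (n + 1) ((ψ x)⁻¹ * g) = v ψ (n + 2) x g + (u ψ n g - v ψ n x g) := by
    intro x
    have h2 : v ψ (n + 2) x g = u ψ (n + 1) ((ψ x)⁻¹ * g) - v ψ (n + 1) (bar x) ((ψ x)⁻¹ * g) := by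
      rw [v_succ, sum_ne (bar x) (fun y => v ψ (n + 1) y ((ψ x)⁻¹ * g))]; rfl
    have h3 : v ψ (n + 1) (bar x) ((ψ x)⁻¹ * g) = u ψ n g - v ψ n x g := by
      rw [v_succ, bar_bar, hψ, inv_inv, mul_inv_cancel_left, sum_ne x (fun y => v ψ n y g)]; rfl
    rw [h2, h3]; ring
  rw [Finset.sum_congr rfl fun x _ => h1 x, Finset.sum_add_distrib, Finset.sum_sub_distrib,
    Finset.sum_const, Finset.card_univ, nsmul_eq_mul]
  unfold u
  ring

/-- normalised -/
noncomputable def pp (ψ : A × Bool → G) (n : ℕ) (g : G) : ℝ :=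
  u ψ n g / (Fintype.card (A × Bool) * ((Fintype.card (A × Bool) : ℝ) - 1) ^ n)

lemma pp_nonneg (ψ : A × Bool → G) (n : ℕ) (g : G) : 0 ≤ pp ψ n g := by
  have := cX (A := A)
  unfold pp u v
  apply div_nonneg
  · apply Finset.sum_nonneg; intro x _
    apply Finset.sum_nonneg; intro w _
    split_ifs <;> norm_num
  · have h1 : (0 : ℝ) ≤ (Fintype.card (A × Bool) : ℝ) - 1 := by linarith
    positivity

lemma sum_pp (ψ : A × Bool → G) (n : ℕ) : ∑ g : G, pp ψ n g = 1 := by
  have hX := cX (A := A)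
  unfold pp u v
  rw [← Finset.sum_div, Finset.sum_comm]
  have : ∀ x : A × Bool, (∑ g : G, ∑ w ∈ RW n x, if val ψ w = g then (1 : ℝ) else 0) =
      ((Fintype.card (A × Bool) : ℝ) - 1) ^ n := by
    intro x
    rw [Finset.sum_comm, ← card_RW n x]
    apply Finset.sum_congr rfl
    intro w _; simp
  rw [Finset.sum_congr rfl fun x _ => this x, Finset.sum_const, Finset.card_univ, nsmul_eq_mul]
  have h1 : (0 : ℝ) < (Fintype.card (A × Bool) : ℝ) - 1 := by linarith
  apply div_self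
  positivity

lemma pp_le (ψ : A × Bool → G) (n : ℕ) (g : G) : pp ψ n g ≤ 1 := by
  rw [← sum_pp ψ n]
  exact Finset.single_le_sum (fun g _ => pp_nonneg ψ n g) (Finset.mem_univ g)

lemma pp_rec (ψ : A × Bool → G) (hψ : ∀ x, ψ (bar x) = (ψ x)⁻¹) (n : ℕ) (g : G) :
    ∑ x : A × Bool, pp ψ (n + 1) ((ψ x)⁻¹ * g) =
      ((Fintype.card (A × Bool) : ℝ) - 1) * pp ψ (n + 2) g + pp ψ n g := by
  have hX := cX (A := A)
  have h1 : (0 : ℝ) < (Fintype.card (A × Bool) : ℝ) - 1 := by linarith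
  have h2 : (0 : ℝ) < (Fintype.card (A × Bool) : ℝ) := by linarith
  unfold pp
  rw [← Finset.sum_div, u_rec ψ hψ]
  field_simp
  ring

/-- average over reduced words of lengths `a + 2, ..., a + 1 + L` -/
noncomputable def qq (ψ : A × Bool → G) (a L : ℕ) (g : G) : ℝ :=
  (∑ i ∈ Finset.range L, pp ψ (a + 1 + i) g) / L

lemma sum_qq (ψ : A × Bool → G) (a : ℕ) {L : ℕ} (hL : 0 < L) : ∑ g : G, qq ψ a L g = 1 := by
  unfold qq
  rw [← Finset.sum_div, Finset.sum_comm, Finset.sum_congr rfl (fun n _ => sum_pp ψ _)]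
  have : (0 : ℝ) < L := by exact_mod_cast hL
  rw [Finset.sum_const, Finset.card_range, nsmul_eq_mul, mul_one]
  exact div_self this.ne'

lemma qq_step (ψ : A × Bool → G) (hψ : ∀ x, ψ (bar x) = (ψ x)⁻¹) (a : ℕ) {L : ℕ} (hL : 0 < L) (g : G) :
    (qq ψ a L g - 1 / L) * Fintype.card (A × Bool) ≤ ∑ x : A × Bool, qq ψ a L ((ψ x)⁻¹ * g) := by
  have hL' : (0 : ℝ) < L := by exact_mod_cast hL
  have hX := cX (A := A)
  unfold qq
  rw [← Finset.sum_div, Finset.sum_comm]
  have h0 : ∀ i ∈ Finset.range L, ∑ x : A × Bool, pp ψ (a + 1 + i) ((ψ x)⁻¹ * g) =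
      ((Fintype.card (A × Bool) : ℝ) - 1) * pp ψ (a + i + 2) g + pp ψ (a + i) g := by
    intro i _
    have e : a + 1 + i = (a + i) + 1 := by omega
    rw [e, pp_rec ψ hψ]
  rw [Finset.sum_congr rfl h0, Finset.sum_add_distrib, ← Finset.mul_sum]
  have h4 := Finset.sum_range_succ (fun n => pp ψ (a + n) g) L
  have h5 := Finset.sum_range_succ' (fun n => pp ψ (a + n) g) L
  have h4' := Finset.sum_range_succ (fun n => pp ψ (a + 1 + n) g) L
  have h5' := Finset.sum_range_succ' (fun n => pp ψ (a + 1 + n) g) L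
  have h6 : ∑ i ∈ Finset.range L, pp ψ (a + (i + 1)) g = ∑ i ∈ Finset.range L, pp ψ (a + 1 + i) g :=
    Finset.sum_congr rfl fun k _ => by congr 1; omega
  have h7 : ∑ i ∈ Finset.range L, pp ψ (a + 1 + (i + 1)) g = ∑ i ∈ Finset.range L, pp ψ (a + i + 2) g :=
    Finset.sum_congr rfl fun k _ => by congr 1; omega
  rw [h6] at h5
  rw [h7] at h5'
  simp only [add_zero] at h5 h5'
  have b1 := pp_nonneg ψ (a + L) g
  have b2 := pp_nonneg ψ (a + 1 + L) g
  have b3 := pp_nonneg ψ a g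
  have b4 := pp_le ψ (a + L) g
  have b5 := pp_le ψ (a + 1) g
  rw [← sub_div, div_mul_eq_mul_div]
  apply div_le_div_of_nonneg_right _ hL'.le
  set Z := ∑ i ∈ Finset.range L, pp ψ (a + 1 + i) g
  have e1 : ∑ i ∈ Finset.range L, pp ψ (a + i + 2) g = Z + pp ψ (a + 1 + L) g - pp ψ (a + 1) g := by
    linarith
  have e2 : ∑ i ∈ Finset.range L, pp ψ (a + i) g = Z + pp ψ a g - pp ψ (a + L) g := by linarith
  rw [e1, e2]
  have h8 : ((Fintype.card (A × Bool) : ℝ) - 1) * (Z - 1) ≤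
      ((Fintype.card (A × Bool) : ℝ) - 1) * (Z + pp ψ (a + 1 + L) g - pp ψ (a + 1) g) := by
    apply mul_le_mul_of_nonneg_left _ (by linarith)
    linarith
  have h9 : Z - 1 ≤ Z + pp ψ a g - pp ψ (a + L) g := by linarith
  calc (Z - 1) * (Fintype.card (A × Bool) : ℝ)
      = ((Fintype.card (A × Bool) : ℝ) - 1) * (Z - 1) + (Z - 1) := by ring
    _ ≤ _ := add_le_add h8 h9

end free

end Pool.Agent.V117.PF
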