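import Mathlib
import Pool.Agent.V117.MonIdeal

/-! Regular sequences of length at most two on quotients by ideals. -/

namespace Pool.Agent.V117

open RingTheory.Sequence

section general
variable {R : Type*} [CommRing R]

lemma mk_mem_smul_top (Q J : Ideal R) (p : R) :
    (Submodule.Quotient.mk p : R ⧸ J) ∈ (Q • ⊤ : Submodule R (R ⧸ J)) ↔ p ∈ Q ⊔ J := by
  have h1 : (Q • ⊤ : Submodule R (R ⧸ J)) = Submodule.map (Submodule.mkQ J) Q := by
    have h2 : Submodule.map (Submodule.mkQ J) (Q • (⊤ : Submodule R R)) =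
        Q • Submodule.map (Submodule.mkQ J) ⊤ := Submodule.map_smul'' _ _ _
    rw [Submodule.map_top, Submodule.range_mkQ] at h2
    rw [← h2]
    congr 1
    exact Ideal.mul_top Q
  rw [h1]
  have h3 : p ∈ Submodule.comap (Submodule.mkQ J) (Submodule.map (Submodule.mkQ J) Q) ↔ p ∈ Q ⊔ J := by
    rw [Submodule.comap_map_mkQ, sup_comm]
  exact h3

lemma isSMulRegular_quot_iff (Q J : Ideal R) (f : R) :
    IsSMulRegular ((R ⧸ J) ⧸ (Q • ⊤ : Submodule R (R ⧸ J))) f ↔
      ∀ p, f * p ∈ Q ⊔ J → p ∈ Q ⊔ J := by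
  rw [isSMulRegular_quotient_iff_mem_of_smul_mem]
  constructor
  · intro h p hp
    rw [← mk_mem_smul_top] at hp ⊢
    exact h _ hp
  · intro h x
    obtain ⟨p, rfl⟩ := Submodule.Quotient.mk_surjective J x
    intro hx
    rw [mk_mem_smul_top]
    apply h
    rw [← mk_mem_smul_top]
    exact hx

/-- Description of regular sequences on `R ⧸ J`. -/
lemma isRegular_quot_iff (J : Ideal R) (rs : List R) :
    IsRegular (R ⧸ J) rs ↔
      (∀ i (h : i < rs.length), ∀ p, rs[i] * p ∈ Ideal.ofList (rs.take i) ⊔ J →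
        p ∈ Ideal.ofList (rs.take i) ⊔ J) ∧ (1 : R) ∉ Ideal.ofList rs ⊔ J := by
  rw [isRegular_iff, isWeaklyRegular_iff]
  refine and_congr ?_ ?_
  · refine forall_congr' fun i => forall_congr' fun h => ?_
    exact isSMulRegular_quot_iff _ _ _
  · rw [← mk_mem_smul_top]
    constructor
    · intro h h1
      apply h
      symm
      rw [eq_top_iff]
      intro x _
      obtain ⟨p, rfl⟩ := Submodule.Quotient.mk_surjective J x
      have h2 := Submodule.smul_mem (Ideal.ofList rs • ⊤ : Submodule R (R ⧸ J)) p h1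
      rw [← Submodule.Quotient.mk_smul, smul_eq_mul, mul_one] at h2
      exact h2
    · intro h h1
      apply h
      rw [← h1]
      trivial

/-- Prime avoidance. -/
lemma exists_regular [IsNoetherianRing R] (m J : Ideal R)
    (h : ∀ p, (∀ x ∈ m, x * p ∈ J) → p ∈ J) : ∃ f ∈ m, ∀ p, f * p ∈ J → p ∈ J := by
  by_contra hcon
  push Not at hcon
  have h1 : (m : Set R) ⊆ ⋃ P ∈ associatedPrimes R (R ⧸ J), (P : Set R) := by
    rw [biUnion_associatedPrimes_eq_compl_regular]
    intro f hf
    obtain ⟨p, hp, hp2⟩ := hcon f hf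
    intro hreg
    have hreg' : IsSMulRegular (R ⧸ J) f := hreg
    rw [isSMulRegular_quotient_iff_mem_of_smul_mem] at hreg'
    exact hp2 (hreg' p hp)
  have h2 := associatedPrimes.finite R (R ⧸ J)
  have h3 : ∃ P ∈ associatedPrimes R (R ⧸ J), m ≤ P := by
    have := (Ideal.subset_union_prime_finite h2 (f := fun P => P) ⊤ ⊤ (fun P hP _ _ => hP.isPrime) (I := m)).1 h1
    exact this
  obtain ⟨P, hP, hmP⟩ := h3
  rw [AssociatedPrimes.mem_iff, isAssociatedPrime_iff] at hP
  obtain ⟨hPp, x, hx⟩ := hP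
  obtain ⟨p, rfl⟩ := Submodule.Quotient.mk_surjective J x
  have hpJ : p ∈ J := by
    apply h
    intro y hy
    have h4 := hmP hy
    rw [hx, Submodule.mem_colon_singleton, Submodule.mem_bot, ← Submodule.Quotient.mk_smul,
      Submodule.Quotient.mk_eq_zero] at h4
    exact h4
  apply hPp.ne_top
  rw [Ideal.eq_top_iff_one, hx, Submodule.mem_colon_singleton, Submodule.mem_bot, one_smul,
    Submodule.Quotient.mk_eq_zero]
  exact hpJ

/-- A two step construction of a regular sequence. -/
lemma isRegular_pair (m J : Ideal R) (hJ : J ≤ m) (hm : (1 : R) ∉ m) {f g : R} (hf : f ∈ m)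
    (hg : g ∈ m) (h1 : ∀ p, f * p ∈ J → p ∈ J)
    (h2 : ∀ p, g * p ∈ Ideal.span {f} ⊔ J → p ∈ Ideal.span {f} ⊔ J) :
    IsRegular (R ⧸ J) [f, g] := by
  rw [isRegular_quot_iff]
  constructor
  · intro i hi
    have hi' : i < 2 := hi
    interval_cases i
    · simpa using h1
    · simpa using h2
  · intro h
    apply hm
    have : Ideal.ofList [f, g] ⊔ J ≤ m := by
      refine sup_le ?_ hJ
      unfold Ideal.ofList
      rw [Ideal.span_le]
      intro x hx
      simp at hx
      rcases hx with rfl | rfl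
      · exact hf
      · exact hg
    exact this h

lemma isRegular_single (m J : Ideal R) (hJ : J ≤ m) (hm : (1 : R) ∉ m) {f : R} (hf : f ∈ m)
    (h1 : ∀ p, f * p ∈ J → p ∈ J) :
    IsRegular (R ⧸ J) [f] := by
  rw [isRegular_quot_iff]
  constructor
  · intro i hi
    have hi' : i < 1 := hi
    interval_cases i
    simpa using h1
  · intro h
    apply hm
    have : Ideal.ofList [f] ⊔ J ≤ m := by
      refine sup_le ?_ hJ
      unfold Ideal.ofList
      rw [Ideal.span_le]
      intro x hx
      simp at hx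
      rcases hx with rfl
      exact hf
    exact this h

/-- If the first Koszul cohomology vanishes and `m` is not associated, the depth is at least two. -/
lemma exists_pair [IsNoetherianRing R] {ι : Type*} (y : ι → R) (J : Ideal R)
    (hJ : J ≤ Ideal.span (Set.range y)) (hm : (1 : R) ∉ Ideal.span (Set.range y))
    (h0 : ∀ p, (∀ i, y i * p ∈ J) → p ∈ J)
    (hK : ∀ c : ι → R, (∀ i j, y j * c i - y i * c j ∈ J) → ∃ d, ∀ i, c i - y i * d ∈ J) :
    ∃ f ∈ Ideal.span (Set.range y), ∃ g ∈ Ideal.span (Set.range y),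
      IsRegular (R ⧸ J) [f, g] := by
  obtain ⟨f, hf, hf2⟩ := exists_regular (Ideal.span (Set.range y)) J (fun p hp => h0 p (fun i =>
    hp _ (Ideal.subset_span ⟨i, rfl⟩)))
  obtain ⟨g, hg, hg2⟩ := exists_regular (Ideal.span (Set.range y)) (Ideal.span {f} ⊔ J) (by
    intro p hp
    have h1 : ∀ i, ∃ c, y i * p - f * c ∈ J := by
      intro i
      have h2 := hp _ (Ideal.subset_span ⟨i, rfl⟩)
      rw [Submodule.mem_sup] at h2
      obtain ⟨a, ha, b, hb, hab⟩ := h2
      rw [Ideal.mem_span_singleton'] at ha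
      obtain ⟨c, rfl⟩ := ha
      refine ⟨c, ?_⟩
      have : y i * p - f * c = b := by rw [← hab]; ring
      rw [this]; exact hb
    choose c hc using h1
    obtain ⟨d, hd⟩ := hK c (by
      intro i j
      apply hf2
      have h3 := J.sub_mem (J.mul_mem_left (y i) (hc j)) (J.mul_mem_left (y j) (hc i))
      have h4 : f * (y j * c i - y i * c j) =
          y i * (y j * p - f * c j) - y j * (y i * p - f * c i) := by ring
      rw [h4]; exact h3)
    have h5 : p - f * d ∈ J := by
      apply h0
      intro i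
      have h6 := J.add_mem (hc i) (J.mul_mem_left f (hd i))
      have h7 : y i * (p - f * d) = y i * p - f * c i + f * (c i - y i * d) := by ring
      rw [h7]; exact h6
    rw [Submodule.mem_sup]
    exact ⟨f * d, Ideal.mem_span_singleton'.mpr ⟨d, by ring⟩, p - f * d, h5, by ring⟩)
  exact ⟨f, hf, g, hg, isRegular_pair _ J hJ hm hf hg hf2 hg2⟩

/-- Disconnectedness forces depth at most one. -/
lemma no_pair (PA PB J : Ideal R) (u : R) (hAB : ∀ a ∈ PA, ∀ b ∈ PB, a * b * u ∈ J)
    (hno : ∀ d, (∀ a ∈ PA, a * (d - u) ∈ J) → (∀ b ∈ PB, b * d ∈ J) → False)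
    (rs : List R) (hrs : ∀ x ∈ rs, x ∈ PA ⊔ PB) (hlen : 2 ≤ rs.length)
    (hreg : IsRegular (R ⧸ J) rs) : False := by
  match rs, hrs, hlen, hreg with
  | f :: g :: rest, hrs, _, hreg =>
    rw [isRegular_quot_iff] at hreg
    have h0 := hreg.1 0 (by simp)
    have h1 := hreg.1 1 (by simp)
    simp only [List.getElem_cons_zero, List.take_zero, Ideal.ofList_nil, bot_sup_eq] at h0
    simp only [List.getElem_cons_succ, List.getElem_cons_zero, List.take_succ_cons, List.take_zero,
      Ideal.ofList_singleton] at h1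
    have hf := hrs f (by simp)
    have hg := hrs g (by simp)
    rw [Submodule.mem_sup] at hf hg
    obtain ⟨fa, hfa, fb, hfb, rfl⟩ := hf
    obtain ⟨ga, hga, gb, hgb, rfl⟩ := hg
    have hw : fa * u ∈ Ideal.span {fa + fb} ⊔ J := by
      apply h1
      rw [Submodule.mem_sup]
      refine ⟨(fa + fb) * (ga * u), Ideal.mem_span_singleton'.mpr ⟨ga * u, by ring⟩,
        fa * gb * u - ga * fb * u, J.sub_mem (hAB _ hfa _ hgb) (hAB _ hga _ hfb), by ring⟩
    rw [Submodule.mem_sup] at hw
    obtain ⟨x, hx, j, hj, hxj⟩ := hw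
    rw [Ideal.mem_span_singleton'] at hx
    obtain ⟨d, rfl⟩ := hx
    apply hno d
    · intro a ha
      apply h0
      have : (fa + fb) * (a * (d - u)) = a * (d * (fa + fb) + j) - a * j - a * fa * u - a * fb * u := by
        ring
      rw [this, hxj]
      have h2 : a * (fa * u) - a * j - a * fa * u - a * fb * u = - (a * j) - a * fb * u := by ring
      rw [h2]
      exact J.sub_mem (J.neg_mem (J.mul_mem_left _ hj)) (hAB _ ha _ hfb)
    · intro b hb
      apply h0
      have : (fa + fb) * (b * d) = b * (d * (fa + fb) + j) - b * j := by ring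
      rw [this, hxj]
      have h2 : b * (fa * u) - b * j = fa * b * u - b * j := by ring
      rw [h2]
      exact J.sub_mem (hAB _ hfa _ hb) (J.mul_mem_left _ hj)

end general

end Pool.Agent.V117
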