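import Mathlib
import Pool.Agent.V117.MonIdeal
import Pool.Agent.V117.VNum
import Pool.Agent.V117.SymbPow
import Pool.Agent.V117.DepthTwo

/-! Monomial criteria for depth at least two. -/

namespace Pool.Agent.V117

open MvPolynomial

variable {σ : Type} [Fintype σ] [DecidableEq σ] {K : Type} [Field K]

lemma coeff_of_mem_upIdeal {U : Set (σ →₀ ℕ)} (hU : IsUpperSet U) {f : MvPolynomial σ K}
    (hf : f ∈ upIdeal K U) {x : σ →₀ ℕ} (hx : x ∉ U) : coeff x f = 0 := by
  rw [mem_upIdeal hU] at hf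
  by_contra h
  exact hx (hf x (mem_support_iff.mpr h))

lemma mem_upIdeal_of_coeff {U : Set (σ →₀ ℕ)} (hU : IsUpperSet U) {f : MvPolynomial σ K}
    (hf : ∀ x, x ∉ U → coeff x f = 0) : f ∈ upIdeal K U := by
  rw [mem_upIdeal hU]
  intro m hm
  by_contra h
  exact (mem_support_iff.mp hm) (hf m h)

lemma socle_zero {U : Set (σ →₀ ℕ)} (hU : IsUpperSet U)
    (h : ∀ x, x ∉ U → ∃ i, x + Finsupp.single i 1 ∉ U) (p : MvPolynomial σ K)
    (hp : ∀ i, X i * p ∈ upIdeal K U) : p ∈ upIdeal K U := by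
  apply mem_upIdeal_of_coeff hU
  intro x hx
  obtain ⟨i, hi⟩ := h x hx
  have h1 := coeff_of_mem_upIdeal hU (hp i) hi
  rwa [add_comm, coeff_X_mul] at h1

lemma coeff_X_mul_zero {p : MvPolynomial σ K} {i : σ} {x : σ →₀ ℕ} (hx : x i = 0) :
    coeff x (X i * p) = 0 := by
  rw [coeff_X_mul', if_neg]
  rw [Finsupp.mem_support_iff]
  exact fun h => h hx

lemma koszul_one {U : Set (σ →₀ ℕ)} (hU : IsUpperSet U)
    (h1 : ∀ (b : σ →₀ ℕ) (c : σ → K),
      (∀ i j, b + Finsupp.single i 1 + Finsupp.single j 1 ∉ U → c i = c j) →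
      ∃ c0, ∀ i, b + Finsupp.single i 1 ∉ U → c i = c0)
    (h2 : ∀ (x : σ →₀ ℕ) (i : σ), x i = 0 → x ∉ U → ∃ j, j ≠ i ∧ x + Finsupp.single j 1 ∉ U)
    (c : σ → MvPolynomial σ K) (hc : ∀ i j, X j * c i - X i * c j ∈ upIdeal K U) :
    ∃ d, ∀ i, c i - X i * d ∈ upIdeal K U := by
  classical
  have h3 : ∀ b : σ →₀ ℕ, ∃ c0, ∀ i, b + Finsupp.single i 1 ∉ U →
      coeff (b + Finsupp.single i 1) (c i) = c0 := by
    intro b
    apply h1 b (fun i => coeff (b + Finsupp.single i 1) (c i))
    intro i j hij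
    have h4 := coeff_of_mem_upIdeal hU (hc i j) hij
    rw [coeff_sub, sub_eq_zero] at h4
    have e1 : coeff (b + Finsupp.single i 1 + Finsupp.single j 1) (X j * c i) =
        coeff (b + Finsupp.single i 1) (c i) := by
      rw [add_comm (b + Finsupp.single i 1), coeff_X_mul]
    have e2 : coeff (b + Finsupp.single i 1 + Finsupp.single j 1) (X i * c j) =
        coeff (b + Finsupp.single j 1) (c j) := by
      have : b + Finsupp.single i 1 + Finsupp.single j 1 =
          Finsupp.single i 1 + (b + Finsupp.single j 1) := by abel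
      rw [this, coeff_X_mul]
    rw [e1, e2] at h4
    exact h4
  choose c0 hc0 using h3
  let D : Finset (σ →₀ ℕ) := Finset.univ.biUnion (fun i => (c i).support.image
    (fun m => m - Finsupp.single i 1))
  refine ⟨∑ b ∈ D, monomial b (c0 b), fun i => ?_⟩
  apply mem_upIdeal_of_coeff hU
  intro x hx
  rw [coeff_sub, sub_eq_zero]
  by_cases hxi : x i = 0
  · rw [coeff_X_mul_zero hxi]
    obtain ⟨j, hji, hj⟩ := h2 x i hxi hx
    have h4 := coeff_of_mem_upIdeal hU (hc i j) hj
    rw [coeff_sub, sub_eq_zero] at h4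
    rw [add_comm, coeff_X_mul, coeff_X_mul_zero] at h4
    · exact h4
    · simp [hxi, hji]
  · obtain ⟨b, rfl⟩ : ∃ b, x = b + Finsupp.single i 1 :=
      ⟨x - Finsupp.single i 1, by
        rw [tsub_add_cancel_of_le]
        exact Finsupp.single_le_iff.mpr (Nat.one_le_iff_ne_zero.mpr hxi)⟩
    have e3 : coeff (b + Finsupp.single i 1) (X i * ∑ b ∈ D, monomial b (c0 b)) =
        coeff b (∑ b ∈ D, monomial b (c0 b)) := by
      rw [add_comm, coeff_X_mul]
    rw [e3, coeff_sum]
    simp only [coeff_monomial]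
    rw [Finset.sum_ite_eq']
    split_ifs with hb
    · exact hc0 b i hx
    · by_contra hne
      apply hb
      simp only [D, Finset.mem_biUnion, Finset.mem_univ, true_and, Finset.mem_image]
      refine ⟨i, b + Finsupp.single i 1, mem_support_iff.mpr hne, ?_⟩
      simp

/-- For the family `F` of supports: exponents of weight at least `n` on each member of `F`. -/
def famSet (F : Set (Finset σ)) (n : ℕ) : Set (σ →₀ ℕ) := {x | ∀ C ∈ F, n ≤ ∑ i ∈ C, x i}

lemma isUpperSet_famSet (F : Set (Finset σ)) (n : ℕ) : IsUpperSet (famSet F n) :=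
  fun a b hab ha C hC => (ha C hC).trans (Finset.sum_le_sum fun i _ => hab i)

/-- transversals of the family -/
def transv (F : Set (Finset σ)) : Set (Finset σ) := {s | ∀ C ∈ F, ∃ v ∈ s, v ∈ C}

lemma famSet_eq (F : Set (Finset σ)) (n : ℕ) :
    {x : σ →₀ ℕ | ∀ C, IsCov (transv F) C → n ≤ ∑ i ∈ C, x i} = famSet F n := by
  ext x
  constructor
  · intro h C hC
    apply h
    intro s hs
    exact hs C hC
  · intro h C hC
    have : ∃ C' ∈ F, C' ⊆ C := by
      by_contra hcon
      push Not at hcon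
      have : Cᶜ ∈ transv F := by
        intro C' hC'
        have h2 := hcon C' hC'
        rw [Finset.not_subset] at h2
        obtain ⟨v, hv, hv2⟩ := h2
        exact ⟨v, by simpa using hv2, hv⟩
      obtain ⟨v, hv, hv2⟩ := hC _ this
      simp at hv
      exact hv hv2
    obtain ⟨C', hC', hsub⟩ := this
    exact (h C' hC').trans (Finset.sum_le_sum_of_subset hsub)

lemma symbolic_transv (F : Set (Finset σ)) (n : ℕ) :
    symbolicPower (sqfIdeal K (transv F)) n = upIdeal K (famSet F n) := by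
  rw [symbolicPower_eq, famSet_eq]

lemma sqfIdeal_eq (S : Set (Finset σ)) :
    Ideal.span ((fun s : Finset σ =>
      MvPolynomial.monomial (∑ i ∈ s, Finsupp.single i 1) (1 : K)) '' S) = sqfIdeal K S := by
  unfold sqfIdeal
  congr 1
  ext f
  constructor
  · rintro ⟨s, hs, rfl⟩
    exact ⟨s, hs, by simp only [X]; rw [monomial_sum_one]⟩
  · rintro ⟨s, hs, rfl⟩
    exact ⟨s, hs, by simp only [X]; rw [monomial_sum_one]⟩

lemma symbolic_transv' (F : Set (Finset σ)) (n : ℕ) :
    (⨅ P ∈ Ideal.minimalPrimes (Ideal.span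
                ((fun s : Finset σ =>
                  MvPolynomial.monomial (∑ i ∈ s, Finsupp.single i 1) (1 : K)) '' (transv F))), P ^ n)
    = upIdeal K (famSet F n) := by
  rw [sqfIdeal_eq]
  exact symbolic_transv F n

end Pool.Agent.V117
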