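import Mathlib
import Pool.Agent.V117.MonIdeal
import Pool.Agent.V117.VNum
import Pool.Agent.V117.SymbPow
import Pool.Agent.V117.DepthTwo
import Pool.Agent.V117.DepthMon

/-! A family of squarefree monomial ideals whose symbolic powers stabilise in depth only after
exponentially many steps. -/

namespace Pool.Agent.V117.ExpDstab

open MvPolynomial Pool.Agent.V117

def CA (k i : ℕ) : Finset (Fin (2 * k + 2)) :=
  Finset.univ.filter (fun v => (1 ≤ i ∧ v.val = i) ∨ k + 1 + i ≤ v.val)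
def CB (k i : ℕ) : Finset (Fin (2 * k + 2)) :=
  Finset.univ.filter (fun v => (1 ≤ i ∧ v.val = k + 1 + i) ∨ (i ≤ v.val ∧ v.val ≤ k))
def Fam (k : ℕ) : Set (Finset (Fin (2 * k + 2))) :=
  {C | ∃ i, i ≤ k ∧ (C = CA k i ∨ C = CB k i)}

/-- extension by zero -/
def ex {N : ℕ} (x : Fin N → ℕ) (j : ℕ) : ℕ := if h : j < N then x ⟨j, h⟩ else 0

lemma ex_val {N : ℕ} (x : Fin N → ℕ) (v : Fin N) : ex x v.val = x v := by
  unfold ex
  rw [dif_pos v.2]

lemma sum_fin {k : ℕ} (p : ℕ → Prop) [DecidablePred p] (x : Fin (2 * k + 2) → ℕ) :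
    ∑ v ∈ Finset.univ.filter (fun v : Fin (2 * k + 2) => p v.val), x v =
      (∑ j ∈ Finset.range (k + 1), if p j then ex x j else 0) +
      ∑ j ∈ Finset.range (k + 1), if p (k + 1 + j) then ex x (k + 1 + j) else 0 := by
  rw [Finset.sum_filter]
  have h1 : ∑ v : Fin (2 * k + 2), (if p v.val then x v else 0) =
      ∑ v : Fin (2 * k + 2), (fun j => if p j then ex x j else 0) v.val := by
    refine Finset.sum_congr rfl fun v _ => ?_
    simp only [ex_val]
  rw [h1, ← Finset.sum_range (fun j => if p j then ex x j else 0)]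
  have h2 : Finset.range (2 * k + 2) = Finset.range ((k + 1) + (k + 1)) := by
    congr 1; ring
  rw [h2, Finset.sum_range_add]

lemma sum_CA {k i : ℕ} (hi : i ≤ k) (x : Fin (2 * k + 2) → ℕ) :
    ∑ v ∈ CA k i, x v = (if 1 ≤ i then ex x i else 0) +
      ∑ j ∈ Finset.Ico i (k + 1), ex x (k + 1 + j) := by
  unfold CA
  rw [sum_fin (fun v => (1 ≤ i ∧ v = i) ∨ k + 1 + i ≤ v)]
  congr 1
  · rw [Finset.sum_eq_single i]
    · congr 1
      simp only [and_true, eq_iff_iff, or_iff_left_iff_imp]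
      intro h; omega
    · intro j hj hne
      rw [Finset.mem_range] at hj
      rw [if_neg]
      omega
    · intro h
      exfalso; apply h
      rw [Finset.mem_range]; omega
  · rw [← Finset.sum_filter]
    apply Finset.sum_congr
    · ext j
      simp only [Finset.mem_filter, Finset.mem_range, Finset.mem_Ico]
      omega
    · intros; rfl

lemma sum_CB {k i : ℕ} (hi : i ≤ k) (x : Fin (2 * k + 2) → ℕ) :
    ∑ v ∈ CB k i, x v = (∑ j ∈ Finset.Ico i (k + 1), ex x j) +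
      (if 1 ≤ i then ex x (k + 1 + i) else 0) := by
  unfold CB
  rw [sum_fin (fun v => (1 ≤ i ∧ v = k + 1 + i) ∨ (i ≤ v ∧ v ≤ k))]
  congr 1
  · rw [← Finset.sum_filter]
    apply Finset.sum_congr
    · ext j
      simp only [Finset.mem_filter, Finset.mem_range, Finset.mem_Ico]
      omega
    · intros; rfl
  · rw [Finset.sum_eq_single i]
    · congr 1
      simp only [and_true, eq_iff_iff, or_iff_left_iff_imp]
      intro h; omega
    · intro j hj hne
      rw [Finset.mem_range] at hj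
      rw [if_neg]
      omega
    · intro h
      exfalso; apply h
      rw [Finset.mem_range]; omega

lemma numeric {k n : ℕ} (a b : ℕ → ℕ)
    (hA : ∑ j ∈ Finset.range (k + 1), a j < n) (hB : ∑ j ∈ Finset.range (k + 1), b j < n)
    (h1 : ∀ i, 1 ≤ i → i ≤ k → n ≤ a i + ∑ j ∈ Finset.Ico i (k + 1), b j)
    (h2 : ∀ i, 1 ≤ i → i ≤ k → n ≤ (∑ j ∈ Finset.Ico i (k + 1), a j) + b i) : 2 ^ k ≤ n := by
  have h3 : ∀ i, 1 ≤ i → i ≤ k → (∑ j ∈ Finset.range i, b j) < a i := by
    intro i hi hik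
    have e : ∑ j ∈ Finset.range i, b j + ∑ j ∈ Finset.Ico i (k + 1), b j =
        ∑ j ∈ Finset.range (k + 1), b j := Finset.sum_range_add_sum_Ico _ (by omega)
    have := h1 i hi hik
    omega
  have h4 : ∀ i, 1 ≤ i → i ≤ k → (∑ j ∈ Finset.range i, a j) < b i := by
    intro i hi hik
    have e : ∑ j ∈ Finset.range i, a j + ∑ j ∈ Finset.Ico i (k + 1), a j =
        ∑ j ∈ Finset.range (k + 1), a j := Finset.sum_range_add_sum_Ico _ (by omega)
    have := h2 i hi hik
    omega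
  have h5 : ∀ i, i ≤ k → 2 ^ i ≤ 1 + ∑ j ∈ Finset.range (i + 1), a j ∧
      2 ^ i ≤ 1 + ∑ j ∈ Finset.range (i + 1), b j := by
    intro i
    induction i with
    | zero => intro _; constructor <;> simp
    | succ i ih =>
      intro hik
      obtain ⟨ha, hb⟩ := ih (by omega)
      have h6 := h3 (i + 1) (by omega) hik
      have h7 := h4 (i + 1) (by omega) hik
      rw [Finset.sum_range_succ _ (i + 1), Finset.sum_range_succ _ (i + 1), pow_succ]
      constructor <;> omega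
  have := (h5 k le_rfl).1
  omega

/-- binary weights -/
def wt (j : ℕ) : ℕ := if j = 0 then 0 else 2 ^ (j - 1)

lemma sum_wt (i : ℕ) : ∑ j ∈ Finset.range (i + 1), wt j + 1 = 2 ^ i := by
  induction i with
  | zero => simp [wt]
  | succ i ih =>
    rw [Finset.sum_range_succ, pow_succ]
    have : wt (i + 1) = 2 ^ i := by simp [wt]
    rw [this]
    omega

lemma wt_Ico {k i : ℕ} (hi : 1 ≤ i) (hik : i ≤ k) :
    wt i + ∑ j ∈ Finset.Ico i (k + 1), wt j = 2 ^ k := by
  have e : ∑ j ∈ Finset.range i, wt j + ∑ j ∈ Finset.Ico i (k + 1), wt j =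
        ∑ j ∈ Finset.range (k + 1), wt j := Finset.sum_range_add_sum_Ico _ (by omega)
  have h1 := sum_wt k
  obtain ⟨j, rfl⟩ : ∃ j, i = j + 1 := ⟨i - 1, by omega⟩
  have h2 := sum_wt j
  have : wt (j + 1) = 2 ^ j := by simp [wt]
  omega

/-- the critical exponent -/
noncomputable def al (k : ℕ) : Fin (2 * k + 2) →₀ ℕ :=
  Finsupp.equivFunOnFinite.symm (fun v => if v.val ≤ k then wt v.val else wt (v.val - (k + 1)))

lemma ex_al1 {k j : ℕ} (hj : j ≤ k) : ex (al k) j = wt j := by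
  unfold ex al
  rw [dif_pos (by omega)]
  simp [hj]

lemma ex_al2 {k j : ℕ} (hj : j ≤ k) : ex (al k) (k + 1 + j) = wt j := by
  unfold ex al
  rw [dif_pos (by omega)]
  have : ¬ (k + 1 + j ≤ k) := by omega
  simp [this]

lemma al_CA {k i : ℕ} (hi : i ≤ k) : ∑ v ∈ CA k i, al k v = if 1 ≤ i then 2 ^ k else 2 ^ k - 1 := by
  rw [sum_CA hi]
  have : ∑ j ∈ Finset.Ico i (k + 1), ex (al k) (k + 1 + j) = ∑ j ∈ Finset.Ico i (k + 1), wt j := by
    refine Finset.sum_congr rfl fun j hj => ?_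
    rw [Finset.mem_Ico] at hj
    exact ex_al2 (by omega)
  rw [this, ex_al1 hi]
  split_ifs with h
  · exact wt_Ico h hi
  · have h0 : i = 0 := by omega
    subst h0
    have := sum_wt k
    rw [Finset.range_eq_Ico] at this
    omega

lemma al_CB {k i : ℕ} (hi : i ≤ k) : ∑ v ∈ CB k i, al k v = if 1 ≤ i then 2 ^ k else 2 ^ k - 1 := by
  rw [sum_CB hi]
  have : ∑ j ∈ Finset.Ico i (k + 1), ex (al k) j = ∑ j ∈ Finset.Ico i (k + 1), wt j := by
    refine Finset.sum_congr rfl fun j hj => ?_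
    rw [Finset.mem_Ico] at hj
    exact ex_al1 (by omega)
  rw [this, ex_al2 hi]
  split_ifs with h
  · rw [add_comm]; exact wt_Ico h hi
  · have h0 : i = 0 := by omega
    subst h0
    have := sum_wt k
    rw [Finset.range_eq_Ico] at this
    omega

abbrev v0 (k : ℕ) : Fin (2 * k + 2) := ⟨0, by omega⟩
abbrev v1 (k : ℕ) : Fin (2 * k + 2) := ⟨k + 1, by omega⟩

lemma v0_CA (k i : ℕ) : v0 k ∉ CA k i := by
  simp [CA]; omega
lemma v1_CB (k i : ℕ) : v1 k ∉ CB k i := by
  simp [CB]; omega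
lemma v1_CA {k i : ℕ} (hi : 1 ≤ i) (hik : i ≤ k) : v1 k ∉ CA k i := by
  simp [CA]; omega
lemma v0_CB {k i : ℕ} (hi : 1 ≤ i) (hik : i ≤ k) : v0 k ∉ CB k i := by
  simp [CB]; omega

lemma two_out {k : ℕ} (hk : 1 ≤ k) {C : Finset (Fin (2 * k + 2))} (hC : C ∈ Fam k) :
    ∃ a b, a ≠ b ∧ a ∉ C ∧ b ∉ C := by
  obtain ⟨i, hik, rfl | rfl⟩ := hC
  · by_cases hi : 1 ≤ i
    · exact ⟨v0 k, v1 k, by simp, v0_CA k i, v1_CA hi hik⟩
    · refine ⟨v0 k, ⟨1, by omega⟩, by simp, v0_CA k i, ?_⟩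
      simp [CA]; omega
  · by_cases hi : 1 ≤ i
    · exact ⟨v0 k, v1 k, by simp, v0_CB hi hik, v1_CB k i⟩
    · refine ⟨v1 k, ⟨k + 2, by omega⟩, by simp, v1_CB k i, ?_⟩
      simp [CB]; omega

lemma sum_add_single {σ : Type} [DecidableEq σ] {C : Finset σ} {j : σ} (hj : j ∉ C) (x : σ →₀ ℕ) :
    ∑ v ∈ C, (x + Finsupp.single j 1 : σ →₀ ℕ) v = ∑ v ∈ C, x v := by
  refine Finset.sum_congr rfl fun v hv => ?_
  rw [Finsupp.add_apply, Finsupp.single_eq_of_ne, add_zero]
  intro h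
  exact hj (h ▸ hv)

lemma sum_add_single' {σ : Type} [DecidableEq σ] {C : Finset σ} {j : σ} (hj : j ∈ C) (x : σ →₀ ℕ) :
    ∑ v ∈ C, (x + Finsupp.single j 1 : σ →₀ ℕ) v = ∑ v ∈ C, x v + 1 := by
  simp only [Finsupp.add_apply, Finset.sum_add_distrib]
  congr 1
  rw [Finset.sum_eq_single j]
  · simp
  · intro i _ hi
    rw [Finsupp.single_apply, if_neg (Ne.symm hi)]
  · intro h; exact absurd hj h

lemma cond2 {k n : ℕ} (hk : 1 ≤ k) (x : Fin (2 * k + 2) →₀ ℕ) (i : Fin (2 * k + 2))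
    (hx : x ∉ famSet (Fam k) n) : ∃ j, j ≠ i ∧ x + Finsupp.single j 1 ∉ famSet (Fam k) n := by
  unfold famSet at hx
  rw [Set.mem_ofPred_eq] at hx
  push Not at hx
  obtain ⟨C, hC, hlt⟩ := hx
  obtain ⟨a, b, hab, ha, hb⟩ := two_out hk hC
  have key : ∀ j, j ∉ C → x + Finsupp.single j 1 ∉ famSet (Fam k) n := by
    intro j hj h
    have := h C hC
    rw [sum_add_single hj] at this
    omega
  by_cases hai : a = i
  · exact ⟨b, fun h => hab (hai.trans h.symm), key b hb⟩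
  · exact ⟨a, hai, key a ha⟩

lemma cond1 {k n : ℕ} {K : Type} (hn : n < 2 ^ k) (b : Fin (2 * k + 2) →₀ ℕ)
    (c : Fin (2 * k + 2) → K)
    (hc : ∀ i j, b + Finsupp.single i 1 + Finsupp.single j 1 ∉ famSet (Fam k) n → c i = c j) :
    ∃ c0, ∀ i, b + Finsupp.single i 1 ∉ famSet (Fam k) n → c i = c0 := by
  have h1 : ∀ C ∈ Fam k, ∑ v ∈ C, b v < n → ∀ i j, i ∉ C → j ∉ C → c i = c j := by
    intro C hC hlt i j hi hj
    apply hc
    intro h
    have := h C hC
    rw [sum_add_single hj, sum_add_single hi] at this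
    omega
  have h2 : ∀ i, b + Finsupp.single i 1 ∉ famSet (Fam k) n →
      ∃ C ∈ Fam k, ∑ v ∈ C, b v < n ∧ ∀ j, j ∉ C → c i = c j := by
    intro i hi
    unfold famSet at hi
    rw [Set.mem_ofPred_eq] at hi
    push Not at hi
    obtain ⟨C, hC, hlt⟩ := hi
    refine ⟨C, hC, lt_of_le_of_lt (Finset.sum_le_sum fun v _ => ?_) hlt, ?_⟩
    · rw [Finsupp.add_apply]; omega
    · intro j hj
      apply hc
      intro h
      have := h C hC
      rw [sum_add_single hj] at this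
      omega
  by_cases h3 : ∃ C ∈ Fam k, ∑ v ∈ C, b v < n ∧ v0 k ∉ C ∧ v1 k ∉ C
  · obtain ⟨C, hC, hlt, hv0, hv1⟩ := h3
    have h4 : c (v0 k) = c (v1 k) := h1 C hC hlt _ _ hv0 hv1
    refine ⟨c (v0 k), fun i hi => ?_⟩
    obtain ⟨C', ⟨j, hj, rfl | rfl⟩, -, h5⟩ := h2 i hi
    · exact h5 _ (v0_CA k j)
    · rw [h4]; exact h5 _ (v1_CB k j)
  · push Not at h3
    by_cases h4 : ∑ v ∈ CA k 0, b v < n
    · have h5 : ¬ (∑ v ∈ CB k 0, b v < n) := by
        intro h5
        have h6 : 2 ^ k ≤ n := by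
          apply numeric (ex (⇑b)) (fun j => ex (⇑b) (k + 1 + j))
          · rw [sum_CB (Nat.zero_le k)] at h5
            simpa using h5
          · rw [sum_CA (Nat.zero_le k)] at h4
            simpa using h4
          · intro i hi hik
            by_contra hlt
            push Not at hlt
            have h7 := h3 (CA k i) ⟨i, hik, Or.inl rfl⟩ (by
              rw [sum_CA hik, if_pos hi]; exact hlt) (v0_CA k i)
            exact v1_CA hi hik h7
          · intro i hi hik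
            by_contra hlt
            push Not at hlt
            have h7 := h3 (CB k i) ⟨i, hik, Or.inr rfl⟩ (by
              rw [sum_CB hik, if_pos hi]; exact hlt) (v0_CB hi hik)
            exact v1_CB k i h7
        omega
      refine ⟨c (v0 k), fun i hi => ?_⟩
      obtain ⟨C', ⟨j, hj, rfl | rfl⟩, hlt, h6⟩ := h2 i hi
      · exact h6 _ (v0_CA k j)
      · by_cases hj0 : 1 ≤ j
        · exact h6 _ (v0_CB hj0 hj)
        · have : j = 0 := by omega
          subst this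
          exact absurd hlt h5
    · refine ⟨c (v1 k), fun i hi => ?_⟩
      obtain ⟨C', ⟨j, hj, rfl | rfl⟩, hlt, h6⟩ := h2 i hi
      · by_cases hj0 : 1 ≤ j
        · exact h6 _ (v1_CA hj0 hj)
        · have : j = 0 := by omega
          subst this
          exact absurd hlt h4
      · exact h6 _ (v1_CB k j)

/-- lengths of regular sequences -/
def lens (k : ℕ) (J : Ideal (MvPolynomial (Fin (2 * k + 2)) ℚ)) : Set ℕ :=
  {l : ℕ | ∃ rs : List (MvPolynomial (Fin (2 * k + 2)) ℚ), rs.length = l ∧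
          (∀ x ∈ rs, x ∈ Ideal.span (Set.range
            (MvPolynomial.X : Fin (2 * k + 2) → MvPolynomial (Fin (2 * k + 2)) ℚ))) ∧
          RingTheory.Sequence.IsRegular (MvPolynomial (Fin (2 * k + 2)) ℚ ⧸ J) rs}

lemma span_range_eq (k : ℕ) : Ideal.span (Set.range
    (MvPolynomial.X : Fin (2 * k + 2) → MvPolynomial (Fin (2 * k + 2)) ℚ)) =
      varIdeal ℚ Finset.univ := by
  unfold varIdeal
  simp

lemma one_notMem (k : ℕ) : (1 : MvPolynomial (Fin (2 * k + 2)) ℚ) ∉ Ideal.span (Set.range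
    (MvPolynomial.X : Fin (2 * k + 2) → MvPolynomial (Fin (2 * k + 2)) ℚ)) := by
  rw [span_range_eq, ← Ideal.eq_top_iff_one]
  exact (varIdeal_isPrime Finset.univ).ne_top

lemma J_le {k n : ℕ} (hn : 1 ≤ n) : upIdeal ℚ (famSet (Fam k) n) ≤ Ideal.span (Set.range
    (MvPolynomial.X : Fin (2 * k + 2) → MvPolynomial (Fin (2 * k + 2)) ℚ)) := by
  rw [span_range_eq, varIdeal_eq]
  unfold upIdeal
  apply Ideal.span_mono
  apply Set.image_mono
  intro x hx
  have h1 : n ≤ ∑ v ∈ CA k 0, x v := hx _ ⟨0, Nat.zero_le _, Or.inl rfl⟩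
  show 1 ≤ _
  exact hn.trans (h1.trans (Finset.sum_le_sum_of_subset (Finset.subset_univ _)))

lemma socle {k n : ℕ} (hk : 1 ≤ k) (p : MvPolynomial (Fin (2 * k + 2)) ℚ)
    (hp : ∀ i, X i * p ∈ upIdeal ℚ (famSet (Fam k) n)) : p ∈ upIdeal ℚ (famSet (Fam k) n) := by
  apply socle_zero (isUpperSet_famSet _ _) _ p hp
  intro x hx
  obtain ⟨j, -, hj⟩ := cond2 hk x (v0 k) hx
  exact ⟨j, hj⟩

lemma two_mem {k n : ℕ} (hk : 1 ≤ k) (hn1 : 1 ≤ n) (hn : n < 2 ^ k) :
    2 ∈ lens k (upIdeal ℚ (famSet (Fam k) n)) := by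
  obtain ⟨f, hf, g, hg, h⟩ := exists_pair
    (MvPolynomial.X : Fin (2 * k + 2) → MvPolynomial (Fin (2 * k + 2)) ℚ)
    (upIdeal ℚ (famSet (Fam k) n)) (J_le hn1) (one_notMem k) (fun p hp => socle hk p hp)
    (fun c hc => koszul_one (isUpperSet_famSet _ _) (fun b c hc => cond1 hn b c hc)
      (fun x i _ hx => cond2 hk x i hx) c hc)
  exact ⟨[f, g], rfl, by simp [hf, hg], h⟩

lemma one_mem {k n : ℕ} (hk : 1 ≤ k) (hn1 : 1 ≤ n) :
    1 ∈ lens k (upIdeal ℚ (famSet (Fam k) n)) := by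
  obtain ⟨f, hf, hf2⟩ := exists_regular (Ideal.span (Set.range
    (MvPolynomial.X : Fin (2 * k + 2) → MvPolynomial (Fin (2 * k + 2)) ℚ)))
    (upIdeal ℚ (famSet (Fam k) n)) (fun p hp => socle hk p (fun i =>
      hp _ (Ideal.subset_span ⟨i, rfl⟩)))
  exact ⟨[f], rfl, by simp [hf], isRegular_single _ _ (J_le hn1) (one_notMem k) hf hf2⟩

lemma X_mul_X_mul {k : ℕ} (v w : Fin (2 * k + 2)) (hv : v ∈ CB k 0) (hw : w ∈ CA k 0) :
    (X v * X w * monomial (al k) 1 : MvPolynomial (Fin (2 * k + 2)) ℚ) ∈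
      upIdeal ℚ (famSet (Fam k) (2 ^ k)) := by
  rw [X, X, monomial_mul, monomial_mul, one_mul, one_mul]
  refine Ideal.subset_span ⟨_, ?_, rfl⟩
  have e : (Finsupp.single v 1 + Finsupp.single w 1 + al k : Fin (2 * k + 2) →₀ ℕ) =
      al k + Finsupp.single v 1 + Finsupp.single w 1 := by abel
  rw [e]
  have hpos : 1 ≤ 2 ^ k := Nat.one_le_two_pow
  have hmono : ∀ C : Finset (Fin (2 * k + 2)), ∑ i ∈ C, al k i ≤
      ∑ i ∈ C, (al k + Finsupp.single v 1 + Finsupp.single w 1 : Fin (2 * k + 2) →₀ ℕ) i := by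
    intro C
    refine Finset.sum_le_sum fun i _ => ?_
    rw [Finsupp.add_apply, Finsupp.add_apply]; omega
  rintro C ⟨i, hi, rfl | rfl⟩
  · by_cases h1 : 1 ≤ i
    · refine le_trans ?_ (hmono _)
      rw [al_CA hi, if_pos h1]
    · have : i = 0 := by omega
      subst this
      rw [sum_add_single' hw]
      have h2 : ∑ v ∈ CA k 0, al k v ≤
          ∑ i ∈ CA k 0, (al k + Finsupp.single v 1 : Fin (2 * k + 2) →₀ ℕ) i := by
        refine Finset.sum_le_sum fun i _ => ?_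
        rw [Finsupp.add_apply]; omega
      rw [al_CA (Nat.zero_le k), if_neg (by omega)] at h2
      omega
  · by_cases h1 : 1 ≤ i
    · refine le_trans ?_ (hmono _)
      rw [al_CB hi, if_pos h1]
    · have : i = 0 := by omega
      subst this
      have e2 : (al k + Finsupp.single v 1 + Finsupp.single w 1 : Fin (2 * k + 2) →₀ ℕ) =
        al k + Finsupp.single w 1 + Finsupp.single v 1 := by abel
      rw [e2, sum_add_single' hv]
      have h2 : ∑ v ∈ CB k 0, al k v ≤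
          ∑ i ∈ CB k 0, (al k + Finsupp.single w 1 : Fin (2 * k + 2) →₀ ℕ) i := by
        refine Finset.sum_le_sum fun i _ => ?_
        rw [Finsupp.add_apply]; omega
      rw [al_CB (Nat.zero_le k), if_neg (by omega)] at h2
      omega

lemma prod_mem {k : ℕ} (a b : MvPolynomial (Fin (2 * k + 2)) ℚ) (ha : a ∈ varIdeal ℚ (CB k 0))
    (hb : b ∈ varIdeal ℚ (CA k 0)) :
    a * b * monomial (al k) 1 ∈ upIdeal ℚ (famSet (Fam k) (2 ^ k)) := by
  unfold varIdeal at ha hb
  induction ha using Submodule.span_induction with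
  | mem x hx =>
    obtain ⟨v, hv, rfl⟩ := hx
    induction hb using Submodule.span_induction with
    | mem y hy =>
      obtain ⟨w, hw, rfl⟩ := hy
      exact X_mul_X_mul v w hv hw
    | zero => simp
    | add x y _ _ h1 h2 =>
      rw [mul_add, add_mul]
      exact Ideal.add_mem _ h1 h2
    | smul r x _ h1 =>
      have : (fun i => (X i : MvPolynomial (Fin (2 * k + 2)) ℚ)) v * r • x * monomial (al k) 1 =
        r * ((fun i => (X i : MvPolynomial (Fin (2 * k + 2)) ℚ)) v * x * monomial (al k) 1) := by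
        rw [smul_eq_mul]; ring
      rw [this]
      exact Ideal.mul_mem_left _ _ h1
  | zero => simp
  | add x y _ _ h1 h2 =>
    rw [add_mul, add_mul]
    exact Ideal.add_mem _ h1 h2
  | smul r x _ h1 =>
    have : r • x * b * monomial (al k) 1 = r * (x * b * monomial (al k) 1) := by
      rw [smul_eq_mul]; ring
    rw [this]
    exact Ideal.mul_mem_left _ _ h1

lemma no_two {k l : ℕ} (hl : 2 ≤ l) :
    l ∉ lens k (upIdeal ℚ (famSet (Fam k) (2 ^ k))) := by
  rintro ⟨rs, rfl, hrs, hreg⟩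
  have hpos : 1 ≤ 2 ^ k := Nat.one_le_two_pow
  refine no_pair (varIdeal ℚ (CB k 0)) (varIdeal ℚ (CA k 0)) _ (monomial (al k) 1)
    (fun a ha b hb => prod_mem a b ha hb) ?_ rs ?_ hl hreg
  · intro d h1 h2
    have h3 := h1 (X (v0 k)) (Ideal.subset_span ⟨v0 k, by simp [CB], rfl⟩)
    have h4 := h2 (X (v1 k)) (Ideal.subset_span ⟨v1 k, by simp [CA], rfl⟩)
    have e1 : Finsupp.single (v0 k) 1 + al k ∉ famSet (Fam k) (2 ^ k) := by
      intro h
      have := h (CA k 0) ⟨0, Nat.zero_le _, Or.inl rfl⟩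
      rw [add_comm (Finsupp.single (v0 k) 1) (al k), sum_add_single (v0_CA k 0), al_CA (Nat.zero_le _), if_neg (by omega)] at this
      omega
    have e2 : Finsupp.single (v1 k) 1 + al k ∉ famSet (Fam k) (2 ^ k) := by
      intro h
      have := h (CB k 0) ⟨0, Nat.zero_le _, Or.inr rfl⟩
      rw [add_comm (Finsupp.single (v1 k) 1) (al k), sum_add_single (v1_CB k 0), al_CB (Nat.zero_le _), if_neg (by omega)] at this
      omega
    have h5 := coeff_of_mem_upIdeal (isUpperSet_famSet _ _) h3 e1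
    have h6 := coeff_of_mem_upIdeal (isUpperSet_famSet _ _) h4 e2
    rw [coeff_X_mul] at h5 h6
    rw [coeff_sub, h6, coeff_monomial, if_pos rfl] at h5
    norm_num at h5
  · intro x hx
    have h1 := hrs x hx
    have h2 : Ideal.span (Set.range
      (MvPolynomial.X : Fin (2 * k + 2) → MvPolynomial (Fin (2 * k + 2)) ℚ)) ≤
        varIdeal ℚ (CB k 0) ⊔ varIdeal ℚ (CA k 0) := by
      rw [Ideal.span_le]
      rintro _ ⟨v, rfl⟩
      by_cases hv : v.val ≤ k
      · refine Ideal.mem_sup_left (Ideal.subset_span ⟨v, ?_, rfl⟩)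
        simp [CB, hv]
      · refine Ideal.mem_sup_right (Ideal.subset_span ⟨v, ?_, rfl⟩)
        simp [CA]; omega
    exact h2 h1

lemma sSup_crit {k : ℕ} (hk : 1 ≤ k) :
    sSup (lens k (upIdeal ℚ (famSet (Fam k) (2 ^ k)))) = 1 := by
  have h1 := one_mem (k := k) (n := 2 ^ k) hk Nat.one_le_two_pow
  have h2 : ∀ l ∈ lens k (upIdeal ℚ (famSet (Fam k) (2 ^ k))), l ≤ 1 := by
    intro l hl
    by_contra hcon
    exact no_two (by omega) hl
  apply le_antisymm
  · exact csSup_le ⟨1, h1⟩ h2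
  · exact le_csSup ⟨1, h2⟩ h1

lemma sSup_low {k n : ℕ} (hk : 1 ≤ k) (hn : n < 2 ^ k) :
    sSup (lens k (upIdeal ℚ (famSet (Fam k) n))) ≠ 1 := by
  by_cases hn1 : 1 ≤ n
  · intro h
    have h2 := two_mem hk hn1 hn
    by_cases hb : BddAbove (lens k (upIdeal ℚ (famSet (Fam k) n)))
    · have := le_csSup hb h2
      omega
    · rw [Nat.sSup_of_not_bddAbove hb] at h
      omega
  · have : n = 0 := by omega
    subst this
    have h1 : lens k (upIdeal ℚ (famSet (Fam k) 0)) = ∅ := by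
      rw [Set.eq_empty_iff_forall_notMem]
      rintro l ⟨rs, -, -, hreg⟩
      rw [isRegular_quot_iff] at hreg
      apply hreg.2
      apply Ideal.mem_sup_right
      exact Ideal.subset_span ⟨0, fun C _ => Nat.zero_le _, rfl⟩
    rw [h1]
    simp

lemma growth (c : ℕ) : ∃ k, 1 ≤ k ∧ c * ((2 * k + 2) + 1) < 2 ^ k := by
  refine ⟨2 * (4 * c + 1), by omega, ?_⟩
  have h1 : 4 * c + 1 < 2 ^ (4 * c + 1) := Nat.lt_two_pow_self
  have h2 : 2 ^ (2 * (4 * c + 1)) = 2 ^ (4 * c + 1) * 2 ^ (4 * c + 1) := by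
    rw [two_mul, pow_add]
  rw [h2]
  have h3 : (4 * c + 2) * (4 * c + 2) ≤ 2 ^ (4 * c + 1) * 2 ^ (4 * c + 1) :=
    Nat.mul_le_mul h1 h1
  nlinarith

end Pool.Agent.V117.ExpDstab
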