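import Mathlib
import Pool.Agent.V117.MonIdeal

/-! The least number of generators of a quotient of monomial ideals. -/

namespace Pool.Agent.V117

open MvPolynomial

set_option linter.unusedSectionVars false

variable {σ : Type} [Fintype σ] [DecidableEq σ] {K : Type} [Field K]

/-- lower bound for the number of generators of `N / M` -/
theorem card_le_gens {N M : Ideal (MvPolynomial σ K)} {P : Set (σ →₀ ℕ)} (hP : IsUpperSet P)
    (hI : N = upIdeal K P) (E : Finset (σ →₀ ℕ))
    (hE1 : ∀ e ∈ E, e ∈ P) (hE2 : ∀ e ∈ E, ∀ b ∈ P, b ≤ e → b = e)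
    (hE3 : ∀ e ∈ E, ∀ f ∈ M, coeff e f = 0)
    (T : Finset (N ⧸ M.submoduleOf N))
    (hT : Submodule.span (MvPolynomial σ K) (T : Set (N ⧸ M.submoduleOf N)) = ⊤) :
    E.card ≤ T.card := by
  classical
  have hsurj := Submodule.mkQ_surjective (M.submoduleOf N)
  choose rep hrep using hsurj
  let v : T → (E → K) := fun t e => coeff (e : σ →₀ ℕ) ((rep t.1 : N) : MvPolynomial σ K)
  have hco : ∀ (s : MvPolynomial σ K) (f : MvPolynomial σ K), f ∈ N → ∀ e ∈ E,
      coeff e (s * f) = coeff 0 s * coeff e f := by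
    intro s f hf e he
    rw [coeff_mul, Finset.sum_eq_single (0, e)]
    · rintro ⟨p, q⟩ hpq hne
      rw [Finset.HasAntidiagonal.mem_antidiagonal] at hpq
      simp only at hpq ⊢
      by_contra hcon
      have hq : q ∈ f.support := by
        rw [mem_support_iff]
        intro h; rw [h, mul_zero] at hcon; exact hcon rfl
      rw [hI, mem_upIdeal hP] at hf
      have hqe : q = e := hE2 e he q (hf q hq) (by rw [← hpq]; exact le_add_self)
      subst hqe
      have hp0 : p = 0 := by simpa using hpq
      subst hp0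
      exact hne rfl
    · intro h
      exfalso
      apply h
      rw [Finset.HasAntidiagonal.mem_antidiagonal]
      simp
  have hspan : Submodule.span K (Set.range v) = ⊤ := by
    rw [eq_top_iff]
    have hbasis : ∀ e : E, Pi.single e (1 : K) ∈ Submodule.span K (Set.range v) := by
      intro e
      have hmem : (monomial (e : σ →₀ ℕ) (1 : K)) ∈ N := by
        rw [hI]; exact Ideal.subset_span ⟨e, hE1 _ e.2, rfl⟩
      have h1 : (Submodule.mkQ (M.submoduleOf N)) ⟨_, hmem⟩ ∈
          Submodule.span (MvPolynomial σ K) (T : Set (N ⧸ M.submoduleOf N)) := by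
        rw [hT]; trivial
      rw [Submodule.mem_span_finset] at h1
      obtain ⟨s, -, hs⟩ := h1
      have h2 : (Submodule.mkQ (M.submoduleOf N))
          ((⟨_, hmem⟩ : N) - ∑ t ∈ T, s t • rep t) = 0 := by
        rw [map_sub, map_sum, ← hs, sub_eq_zero]
        refine Finset.sum_congr rfl fun t _ => ?_
        rw [map_smul, hrep]
      rw [Submodule.mkQ_apply, Submodule.Quotient.mk_eq_zero] at h2
      have h3 : (monomial (e : σ →₀ ℕ) (1 : K)) -
          ∑ t ∈ T, s t * ((rep t : N) : MvPolynomial σ K) ∈ M := by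
        have : (((⟨_, hmem⟩ : N) - ∑ t ∈ T, s t • rep t : N) : MvPolynomial σ K) ∈ M := h2
        simpa using this
      have h4 : Pi.single e (1 : K) = ∑ t ∈ T.attach, coeff 0 (s t.1) • v t := by
        funext e'
        have h5 := hE3 e' e'.2 _ h3
        rw [coeff_sub, sub_eq_zero, coeff_monomial, coeff_sum] at h5
        rw [Finset.sum_apply]
        simp only [Pi.smul_apply, smul_eq_mul, v]
        rw [Finset.sum_attach T (fun t => coeff 0 (s t) *
          coeff (e' : σ →₀ ℕ) ((rep t : N) : MvPolynomial σ K))]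
        rw [Finset.sum_congr rfl (fun t _ => hco (s t) _ (rep t).2 e' e'.2)] at h5
        rw [← h5, Pi.single_apply]
        by_cases h : e' = e
        · subst h; simp
        · have : (e : σ →₀ ℕ) ≠ e' := fun h' => h (Subtype.ext h'.symm)
          simp [h, this]
      rw [h4]
      exact Submodule.sum_mem _ fun t _ => Submodule.smul_mem _ _ (Submodule.subset_span ⟨t, rfl⟩)
    intro x _
    have hx : x = ∑ e : E, x e • Pi.single e (1 : K) := by
      funext e'
      rw [Finset.sum_apply, Finset.sum_eq_single e']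
      · simp
      · intro b _ hb
        simp [Ne.symm hb]
      · intro h; exact absurd (Finset.mem_univ _) h
    rw [hx]
    exact Submodule.sum_mem _ fun e _ => Submodule.smul_mem _ _ (hbasis e)
  have h1 := finrank_range_le_card (R := K) v
  rw [Set.finrank, hspan, finrank_top, Module.finrank_fintype_fun_eq_card] at h1
  simpa using h1

/-- upper bound for the number of generators of `N / M` -/
theorem gens_le {N M : Ideal (MvPolynomial σ K)} {P : Set (σ →₀ ℕ)}
    (hI : N = upIdeal K P) (E : Finset (σ →₀ ℕ))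
    (hE : ∀ x ∈ P, (∃ e ∈ E, e ∈ P ∧ e ≤ x) ∨ monomial x (1 : K) ∈ M) :
    ∃ T : Finset (N ⧸ M.submoduleOf N),
      T.card ≤ E.card ∧ Submodule.span (MvPolynomial σ K) (T : Set (N ⧸ M.submoduleOf N)) = ⊤ := by
  classical
  let E' := E.filter (fun e => e ∈ P)
  have hmem : ∀ e : E', (monomial (e : σ →₀ ℕ) (1 : K)) ∈ N := by
    intro e
    rw [hI]
    exact Ideal.subset_span ⟨e, (Finset.mem_filter.mp e.2).2, rfl⟩
  let mk := Submodule.mkQ (M.submoduleOf N)
  let T : Finset (N ⧸ M.submoduleOf N) :=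
    Finset.univ.image (fun e : E' => mk ⟨_, hmem e⟩)
  refine ⟨T, ?_, ?_⟩
  · refine Finset.card_image_le.trans ?_
    rw [Finset.card_univ, Fintype.card_coe]
    exact Finset.card_le_card (Finset.filter_subset _ _)
  · set L := Submodule.span (MvPolynomial σ K) (T : Set (N ⧸ M.submoduleOf N)) with hN
    have hle : (N : Submodule (MvPolynomial σ K) (MvPolynomial σ K)) ≤
        (L.comap mk).map N.subtype := by
      conv_lhs => rw [hI]
      unfold upIdeal
      refine Submodule.span_le.mpr ?_
      rintro _ ⟨x, hx, rfl⟩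
      rcases hE x hx with ⟨e, heE, heP, hex⟩ | hM
      · have he' : e ∈ E' := Finset.mem_filter.mpr ⟨heE, heP⟩
        have h1 : (monomial e (1 : K)) ∈ (L.comap mk).map N.subtype := by
          refine ⟨⟨_, hmem ⟨e, he'⟩⟩, ?_, rfl⟩
          show mk _ ∈ L
          apply Submodule.subset_span
          exact Finset.mem_coe.mpr (Finset.mem_image.mpr ⟨⟨e, he'⟩, Finset.mem_univ _, rfl⟩)
        have h2 : monomial x (1 : K) = monomial (x - e) (1 : K) • monomial e (1 : K) := by
          rw [smul_eq_mul, monomial_mul, mul_one, tsub_add_cancel_of_le hex]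
        show monomial x (1 : K) ∈ _
        rw [h2]
        exact Submodule.smul_mem _ _ h1
      · have hxN : monomial x (1 : K) ∈ N := by
          rw [hI]; exact Ideal.subset_span ⟨x, hx, rfl⟩
        refine ⟨(⟨monomial x (1 : K), hxN⟩ : N), ?_, rfl⟩
        have : mk (⟨monomial x (1 : K), hxN⟩ : N) = 0 := by
          show Submodule.mkQ (M.submoduleOf N) _ = 0
          rw [Submodule.mkQ_apply, Submodule.Quotient.mk_eq_zero]
          exact hM
        show mk _ ∈ L
        rw [this]
        exact L.zero_mem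
    rw [eq_top_iff]
    intro q _
    obtain ⟨f, rfl⟩ := Submodule.mkQ_surjective _ q
    obtain ⟨g, hg, hgf⟩ := hle f.2
    have : g = f := Subtype.ext hgf
    rw [← this]
    exact hg

/-- the least number of generators of `N / M` -/
noncomputable def mug (N M : Ideal (MvPolynomial σ K)) : ℕ :=
  sInf {r : ℕ | ∃ T : Finset (N ⧸ M.submoduleOf N), T.card = r ∧
    Submodule.span (MvPolynomial σ K) (T : Set (N ⧸ M.submoduleOf N)) = ⊤}

theorem mug_eq {N M : Ideal (MvPolynomial σ K)} {P : Set (σ →₀ ℕ)} (hP : IsUpperSet P)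
    (hI : N = upIdeal K P) (E : Finset (σ →₀ ℕ))
    (hE1 : ∀ e ∈ E, e ∈ P) (hE2 : ∀ e ∈ E, ∀ b ∈ P, b ≤ e → b = e)
    (hE3 : ∀ e ∈ E, ∀ f ∈ M, coeff e f = 0)
    (hE4 : ∀ x ∈ P, (∃ e ∈ E, e ≤ x) ∨ monomial x (1 : K) ∈ M) : mug N M = E.card := by
  have hne : {r : ℕ | ∃ T : Finset (N ⧸ M.submoduleOf N), T.card = r ∧
    Submodule.span (MvPolynomial σ K) (T : Set (N ⧸ M.submoduleOf N)) = ⊤}.Nonempty := by
    obtain ⟨T, -, hT⟩ := gens_le (M := M) hI E (fun x hx => by
      rcases hE4 x hx with ⟨e, he, hex⟩ | h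
      · exact Or.inl ⟨e, he, hE1 e he, hex⟩
      · exact Or.inr h)
    exact ⟨T.card, T, rfl, hT⟩
  apply le_antisymm
  · obtain ⟨T, hTc, hT⟩ := gens_le (M := M) hI E (fun x hx => by
      rcases hE4 x hx with ⟨e, he, hex⟩ | h
      · exact Or.inl ⟨e, he, hE1 e he, hex⟩
      · exact Or.inr h)
    refine le_trans ?_ hTc
    unfold mug
    exact Nat.sInf_le ⟨T, rfl, hT⟩
  · obtain ⟨T, hT, hspan⟩ := Nat.sInf_mem hne
    have := card_le_gens hP hI E hE1 hE2 hE3 T hspan
    unfold mug
    rw [← hT]
    exact this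

end Pool.Agent.V117
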