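import Mathlib

/-!
# Green mutations of quivers: forks and an invariant

Quivers are encoded by skew-symmetric integer matrices.
-/

namespace Pool.Agent.V117.MGS

set_option linter.unusedSectionVars false
variable {V : Type} [DecidableEq V]

/-- Mutation of a quiver at `k`. -/
def qmut (k : V) (b : V → V → ℤ) : V → V → ℤ := fun i j =>
  if i = k ∨ j = k then - b i j
  else b i j + max (b i k) 0 * max (b k j) 0 - max (b j k) 0 * max (b k i) 0

/-- Mutation of the arrows to frozen vertices. -/
def mutC (k : V) (b c : V → V → ℤ) : V → V → ℤ := fun i j =>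
  if i = k then - c i j
  else c i j + max (b i k) 0 * max (c k j) 0 - max (- c k j) 0 * max (b k i) 0

/-- Skew-symmetric. -/
def Skew (b : V → V → ℤ) : Prop := ∀ i j, b i j = - b j i

/-- Abundant. -/
def Ab (b : V → V → ℤ) : Prop := ∀ i j, i ≠ j → 2 ≤ b i j ∨ 2 ≤ b j i

theorem mut_skew {b : V → V → ℤ} (h : Skew b) (k : V) : Skew (qmut k b) := by
  intro i j
  unfold qmut
  by_cases hi : i = k <;> by_cases hj : j = k <;> simp only [hi, hj, true_or, or_true, if_true, or_self, if_false]
  · rw [h k k]; 
    have := h k k
    omega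
  · rw [h k j]
  · rw [h i k]
  · rw [h i j]
    ring

theorem mut_mut {b : V → V → ℤ} (h : Skew b) (k : V) : qmut k (qmut k b) = b := by
  funext i j
  by_cases hi : i = k
  · simp [qmut, hi]
  by_cases hj : j = k
  · simp [qmut, hj]
  have e1 : - b i k = b k i := by rw [h i k]; ring
  have e2 : - b k j = b j k := by rw [h k j]; ring
  have e3 : - b j k = b k j := by rw [h j k]; ring
  have e4 : - b k i = b i k := by rw [h k i]; ring
  simp only [qmut, hi, hj, or_self, if_false, if_true, true_or, or_true, e1, e2, e3, e4]
  ring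

theorem mut_row {b : V → V → ℤ} (k j : V) : qmut k b k j = - b k j := by
  simp [qmut]

theorem mut_col {b : V → V → ℤ} (k i : V) : qmut k b i k = - b i k := by
  simp [qmut]

/-- No path `i → k → j` and no path `j → k → i`. -/
theorem mut_same {b : V → V → ℤ} {k i j : V} (hi : i ≠ k) (hj : j ≠ k)
    (h1 : b i k ≤ 0 ∨ b k j ≤ 0) (h2 : b j k ≤ 0 ∨ b k i ≤ 0) : qmut k b i j = b i j := by
  simp only [qmut, hi, hj, or_self, if_false]
  have e1 : max (b i k) 0 * max (b k j) 0 = 0 := by
    rcases h1 with h | h
    · rw [max_eq_right h, zero_mul]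
    · rw [max_eq_right h, mul_zero]
  have e2 : max (b j k) 0 * max (b k i) 0 = 0 := by
    rcases h2 with h | h
    · rw [max_eq_right h, zero_mul]
    · rw [max_eq_right h, mul_zero]
  rw [e1, e2]; ring

/-- A path `i → k → j`. -/
theorem mut_path {b : V → V → ℤ} (h : Skew b) {k i j : V}
    (h1 : 0 < b i k) (h2 : 0 < b k j) : qmut k b i j = b i j + b i k * b k j := by
  have hi : i ≠ k := by
    rintro rfl
    have := h i i
    omega
  have hj : j ≠ k := by
    rintro rfl
    have := h j j
    omega
  simp only [qmut, hi, hj, or_self, if_false]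
  have e3 : b j k ≤ 0 := by rw [h j k]; omega
  rw [max_eq_left h1.le, max_eq_left h2.le, max_eq_right e3]; ring

/-- Forks (Warkentin) with point of return `k`. -/
def Fork (b : V → V → ℤ) (k : V) : Prop :=
  Skew b ∧ Ab b ∧
  (∀ i j, 0 < b i k → 0 < b k j → b i k < b j i ∧ b k j < b j i) ∧
  (∀ x y z, 0 < b k x → 0 < b k y → 0 < b k z → 0 < b x y → 0 < b y z → ¬ 0 < b z x) ∧
  (∀ x y z, 0 < b x k → 0 < b y k → 0 < b z k → 0 < b x y → 0 < b y z → ¬ 0 < b z x) ∧
  (∃ i, 0 < b i k) ∧ (∃ j, 0 < b k j)

theorem pos_or {b : V → V → ℤ} (ha : Ab b) {i j : V} (h : i ≠ j) : 0 < b i j ∨ 0 < b j i := by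
  rcases ha i j h with h | h
  · left; omega
  · right; omega

theorem two_le {b : V → V → ℤ} (hs : Skew b) (ha : Ab b) {i j : V} (h : 0 < b i j) :
    2 ≤ b i j := by
  have hne : i ≠ j := by
    rintro rfl
    have := hs i i
    omega
  rcases ha i j hne with h' | h'
  · exact h'
  · have := hs i j
    omega

/-- Every 3-cycle of a fork contains the point of return. -/
theorem Fork.cyc {b : V → V → ℤ} {k : V} (hf : Fork b k) {x y z : V}
    (h1 : 0 < b x y) (h2 : 0 < b y z) (h3 : 0 < b z x) : x = k ∨ y = k ∨ z = k := by
  obtain ⟨hs, ha, hc, hO, hI, -, -⟩ := hf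
  by_contra hcon
  push Not at hcon
  obtain ⟨hx, hy, hz⟩ := hcon
  have key : ∀ i j, 0 < b i k → 0 < b k j → ¬ 0 < b i j := by
    intro i j hi hj hij
    have := (hc i j hi hj).1
    have := hs i j
    omega
  rcases pos_or ha hx with hx' | hx' <;> rcases pos_or ha hy with hy' | hy' <;>
    rcases pos_or ha hz with hz' | hz'
  · exact hI x y z hx' hy' hz' h1 h2 h3
  · exact key y z hy' hz' h2
  · exact key x y hx' hy' h1
  · exact key x y hx' hy' h1
  · exact key z x hz' hx' h3
  · exact key y z hy' hz' h2
  · exact key z x hz' hx' h3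
  · exact hO x y z hx' hy' hz' h1 h2 h3

/-- Mutation of a fork away from the point of return. -/
theorem Fork.flip {b : V → V → ℤ} {k l : V} (hf : Fork b k) (hl : l ≠ k) {x u : V}
    (h1 : 0 < b x l) (h2 : 0 < b l u) :
    b x l < qmut l b x u ∧ b l u < qmut l b x u := by
  have hf' := hf
  obtain ⟨hs, ha, hc, hO, hI, -, -⟩ := hf'
  rw [mut_path hs h1 h2]
  have g1 := two_le hs ha h1
  have g2 := two_le hs ha h2
  have hxu : x ≠ u := by
    rintro rfl
    have := hs x l
    omega
  rcases pos_or ha hxu with h3 | h3
  · constructor <;> nlinarith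
  · have h3' : b x u = - b u x := hs x u
    rw [h3']
    rcases hf.cyc h1 h2 h3 with rfl | rfl | rfl
    · obtain ⟨p, q⟩ := hc u l h3 h1
      constructor <;> nlinarith
    · exact absurd rfl hl
    · obtain ⟨p, q⟩ := hc l x h2 h3
      constructor <;> nlinarith

theorem Fork.qmut {b : V → V → ℤ} {k l : V} (hf : Fork b k) (hl : l ≠ k) : Fork (qmut l b) l := by
  have hf' := hf
  obtain ⟨hs, ha, hc, hO, hI, hin, hout⟩ := hf'
  have hs' := mut_skew hs l
  have neg : ∀ {i j}, 0 < b i j → b j i ≤ 0 := by
    intro i j h
    have := hs i j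
    omega
  refine ⟨hs', ?_, ?_, ?_, ?_, ?_, ?_⟩
  · intro i j hij
    by_cases hi : i = l
    · subst hi
      rw [mut_row, mut_col]
      rcases ha i j hij with h | h
      · right
        have := hs i j
        omega
      · left
        have := hs i j
        omega
    by_cases hj : j = l
    · subst hj
      rw [mut_row, mut_col]
      rcases ha i j hij with h | h
      · right
        have := hs i j
        omega
      · left
        have := hs i j
        omega
    rcases pos_or ha hi with h1 | h1 <;> rcases pos_or ha hj with h2 | h2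
    · rw [mut_same hi hj (Or.inr (neg h2)) (Or.inr (neg h1)),
        mut_same hj hi (Or.inr (neg h1)) (Or.inr (neg h2))]
      exact ha i j hij
    · left
      have := (hf.flip hl h1 h2).1
      have := two_le hs ha h1
      omega
    · right
      have := (hf.flip hl h2 h1).1
      have := two_le hs ha h2
      omega
    · rw [mut_same hi hj (Or.inl (neg h1)) (Or.inl (neg h2)),
        mut_same hj hi (Or.inl (neg h2)) (Or.inl (neg h1))]
      exact ha i j hij
  · intro i j h1 h2
    rw [mut_col] at h1 ⊢
    rw [mut_row] at h2 ⊢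
    have h1' : 0 < b l i := by have := hs i l; omega
    have h2' : 0 < b j l := by have := hs j l; omega
    obtain ⟨p, q⟩ := hf.flip hl h2' h1'
    have e1 := hs i l
    have e2 := hs j l
    omega
  · intro x y z hx hy hz h1 h2 h3
    rw [mut_row] at hx hy hz
    have hx' : 0 < b x l := by have := hs x l; omega
    have hy' : 0 < b y l := by have := hs y l; omega
    have hz' : 0 < b z l := by have := hs z l; omega
    have nx : x ≠ l := by rintro rfl; have := hs x x; omega
    have ny : y ≠ l := by rintro rfl; have := hs y y; omega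
    have nz : z ≠ l := by rintro rfl; have := hs z z; omega
    rw [mut_same nx ny (Or.inr (neg hy')) (Or.inr (neg hx'))] at h1
    rw [mut_same ny nz (Or.inr (neg hz')) (Or.inr (neg hy'))] at h2
    rw [mut_same nz nx (Or.inr (neg hx')) (Or.inr (neg hz'))] at h3
    rcases hf.cyc h1 h2 h3 with rfl | rfl | rfl
    · have := (hc z l h3 hx').1
      have := neg hz'
      omega
    · have := (hc x l h1 hy').1
      have := neg hx'
      omega
    · have := (hc y l h2 hz').1
      have := neg hy'
      omega
  · intro x y z hx hy hz h1 h2 h3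
    rw [mut_col] at hx hy hz
    have hx' : 0 < b l x := by have := hs x l; omega
    have hy' : 0 < b l y := by have := hs y l; omega
    have hz' : 0 < b l z := by have := hs z l; omega
    have nx : x ≠ l := by rintro rfl; have := hs x x; omega
    have ny : y ≠ l := by rintro rfl; have := hs y y; omega
    have nz : z ≠ l := by rintro rfl; have := hs z z; omega
    rw [mut_same nx ny (Or.inl (neg hx')) (Or.inl (neg hy'))] at h1
    rw [mut_same ny nz (Or.inl (neg hy')) (Or.inl (neg hz'))] at h2
    rw [mut_same nz nx (Or.inl (neg hz')) (Or.inl (neg hx'))] at h3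
    rcases hf.cyc h1 h2 h3 with rfl | rfl | rfl
    · have := (hc l y hx' h1).1
      have := neg hy'
      omega
    · have := (hc l z hy' h2).1
      have := neg hz'
      omega
    · have := (hc l x hz' h3).1
      have := neg hx'
      omega
  · rcases pos_or ha hl with h | h
    · refine ⟨k, ?_⟩
      rw [mut_col]
      have := hs k l
      omega
    · obtain ⟨i, hi⟩ := hin
      refine ⟨i, ?_⟩
      rw [mut_col]
      have := (hc i l hi h).1
      have := hs i l
      omega
  · rcases pos_or ha hl with h | h
    · obtain ⟨j, hj⟩ := hout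
      refine ⟨j, ?_⟩
      rw [mut_row]
      have := (hc l j h hj).1
      have := hs l j
      omega
    · refine ⟨k, ?_⟩
      rw [mut_row]
      have := hs k l
      omega

end Pool.Agent.V117.MGS
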