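import Pool.Agent.V117.MGSa

/-!
# The invariants of green walks
-/

namespace Pool.Agent.V117.MGS

set_option linter.unusedSectionVars false
variable {V : Type} [DecidableEq V]

/-- nonnegative and nonzero row -/
def Pos (c : V → V → ℤ) (i : V) : Prop := (∀ j, 0 ≤ c i j) ∧ ∃ j, 0 < c i j

/-- nonpositive and nonzero row -/
def Neg (c : V → V → ℤ) (i : V) : Prop := (∀ j, c i j ≤ 0) ∧ ∃ j, c i j < 0

theorem not_pos_neg {c : V → V → ℤ} {i : V} (h : Pos c i) (h' : Neg c i) : False := by
  obtain ⟨j, hj⟩ := h.2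
  have := h'.1 j
  omega

/-- First invariant. -/
def Inv1 (b c : V → V → ℤ) : Prop := (∀ i, Pos c i ∨ Neg c i) ∧
  ∀ u x, Neg c u → Pos c x → 0 < b u x → ∀ j, 0 ≤ c x j + c u j

/-- Second invariant. -/
def Inv2 (b c : V → V → ℤ) : Prop :=
  ∀ r u x, Pos c r → Neg c u → Neg c x → 0 < b u x → 0 < b x r → 0 < b r u →
    ∀ j, 0 ≤ c r j + c u j

theorem mutC_self {b c : V → V → ℤ} (l j : V) : mutC l b c l j = - c l j := by
  simp [mutC]

theorem mutC_in {b c : V → V → ℤ} (hs : Skew b) {l : V} (hl : Pos c l) {i : V}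
    (h : 0 < b i l) (j : V) : mutC l b c i j = c i j + b i l * c l j := by
  have hi : i ≠ l := by rintro rfl; have := hs i i; omega
  simp only [mutC, hi, if_false]
  have h1 := hl.1 j
  have h2 : - c l j ≤ 0 := by omega
  rw [max_eq_left h.le, max_eq_left h1, max_eq_right h2]
  ring

theorem mutC_out {b c : V → V → ℤ} {l : V} (hl : Pos c l) {i : V} (hi : i ≠ l)
    (h : b i l ≤ 0) (j : V) : mutC l b c i j = c i j := by
  simp only [mutC, hi, if_false]
  have h1 := hl.1 j
  have h2 : - c l j ≤ 0 := by omega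
  rw [max_eq_right h, max_eq_right h2]
  ring

theorem Pos.congr {c d : V → V → ℤ} {i : V} (h : Pos c i) (e : ∀ j, d i j = c i j) :
    Pos d i := by
  refine ⟨fun j => by rw [e]; exact h.1 j, ?_⟩
  obtain ⟨j, hj⟩ := h.2
  exact ⟨j, by rw [e]; exact hj⟩

theorem Neg.congr {c d : V → V → ℤ} {i : V} (h : Neg c i) (e : ∀ j, d i j = c i j) :
    Neg d i := by
  refine ⟨fun j => by rw [e]; exact h.1 j, ?_⟩
  obtain ⟨j, hj⟩ := h.2
  exact ⟨j, by rw [e]; exact hj⟩

theorem neg_self {b c : V → V → ℤ} {l : V} (hl : Pos c l) : Neg (mutC l b c) l := by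
  refine ⟨fun j => by rw [mutC_self]; have := hl.1 j; omega, ?_⟩
  obtain ⟨j, hj⟩ := hl.2
  exact ⟨j, by rw [mutC_self]; omega⟩

/-- An in-neighbour of a green vertex dominates it after the mutation. -/
theorem in_ge {b c : V → V → ℤ} (hs : Skew b) (ha : Ab b) (h1 : Inv1 b c) {l : V}
    (hl : Pos c l) {x : V} (hx : 0 < b x l) (j : V) : c l j ≤ mutC l b c x j := by
  rw [mutC_in hs hl hx]
  have h2 := two_le hs ha hx
  have h3 := hl.1 j
  rcases h1.1 x with h | h
  · have := h.1 j
    nlinarith
  · have := h1.2 x l h hl hx j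
    nlinarith

theorem in_ge' {b c : V → V → ℤ} (hs : Skew b) {l : V}
    (hl : Pos c l) {x : V} (hx : 0 < b x l) (j : V) : c x j ≤ mutC l b c x j := by
  rw [mutC_in hs hl hx]
  have h3 := hl.1 j
  nlinarith

theorem in_pos {b c : V → V → ℤ} (hs : Skew b) (ha : Ab b) (h1 : Inv1 b c) {l : V}
    (hl : Pos c l) {x : V} (hx : 0 < b x l) : Pos (mutC l b c) x := by
  refine ⟨fun j => (hl.1 j).trans (in_ge hs ha h1 hl hx j), ?_⟩
  obtain ⟨j, hj⟩ := hl.2
  exact ⟨j, lt_of_lt_of_le hj (in_ge hs ha h1 hl hx j)⟩

/-- A vertex which is red after the mutation at `l` and different from `l`. -/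
theorem red_out {b c : V → V → ℤ} (hs : Skew b) (ha : Ab b) (h1 : Inv1 b c) {l : V}
    (hl : Pos c l) {u : V} (hu : u ≠ l) (hn : Neg (mutC l b c) u) :
    Neg c u ∧ 0 < b l u ∧ ∀ j, mutC l b c u j = c u j := by
  rcases pos_or ha hu with h | h
  · exact (not_pos_neg (in_pos hs ha h1 hl h) hn).elim
  · have h' : b u l ≤ 0 := by have := hs u l; omega
    have e := fun j => mutC_out (b := b) hl hu h' j
    exact ⟨hn.congr fun j => (e j).symm, h, e⟩

/-- The general step. -/
theorem step1 {b c : V → V → ℤ} (hs : Skew b) (ha : Ab b) (h1 : Inv1 b c) {l : V}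
    (hl : Pos c l)
    (H : ∀ u x, Neg c u → Neg c x → 0 < b l u → 0 < b x l → 0 < qmut l b u x →
      ∀ j, 0 ≤ c l j + c u j) : Inv1 (qmut l b) (mutC l b c) := by
  refine ⟨?_, ?_⟩
  · intro i
    by_cases hi : i = l
    · subst hi
      exact Or.inr (neg_self hl)
    rcases pos_or ha hi with h | h
    · exact Or.inl (in_pos hs ha h1 hl h)
    · have h' : b i l ≤ 0 := by have := hs i l; omega
      have e := fun j => mutC_out (b := b) hl hi h' j
      rcases h1.1 i with g | g
      · exact Or.inl (g.congr e)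
      · exact Or.inr (g.congr e)
  · intro u x hu hx hux j
    by_cases hul : u = l
    · subst hul
      rw [mut_row] at hux
      have hx' : 0 < b x u := by have := hs x u; omega
      have := in_ge hs ha h1 hl hx' j
      rw [mutC_self]
      omega
    · obtain ⟨hu', hlu, eu⟩ := red_out hs ha h1 hl hul hu
      have hxl : x ≠ l := by
        rintro rfl
        exact not_pos_neg hx (neg_self hl)
      rw [eu j]
      rcases pos_or ha hxl with hx1 | hx1
      · -- in-neighbour
        rcases h1.1 x with g | g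
        · have hb : 0 < b u x := by
            have e := mut_skew hs l u x
            rw [mut_path hs hx1 hlu] at e
            have e2 := hs u x
            nlinarith [two_le hs ha hx1, two_le hs ha hlu]
          have h5 := h1.2 u x hu' g hb j
          have h6 := in_ge' hs hl hx1 j
          omega
        · have h5 := H u x hu' g hlu hx1 hux j
          have h6 := in_ge hs ha h1 hl hx1 j
          omega
      · have h2 : b x l ≤ 0 := by have := hs x l; omega
        have h3 : b u l ≤ 0 := by have := hs u l; omega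
        have ex := fun j => mutC_out (b := b) hl hxl h2 j
        rw [ex j]
        have hx' : Pos c x := hx.congr fun j => (ex j).symm
        rw [mut_same hul hxl (Or.inl h3) (Or.inl h2)] at hux
        exact h1.2 u x hu' hx' hux j

/-- Step using the second invariant. -/
theorem step1_inv2 {b c : V → V → ℤ} (hs : Skew b) (ha : Ab b) (h1 : Inv1 b c)
    (h2 : Inv2 b c) {l : V} (hl : Pos c l) : Inv1 (qmut l b) (mutC l b c) := by
  refine step1 hs ha h1 hl ?_
  intro u x hu hx hlu hxl hux j
  have hb : 0 < b u x := by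
    have e := mut_skew hs l u x
    rw [mut_path hs hxl hlu] at e
    have e2 := hs u x
    nlinarith [two_le hs ha hxl, two_le hs ha hlu]
  exact h2 l u x hl hu hx hb hxl hlu j

/-- Step when the mutated quiver is a fork with point of return the mutated vertex. -/
theorem step1_fork {b c : V → V → ℤ} (hs : Skew b) (ha : Ab b) (h1 : Inv1 b c)
    {l : V} (hl : Pos c l) (hf : Fork (qmut l b) l) : Inv1 (qmut l b) (mutC l b c) := by
  refine step1 hs ha h1 hl ?_
  intro u x hu hx hlu hxl hux j
  exfalso
  obtain ⟨hs', ha', hc, -⟩ := hf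
  have h3 : 0 < qmut l b u l := by rw [mut_col]; have := hs u l; omega
  have h4 : 0 < qmut l b l x := by rw [mut_row]; have := hs x l; omega
  have := (hc u x h3 h4).1
  have := hs' u x
  omega

theorem step1_src {b c : V → V → ℤ} (hs : Skew b) (ha : Ab b) (h1 : Inv1 b c)
    {l : V} (hl : Pos c l) (h : ∀ x, b x l ≤ 0) : Inv1 (qmut l b) (mutC l b c) := by
  refine step1 hs ha h1 hl ?_
  intro u x hu hx hlu hxl hux j
  have := h x
  omega

theorem step1_snk {b c : V → V → ℤ} (hs : Skew b) (ha : Ab b) (h1 : Inv1 b c)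
    {l : V} (hl : Pos c l) (h : ∀ x, b l x ≤ 0) : Inv1 (qmut l b) (mutC l b c) := by
  refine step1 hs ha h1 hl ?_
  intro u x hu hx hlu hxl hux j
  have := h u
  omega

/-- The second invariant under mutation at the point of return. -/
theorem step2_fork {b c : V → V → ℤ} {l : V} (hf : Fork b l) (h1 : Inv1 b c)
    (h2 : Inv2 b c) (hl : Pos c l) : Inv2 (qmut l b) (mutC l b c) := by
  obtain ⟨hs, ha, hc, hO, -, -, -⟩ := hf
  intro r u x hr hu hx hux hxr hru j
  have hrl : r ≠ l := by
    rintro rfl
    exact not_pos_neg hr (neg_self hl)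
  -- main case
  have main : 0 < b r l → Neg c u → 0 < b l u → (∀ j, mutC l b c u j = c u j) →
      0 ≤ mutC l b c r j + mutC l b c u j := by
    intro hrl' hu' hlu eu
    rw [eu j]
    have hur := (hc r u hrl' hlu).1
    have hur' : 0 < b u r := by omega
    rcases h1.1 r with g | g
    · have := h1.2 u r hu' g hur' j
      have := in_ge' hs hl hrl' j
      omega
    · have := h2 l u r hl hu' g hur' hrl' hlu j
      have := in_ge hs ha h1 hl hrl' j
      omega
  by_cases hul : u = l
  · subst hul
    rw [mut_row] at hux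
    have hx' : 0 < b x u := by have := hs x u; omega
    exact (not_pos_neg (in_pos hs ha h1 hl hx') hx).elim
  obtain ⟨hu', hlu, eu⟩ := red_out hs ha h1 hl hul hu
  by_cases hxl : x = l
  · subst hxl
    rw [mut_row] at hxr
    have hr' : 0 < b r x := by have := hs r x; omega
    exact main hr' hu' hlu eu
  obtain ⟨hx', hlx, ex⟩ := red_out hs ha h1 hl hxl hx
  rcases pos_or ha hrl with hr' | hr'
  · exact main hr' hu' hlu eu
  · exfalso
    have g1 : b u l ≤ 0 := by have := hs u l; omega
    have g2 : b x l ≤ 0 := by have := hs x l; omega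
    have g3 : b r l ≤ 0 := by have := hs r l; omega
    rw [mut_same hul hxl (Or.inl g1) (Or.inl g2)] at hux
    rw [mut_same hxl hrl (Or.inl g2) (Or.inl g3)] at hxr
    rw [mut_same hrl hul (Or.inl g3) (Or.inl g1)] at hru
    exact hO u x r hlu hlx hr' hux hxr hru

/-- The second invariant under mutation at a source. -/
theorem step2_src {b c : V → V → ℤ} {l : V} (hs : Skew b) (h2 : Inv2 b c)
    (hl : Pos c l) (h : ∀ x, b x l ≤ 0) : Inv2 (qmut l b) (mutC l b c) := by
  intro r u x hr hu hx hux hxr hru j
  have key : ∀ y z, 0 < qmut l b y z → y ≠ l := by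
    rintro y z hyz rfl
    rw [mut_row] at hyz
    have := h z
    have := hs y z
    omega
  have nu := key u x hux
  have nx := key x r hxr
  have nr := key r u hru
  rw [mut_same nu nx (Or.inl (h u)) (Or.inl (h x))] at hux
  rw [mut_same nx nr (Or.inl (h x)) (Or.inl (h r))] at hxr
  rw [mut_same nr nu (Or.inl (h r)) (Or.inl (h u))] at hru
  have er := fun j => mutC_out (b := b) hl nr (h r) j
  have eu := fun j => mutC_out (b := b) hl nu (h u) j
  have ex := fun j => mutC_out (b := b) hl nx (h x) j
  rw [er j, eu j]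
  exact h2 r u x (hr.congr fun j => (er j).symm) (hu.congr fun j => (eu j).symm)
    (hx.congr fun j => (ex j).symm) hux hxr hru j

/-- The second invariant under mutation at a sink. -/
theorem step2_snk {b c : V → V → ℤ} {l : V} (hs : Skew b) (ha : Ab b) (h1 : Inv1 b c)
    (hl : Pos c l) (h : ∀ x, b l x ≤ 0) : Inv2 (qmut l b) (mutC l b c) := by
  intro r u x hr hu hx hux hxr hru j
  exfalso
  have key : ∀ y, Neg (mutC l b c) y → y = l := by
    intro y hy
    by_contra hne
    have := (red_out hs ha h1 hl hne hy).2.1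
    have := h y
    omega
  have e1 := key u hu
  have e2 := key x hx
  subst e1
  subst e2
  rw [mut_row] at hux
  have := hs x x
  omega

end Pool.Agent.V117.MGS
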