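import Pool.Agent.V117.MGSb

/-!
# Trees of forks over a core, and the absence of maximal green sequences
-/

namespace Pool.Agent.V117.MGS

set_option linter.unusedSectionVars false
variable {V : Type} [DecidableEq V]

/-- Maximal green sequences in terms of the pair (quiver, frozen part). -/
def CSeq : (V → V → ℤ) → (V → V → ℤ) → List V → Prop
  | _, c, [] => ∀ k, ¬ (∀ j, 0 ≤ c k j)
  | b, c, k :: l => (∀ j, 0 ≤ c k j) ∧ CSeq (qmut k b) (mutC k b c) l

/-- Forks grown on a core `K`. -/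
inductive Tree (K : (V → V → ℤ) → Prop) : (V → V → ℤ) → V → Prop
  | base (b : V → V → ℤ) (l : V) : K b → Fork (qmut l b) l → Tree K (qmut l b) l
  | step (b : V → V → ℤ) (k l : V) : Tree K b k → l ≠ k → Tree K (qmut l b) l

theorem Tree.fork {K : (V → V → ℤ) → Prop} {b : V → V → ℤ} {k : V} (h : Tree K b k) :
    Fork b k := by
  induction h with
  | base b l _ hf => exact hf
  | step b k l _ hl ih => exact ih.qmut hl

theorem Tree.back {K : (V → V → ℤ) → Prop} (hK : ∀ b, K b → Skew b) {b : V → V → ℤ} {k : V}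
    (h : Tree K b k) : K (qmut k b) ∨ ∃ k', Tree K (qmut k b) k' := by
  cases h with
  | base b0 l hb hf =>
    left
    rw [mut_mut (hK b0 hb)]
    exact hb
  | step b0 k0 l h0 hl =>
    right
    rw [mut_mut h0.fork.1]
    exact ⟨k0, h0⟩

/-- Being in the core or in one of the trees is closed under mutation. -/
theorem cls_mut {K : (V → V → ℤ) → Prop} (hK : ∀ b, K b → Skew b)
    (hK2 : ∀ b, K b → ∀ l, K (qmut l b) ∨ Fork (qmut l b) l) {b : V → V → ℤ}
    (h : K b ∨ ∃ k, Tree K b k) (l : V) :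
    K (qmut l b) ∨ ∃ k, Tree K (qmut l b) k := by
  rcases h with h | ⟨k, h⟩
  · rcases hK2 b h l with h' | h'
    · exact Or.inl h'
    · exact Or.inr ⟨l, Tree.base b l h h'⟩
  · by_cases hl : l = k
    · subst hl
      exact h.back hK
    · exact Or.inr ⟨l, Tree.step b k l h hl⟩

/-- The states of a green walk. -/
def State (K : (V → V → ℤ) → Prop) (S : (V → V → ℤ) → (V → V → ℤ) → Prop)
    (b c : V → V → ℤ) : Prop :=
  (K b ∧ S b c) ∨ (∃ k, Tree K b k ∧ Inv1 b c ∧ Inv2 b c ∧ ∃ x, Pos c x) ∨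
    (∃ k, Fork b k ∧ Inv1 b c ∧ Neg c k ∧ ∃ x, Pos c x)

theorem pos_of_green {c : V → V → ℤ} {k : V} (h : Pos c k ∨ Neg c k)
    (hg : ∀ j, 0 ≤ c k j) : Pos c k := by
  rcases h with h | h
  · exact h
  · obtain ⟨j, hj⟩ := h.2
    have := hg j
    omega

section machine

variable {K : (V → V → ℤ) → Prop} {S : (V → V → ℤ) → (V → V → ℤ) → Prop}

/-- entering the outer region -/
theorem out_state {b c : V → V → ℤ} (hs : Skew b) (ha : Ab b) (h1 : Inv1 b c) {l : V}
    (hl : Pos c l) (hf : Fork (qmut l b) l) : State K S (qmut l b) (mutC l b c) := by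
  right; right
  refine ⟨l, hf, step1_fork hs ha h1 hl hf, neg_self hl, ?_⟩
  obtain ⟨j, hj⟩ := hf.2.2.2.2.2.2
  refine ⟨j, in_pos hs ha h1 hl ?_⟩
  rw [mut_row] at hj
  have := hs l j
  omega

theorem state_step (hK : ∀ b, K b → Skew b ∧ Ab b)
    (hK2 : ∀ b, K b → ∀ l, K (qmut l b) ∨ Fork (qmut l b) l)
    (hS : ∀ b c, K b → S b c → Inv1 b c ∧ ∃ x, Pos c x)
    (hin : ∀ b k c, Fork b k → K (qmut k b) → Inv1 b c → Inv2 b c → Pos c k →
      S (qmut k b) (mutC k b c))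
    (hstep : ∀ b c l, K b → S b c → Pos c l → K (qmut l b) → S (qmut l b) (mutC l b c))
    {b c : V → V → ℤ} (h : State K S b c) {l : V} (hg : ∀ j, 0 ≤ c l j) :
    State K S (qmut l b) (mutC l b c) := by
  rcases h with ⟨hb, hs⟩ | ⟨k, ht, h1, h2, -⟩ | ⟨k, hf, h1, hn, -⟩
  · have h1 := (hS b c hb hs).1
    have hl := pos_of_green (h1.1 l) hg
    rcases hK2 b hb l with h' | h'
    · exact Or.inl ⟨h', hstep b c l hb hs hl h'⟩
    · exact out_state (hK b hb).1 (hK b hb).2 h1 hl h'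
  · have hl := pos_of_green (h1.1 l) hg
    have hf := ht.fork
    by_cases hlk : l = k
    · subst hlk
      rcases ht.back (fun b hb => (hK b hb).1) with h' | ⟨k', h'⟩
      · exact Or.inl ⟨h', hin b l c hf h' h1 h2 hl⟩
      · right; left
        refine ⟨k', h', step1_inv2 hf.1 hf.2.1 h1 h2 hl, step2_fork hf h1 h2 hl, ?_⟩
        obtain ⟨i, hi⟩ := hf.2.2.2.2.2.1
        exact ⟨i, in_pos hf.1 hf.2.1 h1 hl hi⟩
    · exact out_state hf.1 hf.2.1 h1 hl (hf.qmut hlk)
  · have hl := pos_of_green (h1.1 l) hg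
    have hlk : l ≠ k := by
      rintro rfl
      exact not_pos_neg hl hn
    exact out_state hf.1 hf.2.1 h1 hl (hf.qmut hlk)

/-- No maximal green sequence starts at a state. -/
theorem no_cseq (hK : ∀ b, K b → Skew b ∧ Ab b)
    (hK2 : ∀ b, K b → ∀ l, K (qmut l b) ∨ Fork (qmut l b) l)
    (hS : ∀ b c, K b → S b c → Inv1 b c ∧ ∃ x, Pos c x)
    (hin : ∀ b k c, Fork b k → K (qmut k b) → Inv1 b c → Inv2 b c → Pos c k →
      S (qmut k b) (mutC k b c))
    (hstep : ∀ b c l, K b → S b c → Pos c l → K (qmut l b) → S (qmut l b) (mutC l b c))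
    (L : List V) : ∀ {b c : V → V → ℤ}, State K S b c → ¬ CSeq b c L := by
  induction L with
  | nil =>
    intro b c h hc
    have : ∃ x, Pos c x := by
      rcases h with ⟨hb, hs⟩ | ⟨k, -, -, -, h⟩ | ⟨k, -, -, -, h⟩
      · exact (hS b c hb hs).2
      · exact h
      · exact h
    obtain ⟨x, hx⟩ := this
    exact hc x hx.1
  | cons k L ih =>
    intro b c h hc
    exact ih (state_step hK hK2 hS hin hstep h hc.1) hc.2

end machine

/-- identity -/
def idC : V → V → ℤ := fun i j => if i = j then 1 else 0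

theorem idC_pos (i : V) : Pos (idC : V → V → ℤ) i := by
  refine ⟨fun j => ?_, i, by simp [idC]⟩
  unfold idC
  split_ifs <;> norm_num

theorem idC_neg (i : V) : ¬ Neg (idC : V → V → ℤ) i := fun h => not_pos_neg (idC_pos i) h

theorem inv1_id (b : V → V → ℤ) : Inv1 b (idC : V → V → ℤ) :=
  ⟨fun i => Or.inl (idC_pos i), fun u _ hu => (idC_neg u hu).elim⟩

theorem inv2_id (b : V → V → ℤ) : Inv2 b (idC : V → V → ℤ) :=
  fun _ u _ _ hu => (idC_neg u hu).elim

theorem state_id_tree {K : (V → V → ℤ) → Prop} {S : (V → V → ℤ) → (V → V → ℤ) → Prop}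
    {b : V → V → ℤ} {k : V} (h : Tree K b k) : State K S b idC :=
  Or.inr (Or.inl ⟨k, h, inv1_id b, inv2_id b, k, idC_pos k⟩)

/-! ### First machine: the core has a special vertex `m` -/

/-- State of the core in the first machine. -/
def S4 (m : V) (b c : V → V → ℤ) : Prop :=
  Inv1 b c ∧ (Inv2 b c ∨ Neg c m) ∧ ∃ x y, Pos c x ∧ 0 < b y x

theorem S4_in {K : (V → V → ℤ) → Prop} (m : V) :
    ∀ b k c, Fork b k → K (qmut k b) → Inv1 b c → Inv2 b c → Pos c k →
      S4 m (qmut k b) (mutC k b c) := by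
  intro b k c hf _ h1 h2 hk
  obtain ⟨i, hi⟩ := hf.2.2.2.2.2.1
  refine ⟨step1_inv2 hf.1 hf.2.1 h1 h2 hk, Or.inl (step2_fork hf h1 h2 hk), i, k,
    in_pos hf.1 hf.2.1 h1 hk hi, ?_⟩
  rw [mut_row]
  have := hf.1 i k
  omega

theorem S4_step {K : (V → V → ℤ) → Prop} (m : V) (hK : ∀ b, K b → Skew b ∧ Ab b)
    (hm : ∀ b, K b → ∃ y, 0 < b y m)
    (hK3 : ∀ b, K b → ∀ l, K (qmut l b) → l = m ∨
      ((∀ x, b x l ≤ 0) ∧ ∀ x, ∃ y, 0 < qmut l b y x) ∨ ((∀ x, b l x ≤ 0) ∧ ∃ y, 0 < b y l)) :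
    ∀ b c l, K b → S4 m b c → Pos c l → K (qmut l b) → S4 m (qmut l b) (mutC l b c) := by
  intro b c l hb hS hl hb'
  obtain ⟨hs, ha⟩ := hK b hb
  obtain ⟨h1, h2, x, y, hx, hyx⟩ := hS
  rcases hK3 b hb l hb' with rfl | ⟨h, h'⟩ | ⟨h, y', hy'⟩
  · have h2' : Inv2 b c := by
      rcases h2 with h2 | h2
      · exact h2
      · exact (not_pos_neg hl h2).elim
    obtain ⟨z, hz⟩ := hm b hb
    refine ⟨step1_inv2 hs ha h1 h2' hl, Or.inr (neg_self hl), z, l, in_pos hs ha h1 hl hz, ?_⟩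
    rw [mut_row]
    have := hs z l
    omega
  · refine ⟨step1_src hs ha h1 hl h, ?_, ?_⟩
    · rcases h2 with h2 | h2
      · exact Or.inl (step2_src hs h2 hl h)
      · right
        have hml : m ≠ l := by
          rintro rfl
          exact not_pos_neg hl h2
        exact h2.congr fun j => mutC_out hl hml (h m) j
    · have hxl : x ≠ l := by
        rintro rfl
        have := h y
        omega
      obtain ⟨z, hz⟩ := h' x
      exact ⟨x, z, hx.congr fun j => mutC_out hl hxl (h x) j, hz⟩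
  · refine ⟨step1_snk hs ha h1 hl h, Or.inl (step2_snk hs ha h1 hl h), y', l,
      in_pos hs ha h1 hl hy', ?_⟩
    rw [mut_row]
    have := hs y' l
    omega

/-- First conclusion: no quiver of the class has a maximal green sequence. -/
theorem no_mgs_four {K : (V → V → ℤ) → Prop} (m : V) (hK : ∀ b, K b → Skew b ∧ Ab b)
    (hK2 : ∀ b, K b → ∀ l, K (qmut l b) ∨ Fork (qmut l b) l)
    (hm : ∀ b, K b → ∃ y, 0 < b y m)
    (hK3 : ∀ b, K b → ∀ l, K (qmut l b) → l = m ∨
      ((∀ x, b x l ≤ 0) ∧ ∀ x, ∃ y, 0 < qmut l b y x) ∨ ((∀ x, b l x ≤ 0) ∧ ∃ y, 0 < b y l))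
    {b : V → V → ℤ} (h : K b ∨ ∃ k, Tree K b k) (L : List V) : ¬ CSeq b idC L := by
  refine no_cseq (K := K) (S := S4 m) hK hK2 ?_ (S4_in m) (S4_step m hK hm hK3) L ?_
  · intro b c _ hS
    obtain ⟨h1, -, x, -, hx, -⟩ := hS
    exact ⟨h1, x, hx⟩
  · rcases h with h | ⟨k, h⟩
    · left
      obtain ⟨y, hy⟩ := hm b h
      exact ⟨h, inv1_id b, Or.inl (inv2_id b), m, y, idC_pos m, hy⟩
    · exact state_id_tree h

/-! ### Second machine: the core consists of acyclic quivers -/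

/-- State of the core in the second machine. -/
def S3 (b c : V → V → ℤ) : Prop :=
  Inv1 b c ∧ ∃ a x, Neg c a ∧ Pos c x ∧ 0 < b a x

theorem S3_in {K : (V → V → ℤ) → Prop} :
    ∀ b k c, Fork b k → K (qmut k b) → Inv1 b c → Inv2 b c → Pos c k →
      S3 (qmut k b) (mutC k b c) := by
  intro b k c hf _ h1 h2 hk
  obtain ⟨i, hi⟩ := hf.2.2.2.2.2.1
  refine ⟨step1_inv2 hf.1 hf.2.1 h1 h2 hk, k, i, neg_self hk,
    in_pos hf.1 hf.2.1 h1 hk hi, ?_⟩
  rw [mut_row]
  have := hf.1 i k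
  omega

theorem S3_step {K : (V → V → ℤ) → Prop} (hK : ∀ b, K b → Skew b ∧ Ab b)
    (hK3 : ∀ b, K b → ∀ l, K (qmut l b) →
      (∀ x, b x l ≤ 0) ∨ ((∀ x, b l x ≤ 0) ∧ ∃ y, 0 < b y l)) :
    ∀ b c l, K b → S3 b c → Pos c l → K (qmut l b) → S3 (qmut l b) (mutC l b c) := by
  intro b c l hb hS hl hb'
  obtain ⟨hs, ha⟩ := hK b hb
  obtain ⟨h1, a, x, hna, hx, hax⟩ := hS
  rcases hK3 b hb l hb' with h | ⟨h, y', hy'⟩
  · refine ⟨step1_src hs ha h1 hl h, a, x, ?_, ?_, ?_⟩
    · have hal : a ≠ l := by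
        rintro rfl
        exact not_pos_neg hl hna
      exact hna.congr fun j => mutC_out hl hal (h a) j
    · have hxl : x ≠ l := by
        rintro rfl
        have := h a
        omega
      exact hx.congr fun j => mutC_out hl hxl (h x) j
    · have hal : a ≠ l := by
        rintro rfl
        exact not_pos_neg hl hna
      have hxl : x ≠ l := by
        rintro rfl
        have := h a
        omega
      rw [mut_same hal hxl (Or.inl (h a)) (Or.inl (h x))]
      exact hax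
  · refine ⟨step1_snk hs ha h1 hl h, l, y', neg_self hl,
      in_pos hs ha h1 hl hy', ?_⟩
    rw [mut_row]
    have := hs y' l
    omega

/-- Second conclusion: the forks have no maximal green sequence. -/
theorem no_mgs_three {K : (V → V → ℤ) → Prop} (hK : ∀ b, K b → Skew b ∧ Ab b)
    (hK2 : ∀ b, K b → ∀ l, K (qmut l b) ∨ Fork (qmut l b) l)
    (hK3 : ∀ b, K b → ∀ l, K (qmut l b) →
      (∀ x, b x l ≤ 0) ∨ ((∀ x, b l x ≤ 0) ∧ ∃ y, 0 < b y l))
    {b : V → V → ℤ} {k : V} (h : Tree K b k) (L : List V) : ¬ CSeq b idC L := by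
  refine no_cseq (K := K) (S := S3) hK hK2 ?_ S3_in (S3_step hK hK3) L ?_
  · intro b c _ hS
    obtain ⟨h1, a, x, -, hx, -⟩ := hS
    exact ⟨h1, x, hx⟩
  · exact state_id_tree h

end Pool.Agent.V117.MGS
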