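import Mathlib

/-! Subspace lattices: independent families. -/

namespace Pool.Agent.V117.SubLat

open Cardinal

universe u

/-- Interpolation by polynomials at finitely many points of `B → F`. -/
theorem interpolate {B F : Type*} [Field F] (T : Finset (B → F)) (e : (B → F) → F) :
    ∃ P : MvPolynomial B F, ∀ c ∈ T, MvPolynomial.eval c P = e c := by
  classical
  induction T using Finset.induction_on with
  | empty => exact ⟨0, by simp⟩
  | insert c0 T hc0 ih =>
    obtain ⟨P, hP⟩ := ih
    -- a polynomial vanishing on `T` and not at `c0`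
    have hQ : ∀ S : Finset (B → F), c0 ∉ S → ∃ Q : MvPolynomial B F,
        (∀ c ∈ S, MvPolynomial.eval c Q = 0) ∧ MvPolynomial.eval c0 Q ≠ 0 := by
      intro S
      induction S using Finset.induction_on with
      | empty => exact fun _ => ⟨1, by simp, by simp⟩
      | insert c S hc ih2 =>
        intro h
        rw [Finset.mem_insert, not_or] at h
        obtain ⟨Q, hQ1, hQ2⟩ := ih2 h.2
        obtain ⟨b, hb⟩ : ∃ b, c0 b ≠ c b := by
          by_contra hcon
          push Not at hcon
          exact h.1 (funext hcon)
        refine ⟨Q * (MvPolynomial.X b - MvPolynomial.C (c b)), ?_, ?_⟩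
        · intro c' hc'
          rw [Finset.mem_insert] at hc'
          rcases hc' with rfl | hc'
          · simp
          · simp [hQ1 c' hc']
        · simp only [map_mul, map_sub, MvPolynomial.eval_X, MvPolynomial.eval_C]
          exact mul_ne_zero hQ2 (sub_ne_zero.mpr hb)
    obtain ⟨Q, hQ1, hQ2⟩ := hQ T hc0
    refine ⟨P + MvPolynomial.C ((e c0 - MvPolynomial.eval c0 P) / MvPolynomial.eval c0 Q) * Q, ?_⟩
    intro c hc
    rw [Finset.mem_insert] at hc
    rcases hc with rfl | hc
    · simp only [map_add, map_mul, MvPolynomial.eval_C]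
      field_simp
      ring
    · simp [hP c hc, hQ1 c hc]

section Model

variable (B F : Type u) [Field F]

/-- The coefficient ring of the model. -/
abbrev Rg := MvPolynomial (B →₀ ℕ) F

/-- The model space. -/
abbrev Mod1 := Finset (B →₀ ℕ) →₀ Rg B F

variable {B F}

/-- The universal polynomial of support `j`, evaluated at `c`. -/
noncomputable def pol (c : B → F) (j : Finset (B →₀ ℕ)) : Rg B F :=
  ∑ α ∈ j, MvPolynomial.C (∏ i ∈ α.support, c i ^ α i) * MvPolynomial.X α

/-- The two subspaces attached to `c`. -/
noncomputable def sub1 (c : B → F) (t : Bool) : Submodule F (Mod1 B F) where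
  carrier := {v | ∀ j, v j ∈ Ideal.span {if t then pol c j else 1 - pol c j}}
  add_mem' := fun ha hb j => by
    rw [Finsupp.add_apply]
    exact Ideal.add_mem _ (ha j) (hb j)
  zero_mem' := fun j => by
    rw [Finsupp.zero_apply]
    exact Ideal.zero_mem _
  smul_mem' := fun a v hv j => by
    rw [Finsupp.smul_apply, MvPolynomial.smul_eq_C_mul]
    exact Ideal.mul_mem_left _ _ (hv j)

theorem mem_sub1 (c : B → F) (t : Bool) (v : Mod1 B F) : v ∈ sub1 c t ↔
    ∀ j, v j ∈ Ideal.span {if t then pol c j else 1 - pol c j} := Iff.rfl

theorem sub1_sup (c : B → F) : sub1 c true ⊔ sub1 c false = ⊤ := by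
  classical
  rw [eq_top_iff]
  rintro v -
  induction v using Finsupp.induction_linear with
  | zero => exact Submodule.zero_mem _
  | add f g hf hg => exact Submodule.add_mem _ hf hg
  | single j r =>
    have h : (Finsupp.single j r : Mod1 B F) =
        Finsupp.single j (r * pol c j) + Finsupp.single j (r * (1 - pol c j)) := by
      rw [← Finsupp.single_add]
      congr 1
      ring
    rw [h]
    apply Submodule.add_mem_sup
    · rw [mem_sub1]
      intro i
      by_cases hij : j = i
      · subst hij
        simp only [Finsupp.single_eq_same, if_true]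
        exact Ideal.mul_mem_left _ _ (Ideal.subset_span rfl)
      · rw [Finsupp.single_eq_of_ne (Ne.symm hij)]
        exact Ideal.zero_mem _
    · rw [mem_sub1]
      intro i
      by_cases hij : j = i
      · subst hij
        simp only [Finsupp.single_eq_same]
        exact Ideal.mul_mem_left _ _ (Ideal.subset_span rfl)
      · rw [Finsupp.single_eq_of_ne (Ne.symm hij)]
        exact Ideal.zero_mem _

theorem sub1_fin (T : Finset (B → F)) (e : (B → F) → Bool) :
    (T.sup fun c => sub1 c (e c)) ≠ ⊤ := by
  classical
  obtain ⟨P, hP⟩ := interpolate T (fun c => if e c then (0 : F) else 1)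
  let L : Mod1 B F →ₗ[F] F :=
    (MvPolynomial.aeval (R := F) (fun α => MvPolynomial.coeff α P)).toLinearMap ∘ₗ
      Finsupp.lapply P.support
  have hev : ∀ c ∈ T, MvPolynomial.aeval (R := F) (fun α => MvPolynomial.coeff α P)
      (if e c then pol c P.support else 1 - pol c P.support) = 0 := by
    intro c hc
    have h1 : MvPolynomial.aeval (R := F) (fun α => MvPolynomial.coeff α P)
        (pol c P.support) = MvPolynomial.eval c P := by
      rw [MvPolynomial.eval_eq, pol, map_sum]
      apply Finset.sum_congr rfl
      intro α _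
      rw [map_mul, MvPolynomial.aeval_C, MvPolynomial.aeval_X, mul_comm]
      rfl
    by_cases hec : e c
    · simp only [hec, if_true]
      rw [h1, hP c hc]
      simp [hec]
    · simp only [hec]
      rw [if_neg (by simp), map_sub, map_one, h1, hP c hc]
      simp [hec]
  have hle : (T.sup fun c => sub1 c (e c)) ≤ LinearMap.ker L := by
    apply Finset.sup_le
    intro c hc v hv
    rw [LinearMap.mem_ker]
    have h2 := hv P.support
    rw [Ideal.mem_span_singleton] at h2
    obtain ⟨w, hw⟩ := h2
    show MvPolynomial.aeval (R := F) (fun α => MvPolynomial.coeff α P) (v P.support) = 0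
    rw [hw, map_mul, hev c hc, zero_mul]
  intro htop
  rw [htop, top_le_iff] at hle
  have h3 : (Finsupp.single P.support (1 : Rg B F) : Mod1 B F) ∈ LinearMap.ker L := by
    rw [hle]; trivial
  rw [LinearMap.mem_ker] at h3
  have h4 : L (Finsupp.single P.support (1 : Rg B F)) = 1 := by
    show MvPolynomial.aeval (R := F) (fun α => MvPolynomial.coeff α P)
      ((Finsupp.single P.support (1 : Rg B F) : Mod1 B F) P.support) = 1
    rw [Finsupp.single_eq_same, map_one]
  rw [h4] at h3
  exact one_ne_zero h3

theorem rank_Mod1 [Infinite B] : Module.rank F (Mod1 B F) = #B := by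
  have h1 : #(B →₀ ℕ) = #B := by
    rw [mk_finsupp_nat, max_eq_left (aleph0_le_mk B)]
  rw [rank_finsupp', MvPolynomial.rank_eq, mk_finset_of_infinite, h1, mk_finsupp_nat, h1,
    max_eq_left (aleph0_le_mk _), mul_eq_self (aleph0_le_mk B)]

end Model

/-- The independent family for ideals, in any space of infinite dimension. -/
theorem exists_family_ideal (F V B : Type u) [Field F] [AddCommGroup V] [Module F V] [Infinite B]
    (b : Module.Basis B F V) :
    ∃ S : (B → F) → Bool → Submodule F V, (∀ c, S c true ⊔ S c false = ⊤) ∧
      ∀ (T : Finset (B → F)) (e : (B → F) → Bool), (T.sup fun c => S c (e c)) ≠ ⊤ := by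
  classical
  have hr : Module.rank F (Mod1 B F) = Module.rank F V := by
    rw [rank_Mod1, b.mk_eq_rank'']
  obtain ⟨φ⟩ := nonempty_linearEquiv_of_rank_eq hr
  let ψ : Submodule F (Mod1 B F) ≃o Submodule F V := Submodule.orderIsoMapComap φ
  refine ⟨fun c t => ψ (sub1 c t), fun c => ?_, fun T e => ?_⟩
  · rw [← map_sup, sub1_sup, map_top]
  · intro h
    apply sub1_fin T e
    have h2 : ψ (T.sup fun c => sub1 c (e c)) = ⊤ := by
      rw [map_finset_sup]
      exact h
    rw [← ψ.symm_apply_apply (T.sup fun c => sub1 c (e c)), h2, map_top]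

end Pool.Agent.V117.SubLat
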