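import Mathlib

/-! A Noetherian ring where the largest `n` with `J ^ m ≤ I ^ n` has increments that are not
eventually periodic (failure of the Skolem-Mahler-Lech theorem in characteristic two). -/

namespace Pool.Agent.V117.VPeriod

open Polynomial

abbrev R0 := Polynomial (ZMod 2)
abbrev P := Polynomial R0
abbrev B := Fin 4 → P

instance : CharP R0 2 := inferInstance

/-- the condition on coefficients -/
def Good (g : B) : Prop := (∀ i, (g i).coeff 0 = (g 0).coeff 0) ∧ ∑ i, (g i).coeff 1 = 0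

def A : Subalgebra P B where
  carrier := {g | Good g}
  mul_mem' := by
    rintro g h ⟨hg0, hg1⟩ ⟨hh0, hh1⟩
    refine ⟨fun i => ?_, ?_⟩
    · simp only [Pi.mul_apply, mul_coeff_zero]
      rw [hg0 i, hh0 i]
    · simp only [Pi.mul_apply, mul_coeff_one]
      rw [Finset.sum_add_distrib]
      have e1 : ∑ i, (g i).coeff 0 * (h i).coeff 1 = (g 0).coeff 0 * ∑ i, (h i).coeff 1 := by
        rw [Finset.mul_sum]
        exact Finset.sum_congr rfl fun i _ => by rw [hg0 i]
      have e2 : ∑ i, (g i).coeff 1 * (h i).coeff 0 = (∑ i, (g i).coeff 1) * (h 0).coeff 0 := by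
        rw [Finset.sum_mul]
        exact Finset.sum_congr rfl fun i _ => by rw [hh0 i]
      rw [e1, e2, hg1, hh1]; simp
  add_mem' := by
    rintro g h ⟨hg0, hg1⟩ ⟨hh0, hh1⟩
    refine ⟨fun i => ?_, ?_⟩
    · simp only [Pi.add_apply, coeff_add]
      rw [hg0 i, hh0 i]
    · simp only [Pi.add_apply, coeff_add]
      rw [Finset.sum_add_distrib, hg1, hh1, add_zero]
  algebraMap_mem' := by
    intro r
    refine ⟨fun i => rfl, ?_⟩
    simp only [Pi.algebraMap_apply, Algebra.algebraMap_self, RingHom.id_apply, Finset.sum_const,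
      Finset.card_univ, Fintype.card_fin]
    have : (4 : ℕ) = 2 * 2 := rfl
    rw [this, mul_nsmul]
    have h2 : ∀ z : R0, 2 • z = 0 := fun z => by
      rw [nsmul_eq_mul, CharP.cast_eq_zero, zero_mul]
    rw [h2]

lemma mem_A {g : B} : g ∈ A ↔ Good g := Iff.rfl

instance : IsNoetherianRing A := by
  have h1 : IsNoetherian P B := inferInstance
  have h2 : IsNoetherian P A := isNoetherian_of_injective A.val.toLinearMap Subtype.val_injective
  exact isNoetherian_of_tower P h2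

/-- the four roots -/
noncomputable def f : Fin 4 → R0 := ![1 + X, X, 1, 0]

noncomputable def mon (j : ℕ) (c : Fin 4 → R0) : B := fun i => monomial j (c i)

lemma mon_mem_of_two_le {j : ℕ} (hj : 2 ≤ j) (c : Fin 4 → R0) : mon j c ∈ A := by
  rw [mem_A]
  constructor
  · intro i
    simp only [mon, coeff_monomial]
    rw [if_neg (by omega), if_neg (by omega)]
  · simp only [mon, coeff_monomial]
    simp [show j ≠ 1 by omega]

lemma mon_one_mem_iff (c : Fin 4 → R0) : mon 1 c ∈ A ↔ ∑ i, c i = 0 := by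
  rw [mem_A]
  constructor
  · rintro ⟨-, h⟩
    simpa [mon, coeff_monomial] using h
  · intro h
    refine ⟨fun i => by simp [mon, coeff_monomial], ?_⟩
    simpa [mon, coeff_monomial] using h

lemma f_sum_pow {m : ℕ} (hm : 1 ≤ m) : ∑ i, f i ^ m = (1 + X) ^ m + X ^ m + 1 := by
  simp [Fin.sum_univ_four, f, zero_pow (by omega : m ≠ 0)]

noncomputable def y : A := ⟨mon 1 f, by
  rw [mon_one_mem_iff]
  have := f_sum_pow (m := 1) le_rfl
  simp only [pow_one] at this
  rw [this]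
  have : (1 + X + X + 1 : R0) = 2 * (1 + X) := by ring
  rw [this]
  have h2 : (2 : R0) = 0 := CharP.cast_eq_zero R0 2
  rw [h2, zero_mul]⟩

noncomputable def x : A := algebraMap P A X

lemma y_pow (m : ℕ) : ((y ^ m : A) : B) = mon m (fun i => f i ^ m) := by
  funext i
  simp [y, mon, monomial_pow]

lemma x_pow (n : ℕ) (i : Fin 4) : ((x ^ n : A) : B) i = X ^ n := by
  simp [x]

lemma dvd_iff {m n : ℕ} (h : n ≤ m) : x ^ n ∣ y ^ m ↔ mon (m - n) (fun i => f i ^ m) ∈ A := by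
  constructor
  · rintro ⟨a, ha⟩
    have : (a : B) = mon (m - n) (fun i => f i ^ m) := by
      funext i
      have h1 : ((y ^ m : A) : B) i = ((x ^ n : A) : B) i * (a : B) i := by
        rw [ha]; rfl
      rw [y_pow, x_pow] at h1
      have h2 : (X : P) ^ n * (a : B) i = X ^ n * mon (m - n) (fun i => f i ^ m) i := by
        rw [← h1]
        simp only [mon]
        rw [X_pow_mul_monomial, Nat.sub_add_cancel h]
      exact mul_left_cancel₀ (pow_ne_zero _ X_ne_zero) h2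
    rw [← this]
    exact a.2
  · intro ha
    refine ⟨⟨_, ha⟩, ?_⟩
    apply Subtype.ext
    funext i
    have h1 : ((x ^ n * ⟨_, ha⟩ : A) : B) i = ((x ^ n : A) : B) i * mon (m - n) (fun i => f i ^ m) i := rfl
    rw [h1, y_pow, x_pow]
    simp only [mon]
    rw [X_pow_mul_monomial, Nat.sub_add_cancel h]

lemma not_dvd {m n : ℕ} (hm : 1 ≤ m) (h : m ≤ n) : ¬ x ^ n ∣ y ^ m := by
  intro hd
  have h1 : x ^ m ∣ y ^ m := (pow_dvd_pow x h).trans hd
  rw [dvd_iff le_rfl, mem_A] at h1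
  have h2 := h1.1 2
  have h3 := h1.1 3
  rw [← h3] at h2
  simp [mon, f, zero_pow (by omega : m ≠ 0)] at h2

/-- exceptional exponents -/
def E (m : ℕ) : Prop := (1 + X : R0) ^ m + X ^ m + 1 = 0

lemma dvd_E {m : ℕ} (hm : 2 ≤ m) (hE : E m) (n : ℕ) : x ^ n ∣ y ^ m ↔ n ≤ m - 1 := by
  constructor
  · intro h
    by_contra hcon
    exact not_dvd (by omega) (by omega) h
  · intro h
    refine (pow_dvd_pow x h).trans ?_
    rw [dvd_iff (by omega)]
    have : m - (m - 1) = 1 := by omega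
    rw [this, mon_one_mem_iff, f_sum_pow (by omega)]
    exact hE

lemma dvd_notE {m : ℕ} (hm : 2 ≤ m) (hE : ¬ E m) (n : ℕ) : x ^ n ∣ y ^ m ↔ n ≤ m - 2 := by
  constructor
  · intro h
    by_contra hcon
    have h0 : m - 1 ≤ n := by omega
    have h1 : x ^ (m - 1) ∣ y ^ m := (pow_dvd_pow x h0).trans h
    rw [dvd_iff (by omega)] at h1
    have : m - (m - 1) = 1 := by omega
    rw [this, mon_one_mem_iff, f_sum_pow (by omega)] at h1
    exact hE h1
  · intro h
    refine (pow_dvd_pow x h).trans ?_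
    rw [dvd_iff (by omega)]
    exact mon_mem_of_two_le (by omega) _

lemma E_two_pow (k : ℕ) : E (2 ^ k) := by
  unfold E
  rw [add_pow_char_pow, one_pow]
  have : (1 + X ^ 2 ^ k + X ^ 2 ^ k + 1 : R0) = 2 * (1 + X ^ 2 ^ k) := by ring
  rw [this]
  have h2 : (2 : R0) = 0 := CharP.cast_eq_zero R0 2
  rw [h2, zero_mul]

lemma notE {k t : ℕ} (ht : 1 ≤ t) (hk : t < 2 ^ k) : ¬ E (2 ^ k + t) := by
  unfold E
  intro h
  have h1 := congrArg (fun q : R0 => q.coeff (2 ^ k)) h
  simp only [coeff_add, coeff_zero] at h1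
  rw [pow_add, add_pow_char_pow, one_pow, add_mul, one_mul, coeff_add, coeff_X_pow, coeff_one,
    if_neg (by omega), if_neg (by omega)] at h1
  have e1 : (X ^ 2 ^ k * (1 + X) ^ t : R0).coeff (2 ^ k) = 1 := by
    have := coeff_X_pow_mul ((1 + X : R0) ^ t) (2 ^ k) 0
    rw [zero_add] at this
    rw [this, coeff_zero_eq_eval_zero]
    simp
  have e2 : ((1 + X : R0) ^ t).coeff (2 ^ k) = 0 := by
    apply coeff_eq_zero_of_natDegree_lt
    refine lt_of_le_of_lt ?_ hk
    have h3 : (1 + X : R0).natDegree ≤ 1 := by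
      rw [add_comm]
      exact natDegree_X_add_C (1 : ZMod 2) ▸ le_rfl
    calc ((1 + X : R0) ^ t).natDegree ≤ t * (1 + X : R0).natDegree := natDegree_pow_le
      _ ≤ t * 1 := Nat.mul_le_mul_left _ h3
      _ = t := mul_one _
  rw [e1, e2] at h1
  simp at h1

lemma x_pow_ne (n : ℕ) : x ^ n ≠ 0 := by
  intro h
  have h1 : ((x ^ n : A) : B) 0 = 0 := by rw [h]; rfl
  rw [x_pow] at h1
  exact pow_ne_zero n X_ne_zero h1

lemma y_pow_ne (m : ℕ) : y ^ m ≠ 0 := by
  intro h
  have h1 : ((y ^ m : A) : B) 2 = 0 := by rw [h]; rfl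
  rw [y_pow] at h1
  simp [mon, f] at h1

lemma eq_zero_of_dvd (g : A) (h : ∀ n, x ^ n ∣ g) : g = 0 := by
  apply Subtype.ext
  funext i
  have h1 : ∀ n, (X : P) ^ n ∣ (g : B) i := by
    intro n
    obtain ⟨a, rfl⟩ := h n
    exact ⟨(a : B) i, by rw [← x_pow n i]; rfl⟩
  by_contra hne
  have hne' : (g : B) i ≠ 0 := hne
  have h2 := Polynomial.natDegree_le_of_dvd (h1 (((g : B) i).natDegree + 1)) hne'
  rw [natDegree_X_pow] at h2
  omega

section general

variable {A : Type} [CommRing A] (x y : A)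

lemma J_pow_le {m n : ℕ} : Ideal.span {y} ^ m ≤ Ideal.span {x} ^ n ↔ x ^ n ∣ y ^ m := by
  rw [Ideal.span_singleton_pow, Ideal.span_singleton_pow, Ideal.span_singleton_le_span_singleton]

theorem not_periodic (E : ℕ → Prop) (hE : ∀ m, 2 ≤ m → E m → ∀ n, x ^ n ∣ y ^ m ↔ n ≤ m - 1)
    (hN : ∀ m, 2 ≤ m → ¬ E m → ∀ n, x ^ n ∣ y ^ m ↔ n ≤ m - 2)
    (h2p : ∀ k, E (2 ^ k)) (hnp : ∀ k t, 1 ≤ t → t < 2 ^ k → ¬ E (2 ^ k + t))
    (t : ℕ) (ht : 0 < t) (M : ℕ) (h : ∀ m : ℕ, M ≤ m →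
      ((sSup {n : ℕ | Ideal.span {y} ^ (m + 1 + t) ≤ Ideal.span {x} ^ n} : ℕ) : ℤ)
            - ((sSup {n : ℕ | Ideal.span {y} ^ (m + t) ≤ Ideal.span {x} ^ n} : ℕ) : ℤ)
          = ((sSup {n : ℕ | Ideal.span {y} ^ (m + 1) ≤ Ideal.span {x} ^ n} : ℕ) : ℤ)
            - ((sSup {n : ℕ | Ideal.span {y} ^ m ≤ Ideal.span {x} ^ n} : ℕ) : ℤ)) : False := by
  set v : ℕ → ℕ := fun m => sSup {n : ℕ | Ideal.span {y} ^ m ≤ Ideal.span {x} ^ n} with hv
  have v_E : ∀ m, 2 ≤ m → E m → v m = m - 1 := by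
    intro m hm hEm
    have : {n : ℕ | Ideal.span {y} ^ m ≤ Ideal.span {x} ^ n} = Set.Iic (m - 1) := by
      ext n
      rw [Set.mem_ofPred_eq, J_pow_le, Set.mem_Iic]
      exact hE m hm hEm n
    simp only [hv]
    rw [this, csSup_Iic]
  have v_notE : ∀ m, 2 ≤ m → ¬ E m → v m = m - 2 := by
    intro m hm hEm
    have : {n : ℕ | Ideal.span {y} ^ m ≤ Ideal.span {x} ^ n} = Set.Iic (m - 2) := by
      ext n
      rw [Set.mem_ofPred_eq, J_pow_le, Set.mem_Iic]
      exact hN m hm hEm n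
    simp only [hv]
    rw [this, csSup_Iic]
  have v_bounds : ∀ m : ℕ, 2 ≤ m → (m : ℤ) - 2 ≤ v m ∧ (v m : ℤ) ≤ m - 1 := by
    intro m hm
    by_cases hEm : E m
    · rw [v_E m hm hEm]; omega
    · rw [v_notE m hm hEm]; omega
  have h' : ∀ m : ℕ, M ≤ m →
    ((v (m + 1 + t) : ℤ)) - (v (m + t) : ℤ) = (v (m + 1) : ℤ) - (v m : ℤ) := h
  clear_value v
  -- `D m = v (m + t) - v m` is constant
  have h1 : ∀ m, M ≤ m → (v (m + t) : ℤ) - v m = (v (M + t) : ℤ) - v M := by
    intro m hm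
    induction m, hm using Nat.le_induction with
    | base => rfl
    | succ m hm ih =>
      have := h' m hm
      linarith
  set c : ℤ := (v (M + t) : ℤ) - v M with hc
  have h2 : ∀ m, M ≤ m → ∀ j : ℕ, (v (m + j * t) : ℤ) = v m + j * c := by
    intro m hm j
    induction j with
    | zero => simp
    | succ j ih =>
      have h3 := h1 (m + j * t) (by omega)
      have e : m + j * t + t = m + (j + 1) * t := by ring
      rw [e] at h3
      push_cast
      linarith
  have hct : c = t := by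
    have hb := v_bounds (M + 2) (by omega)
    have hb2 := v_bounds (M + 2 + 5 * t) (by omega)
    have h3 := h2 (M + 2) (by omega) 5
    push_cast at hb hb2 h3
    omega
  obtain ⟨k, hk⟩ : ∃ k, M + t + 2 < 2 ^ k := ⟨M + t + 2, Nat.lt_two_pow_self⟩
  have h4 := h1 (2 ^ k) (by omega)
  rw [hct, v_E _ (by omega) (h2p k), v_notE _ (by omega) (hnp k t ht (by omega))] at h4
  omega

lemma le_radical (h : x ∣ y ^ 3) : Ideal.span {y} ≤ (Ideal.span {x}).radical := by
  rw [Ideal.span_singleton_le_iff_mem]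
  exact ⟨3, Ideal.mem_span_singleton.mpr h⟩

lemma pow_ne_bot {z : A} (h : ∀ n, z ^ n ≠ 0) (n : ℕ) : Ideal.span {z} ^ n ≠ ⊥ := by
  rw [Ideal.span_singleton_pow, Ne, Ideal.span_singleton_eq_bot]
  exact h n

lemma iInf_eq_bot (h : ∀ g, (∀ n, x ^ n ∣ g) → g = 0) : (⨅ n : ℕ, Ideal.span {x} ^ n) = ⊥ := by
  rw [eq_bot_iff]
  intro g hg
  rw [Submodule.mem_iInf] at hg
  apply h
  intro n
  have := hg n
  rw [Ideal.span_singleton_pow, Ideal.mem_span_singleton] at this
  exact this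

end general

end Pool.Agent.V117.VPeriod
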